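import Pool.Agent.Work.MP_9d1ffa_al.Triv
import Pool.Agent.Work.MP_9d1ffa_al.GN.Cl
import Mathlib
import Pool.Agent.Work.MP_9d1ffa_al.Defs

-- merged part: Pool.Agent.Work.MP_9d1ffa_al.WL.Df
section
/-! Interfaces for the vanishing of Whitehead groups of linear groups. -/

namespace Pool.Agent.Work.MP_9d1ffa_al.WL

open Matrix Filter

section

variable {Q Ω : Type} [Group Q] [MulAction Q Ω]

/-- `ν` is `η`-close to the translate of `μ` by `g` -/
def Cl (η : ℝ) (g : Q) (μ ν : Ω → ℝ) : Prop := ∀ ω, |ν (g • ω) - μ ω| ≤ η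

/-- admissible positions -/
def Pos (Good : Subgroup Q → Prop) (N : ℕ) (μ : Ω → ℝ) : Prop :=
  (∀ ω, 0 ≤ μ ω ∧ μ ω ≤ 1) ∧ (∃ ω, 1 ≤ (N + 1 : ℝ) * μ ω) ∧
    (Function.support μ).encard ≤ (N + 1 : ℕ) ∧
    ∀ (σ : Set Ω) (H : Subgroup Q), σ.Nonempty → σ ⊆ Function.support μ →
      (∀ h ∈ H, ∀ ω ∈ σ, h • ω ∈ σ) → Good H

/-- chain level transfer data -/
structure CD (B : Type) [Fintype B] [DecidableEq B] (S : Finset Q) (N : ℕ) (ε : ℝ)
    (p : B → Ω → ℝ) where
  dg : B → ℕ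
  d : Matrix B B ℤ
  Φ : Q → Matrix B B ℤ
  H : Q → Q → Matrix B B ℤ
  J : Q → Matrix B B ℤ
  u : B → ℤ
  v : B → ℤ
  dg_le : ∀ b, dg b ≤ N
  d_dg : ∀ b' b, d b' b ≠ 0 → dg b' + 1 = dg b
  Φ_dg : ∀ g b' b, Φ g b' b ≠ 0 → dg b' = dg b
  H_dg : ∀ g h b' b, H g h b' b ≠ 0 → dg b' = dg b + 1
  J_dg : ∀ g b' b, J g b' b ≠ 0 → dg b' = dg b + 1
  u_dg : ∀ b, u b ≠ 0 → dg b = 0
  v_dg : ∀ b, v b ≠ 0 → dg b = 0
  dd : d * d = 0
  dΦ : ∀ g ∈ S, d * Φ g = Φ g * d
  dH : ∀ g ∈ S, ∀ h ∈ S, d * H g h + H g h * d = Φ g * Φ h - Φ (g * h)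
  dJ : ∀ g ∈ S, d * J g + J g * d = Φ g - vecMulVec u v
  vu : v ⬝ᵥ u = 1
  vd : v ᵥ* d = 0
  d_cl : ∀ b' b, d b' b ≠ 0 → Cl ε (1 : Q) (p b) (p b')
  Φ_cl : ∀ g ∈ S, ∀ b' b, Φ g b' b ≠ 0 → Cl ε g (p b) (p b')
  H_cl : ∀ g ∈ S, ∀ h ∈ S, ∀ b' b, H g h b' b ≠ 0 → Cl ε (g * h) (p b) (p b')

/-- the subgroup of the elements that fix `ν` -/
def St (Q : Type) [Group Q] [MulAction Q Ω] (ν : Ω → ℝ) : Subgroup Q where
  carrier := {g | ∀ ω, ν (g • ω) = ν ω}
  mul_mem' := fun {a b} ha hb ω => by rw [mul_smul, ha, hb]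
  one_mem' := fun ω => by rw [one_smul]
  inv_mem' := fun {a} ha ω => by rw [← ha, smul_inv_smul]

/-- control of a matrix over the group ring -/
def CtlM {B : Type} (η : ℝ) (p : B → Ω → ℝ) (A : Matrix B B (ZG Q)) : Prop :=
  ∀ b' b g, (A b' b).coeff g ≠ 0 → Cl η g (p b) (p b')

end

/-- `Q` has chain level transfer data of bounded dimension over the subgroups in `Good` -/
def CDat (Q : Type) [Group Q] (Good : Subgroup Q → Prop) : Prop :=
  ∃ N : ℕ, ∀ (S : Finset Q) (ε : ℝ), 0 < ε →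
    ∃ (Ω : Type) (_ : MulAction Q Ω) (B : Type) (_ : Fintype B) (_ : DecidableEq B)
      (p : B → Ω → ℝ), Nonempty (CD B S N ε p) ∧ ∀ b, Pos Good N (p b)

/-- a class of groups with trivial Whitehead group that is stable under products with `ℤ` -/
structure WCl (W : (G : Type) → [Group G] → Prop) : Prop where
  wh : ∀ (G : Type) [Group G], W G → WhGen (∅ : Set (Subgroup G))
  int : ∀ (G : Type) [Group G], W G → W (G × Multiplicative ℤ)
  iso : ∀ (G H : Type) [Group G] [Group H], (G ≃* H) → W G → W H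

/-- The squeezing theorem. -/
def VanM : Prop :=
  ∀ (W : (G : Type) → [Group G] → Prop), WCl W →
    ∀ (K : Type) [Group K] (Ω : Type) [MulAction K Ω] (N : ℕ) (B : ℕ → Type) [∀ m, Fintype (B m)]
      [∀ m, DecidableEq (B m)] (p : ∀ m, B m → Ω → ℝ) (A A' : ∀ m, Matrix (B m) (B m) (ZG K)),
      (∀ m b, Pos (fun _ : Subgroup K => True) N (p m b)) →
      (∀ m b (ν : Ω → ℝ), (Function.support ν).Nonempty →
        Function.support ν ⊆ Function.support (p m b) → W (St K ν)) →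
      (∀ m, A m * A' m = 1 ∧ A' m * A m = 1) →
      (∀ η : ℝ, 0 < η → ∀ᶠ m in atTop, CtlM η (p m) (A m) ∧ CtlM η (p m) (A' m)) →
      ∃ m, Triv ∅ (A m)

/-- The fibred statement relative to the class `𝒮`. -/
def Rl (W 𝒮 : (G : Type) → [Group G] → Prop) (Q : Type) [Group Q] : Prop :=
  ∀ (K : Type) [Group K] (φ : K →* Q), (∀ L : Subgroup K, 𝒮 (L.map φ) → W L) → W K

/-- Theorem A for the class `W` (it is proved for `W = WhK` in `WL/Top.lean`). -/
def ThmA (W : (G : Type) → [Group G] → Prop) : Prop :=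
  ∀ (Q : Type) [Group Q] (Good : Subgroup Q → Prop), CDat Q Good →
    ∀ (K : Type) [Group K] (φ : K →* Q), (∀ L : Subgroup K, Good (L.map φ) → W L) → W K

end Pool.Agent.Work.MP_9d1ffa_al.WL
end

-- merged part: Pool.Agent.Work.MP_9d1ffa_al.WL.BD
section
/-! The formal part: wreath products, the base class, the rules and the interfaces. -/

namespace Pool.Agent.Work.MP_9d1ffa_al.WL

/-- A subgroup of finite index of `H` has each coordinate of its elements in the base group inside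
a member of `Fam`. -/
def GoodW {G F : Type} [Group G] [Group F] (Fam : Subgroup G → Prop) (H : Subgroup (G ≀ᵣ F)) :
    Prop :=
  ∃ H₀ : Subgroup H, H₀.FiniteIndex ∧ ∀ q, ∃ H', Fam H' ∧
    ∀ g ∈ H₀, (g : G ≀ᵣ F).right = 1 → (g : G ≀ᵣ F).left q ∈ H'

/-- Virtually solvable; for `c ≠ 0` with a torsion commutator subgroup. -/
def Sc (c : ℕ) (G : Type) [Group G] : Prop :=
  ∃ H : Subgroup G, H.FiniteIndex ∧ Group.IsSolvable H ∧
    (c ≠ 0 → ∀ x ∈ commutator H, IsOfFinOrder x)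

/-- transfer data for all wreath products with finite groups -/
def CDW (G : Type) [Group G] (Fam : Subgroup G → Prop) : Prop :=
  ∀ (F : Type) [Group F] [Finite F], CDat (G ≀ᵣ F) (GoodW Fam)

/-- the fibred statement for all wreath products with finite groups -/
def PW (W 𝒮 : (G : Type) → [Group G] → Prop) (Q : Type) [Group Q] : Prop :=
  ∀ (F : Type) [Group F] [Finite F], Rl W 𝒮 (Q ≀ᵣ F)

/-- what the formal part uses about the class `W` -/
structure WB (W : (G : Type) → [Group G] → Prop) : Prop where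
  iso : ∀ (G H : Type) [Group G] [Group H], (G ≃* H) → W G → W H
  loc : ∀ (G : Type) [Group G], (∀ T : Finset G, W (Subgroup.closure (T : Set G))) → W G
  thmA : ThmA W

/-- The closure rules. -/
structure Closed2 (c : ℕ) (P : (G : Type) → [Group G] → Prop) : Prop where
  base : ∀ (G : Type) [Group G], Sc c G → P G
  loc : ∀ (G : Type) [Group G], (∀ H : Subgroup G, H.FG → P H) → P G
  fin : ∀ (G : Type) [Group G] (H : Subgroup G), H.FiniteIndex → P H → P G
  prod : ∀ (G H : Type) [Group G] [Group H], P G → P H → P (G × H)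
  ker : ∀ (G Q : Type) [Group G] [Group Q] (φ : G →* Q), P Q →
    (∀ a ∈ φ.ker, ∀ b ∈ φ.ker, a * b = b * a) → (∀ a ∈ φ.ker, a ^ c = 1) → P G
  geo : ∀ (G : Type) [Group G] (Fam : Subgroup G → Prop), (∀ H, Fam H → P H) → CDW G Fam → P G

/-- Part C: finitely generated groups of matrices of determinant one over a number field that
contains a square root of `-1`. -/
def ThmC : Prop :=
  ∀ (K : Type) [Field K] [NumberField K], (∃ i : K, i ^ 2 = -1) →
    ∀ (n : ℕ) (G : Type) [Group G], Group.FG G → ∀ ρ : G →* GL (Fin n) K, Function.Injective ρ →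
      (∀ g, (ρ g).1.det = 1) → CDW G fun H => GN.Red ρ H ∨ Sc 0 H

/-- Part E: torsion free virtually solvable linear groups in characteristic zero. -/
def ThmE (W : (G : Type) → [Group G] → Prop) : Prop :=
  ∀ (K : Type) [Field K] [CharZero K] (n : ℕ) (L : Type) [Group L] (ρ : L →* GL (Fin n) K),
    Function.Injective ρ → (∀ g : L, IsOfFinOrder g → g = 1) → Sc 0 L → W L

/-- Part D: torsion free virtually abelian groups. -/
def ThmD (W : (G : Type) → [Group G] → Prop) : Prop :=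
  ∀ (L : Type) [Group L], Group.FG L → (∀ g : L, IsOfFinOrder g → g = 1) →
    ∀ H : Subgroup L, H.FiniteIndex → (∀ a ∈ H, ∀ b ∈ H, a * b = b * a) → W L

end Pool.Agent.Work.MP_9d1ffa_al.WL
end

-- merged part: Pool.Agent.Work.MP_9d1ffa_al.Sq.Df
section
/-! Chain level and order theoretic transfer data: definitions. -/

namespace Pool.Agent.Work.MP_9d1ffa_al.Sq

/-- the linear extension -/
noncomputable abbrev lx {W : Type} (φ : W → W →₀ ℤ) : (W →₀ ℤ) →ₗ[ℤ] (W →₀ ℤ) :=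
  Finsupp.linearCombination ℤ φ

/-- Cells `W` with the empty cell `o`, finite subcomplexes `D m`, the boundary `bd`, a controlled
deformation `H` into `D 0`, a contraction `s`, and positions `y`. -/
structure CT (K : Type) [Group K] (W Y : Type) [MulAction K W] [MulAction K Y]
    (N1 : Y → Y → Prop) (S : Finset K) (k d : ℕ) where
  o : W
  dm : W → ℕ
  D : ℕ → Set W
  bd : W → W →₀ ℤ
  H : W → W →₀ ℤ
  s : W → W →₀ ℤ
  y : W → Y
  o_inv : ∀ g : K, g • o = o
  dm_o : dm o = 0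
  o_nm : o ∉ D k
  dm_inv : ∀ (g : K) c, dm (g • c) = dm c
  dm_le : ∀ c ∈ D k, dm c ≤ d
  fin : (D k).Finite
  mono : Monotone D
  act : ∀ m < k, ∀ g ∈ S, ∀ c ∈ D m, g • c ∈ D (m + 1)
  bd_inv : ∀ (g : K) c c', bd (g • c) (g • c') = bd c c'
  bd_dm : ∀ c c', bd c c' ≠ 0 → dm c' + 1 = dm c
  bd_mem : ∀ m, ∀ c ∈ D m, ∀ c', bd c c' ≠ 0 → c' ∈ D m ∨ c' = o
  bd_bd : ∀ c ∈ D k, lx bd (bd c) = 0
  H_o : H o = 0
  H_mem : ∀ m ≤ k, ∀ c ∈ D m, ∀ c', H c c' ≠ 0 → c' ∈ D m ∧ dm c' = dm c + 1 ∧ N1 (y c) (y c')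
  H_eq : ∀ c ∈ D k, ∀ c', (Finsupp.single c 1 - lx bd (H c) - lx H (bd c) : W →₀ ℤ) c' ≠ 0 →
    c' ∈ D 0
  s_mem : ∀ m ≤ k, ∀ c, c ∈ D m ∨ c = o → ∀ c', s c c' ≠ 0 → c' ∈ D m ∧ dm c' = dm c + 1
  s_eq : ∀ c, c ∈ D k ∨ c = o → lx bd (s c) + lx s (bd c) = Finsupp.single c 1
  y_bd : ∀ c ∈ D k, ∀ c' ∈ D k, bd c c' ≠ 0 → N1 (y c) (y c')
  y_act : ∀ g ∈ S, ∀ c ∈ D k, g • c ∈ D k → N1 (y c) (g⁻¹ • y (g • c))

/-- tropically convex sets -/
def TC {L : Type} [SemilatticeInf L] (s : L ≃o L) (Z : Set L) : Prop :=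
  ∀ a ∈ Z, ∀ b ∈ Z, a ⊓ b ∈ Z ∧ a ⊓ s b ∈ Z

/-- A semilattice with a shift `s`, finite tropically convex sets `D m`, a map `p` into `D 0`,
a volume `v`, a nearness relation `R` and positions `y`. -/
structure TD (K : Type) [Group K] (L Y : Type) [SemilatticeInf L] [MulAction K L] [MulAction K Y]
    (N1 : Y → Y → Prop) (S : Finset K) (k N : ℕ) where
  s : L ≃o L
  D : ℕ → Set L
  p : L → L
  v : L → ℤ
  R : L → L → Prop
  y : L → Y
  le_s : ∀ a, a ≤ s a
  smul_le : ∀ (g : K) (a b : L), a ≤ b → g • a ≤ g • b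
  fin : (D k).Finite
  mono : Monotone D
  ne : (D 0).Nonempty
  tc : ∀ m, TC s (D m)
  smul_s : ∀ (g : K) a, g • s a = s (g • a)
  act : ∀ m < k, ∀ g ∈ S, ∀ a ∈ D m, g • a ∈ D (m + 1)
  arch : ∀ a ∈ D k, ∀ b ∈ D k, ∃ c : ℕ, a ≤ s^[c] b
  v_lt : ∀ a ∈ D k, ∀ b ∈ D k, a < b → v a < v b
  v_le : ∀ a ∈ D k, ∀ b ∈ D k, b ≤ s a → v b ≤ v a + N
  p_mem : ∀ a ∈ D k, p a ∈ D 0
  R_tc : ∀ a ∈ D k, TC s {z | R a z}
  R_adj : ∀ a ∈ D k, ∀ z ∈ D k, z ≤ s a → a ≤ s z → R a z ∧ R a (p z)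
  y_R : ∀ a ∈ D k, ∀ z ∈ D k, R a z → N1 (y a) (y z)
  y_act : ∀ g ∈ S, ∀ a ∈ D k, ∀ z ∈ D k, z ≤ s (g • a) → g • a ≤ s z → N1 (y a) (g⁻¹ • y z)

end Pool.Agent.Work.MP_9d1ffa_al.Sq
end

-- merged part: Pool.Agent.Work.MP_9d1ffa_al.Sq.ChA
section
/-! Chains in a semilattice with a shift: the boundary, cones, acyclicity. -/

namespace Pool.Agent.Work.MP_9d1ffa_al.Sq

open Finsupp

variable {L : Type} [SemilatticeInf L] {s : L ≃o L}

/-- short chains -/
def Cell (s : L ≃o L) (σ : Finset L) : Prop := ∀ a ∈ σ, ∀ b ∈ σ, (a ≤ b ∨ b ≤ a) ∧ b ≤ s a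

open Classical in
/-- the boundary of the augmented complex -/
noncomputable def bdy (σ : Finset L) : Finset L →₀ ℤ :=
  ∑ a ∈ σ, single (σ.erase a) ((-1) ^ (σ.filter (· < a)).card)

/-- chains on cells with `q` vertices in `Z` -/
def Cq (s : L ≃o L) (Z : Set L) (q : ℕ) : Submodule ℤ (Finset L →₀ ℤ) :=
  supported ℤ ℤ {σ | Cell s σ ∧ (σ : Set L) ⊆ Z ∧ σ.card = q}

/-- the tropical hull -/
def thl (s : L ≃o L) (A : Set L) : Set L := ⋂₀ {Z | TC s Z ∧ A ⊆ Z}

theorem thl_tc (A : Set L) : TC s (thl s A) := fun a ha b hb =>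
  ⟨fun Z hZ => (hZ.1 a (ha Z hZ) b (hb Z hZ)).1, fun Z hZ => (hZ.1 a (ha Z hZ) b (hb Z hZ)).2⟩

theorem subset_thl (A : Set L) : A ⊆ thl s A := fun _ ha _ hZ => hZ.2 ha

theorem thl_min {A Z : Set L} (hZ : TC s Z) (h : A ⊆ Z) : thl s A ⊆ Z := fun _ ha => ha Z ⟨hZ, h⟩

theorem thl_mono {A B : Set L} (h : A ⊆ B) : thl s A ⊆ thl s B :=
  thl_min (thl_tc B) (h.trans (subset_thl B))

theorem Cell.subset {σ τ : Finset L} (h : Cell s σ) (k : τ ⊆ σ) : Cell s τ :=
  fun a ha b hb => h a (k ha) b (k hb)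

theorem Cq_mono {Z Z' : Set L} (h : Z ⊆ Z') (q : ℕ) : Cq s Z q ≤ Cq s Z' q :=
  supported_mono fun _ k => ⟨k.1, k.2.1.trans h, k.2.2⟩

theorem mem_Cq {Z : Set L} {q : ℕ} {z : Finset L →₀ ℤ} :
    z ∈ Cq s Z q ↔ ∀ σ, z σ ≠ 0 → Cell s σ ∧ (σ : Set L) ⊆ Z ∧ σ.card = q := by
  rw [Cq, mem_supported']
  exact ⟨fun h σ k => by_contra fun k' => k (h σ k'), fun h σ k => by_contra fun k' => k (h σ k')⟩

theorem ChA_lx {W : Type} {φ : W → W →₀ ℤ} {P : Submodule ℤ (W →₀ ℤ)} {z : W →₀ ℤ}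
    (h : ∀ σ, z σ ≠ 0 → φ σ ∈ P) : lx φ z ∈ P := by
  rw [linearCombination_apply]
  exact P.sum_mem fun σ k => P.smul_mem _ (h σ (mem_support_iff.1 k))

theorem ChA_ext {W : Type} {f g : (W →₀ ℤ) →ₗ[ℤ] (W →₀ ℤ)} {z : W →₀ ℤ}
    (h : ∀ σ, z σ ≠ 0 → f (single σ 1) = g (single σ 1)) : f z = g z := by
  have k : lx (fun σ => single σ 1) z = z := by simp [linearCombination_apply]
  rw [← k]
  exact LinearMap.mem_eqLocus.1 (ChA_lx (P := LinearMap.eqLocus f g) h)

open Classical in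
theorem bdy_ne {σ τ : Finset L} (h : bdy σ τ ≠ 0) : ∃ a ∈ σ, τ = σ.erase a := by
  by_contra k
  refine h ?_
  rw [bdy, finsetSum_apply]
  exact Finset.sum_eq_zero fun a ha => single_eq_of_ne fun e => k ⟨a, ha, e⟩

theorem bdy_empty : bdy (∅ : Finset L) = 0 := by
  rw [bdy, Finset.sum_empty]

theorem bdy_mem {Z : Set L} {q : ℕ} {z : Finset L →₀ ℤ} (h : z ∈ Cq s Z (q + 1)) :
    lx bdy z ∈ Cq s Z q := by
  classical
  refine ChA_lx fun σ k => mem_Cq.2 fun τ k' => ?_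
  obtain ⟨h1, h2, h3⟩ := mem_Cq.1 h σ k
  obtain ⟨a, ha, rfl⟩ := bdy_ne k'
  refine ⟨h1.subset (Finset.erase_subset _ _),
    (Finset.coe_subset.2 (Finset.erase_subset _ _)).trans h2, ?_⟩
  rw [Finset.card_erase_of_mem ha, h3, Nat.add_sub_cancel]

open Classical in
theorem bdy_map (e : L ≃o L) (σ τ : Finset L) : bdy (σ.image e) (τ.image e) = bdy σ τ := by
  rw [bdy, bdy, finsetSum_apply, finsetSum_apply, Finset.sum_image e.injective.injOn]
  refine Finset.sum_congr rfl fun a _ => ?_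
  rw [← Finset.image_erase e.injective, Finset.filter_image,
    Finset.card_image_of_injective _ e.injective, single_apply, single_apply]
  simp only [e.lt_iff_lt, (Finset.image_injective e.injective).eq_iff]

open Classical in
theorem ChA_lt {σ : Finset L} {a b : L} (ha : a ∈ σ) (h : a < b) :
    (σ.filter (· < b)).card = ((σ.erase a).filter (· < b)).card + 1 := by
  rw [Finset.filter_erase, Finset.card_erase_add_one (Finset.mem_filter.2 ⟨ha, h⟩)]

open Classical in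
theorem ChA_nlt (σ : Finset L) {a b : L} (h : ¬ a < b) :
    (σ.erase a).filter (· < b) = σ.filter (· < b) := by
  rw [Finset.filter_erase]
  exact Finset.erase_eq_of_notMem fun k => h (Finset.mem_filter.1 k).2

open Classical in
theorem ChA_bdy (φ : Finset L → Finset L →₀ ℤ) (σ : Finset L) : lx φ (bdy σ) =
    ∑ a ∈ σ, ((-1 : ℤ) ^ (σ.filter (· < a)).card) • φ (σ.erase a) := by
  simp only [bdy, map_sum, linearCombination_single]

theorem bdy_bdy {σ : Finset L} (h : ∀ a ∈ σ, ∀ b ∈ σ, a ≤ b ∨ b ≤ a) : lx bdy (bdy σ) = 0 := by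
  classical
  have k : ∀ a ∈ σ, ∀ b ∈ σ, a < b → (-1 : ℤ) ^ (σ.filter (· < a)).card *
      (-1) ^ ((σ.erase a).filter (· < b)).card + (-1) ^ (σ.filter (· < b)).card *
      (-1) ^ ((σ.erase b).filter (· < a)).card = 0 := fun a ha b _ k => by
    rw [ChA_lt ha k, ChA_nlt σ k.not_gt]
    ring
  have e : lx bdy (bdy σ) + lx bdy (bdy σ) = 0 := by
    rw [ChA_bdy]
    simp only [bdy, Finset.smul_sum, smul_single, smul_eq_mul]
    nth_rw 2 [Finset.sum_comm' (t' := σ) (s' := fun b => σ.erase b) fun a b => by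
      simp only [Finset.mem_erase]
      tauto]
    rw [← Finset.sum_add_distrib]
    refine Finset.sum_eq_zero fun a ha => ?_
    rw [← Finset.sum_add_distrib]
    refine Finset.sum_eq_zero fun b hb => ?_
    obtain ⟨h1, h2⟩ := Finset.mem_erase.1 hb
    rw [Finset.erase_right_comm (a := b), ← single_add, single_eq_zero]
    rcases h a ha b h2 with l | l
    · exact k a ha b h2 (lt_of_le_of_ne l h1.symm)
    · rw [add_comm]
      exact k b h2 a ha (lt_of_le_of_ne l h1)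
  ext τ
  have := DFunLike.congr_fun e τ
  rw [Finsupp.add_apply] at this
  rw [Finsupp.zero_apply] at this ⊢
  omega

open Classical in
/-- the cone with apex `b` -/
noncomputable def cne (b : L) (σ : Finset L) : Finset L →₀ ℤ :=
  if b ∈ σ then 0 else single (insert b σ) 1

theorem cne_eq {b : L} {σ : Finset L} (h : ∀ a ∈ σ, b ≤ a) :
    lx bdy (cne b σ) + lx (cne b) (bdy σ) = single σ 1 := by
  classical
  have e : ∀ τ : Finset L, (∀ a ∈ τ, b ≤ a) → τ.filter (· < b) = ∅ := fun τ k =>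
    Finset.filter_eq_empty_iff.2 fun a ha => (k a ha).not_gt
  rw [ChA_bdy]
  by_cases hb : b ∈ σ
  · rw [cne, if_pos hb, map_zero, zero_add, Finset.sum_eq_single_of_mem b hb fun a _ k => by
      rw [cne, if_pos (Finset.mem_erase.2 ⟨k.symm, hb⟩), smul_zero], e σ h, cne,
      if_neg (Finset.notMem_erase _ _), Finset.insert_erase hb, Finset.card_empty, pow_zero,
      one_smul]
  · rw [cne, if_neg hb, linearCombination_single, one_smul, bdy, Finset.sum_insert hb,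
      Finset.erase_insert hb, e _ (Finset.forall_mem_insert _ _ _ |>.2 ⟨le_rfl, h⟩),
      Finset.card_empty, pow_zero, add_assoc, ← Finset.sum_add_distrib, Finset.sum_eq_zero, add_zero]
    intro a ha
    have k : b ≠ a := fun k => hb (k ▸ ha)
    rw [cne, if_neg fun k => hb (Finset.mem_of_mem_erase k), Finset.erase_insert_of_ne k,
      ChA_lt (Finset.mem_insert_self b σ) (lt_of_le_of_ne (h a ha) k), Finset.erase_insert hb,
      smul_single, ← single_add, single_eq_zero, smul_eq_mul]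
    ring

theorem ChA_cone {b : L} {z : Finset L →₀ ℤ} (h : ∀ σ, z σ ≠ 0 → ∀ a ∈ σ, b ≤ a) :
    lx bdy (lx (cne b) z) + lx (cne b) (lx bdy z) = z :=
  ChA_ext (f := lx bdy ∘ₗ lx (cne b) + lx (cne b) ∘ₗ lx bdy) (g := LinearMap.id) fun σ k => by
    simpa using cne_eq (h σ k)

theorem ChA_bb {Z : Set L} {q : ℕ} {z : Finset L →₀ ℤ} (h : z ∈ Cq s Z q) :
    lx bdy (lx bdy z) = 0 := by
  rw [← LinearMap.comp_apply, ChA_ext (g := 0) fun σ k => ?_, LinearMap.zero_apply]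
  simpa using bdy_bdy fun a ha b hb => ((mem_Cq.1 h σ k).1 a ha b hb).1

omit [SemilatticeInf L] in
open Classical in
theorem ChA_cne {b : L} {σ τ : Finset L} (h : cne b σ τ ≠ 0) : b ∉ σ ∧ τ = insert b σ := by
  unfold cne at h
  split_ifs at h with k
  · exact absurd rfl h
  · exact ⟨k, by_contra fun e => h (single_eq_of_ne e)⟩

theorem ChA_mem (hs : ∀ a, a ≤ s a) {Z : Set L} {q : ℕ} {z : Finset L →₀ ℤ} {b : L} (hb : b ∈ Z)
    (hz : z ∈ Cq s Z q) (h : ∀ σ, z σ ≠ 0 → ∀ a ∈ σ, b ≤ a ∧ a ≤ s b) :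
    lx (cne b) z ∈ Cq s Z (q + 1) := by
  classical
  refine ChA_lx fun σ k => mem_Cq.2 fun τ k' => ?_
  obtain ⟨h1, h2, h3⟩ := mem_Cq.1 hz σ k
  obtain ⟨h4, rfl⟩ := ChA_cne k'
  refine ⟨fun x hx y hy => ?_, ?_, by rw [Finset.card_insert_of_notMem h4, h3]⟩
  · rcases Finset.mem_insert.1 hx with rfl | x1 <;> rcases Finset.mem_insert.1 hy with rfl | y1
    · exact ⟨.inl le_rfl, hs _⟩
    · exact ⟨.inl (h σ k y y1).1, (h σ k y y1).2⟩
    · exact ⟨.inr (h σ k x x1).1, (h σ k x x1).1.trans (hs x)⟩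
    · exact h1 x x1 y y1
  · rw [Finset.coe_insert]
    exact Set.insert_subset hb h2

/-- `a ⊓ s (a ⊓ s^[c] b) = a ⊓ s^[c + 1] b`. -/
theorem TC.iter (hs : ∀ a, a ≤ s a) {Z : Set L} (h : TC s Z) {a b : L} (ha : a ∈ Z) (hb : b ∈ Z)
    (c : ℕ) : a ⊓ s^[c] b ∈ Z := by
  induction' c with c ih
  · exact (h a ha b hb).1
  · have k := (h a ha _ ih).2
    rwa [map_inf, ← inf_assoc, inf_eq_left.2 (hs a), ← Function.iterate_succ_apply' s] at k

theorem TC.dom (hs : ∀ a, a ≤ s a) {Z : Set L} (h : TC s Z) (hf : Z.Finite)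
    (ar : ∀ a ∈ Z, ∀ b ∈ Z, ∃ c : ℕ, a ≤ s^[c] b) {a : L} (ha : a ∈ Z) (hn : ∃ x ∈ Z, ¬ a ≤ x) :
    ∃ b ∈ Z, b < a ∧ a ≤ s b ∧ ∀ x ∈ Z, x < a → a ≤ s x → b ≤ x := by
  classical
  obtain ⟨x, hx, hn⟩ := hn
  have e := ar a ha x hx
  obtain ⟨c, hc⟩ := Nat.exists_eq_succ_of_ne_zero ((Nat.find_eq_zero e).not.2 hn)
  have h1 := Nat.find_spec e
  have h2 := Nat.find_min e (hc ▸ c.lt_succ_self)
  rw [hc, Function.iterate_succ_apply'] at h1
  obtain ⟨b, ⟨b1, b2, b3⟩, hb⟩ := (hf.subset fun y k => k.1 :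
    {y | y ∈ Z ∧ y < a ∧ a ≤ s y}.Finite).exists_minimal ⟨a ⊓ s^[c] x, h.iter hs ha hx c,
      inf_lt_left.2 h2, by rw [map_inf]; exact le_inf (hs a) h1⟩
  refine ⟨b, b1, b2, b3, fun y y1 y2 y3 => (hb (y := b ⊓ y) ⟨(h b b1 y y1).1,
    inf_le_left.trans_lt b2, ?_⟩ inf_le_left).trans inf_le_right⟩
  rw [map_inf]
  exact le_inf b3 y3

/-- Finite tropically convex sets are acyclic: remove a maximal vertex. -/
theorem acyc (hs : ∀ a, a ≤ s a) {Z : Set L} (h : TC s Z) (hf : Z.Finite) (hne : Z.Nonempty)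
    (ar : ∀ a ∈ Z, ∀ b ∈ Z, ∃ c : ℕ, a ≤ s^[c] b) {q : ℕ} {z : Finset L →₀ ℤ} (hz : z ∈ Cq s Z q)
    (hc : lx bdy z = 0) : ∃ w ∈ Cq s Z (q + 1), lx bdy w = z := by
  classical
  induction' hn : Z.ncard using Nat.strong_induction_on with n ih generalizing Z z
  obtain ⟨a, ha, hm⟩ := hf.exists_maximal hne
  by_cases k : ∀ x ∈ Z, a ≤ x
  · have e : ∀ σ, z σ ≠ 0 → ∀ x ∈ σ, a ≤ x ∧ x ≤ s a := fun σ l x hx =>
      have := (mem_Cq.1 hz σ l).2.1 hx
      ⟨k x this, (hm this (k x this)).trans (hs a)⟩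
    refine ⟨_, ChA_mem hs ha hz e, ?_⟩
    have := ChA_cone fun σ l x hx => (e σ l x hx).1
    rwa [hc, map_zero, add_zero] at this
  obtain ⟨b, b1, b2, b3, b4⟩ := h.dom hs hf ar ha (by simpa using k)
  have e : ∀ σ, z.filter (a ∈ ·) σ ≠ 0 → a ∈ σ ∧ z σ ≠ 0 := fun σ l => by
    simpa [filter_apply] using l
  have e' : ∀ σ, z.filter (a ∈ ·) σ ≠ 0 → ∀ x ∈ σ, b ≤ x ∧ x ≤ s b := fun σ l x hx => by
    obtain ⟨c1, c2, -⟩ := mem_Cq.1 hz σ (e σ l).2
    have c3 := c1 x hx a (e σ l).1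
    have c4 : x ≤ a := c3.1.elim id (hm (c2 hx))
    exact ⟨c4.eq_or_lt.elim (fun l => l ▸ b2.le) fun l => b4 x (c2 hx) l c3.2, c4.trans b3⟩
  have m2 := ChA_mem hs b1 (mem_Cq.2 fun σ l => mem_Cq.1 hz σ (e σ l).2) e'
  have e2 := ChA_cone fun σ l x hx => (e' σ l x hx).1
  have e3 := z.filter_add_filter_not (a ∈ ·)
  have p1 : z.filter (a ∉ ·) ∈ supported ℤ ℤ {σ : Finset L | a ∉ σ} :=
    (mem_supported' ℤ _).2 fun σ l => filter_apply_neg _ _ l
  have p2 : lx bdy (z.filter (a ∉ ·)) ∈ supported ℤ ℤ {σ : Finset L | a ∉ σ} :=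
    ChA_lx fun σ l => (mem_supported' ℤ _).2 fun τ l' => by_contra fun l'' => by
      obtain ⟨x, -, rfl⟩ := bdy_ne l''
      exact l ((mem_supported' ℤ _).1 p1 σ fun t => l' fun u => t (Finset.mem_of_mem_erase u))
  have p3 : lx (cne b) (lx bdy (z.filter (a ∉ ·))) ∈ supported ℤ ℤ {σ : Finset L | a ∉ σ} :=
    ChA_lx fun σ l => (mem_supported' ℤ _).2 fun τ l' => by_contra fun l'' => by
      obtain ⟨-, rfl⟩ := ChA_cne l''
      exact l ((mem_supported' ℤ _).1 p2 σ fun t => l' fun u =>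
        (Finset.mem_insert.1 u).elim b2.ne' t)
  have e4 : z - lx bdy (lx (cne b) (z.filter (a ∈ ·))) =
      z.filter (a ∉ ·) - lx (cne b) (lx bdy (z.filter (a ∉ ·))) := by
    rw [← e3, map_add] at hc
    rw [← neg_eq_of_add_eq_zero_right hc, map_neg, eq_sub_of_add_eq e2, eq_sub_of_add_eq' e3]
    abel
  have p4 := Submodule.sub_mem _ p1 p3
  rw [← e4] at p4
  have t : ∀ x ∈ Z \ {a}, ∀ y, x ⊓ y ≠ a := fun x hx y l =>
    have : a ≤ x := l ▸ inf_le_left
    hx.2 (le_antisymm (hm hx.1 this) this)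
  obtain ⟨w, w1, w2⟩ := ih _ (hn ▸ Set.ncard_sdiff_singleton_lt_of_mem ha hf) (Z := Z \ {a})
    (fun x hx y hy => ⟨⟨(h x hx.1 y hy.1).1, t x hx _⟩, (h x hx.1 y hy.1).2, t x hx _⟩)
    (hf.subset Set.sdiff_subset) ⟨b, b1, b2.ne⟩ (fun x hx y hy => ar x hx.1 y hy.1)
    (z := z - lx bdy (lx (cne b) (z.filter (a ∈ ·)))) (mem_Cq.2 fun σ l => by
      obtain ⟨c1, c2, c3⟩ := mem_Cq.1 (Submodule.sub_mem _ hz (bdy_mem m2)) σ l
      exact ⟨c1, Set.subset_sdiff_singleton c2 fun u =>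
        l ((mem_supported' ℤ _).1 p4 σ fun v => v u), c3⟩)
    (by rw [map_sub, hc, ChA_bb m2, sub_zero]) rfl
  exact ⟨_, Submodule.add_mem _ (Cq_mono Set.sdiff_subset _ w1) m2, by
    rw [map_add, w2, sub_add_cancel]⟩

end Pool.Agent.Work.MP_9d1ffa_al.Sq
end

-- merged part: Pool.Agent.Work.MP_9d1ffa_al.Sq.ChB
section
/-! Acyclic carriers, and chain level data from order theoretic data. -/

namespace Pool.Agent.Work.MP_9d1ffa_al.Sq

open Finsupp

variable {L : Type} [SemilatticeInf L] {s : L ≃o L}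

theorem ChB_mem {W : Type} {z : W →₀ ℤ} {M : Submodule ℤ (W →₀ ℤ)}
    (h : ∀ τ, z τ ≠ 0 → single τ 1 ∈ M) : z ∈ M := by
  rw [← z.sum_single]
  refine Submodule.sum_mem _ fun τ hτ => ?_
  have e : single τ (z τ) = z τ • single τ (1 : ℤ) := by simp
  rw [e]
  exact M.smul_mem _ (h τ (mem_support_iff.1 hτ))

theorem ChB_single {W : Type} (φ : W → W →₀ ℤ) (τ : W) : lx φ (single τ 1) = φ τ := by
  simp [lx]

theorem ChB_lxm {W : Type} {z : W →₀ ℤ} {M : Submodule ℤ (W →₀ ℤ)} {φ : W → W →₀ ℤ}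
    (h : ∀ τ, z τ ≠ 0 → φ τ ∈ M) : lx φ z ∈ M :=
  ChB_mem (M := M.comap (lx φ)) fun τ hτ => by
    rw [Submodule.mem_comap, ChB_single]
    exact h τ hτ

theorem ChB_eq {W : Type} {z : W →₀ ℤ} {F G : (W →₀ ℤ) →ₗ[ℤ] (W →₀ ℤ)}
    (h : ∀ τ, z τ ≠ 0 → F (single τ 1) = G (single τ 1)) : F z = G z :=
  ChB_mem (M := LinearMap.eqLocus F G) h

theorem ChB_rec {W X : Type} [Inhabited X] (r : W → ℕ) (Q : W → (W → X) → X → Prop)
    (hQ : ∀ σ f g x, (∀ τ, r τ < r σ → f τ = g τ) → Q σ f x → Q σ g x)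
    (st : ∀ σ f, (∀ τ, r τ < r σ → Q τ f (f τ)) → ∃ x, Q σ f x) (q : ℕ) :
    ∃ f, ∀ σ, r σ < q → Q σ f (f σ) := by
  classical
  induction q with
  | zero => exact ⟨fun _ => default, fun _ h => absurd h (Nat.not_lt_zero _)⟩
  | succ q ih =>
    obtain ⟨f, hf⟩ := ih
    have k : ∀ σ, ∃ x, (r σ = q → Q σ f x) ∧ (r σ ≠ q → x = f σ) := fun σ => by
      by_cases e : r σ = q
      · obtain ⟨x, hx⟩ := st σ f fun τ hτ => hf τ (e ▸ hτ)
        exact ⟨x, fun _ => hx, fun n => absurd e n⟩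
      · exact ⟨f σ, fun n => absurd n e, fun _ => rfl⟩
    choose g hg using k
    refine ⟨g, fun σ hσ => hQ σ f g _ (fun τ hτ => ((hg τ).2 (by omega)).symm) ?_⟩
    by_cases e : r σ = q
    · exact (hg σ).1 e
    · rw [(hg σ).2 e]
      exact hf σ (by omega)

theorem ChB_face {σ τ : Finset L} (h : bdy σ τ ≠ 0) : τ ⊆ σ ∧ τ.card + 1 = σ.card := by
  classical
  obtain ⟨a, ha, rfl⟩ := bdy_ne h
  exact ⟨Finset.erase_subset _ _, Finset.card_erase_add_one ha⟩

theorem ChB_congr {σ : Finset L} {φ ψ : Finset L → Finset L →₀ ℤ}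
    (h : ∀ τ : Finset L, τ.card < σ.card → φ τ = ψ τ) : lx φ (bdy σ) = lx ψ (bdy σ) :=
  ChB_eq fun τ hτ => by
    rw [ChB_single, ChB_single]
    exact h τ (by have := (ChB_face hτ).2; omega)

theorem ChB_sm {Z : Set L} {σ : Finset L} (h : Cell s σ) (k : (σ : Set L) ⊆ Z) :
    single σ (1 : ℤ) ∈ Cq s Z σ.card :=
  single_mem_supported ℤ _ ⟨h, k, rfl⟩

theorem ChB_acyc (hs : ∀ a, a ≤ s a) {D : Set L} (h : TC s D) (hf : D.Finite)
    (ar : ∀ a ∈ D, ∀ b ∈ D, ∃ c : ℕ, a ≤ s^[c] b) {A : Set L} (hA : A ⊆ D) (hne : A.Nonempty)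
    {q : ℕ} {z : Finset L →₀ ℤ} (hz : z ∈ Cq s (thl s A) q) (hc : lx bdy z = 0) :
    ∃ w ∈ Cq s (thl s A) (q + 1), lx bdy w = z :=
  acyc hs (thl_tc A) (hf.subset (thl_min h hA)) (hne.mono (subset_thl A))
    (fun a ha b hb => ar a (thl_min h hA ha) b (thl_min h hA hb)) hz hc

omit [SemilatticeInf L] in
theorem ChB_card {D : Set L} (hf : D.Finite) {σ : Finset L} (h : (σ : Set L) ⊆ D) :
    σ.card < hf.toFinset.card + 1 :=
  Nat.lt_succ_of_le (Finset.card_le_card fun _ ha => hf.mem_toFinset.2 (h ha))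

/-- The acyclic carrier construction: a chain map `P` carried by `p` and a homotopy `H`. -/
theorem carrier (hs : ∀ a, a ≤ s a) {D : Set L} (h : TC s D) (hf : D.Finite)
    (ar : ∀ a ∈ D, ∀ b ∈ D, ∃ c : ℕ, a ≤ s^[c] b) {p : L → L} (hp : ∀ a ∈ D, p a ∈ D) :
    ∃ P H : Finset L → Finset L →₀ ℤ, P ∅ = single ∅ 1 ∧ H ∅ = 0 ∧
      ∀ σ : Finset L, Cell s σ → (σ : Set L) ⊆ D →
        P σ ∈ Cq s (thl s (p '' σ)) σ.card ∧ H σ ∈ Cq s (thl s (σ ∪ p '' σ)) (σ.card + 1) ∧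
        lx bdy (P σ) = lx P (bdy σ) ∧ lx bdy (H σ) + lx H (bdy σ) = single σ 1 - P σ := by
  obtain ⟨f, hf'⟩ := ChB_rec (X := (Finset L →₀ ℤ) × (Finset L →₀ ℤ)) Finset.card
    (fun σ f x => (σ = ∅ → x = (single ∅ 1, 0)) ∧ (Cell s σ → (σ : Set L) ⊆ D →
      x.1 ∈ Cq s (thl s (p '' σ)) σ.card ∧ x.2 ∈ Cq s (thl s (σ ∪ p '' σ)) (σ.card + 1) ∧
      lx bdy x.1 = lx (fun τ => (f τ).1) (bdy σ) ∧
      lx bdy x.2 + lx (fun τ => (f τ).2) (bdy σ) = single σ 1 - x.1))
    (fun σ f g x e k => ⟨k.1, fun c d => by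
      rw [← ChB_congr (φ := fun τ => (f τ).1) (ψ := fun τ => (g τ).1) fun τ hτ => by rw [e τ hτ],
        ← ChB_congr (φ := fun τ => (f τ).2) (ψ := fun τ => (g τ).2) fun τ hτ => by rw [e τ hτ]]
      exact k.2 c d⟩)
    (fun σ f ih => by
      rcases σ.eq_empty_or_nonempty with rfl | hne
      · refine ⟨(single ∅ 1, 0), fun _ => rfl, fun c _ => ⟨ChB_sm c (by simp), zero_mem _, ?_, ?_⟩⟩
        · rw [ChB_single, bdy_empty, map_zero]
        · rw [bdy_empty, map_zero, map_zero, add_zero, sub_self]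
      by_cases c : Cell s σ ∧ (σ : Set L) ⊆ D
      swap
      · exact ⟨default, fun e => absurd e hne.ne_empty, fun a b => absurd ⟨a, b⟩ c⟩
      obtain ⟨c, d⟩ := c
      obtain ⟨q, hq⟩ : ∃ q, σ.card = q + 1 := Nat.exists_eq_succ_of_ne_zero hne.card_pos.ne'
      have ih' : ∀ τ, bdy σ τ ≠ 0 → _ := fun τ hτ =>
        (ih τ (by have := (ChB_face hτ).2; omega)).2 (c.subset (ChB_face hτ).1)
          ((Finset.coe_subset.2 (ChB_face hτ).1).trans d)
      have cd : ∀ τ, bdy σ τ ≠ 0 → τ.card = q := fun τ hτ => by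
        have := (ChB_face hτ).2
        omega
      have sb : ∀ τ, bdy σ τ ≠ 0 → (τ : Set L) ⊆ σ := fun τ hτ =>
        Finset.coe_subset.2 (ChB_face hτ).1
      have bb : lx bdy (bdy σ) = 0 := bdy_bdy fun a ha b hb => (c a ha b hb).1
      have pD : p '' σ ⊆ D := by
        rintro _ ⟨a, ha, rfl⟩
        exact hp a (d ha)
      have ne' : (σ : Set L).Nonempty := hne
      obtain ⟨w, hw, ew⟩ := ChB_acyc hs h hf ar pD (ne'.image p) (q := q)
        (z := lx (fun τ => (f τ).1) (bdy σ))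
        (ChB_lxm fun τ hτ => Cq_mono (thl_mono (Set.image_mono (sb τ hτ))) q
          (cd τ hτ ▸ (ih' τ hτ).1))
        (by
          have e := ChB_eq (z := bdy σ) (F := lx bdy ∘ₗ lx fun τ => (f τ).1)
            (G := lx (fun τ => (f τ).1) ∘ₗ lx bdy) fun τ hτ => by
              rw [LinearMap.comp_apply, LinearMap.comp_apply, ChB_single, ChB_single]
              exact (ih' τ hτ).2.2.1
          rw [LinearMap.comp_apply, LinearMap.comp_apply, bb, map_zero] at e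
          exact e)
      obtain ⟨u, hu, eu⟩ := ChB_acyc hs h hf ar (Set.union_subset d pD) ne'.inl (q := q + 1)
        (z := single σ 1 - w - lx (fun τ => (f τ).2) (bdy σ))
        (sub_mem (sub_mem (hq ▸ ChB_sm c (Set.subset_union_left.trans (subset_thl _)))
          (Cq_mono (thl_mono Set.subset_union_right) _ hw))
          (ChB_lxm fun τ hτ => Cq_mono (thl_mono (Set.union_subset_union (sb τ hτ)
            (Set.image_mono (sb τ hτ)))) (q + 1) (cd τ hτ ▸ (ih' τ hτ).2.1)))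
        (by
          have e := ChB_eq (z := bdy σ)
            (F := (lx bdy ∘ₗ lx fun τ => (f τ).2) + lx (fun τ => (f τ).2) ∘ₗ lx bdy)
            (G := LinearMap.id - lx fun τ => (f τ).1) fun τ hτ => by
              rw [LinearMap.add_apply, LinearMap.comp_apply, LinearMap.comp_apply,
                LinearMap.sub_apply, LinearMap.id_apply, ChB_single, ChB_single, ChB_single]
              exact (ih' τ hτ).2.2.2
          rw [LinearMap.add_apply, LinearMap.comp_apply, LinearMap.comp_apply, bb, map_zero,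
            add_zero, LinearMap.sub_apply, LinearMap.id_apply] at e
          rw [map_sub, map_sub, ChB_single, ew, e, sub_self])
      refine ⟨(w, u), fun e => absurd e hne.ne_empty, fun _ _ => ⟨hq ▸ hw, hq ▸ hu, ew, ?_⟩⟩
      rw [eu, sub_add_cancel])
    (hf.toFinset.card + 1)
  have e0 := (hf' ∅ (by simp)).1 rfl
  exact ⟨fun τ => (f τ).1, fun τ => (f τ).2, by simp only [e0], by simp only [e0],
    fun σ c d => (hf' σ (ChB_card hf d)).2 c d⟩

/-- A contraction of the augmented complex carried by the hulls with a base point. -/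
theorem contraction (hs : ∀ a, a ≤ s a) {D : Set L} (h : TC s D) (hf : D.Finite)
    (ar : ∀ a ∈ D, ∀ b ∈ D, ∃ c : ℕ, a ≤ s^[c] b) {b : L} (hb : b ∈ D) :
    ∃ c : Finset L → Finset L →₀ ℤ, ∀ σ : Finset L, Cell s σ → (σ : Set L) ⊆ D →
      c σ ∈ Cq s (thl s (insert b σ)) (σ.card + 1) ∧
        lx bdy (c σ) + lx c (bdy σ) = single σ 1 := by
  obtain ⟨f, hf'⟩ := ChB_rec (X := Finset L →₀ ℤ) Finset.card
    (fun σ f x => Cell s σ → (σ : Set L) ⊆ D →
      x ∈ Cq s (thl s (insert b σ)) (σ.card + 1) ∧ lx bdy x + lx f (bdy σ) = single σ 1)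
    (fun σ f g x e k c d => by
      rw [← ChB_congr e]
      exact k c d)
    (fun σ f ih => by
      by_cases c : Cell s σ ∧ (σ : Set L) ⊆ D
      swap
      · exact ⟨default, fun a b => absurd ⟨a, b⟩ c⟩
      obtain ⟨c, d⟩ := c
      have sb : ∀ τ, bdy σ τ ≠ 0 → (τ : Set L) ⊆ σ := fun τ hτ =>
        Finset.coe_subset.2 (ChB_face hτ).1
      have ih' : ∀ τ, bdy σ τ ≠ 0 → _ := fun τ hτ =>
        ih τ (by have := (ChB_face hτ).2; omega) (c.subset (ChB_face hτ).1) ((sb τ hτ).trans d)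
      have bb : lx bdy (bdy σ) = 0 := bdy_bdy fun a ha b hb => (c a ha b hb).1
      obtain ⟨u, hu, eu⟩ := ChB_acyc hs h hf ar (Set.insert_subset hb d) (Set.insert_nonempty _ _)
        (q := σ.card) (z := single σ 1 - lx f (bdy σ))
        (sub_mem (ChB_sm c ((Set.subset_insert _ _).trans (subset_thl _)))
          (ChB_lxm fun τ hτ => Cq_mono (thl_mono (Set.insert_subset_insert (sb τ hτ))) _
            ((ChB_face hτ).2 ▸ (ih' τ hτ).1)))
        (by
          have e := ChB_eq (z := bdy σ) (F := (lx bdy ∘ₗ lx f) + lx f ∘ₗ lx bdy)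
            (G := LinearMap.id) fun τ hτ => by
              rw [LinearMap.add_apply, LinearMap.comp_apply, LinearMap.comp_apply,
                LinearMap.id_apply, ChB_single, ChB_single]
              exact (ih' τ hτ).2
          rw [LinearMap.add_apply, LinearMap.comp_apply, LinearMap.comp_apply, bb, map_zero,
            add_zero, LinearMap.id_apply] at e
          rw [map_sub, ChB_single, e, sub_self])
      refine ⟨u, fun _ _ => ⟨hu, ?_⟩⟩
      rw [eu, sub_add_cancel])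
    (hf.toFinset.card + 1)
  exact ⟨f, fun σ c d => hf' σ (ChB_card hf d) c d⟩

theorem ChB_dm {D : Set L} {v : L → ℤ} {N : ℕ} (lt : ∀ a ∈ D, ∀ b ∈ D, a < b → v a < v b)
    (le : ∀ a ∈ D, ∀ b ∈ D, b ≤ s a → v b ≤ v a + N) {σ : Finset L} (c : Cell s σ)
    (hne : σ.Nonempty) (d : (σ : Set L) ⊆ D) : σ.card ≤ N + 1 := by
  obtain ⟨a, ha, hm⟩ := σ.exists_min_image v hne
  have k := Finset.card_le_card_of_injOn (s := σ) (t := Finset.Icc (v a) (v a + N)) v
    (fun b hb => Finset.mem_coe.2 (Finset.mem_Icc.2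
      ⟨hm b hb, le a (d ha) b (d hb) (c a ha b hb).2⟩))
    (fun x hx y hy e => by
      by_contra n
      rcases (c x hx y hy).1 with l | l
      · exact (lt x (d hx) y (d hy) (lt_of_le_of_ne l n)).ne e
      · exact (lt y (d hy) x (d hx) (lt_of_le_of_ne l (Ne.symm n))).ne e.symm)
  rw [Int.card_Icc] at k
  omega

open Classical Pointwise in
/-- The cells are the short chains, with the pointwise action on finite sets. -/
theorem TD.ct {K Y : Type} [Group K] [MulAction K L] [MulAction K Y] {N1 : Y → Y → Prop}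
    {S : Finset K} {k N : ℕ} (t : TD K L Y N1 S k N) :
    ∃ (W : Type) (_ : MulAction K W), Nonempty (CT K W Y N1 S k (N + 1)) := by
  obtain ⟨b, hb⟩ := t.ne
  have m0 : ∀ m, t.D 0 ⊆ t.D m := fun m => t.mono (Nat.zero_le m)
  obtain ⟨P, H, -, H0, hH⟩ := carrier t.le_s (t.tc k) t.fin t.arch
    (fun a ha => m0 k (t.p_mem a ha))
  obtain ⟨c, hc⟩ := contraction t.le_s (t.tc k) t.fin t.arch (m0 k hb)
  obtain ⟨a, ha⟩ : ∃ a : Finset L → L, ∀ σ : Finset L, σ.Nonempty → a σ ∈ σ :=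
    ⟨fun σ => if h : σ.Nonempty then h.choose else b, fun σ h => by
      simp only [dif_pos h]
      exact h.choose_spec⟩
  have p0 : ∀ σ : Finset L, (σ : Set L) ⊆ t.D k → t.p '' σ ⊆ t.D 0 := by
    rintro σ d _ ⟨x, hx, rfl⟩
    exact t.p_mem x (d hx)
  have adj : ∀ σ : Finset L, Cell t.s σ → σ.Nonempty → (σ : Set L) ⊆ t.D k → ∀ z ∈ σ,
      t.R (a σ) z ∧ t.R (a σ) (t.p z) := fun σ h n d z hz =>
    t.R_adj _ (d (ha σ n)) z (d hz) (h _ (ha σ n) z hz).2 (h z hz _ (ha σ n)).2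
  refine ⟨Finset L, Finset.mulActionFinset, ⟨{
    o := ∅
    dm := Finset.card
    D := fun m => {σ | Cell t.s σ ∧ σ.Nonempty ∧ (σ : Set L) ⊆ t.D m}
    bd := bdy
    H := H
    s := c
    y := fun σ => t.y (a σ)
    o_inv := fun g => Finset.smul_finset_empty g
    dm_o := Finset.card_empty
    o_nm := fun h => Finset.not_nonempty_empty h.2.1
    dm_inv := fun g σ => Finset.card_smul_finset g σ
    dm_le := fun σ h => ChB_dm t.v_lt t.v_le h.1 h.2.1 h.2.2
    fin := (t.fin.toFinset.powerset.finite_toSet).subset fun σ h =>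
      Finset.mem_coe.2 (Finset.mem_powerset.2 fun _ hx => t.fin.mem_toFinset.2 (h.2.2 hx))
    mono := fun _ _ l _ h => ⟨h.1, h.2.1, h.2.2.trans (t.mono l)⟩
    act := ?_
    bd_inv := ?_
    bd_dm := fun _ _ h => (ChB_face h).2
    bd_mem := ?_
    bd_bd := fun σ h => bdy_bdy fun x hx y hy => (h.1 x hx y hy).1
    H_o := H0
    H_mem := ?_
    H_eq := ?_
    s_mem := ?_
    s_eq := ?_
    y_bd := ?_
    y_act := ?_ }⟩⟩
  · intro m hm g hg σ h
    refine ⟨fun x' hx' y' hy' => ?_, h.2.1.smul_finset, fun x' hx' => ?_⟩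
    · obtain ⟨x, hx, rfl⟩ := Finset.mem_smul_finset.1 hx'
      obtain ⟨y, hy, rfl⟩ := Finset.mem_smul_finset.1 hy'
      refine ⟨(h.1 x hx y hy).1.imp (t.smul_le g _ _) (t.smul_le g _ _), ?_⟩
      rw [← t.smul_s]
      exact t.smul_le g _ _ (h.1 x hx y hy).2
    · obtain ⟨x, hx, rfl⟩ := Finset.mem_smul_finset.1 (Finset.mem_coe.1 hx')
      exact t.act m hm g hg x (h.2.2 hx)
  · intro g σ τ
    exact bdy_map ⟨MulAction.toPerm g, fun {x y} => ⟨fun l => by
      have e := t.smul_le g⁻¹ _ _ l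
      simpa using e, t.smul_le g x y⟩⟩ σ τ
  · intro m σ h τ hτ
    have f := (ChB_face hτ).1
    rcases τ.eq_empty_or_nonempty with e | n
    · exact Or.inr e
    · exact Or.inl ⟨h.1.subset f, n, (Finset.coe_subset.2 f).trans h.2.2⟩
  · intro m hm σ h τ hτ
    have d : (σ : Set L) ⊆ t.D k := h.2.2.trans (t.mono hm)
    obtain ⟨u, w, e⟩ := mem_Cq.1 (hH σ h.1 d).2.1 τ hτ
    have n : τ.Nonempty := Finset.card_pos.1 (by omega)
    have w1 : (τ : Set L) ⊆ t.D m :=
      w.trans (thl_min (t.tc m) (Set.union_subset h.2.2 ((p0 σ d).trans (m0 m))))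
    refine ⟨⟨u, n, w1⟩, e, t.y_R _ (d (ha σ h.2.1)) _ (t.mono hm (w1 (ha τ n))) ?_⟩
    refine thl_min (t.R_tc _ (d (ha σ h.2.1))) (Set.union_subset ?_ ?_) (w (ha τ n))
    · exact fun z hz => (adj σ h.1 h.2.1 d z hz).1
    · rintro _ ⟨z, hz, rfl⟩
      exact (adj σ h.1 h.2.1 d z hz).2
  · intro σ h τ hτ
    obtain ⟨h1, -, -, h4⟩ := hH σ h.1 h.2.2
    rw [sub_sub, h4, sub_sub_cancel] at hτ
    obtain ⟨u, w, e⟩ := mem_Cq.1 h1 τ hτ
    exact ⟨u, Finset.card_pos.1 (e ▸ h.2.1.card_pos), w.trans (thl_min (t.tc 0) (p0 σ h.2.2))⟩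
  · intro m hm σ h τ hτ
    have g : Cell t.s σ ∧ (σ : Set L) ⊆ t.D m := by
      rcases h with h | rfl
      · exact ⟨h.1, h.2.2⟩
      · exact ⟨fun x hx => absurd hx (Finset.notMem_empty x), by simp⟩
    obtain ⟨u, w, e⟩ := mem_Cq.1 (hc σ g.1 (g.2.trans (t.mono hm))).1 τ hτ
    exact ⟨⟨u, Finset.card_pos.1 (by omega),
      w.trans (thl_min (t.tc m) (Set.insert_subset (m0 m hb) g.2))⟩, e⟩
  · intro σ h
    rcases h with h | rfl
    · exact (hc σ h.1 h.2.2).2
    · exact (hc ∅ (fun x hx => absurd hx (Finset.notMem_empty x)) (by simp)).2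
  · intro σ h τ h' hτ
    exact t.y_R _ (h.2.2 (ha σ h.2.1)) _ (h'.2.2 (ha τ h'.2.1))
      (adj σ h.1 h.2.1 h.2.2 _ ((ChB_face hτ).1 (ha τ h'.2.1))).1
  · intro g hg σ h h'
    have m1 : g • a σ ∈ g • σ := Finset.smul_mem_smul_finset (ha σ h.2.1)
    have m2 := ha _ h'.2.1
    exact t.y_act g hg _ (h.2.2 (ha σ h.2.1)) _ (h'.2.2 m2) (h'.1 _ m1 _ m2).2 (h'.1 _ m2 _ m1).2

end Pool.Agent.Work.MP_9d1ffa_al.Sq
end

-- merged part: Pool.Agent.Work.MP_9d1ffa_al.WL.ZtA
section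
/-! From augmented complexes to chain level transfer data. -/

namespace Pool.Agent.Work.MP_9d1ffa_al.WL

open Finsupp
open Matrix hiding single single_apply

variable {Q Ω W : Type} [Group Q] [MulAction Q Ω]

/-- Transfer data on an augmented complex: cells `D` and the empty cell `o`. -/
structure AD (S : Finset Q) (N : ℕ) (ε : ℝ) (D : Set W) (o : W) (p : W → Ω → ℝ) where
  dm : W → ℕ
  d : (W →₀ ℤ) →ₗ[ℤ] (W →₀ ℤ)
  Φ : Q → (W →₀ ℤ) →ₗ[ℤ] (W →₀ ℤ)
  H : Q → Q → (W →₀ ℤ) →ₗ[ℤ] (W →₀ ℤ)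
  J : Q → (W →₀ ℤ) →ₗ[ℤ] (W →₀ ℤ)
  u : W →₀ ℤ
  o_nm : o ∉ D
  dm_o : dm o = 0
  dm_mem : ∀ c ∈ D, 1 ≤ dm c ∧ dm c ≤ N + 1
  d_o : d (single o 1) = 0
  Φ_o : ∀ g ∈ S, Φ g (single o 1) = single o 1
  H_o : ∀ g ∈ S, ∀ h ∈ S, H g h (single o 1) = 0
  J_o : ∀ g ∈ S, J g (single o 1) = u
  du : d u = single o 1
  u_mem : ∀ c, u c ≠ 0 → c ∈ D ∧ dm c = 1
  d_mem : ∀ c ∈ D, ∀ c', d (single c 1) c' ≠ 0 →
    dm c' + 1 = dm c ∧ (c' = o ∨ c' ∈ D ∧ Cl ε (1 : Q) (p c) (p c'))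
  Φ_mem : ∀ g ∈ S, ∀ c ∈ D, ∀ c', Φ g (single c 1) c' ≠ 0 →
    c' ∈ D ∧ dm c' = dm c ∧ Cl ε g (p c) (p c')
  H_mem : ∀ g ∈ S, ∀ h ∈ S, ∀ c ∈ D, ∀ c', H g h (single c 1) c' ≠ 0 →
    c' ∈ D ∧ dm c' = dm c + 1 ∧ Cl ε (g * h) (p c) (p c')
  J_mem : ∀ g ∈ S, ∀ c ∈ D, ∀ c', J g (single c 1) c' ≠ 0 → c' ∈ D ∧ dm c' = dm c + 1
  dd : ∀ c ∈ D, d (d (single c 1)) = 0
  dΦ : ∀ g ∈ S, ∀ c ∈ D, d (Φ g (single c 1)) = Φ g (d (single c 1))
  dH : ∀ g ∈ S, ∀ h ∈ S, ∀ c ∈ D, d (H g h (single c 1)) + H g h (d (single c 1)) =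
    Φ g (Φ h (single c 1)) - Φ (g * h) (single c 1)
  dJ : ∀ g ∈ S, ∀ c ∈ D, d (J g (single c 1)) + J g (d (single c 1)) = Φ g (single c 1)

theorem ZtA_sum {D : Set W} [Fintype D] {o : W} (ho : o ∉ D) (T : (W →₀ ℤ) →ₗ[ℤ] (W →₀ ℤ))
    {z : W →₀ ℤ} (hz : ∀ c, z c ≠ 0 → c = o ∨ c ∈ D) (c' : W) :
    T z c' = ∑ b : D, T (single b.1 1) c' * z b + T (single o 1) c' * z o := by
  classical
  have e : z = ∑ b : D, z b • single b.1 (1 : ℤ) + z o • single o 1 := by
    ext c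
    simp only [Finsupp.add_apply, finsetSum_apply, Finsupp.smul_apply, smul_eq_mul, single_apply]
    by_cases h : c ∈ D
    · rw [Finset.sum_eq_single ⟨c, h⟩ (fun b _ hb => by
        rw [if_neg fun e => hb (Subtype.ext e), mul_zero]) (by simp), if_pos rfl,
        if_neg fun e : o = c => ho (e ▸ h)]
      ring
    · rw [Finset.sum_eq_zero fun b _ => by rw [if_neg fun e : b.1 = c => h (e ▸ b.2), mul_zero]]
      by_cases k : o = c
      · rw [if_pos k, k]
        ring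
      · rw [if_neg k, mul_zero, add_zero]
        exact by_contra fun n => (hz c n).elim (fun e => k e.symm) h
  conv_lhs => rw [e]
  simp only [map_add, map_sum, map_smul, Finsupp.add_apply, finsetSum_apply, Finsupp.smul_apply,
    smul_eq_mul, mul_comm]

/-- the matrix of a linear map on the cells in `D` -/
noncomputable def toM (D : Set W) (T : (W →₀ ℤ) →ₗ[ℤ] (W →₀ ℤ)) : Matrix D D ℤ :=
  fun b' b => T (single b.1 1) b'.1

theorem ZtA_mul {D : Set W} [Fintype D] {o : W} (ho : o ∉ D) (T T' : (W →₀ ℤ) →ₗ[ℤ] (W →₀ ℤ))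
    (b' b : D) (hz : ∀ c, T' (single b.1 1) c ≠ 0 → c = o ∨ c ∈ D) :
    (toM D T * toM D T') b' b =
      T (T' (single b.1 1)) b' - T (single o 1) b' * T' (single b.1 1) o := by
  rw [ZtA_sum ho T hz, Matrix.mul_apply, add_sub_cancel_right]
  rfl

theorem AD.cd {S : Finset Q} {N : ℕ} {ε : ℝ} {D : Set W} {o : W} {p : W → Ω → ℝ}
    (A : AD S N ε D o p) [Fintype D] [DecidableEq D] : Nonempty (CD D S N ε fun b => p b) := by
  classical
  have ho := A.o_nm
  have md : ∀ b : D, ∀ c, A.d (single b.1 1) c ≠ 0 → c = o ∨ c ∈ D := fun b c h =>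
    (A.d_mem _ b.2 c h).2.imp_right And.left
  have mΦ : ∀ g ∈ S, ∀ b : D, ∀ c, A.Φ g (single b.1 1) c ≠ 0 → c = o ∨ c ∈ D := fun g hg b c h =>
    Or.inr (A.Φ_mem g hg _ b.2 c h).1
  have so : ∀ b : D, (single o 1 : W →₀ ℤ) b = 0 := fun b =>
    single_eq_of_ne fun e => ho (e ▸ b.2)
  have zo : ∀ g ∈ S, ∀ b : D, A.Φ g (single b.1 1) o = 0 := fun g hg b =>
    by_contra fun n => ho (A.Φ_mem g hg _ b.2 o n).1
  have eH : ∀ g ∈ S, ∀ h ∈ S, toM D A.d * toM D (A.H g h) + toM D (A.H g h) * toM D A.d =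
      toM D (A.Φ g) * toM D (A.Φ h) - toM D (A.Φ (g * h)) := fun g hg h hh => by
    ext b' b
    rw [Matrix.add_apply, Matrix.sub_apply, ZtA_mul ho _ _ _ _ (md b),
      ZtA_mul ho _ _ _ _ (mΦ h hh b), ZtA_mul ho _ _ _ _ fun c k =>
        Or.inr (A.H_mem g hg h hh _ b.2 c k).1, A.d_o, A.H_o g hg h hh, zo h hh]
    have := DFunLike.congr_fun (A.dH g hg h hh _ b.2) b'.1
    rw [Finsupp.add_apply, Finsupp.sub_apply] at this
    simp only [Finsupp.zero_apply, zero_mul, mul_zero, sub_zero, this, toM]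
  have d1 : ∀ b' b : D, toM D A.d b' b ≠ 0 → A.dm b' + 1 = A.dm b := fun b' b h =>
    (A.d_mem _ b.2 _ h).1
  have d2 : ∀ g ∈ S, ∀ b' b : D, toM D (A.Φ g) b' b ≠ 0 → A.dm b' = A.dm b := fun g hg b' b h =>
    (A.Φ_mem g hg _ b.2 _ h).2.1
  have d3 : ∀ g ∈ S, ∀ h ∈ S, ∀ b' b : D, toM D (A.H g h) b' b ≠ 0 → A.dm b' = A.dm b + 1 :=
    fun g hg h hh b' b k => (A.H_mem g hg h hh _ b.2 _ k).2.1
  have mu : ∀ (X Y : Matrix D D ℤ) b' b, (X * Y) b' b ≠ 0 → ∃ c, X b' c ≠ 0 ∧ Y c b ≠ 0 :=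
    fun X Y b' b h => by
      obtain ⟨c, -, k⟩ := Finset.exists_ne_zero_of_sum_ne_zero h
      exact ⟨c, mul_ne_zero_iff.1 k⟩
  have d4 : ∀ g ∈ S, ∀ h ∈ S, ∀ b' b : D, toM D (A.Φ (g * h)) b' b ≠ 0 → A.dm b' = A.dm b :=
    fun g hg h hh b' b k => by
      have e := congr_fun₂ (eH g hg h hh) b' b
      rw [Matrix.add_apply, Matrix.sub_apply] at e
      by_contra n
      have e1 : (toM D A.d * toM D (A.H g h)) b' b = 0 := by_contra fun m => by
        obtain ⟨c, m1, m2⟩ := mu _ _ _ _ m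
        have := d1 _ _ m1
        have := d3 g hg h hh _ _ m2
        omega
      have e2 : (toM D (A.H g h) * toM D A.d) b' b = 0 := by_contra fun m => by
        obtain ⟨c, m1, m2⟩ := mu _ _ _ _ m
        have := d1 _ _ m2
        have := d3 g hg h hh _ _ m1
        omega
      have e3 : (toM D (A.Φ g) * toM D (A.Φ h)) b' b = 0 := by_contra fun m => by
        obtain ⟨c, m1, m2⟩ := mu _ _ _ _ m
        exact n ((d2 g hg _ _ m1).trans (d2 h hh _ _ m2))
      rw [e1, e2, e3] at e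
      omega
  have p1 : ∀ b : D, 1 ≤ A.dm b := fun b => (A.dm_mem _ b.2).1
  refine ⟨⟨fun b => A.dm b - 1, toM D A.d,
    fun g => if g ∈ S ∨ ∃ a ∈ S, ∃ b ∈ S, g = a * b then toM D (A.Φ g) else 0,
    fun g h => if g ∈ S ∧ h ∈ S then toM D (A.H g h) else 0,
    fun g => if g ∈ S then toM D (A.J g) else 0, fun b => A.u b, fun b => A.d (single b.1 1) o,
    fun b => ?_, fun b' b h => ?_, fun g b' b h => ?_, fun g h b' b k => ?_, fun g b' b h => ?_,
    fun b h => ?_, fun b h => ?_, ?_, fun g hg => ?_, fun g hg h hh => ?_, fun g hg => ?_, ?_, ?_,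
    fun b' b h => ?_, fun g hg b' b h => ?_, fun g hg h hh b' b k => ?_⟩⟩
  · have := (A.dm_mem _ b.2).2
    omega
  · have := d1 _ _ h
    have := p1 b'
    omega
  · split_ifs at h with k
    · rcases k with k | ⟨a, ha, a', ha', rfl⟩
      · rw [d2 g k _ _ h]
      · rw [d4 a ha a' ha' _ _ h]
    · exact (h rfl).elim
  · split_ifs at k with m
    · have := d3 g m.1 h m.2 _ _ k
      have := p1 b
      omega
    · exact (k rfl).elim
  · split_ifs at h with m
    · have := (A.J_mem g m _ b.2 _ h).2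
      have := p1 b
      omega
    · exact (h rfl).elim
  · rw [(A.u_mem _ h).2]
  · rw [← (A.d_mem _ b.2 _ h).1, A.dm_o]
  · ext b' b
    rw [ZtA_mul ho _ _ _ _ (md b), A.dd _ b.2, A.d_o]
    simp
  · ext b' b
    rw [if_pos (Or.inl hg), ZtA_mul ho _ _ _ _ (md b), ZtA_mul ho _ _ _ _ (mΦ g hg b),
      A.dΦ g hg _ b.2, A.d_o, A.Φ_o g hg, so]
    simp
  · rw [if_pos ⟨hg, hh⟩, if_pos (Or.inl hg), if_pos (Or.inl hh),
      if_pos (Or.inr ⟨g, hg, h, hh, rfl⟩), eH g hg h hh]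
  · ext b' b
    rw [if_pos hg, if_pos (Or.inl hg), Matrix.add_apply, Matrix.sub_apply,
      ZtA_mul ho _ _ _ _ (md b), ZtA_mul ho _ _ _ _ fun c k => Or.inr (A.J_mem g hg _ b.2 c k).1,
      A.d_o, A.J_o g hg, vecMulVec_apply]
    have := DFunLike.congr_fun (A.dJ g hg _ b.2) b'.1
    rw [Finsupp.add_apply] at this
    simp only [Finsupp.zero_apply, zero_mul, sub_zero, toM, ← this]
    ring
  · have := ZtA_sum ho A.d (z := A.u) (fun c k => Or.inr (A.u_mem c k).1) o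
    rw [A.du, A.d_o, single_eq_same] at this
    simpa [dotProduct] using this.symm
  · ext b
    have := ZtA_sum ho A.d (md b) o
    rw [A.dd _ b.2, A.d_o] at this
    simpa [vecMul, dotProduct, toM] using this.symm
  · exact ((A.d_mem _ b.2 _ h).2.resolve_left fun e => ho (e ▸ b'.2)).2
  · rw [if_pos (Or.inl hg)] at h
    exact (A.Φ_mem g hg _ b.2 _ h).2.2
  · rw [if_pos ⟨hg, hh⟩] at k
    exact (A.H_mem g hg h hh _ b.2 _ k).2.2

end Pool.Agent.Work.MP_9d1ffa_al.WL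
end

-- merged part: Pool.Agent.Work.MP_9d1ffa_al.WL.ZtD
section
/-! Topological transfer data: definitions. -/

namespace Pool.Agent.Work.MP_9d1ffa_al.WL

/-- A compact non-empty space with continuous segments and with arbitrarily fine open covers of
order at most `N + 1`. -/
structure Grid (N : ℕ) (Z : Type) [MetricSpace Z] : Prop where
  cpt : CompactSpace Z
  ne : Nonempty Z
  seg : ∃ sg : Z → Z → unitInterval → Z,
    (Continuous fun p : Z × Z × unitInterval => sg p.1 p.2.1 p.2.2) ∧ (∀ x y, sg x y 0 = x) ∧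
      (∀ x y, sg x y 1 = y) ∧ ∀ x t, sg x x t = x
  cov : ∀ δ : ℝ, 0 < δ → ∃ (A : Type) (U : A → Set Z), (∀ a, IsOpen (U a)) ∧ (∀ x, ∃ a, x ∈ U a) ∧
    (∀ x, {a | x ∈ U a}.encard ≤ (N + 1 : ℕ)) ∧ ∀ a, ∀ x ∈ U a, ∀ y ∈ U a, dist x y ≤ δ

/-- Self maps `φ g` of `Z`, homotopies `Hm g h` from `φ g ∘ φ h` to `φ (g * h)`, and positions
`f` that are `ε`-equivariant along them. -/
structure ZD {Q Ω Z : Type} [Group Q] [MulAction Q Ω] [MetricSpace Z] (S : Finset Q) (ε : ℝ)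
    (φ : Q → Z → Z) (Hm : Q → Q → Z → unitInterval → Z) (f : Z → Ω → ℝ) : Prop where
  φ_cont : ∀ g ∈ S, Continuous (φ g)
  H_cont : ∀ g ∈ S, ∀ h ∈ S, Continuous fun p : Z × unitInterval => Hm g h p.1 p.2
  H_zero : ∀ g ∈ S, ∀ h ∈ S, ∀ x, Hm g h x 0 = φ g (φ h x)
  H_one : ∀ g ∈ S, ∀ h ∈ S, ∀ x, Hm g h x 1 = φ (g * h) x
  f_cl : ∃ δ : ℝ, 0 < δ ∧ ∀ x y, dist x y ≤ δ → Cl ε (1 : Q) (f x) (f y)
  φ_cl : ∀ g ∈ S, ∀ x, Cl ε g (f x) (f (φ g x))
  H_cl : ∀ g ∈ S, ∀ h ∈ S, ∀ x t, Cl ε (g * h) (f x) (f (Hm g h x t))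

/-- `Q` has topological transfer data of bounded dimension over the subgroups in `Good` -/
def ZT (Q : Type) [Group Q] (Good : Subgroup Q → Prop) : Prop :=
  ∃ N : ℕ, ∀ (S : Finset Q) (ε : ℝ), 0 < ε →
    ∃ (Z : Type) (_ : MetricSpace Z) (φ : Q → Z → Z) (Hm : Q → Q → Z → unitInterval → Z)
      (Ω : Type) (_ : MulAction Q Ω) (f : Z → Ω → ℝ),
      Grid N Z ∧ ZD S ε φ Hm f ∧ ∀ x, Pos Good N (f x)

end Pool.Agent.Work.MP_9d1ffa_al.WL
end

-- merged part: Pool.Agent.Work.MP_9d1ffa_al.WL.ZtG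
section
/-! Examples of grids; monotonicity. -/

namespace Pool.Agent.Work.MP_9d1ffa_al.WL

theorem Grid.mono {N N' : ℕ} {Z : Type} [MetricSpace Z] (hG : Grid N Z) (h : N ≤ N') : Grid N' Z :=
  ⟨hG.cpt, hG.ne, hG.seg, fun δ hδ =>
    let ⟨A, U, h1, h2, h3, h4⟩ := hG.cov δ hδ
    ⟨A, U, h1, h2, fun x => (h3 x).trans (Nat.cast_le.2 (Nat.succ_le_succ h)), h4⟩⟩

theorem Pos.mono {Q Ω : Type} [Group Q] [MulAction Q Ω] {Good Good' : Subgroup Q → Prop}
    {N N' : ℕ} {μ : Ω → ℝ} (h : Pos Good N μ) (hN : N ≤ N') (hG : ∀ H, Good H → Good' H) :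
    Pos Good' N' μ :=
  ⟨h.1, h.2.1.imp fun ω k => k.trans (mul_le_mul_of_nonneg_right
      (by exact_mod_cast Nat.succ_le_succ hN) (h.1 ω).1),
    h.2.2.1.trans (Nat.cast_le.2 (Nat.succ_le_succ hN)),
    fun σ H a b c => hG H (h.2.2.2 σ H a b c)⟩

theorem ZT.mono {Q : Type} [Group Q] {Good Good' : Subgroup Q → Prop} (h : ZT Q Good)
    (hG : ∀ H, Good H → Good' H) : ZT Q Good' :=
  h.imp fun _ h S ε hε =>
    let ⟨Z, i, φ, Hm, Ω, j, f, h1, h2, h3⟩ := h S ε hε
    ⟨Z, i, φ, Hm, Ω, j, f, h1, h2, fun x => (h3 x).mono le_rfl hG⟩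

theorem ZtG_pi {ι : Type} [Fintype ι] {A : ι → Type} {s : ∀ i, Set (A i)} {n : ℕ}
    (h : ∀ i, (s i).encard ≤ n) : (Set.univ.pi s).encard ≤ (n ^ Fintype.card ι : ℕ) := by
  rw [Set.encard_pi_eq_prod_encard]
  simpa using Finset.prod_le_pow_card Finset.univ _ (n : ℕ∞) fun i _ => h i

theorem Grid.pi {ι : Type} [Fintype ι] {Z : ι → Type} [∀ i, MetricSpace (Z i)] {N M : ℕ}
    (h : ∀ i, Grid N (Z i)) (hM : (N + 1) ^ Fintype.card ι ≤ M + 1) : Grid M (∀ i, Z i) := by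
  have := fun i => (h i).cpt
  have := fun i => (h i).ne
  choose sg s1 s2 s3 s4 using fun i => (h i).seg
  refine ⟨inferInstance, inferInstance, ⟨fun x y t i => sg i (x i) (y i) t, continuous_pi fun i =>
    (s1 i).comp (f := fun p : (∀ i, Z i) × (∀ i, Z i) × unitInterval => (p.1 i, p.2.1 i, p.2.2))
      (by fun_prop), fun x y => funext fun i => s2 _ _ _, fun x y => funext fun i => s3 _ _ _,
    fun x t => funext fun i => s4 _ _ _⟩, fun δ hδ => ?_⟩
  choose A U u1 u2 u3 u4 using fun i => (h i).cov δ hδ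
  refine ⟨∀ i, A i, fun a => Set.univ.pi fun i => U i (a i),
    fun a => isOpen_set_pi Set.finite_univ fun i _ => u1 i _, fun x => ?_, fun x => ?_,
    fun a x hx y hy => (dist_pi_le_iff hδ.le).2 fun i => u4 i _ _ (hx i trivial) _ (hy i trivial)⟩
  · choose a ha using fun i => u2 i (x i)
    exact ⟨a, fun i _ => ha i⟩
  · exact (ZtG_pi fun i => u3 i (x i)).trans (Nat.cast_le.2 hM)

theorem Grid.prod {Z Z' : Type} [MetricSpace Z] [MetricSpace Z'] {N N' M : ℕ} (h : Grid N Z)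
    (h' : Grid N' Z') (hM : (N + 1) * (N' + 1) ≤ M + 1) : Grid M (Z × Z') := by
  have := h.cpt
  have := h'.cpt
  have := h.ne
  have := h'.ne
  obtain ⟨sg, s1, s2, s3, s4⟩ := h.seg
  obtain ⟨tg, t1, t2, t3, t4⟩ := h'.seg
  refine ⟨inferInstance, inferInstance, ⟨fun x y t => (sg x.1 y.1 t, tg x.2 y.2 t),
    (s1.comp (f := fun p : (Z × Z') × (Z × Z') × unitInterval => (p.1.1, p.2.1.1, p.2.2))
      (by fun_prop)).prodMk
    (t1.comp (f := fun p : (Z × Z') × (Z × Z') × unitInterval => (p.1.2, p.2.1.2, p.2.2))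
      (by fun_prop)), fun x y => Prod.ext (s2 _ _) (t2 _ _), fun x y => Prod.ext (s3 _ _) (t3 _ _),
    fun x t => Prod.ext (s4 _ _) (t4 _ _)⟩, fun δ hδ => ?_⟩
  obtain ⟨A, U, u1, u2, u3, u4⟩ := h.cov δ hδ
  obtain ⟨B, V, v1, v2, v3, v4⟩ := h'.cov δ hδ
  refine ⟨A × B, fun a => U a.1 ×ˢ V a.2, fun a => (u1 _).prod (v1 _), fun x => ?_, fun x => ?_,
    fun a x hx y hy => max_le (u4 _ _ hx.1 _ hy.1) (v4 _ _ hx.2 _ hy.2)⟩
  · obtain ⟨a, ha⟩ := u2 x.1
    obtain ⟨b, hb⟩ := v2 x.2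
    exact ⟨(a, b), ha, hb⟩
  · refine (Set.encard_prod (s := {a | x.1 ∈ U a}) (t := {b | x.2 ∈ V b})).trans_le
      ((mul_le_mul' (u3 _) (v3 _)).trans ?_)
    exact_mod_cast hM

/-- grids from continuous weights -/
theorem Grid.of_weights {Z : Type} [MetricSpace Z] [CompactSpace Z] [Nonempty Z] {N : ℕ}
    (sg : Z → Z → unitInterval → Z)
    (s1 : Continuous fun p : Z × Z × unitInterval => sg p.1 p.2.1 p.2.2) (s2 : ∀ x y, sg x y 0 = x)
    (s3 : ∀ x y, sg x y 1 = y) (s4 : ∀ x t, sg x x t = x)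
    (hW : ∀ δ : ℝ, 0 < δ → ∃ (Ω : Type) (W : Z → Ω → ℝ), (∀ ω, Continuous fun x => W x ω) ∧
      (∀ x, ∃ ω, 0 < W x ω) ∧ (∀ x, (Function.support (W x)).encard ≤ (N + 1 : ℕ)) ∧
      ∀ x x' ω, 0 < W x ω → 0 < W x' ω → dist x x' ≤ δ) : Grid N Z :=
  ⟨‹_›, ‹_›, ⟨sg, s1, s2, s3, s4⟩, fun δ hδ =>
    let ⟨Ω, W, w1, w2, w3, w4⟩ := hW δ hδ
    ⟨Ω, fun ω => {x | 0 < W x ω}, fun ω => isOpen_lt continuous_const (w1 ω), w2,
      fun x => (Set.encard_le_encard fun _ h => ne_of_gt h).trans (w3 x),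
      fun ω x hx y hy => w4 x y ω hx hy⟩⟩

/-- grids from an embedding in a space of coordinates -/
theorem Grid.of_inj {Z ι : Type} [MetricSpace Z] [CompactSpace Z] [Nonempty Z] [Fintype ι] {N : ℕ}
    (sg : Z → Z → unitInterval → Z)
    (s1 : Continuous fun p : Z × Z × unitInterval => sg p.1 p.2.1 p.2.2) (s2 : ∀ x y, sg x y 0 = x)
    (s3 : ∀ x y, sg x y 1 = y) (s4 : ∀ x t, sg x x t = x) (e : Z → ι → ℝ) (e1 : Continuous e)
    (e2 : Function.Injective e) (hN : 2 ^ Fintype.card ι ≤ N + 1) : Grid N Z := by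
  refine ⟨‹_›, ‹_›, ⟨sg, s1, s2, s3, s4⟩, fun δ hδ => ?_⟩
  obtain ⟨η, η0, hη⟩ := (isClosed_le continuous_const continuous_dist :
      IsClosed {p : Z × Z | δ ≤ dist p.1 p.2}).isCompact.exists_forall_le'
    (f := fun p => dist (e p.1) (e p.2)) (by fun_prop) (a := 0) fun p hp =>
      dist_pos.2 fun k => by
        have : δ ≤ dist p.1 p.2 := hp
        rw [e2 k, dist_self] at this
        exact this.not_gt hδ
  refine ⟨ι → ℤ, fun a => {x | ∀ j, |e x j / (η / 2) - a j| < 1}, fun a => ?_,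
    fun x => ⟨fun j => ⌊e x j / (η / 2)⌋, fun j => ?_⟩, fun x => ?_, fun a x hx y hy => ?_⟩
  · simp only [Set.ofPred_forall]
    exact isOpen_iInter_of_finite fun j => isOpen_lt (by fun_prop) continuous_const
  · exact abs_lt.2 ⟨by linarith [Int.floor_le (e x j / (η / 2))],
      by linarith [Int.lt_floor_add_one (e x j / (η / 2))]⟩
  · refine (Set.encard_le_encard ?_).trans ((ZtG_pi (n := 2)
      (s := fun j => ({⌊e x j / (η / 2)⌋, ⌊e x j / (η / 2)⌋ + 1} : Set ℤ)) fun j =>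
        (Set.encard_pair (by omega)).le).trans (Nat.cast_le.2 hN))
    intro a ha j _
    obtain ⟨h1, h2⟩ := abs_lt.1 (ha j)
    have h3 : a j - 1 ≤ ⌊e x j / (η / 2)⌋ := Int.le_floor.2 (by push_cast; linarith)
    have h4 : ⌊e x j / (η / 2)⌋ < a j + 1 := Int.floor_lt.2 (by push_cast; linarith)
    simp only [Set.mem_insert_iff, Set.mem_singleton_iff]
    omega
  · by_contra k
    refine (hη (x, y) (not_le.1 k).le).not_gt ((dist_pi_lt_iff η0).2 fun j => ?_)
    obtain ⟨h1, h2⟩ := abs_lt.1 (hx j)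
    obtain ⟨h3, h4⟩ := abs_lt.1 (hy j)
    have h5 : |e x j / (η / 2) - e y j / (η / 2)| < 2 := abs_lt.2 ⟨by linarith, by linarith⟩
    rw [← sub_div, abs_div, abs_of_pos (half_pos η0), div_lt_iff₀ (half_pos η0)] at h5
    rw [Real.dist_eq]
    linarith

/-- compact convex sets; the segments are the straight ones -/
theorem Grid.convex {E : Type} [NormedAddCommGroup E] [NormedSpace ℝ E] [FiniteDimensional ℝ E]
    {C : Set E} (h1 : IsCompact C) (h2 : Convex ℝ C) (h3 : C.Nonempty) {N : ℕ}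
    (hN : 2 ^ Module.finrank ℝ E ≤ N + 1) : Grid N C := by
  have := isCompact_iff_compactSpace.1 h1
  have := h3.to_subtype
  let b := (Module.finBasis ℝ E).equivFunL
  exact Grid.of_inj (fun x y t => ⟨x + (t : ℝ) • (y - x : E), h2.add_smul_sub_mem x.2 y.2 t.2⟩)
    (by fun_prop) (by simp) (by simp) (by simp) (fun x => b x) (by fun_prop)
    (b.injective.comp Subtype.val_injective) (by simpa using hN)

end Pool.Agent.Work.MP_9d1ffa_al.WL
end

-- merged part: Pool.Agent.Work.MP_9d1ffa_al.WL.ZtL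
section
/-! Chains of lists of points, prisms, acyclic carriers. -/

namespace Pool.Agent.Work.MP_9d1ffa_al.WL.Zt

open Finsupp
open Sq (lx)

theorem lin_mem {B M : Type} [AddCommGroup M] {T : (B →₀ ℤ) →ₗ[ℤ] M} {P : Submodule ℤ M}
    {z : B →₀ ℤ} (h : ∀ b, z b ≠ 0 → T (single b 1) ∈ P) : T z ∈ P :=
  Sq.ChB_mem (M := P.comap T) h

theorem lin_eq {B M : Type} [AddCommGroup M] {T T' : (B →₀ ℤ) →ₗ[ℤ] M}
    {z : B →₀ ℤ} (h : ∀ b, z b ≠ 0 → T (single b 1) = T' (single b 1)) : T z = T' z :=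
  Sq.ChB_mem (M := LinearMap.eqLocus T T') h

theorem lin_ne {B B' : Type} {T : (B →₀ ℤ) →ₗ[ℤ] (B' →₀ ℤ)} {z : B →₀ ℤ} {c : B'}
    (h : T z c ≠ 0) : ∃ b, z b ≠ 0 ∧ T (single b 1) c ≠ 0 := by
  by_contra k
  push Not at k
  exact h (lin_eq (T := lapply c ∘ₗ T) (T' := 0) k)

theorem rec_all {W X : Type} [Inhabited X] (r : W → ℕ) (Q : W → (W → X) → X → Prop)
    (hQ : ∀ σ f g x, (∀ τ, r τ < r σ → f τ = g τ) → Q σ f x → Q σ g x)
    (st : ∀ σ f, (∀ τ, r τ < r σ → Q τ f (f τ)) → ∃ x, Q σ f x) : ∃ f, ∀ σ, Q σ f (f σ) := by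
  classical
  let f : W → X := (InvImage.wf r wellFounded_lt).fix fun σ g =>
    Classical.epsilon (Q σ fun τ => if h : r τ < r σ then g τ h else default)
  have e : ∀ σ, f σ = Classical.epsilon (Q σ fun τ => if r τ < r σ then f τ else default) :=
    fun σ => WellFounded.fix_eq _ _ _
  refine ⟨f, fun σ => ?_⟩
  induction' hn : r σ using Nat.strong_induction_on with n ih generalizing σ
  obtain ⟨x, hx⟩ := st σ f fun τ h => ih _ (hn ▸ h) τ rfl
  refine hQ σ (fun τ => if r τ < r σ then f τ else default) f _ (fun τ h => if_pos h) ?_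
  rw [e]
  exact Classical.epsilon_spec ⟨x, hQ σ f _ x (fun τ h => (if_pos h).symm) hx⟩

/-- acyclic carriers -/
theorem carrier {B T : Type} [AddCommGroup T] (dg : B → ℕ) (d : B → B →₀ ℤ) (bd : T →ₗ[ℤ] T)
    (s : ℤ) (F : (B →₀ ℤ) →ₗ[ℤ] T) (G : B → Prop) (A : B → Set T) (Zc : B → Submodule ℤ T)
    (hd : ∀ b, G b → ∀ b', d b b' ≠ 0 → G b' ∧ dg b' < dg b ∧ A b' ⊆ Zc b)
    (hF : ∀ b, G b → F (single b 1) ∈ Zc b ∧ bd (F (single b 1)) = -s • F (d b))
    (dd : ∀ b, G b → lx d (d b) = 0)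
    (ac : ∀ b, G b → ∀ z ∈ Zc b, bd z = 0 → ∃ w ∈ A b, bd w = z) :
    ∃ h : (B →₀ ℤ) →ₗ[ℤ] T, ∀ b, G b →
      h (single b 1) ∈ A b ∧ bd (h (single b 1)) = F (single b 1) + s • h (d b) := by
  have : Inhabited T := ⟨0⟩
  obtain ⟨f, hf⟩ := rec_all dg (fun b (f : B → T) w => G b → w ∈ A b ∧
      bd w = F (single b 1) + s • linearCombination ℤ f (d b))
    (fun b f g w h k hb => by
      rw [lin_eq (T := linearCombination ℤ g) (T' := linearCombination ℤ f) fun b' m => by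
        simp [h b' (hd b hb b' m).2.1]]
      exact k hb)
    (fun b f h => by
      by_cases hb : G b
      · obtain ⟨w, h1, h2⟩ := ac b hb (F (single b 1) + s • linearCombination ℤ f (d b))
          (add_mem (hF b hb).1 (Submodule.smul_mem _ _ (lin_mem fun b' m => by
            obtain ⟨m1, m2, m3⟩ := hd b hb b' m
            simpa using m3 (h b' m2 m1).1))) (by
            have e : bd (linearCombination ℤ f (d b)) =
                F (d b) + s • linearCombination ℤ f (lx d (d b)) :=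
              lin_eq (T := bd ∘ₗ linearCombination ℤ f)
                (T' := F + s • linearCombination ℤ f ∘ₗ lx d) fun b' m => by
                obtain ⟨m1, m2, -⟩ := hd b hb b' m
                simpa using (h b' m2 m1).2
            rw [map_add, map_smul, e, dd b hb, (hF b hb).2]
            simp)
        exact ⟨w, fun _ => ⟨h1, h2⟩⟩
      · exact ⟨0, fun k => absurd k hb⟩)
  exact ⟨linearCombination ℤ f, fun b hb => by simpa using hf b hb⟩

variable {Z Z' Z'' : Type}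

/-- chains of lists -/
abbrev LC (Z : Type) : Type := List Z →₀ ℤ

/-- the cone -/
noncomputable def cn (x : Z) : LC Z →ₗ[ℤ] LC Z := lmapDomain ℤ ℤ (List.cons x)

/-- the image under a map -/
noncomputable def mp (a : Z → Z') : LC Z →ₗ[ℤ] LC Z' := lmapDomain ℤ ℤ (List.map a)

/-- the boundary of a list -/
noncomputable def bl : List Z → LC Z
  | [] => 0
  | x :: l => single l 1 - cn x (bl l)

/-- the boundary -/
noncomputable def bd : LC Z →ₗ[ℤ] LC Z := lx bl

@[simp] theorem cn_single (x : Z) (l : List Z) (c : ℤ) : cn x (single l c) = single (x :: l) c := by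
  simp [cn]

@[simp] theorem mp_single (a : Z → Z') (l : List Z) (c : ℤ) :
    mp a (single l c) = single (l.map a) c := by
  simp [mp]

theorem bd_single (l : List Z) : bd (single l 1) = bl l := Sq.ChB_single _ _

theorem bd_nil : bd (single ([] : List Z) 1) = 0 := bd_single _

theorem bd_cn (x : Z) (z : LC Z) : bd (cn x z) = z - cn x (bd z) :=
  lin_eq (T := bd ∘ₗ cn x) (T' := LinearMap.id - cn x ∘ₗ bd) fun l _ => by
    simp [bd_single, bl]

theorem bd_bl (l : List Z) : bd (bl l) = 0 := by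
  induction l with
  | nil => simp [bl]
  | cons x l ih => rw [bl, map_sub, bd_cn, ih, bd_single, map_zero, sub_zero, sub_self]

theorem bd_bd (z : LC Z) : bd (bd z) = 0 :=
  lin_eq (T := bd ∘ₗ bd) (T' := 0) fun l _ => by simp [bd_single, bd_bl]

theorem mp_cn (a : Z → Z') (x : Z) (z : LC Z) : mp a (cn x z) = cn (a x) (mp a z) :=
  lin_eq (T := mp a ∘ₗ cn x) (T' := cn (a x) ∘ₗ mp a) fun l _ => by simp

theorem mp_mp (a : Z' → Z'') (b : Z → Z') (z : LC Z) : mp a (mp b z) = mp (fun x => a (b x)) z :=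
  lin_eq (T := mp a ∘ₗ mp b) (T' := mp fun x => a (b x)) fun l _ => by simp [Function.comp_def]

theorem mp_id (z : LC Z) : mp (fun x => x) z = z :=
  lin_eq (T := mp fun x => x) (T' := LinearMap.id) fun l _ => by simp

theorem bd_mp (a : Z → Z') (z : LC Z) : bd (mp a z) = mp a (bd z) :=
  lin_eq (T := bd ∘ₗ mp a) (T' := mp a ∘ₗ bd) fun l k => by
    clear k
    simp only [LinearMap.comp_apply, mp_single, bd_single]
    induction l with
    | nil => simp [bl]
    | cons x l ih => rw [List.map_cons, bl, bl, ih, map_sub, mp_cn, mp_single]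

/-- the prism over a list -/
noncomputable def pl (a b : Z → Z') : List Z → LC Z'
  | [] => 0
  | x :: l => cn (a x) (single ((x :: l).map b) 1 - pl a b l)

/-- the prism operator -/
noncomputable def pr (a b : Z → Z') : LC Z →ₗ[ℤ] LC Z' := linearCombination ℤ (pl a b)

theorem pr_single (a b : Z → Z') (l : List Z) : pr a b (single l 1) = pl a b l := by simp [pr]

theorem pr_cn (a b : Z → Z') (x : Z) (z : LC Z) :
    pr a b (cn x z) = cn (a x) (mp b (cn x z) - pr a b z) :=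
  lin_eq (T := pr a b ∘ₗ cn x) (T' := cn (a x) ∘ₗ (mp b ∘ₗ cn x - pr a b)) fun l _ => by
    simp [pr_single, pl]

theorem bd_pr (a b : Z → Z') (z : LC Z) : bd (pr a b z) + pr a b (bd z) = mp b z - mp a z :=
  lin_eq (T := bd ∘ₗ pr a b + pr a b ∘ₗ bd) (T' := mp b - mp a) fun l k => by
    clear k
    change bd (pr a b (single l 1)) + pr a b (bd (single l 1)) =
      mp b (single l 1) - mp a (single l 1)
    induction l with
    | nil => simp [pr_single, pl, bd_nil]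
    | cons x l ih =>
      rw [← cn_single, pr_cn, bd_cn, bd_cn, map_sub (pr a b), pr_cn, map_sub bd, bd_mp, bd_cn,
        eq_sub_of_add_eq ih, mp_cn a]
      simp only [map_sub]
      abel

/-- lists of length `k` whose points are pairwise related -/
def V (R : Z → Z → Prop) (k : ℕ) : Submodule ℤ (LC Z) :=
  supported ℤ ℤ {l | l.length = k ∧ ∀ y ∈ l, ∀ y' ∈ l, R y y'}

theorem mem_V {R : Z → Z → Prop} {k : ℕ} {z : LC Z} :
    z ∈ V R k ↔ ∀ l, z l ≠ 0 → l.length = k ∧ ∀ y ∈ l, ∀ y' ∈ l, R y y' := by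
  rw [V, mem_supported']
  exact ⟨fun h σ k => by_contra fun k' => k (h σ k'), fun h σ k => by_contra fun k' => k (h σ k')⟩

theorem V_mono {R R' : Z → Z → Prop} (h : ∀ y y', R y y' → R' y y') (k : ℕ) : V R k ≤ V R' k :=
  supported_mono fun _ m => ⟨m.1, fun y hy y' hy' => h _ _ (m.2 y hy y' hy')⟩

theorem single_mem_V {R : Z → Z → Prop} {k : ℕ} {l : List Z} (h : l.length = k)
    (m : ∀ y ∈ l, ∀ y' ∈ l, R y y') : single l (1 : ℤ) ∈ V R k :=
  single_mem_supported ℤ _ ⟨h, m⟩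

/-- lists of length `k` in `Y` -/
abbrev Pt (Y : Set Z) (k : ℕ) : Submodule ℤ (LC Z) := V (fun y y' => y ∈ Y ∧ y' ∈ Y) k

theorem cn_mem {Y : Set Z} {k : ℕ} {x : Z} {z : LC Z} (hx : x ∈ Y) (hz : z ∈ Pt Y k) :
    cn x z ∈ Pt Y (k + 1) :=
  lin_mem fun l h => by
    obtain ⟨h1, h2⟩ := mem_V.1 hz l h
    have : ∀ y ∈ x :: l, y ∈ Y := List.forall_mem_cons.2 ⟨hx, fun y hy => (h2 y hy y hy).1⟩
    rw [cn_single]
    exact single_mem_V (by simp [h1]) fun y hy y' hy' => ⟨this y hy, this y' hy'⟩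

theorem bl_mem {Y : Set Z} (l : List Z) : ∀ k, l.length = k + 1 → (∀ y ∈ l, y ∈ Y) →
    bl l ∈ Pt Y k := by
  induction l with
  | nil => simp
  | cons x l ih =>
    intro k h m
    obtain ⟨m1, m2⟩ := List.forall_mem_cons.1 m
    refine sub_mem (single_mem_V (by simpa using h) fun y hy y' hy' => ⟨m2 y hy, m2 y' hy'⟩) ?_
    cases k with
    | zero =>
      obtain rfl : l = [] := by simpa using h
      simp [bl]
    | succ k => exact cn_mem m1 (ih k (by simpa using h) m2)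

theorem bl_ne {l l' : List Z} (h : bl l l' ≠ 0) : l'.length + 1 = l.length ∧ ∀ y ∈ l', y ∈ l := by
  cases l with
  | nil => simp [bl] at h
  | cons x l =>
    obtain ⟨h1, h2⟩ := mem_V.1 (bl_mem (Y := {y | y ∈ x :: l}) _ _ rfl fun _ m => m) l' h
    exact ⟨by simp [h1], fun y hy => (h2 y hy y hy).1⟩

theorem pl_mem {Y : Set Z'} {a b : Z → Z'} (l : List Z) (m : ∀ y ∈ l, a y ∈ Y ∧ b y ∈ Y) :
    pl a b l ∈ Pt Y (l.length + 1) := by
  induction l with
  | nil => simp [pl]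
  | cons x l ih =>
    obtain ⟨m1, m2⟩ := List.forall_mem_cons.1 m
    have : ∀ y ∈ (x :: l).map b, y ∈ Y := List.forall_mem_map.2 fun y hy => (m y hy).2
    exact cn_mem m1.1 (sub_mem (single_mem_V (by simp) fun y hy y' hy' =>
      ⟨this y hy, this y' hy'⟩) (ih m2))

theorem mp_mem {R : Z → Z → Prop} {R' : Z' → Z' → Prop} {a : Z → Z'} {k : ℕ} {z : LC Z}
    (hz : z ∈ V R k) (h : ∀ y y', R y y' → R' (a y) (a y')) : mp a z ∈ V R' k :=
  lin_mem fun l m => by
    obtain ⟨h1, h2⟩ := mem_V.1 hz l m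
    rw [mp_single]
    exact single_mem_V (by simp [h1]) (List.forall_mem_map.2 fun y hy =>
      List.forall_mem_map.2 fun y' hy' => h _ _ (h2 y hy y' hy'))

/-- a chain homotopy made of short prisms -/
theorem exists_prism (Hm : Z → unitInterval → Z') {s : ℝ} (hs : 0 < s) :
    ∃ P : LC Z →ₗ[ℤ] LC Z', (∀ z, bd (P z) + P (bd z) = mp (Hm · 1) z - mp (Hm · 0) z) ∧
      P (single [] 1) = 0 ∧ ∀ (R : Z → Z → Prop) (R' : Z' → Z' → Prop) (k : ℕ), ∀ z ∈ V R k,
        (∀ y y' t t', R y y' → dist t t' ≤ s → R' (Hm y t) (Hm y' t')) → P z ∈ V R' (k + 1) := by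
  obtain ⟨M, hM⟩ := exists_nat_one_div_lt hs
  let t : ℕ → unitInterval := fun j => Set.projIcc 0 1 zero_le_one (j / (M + 1))
  have M0 : (0 : ℝ) < M + 1 := by positivity
  have ht : ∀ j, dist (t j) (t (j + 1)) ≤ s := fun j => by
    refine ((LipschitzWith.projIcc zero_le_one).dist_le_mul _ _).trans ?_
    rw [Real.dist_eq, ← sub_div, abs_div, abs_of_pos M0]
    simpa using hM.le
  refine ⟨∑ j ∈ Finset.range (M + 1), pr (Hm · (t j)) (Hm · (t (j + 1))), fun z => ?_, ?_,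
    fun R R' k z hz h => ?_⟩
  · simp only [LinearMap.sum_apply, map_sum, ← Finset.sum_add_distrib, bd_pr]
    rw [Finset.sum_range_sub fun j => mp (Hm · (t j)) z]
    have t0 : t 0 = 0 := by simp [t]
    have t1 : t (M + 1) = 1 := by simp [t, div_self M0.ne']
    rw [t0, t1]
  · simp [LinearMap.sum_apply, pr_single, pl]
  · rw [LinearMap.sum_apply]
    refine Submodule.sum_mem _ fun j _ => lin_mem fun l m => ?_
    obtain ⟨h1, h2⟩ := mem_V.1 hz l m
    rw [pr_single, ← h1]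
    refine V_mono ?_ _ (pl_mem (Y := {w | ∃ y ∈ l, w = Hm y (t j) ∨ w = Hm y (t (j + 1))}) l
      fun y hy => ⟨⟨y, hy, Or.inl rfl⟩, y, hy, Or.inr rfl⟩)
    rintro _ _ ⟨⟨y, hy, rfl | rfl⟩, y', hy', rfl | rfl⟩ <;> refine h _ _ _ _ (h2 y hy y' hy') ?_
    exacts [by simpa using hs.le, ht j, (dist_comm _ _).trans_le (ht j), by simpa using hs.le]

variable [MetricSpace Z]

/-- near `z` and near each other -/
def Rz (z : Z) (ρ s : ℝ) (y y' : Z) : Prop := dist y z ≤ ρ ∧ dist y y' ≤ s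

theorem ucont {X Y : Type} [PseudoMetricSpace X] [CompactSpace X] [PseudoMetricSpace Y]
    {f : X → Y} (hf : Continuous f) {η : ℝ} (hη : 0 < η) :
    ∃ θ, 0 < θ ∧ ∀ x y, dist x y ≤ θ → dist (f x) (f y) ≤ η := by
  obtain ⟨θ, h0, h⟩ := Metric.uniformContinuous_iff_le.1
    (CompactSpace.uniformContinuous_of_continuous hf) η hη
  exact ⟨θ, h0, fun x y k => h k⟩

theorem acyc {N : ℕ} (hZ : Grid N Z) (ρ' : ℝ) : ∃ ρ, 0 < ρ' → 0 < ρ ∧ ∀ s', ∃ s, 0 < s' →
    0 < s ∧ ∀ (z : Z) (k : ℕ), ∀ c ∈ V (Rz z ρ s) k, bd c = 0 →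
      ∃ w ∈ V (Rz z ρ' s') (k + 1), bd w = c := by
  have := hZ.cpt
  obtain ⟨sg, hc, h0, h1, h2⟩ := hZ.seg
  by_cases hρ : 0 < ρ'
  swap
  · exact ⟨0, fun h => absurd h hρ⟩
  obtain ⟨ρ, ρ0, a1⟩ := ucont hc hρ
  refine ⟨ρ, fun _ => ⟨ρ0, fun s' => ?_⟩⟩
  by_cases hs : 0 < s'
  swap
  · exact ⟨0, fun h => absurd h hs⟩
  obtain ⟨s, s0, a2⟩ := ucont hc hs
  refine ⟨s, fun _ => ⟨s0, fun z k c hc' hb => ?_⟩⟩
  obtain ⟨P, p1, -, p2⟩ := exists_prism (sg z) s0
  refine ⟨P c + cn z (mp (fun _ => z) c), add_mem (p2 _ _ _ c hc' fun y y' t t' m m' => ⟨?_, ?_⟩)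
    (V_mono ?_ _ (cn_mem (Y := {z}) rfl (mp_mem hc' fun _ _ _ => ⟨rfl, rfl⟩))), ?_⟩
  · have := a1 (z, y, t) (z, z, t) (by simpa [Prod.dist_eq, ρ0.le] using m.1)
    rwa [h2] at this
  · exact a2 (z, y, t) (z, y', t') (by simp [Prod.dist_eq, m.2, m'])
  · rintro _ _ ⟨rfl, rfl⟩
    exact ⟨by simpa using hρ.le, by simpa using hs.le⟩
  · have := p1 c
    simp only [hb, map_zero, add_zero, h0, h1, mp_id] at this
    rw [map_add, this, bd_cn, bd_mp, hb]
    simp

/-- controlled maps and homotopies into the chains of lists -/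
theorem toL {N : ℕ} (hZ : Grid N Z) (n : ℕ) {ρ' : ℝ} (hρ : 0 < ρ') : ∃ ρ, 0 < ρ ∧
    ∀ s', 0 < s' → ∃ s, 0 < s ∧ ∀ (B : Type) (dg : B → ℕ) (d : B → B →₀ ℤ) (G : B → Prop)
      (x : B → Z) (sn : ℤ) (e : ℕ) (h0 : LC Z) (F : (B →₀ ℤ) →ₗ[ℤ] LC Z),
      (∀ R, h0 ∈ V R e) → bd h0 = 0 →
      (∀ b, G b → dg b ≤ n ∧ lx d (d b) = 0 ∧ bd (F (single b 1)) = -sn • F (d b) ∧
        (dg b = 0 → F (single b 1) = 0) ∧
        (∀ k, dg b = k + 1 → F (single b 1) ∈ V (Rz (x b) ρ s) (k + e)) ∧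
        ∀ b', d b b' ≠ 0 → G b' ∧ dg b' + 1 = dg b ∧ (dg b' = 0 ∨ dist (x b') (x b) ≤ ρ)) →
      ∃ h : (B →₀ ℤ) →ₗ[ℤ] LC Z, ∀ b, G b →
        h (single b 1) ∈ V (Rz (x b) ρ' s') (dg b + e) ∧ (dg b = 0 → h (single b 1) = h0) ∧
          bd (h (single b 1)) = F (single b 1) + sn • h (d b) := by
  classical
  choose f hf using acyc hZ
  have hf0 : ∀ r, 0 < r → 0 < f r := fun r h => (hf r h).1
  have hg : ∀ r s', ∃ s, 0 < r → 0 < s' → 0 < s ∧ ∀ (z : Z) (k : ℕ), ∀ c ∈ V (Rz z (f r) s) k,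
      bd c = 0 → ∃ w ∈ V (Rz z r s') (k + 1), bd w = c := fun r s' => by
    by_cases h : 0 < r
    · exact ((hf r h).2 s').imp fun s k _ => k
    · exact ⟨0, fun k => absurd k h⟩
  choose g hg using hg
  let α : ℕ → ℝ := fun j => Nat.rec ρ' (fun _ a => min a (f a / 2)) j
  have α0 : ∀ j, 0 < α j := fun j => by
    induction j with
    | zero => exact hρ
    | succ j ih => exact lt_min ih (half_pos (hf0 _ ih))
  have α1 : Antitone α := antitone_nat_of_succ_le fun j => min_le_left _ _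
  refine ⟨α (n + 1), α0 (n + 1), fun s' hs => ?_⟩
  let β : ℕ → ℝ := fun j => Nat.rec s' (fun j b => min b (g (α j) b)) j
  have β0 : ∀ j, 0 < β j := fun j => by
    induction j with
    | zero => exact hs
    | succ j ih => exact lt_min ih (hg _ _ (α0 j) ih).1
  have β1 : Antitone β := antitone_nat_of_succ_le fun j => min_le_left _ _
  refine ⟨β (n + 1), β0 (n + 1), fun B dg d G x sn e h0 F a1 a2 a3 => ?_⟩
  obtain ⟨h, hh⟩ := carrier dg d bd sn F G
    (fun b => {w | w ∈ V (Rz (x b) (α (n - dg b)) (β (n - dg b))) (dg b + e) ∧ (dg b = 0 → w = h0)})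
    (fun b => if dg b = 0 then ⊥ else
      V (Rz (x b) (2 * α (n - dg b + 1)) (β (n - dg b + 1))) (dg b - 1 + e))
    (fun b hb b' m => by
      obtain ⟨b1, -, -, -, -, b2⟩ := a3 b hb
      obtain ⟨m1, m2, m3⟩ := b2 b' m
      refine ⟨m1, by omega, fun w hw => ?_⟩
      rw [if_neg (by omega), show dg b - 1 = dg b' by omega,
        show n - dg b + 1 = n - dg b' by omega]
      rcases m3 with m3 | m3
      · rw [hw.2 m3, m3, zero_add]
        exact a1 _
      · refine V_mono (fun y y' k => ⟨?_, k.2⟩) _ hw.1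
        linarith [k.1, dist_triangle y (x b') (x b), α1 (show n - dg b' ≤ n + 1 by omega)])
    (fun b hb => by
      obtain ⟨b1, -, b2, b3, b4, -⟩ := a3 b hb
      refine ⟨?_, b2⟩
      split_ifs with k
      · exact b3 k
      · refine V_mono (fun y y' m => ⟨?_, m.2.trans (β1 (show n - dg b + 1 ≤ n + 1 by omega))⟩) _
          (b4 _ (by omega))
        linarith [m.1, α1 (show n - dg b + 1 ≤ n + 1 by omega), α0 (n - dg b + 1)])
    (fun b hb => (a3 b hb).2.1)
    (fun b hb z hz hc => by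
      split_ifs at hz with k
      · exact ⟨h0, ⟨by rw [k, zero_add]; exact a1 _, fun _ => rfl⟩, a2.trans hz.symm⟩
      · obtain ⟨w, w1, w2⟩ := (hg _ _ (α0 (n - dg b)) (β0 (n - dg b))).2 (x b) _ z
          (V_mono (fun y y' m => ⟨by
            have : α (n - dg b + 1) ≤ f (α (n - dg b)) / 2 := min_le_right _ _
            linarith [m.1], m.2.trans (min_le_right _ _)⟩) _ hz) hc
        exact ⟨w, ⟨by rwa [show dg b + e = dg b - 1 + e + 1 by omega], fun m => absurd m k⟩, w2⟩)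
  refine ⟨h, fun b hb => ⟨V_mono (fun y y' m => ⟨m.1.trans (α1 (Nat.zero_le _)),
    m.2.trans (β1 (Nat.zero_le _))⟩) _ (hh b hb).1.1, (hh b hb).1.2, (hh b hb).2⟩⟩

end Pool.Agent.Work.MP_9d1ffa_al.WL.Zt
end

-- merged part: Pool.Agent.Work.MP_9d1ffa_al.WL.ZtC
section
/-! Topological transfer data give chain level transfer data. -/

namespace Pool.Agent.Work.MP_9d1ffa_al.WL.Zt

open Finsupp
open Sq (lx bdy cne)

/-- simplicial approximation -/
theorem exists_r {Z L : Type} [LinearOrder L] (a : Z → L) :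
    ∃ r : LC Z →ₗ[ℤ] (Finset L →₀ ℤ), (∀ z, lx bdy (r z) = r (bd z)) ∧
      r (single [] 1) = single ∅ 1 ∧
      ∀ l σ, r (single l 1) σ ≠ 0 → σ.card = l.length ∧ ∀ c ∈ σ, ∃ y ∈ l, c = a y := by
  classical
  have ms : ∀ (p : Finset L → Prop) (z : Finset L →₀ ℤ),
      z ∈ supported ℤ ℤ {σ | p σ} ↔ ∀ σ, z σ ≠ 0 → p σ := fun p z => by
    rw [mem_supported']
    exact ⟨fun h σ k => by_contra fun k' => k (h σ k'), fun h σ k => by_contra fun k' => k (h σ k')⟩
  obtain ⟨r, hr⟩ := carrier List.length bl (lx bdy) 1 (0 : LC Z →ₗ[ℤ] (Finset L →₀ ℤ))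
    (fun _ => True)
    (fun l => {w | (∀ σ, w σ ≠ 0 → σ.card = l.length ∧ ∀ c ∈ σ, ∃ y ∈ l, c = a y) ∧
      (l = [] → w = single ∅ 1)})
    (fun l => supported ℤ ℤ {σ | σ.card + 1 = l.length ∧ ∀ c ∈ σ, ∃ y ∈ l, c = a y})
    (fun l _ l' m => by
      obtain ⟨m1, m2⟩ := bl_ne m
      refine ⟨trivial, by omega, fun w hw => (ms _ _).2 fun σ k => ?_⟩
      obtain ⟨k1, k2⟩ := hw.1 σ k
      exact ⟨by omega, fun c hc => (k2 c hc).imp fun y hy => ⟨m2 y hy.1, hy.2⟩⟩)
    (fun l _ => ⟨zero_mem _, by simp⟩) (fun l _ => bd_bl l)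
    (fun l _ z hz hc => by
      rw [ms] at hz
      by_cases hl : l = []
      · subst hl
        refine ⟨single ∅ 1, ⟨fun σ k => ?_, fun _ => rfl⟩, ?_⟩
        · obtain rfl : σ = ∅ := by_contra fun e => k (single_eq_of_ne e)
          simp
        · rw [Sq.ChB_single, Sq.bdy_empty]
          ext σ
          exact (by_contra fun k => by simpa using (hz σ k).1 : z σ = 0).symm
      · obtain ⟨x, hx, hm⟩ := l.toFinset.exists_min_image a
          ((List.toFinset_nonempty_iff l).2 hl)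
        refine ⟨lx (cne (a x)) z, ⟨fun σ k => ?_, fun e => absurd e hl⟩, ?_⟩
        · obtain ⟨τ, k1, k2⟩ := lin_ne k
          rw [Sq.ChB_single] at k2
          obtain ⟨k3, e⟩ := Sq.ChA_cne k2
          obtain rfl : σ = insert (a x) τ := e.trans (Finset.ext fun _ => by simp only [Finset.mem_insert])
          obtain ⟨k4, k5⟩ := hz τ k1
          exact ⟨by rw [Finset.card_insert_of_notMem k3, k4], fun c hc =>
            (Finset.mem_insert.1 hc).elim (fun e => ⟨x, List.mem_toFinset.1 hx, e⟩) (k5 c)⟩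
        · have := Sq.ChA_cone (b := a x) (z := z) fun σ k c hc => by
            obtain ⟨y, hy, rfl⟩ := (hz σ k).2 c hc
            exact hm y (List.mem_toFinset.2 hy)
          rwa [hc, map_zero, add_zero] at this)
  refine ⟨r, fun z => lin_eq (T := lx bdy ∘ₗ r) (T' := r ∘ₗ bd) fun l _ => ?_,
    (hr [] trivial).1.2 rfl, fun l => (hr l trivial).1.1⟩
  simpa [bd_single] using (hr l trivial).2

theorem cov_fin {N : ℕ} {Z : Type} [MetricSpace Z] (hZ : Grid N Z) {δ : ℝ} (hδ : 0 < δ) :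
    ∃ (m : ℕ) (U : Fin m → Set Z) (r : ℝ) (a : Z → Fin m), 0 < r ∧
      (∀ y y', dist y' y ≤ r → y' ∈ U (a y)) ∧
      (∀ (σ : Finset (Fin m)) y, (∀ c ∈ σ, y ∈ U c) → σ.card ≤ N + 1) ∧
      ∀ c, ∀ x ∈ U c, ∀ y ∈ U c, dist x y ≤ δ := by
  have := hZ.cpt
  obtain ⟨A, U, u1, u2, u3, u4⟩ := hZ.cov δ hδ
  obtain ⟨t, ht⟩ := isCompact_univ.elim_finite_subcover U u1 fun x _ => Set.mem_iUnion.2 (u2 x)
  let e := t.equivFin.symm
  obtain ⟨r, r0, hr⟩ := lebesgue_number_lemma_of_metric (c := fun j => U (e j)) isCompact_univ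
    (fun j => u1 _) fun x hx => by
      obtain ⟨c, hc, k⟩ := Set.mem_iUnion₂.1 (ht hx)
      exact Set.mem_iUnion.2 ⟨e.symm ⟨c, hc⟩, by simpa using k⟩
  choose a ha using fun x => hr x (Set.mem_univ x)
  refine ⟨_, fun j => U (e j), r / 2, a, half_pos r0, fun y y' h =>
    ha y (h.trans_lt (half_lt_self r0)), fun σ y h => ?_, fun c => u4 _⟩
  have i : Function.Injective fun j => (e j).1 := Subtype.val_injective.comp e.injective
  have := (Set.encard_le_encard (s := (fun j => (e j).1) '' σ) (by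
    rintro _ ⟨c, hc, rfl⟩
    exact h c hc)).trans (u3 y)
  rw [i.encard_image, Set.encard_coe_eq_coe_finsetCard] at this
  exact_mod_cast this

theorem ex_all {ι : Type} (S : Finset ι) (P : ι → ℝ → Prop)
    (hm : ∀ i s s', s' ≤ s → P i s → P i s') (h : ∀ i ∈ S, ∃ s, 0 < s ∧ P i s) :
    ∃ s, 0 < s ∧ ∀ i ∈ S, P i s := by
  classical
  induction S using Finset.induction_on with
  | empty => exact ⟨1, one_pos, by simp⟩
  | insert i S _ ih =>
    obtain ⟨s, s0, hs⟩ := ih fun j hj => h j (Finset.mem_insert_of_mem hj)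
    obtain ⟨s', s1, hs'⟩ := h i (Finset.mem_insert_self _ _)
    exact ⟨min s s', lt_min s0 s1, Finset.forall_mem_insert _ _ _ |>.2
      ⟨hm _ _ _ (min_le_right _ _) hs', fun j hj => hm _ _ _ (min_le_left _ _) (hs j hj)⟩⟩

variable {Q Ω : Type} [Group Q] [MulAction Q Ω]

theorem cl_trans {η η' : ℝ} {g h : Q} {μ ν ξ : Ω → ℝ} (a : Cl η g μ ν) (b : Cl η' h ν ξ) :
    Cl (η + η') (h * g) μ ξ := fun ω => by
  rw [mul_smul]
  linarith [a ω, b (g • ω), abs_sub_le (ξ (h • g • ω)) (ν (g • ω)) (μ ω)]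

theorem cl_mono {η η' : ℝ} {g : Q} {μ ν : Ω → ℝ} (a : Cl η g μ ν) (h : η ≤ η') : Cl η' g μ ν :=
  fun ω => (a ω).trans h

theorem exists_ad {N : ℕ} {Z : Type} [MetricSpace Z] (hZ : Grid N Z) {S : Finset Q} {ε : ℝ}
    (hε : 0 < ε) {φ : Q → Z → Z} {Hm : Q → Q → Z → unitInterval → Z} {f : Z → Ω → ℝ}
    (hD : ZD S ε φ Hm f) : ∃ (m : ℕ) (D : Set (Finset (Fin m))) (x : Finset (Fin m) → Z),
      Nonempty (AD S N (5 * ε) D ∅ fun σ => f (x σ)) := by
  classical
  have := hZ.cpt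
  obtain ⟨z0⟩ := hZ.ne
  obtain ⟨sg, sc, s0, s1, -⟩ := hZ.seg
  obtain ⟨δf, δf0, hf⟩ := hD.f_cl
  obtain ⟨ρ1, ρ10, hK⟩ := toL hZ (N + 1) δf0
  obtain ⟨ρ2, ρ20, hI⟩ := toL hZ (N + 1) (lt_min (by positivity : 0 < ρ1 / 3) δf0)
  obtain ⟨m, U, r0, a, r00, u1, u2, u3⟩ :=
    cov_fin hZ (lt_min ρ20 (lt_min (by positivity : 0 < ρ1 / 3) δf0))
  obtain ⟨r, r1, r2, r3⟩ := exists_r a
  let G : Finset (Fin m) → Prop := fun σ => ∃ y, ∀ c ∈ σ, y ∈ U c
  let x : Finset (Fin m) → Z := fun σ => if h : G σ then h.choose else z0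
  have hx : ∀ σ, G σ → ∀ c ∈ σ, x σ ∈ U c := fun σ h => by
    simp only [x, dif_pos h]
    exact h.choose_spec
  have G0 : G ∅ := ⟨z0, by simp⟩
  -- the values of `r` on short lists
  have rm : ∀ (R : Z → Z → Prop) k, ∀ z ∈ V R k, (∀ y y', R y y' → dist y y' ≤ r0) →
      ∀ σ, r z σ ≠ 0 → σ.card = k ∧ G σ ∧ (σ.Nonempty → ∃ y, R y y ∧
        dist (x σ) y ≤ min ρ2 (min (ρ1 / 3) δf)) := fun R k z hz hR σ h => by
    obtain ⟨l, h1, h2⟩ := lin_ne h
    obtain ⟨h3, h4⟩ := mem_V.1 hz l h1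
    obtain ⟨h5, h6⟩ := r3 l σ h2
    have g : G σ := by
      rcases σ.eq_empty_or_nonempty with rfl | ⟨c, hc⟩
      · exact G0
      · obtain ⟨y, hy, -⟩ := h6 c hc
        refine ⟨y, fun c' hc' => ?_⟩
        obtain ⟨y', hy', rfl⟩ := h6 c' hc'
        exact u1 _ _ (hR _ _ (h4 y hy y' hy'))
    refine ⟨h5.trans h3, g, fun ⟨c, hc⟩ => ?_⟩
    obtain ⟨y, hy, rfl⟩ := h6 c hc
    exact ⟨y, h4 y hy y hy, u3 _ _ (hx σ g _ hc) _ (u1 _ _ (by simpa using r00.le))⟩
  have fc : ∀ σ σ', G σ → bdy σ σ' ≠ 0 → G σ' ∧ σ'.card + 1 = σ.card ∧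
      (σ'.Nonempty → dist (x σ') (x σ) ≤ min ρ2 (min (ρ1 / 3) δf)) := fun σ σ' g h => by
    obtain ⟨h1, h2⟩ := Sq.ChB_face h
    have g' : G σ' := ⟨x σ, fun c hc => hx σ g c (h1 hc)⟩
    exact ⟨g', h2, fun ⟨c, hc⟩ => u3 c _ (hx _ g' c hc) _ (hx _ g c (h1 hc))⟩
  have mφ : ∀ η, 0 < η → ∃ s, 0 < s ∧ ∀ g ∈ S, ∀ y y', dist y y' ≤ s →
      dist (φ g y) (φ g y') ≤ η := fun η hη =>
    ex_all S _ (fun g s s' h k y y' l => k y y' (l.trans h)) fun g hg => ucont (hD.φ_cont g hg) hη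
  obtain ⟨sK, sK0, hsK⟩ := mφ r0 r00
  obtain ⟨s1', s10, hK⟩ := hK sK sK0
  obtain ⟨s2, s20, s21, s22, s23⟩ : ∃ s2, 0 < s2 ∧ s2 ≤ s1' ∧ s2 ≤ ρ1 / 3 ∧ s2 ≤ r0 :=
    ⟨min s1' (min (ρ1 / 3) r0), lt_min s10 (lt_min (by positivity) r00), min_le_left _ _,
      (min_le_right _ _).trans (min_le_left _ _), (min_le_right _ _).trans (min_le_right _ _)⟩
  obtain ⟨s3, s30, hs3⟩ := mφ s2 s20
  obtain ⟨s4, s40, hs4⟩ := ex_all (S ×ˢ S) (fun q s => ∀ p p' : Z × unitInterval, dist p p' ≤ s →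
    dist (Hm q.1 q.2 p.1 p.2) (Hm q.1 q.2 p'.1 p'.2) ≤ r0)
    (fun g s s' h k y y' l => k y y' (l.trans h)) fun q hq =>
      ucont (hD.H_cont _ (Finset.mem_product.1 hq).1 _ (Finset.mem_product.1 hq).2) r00
  obtain ⟨s5, s50, hs5⟩ := ex_all S (fun g s => ∀ p p' : Z × unitInterval, dist p p' ≤ s →
    dist (sg z0 (φ g p.1) p.2) (sg z0 (φ g p'.1) p'.2) ≤ r0)
    (fun g s s' h k y y' l => k y y' (l.trans h)) fun g hg =>
      ucont (sc.comp (f := fun p : Z × unitInterval => (z0, φ g p.1, p.2))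
        (continuous_const.prodMk (((hD.φ_cont g hg).comp continuous_fst).prodMk continuous_snd))) r00
  obtain ⟨s, s00, t1, t3, t4, t5⟩ : ∃ s, 0 < s ∧ s ≤ s1' ∧ s ≤ s3 ∧ s ≤ s4 ∧ s ≤ s5 :=
    ⟨min (min s1' s3) (min s4 s5), lt_min (lt_min s10 s30) (lt_min s40 s50),
      (min_le_left _ _).trans (min_le_left _ _), (min_le_left _ _).trans (min_le_right _ _),
      (min_le_right _ _).trans (min_le_left _ _), (min_le_right _ _).trans (min_le_right _ _)⟩
  obtain ⟨_, -, hI⟩ := hI s s00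
  have bb : ∀ σ : Finset (Fin m), lx bdy (bdy σ) = 0 := fun σ =>
    Sq.bdy_bdy fun a _ b _ => le_total a b
  obtain ⟨i, hi⟩ := hI _ Finset.card bdy G x 1 0 (single [] 1) 0
    (fun R => single_mem_V rfl (by simp)) bd_nil fun σ g =>
      ⟨u2 σ _ (hx σ g), bb σ, by simp, fun _ => rfl, fun _ _ => zero_mem _, fun σ' h => by
        obtain ⟨h1, h2, h3⟩ := fc σ σ' g h
        refine ⟨h1, h2, σ'.eq_empty_or_nonempty.imp (fun e => by simp [e]) fun e => ?_⟩
        exact (h3 e).trans (min_le_left _ _)⟩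
  have i0 : i (single ∅ 1) = single [] 1 := (hi ∅ G0).2.1 rfl
  have i1 : ∀ σ, G σ → i (single σ 1) ∈ V (Rz (x σ) (min (ρ1 / 3) δf) s) σ.card :=
    fun σ g => (hi σ g).1
  have i2 : ∀ z : Finset (Fin m) →₀ ℤ, (∀ σ, z σ ≠ 0 → G σ) → bd (i z) = i (lx bdy z) :=
    fun z hz => lin_eq (T := bd ∘ₗ i) (T' := i ∘ₗ lx bdy) fun σ k => by
      simpa using (hi σ (hz σ k)).2.2
  let GK : List Z → Prop := fun l => l.length ≤ N + 1 ∧ ∀ y ∈ l, ∀ y' ∈ l, dist y y' ≤ s2
  have hd : ∀ l : List Z, l.length ≠ 0 → l.headD z0 ∈ l := fun l h => by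
    cases l with
    | nil => simp at h
    | cons y l => simp
  obtain ⟨K, hK⟩ := hK _ List.length bl GK (fun l => l.headD z0) (-1) 1 0 (i ∘ₗ r - LinearMap.id)
    (fun R => zero_mem _) (map_zero _) fun l g => by
      have e := rm (Rz (l.headD z0) s2 s2) _ _ (single_mem_V rfl fun y hy y' hy' =>
        ⟨g.2 y hy _ (hd l (List.length_pos_of_mem hy).ne'), g.2 y hy y' hy'⟩)
        fun y y' h => h.2.trans s23
      refine ⟨g.1, bd_bl l, ?_, fun h => ?_, fun k h => sub_mem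
        (lin_mem (T := i) (z := r (single l 1)) fun σ k' => ?_) ?_,
        fun l' h => ?_⟩
      · simp only [LinearMap.sub_apply, LinearMap.comp_apply, LinearMap.id_apply, map_sub]
        rw [i2 _ fun σ k => (e σ k).2.1, r1, bd_single]
        simp
      · obtain rfl : l = [] := List.length_eq_zero_iff.1 h
        simp [r2, i0]
      · obtain ⟨e1, e2, e3⟩ := e σ k'
        obtain ⟨y, y1, y2⟩ := e3 (Finset.card_pos.1 (by omega))
        rw [← h, ← e1]
        refine V_mono (fun w w' m => ⟨?_, m.2.trans t1⟩) _ (i1 σ e2)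
        linarith [m.1.trans (min_le_left _ _), y1.1, dist_triangle4 w (x σ) y (l.headD z0),
          y2.trans ((min_le_right _ _).trans (min_le_left _ _))]
      · exact single_mem_V h fun y hy y' hy' =>
          ⟨(g.2 y hy _ (hd l (by omega))).trans (by linarith), (g.2 y hy y' hy').trans s21⟩
      · obtain ⟨h1, h2⟩ := bl_ne h
        refine ⟨⟨by have := g.1; omega, fun y hy y' hy' => g.2 y (h2 y hy) y' (h2 y' hy')⟩, h1,
          (eq_or_ne l'.length 0).imp_right fun k => ?_⟩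
        exact (g.2 _ (h2 _ (hd l' k)) _ (hd l (by omega))).trans (by linarith)
  have K0 : K (single [] 1) = 0 := (hK [] ⟨by simp, by simp⟩).2.1 rfl
  let T : Finset (Fin m) → ℝ → Q → ℝ → Z → Z → Prop := fun σ η g s y y' =>
    Cl η g (f (x σ)) (f y) ∧ dist y y' ≤ s
  have i3 : ∀ σ, G σ → i (single σ 1) ∈ V (T σ ε 1 s) σ.card := fun σ g =>
    V_mono (fun y y' m => ⟨hf _ _ ((dist_comm _ _).trans_le (m.1.trans (min_le_right _ _))),
      m.2⟩) _ (i1 σ g)
  have i4 : ∀ h ∈ S, ∀ σ, G σ → mp (φ h) (i (single σ 1)) ∈ V (T σ (ε + ε) (h * 1) s2) σ.card :=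
    fun h hh σ g => mp_mem (i3 σ g) fun y y' m =>
      ⟨cl_trans m.1 (hD.φ_cl h hh y), hs3 h hh _ _ (m.2.trans t3)⟩
  have gk : ∀ σ η g, ∀ z ∈ V (T σ η g s2) σ.card, G σ → ∀ l, z l ≠ 0 → GK l :=
    fun σ η g z hz k l hl => ⟨(mem_V.1 hz l hl).1.trans_le (u2 σ _ (hx σ k)),
      fun y hy y' hy' => ((mem_V.1 hz l hl).2 y hy y' hy').2⟩
  have rT : ∀ σ η g k, k ≠ 0 → ∀ z ∈ V (T σ η g r0) k, ∀ σ', r z σ' ≠ 0 →
      (σ'.Nonempty ∧ G σ') ∧ σ'.card = k ∧ Cl (η + ε) g (f (x σ)) (f (x σ')) :=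
    fun σ η g k hk z hz σ' h => by
      obtain ⟨h1, h2, h3⟩ := rm _ _ _ hz (fun _ _ m => m.2) σ' h
      have n : σ'.Nonempty := Finset.card_pos.1 (by omega)
      obtain ⟨y, y1, y2⟩ := h3 n
      exact ⟨⟨n, h2⟩, h1, one_mul g ▸ cl_trans y1.1 (hf _ _ ((dist_comm _ _).trans_le
        (y2.trans ((min_le_right _ _).trans (min_le_right _ _)))))⟩
  choose P p1 p2 p3 using fun g h => exists_prism (Hm g h) s00
  choose Pn n1 n2 n3 using fun g => exists_prism (fun y t => sg z0 (φ g y) t) s00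
  have ib : ∀ σ, G σ → bd (i (single σ 1)) = i (lx bdy (single σ 1)) := fun σ g =>
    i2 _ fun τ k => by rwa [by_contra fun e : ¬τ = σ => k (single_eq_of_ne e)]
  refine ⟨m, {σ | σ.Nonempty ∧ G σ}, x, ⟨⟨Finset.card, lx bdy, fun g => r ∘ₗ mp (φ g) ∘ₗ i,
    fun g h => r ∘ₗ (mp (φ g) ∘ₗ K ∘ₗ mp (φ h) - P g h) ∘ₗ i,
    fun g => r ∘ₗ (Pn g + cn z0 ∘ₗ mp fun _ => z0) ∘ₗ i, r (single [z0] 1), by simp, rfl,
    fun σ g => ⟨Finset.card_pos.2 g.1, u2 σ _ (hx σ g.2)⟩, by rw [Sq.ChB_single, Sq.bdy_empty],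
    fun g _ => by simp [i0, r2], fun g _ h _ => by simp [i0, K0, p2],
    fun g _ => by simp [i0, n2], by simp [r1, bd_single, bl, r2], fun σ k => ?_,
    fun σ g σ' k => ?_, fun g hg σ c σ' k => ?_, fun g hg h hh σ c σ' k => ?_,
    fun g hg σ c σ' k => ?_, fun σ _ => by rw [Sq.ChB_single, bb], fun g hg σ c => ?_,
    fun g hg h hh σ c => ?_, fun g hg σ c => ?_⟩⟩⟩
  · obtain ⟨h1, h2, -⟩ := rm (fun y y' => dist y y' ≤ r0) 1 _ (single_mem_V rfl (by simp [r00.le]))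
      (fun _ _ m => m) σ k
    exact ⟨⟨Finset.card_pos.1 (by omega), h2⟩, h1⟩
  · rw [Sq.ChB_single] at k
    obtain ⟨h1, h2, h3⟩ := fc σ σ' g.2 k
    exact ⟨h2, σ'.eq_empty_or_nonempty.imp_right fun n => ⟨⟨n, h1⟩, cl_mono (hf _ _
      ((dist_comm _ _).trans_le ((h3 n).trans ((min_le_right _ _).trans (min_le_right _ _)))))
      (by linarith)⟩⟩
  · obtain ⟨h1, h2, h3⟩ := rT σ (ε + ε) g _ (Finset.card_pos.2 c.1).ne' _
      (V_mono (fun y y' m => ⟨mul_one g ▸ m.1, m.2.trans s23⟩) _ (i4 g hg σ c.2)) σ' k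
    exact ⟨h1, h2, cl_mono h3 (by linarith)⟩
  · obtain ⟨h1, h2, h3⟩ := rT σ (ε + ε + ε + ε) (g * h) _ σ.card.succ_ne_zero _
      (sub_mem (mp_mem (R := T σ (ε + ε + ε) h sK) (lin_mem (T := K)
        (z := mp (φ h) (i (single σ 1))) fun l hl => by
        obtain ⟨l1, l2⟩ := mem_V.1 (i4 h hh σ c.2) l hl
        have l3 := hd l (l1 ▸ (Finset.card_pos.2 c.1).ne')
        rw [← l1]
        refine V_mono (fun y y' m => ⟨?_, m.2⟩) _ (hK l (gk _ _ _ _ (i4 h hh σ c.2) c.2 l hl)).1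
        simpa using cl_trans (l2 _ l3 _ l3).1 (hf _ _ ((dist_comm _ _).trans_le m.1)))
        fun y y' m => ⟨cl_trans m.1 (hD.φ_cl g hg y), hsK g hg _ _ m.2⟩)
        (p3 g h _ _ _ _ (i3 σ c.2) fun y y' t t' m m' =>
          ⟨cl_mono (by simpa using cl_trans m.1 (hD.H_cl g hg h hh y t)) (by linarith),
            hs4 (g, h) (Finset.mem_product.2 ⟨hg, hh⟩) (y, t) (y', t')
              (max_le (m.2.trans t4) (m'.trans t4))⟩)) σ' k
    exact ⟨h1, h2, cl_mono h3 (by linarith)⟩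
  · obtain ⟨h1, h2, -⟩ := rm (fun y y' => dist y y' ≤ r0) (σ.card + 1) _
      (add_mem (n3 g _ _ _ _ (i3 σ c.2) fun y y' t t' m m' =>
        hs5 g hg (y, t) (y', t') (max_le (m.2.trans t5) (m'.trans t5)))
        (V_mono (by
          rintro _ _ ⟨rfl, rfl⟩
          simpa using r00.le) _ (cn_mem (Y := {z0}) rfl (mp_mem (i3 σ c.2) fun _ _ _ =>
            ⟨rfl, rfl⟩)))) (fun _ _ m => m) σ' k
    exact ⟨⟨Finset.card_pos.1 (by omega), h2⟩, h1⟩
  · simp only [LinearMap.comp_apply, r1, bd_mp, ib σ c.2]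
  · have e1 : bd (K (mp (φ h) (i (single σ 1)))) + K (bd (mp (φ h) (i (single σ 1)))) =
        i (r (mp (φ h) (i (single σ 1)))) - mp (φ h) (i (single σ 1)) :=
      lin_eq (T := bd ∘ₗ K + K ∘ₗ bd) (T' := i ∘ₗ r - LinearMap.id) fun l hl => by
        have := (hK l (gk _ _ _ _ (i4 h hh σ c.2) c.2 l hl)).2.2
        simp only [LinearMap.add_apply, LinearMap.comp_apply, this, bd_single]
        simp
    have e2 := p1 g h (i (single σ 1))
    simp only [hD.H_zero g hg h hh, hD.H_one g hg h hh, ← mp_mp] at e2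
    simp only [LinearMap.comp_apply, LinearMap.sub_apply, r1, ← ib σ c.2, ← map_add r, ← map_sub r]
    rw [map_sub bd, bd_mp, eq_sub_of_add_eq e1, eq_sub_of_add_eq e2, bd_mp, map_sub (mp (φ g)),
      map_sub (mp (φ g))]
    congr 1
    abel
  · have e2 := n1 g (i (single σ 1))
    simp only [s0, s1] at e2
    simp only [LinearMap.comp_apply, LinearMap.add_apply, r1, ← ib σ c.2, ← map_add r]
    rw [map_add bd, eq_sub_of_add_eq e2, bd_cn, bd_mp]
    congr 1
    abel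

end Pool.Agent.Work.MP_9d1ffa_al.WL.Zt

namespace Pool.Agent.Work.MP_9d1ffa_al.WL

theorem ZT.cdat {Q : Type} [Group Q] {Good : Subgroup Q → Prop} (h : ZT Q Good) : CDat Q Good := by
  classical
  obtain ⟨N, h⟩ := h
  refine ⟨N, fun S ε hε => ?_⟩
  obtain ⟨Z, _, φ, Hm, Ω, _, f, h1, h2, h3⟩ := h S (ε / 5) (by positivity)
  obtain ⟨m, D, x, ⟨A⟩⟩ := Zt.exists_ad h1 (by positivity) h2
  rw [mul_div_cancel₀ _ (by norm_num)] at A
  exact ⟨Ω, inferInstance, D, inferInstance, inferInstance, _, A.cd, fun b => h3 _⟩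

end Pool.Agent.Work.MP_9d1ffa_al.WL
end

-- merged part: Pool.Agent.Work.MP_9d1ffa_al.WL.Da
section
/-! Transfer data for groups that act on a lattice by permutations of the coordinates and by
translations.  The atoms are affine functions with integer coefficients. -/

namespace Pool.Agent.Work.MP_9d1ffa_al.WL

open Metric Finset

theorem Da_bumps {N : ℕ} {Z J : Type} [MetricSpace Z] (hG : Grid N Z) (U : J → Set Z)
    (ho : ∀ j, IsOpen (U j)) (hU : ∀ x, ∃ j, x ∈ U j) {ε : ℝ} (hε : 0 < ε) :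
    ∃ (A : Type) (_ : Fintype A) (j : A → J) (t : A → Z → ℝ) (δ : ℝ), 0 < δ ∧
      (∀ a x, 0 ≤ t a x ∧ t a x ≤ 1) ∧ (∀ x, ∃ a, t a x = 1) ∧
      (∀ a x, t a x ≠ 0 → x ∈ U (j a)) ∧
      (∀ x, ∃ s : Finset A, s.card ≤ N + 1 ∧ ∀ a, t a x ≠ 0 → a ∈ s) ∧
      ∀ a x y, dist x y ≤ δ → |t a x - t a y| ≤ ε := by
  classical
  have := hG.cpt
  obtain ⟨x0⟩ := hG.ne
  obtain ⟨δ1, h1, hL⟩ := lebesgue_number_lemma_of_metric isCompact_univ ho
    fun x _ => Set.mem_iUnion.2 (hU x)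
  obtain ⟨A, V, v1, v2, v3, v4⟩ := hG.cov (δ1 / 2) (half_pos h1)
  obtain ⟨s, hs⟩ := isCompact_univ.elim_finite_subcover V v1 fun x _ => Set.mem_iUnion.2 (v2 x)
  have k : ∀ a, ∃ j, V a ⊆ U j := fun a => by
    rcases (V a).eq_empty_or_nonempty with e | ⟨x, hx⟩
    · exact ⟨(hU x0).choose, e ▸ Set.empty_subset _⟩
    · obtain ⟨j, hj⟩ := hL x trivial
      exact ⟨j, fun y hy => hj ((v4 a y hy x hx).trans_lt (half_lt_self h1))⟩
  choose j hj using k
  obtain ⟨f, hf⟩ := BumpCovering.exists_isSubordinate isClosed_univ (fun a : s => V a)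
    (fun a => v1 a) fun x _ => by
      obtain ⟨a, ha, hx⟩ := Set.mem_iUnion₂.1 (hs (Set.mem_univ x))
      exact Set.mem_iUnion.2 ⟨⟨a, ha⟩, hx⟩
  have c : UniformContinuous fun x (a : s) => f a x :=
    CompactSpace.uniformContinuous_of_continuous (continuous_pi fun a => (f a).continuous)
  obtain ⟨δ, hδ, hc⟩ := uniformContinuous_iff_le.1 c ε hε
  have m : ∀ (a : s) x, f a x ≠ 0 → x ∈ V a := fun a x h => hf a (subset_tsupport _ h)
  refine ⟨s, inferInstance, fun a => j a, fun a x => f a x, δ, hδ,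
    fun a x => ⟨f.nonneg a x, f.le_one a x⟩, fun x => ⟨_, f.ind_apply x trivial⟩,
    fun a x h => hj a (m a x h), fun x => ⟨univ.filter fun a : s => x ∈ V a, ?_,
      fun a h => mem_filter.2 ⟨mem_univ _, m a x h⟩⟩,
    fun a x y h => (dist_le_pi_dist _ _ a).trans (hc h)⟩
  have e := (Set.encard_le_encard_of_injOn (f := fun a : s => a.1)
    (s := ((univ.filter fun a : s => x ∈ V a : Finset s) : Set s)) (t := {a | x ∈ V a})
    (fun a h => (mem_filter.1 (mem_coe.1 h)).2) Subtype.val_injective.injOn).trans (v3 x)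
  rw [Set.encard_coe_eq_coe_finsetCard] at e
  exact_mod_cast e

theorem Da_mono {N N' : ℕ} {Z : Type} [MetricSpace Z] (hG : Grid N Z) (h : N ≤ N') : Grid N' Z :=
  ⟨hG.cpt, hG.ne, hG.seg, fun δ hδ =>
    let ⟨A, U, h1, h2, h3, h4⟩ := hG.cov δ hδ
    ⟨A, U, h1, h2, fun x => (h3 x).trans (Nat.cast_le.2 (Nat.succ_le_succ h)), h4⟩⟩

/-- the tent -/
noncomputable def tn (x : ℝ) : ℝ := max 0 (1 - |x|)

theorem tn_mem (x : ℝ) : 0 ≤ tn x ∧ tn x ≤ 1 :=
  ⟨le_max_left _ _, max_le zero_le_one (sub_le_self _ (abs_nonneg x))⟩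

theorem tn_lip (x y : ℝ) : |tn x - tn y| ≤ |x - y| := by
  refine (abs_max_sub_max_le_max _ _ _ _).trans (max_le (by simp) ?_)
  rw [sub_sub_sub_cancel_left, abs_sub_comm x]
  exact abs_abs_sub_abs_le y x

theorem tn_ne {x : ℝ} (h : tn x ≠ 0) : |x| < 1 :=
  lt_of_not_ge fun k => h (max_eq_left (sub_nonpos.2 k))

theorem tn_round (x : ℝ) : 1 / 2 ≤ tn (x - round x) :=
  le_max_of_le_right (by linarith [abs_sub_round x])

/-- a cocycle with values in a permutation lattice -/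
structure Coc (Γ F I : Type) [Group Γ] [Group F] [MulAction F I] where
  π : Γ →* F
  e : Γ → I → ℤ
  mul : ∀ g h i, e (g * h) i = e g i + e h ((π g)⁻¹ • i)

variable {Γ F I : Type} [Group Γ] [Group F] [MulAction F I]

theorem Coc.one (C : Coc Γ F I) (i : I) : C.e 1 i = 0 := by
  have := C.mul 1 1 i
  rw [mul_one, map_one, inv_one, one_smul] at this
  omega

theorem Coc.inv (C : Coc Γ F I) (g : Γ) (i : I) : C.e g⁻¹ ((C.π g)⁻¹ • i) = -C.e g i := by
  have := C.mul g g⁻¹ i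
  rw [mul_inv_cancel, C.one] at this
  omega

/-- the action on the atoms -/
@[reducible] def Coc.act [Fintype I] (C : Coc Γ F I) {A : Type} (w : A → I → ℤ) :
    MulAction Γ (F × A × ℤ) where
  smul g ω := (C.π g * ω.1, ω.2.1, ω.2.2 + ∑ i, w ω.2.1 i * C.e g ((C.π g * ω.1) • i))
  one_smul ω := by
    change (C.π 1 * ω.1, ω.2.1, ω.2.2 + ∑ i, w ω.2.1 i * C.e 1 ((C.π 1 * ω.1) • i)) = ω
    simp [C.one]
  mul_smul g h ω := by
    change (C.π (g * h) * ω.1, ω.2.1, ω.2.2 + ∑ i, w ω.2.1 i * C.e (g * h) ((C.π (g * h) * ω.1) • i))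
      = (C.π g * (C.π h * ω.1), ω.2.1, ω.2.2 + ∑ i, w ω.2.1 i * C.e h ((C.π h * ω.1) • i) +
        ∑ i, w ω.2.1 i * C.e g ((C.π g * (C.π h * ω.1)) • i))
    simp only [C.mul, map_mul, mul_assoc, mul_add, sum_add_distrib, mul_smul, inv_smul_smul,
      add_comm, add_left_comm]

/-- the unit ball -/
abbrev Bl (I : Type) [Fintype I] : Type := closedBall (0 : I → ℝ) 1

theorem Bl.le [Fintype I] (y : Bl I) (i : I) : |y.1 i| ≤ 1 :=
  (norm_le_pi_norm y.1 i).trans (mem_closedBall_zero_iff.1 y.2)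

theorem Bl.mk' [Fintype I] {y : I → ℝ} (h : ∀ i, |y i| ≤ 1) : y ∈ closedBall (0 : I → ℝ) 1 :=
  mem_closedBall_zero_iff.2 ((pi_norm_le_iff_of_nonneg zero_le_one).2 h)

/-- the shift of the coordinates -/
def sh [Fintype I] (q : F) (y : Bl I) : Bl I := ⟨fun i => y.1 (q • i), Bl.mk' fun _ => y.le _⟩

/-- The main estimate. -/
theorem Da_est [Fintype I] (C : Coc Γ F I) {A : Type} (w : A → I → ℤ) (t : A → Bl I → ℝ)
    {δ ε η τ κ M β : ℝ} (hτ : 0 < τ) (t0 : ∀ a x, 0 ≤ t a x ∧ t a x ≤ 1)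
    (t1 : ∀ a x, t a x ≠ 0 → |∑ i, (w a i : ℝ) * x.1 i| ≤ η)
    (t2 : ∀ a x y, dist x y ≤ δ → |t a x - t a y| ≤ ε / 2) (hM : ∀ a, ∑ i, |(w a i : ℝ)| ≤ M)
    (h1 : 3 * κ * τ + κ ^ 2 * τ ^ 2 ≤ δ) (h2 : 2 * κ * η + M * (κ ^ 2 * τ) ≤ ε / 2) (hκ : 0 ≤ κ)
    {g : Γ} (hg : ∀ i, |(C.e g i : ℝ)| ≤ κ) (hβ : |β| ≤ 2 * κ * τ) {y y' : Bl I}
    (h : ∀ i, |y'.1 i - ((1 - β) * y.1 ((C.π g)⁻¹ • i) + τ * C.e g i)| ≤ κ ^ 2 * τ ^ 2) :
    letI := C.act w
    Cl ε g (fun ω : F × A × ℤ => t ω.2.1 (sh ω.1 y) *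
        tn ((∑ i, (w ω.2.1 i : ℝ) * (sh ω.1 y).1 i) / τ - ω.2.2))
      fun ω : F × A × ℤ => t ω.2.1 (sh ω.1 y') *
        tn ((∑ i, (w ω.2.1 i : ℝ) * (sh ω.1 y').1 i) / τ - ω.2.2) := by
  rintro ⟨q, a, k⟩
  change |t a (sh (C.π g * q) y') * tn ((∑ i, (w a i : ℝ) * y'.1 ((C.π g * q) • i)) / τ -
    ((k + ∑ i, w a i * C.e g ((C.π g * q) • i) : ℤ) : ℝ)) -
    t a (sh q y) * tn ((∑ i, (w a i : ℝ) * y.1 (q • i)) / τ - k)| ≤ ε
  have h' : ∀ i, |y'.1 ((C.π g * q) • i) -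
      ((1 - β) * y.1 (q • i) + τ * C.e g ((C.π g * q) • i))| ≤ κ ^ 2 * τ ^ 2 := fun i => by
    have := h ((C.π g * q) • i)
    rwa [mul_smul, inv_smul_smul, ← mul_smul] at this
  have d : |t a (sh (C.π g * q) y') - t a (sh q y)| ≤ ε / 2 := by
    refine t2 a _ _ ((dist_pi_le_iff (by positivity : (0 : ℝ) ≤ 3 * κ * τ + κ ^ 2 * τ ^ 2)).2
      (fun i => ?_) |>.trans h1)
    change |y'.1 ((C.π g * q) • i) - y.1 (q • i)| ≤ _
    have b1 : |β * y.1 (q • i)| ≤ 2 * κ * τ := by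
      rw [abs_mul]
      exact (mul_le_of_le_one_right (abs_nonneg _) (y.le _)).trans hβ
    have b2 : |τ * C.e g ((C.π g * q) • i)| ≤ τ * κ := by
      rw [abs_mul, abs_of_pos hτ]
      exact mul_le_mul_of_nonneg_left (hg _) hτ.le
    have b3 := h' i
    rw [abs_le] at b1 b2 b3 ⊢
    constructor <;> linarith [b1.1, b1.2, b2.1, b2.2, b3.1, b3.2]
  set u := t a (sh (C.π g * q) y')
  set X := (∑ i, (w a i : ℝ) * y'.1 ((C.π g * q) • i)) / τ -
    ((k + ∑ i, w a i * C.e g ((C.π g * q) • i) : ℤ) : ℝ) with hX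
  have b0 : |(u - t a (sh q y)) * tn X| ≤ ε / 2 := by
    rw [abs_mul, abs_of_nonneg (tn_mem X).1]
    exact (mul_le_of_le_one_right (abs_nonneg _) (tn_mem X).2).trans d
  by_cases z : t a (sh q y) = 0
  · rw [z, sub_zero] at b0
    rw [z, zero_mul, sub_zero]
    linarith [abs_nonneg (u * tn X)]
  have s1 : |∑ i, (w a i : ℝ) * y.1 (q • i)| ≤ η := t1 a _ z
  set P := ∑ i, (w a i : ℝ) * y.1 (q • i) with hP
  have e : X - (P / τ - k) = (∑ i, (w a i : ℝ) * (y'.1 ((C.π g * q) • i) -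
      ((1 - β) * y.1 (q • i) + τ * C.e g ((C.π g * q) • i))) - β * P) / τ := by
    have : ∑ i, (w a i : ℝ) * (y'.1 ((C.π g * q) • i) -
        ((1 - β) * y.1 (q • i) + τ * C.e g ((C.π g * q) • i))) =
        ∑ i, (w a i : ℝ) * y'.1 ((C.π g * q) • i) - (1 - β) * P -
          τ * ∑ i, (w a i : ℝ) * C.e g ((C.π g * q) • i) := by
      rw [hP, mul_sum, mul_sum, ← sum_sub_distrib, ← sum_sub_distrib]
      exact sum_congr rfl fun i _ => by ring
    rw [this, hX]
    push_cast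
    field_simp
    ring
  have s2 : |∑ i, (w a i : ℝ) * (y'.1 ((C.π g * q) • i) -
      ((1 - β) * y.1 (q • i) + τ * C.e g ((C.π g * q) • i)))| ≤ M * (κ ^ 2 * τ ^ 2) := by
    refine (abs_sum_le_sum_abs _ _).trans (le_trans ?_
      (mul_le_mul_of_nonneg_right (hM a) (by positivity)))
    rw [sum_mul]
    exact sum_le_sum fun i _ => by
      rw [abs_mul]
      exact mul_le_mul_of_nonneg_left (h' i) (abs_nonneg _)
  have s3 : |β * P| ≤ 2 * κ * τ * η := by
    rw [abs_mul]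
    exact mul_le_mul hβ s1 (abs_nonneg _) (by positivity)
  have b1 : |t a (sh q y) * (tn X - tn (P / τ - k))| ≤ ε / 2 := by
    rw [abs_mul, abs_of_nonneg (t0 _ _).1]
    refine (mul_le_of_le_one_left (abs_nonneg _) (t0 _ _).2).trans ((tn_lip _ _).trans ?_)
    rw [e, abs_div, abs_of_pos hτ, div_le_iff₀ hτ]
    refine (abs_sub _ _).trans ((add_le_add s2 s3).trans ?_)
    have := mul_le_mul_of_nonneg_right h2 hτ.le
    linarith
  have e2 : u * tn X - t a (sh q y) * tn (P / τ - k) =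
      (u - t a (sh q y)) * tn X + t a (sh q y) * (tn X - tn (P / τ - k)) := by ring
  rw [e2]
  linarith [abs_add_le ((u - t a (sh q y)) * tn X) (t a (sh q y) * (tn X - tn (P / τ - k)))]

/-- the homothety of the translate -/
def Coc.ph [Fintype I] (C : Coc Γ F I) {κ τ : ℝ} (hκ : 0 ≤ κ) (hτ : 0 < τ) (h : κ * τ ≤ 1) (g : Γ)
    (y : Bl I) : Bl I :=
  ⟨fun i => (1 - κ * τ) * y.1 ((C.π g)⁻¹ • i) + τ * max (-κ) (min κ (C.e g i)), Bl.mk' fun i => by
    have b1 : |(1 - κ * τ) * y.1 ((C.π g)⁻¹ • i)| ≤ 1 - κ * τ := by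
      rw [abs_mul, abs_of_nonneg (sub_nonneg.2 h)]
      exact mul_le_of_le_one_right (sub_nonneg.2 h) (y.le _)
    have b2 : |τ * max (-κ) (min κ (C.e g i))| ≤ τ * κ := by
      rw [abs_mul, abs_of_pos hτ]
      exact mul_le_mul_of_nonneg_left (abs_le.2 ⟨le_max_left _ _,
        max_le (by linarith) (min_le_left _ _)⟩) hτ.le
    linarith [abs_add_le ((1 - κ * τ) * y.1 ((C.π g)⁻¹ • i)) (τ * max (-κ) (min κ (C.e g i)))]⟩

theorem Coc.ph_apply [Fintype I] (C : Coc Γ F I) {κ τ : ℝ} (hκ : 0 ≤ κ) (hτ : 0 < τ)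
    (h : κ * τ ≤ 1) {g : Γ} (hg : ∀ i, |(C.e g i : ℝ)| ≤ κ) (y : Bl I) (i : I) :
    (C.ph hκ hτ h g y).1 i = (1 - κ * τ) * y.1 ((C.π g)⁻¹ • i) + τ * C.e g i := by
  change _ + τ * max (-κ) (min κ (C.e g i)) = _
  rw [min_eq_right (abs_le.1 (hg i)).2, max_eq_right (abs_le.1 (hg i)).1]

theorem Coc.ph_cont [Fintype I] (C : Coc Γ F I) {κ τ : ℝ} (hκ : 0 ≤ κ) (hτ : 0 < τ)
    (h : κ * τ ≤ 1) (g : Γ) : Continuous (C.ph hκ hτ h g) :=
  Continuous.subtype_mk (continuous_pi fun _ => (continuous_const.mul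
    ((continuous_apply _).comp continuous_subtype_val)).add continuous_const) _

/-- the segment -/
def Bl.sg [Fintype I] (x y : Bl I) (s : unitInterval) : Bl I :=
  ⟨(1 - s.1) • x.1 + s.1 • y.1,
    convex_closedBall _ _ x.2 y.2 (sub_nonneg.2 s.2.2) s.2.1 (sub_add_cancel _ _)⟩

theorem zt_of_coc [Fintype F] [Fintype I] (C : Coc Γ F I) {Good : Subgroup Γ → Prop} {N : ℕ}
    (hG : Grid N (Bl I))
    (h : ∀ η : ℝ, 0 < η → ∀ z : I → ℝ, ∃ (w : I → ℤ) (U : Set (I → ℝ)), IsOpen U ∧ z ∈ U ∧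
      (∀ y ∈ U, |∑ i, (w i : ℝ) * y i| ≤ η) ∧ ∀ (H : Subgroup Γ) (q : F) (y : I → ℝ),
        (∀ g ∈ H, (fun i => y ((C.π g * q) • i)) ∈ U) →
        (∀ g ∈ H, C.π g = 1 → ∑ i, w i * C.e g (q • i) = 0) → Good H) : ZT Γ Good := by
  classical
  refine ⟨Fintype.card F * ((N + 1) * 2), fun S ε hε => ?_⟩
  obtain ⟨κ, hκ1, hκ⟩ : ∃ κ : ℝ, 1 ≤ κ ∧ ∀ g ∈ S ∪ image₂ (· * ·) S S, ∀ i, |(C.e g i : ℝ)| ≤ κ := by
    obtain ⟨b, hb⟩ := ((S ∪ image₂ (· * ·) S S) ×ˢ (univ : Finset I)).finite_toSet.image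
      (fun p => |(C.e p.1 p.2 : ℝ)|) |>.bddAbove
    exact ⟨max 1 b, le_max_left _ _, fun g hg i => le_max_of_le_right
      (hb ⟨(g, i), mem_coe.2 (mem_product.2 ⟨hg, mem_univ _⟩), rfl⟩)⟩
  have κ0 : 0 < κ := by linarith
  have k1 : ∀ g ∈ S, ∀ i, |(C.e g i : ℝ)| ≤ κ := fun g hg => hκ g (mem_union_left _ hg)
  have k2 : ∀ g ∈ S, ∀ g' ∈ S, ∀ i, |(C.e (g * g') i : ℝ)| ≤ κ := fun g hg g' hg' =>
    hκ _ (mem_union_right _ (mem_image₂_of_mem hg hg'))
  choose w U u1 u2 u3 u4 using h (ε / (8 * κ)) (by positivity)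
  obtain ⟨A, _, j, t, δ, hδ, t0, t1, t2, t3, t4⟩ := Da_bumps hG (fun z => Subtype.val ⁻¹' U z)
    (fun z => (u1 z).preimage continuous_subtype_val) (fun x => ⟨x.1, u2 _⟩) (half_pos hε)
  obtain ⟨M, hM⟩ := (Set.finite_range fun a => ∑ i, |(w (j a) i : ℝ)|).bddAbove
  obtain ⟨τ, ⟨⟨a1, a2⟩, a3⟩, hτ⟩ : ∃ τ : ℝ, ((3 * κ * τ + κ ^ 2 * τ ^ 2 < δ ∧
      M * (κ ^ 2 * τ) < ε / 4) ∧ κ * τ < 1) ∧ 0 < τ := by
    refine ((((ContinuousAt.eventually_lt ?_ ?_ ?_).and (ContinuousAt.eventually_lt ?_ ?_ ?_)).and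
      (ContinuousAt.eventually_lt ?_ ?_ ?_)).filter_mono nhdsWithin_le_nhds |>.and
        (self_mem_nhdsWithin (a := (0 : ℝ)) (s := Set.Ioi 0))).exists
    all_goals first | fun_prop | simp [hδ, hε]
  have a4 : 2 * κ * (ε / (8 * κ)) + M * (κ ^ 2 * τ) ≤ ε / 2 := by
    have : 2 * κ * (ε / (8 * κ)) = ε / 4 := by
      field_simp
      ring
    linarith
  have est := fun {g : Γ} {β : ℝ} {y y' : Bl I} (hg : ∀ i, |(C.e g i : ℝ)| ≤ κ)
    (hβ : |β| ≤ 2 * κ * τ) => Da_est C (fun a => w (j a)) t hτ t0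
      (fun a x k => u3 _ _ (t2 a x k)) t4 (fun a => hM ⟨a, rfl⟩) a1.le a4 κ0.le hg hβ
      (y := y) (y' := y')
  have p0 : 0 < κ * τ := by positivity
  let _ := C.act fun a => w (j a)
  refine ⟨Bl I, inferInstance, C.ph κ0.le hτ a3.le, fun g g' y s =>
    Bl.sg (C.ph κ0.le hτ a3.le g (C.ph κ0.le hτ a3.le g' y)) (C.ph κ0.le hτ a3.le (g * g') y) s,
    F × A × ℤ, inferInstance, fun y ω => t ω.2.1 (sh ω.1 y) *
      tn ((∑ i, (w (j ω.2.1) i : ℝ) * (sh ω.1 y).1 i) / τ - ω.2.2), Da_mono hG ?_,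
    ⟨fun g _ => C.ph_cont _ _ _ g, fun g _ g' _ => ?_, fun g _ g' _ x => Subtype.ext (by simp [Bl.sg]),
      fun g _ g' _ x => Subtype.ext (by simp [Bl.sg]), ⟨κ ^ 2 * τ ^ 2, by positivity, fun x y k => ?_⟩,
      fun g hg x => ?_, fun g hg g' hg' x s => ?_⟩, fun y => ⟨fun ω => ?_, ?_, ?_, ?_⟩⟩
  · have := Fintype.card_pos (α := F)
    nlinarith
  · have c := continuous_subtype_val.comp (continuous_snd (X := Bl I) (Y := unitInterval))
    exact Continuous.subtype_mk (((continuous_const.sub c).smul (continuous_subtype_val.comp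
      ((C.ph_cont _ _ _ g).comp ((C.ph_cont _ _ _ g').comp continuous_fst)))).add
      (c.smul (continuous_subtype_val.comp ((C.ph_cont _ _ _ (g * g')).comp continuous_fst)))) _
  · refine est (β := 0) (fun i => by simp [C.one, κ0.le]) (by simpa using by positivity) fun i => ?_
    have := (dist_le_pi_dist y.1 x.1 i).trans ((dist_comm y x).le.trans k)
    simpa [C.one, Real.dist_eq] using this
  · refine est (β := κ * τ) (k1 g hg) (by rw [abs_of_pos p0]; linarith) fun i => ?_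
    rw [C.ph_apply _ _ _ (k1 g hg), sub_self, abs_zero]
    positivity
  · have s0 := s.2.1
    have s1 := s.2.2
    refine est (β := κ * τ + (1 - s.1) * (κ * τ * (1 - κ * τ))) (k2 g hg g' hg') ?_ fun i => ?_
    · have b1 : 0 ≤ (1 - s.1) * (κ * τ * (1 - κ * τ)) :=
        mul_nonneg (by linarith) (mul_nonneg p0.le (by linarith))
      have b2 : (1 - s.1) * (κ * τ * (1 - κ * τ)) ≤ κ * τ :=
        (mul_le_of_le_one_left (mul_nonneg p0.le (by linarith)) (by linarith)).trans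
          (mul_le_of_le_one_right p0.le (by linarith))
      rw [abs_of_nonneg (by linarith)]
      linarith
    · change |(1 - s.1) * (C.ph κ0.le hτ a3.le g (C.ph κ0.le hτ a3.le g' x)).1 i +
        s.1 * (C.ph κ0.le hτ a3.le (g * g') x).1 i - _| ≤ _
      rw [C.ph_apply _ _ _ (k1 g hg), C.ph_apply _ _ _ (k1 g' hg'),
        C.ph_apply _ _ _ (k2 g hg g' hg'), C.mul, map_mul, mul_inv_rev, mul_smul]
      have b := k1 g' hg' ((C.π g)⁻¹ • i)
      push_cast
      generalize (C.e g' ((C.π g)⁻¹ • i) : ℝ) = u at b ⊢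
      have e : ∀ X Y : ℝ, (1 - s.1) * ((1 - κ * τ) * ((1 - κ * τ) * X + τ * u) + τ * Y) +
          s.1 * ((1 - κ * τ) * X + τ * (Y + u)) -
          ((1 - (κ * τ + (1 - s.1) * (κ * τ * (1 - κ * τ)))) * X + τ * (Y + u)) =
          -((1 - s.1) * (κ * τ ^ 2 * u)) := fun X Y => by ring
      rw [e, abs_neg, abs_mul, abs_mul, abs_of_nonneg (by linarith : 0 ≤ 1 - s.1),
        abs_of_pos (by positivity : 0 < κ * τ ^ 2)]
      refine (mul_le_of_le_one_left (by positivity) (by linarith)).trans ?_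
      have := mul_le_mul_of_nonneg_left b (by positivity : 0 ≤ κ * τ ^ 2)
      linarith
  · exact ⟨mul_nonneg (t0 _ _).1 (tn_mem _).1,
      mul_le_one₀ (t0 _ _).2 (tn_mem _).1 (tn_mem _).2⟩
  · obtain ⟨a, ha⟩ := t1 (sh (1 : F) y)
    refine ⟨(1, a, round ((∑ i, (w (j a) i : ℝ) * (sh (1 : F) y).1 i) / τ)), ?_⟩
    have b : (1 : ℝ) ≤ (Fintype.card F * ((N + 1) * 2) : ℕ) := by
      exact_mod_cast Nat.succ_le_of_lt (by positivity)
    have b' := tn_round ((∑ i, (w (j a) i : ℝ) * (sh (1 : F) y).1 i) / τ)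
    simp only [ha, one_mul]
    nlinarith
  · choose s hs using t3
    let X : F → A → ℤ := fun q a => ⌊(∑ i, (w (j a) i : ℝ) * (sh q y).1 i) / τ⌋
    refine (Set.encard_le_encard (t := ↑(univ.biUnion fun q : F => (s (sh q y)).biUnion
      fun a => ({(q, a, X q a), (q, a, X q a + 1)} : Finset (F × A × ℤ)))) ?_).trans ?_
    · rintro ⟨q, a, k⟩ hω
      have b := abs_lt.1 (tn_ne (right_ne_zero_of_mul hω))
      have b1 : X q a < k + 1 := Int.floor_lt.2 (by push_cast; linarith [b.2])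
      have b2 : k - 1 ≤ X q a := Int.le_floor.2 (by push_cast; linarith [b.1])
      refine mem_coe.2 (mem_biUnion.2 ⟨q, mem_univ _, mem_biUnion.2
        ⟨a, (hs _).2 a (left_ne_zero_of_mul hω), ?_⟩⟩)
      simp only [mem_insert, mem_singleton, Prod.mk.injEq, true_and]
      omega
    · rw [Set.encard_coe_eq_coe_finsetCard, Nat.cast_le]
      exact (card_biUnion_le_card_mul _ _ _ fun q _ => (card_biUnion_le_card_mul _ _ 2
        fun a _ => card_le_two).trans (Nat.mul_le_mul_right 2 (hs _).1)).trans (Nat.le_succ _)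
  · rintro σ H ⟨⟨q, a, k⟩, hω⟩ hσ hH
    have key : ∀ g ∈ H, t a (sh (C.π g * q) y) *
        tn ((∑ i, (w (j a) i : ℝ) * (sh (C.π g * q) y).1 i) / τ -
          ((k + ∑ i, w (j a) i * C.e g ((C.π g * q) • i) : ℤ) : ℝ)) ≠ 0 :=
      fun g hg => hσ (hH g hg _ hω)
    refine u4 (j a) H q y.1 (fun g hg => t2 a (sh (C.π g * q) y) (left_ne_zero_of_mul (key g hg)))
      fun g hg e => ?_
    have b1 := tn_ne (right_ne_zero_of_mul (key g hg))
    have b2 := tn_ne (right_ne_zero_of_mul (key g⁻¹ (H.inv_mem hg)))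
    have e' : ∀ i, C.e g⁻¹ i = -C.e g i := fun i => by simpa [e] using C.inv g i
    simp only [map_inv, e, inv_one, one_mul, e', mul_neg, sum_neg_distrib] at b1 b2
    generalize ∑ i, w (j a) i * C.e g (q • i) = m at b1 b2 ⊢
    push_cast at b1 b2
    rw [abs_lt] at b1 b2
    have c1 : (m : ℝ) < 1 := by linarith [b1.1, b2.2]
    have c2 : (-1 : ℝ) < m := by linarith [b1.2, b2.1]
    have d1 : m < 1 := by exact_mod_cast c1
    have d2 : -1 < m := by exact_mod_cast c2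
    omega

end Pool.Agent.Work.MP_9d1ffa_al.WL
end

-- merged part: Pool.Agent.Work.MP_9d1ffa_al.WL.Db
section
/-! Virtually free abelian groups: induction on the rank. -/

namespace Pool.Agent.Work.MP_9d1ffa_al.WL

open Finset

/-- a normal subgroup of finite index embeds in `ℤ ^ r` -/
def VZ (r : ℕ) (G : Type) [Group G] : Prop :=
  ∃ (A : Subgroup G) (θ : A →* Multiplicative (Fin r → ℤ)),
    A.Normal ∧ A.FiniteIndex ∧ Function.Injective θ

/-- finite by cyclic -/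
def FC (G : Type) [Group G] : Prop := ∃ χ : G →* Multiplicative ℤ, Finite χ.ker

theorem FC.of_inj {G H : Type} [Group G] [Group H] (h : FC G) (f : H →* G)
    (hf : Function.Injective f) : FC H :=
  let ⟨χ, _⟩ := h
  ⟨χ.comp f, Finite.of_injective (fun x : (χ.comp f).ker => (⟨f x, x.2⟩ : χ.ker))
    fun _ _ e => Subtype.ext (hf (congrArg Subtype.val e))⟩

theorem fc_of_ker {G F : Type} [Group G] [Group F] [Finite F] (π : G →* F)
    (χ : G →* Multiplicative ℤ) (h : ∀ g, π g = 1 → χ g = 1 → g = 1) : FC G :=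
  ⟨χ, Finite.of_injective (π.comp χ.ker.subtype) ((injective_iff_map_eq_one _).2
    fun g e => Subtype.ext (h g e g.2))⟩

variable {Γ F I : Type} [Group Γ] [Group F]

/-- on the kernel the cocycle is a homomorphism -/
def Coc.hom [MulAction F I] (C : Coc Γ F I) (H : Subgroup Γ) {J : Type} (k : J → I) :
    (C.π.comp H.subtype).ker →* Multiplicative (J → ℤ) :=
  MonoidHom.mk' (fun g => Multiplicative.ofAdd fun j => C.e g.1.1 (k j)) fun g g' => by
    have e : C.π g.1.1 = 1 := g.2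
    ext j
    simp [C.mul, e]

theorem exists_coc {r : ℕ} (A : Subgroup Γ) [A.Normal] (θ : A →* Multiplicative (Fin r → ℤ))
    (hθ : Function.Injective θ) : ∃ C : Coc Γ (Γ ⧸ A) (Σ _ : Fin r, Γ ⧸ A),
      Function.Surjective C.π ∧ ∀ q g, C.π g = 1 → (∀ j, C.e g ⟨j, q⟩ = 0) → g = 1 := by
  have m : ∀ (g : Γ) (q : Γ ⧸ A), q.out⁻¹ * g * ((g : Γ ⧸ A)⁻¹ * q).out ∈ A := fun g q =>
    (QuotientGroup.eq_one_iff _).1 (by simp)
  refine ⟨⟨QuotientGroup.mk' A, fun g i => (θ ⟨_, m g i.2⟩).toAdd i.1, fun g h i => ?_⟩,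
    QuotientGroup.mk'_surjective A, fun q g e k => ?_⟩
  · change _ = _ + (θ ⟨_, m h ((g : Γ ⧸ A)⁻¹ * i.2)⟩).toAdd i.1
    rw [← Pi.add_apply, ← toAdd_mul, ← map_mul]
    simp [mul_assoc]
  · have e' : (g : Γ ⧸ A) = 1 := e
    have := congrArg Subtype.val ((injective_iff_map_eq_one θ).1 hθ ⟨_, m g q⟩ (funext k))
    simpa [e', mul_assoc, inv_mul_eq_one] using this

theorem Db_dir {m : ℕ} (x : Fin (m + 2) → ℝ) {η : ℝ} (hη : 0 < η) :
    ∃ (ξ : Fin (m + 2) → ℤ) (j : Fin (m + 2)), ξ j ≠ 0 ∧ |∑ j, (ξ j : ℝ) * x j| < η := by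
  by_cases h : x 1 = 0
  · exact ⟨Pi.single 1 1, 1, by simp, by simpa [Pi.single_apply, h]⟩
  have h' := abs_pos.2 h
  obtain ⟨n, hn⟩ := exists_nat_one_div_lt (div_pos hη h')
  obtain ⟨a, b, b0, -, hb⟩ := Real.exists_int_int_abs_mul_sub_le (x 0 / x 1) n.succ_pos
  refine ⟨Fin.cons b (Fin.cons (-a) 0), 0, b0.ne', ?_⟩
  have e : (b : ℝ) * x 0 + -(a * x 1) = (b * (x 0 / x 1) - a) * x 1 := by
    field_simp
    ring
  have k : (1 : ℝ) / (n.succ + 1) ≤ 1 / (n + 1) :=
    one_div_le_one_div_of_le (by positivity) (by simp)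
  simp only [Fin.sum_univ_succ, Fin.cons_zero, Fin.cons_succ, Pi.zero_apply, Int.cast_zero, zero_mul,
    sum_const_zero, add_zero, Fin.succ_zero_eq_one, Int.cast_neg, neg_mul]
  rw [e, abs_mul, ← lt_div_iff₀ h']
  exact (hb.trans k).trans_lt hn

theorem zt_big [Fintype F] {m N : ℕ} (C : Coc Γ F (Σ _ : Fin (m + 2), F))
    (hC : ∀ q g, C.π g = 1 → (∀ j, C.e g ⟨j, q⟩ = 0) → g = 1)
    (hG : Grid N (Bl (Σ _ : Fin (m + 2), F))) : ZT Γ fun H => VZ (m + 1) H := by
  classical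
  refine zt_of_coc C hG fun η hη z => ?_
  obtain ⟨ξ, j, hj, hξ⟩ := Db_dir (fun j => z ⟨j, 1⟩) hη
  refine ⟨fun i => if i.2 = 1 then ξ i.1 else 0,
    {y | |∑ i, ((if i.2 = 1 then ξ i.1 else 0 : ℤ) : ℝ) * y i| < η}, isOpen_lt (by fun_prop)
      continuous_const, by simpa [Fintype.sum_sigma] using hξ, fun y hy => le_of_lt hy,
    fun H q _ _ k => ⟨_, C.hom H fun i => ⟨j.succAbove i, q⟩, inferInstance, inferInstance,
      (injective_iff_map_eq_one _).2 fun g e => Subtype.ext (Subtype.ext (hC q g g.2 ?_))⟩⟩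
  have e1 : ∀ i, C.e g.1.1 ⟨j.succAbove i, q⟩ = 0 := congrFun e
  have e2 : ∑ i, ξ i * C.e g.1.1 ⟨i, q⟩ = 0 := by
    simpa [Fintype.sum_sigma, Sigma.smul_mk] using k g g.1.2 g.2
  rw [Fin.sum_univ_succAbove _ j] at e2
  simp only [e1, mul_zero, sum_const_zero, add_zero, mul_eq_zero, hj, false_or] at e2
  exact (Fin.forall_iff_succAbove j).2 ⟨e2, e1⟩

theorem Db_sum [MulAction F I] [Fintype I] {R : Type} [AddCommMonoid R] (q : F) (f : I → R) :
    ∑ i, f (q • i) = ∑ i, f i := Equiv.sum_comp (MulAction.toPerm q) f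

theorem zt_one [Fintype F] [MulAction F I] [Fintype I] {N : ℕ} (C : Coc Γ F I)
    (hs : Function.Surjective C.π) (i0 : I) (hC : ∀ g, C.π g = 1 → C.e g i0 = 0 → g = 1)
    (hG : Grid N (Bl I)) : ZT Γ fun H => FC H := by
  have cy : IsCyclic (C.π.comp (⊤ : Subgroup Γ).subtype).ker :=
    isCyclic_of_injective ((Pi.evalMonoidHom (fun _ => Multiplicative ℤ) ()).comp
      ((MulEquiv.funMultiplicative Unit ℤ).toMonoidHom.comp (C.hom ⊤ fun _ : Unit => i0)))
      ((injective_iff_map_eq_one _).2 fun g e => Subtype.ext (Subtype.ext (hC g g.2 e)))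
  obtain ⟨a, ha⟩ := cy.exists_generator
  have a1 : C.π a.1.1 = 1 := a.2
  have pw : ∀ g, C.π g = 1 → ∃ n : ℤ, g = a.1.1 ^ n ∧ ∀ i, C.e g i = n * C.e a.1.1 i := fun g hg => by
    obtain ⟨n, hn⟩ := ha ⟨⟨g, trivial⟩, hg⟩
    refine ⟨n, (congrArg (fun x => x.1.1) hn).symm, fun i => ?_⟩
    have := congrFun (congrArg Multiplicative.toAdd (map_zpow (C.hom ⊤ id) a n)) i
    rw [show a ^ n = _ from hn, toAdd_zpow] at this
    exact this
  generalize a.1.1 = b at a1 pw
  by_cases h0 : ∑ i, C.e b i * C.e b i = 0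
  · have b1 : b = 1 := hC b a1 (mul_self_eq_zero.1
      ((sum_eq_zero_iff_of_nonneg fun i _ => mul_self_nonneg _).1 h0 i0 (mem_univ _)))
    refine zt_of_coc C hG fun η hη z => ⟨0, Set.univ, isOpen_univ, trivial,
      fun _ _ => by simpa using hη.le, fun H _ _ _ _ => fc_of_ker (C.π.comp H.subtype) 1
        fun g e _ => Subtype.ext ?_⟩
    obtain ⟨n, hn, -⟩ := pw g e
    rw [hn, b1, one_zpow, H.coe_one]
  have sg : ∀ q : F, ∃ u : ℤ, u * u = 1 ∧ ∀ i, C.e b (q⁻¹ • i) = u * C.e b i := fun q => by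
    obtain ⟨g, rfl⟩ := hs q
    obtain ⟨n, -, hn⟩ := pw (g * (b * g⁻¹)) (by simp [a1])
    have e : ∀ i, C.e b ((C.π g)⁻¹ • i) = n * C.e b i := fun i => by
      rw [← hn, C.mul, C.mul, a1, inv_one, one_smul, C.inv]
      ring
    refine ⟨n, mul_right_cancel₀ h0 ?_, e⟩
    rw [one_mul, mul_sum]
    refine Eq.trans (sum_congr rfl fun i _ => ?_) (Db_sum (C.π g)⁻¹ fun i => C.e b i * C.e b i)
    rw [e]
    ring
  choose u u1 u2 using sg
  have inj : ∀ q g, C.π g = 1 → ∑ i, C.e b (q⁻¹ • i) * C.e g i = 0 → g = 1 := fun q g hg e => by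
    obtain ⟨n, hn, hn'⟩ := pw g hg
    have : u q * n * ∑ i, C.e b i * C.e b i = 0 := by
      rw [← e, mul_sum]
      exact sum_congr rfl fun i _ => by rw [u2, hn']; ring
    have n0 : n = 0 := ((mul_eq_zero.1 ((mul_eq_zero.1 this).resolve_right h0)).resolve_left
      (left_ne_zero_of_mul_eq_one (u1 q)))
    rw [hn, n0, zpow_zero]
  refine zt_of_coc C hG fun η hη z => ?_
  by_cases hz : ∑ i, (C.e b i : ℝ) * z i = 0
  · refine ⟨C.e b, {y | |∑ i, (C.e b i : ℝ) * y i| < η}, isOpen_lt (by fun_prop) continuous_const,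
      by simpa [hz], fun y hy => le_of_lt hy, fun H q _ _ k => fc_of_ker (C.π.comp H.subtype) 1
        fun g e _ => Subtype.ext (inj q g e ?_)⟩
    rw [← k g g.2 e, ← Db_sum q]
    simp only [inv_smul_smul]
  refine ⟨0, {y | 0 < (∑ i, (C.e b i : ℝ) * z i) * ∑ i, (C.e b i : ℝ) * y i},
    isOpen_lt continuous_const (by fun_prop), mul_self_pos.2 hz, fun _ _ => by simpa using hη.le,
    fun H q y k _ => ?_⟩
  have k1 : ∀ g ∈ H, 0 < (∑ i, (C.e b i : ℝ) * z i) * (∑ i, (C.e b i : ℝ) * y i) * u (C.π g * q) :=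
    fun g hg => by
      have e : ∑ i, (C.e b i : ℝ) * y ((C.π g * q) • i) =
          (∑ i, (C.e b i : ℝ) * y i) * u (C.π g * q) := by
        rw [← Db_sum (C.π g * q)⁻¹, sum_mul]
        exact sum_congr rfl fun i _ => by
          rw [u2, smul_inv_smul]
          push_cast
          ring
      rw [mul_assoc, ← e]
      exact k g hg
  have k2 : ∀ g ∈ H, ∀ i, C.e b (q⁻¹ • (C.π g)⁻¹ • i) = C.e b (q⁻¹ • i) := fun g hg i => by
    have c1 := k1 g hg
    have c2 := k1 1 H.one_mem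
    rw [map_one, one_mul] at c2
    rw [← mul_smul, ← mul_inv_rev, u2, u2]
    rcases mul_self_eq_one_iff.1 (u1 q) with e | e <;>
      rcases mul_self_eq_one_iff.1 (u1 (C.π g * q)) with e' | e' <;> rw [e] at c2 ⊢ <;>
      rw [e'] at c1 ⊢ <;> push_cast at c1 c2 <;> linarith
  refine fc_of_ker (C.π.comp H.subtype) (MonoidHom.mk'
    (fun g => Multiplicative.ofAdd (∑ i, C.e b (q⁻¹ • i) * C.e g.1 i)) fun g g' => ?_)
    fun g e e' => Subtype.ext (inj q g e e')
  rw [← ofAdd_add, ← Db_sum (C.π g.1)⁻¹ fun i => C.e b (q⁻¹ • i) * C.e g'.1 i, ← sum_add_distrib]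
  exact congrArg _ (sum_congr rfl fun i _ => by rw [k2 g g.2, H.coe_mul, C.mul, mul_add])

variable {W : (G : Type) → [Group G] → Prop}

theorem rl_of_cdat (hA : ThmA W) (hi : ∀ (G H : Type) [Group G] [Group H], (G ≃* H) → W G → W H)
    {Good : Subgroup Γ → Prop} (hC : CDat Γ Good) (h : ∀ H, Good H → Rl W FC H) : Rl W FC Γ :=
  fun K _ φ hK => hA Γ Good hC K φ fun L hL => h _ hL L (φ.subgroupMap L) fun L' hL' =>
    hi _ _ (L'.equivMapOfInjective L.subtype L.subtype_injective).symm (hK _ (by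
      rw [Subgroup.map_map, show φ.comp L.subtype = (L.map φ).subtype.comp (φ.subgroupMap L) from
        rfl, ← Subgroup.map_map]
      have e := (L'.map (φ.subgroupMap L)).equivMapOfInjective _ (L.map φ).subtype_injective
      exact hL'.of_inj e.symm.toMonoidHom e.symm.injective))

theorem rl_vz' (hZ : ∀ (Q : Type) [Group Q] (Good : Subgroup Q → Prop), ZT Q Good → CDat Q Good)
    (hG : ∀ (I : Type) [Fintype I], ∃ N, Grid N (Bl I)) (hA : ThmA W)
    (hi : ∀ (G H : Type) [Group G] [Group H], (G ≃* H) → W G → W H) (r : ℕ) :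
    ∀ (G : Type) [Group G], VZ r G → Rl W FC G := by
  have fc : ∀ (G : Type) [Group G], FC G → Rl W FC G := fun G _ h K _ φ hK =>
    hi _ _ Subgroup.topEquiv (hK ⊤ (h.of_inj _ (Subgroup.subtype_injective _)))
  induction r with
  | zero =>
    rintro G _ ⟨A, θ, _, _, hθ⟩
    obtain ⟨C, -, hC⟩ := exists_coc A θ hθ
    exact fc G (fc_of_ker C.π 1 fun g e _ => hC 1 g e fun j => j.elim0)
  | succ r ih =>
    rintro G _ ⟨A, θ, _, _, hθ⟩
    obtain ⟨C, hs, hC⟩ := exists_coc A θ hθ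
    have := Fintype.ofFinite (G ⧸ A)
    obtain ⟨N, hN⟩ := hG (Σ _ : Fin (r + 1), G ⧸ A)
    cases r with
    | zero =>
      exact rl_of_cdat hA hi (hZ _ _ (zt_one C hs ⟨0, 1⟩
        (fun g e k => hC 1 g e fun j => Fin.fin_one_eq_zero j ▸ k) hN)) fun H => fc H
    | succ m => exact rl_of_cdat hA hi (hZ _ _ (zt_big C hC hN)) fun H => ih H

theorem w_of_rl (hi : ∀ (G H : Type) [Group G] [Group H], (G ≃* H) → W G → W H)
    (h0 : ∀ (G : Type) [Group G], (∃ χ : G →* Multiplicative ℤ, Function.Injective χ) → W G)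
    (tf : ∀ g : Γ, IsOfFinOrder g → g = 1) (h : Rl W FC Γ) : W Γ :=
  h Γ (MonoidHom.id Γ) fun L ⟨χ, _⟩ => hi _ _ (MulEquiv.subgroupCongr L.map_id) (h0 _ ⟨χ,
    (injective_iff_map_eq_one χ).2 fun g e => Subtype.ext (tf g
      (((L.map (MonoidHom.id Γ)).subtype.comp χ.ker.subtype).isOfFinOrder
        (isOfFinOrder_of_finite (⟨g, e⟩ : χ.ker))))⟩)

theorem vz_of_comm [Group.FG Γ] (H : Subgroup Γ) [H.FiniteIndex]
    (hc : ∀ a ∈ H, ∀ b ∈ H, a * b = b * a) : ∃ r, VZ r Γ := by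
  let _ : CommGroup H := ⟨fun a b => Subtype.ext (hc a a.2 b b.2)⟩
  obtain ⟨ι, j, _, _, p, hp, e, ⟨f⟩⟩ := CommGroup.equiv_free_prod_prod_multiplicative_zmod H
  have : ∀ i, NeZero (p i ^ e i) := fun i => ⟨pow_ne_zero _ (hp i).ne_zero⟩
  let K := ((MonoidHom.snd _ _).comp f.toMonoidHom).ker
  have : (K.map H.subtype).FiniteIndex := ⟨by
    rw [Subgroup.index_map_subtype]
    exact mul_ne_zero Subgroup.FiniteIndex.index_ne_zero Subgroup.FiniteIndex.index_ne_zero⟩
  have l := (K.map H.subtype).normalCore_le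
  refine ⟨Fintype.card j, (K.map H.subtype).normalCore, MonoidHom.mk' (fun g =>
    Multiplicative.ofAdd fun i => ((f ⟨g, H.map_subtype_le K (l g.2)⟩).1
      ((Fintype.equivFin j).symm i)).toAdd) fun g g' => ?_, inferInstance, inferInstance,
    (injective_iff_map_eq_one _).2 fun g k => ?_⟩
  · ext i
    exact congrArg (fun x => (x.1 ((Fintype.equivFin j).symm i)).toAdd)
      (map_mul f ⟨g, H.map_subtype_le K (l g.2)⟩ ⟨g', H.map_subtype_le K (l g'.2)⟩)
  · obtain ⟨x, hx, e⟩ := l g.2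
    have e' : x = ⟨g, H.map_subtype_le K (l g.2)⟩ := Subtype.ext e
    have : f x = 1 := Prod.ext (funext fun i => by
      have : ((f ⟨g, H.map_subtype_le K (l g.2)⟩).1 ((Fintype.equivFin j).symm
        (Fintype.equivFin j i))).toAdd = 0 := congrFun k (Fintype.equivFin j i)
      rw [Equiv.symm_apply_apply, ← e'] at this
      exact this) hx
    rw [f.map_eq_one_iff.1 this] at e
    exact Subtype.ext e.symm

end Pool.Agent.Work.MP_9d1ffa_al.WL
end

-- merged part: Pool.Agent.Work.MP_9d1ffa_al.WL.ED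
section
/-! Virtually solvable linear groups: definitions. -/

namespace Pool.Agent.Work.MP_9d1ffa_al.WL

/-- all subgroups are finitely generated -/
def Mx (G : Type) [Group G] : Prop := ∀ H : Subgroup G, H.FG

/-- iterated extensions of virtually free abelian groups of finite rank -/
def PZ : ℕ → ∀ (G : Type) [Group G], Prop
  | 0, G, _ => Finite G
  | n + 1, G, _ => ∃ (Q : Type) (_ : Group Q) (φ : G →* Q) (r : ℕ), VZ r Q ∧
      ∀ (L : Type) [Group L] (f : L →* G), Function.Injective f → Finite (φ.comp f).range →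
        PZ n L

theorem PZ.inj {n : ℕ} {G H : Type} [Group G] [Group H] (h : PZ n G) (f : H →* G)
    (hf : Function.Injective f) : PZ n H := by
  cases n with
  | zero => exact @Finite.of_injective _ _ h f hf
  | succ n =>
    obtain ⟨Q, _, φ, r, h1, h2⟩ := h
    exact ⟨Q, inferInstance, φ.comp f, r, h1, fun L _ g hg k => h2 L (f.comp g) (hf.comp hg) k⟩

/-- an acyclic finite dimensional complex of permutation modules with finite stabilisers; `X 0` is
the empty cell -/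
structure GC (Q : Type) [Group Q] : Type 1 where
  X : ℕ → Type
  [act : ∀ q, MulAction Q (X q)]
  d : ∀ q, X (q + 1) → X q →₀ ℤ
  D : ℕ
  eqv : ∀ q (g : Q) x y, d q (g • x) (g • y) = d q x y
  dd : ∀ q x, Finsupp.linearCombination ℤ (d q) (d (q + 1) x) = 0
  ex : ∀ q z, Finsupp.linearCombination ℤ (d q) z = 0 →
    ∃ w, Finsupp.linearCombination ℤ (d (q + 1)) w = z
  ex0 : ∀ z, ∃ w, Finsupp.linearCombination ℤ (d 0) w = z
  o : X 0
  uniq : ∀ x, x = o
  emp : IsEmpty (X (D + 1))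
  fin : ∀ q (x : X (q + 1)), {g : Q | g • x = x}.Finite

attribute [instance] GC.act

end Pool.Agent.Work.MP_9d1ffa_al.WL
end

-- merged part: Pool.Agent.Work.MP_9d1ffa_al.WL.Eg
section
/-! Finitely generated virtually nilpotent groups. -/

namespace Pool.Agent.Work.MP_9d1ffa_al.WL

open scoped commutatorElement

variable {G H : Type} [Group G] [Group H]

theorem Mx.inj (h : Mx G) (f : H →* G) (hf : Function.Injective f) : Mx H := fun L =>
  (Subgroup.fg_iff_submonoid_fg _).2 (Submonoid.FG.map_injective f hf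
    ((Subgroup.fg_iff_submonoid_fg _).1 (h (L.map f))))

theorem Eg_lift (φ : G →* H) {L : Subgroup G} (h : (L.map φ).FG) :
    ∃ T : Set G, T.Finite ∧ T ⊆ L ∧ (Subgroup.closure T).map φ = L.map φ := by
  obtain ⟨S, e, hS⟩ := (Subgroup.fg_iff _).1 h
  obtain ⟨T, h1, h2, h3⟩ := hS.exists_subset_finite_image_eq (f := φ) (s := L)
    (Subgroup.subset_closure.trans e.le)
  exact ⟨T, h2, h1, by rw [MonoidHom.map_closure, h3, e]⟩

theorem Mx.ext (φ : G →* H) (h : Mx φ.ker) (h' : Mx H) : Mx G := fun L => by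
  obtain ⟨T, hT, k, e⟩ := Eg_lift φ (h' (L.map φ))
  have h1 : ((L.subgroupOf φ.ker).map φ.ker.subtype).FG := (Subgroup.fg_iff_submonoid_fg _).2
    (((Subgroup.fg_iff_submonoid_fg _).1 (h (L.subgroupOf φ.ker))).map _)
  rw [Subgroup.subgroupOf_map_subtype] at h1
  have k' := (Subgroup.closure_le L).2 k
  have : L = Subgroup.closure T ⊔ L ⊓ φ.ker := le_antisymm (fun x hx => by
    obtain ⟨y, hy, c⟩ := e.ge (Subgroup.mem_map_of_mem φ hx)
    rw [← mul_inv_cancel_left y x]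
    exact Subgroup.mul_mem_sup hy ⟨L.mul_mem (L.inv_mem (k' hy)) hx, by simp [c]⟩)
    (sup_le k' inf_le_left)
  rw [this]
  exact ((Subgroup.fg_iff _).2 ⟨T, rfl, hT⟩).sup h1

theorem Mx.fin (U : Subgroup G) [U.FiniteIndex] (h : Mx U) : Mx G := by
  refine Mx.ext (QuotientGroup.mk' U.normalCore) ?_ fun L =>
    (Group.fg_iff_subgroup_fg L).1 inferInstance
  rw [QuotientGroup.ker_mk']
  exact h.inj _ (Subgroup.inclusion_injective U.normalCore_le)

theorem Eg_quot {N : Subgroup G} [N.Normal] {a b : G} :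
    QuotientGroup.mk' N a * QuotientGroup.mk' N b = QuotientGroup.mk' N b * QuotientGroup.mk' N a ↔
      ⁅a, b⁆ ∈ N := by
  rw [← commutatorElement_eq_one_iff_mul_comm, ← map_commutatorElement]
  exact QuotientGroup.eq_one_iff _

theorem Eg_comm {Z : Subgroup G} (h : Z ≤ Subgroup.center G) (k : Z.FG) : Mx Z := fun L => by
  let _ : CommGroup Z := ⟨fun a b => Subtype.ext (Subgroup.mem_center_iff.1 (h b.2) a)⟩
  have := (Group.fg_iff_subgroup_fg Z).2 k
  have := Module.Finite.iff_addGroup_fg.2 (inferInstance : AddGroup.FG (Additive Z))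
  rw [Subgroup.fg_iff_add_fg, ← AddSubgroup.toIntSubmodule_toAddSubgroup L.toAddSubgroup,
    ← Submodule.fg_iff_addSubgroup_fg]
  exact IsNoetherian.noetherian _

theorem Eg_step [Group.FG G] (A : Subgroup G) [A.Normal] (h : ⁅A, ⊤⁆ ≤ Subgroup.center G)
    (k : (A.map (QuotientGroup.mk' ⁅A, ⊤⁆)).FG) : (⁅A, ⊤⁆ : Subgroup G).FG := by
  obtain ⟨T, hT, k, e⟩ := Eg_lift _ k
  obtain ⟨S, hS, fS⟩ := Group.fg_iff.1 ‹Group.FG G›
  let M := Subgroup.closure (Set.image2 (fun a b : G => ⁅a, b⁆) T S)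
  have l : M ≤ ⁅A, ⊤⁆ := (Subgroup.closure_le _).2 (by
    rintro _ ⟨a, ha, b, -, rfl⟩
    exact Subgroup.commutator_mem_commutator (k ha) (Subgroup.mem_top _))
  have : M.Normal := ⟨fun x hx g => by
    rwa [Subgroup.mem_center_iff.1 (h (l hx)) g, mul_inv_cancel_right]⟩
  let ψ := QuotientGroup.mk' M
  have c : ∀ t ∈ T, ∀ g, ψ t * ψ g = ψ g * ψ t := fun t ht g =>
    (((Subgroup.closure_le ((Subgroup.centralizer {ψ t}).comap ψ)).2 fun s hs =>
      Subgroup.mem_centralizer_singleton_iff.2 (Eg_quot.2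
        (Subgroup.subset_closure (Set.mem_image2_of_mem ht hs))).symm) (hS.ge (Subgroup.mem_top g))) _ rfl
  refine (Subgroup.fg_iff _).2 ⟨_, le_antisymm l (Subgroup.commutator_le.2 fun a ha g _ => ?_),
    hT.image2 _ fS⟩
  obtain ⟨y, hy, z⟩ := e.ge (Subgroup.mem_map_of_mem _ ha)
  have h1 : ψ g * ψ y = ψ y * ψ g := ((Subgroup.closure_le ((Subgroup.centralizer {ψ g}).comap ψ)).2
    (fun t ht => Subgroup.mem_centralizer_singleton_iff.2 (c t ht g)) hy) _ rfl
  have h2 := Subgroup.mem_center_iff.1 (h (QuotientGroup.eq.1 z)) g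
  refine Eg_quot.1 ?_
  rw [← mul_inv_cancel_left y a, map_mul, mul_assoc, ← map_mul, ← h2, map_mul, ← mul_assoc, ← h1,
    mul_assoc]

theorem Eg_nil (c : ℕ) : ∀ (G : Type) [Group G] [Group.FG G],
    (⊤ : Subgroup G).lowerCentralSeries c = ⊥ → Mx G := by
  induction c with
  | zero =>
    intro G _ _ h
    have : Subsingleton G := Subgroup.subsingleton_iff.1 (subsingleton_of_bot_eq_top h.symm)
    exact fun L => (Group.fg_iff_subgroup_fg L).1 inferInstance
  | succ c ih =>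
    intro G _ _ h
    have z : (⊤ : Subgroup G).lowerCentralSeries c ≤ Subgroup.center G :=
      Subgroup.commutator_top_right_eq_bot_iff_le_center.1 h
    have q := ih (G ⧸ (⊤ : Subgroup G).lowerCentralSeries c) (by
      rw [← Subgroup.map_top_of_surjective _ (QuotientGroup.mk'_surjective _),
        ← Subgroup.map_lowerCentralSeries, Subgroup.map_eq_bot_iff, QuotientGroup.ker_mk'])
    refine Mx.ext (QuotientGroup.mk' _) ?_ q
    rw [QuotientGroup.ker_mk']
    refine Eg_comm z ?_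
    cases c with
    | zero => exact Group.fg_def.1 ‹_›
    | succ c => exact Eg_step _ z (q _)

/-- Induction on the class `c`: the last term of the lower central series is central and generated
by the commutators of generators. -/
theorem mx_of_nil [Group.FG G] [Group.IsNilpotent G] : Mx G := by
  obtain ⟨c, hc⟩ := Subgroup.nilpotent_iff_lowerCentralSeries.1 ‹_›
  exact Eg_nil c G hc

/-- Divide by the commutator subgroup of `U` and use `vz_of_comm`. -/
theorem pz_of_mx (n : ℕ) : ∀ (G : Type) [Group G], Mx G → ∀ U : Subgroup G, U.Normal →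
    U.FiniteIndex → derivedSeries U n = ⊥ → PZ n G := by
  induction n with
  | zero =>
    intro G _ _ U _ _ h
    have : Subsingleton U := Subgroup.subsingleton_iff.1 (subsingleton_of_bot_eq_top h.symm)
    exact Finite.of_subgroup_quotient U
  | succ n ih =>
    intro G _ hG U _ _ h
    have : Group.FG G := ⟨hG ⊤⟩
    let φ := QuotientGroup.mk' ⁅U, U⁆
    have : (U.map φ).FiniteIndex := ⟨ne_zero_of_dvd_ne_zero Subgroup.FiniteIndex.index_ne_zero
      (U.index_map_dvd (QuotientGroup.mk'_surjective _))⟩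
    obtain ⟨r, hr⟩ := vz_of_comm (U.map φ) (by
      rintro _ ⟨a, ha, rfl⟩ _ ⟨b, hb, rfl⟩
      exact Eg_quot.2 (Subgroup.commutator_mem_commutator ha hb))
    refine ⟨_, inferInstance, φ, r, hr, fun L _ f hf k => ih L (hG.inj f hf) (φ.comp f).ker
      inferInstance inferInstance ?_⟩
    have m : ∀ x : (φ.comp f).ker, f x ∈ ⁅U, U⁆ := fun x => (QuotientGroup.eq_one_iff _).1 x.2
    let g : (φ.comp f).ker →* U := (f.comp (φ.comp f).ker.subtype).codRestrict U fun x =>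
      U.commutator_le_left U (m x)
    have q : ∀ j, (derivedSeries (φ.comp f).ker j).map g ≤ derivedSeries U (j + 1) := fun j => by
      induction j with
      | zero =>
        rintro _ ⟨x, -, rfl⟩
        obtain ⟨y, hy, e⟩ := U.map_subtype_commutator.ge (m x)
        exact (Subtype.ext e : y = g x) ▸ hy
      | succ j ih =>
        rw [derivedSeries_succ, Subgroup.map_commutator]
        exact Subgroup.commutator_mono ih ih
    have ig : Function.Injective g := fun x y e => Subtype.ext (hf (congrArg Subtype.val e))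
    exact (Subgroup.map_eq_bot_iff_of_injective _ ig).1 (le_bot_iff.1 (h ▸ q n))

theorem pz_of_vnil [Group.FG G] (U : Subgroup G) [U.FiniteIndex] [Group.IsNilpotent U] :
    ∃ n, PZ n G := by
  obtain ⟨n, hn⟩ := (Group.isSolvable_of_isSolvable_injective
    (Subgroup.inclusion_injective U.normalCore_le)).solvable
  exact ⟨n, pz_of_mx n G (Mx.fin U mx_of_nil) U.normalCore inferInstance inferInstance hn⟩

end Pool.Agent.Work.MP_9d1ffa_al.WL
end

-- merged part: Pool.Agent.Work.MP_9d1ffa_al.WL.Op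
section
/-! Equivariant operators on `ℤ[K × B]`: kernels, control, transport along embeddings. -/

namespace Pool.Agent.Work.MP_9d1ffa_al.WL.A1

open Finsupp

abbrev Md (K B : Type) : Type := (K × B) →₀ ℤ

abbrev En (K B : Type) : Type := Module.End ℤ (Md K B)

variable {K B B' B'' : Type}

/-- the kernel of an operator -/
noncomputable def kr (a : Md K B →ₗ[ℤ] Md K B') (t' : K × B') (t : K × B) : ℤ := a (single t 1) t'

theorem kr_ext {a b : Md K B →ₗ[ℤ] Md K B'} (h : ∀ t' t, kr a t' t = kr b t' t) : a = b :=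
  lhom_ext' fun t => LinearMap.ext_ring (Finsupp.ext fun t' => h t' t)

theorem kr_comp_ne {a : Md K B' →ₗ[ℤ] Md K B''} {b : Md K B →ₗ[ℤ] Md K B'} {t'' : K × B''}
    {t : K × B} (h : kr (a ∘ₗ b) t'' t ≠ 0) : ∃ t', kr a t'' t' ≠ 0 ∧ kr b t' t ≠ 0 := by
  by_contra hc
  push Not at hc
  apply h
  have e : b (single t 1) = (b (single t 1)).sum fun t' c => c • single t' (1 : ℤ) := by
    conv_lhs => rw [← sum_single (b (single t 1))]
    exact Finsupp.sum_congr fun x _ => by simp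
  unfold kr
  rw [LinearMap.comp_apply, e, map_finsuppSum, Finsupp.sum_apply]
  refine Finset.sum_eq_zero fun x hx => ?_
  have h1 : kr b x t ≠ 0 := mem_support_iff.1 hx
  have h2 : kr a t'' x = 0 := by
    by_contra h3
    exact h1 (hc x h3)
  show a (_ • single x 1) t'' = 0
  rw [map_smul, Finsupp.smul_apply]
  unfold kr at h2
  rw [h2, smul_zero]

theorem kr_mul_ne {a b : En K B} {t'' t : K × B} (h : kr (a * b) t'' t ≠ 0) :
    ∃ t', kr a t'' t' ≠ 0 ∧ kr b t' t ≠ 0 := kr_comp_ne h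

theorem kr_add (a b : En K B) (t' t : K × B) : kr (a + b) t' t = kr a t' t + kr b t' t := rfl

theorem kr_sub (a b : En K B) (t' t : K × B) : kr (a - b) t' t = kr a t' t - kr b t' t := rfl

theorem kr_neg (a : En K B) (t' t : K × B) : kr (-a) t' t = -kr a t' t := rfl

theorem kr_zero (t' t : K × B) : kr (0 : En K B) t' t = 0 := rfl

theorem kr_one_ne {t' t : K × B} (h : kr (1 : En K B) t' t ≠ 0) : t' = t := by
  by_contra hc
  exact h (single_eq_of_ne hc)

theorem kr_fin (a : Md K B →ₗ[ℤ] Md K B') (t : K × B) : {t' | kr a t' t ≠ 0}.Finite := by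
  exact (a (single t 1)).hasFiniteSupport

/-- row finite -/
def RF (a : En K B) : Prop := ∀ b', {b | ∃ g g', kr a (g', b') (g, b) ≠ 0}.Finite

/-- finitely many columns -/
def Fi (a : En K B) : Prop := {b | ∃ g t', kr a t' (g, b) ≠ 0}.Finite

/-- monomial column -/
def MC (a : En K B) (t : K × B) : Prop := ∃ (t' : K × B) (ε : ℤˣ), a (single t 1) = single t' (ε : ℤ)

/-- monomial -/
def IsM (a : En K B) : Prop := ∀ t, MC a t

/-- almost monomial -/
def AMo (a : En K B) : Prop := {b | ∃ g, ¬MC a (g, b)}.Finite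

theorem RF.mul {a b : En K B} (ha : RF a) (hb : RF b) : RF (a * b) := by
  intro b''
  refine ((ha b'').biUnion fun b' _ => hb b').subset ?_
  rintro x ⟨g, g', h⟩
  obtain ⟨t', h1, h2⟩ := kr_mul_ne h
  exact Set.mem_biUnion (x := t'.2) ⟨t'.1, g', h1⟩ ⟨g, t'.1, h2⟩
theorem RF.add {a b : En K B} (ha : RF a) (hb : RF b) : RF (a + b) := by
  intro b'
  refine ((ha b').union (hb b')).subset ?_
  rintro x ⟨g, g', h⟩
  rw [kr_add] at h
  by_cases h1 : kr a (g', b') (g, x) = 0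
  · exact Or.inr ⟨g, g', fun h2 => h (by rw [h1, h2, add_zero])⟩
  · exact Or.inl ⟨g, g', h1⟩
theorem RF.neg {a : En K B} (ha : RF a) : RF (-a) := by
  intro b'
  refine (ha b').subset ?_
  rintro x ⟨g, g', h⟩
  exact ⟨g, g', fun h2 => h (by rw [kr_neg, h2, neg_zero])⟩
theorem rf_one : RF (1 : En K B) := by
  intro b'
  refine (Set.finite_singleton b').subset ?_
  rintro x ⟨g, g', h⟩
  exact (congrArg Prod.snd (kr_one_ne h)).symm
theorem rf_zero : RF (0 : En K B) := by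
  intro b'
  refine Set.finite_empty.subset ?_
  rintro x ⟨g, g', h⟩
  exact h rfl
theorem Fi.rf {a : En K B} (ha : Fi a) : RF a := by
  intro b'
  refine Set.Finite.subset ha ?_
  rintro x ⟨g, g', h⟩
  exact ⟨g, _, h⟩
theorem Fi.add {a b : En K B} (ha : Fi a) (hb : Fi b) : Fi (a + b) := by
  refine (Set.Finite.union ha hb).subset ?_
  rintro x ⟨g, t', h⟩
  rw [kr_add] at h
  by_cases h1 : kr a t' (g, x) = 0
  · exact Or.inr ⟨g, t', fun h2 => h (by rw [h1, h2, add_zero])⟩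
  · exact Or.inl ⟨g, t', h1⟩
theorem Fi.neg {a : En K B} (ha : Fi a) : Fi (-a) := by
  refine Set.Finite.subset ha ?_
  rintro x ⟨g, t', h⟩
  exact ⟨g, t', fun h2 => h (by rw [kr_neg, h2, neg_zero])⟩
theorem fi_zero : Fi (0 : En K B) := by
  refine Set.finite_empty.subset ?_
  rintro x ⟨g, t', h⟩
  exact h rfl
theorem Fi.mul_left {b : En K B} (hb : Fi b) (a : En K B) : Fi (a * b) := by
  refine Set.Finite.subset hb ?_
  rintro x ⟨g, t'', h⟩
  obtain ⟨t', -, h2⟩ := kr_mul_ne h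
  exact ⟨g, t', h2⟩
theorem Fi.mul_right {a b : En K B} (ha : Fi a) (hb : RF b) : Fi (a * b) := by
  refine (Set.Finite.biUnion ha fun b' _ => hb b').subset ?_
  rintro x ⟨g, t'', h⟩
  obtain ⟨t', h1, h2⟩ := kr_mul_ne h
  exact Set.mem_biUnion (x := t'.2) ⟨t'.1, t'', h1⟩ ⟨g, t'.1, h2⟩
theorem fi_of_finite [Finite B] (a : En K B) : Fi a := Set.toFinite _
theorem Op_mc_mul {a b : En K B} {t t' : K × B} {ε : ℤˣ} (hb : b (single t 1) = single t' (ε : ℤ))
    (ha : MC a t') : MC (a * b) t := by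
  obtain ⟨t'', ε', h⟩ := ha
  refine ⟨t'', ε * ε', ?_⟩
  have e : (single t' (ε : ℤ) : Md K B) = (ε : ℤ) • single t' 1 := by simp
  rw [Module.End.mul_apply, hb, e, map_smul, h]
  simp

theorem IsM.mul {a b : En K B} (ha : IsM a) (hb : IsM b) : IsM (a * b) := by
  intro t
  obtain ⟨t', ε, h⟩ := hb t
  exact Op_mc_mul h (ha t')
theorem isM_one : IsM (1 : En K B) := by
  intro t
  exact ⟨t, 1, rfl⟩
theorem IsM.amo {a : En K B} (ha : IsM a) : AMo a := by
  refine Set.finite_empty.subset ?_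
  rintro x ⟨g, h⟩
  exact h (ha _)
theorem AMo.mul {a b : En K B} (ha : AMo a) (hb : AMo b) (h : RF b) : AMo (a * b) := by
  refine (Set.Finite.union hb (Set.Finite.biUnion ha fun b' _ => h b')).subset ?_
  rintro x ⟨g, hx⟩
  by_cases h1 : MC b (g, x)
  · obtain ⟨t', ε, e⟩ := h1
    refine Or.inr (Set.mem_biUnion (x := t'.2) ⟨t'.1, fun h2 => hx (Op_mc_mul e h2)⟩ ⟨g, t'.1, ?_⟩)
    unfold kr
    rw [e]
    simp
  · exact Or.inl ⟨g, h1⟩
theorem AMo.of_fi {a b : En K B} (ha : AMo a) (h : Fi (b - a)) : AMo b := by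
  refine (Set.Finite.union ha h).subset ?_
  rintro x ⟨g, hx⟩
  by_cases h1 : MC a (g, x)
  · refine Or.inr ?_
    by_contra hc
    apply hx
    obtain ⟨t', ε, e⟩ := h1
    refine ⟨t', ε, ?_⟩
    rw [← e]
    ext u
    have : kr (b - a) u (g, x) = 0 := by
      by_contra h3
      exact hc ⟨g, u, h3⟩
    rw [kr_sub] at this
    exact sub_eq_zero.1 this
  · exact Or.inl ⟨g, h1⟩

/-! ### projections and embeddings -/

open Classical in
/-- the projection onto the basis elements over `S` -/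
noncomputable def prj (K : Type) (S : Set B) : En K B :=
  linearCombination ℤ fun t => if t.2 ∈ S then single t 1 else 0

theorem prj_mem {S : Set B} {t : K × B} (h : t.2 ∈ S) : prj K S (single t 1) = single t 1 := by
  simp [prj, h]

theorem prj_nmem {S : Set B} {t : K × B} (h : t.2 ∉ S) : prj K S (single t 1) = 0 := by
  simp [prj, h]

open Classical in
theorem Op_prj_apply (S : Set B) (x : Md K B) (t : K × B) :
    prj K S x t = if t.2 ∈ S then x t else 0 := by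
  induction x using Finsupp.induction_linear with
  | zero => simp
  | add f g hf hg =>
    rw [map_add, Finsupp.add_apply, hf, hg, Finsupp.add_apply]
    split_ifs <;> simp
  | single u c =>
    have e : (single u c : Md K B) = c • single u 1 := by simp
    by_cases hu : u.2 ∈ S
    · rw [e, map_smul, prj_mem hu, ← e]
      split_ifs with h
      · rfl
      · exact single_eq_of_ne fun h1 => h (h1 ▸ hu)
    · rw [e, map_smul, prj_nmem hu, ← e, smul_zero]
      split_ifs with h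
      · exact (single_eq_of_ne fun h1 : t = u => hu (h1 ▸ h)).symm
      · rfl

open Classical in
theorem kr_prj_mul (S : Set B) (a : En K B) (t' t : K × B) :
    kr (prj K S * a) t' t = if t'.2 ∈ S then kr a t' t else 0 := by
  unfold kr
  rw [Module.End.mul_apply, Op_prj_apply]

open Classical in
theorem kr_mul_prj (S : Set B) (a : En K B) (t' t : K × B) :
    kr (a * prj K S) t' t = if t.2 ∈ S then kr a t' t else 0 := by
  unfold kr
  rw [Module.End.mul_apply]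
  split_ifs with h
  · rw [prj_mem h]
  · rw [prj_nmem h, map_zero]; rfl

theorem kr_prj_ne {S : Set B} {t' t : K × B} (h : kr (prj K S) t' t ≠ 0) : t' = t ∧ t.2 ∈ S := by
  have e := kr_mul_prj S (1 : En K B) t' t
  rw [one_mul] at e
  rw [e] at h
  by_cases h1 : t.2 ∈ S
  · rw [if_pos h1] at h
    exact ⟨kr_one_ne h, h1⟩
  · rw [if_neg h1] at h
    exact absurd rfl h

theorem prj_mul (S T : Set B) : prj K S * prj K T = prj K (S ∩ T) := by
  refine LinearMap.ext fun x => Finsupp.ext fun t => ?_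
  rw [Module.End.mul_apply, Op_prj_apply, Op_prj_apply, Op_prj_apply]
  by_cases h1 : t.2 ∈ S <;> by_cases h2 : t.2 ∈ T <;> simp [h1, h2]
theorem prj_compl (S : Set B) : prj K Sᶜ = 1 - prj K S := by
  refine LinearMap.ext fun x => Finsupp.ext fun t => ?_
  rw [LinearMap.sub_apply, Finsupp.sub_apply, Op_prj_apply, Op_prj_apply]
  by_cases h1 : t.2 ∈ S <;> simp [h1]
theorem prj_univ : prj K (Set.univ : Set B) = 1 := by
  refine LinearMap.ext fun x => Finsupp.ext fun t => ?_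
  rw [Op_prj_apply]
  simp
theorem prj_empty : prj K (∅ : Set B) = 0 := by
  refine LinearMap.ext fun x => Finsupp.ext fun t => ?_
  rw [Op_prj_apply]
  simp
theorem rf_prj (S : Set B) : RF (prj K S) := by
  intro b'
  refine (Set.finite_singleton b').subset ?_
  rintro x ⟨g, g', h⟩
  exact (congrArg Prod.snd (kr_prj_ne h).1).symm
theorem fi_prj {S : Set B} (h : S.Finite) : Fi (prj K S) := by
  refine h.subset ?_
  rintro x ⟨g, t', h1⟩
  exact (kr_prj_ne h1).2

/-- `a` is supported over `S` -/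
def Sp (S : Set B) (a : En K B) : Prop := ∀ t' t, kr a t' t ≠ 0 → t'.2 ∈ S ∧ t.2 ∈ S

theorem sp_iff {S : Set B} {a : En K B} : Sp S a ↔ prj K S * a = a ∧ a * prj K S = a := by
  constructor
  · intro h
    refine ⟨kr_ext fun t' t => ?_, kr_ext fun t' t => ?_⟩
    · rw [kr_prj_mul]
      split_ifs with h1
      · rfl
      · by_contra h2
        exact h1 (h t' t (Ne.symm h2)).1
    · rw [kr_mul_prj]
      split_ifs with h1
      · rfl
      · by_contra h2
        exact h1 (h t' t (Ne.symm h2)).2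
  · rintro ⟨h1, h2⟩ t' t h
    constructor
    · by_contra h3
      apply h
      rw [← h1, kr_prj_mul, if_neg h3]
    · by_contra h3
      apply h
      rw [← h2, kr_mul_prj, if_neg h3]

theorem Sp.mono {S T : Set B} {a : En K B} (h : Sp S a) (k : S ⊆ T) : Sp T a :=
  fun t' t e => ⟨k (h t' t e).1, k (h t' t e).2⟩

/-- `a b - 1 = (a - 1) (b - 1) + (a - 1) + (b - 1)` -/
theorem Sp.mul_sub {S : Set B} {a b : En K B} (ha : Sp S (a - 1)) (hb : Sp S (b - 1)) :
    Sp S (a * b - 1) := by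
  rw [sp_iff] at ha hb ⊢
  have e : a * b - 1 = (a - 1) * (b - 1) + (a - 1) + (b - 1) := by noncomm_ring
  rw [e]
  constructor
  · rw [mul_add, mul_add, ← mul_assoc, ha.1, hb.1]
  · rw [add_mul, add_mul, mul_assoc, ha.2, hb.2]

/-- `u⁻¹ - 1 = -(u⁻¹ (u - 1)) = -((u - 1) u⁻¹)` -/
theorem Sp.inv_sub {S : Set B} {u : (En K B)ˣ} (h : Sp S (u.1 - 1)) : Sp S (u⁻¹.1 - 1) := by
  rw [sp_iff] at h ⊢
  have e1 : u⁻¹.1 - 1 = -(u⁻¹.1 * (u.1 - 1)) := by
    rw [_root_.mul_sub, Units.inv_mul, mul_one, neg_sub]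
  have e2 : u⁻¹.1 - 1 = -((u.1 - 1) * u⁻¹.1) := by
    rw [sub_mul, Units.mul_inv, one_mul, neg_sub]
  constructor
  · rw [e2, mul_neg, ← mul_assoc, h.1]
  · rw [e1, neg_mul, mul_assoc, h.2]

theorem comm_prj_iff {S : Set B} {a : En K B} :
    Commute (prj K S) a ↔ ∀ t' t, kr a t' t ≠ 0 → (t'.2 ∈ S ↔ t.2 ∈ S) := by
  constructor
  · intro h t' t h1
    have e : kr (prj K S * a) t' t = kr (a * prj K S) t' t := by rw [h.eq]
    rw [kr_prj_mul, kr_mul_prj] at e
    by_cases h2 : t'.2 ∈ S <;> by_cases h3 : t.2 ∈ S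
    · exact iff_of_true h2 h3
    · rw [if_pos h2, if_neg h3] at e; exact absurd e h1
    · rw [if_neg h2, if_pos h3] at e; exact absurd e.symm h1
    · exact iff_of_false h2 h3
  · intro h
    refine kr_ext fun t' t => ?_
    rw [kr_prj_mul, kr_mul_prj]
    by_cases h1 : kr a t' t = 0
    · simp [h1]
    · by_cases h2 : t'.2 ∈ S
      · rw [if_pos h2, if_pos ((h t' t h1).1 h2)]
      · rw [if_neg h2, if_neg fun h3 => h2 ((h t' t h1).2 h3)]

end Pool.Agent.Work.MP_9d1ffa_al.WL.A1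
end

-- merged part: Pool.Agent.Work.MP_9d1ffa_al.WL.Ot
section
/-! Transport of operators along embeddings. -/

namespace Pool.Agent.Work.MP_9d1ffa_al.WL.A1

open Finsupp

variable {K B B' B'' : Type}

noncomputable def up (K : Type) (j : B ↪ B') : Md K B →ₗ[ℤ] Md K B' :=
  lmapDomain ℤ ℤ (Prod.map id j)

noncomputable def dn (K : Type) (j : B ↪ B') : Md K B' →ₗ[ℤ] Md K B :=
  lcomapDomain (Prod.map id j) (Function.injective_id.prodMap j.injective)

/-- transport along two embeddings -/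
noncomputable def tr (j j' : B ↪ B') (a : En K B) : En K B' := up K j ∘ₗ a ∘ₗ dn K j'

/-- compression -/
noncomputable def cp (j : B ↪ B') (a : En K B') : En K B := dn K j ∘ₗ a ∘ₗ up K j

theorem Ot_inj (j : B ↪ B') : Function.Injective (Prod.map (id : K → K) j) :=
  Function.injective_id.prodMap j.injective

theorem Ot_up_single (j : B ↪ B') (g : K) (b : B) (c : ℤ) :
    up K j (single (g, b) c) = single (g, j b) c := by
  rw [up, lmapDomain_apply, mapDomain_single]; rfl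

theorem Ot_up_apply (j : B ↪ B') (x : Md K B) (g : K) (b : B) : up K j x (g, j b) = x (g, b) :=
  mapDomain_apply (Ot_inj j) x (g, b)

theorem Ot_up_nmem (j : B ↪ B') (x : Md K B) {t : K × B'} (h : t.2 ∉ Set.range j) :
    up K j x t = 0 := by
  refine mapDomain_of_notMem_range x t ?_
  rintro ⟨⟨g, b⟩, rfl⟩
  exact h ⟨b, rfl⟩

theorem Ot_dn_apply (j : B ↪ B') (x : Md K B') (g : K) (b : B) : dn K j x (g, b) = x (g, j b) :=
  rfl

theorem Ot_dn_up (j : B ↪ B') (x : Md K B) : dn K j (up K j x) = x :=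
  Finsupp.ext fun ⟨g, b⟩ => by rw [Ot_dn_apply, Ot_up_apply]

theorem Ot_dn_single (j : B ↪ B') (g : K) (b : B) (c : ℤ) :
    dn K j (single (g, j b) c) = single (g, b) c := by
  rw [← Ot_up_single, Ot_dn_up]

theorem Ot_dn_nmem (j : B ↪ B') {t : K × B'} (h : t.2 ∉ Set.range j) (c : ℤ) :
    dn K j (single t c) = 0 :=
  Finsupp.ext fun ⟨g, b⟩ => by
    rw [Ot_dn_apply]
    refine single_eq_of_ne ?_
    rintro rfl
    exact h ⟨b, rfl⟩

theorem Ot_ext {a b : Md K B →ₗ[ℤ] Md K B'} (h : ∀ t, a (single t 1) = b (single t 1)) : a = b :=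
  kr_ext fun t' t => congrArg (fun x : Md K B' => x t') (h t)

theorem Ot_up_dn_eq (j : B ↪ B') : up K j ∘ₗ dn K j = prj K (Set.range j) := by
  refine Ot_ext fun ⟨g, b'⟩ => ?_
  by_cases h : b' ∈ Set.range j
  · rw [prj_mem (t := (g, b')) h]
    obtain ⟨b, rfl⟩ := h
    rw [LinearMap.comp_apply, Ot_dn_single, Ot_up_single]
  · rw [prj_nmem (t := (g, b')) h, LinearMap.comp_apply, Ot_dn_nmem j (t := (g, b')) h, map_zero]

theorem Ot_up_dn (j : B ↪ B') (x : Md K B') : up K j (dn K j x) = prj K (Set.range j) x :=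
  LinearMap.congr_fun (Ot_up_dn_eq j) x

theorem Ot_dn_prj (j : B ↪ B') (x : Md K B') : dn K j (prj K (Set.range j) x) = dn K j x := by
  rw [← Ot_up_dn, Ot_dn_up]

theorem Ot_tr_apply (j j' : B ↪ B') (a : En K B) (x : Md K B') :
    tr j j' a x = up K j (a (dn K j' x)) := rfl

theorem Ot_cp_apply (j : B ↪ B') (a : En K B') (x : Md K B) :
    cp j a x = dn K j (a (up K j x)) := rfl

theorem Ot_up_up (j : B ↪ B') (i : B' ↪ B'') (x : Md K B) :
    up K i (up K j x) = up K (j.trans i) x := by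
  rw [up, up, up, lmapDomain_apply, lmapDomain_apply, lmapDomain_apply, ← mapDomain_comp]; rfl

theorem Ot_dn_dn (j : B ↪ B') (i : B' ↪ B'') (x : Md K B'') :
    dn K j (dn K i x) = dn K (j.trans i) x :=
  Finsupp.ext fun ⟨_, _⟩ => rfl

/-- the monomial column over `S` of an operator that preserves `S` lands over `S` -/
theorem Ot_mc_mem {S : Set B} {a : En K B} (k : Commute (prj K S) a) {t t' : K × B} {ε : ℤˣ}
    (h : a (single t 1) = single t' (ε : ℤ)) (ht : t.2 ∈ S) : t'.2 ∈ S := by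
  refine (comm_prj_iff.1 k t' t ?_).2 ht
  rw [kr, h, single_eq_same]
  exact ε.ne_zero

theorem kr_tr (j j' : B ↪ B') (a : En K B) (g' g : K) (b' b : B) :
    kr (tr j j' a) (g', j b') (g, j' b) = kr a (g', b') (g, b) := by
  rw [kr, kr, Ot_tr_apply, Ot_dn_single, Ot_up_apply]

theorem kr_tr_ne {j j' : B ↪ B'} {a : En K B} {t' t : K × B'} (h : kr (tr j j' a) t' t ≠ 0) :
    ∃ b' b, t'.2 = j b' ∧ t.2 = j' b ∧ kr a (t'.1, b') (t.1, b) ≠ 0 := by
  obtain ⟨g', c'⟩ := t'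
  obtain ⟨g, c⟩ := t
  have h1 : c' ∈ Set.range j := by
    by_contra e
    exact h (Ot_up_nmem j _ (t := (g', c')) e)
  have h2 : c ∈ Set.range j' := by
    by_contra e
    refine h ?_
    rw [kr, Ot_tr_apply, Ot_dn_nmem j' (t := (g, c)) e, map_zero, map_zero]
    rfl
  obtain ⟨b', rfl⟩ := h1
  obtain ⟨b, rfl⟩ := h2
  exact ⟨b', b, rfl, rfl, by rwa [kr_tr] at h⟩

theorem kr_cp (j : B ↪ B') (a : En K B') (g' g : K) (b' b : B) :
    kr (cp j a) (g', b') (g, b) = kr a (g', j b') (g, j b) := by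
  rw [kr, kr, Ot_cp_apply, Ot_up_single, Ot_dn_apply]

theorem tr_add (j j' : B ↪ B') (a b : En K B) : tr j j' (a + b) = tr j j' a + tr j j' b := by
  rw [tr, tr, tr, LinearMap.add_comp, LinearMap.comp_add]
theorem tr_sub (j j' : B ↪ B') (a b : En K B) : tr j j' (a - b) = tr j j' a - tr j j' b := by
  rw [tr, tr, tr, LinearMap.sub_comp, LinearMap.comp_sub]
theorem tr_neg (j j' : B ↪ B') (a : En K B) : tr j j' (-a) = -tr j j' a := by
  rw [tr, tr, LinearMap.neg_comp, LinearMap.comp_neg]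
theorem tr_zero (j j' : B ↪ B') : tr j j' (0 : En K B) = 0 := by
  rw [tr, LinearMap.zero_comp, LinearMap.comp_zero]
theorem tr_mul (j j' j'' : B ↪ B') (a b : En K B) :
    tr j j' a * tr j' j'' b = tr j j'' (a * b) := by
  refine LinearMap.ext fun x => ?_
  rw [Module.End.mul_apply, Ot_tr_apply, Ot_tr_apply, Ot_tr_apply, Ot_dn_up, Module.End.mul_apply]
theorem tr_mul_zero {j j' i i' : B ↪ B'} (h : ∀ b b', j' b ≠ i b') (a b : En K B) :
    tr j j' a * tr i i' b = 0 := by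
  refine LinearMap.ext fun x => ?_
  have e : dn K j' (up K i (b (dn K i' x))) = 0 :=
    Finsupp.ext fun ⟨g, c⟩ => by
      rw [Ot_dn_apply]
      refine Ot_up_nmem i _ ?_
      rintro ⟨c', e⟩
      exact h c c' e.symm
  rw [Module.End.mul_apply, Ot_tr_apply, Ot_tr_apply, e, map_zero, map_zero]
  rfl
theorem tr_tr (j j' : B ↪ B') (i i' : B' ↪ B'') (a : En K B) :
    tr i i' (tr j j' a) = tr (j.trans i) (j'.trans i') a := by
  refine LinearMap.ext fun x => ?_
  rw [Ot_tr_apply, Ot_tr_apply, Ot_tr_apply, Ot_up_up, Ot_dn_dn]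
theorem tr_one (j : B ↪ B') : tr j j (1 : En K B) = prj K (Set.range j) := by
  refine LinearMap.ext fun x => ?_
  rw [Ot_tr_apply, Module.End.one_apply, Ot_up_dn]
theorem tr_prj (j : B ↪ B') (S : Set B) : tr j j (prj K S) = prj K (j '' S) := by
  refine Ot_ext fun ⟨g, c⟩ => ?_
  rw [Ot_tr_apply]
  by_cases h : c ∈ Set.range j
  · obtain ⟨b, rfl⟩ := h
    rw [Ot_dn_single]
    by_cases hb : b ∈ S
    · rw [prj_mem (t := (g, b)) hb, Ot_up_single,
        prj_mem (S := j '' S) (t := (g, j b)) ⟨b, hb, rfl⟩]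
    · rw [prj_nmem (t := (g, b)) hb, map_zero, prj_nmem (t := (g, j b))]
      rintro ⟨b', hb', e⟩
      exact hb (j.injective e ▸ hb')
  · rw [Ot_dn_nmem j (t := (g, c)) h, map_zero, map_zero, prj_nmem (t := (g, c))]
    exact fun e => h (Set.image_subset_range _ _ e)
theorem tr_cp (j : B ↪ B') {a : En K B'} (h : Sp (Set.range j) a) : tr j j (cp j a) = a := by
  obtain ⟨h1, h2⟩ := sp_iff.1 h
  refine LinearMap.ext fun x => ?_
  rw [Ot_tr_apply, Ot_cp_apply, Ot_up_dn, Ot_up_dn, ← Module.End.mul_apply a, h2,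
    ← Module.End.mul_apply, h1]
theorem cp_tr (j : B ↪ B') (a : En K B) : cp j (tr j j a) = a := by
  refine LinearMap.ext fun x => ?_
  rw [Ot_cp_apply, Ot_tr_apply, Ot_dn_up, Ot_dn_up]
theorem cp_one (j : B ↪ B') : cp j (1 : En K B') = 1 := by
  refine LinearMap.ext fun x => ?_
  rw [Ot_cp_apply, Module.End.one_apply, Module.End.one_apply, Ot_dn_up]
theorem cp_add (j : B ↪ B') (a b : En K B') : cp j (a + b) = cp j a + cp j b := by
  rw [cp, cp, cp, LinearMap.add_comp, LinearMap.comp_add]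
theorem cp_sub (j : B ↪ B') (a b : En K B') : cp j (a - b) = cp j a - cp j b := by
  rw [cp, cp, cp, LinearMap.sub_comp, LinearMap.comp_sub]
theorem cp_mul (j : B ↪ B') {a : En K B'} (h : Commute (prj K (Set.range j)) a) (b : En K B') :
    cp j (a * b) = cp j a * cp j b := by
  refine LinearMap.ext fun x => ?_
  rw [Module.End.mul_apply, Ot_cp_apply, Ot_cp_apply, Ot_cp_apply, Ot_up_dn,
    ← Module.End.mul_apply a, ← h.eq, Module.End.mul_apply, Module.End.mul_apply, Ot_dn_prj]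
theorem RF.tr {a : En K B} (h : RF a) (j j' : B ↪ B') : RF (tr j j' a) := by
  intro c'
  by_cases e : c' ∈ Set.range j
  · obtain ⟨b', rfl⟩ := e
    refine ((h b').image j').subset ?_
    rintro c ⟨g, g', hc⟩
    obtain ⟨b₁, b, e₁, e₂, hk⟩ := kr_tr_ne hc
    obtain rfl := j.injective e₁
    exact ⟨b, ⟨g, g', hk⟩, e₂.symm⟩
  · refine Set.finite_empty.subset ?_
    rintro c ⟨g, g', hc⟩
    obtain ⟨b₁, b, e₁, -, -⟩ := kr_tr_ne hc
    exact e ⟨b₁, e₁.symm⟩
theorem Fi.tr {a : En K B} (h : Fi a) (j j' : B ↪ B') : Fi (tr j j' a) := by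
  refine (Set.Finite.image j' h).subset ?_
  rintro c ⟨g, t', hc⟩
  obtain ⟨b', b, -, e₂, hk⟩ := kr_tr_ne hc
  exact ⟨b, ⟨g, _, hk⟩, e₂.symm⟩
theorem RF.cp {a : En K B'} (h : RF a) (j : B ↪ B') : RF (cp j a) := by
  intro b'
  refine ((h (j b')).preimage j.injective.injOn).subset ?_
  rintro b ⟨g, g', hb⟩
  exact ⟨g, g', by rwa [kr_cp] at hb⟩
theorem Fi.cp {a : En K B'} (h : Fi a) (j : B ↪ B') : Fi (cp j a) := by
  refine (Set.Finite.preimage j.injective.injOn h).subset ?_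
  rintro b ⟨g, ⟨g', b'⟩, hb⟩
  exact ⟨g, (g', j b'), by rwa [kr_cp] at hb⟩
theorem sp_tr (j : B ↪ B') (a : En K B) : Sp (Set.range j) (tr j j a) := by
  intro t' t h
  obtain ⟨b', b, e₁, e₂, -⟩ := kr_tr_ne h
  exact ⟨⟨b', e₁.symm⟩, ⟨b, e₂.symm⟩⟩

/-- extension by the identity -/
noncomputable def xt (K : Type) (j : B ↪ B') : En K B →* En K B' where
  toFun a := 1 + tr j j (a - 1)
  map_one' := by rw [sub_self, tr_zero, add_zero]
  map_mul' a b := by
    have e : a * b - 1 = (a - 1) + (b - 1) + (a - 1) * (b - 1) := by noncomm_ring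
    rw [e, tr_add, tr_add, ← tr_mul j j j]
    noncomm_ring

theorem xt_apply (j : B ↪ B') (a : En K B) : xt K j a = 1 + tr j j (a - 1) := rfl

theorem xt_xt (j : B ↪ B') (i : B' ↪ B'') (a : En K B) :
    xt K i (xt K j a) = xt K (j.trans i) a := by
  rw [xt_apply, xt_apply, add_sub_cancel_left, tr_tr, xt_apply]

theorem IsM.xt {a : En K B} (h : IsM a) (j : B ↪ B') : IsM (xt K j a) := by
  rintro ⟨g, c⟩
  by_cases e : c ∈ Set.range j
  · obtain ⟨b, rfl⟩ := e
    obtain ⟨⟨g', b'⟩, ε, k⟩ := h (g, b)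
    refine ⟨(g', j b'), ε, ?_⟩
    rw [xt_apply, LinearMap.add_apply, Ot_tr_apply, Ot_dn_single, LinearMap.sub_apply, k,
      Module.End.one_apply, Module.End.one_apply, map_sub, Ot_up_single, Ot_up_single,
      add_sub_cancel]
  · refine ⟨(g, c), 1, ?_⟩
    rw [xt_apply, LinearMap.add_apply, Ot_tr_apply, Ot_dn_nmem j (t := (g, c)) e, map_zero,
      map_zero, add_zero, Module.End.one_apply, Units.val_one]

/-- columns of a monomial compress to monomial columns -/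
theorem AMo.cp {a : En K B'} (h : AMo a) (j : B ↪ B')
    (k : Commute (prj K (Set.range j)) a) : AMo (cp j a) := by
  refine (Set.Finite.preimage j.injective.injOn h).subset ?_
  rintro b ⟨g, hb⟩
  refine ⟨g, fun ⟨⟨g', c'⟩, ε, e⟩ => hb ?_⟩
  obtain ⟨b', rfl⟩ : c' ∈ Set.range j := Ot_mc_mem k e ⟨b, rfl⟩
  exact ⟨(g', b'), ε, by rw [Ot_cp_apply, Ot_up_single, e, Ot_dn_single]⟩

theorem AMo.cut {a : En K B} (h : AMo a) {S : Set B} (k : Commute (prj K S) a) :
    AMo (1 + prj K S * (a - 1)) := by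
  refine Set.Finite.subset h ?_
  rintro b ⟨g, hb⟩
  refine ⟨g, fun ⟨t', ε, e⟩ => hb ?_⟩
  by_cases hS : b ∈ S
  · refine ⟨t', ε, ?_⟩
    rw [LinearMap.add_apply, (k.sub_right (Commute.one_right _)).eq, Module.End.mul_apply,
      prj_mem (t := (g, b)) hS, LinearMap.sub_apply, e, add_sub_cancel]
  · refine ⟨(g, b), 1, ?_⟩
    rw [LinearMap.add_apply, (k.sub_right (Commute.one_right _)).eq, Module.End.mul_apply,
      prj_nmem (t := (g, b)) hS, map_zero, add_zero, Module.End.one_apply, Units.val_one]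

end Pool.Agent.Work.MP_9d1ffa_al.WL.A1
end

-- merged part: Pool.Agent.Work.MP_9d1ffa_al.WL.Ep
section
/-! Projective dimension, restriction to subgroups, permutation modules. -/

namespace Pool.Agent.Work.MP_9d1ffa_al.WL.E

open CategoryTheory Function

/-- projective dimension at most `n` -/
def PD (R : Type) [Ring R] (n : ℕ) (M : Type) [AddCommGroup M] [Module R M] : Prop :=
  HasProjectiveDimensionLE (ModuleCat.of R M) n

section

variable {R K P M : Type} [Ring R] [AddCommGroup K] [Module R K] [AddCommGroup P] [Module R P]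
  [AddCommGroup M] [Module R M] {n m : ℕ}

theorem pd_zero : PD R 0 M ↔ Module.Projective R M :=
  projective_iff_hasProjectiveDimensionLT_one.symm.trans (IsProjective.iff_projective M).symm

theorem PD.mono (h : PD R n M) (k : n ≤ m) : PD R m M :=
  @hasProjectiveDimensionLT_of_ge _ _ _ _ _ _ (Nat.succ_le_succ k) h

theorem PD.ret (h : PD R n M) (i : K →ₗ[R] M) (r : M →ₗ[R] K) (e : ∀ x, r (i x) = x) : PD R n K :=
  @Retract.hasProjectiveDimensionLT _ _ _ _ _
    ⟨ModuleCat.ofHom i, ModuleCat.ofHom r, ModuleCat.hom_ext (LinearMap.ext e)⟩ _ h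

theorem pd_ses (i : K →ₗ[R] P) (π : P →ₗ[R] M) (hi : Injective i) (he : Exact i π)
    (hπ : Surjective π) (hP : Module.Projective R P) : PD R (n + 1) M ↔ PD R n K :=
  (ModuleCat.shortComplex_shortExact
    (ModuleCat.shortComplexOfCompEqZero i π he.linearMap_comp_eq_zero) he hi
      hπ).hasProjectiveDimensionLT_X₃_iff n ((IsProjective.iff_projective P).1 hP)

theorem pd_one (h : ∀ J : Ideal R, Module.Projective R J) : PD R 1 M := by
  refine hasProjectiveDimensionLT_of_enoughInjectives _ 2 fun Y => ⟨fun a b => ?_⟩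
  obtain ⟨I, hI, f, _⟩ := EnoughInjectives.presentation Y
  have hS := ModuleCat.shortComplex_shortExact (ModuleCat.shortComplexOfCompEqZero _ _
    f.hom.exact_map_mkQ_range.linearMap_comp_eq_zero) f.hom.exact_map_mkQ_range
    ((ModuleCat.mono_iff_injective f).1 ‹_›) (Submodule.mkQ_surjective _)
  have hB := Module.Baer.of_injective ((Module.injective_iff_injective_object R I).2 hI)
  have : Injective (ModuleCat.of R (I ⧸ f.hom.range)) :=
    (Module.injective_iff_injective_object R _).1 (Module.Baer.injective fun J g => by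
      obtain ⟨g', h1⟩ := Module.projective_lifting_property _ g f.hom.range.mkQ_surjective
      obtain ⟨g'', h2⟩ := hB J g'
      exact ⟨f.hom.range.mkQ ∘ₗ g'', fun x hx => by rw [← h1]; exact congrArg _ (h2 x hx)⟩)
  rw [← sub_eq_zero]
  obtain ⟨x, hx⟩ := Abelian.Ext.covariant_sequence_exact₁ _ hS (a - b)
    (Abelian.Ext.eq_zero_of_injective _) rfl
  rw [← hx, x.eq_zero_of_injective, Abelian.Ext.zero_comp]

end

variable {G H : Type} [Group G] [Group H]

/-- group elements in the group ring -/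
noncomputable def gs : G →* ZG G := MonoidAlgebra.of ℤ G

/-- finite global dimension -/
def GD (G : Type) [Group G] (d : ℕ) : Prop :=
  ∀ (M : Type) [AddCommGroup M] [Module (ZG G) M], PD (ZG G) d M

theorem gd_triv [Subsingleton G] : GD G 1 := fun M _ _ => by
  let e := (MonoidAlgebra.uniqueRingEquiv (R := ℤ) G).symm
  have := RingHomInvPair.of_ringEquiv e
  have := RingHomInvPair.of_ringEquiv_symm e
  have h : HasProjectiveDimensionLE (ModuleCat.of ℤ M) 1 := pd_one fun _ => inferInstance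
  exact ModuleCat.hasProjectiveDimensionLE_of_semiLinearEquiv e (M := ModuleCat.of ℤ M)
    { AddEquiv.refl M with
      map_smul' := fun r x => by
        change r • x = e r • x
        rw [eq_intCast e.toRingHom r |>.symm.symm.trans rfl |> fun h : e r = _ => h,
          Int.cast_smul_eq_zsmul] } 1

variable {M N Y : Type} [AddCommGroup M] [Module (ZG G) M] [AddCommGroup N] [Module (ZG G) N]
  [AddCommGroup Y] [Module (ZG G) Y]

/-- equivariant additive maps are linear -/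
def mkL (φ : M →+ N) (h : ∀ (g : G) m, φ (gs g • m) = gs g • φ m) : M →ₗ[ZG G] N :=
  { φ with
    map_smul' := fun r m => by
      change φ (r • m) = r • φ m
      induction r using MonoidAlgebra.induction_on with
      | of g => exact h g m
      | add a b ha hb => rw [add_smul, map_add, ha, hb, add_smul]
      | smul n a ha => rw [smul_assoc, map_zsmul, ha, smul_assoc] }

theorem gs_inv (g : G) (m : M) : gs g⁻¹ • gs g • m = m := by
  rw [smul_smul, ← map_mul, inv_mul_cancel, map_one, one_smul]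

theorem gs_inv' (g : G) (m : M) : gs g • gs g⁻¹ • m = m := by
  rw [smul_smul, ← map_mul, mul_inv_cancel, map_one, one_smul]

theorem gs_mul (g h : G) (m : M) : gs (g * h) • m = gs g • gs h • m := by rw [map_mul, mul_smul]

/-- restriction along a homomorphism -/
def Rs (_ : H →* G) (M : Type) : Type := M

instance (f : H →* G) : AddCommGroup (Rs f M) := ‹_›

noncomputable instance (f : H →* G) : Module (ZG H) (Rs f M) :=
  Module.compHom M (MonoidAlgebra.mapDomainRingHom ℤ f)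

theorem rs_gs (f : H →* G) (h : H) (m : M) : gs h • (show Rs f M from m) = gs (f h) • m := by
  change MonoidAlgebra.mapDomainRingHom ℤ f (gs h) • m = _
  simp [gs]

/-- equivariant additive maps between restrictions -/
noncomputable def rsL (f : H →* G) (φ : M →+ N) (h : ∀ g m, φ (gs (f g) • m) = gs (f g) • φ m) :
    Rs f M →ₗ[ZG H] Rs f N :=
  mkL φ fun g m => (congrArg φ (rs_gs (M := M) f g m)).trans ((h g m).trans (rs_gs (M := N) f g _).symm)

/-- restriction of a linear map -/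
noncomputable def rsM (f : H →* G) (φ : M →ₗ[ZG G] N) : Rs f M →ₗ[ZG H] Rs f N :=
  rsL f φ.toAddMonoidHom fun _ m => φ.map_smul _ m

theorem rs_lift (f : H →* G) (hM : Module.Projective (ZG H) (Rs f M)) (π : Y →ₗ[ZG G] N)
    (hπ : Surjective π) (φ : M →+ N) (h : ∀ g m, φ (gs (f g) • m) = gs (f g) • φ m) :
    ∃ ψ : M →+ Y, (∀ g m, ψ (gs (f g) • m) = gs (f g) • ψ m) ∧ ∀ m, π (ψ m) = φ m := by
  obtain ⟨ψ, e⟩ := Module.projective_lifting_property (rsM f π) (rsL f φ h) hπ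
  exact ⟨ψ.toAddMonoidHom, fun g m => (congrArg ψ (rs_gs f g m)).symm.trans
    ((ψ.map_smul _ m).trans (rs_gs (M := Y) f g _)), fun m => LinearMap.congr_fun e m⟩

theorem eqv_choice {X Z : Type} [MulAction H X] (a : H → Z → Z)
    (am : ∀ g h z, a (g * h) z = a g (a h z)) (R : X → Z → Prop)
    (hR : ∀ g x z, R x z → R (g • x) (a g z))
    (h : ∀ x, ∃ z, R x z ∧ ∀ g, g • x = x → a g z = z) :
    ∃ c : X → Z, (∀ x, R x (c x)) ∧ ∀ g x, c (g • x) = a g (c x) := by
  choose z h1 h2 using h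
  let r : X → X := fun x => (Quotient.mk (MulAction.orbitRel H X) x).out
  have hr : ∀ x, ∃ g : H, g • r x = x := fun x =>
    (MulAction.orbitRel H X).symm (Quotient.mk_out (s := MulAction.orbitRel H X) x)
  choose t ht using hr
  refine ⟨fun x => a (t x) (z (r x)), fun x => ?_, fun g x => ?_⟩
  · have := hR (t x) _ _ (h1 (r x))
    rwa [ht] at this
  · have e : r (g • x) = r x := congrArg Quotient.out (Quotient.sound ⟨g, rfl⟩)
    have k := h2 (r x) ((t (g • x))⁻¹ * (g * t x)) (by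
      rw [mul_smul, mul_smul, ht, inv_smul_eq_iff, ← e, ht])
    change a _ (z (r (g • x))) = _
    rw [e, ← am, ← k, ← am, mul_inv_cancel_left, k]

theorem rs_prj (f : H →* G) (hf : Injective f) (hM : Module.Projective (ZG G) M) :
    Module.Projective (ZG H) (Rs f M) := by
  obtain ⟨s, hs⟩ := Module.projective_def'.1 hM
  have : Module.Projective (ZG H) (Rs f (M →₀ ZG G)) := by
    refine Module.Projective.of_lifting_property'' fun π hπ => ?_
    let _ := MulAction.compHom G f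
    have k := fun i : M => eqv_choice (H := H) (X := G) (fun h y => gs h • y) gs_mul
      (fun x y => π y = (Finsupp.single i (gs x) : M →₀ ZG G))
      (fun g x y e => by
        rw [map_smul, e]
        refine (rs_gs f g _).trans ?_
        rw [Finsupp.smul_single, smul_eq_mul, ← map_mul]
        rfl)
      fun x => (hπ _).imp fun y e => ⟨e, fun g e' => by
        rw [hf ((mul_eq_right.1 e').trans (map_one f).symm), map_one, one_smul]⟩
    choose c c1 c2 using k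
    let ψ : (M →₀ ZG G) →+ _ := Finsupp.liftAddHom fun i =>
      (Finsupp.linearCombination ℤ (c i)).toAddMonoidHom.comp
        MonoidAlgebra.coeffAddEquiv.toAddMonoidHom
    have hψ : ∀ i x, ψ (Finsupp.single i (gs x)) = c i x := fun i x => by simp [ψ, gs]
    have ext : ∀ {A : Type} [AddCommGroup A] (u v : (M →₀ ZG G) →+ A),
        (∀ i x, u (Finsupp.single i (gs x)) = v (Finsupp.single i (gs x))) → u = v :=
      fun u v e => Finsupp.addHom_ext fun i r => by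
        induction r using MonoidAlgebra.induction_on with
        | of g => exact e i g
        | add a b ha hb => rw [Finsupp.single_add, map_add, map_add, ha, hb]
        | smul n a ha => rw [← Finsupp.smul_single, map_zsmul, map_zsmul, ha]
    refine ⟨mkL ψ fun g m => (congrArg ψ (rs_gs (M := M →₀ ZG G) f g m)).trans (DFunLike.congr_fun
      (ext (ψ.comp (DistribSMul.toAddMonoidHom _ (gs (f g))))
        ((DistribSMul.toAddMonoidHom _ (gs g)).comp ψ) fun i x => ?_) m),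
      LinearMap.ext fun m => DFunLike.congr_fun (ext (π.toAddMonoidHom.comp ψ) (AddMonoidHom.id _)
        fun i x => (congrArg π (hψ i x)).trans (c1 i x)) m⟩
    change ψ (gs (f g) • _) = gs g • ψ _
    rw [Finsupp.smul_single, smul_eq_mul, ← map_mul, hψ, hψ]
    exact c2 i g x
  exact .of_split (rsM f s) (rsM f (Finsupp.linearCombination (ZG G) id))
    (LinearMap.ext fun m => LinearMap.congr_fun hs m)

theorem rs_ses (f : H →* G) (hf : Injective f) {d : ℕ} (π : Y →ₗ[ZG G] M) (hπ : Surjective π)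
    (hY : Module.Projective (ZG G) Y) :
    PD (ZG H) (d + 1) (Rs f M) ↔ PD (ZG H) d (Rs f (LinearMap.ker π)) :=
  pd_ses (rsM f (LinearMap.ker π).subtype) (rsM f π) Subtype.val_injective
    (LinearMap.exact_subtype_ker_map π) hπ (rs_prj f hf hY)

theorem pd_ker {d : ℕ} (π : Y →ₗ[ZG G] M) (hπ : Surjective π) (hY : Module.Projective (ZG G) Y) :
    PD (ZG G) (d + 1) M ↔ PD (ZG G) d (LinearMap.ker π) :=
  pd_ses _ π Subtype.val_injective (LinearMap.exact_subtype_ker_map π) hπ hY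

/-- a permutation module with coefficients -/
def Pm (_G X M : Type) [Zero M] : Type := X →₀ M

variable {X X' : Type} [MulAction G X] [MulAction G X']

noncomputable instance : AddCommGroup (Pm G X M) := inferInstanceAs (AddCommGroup (X →₀ M))

/-- the generators -/
noncomputable def sg (G : Type) (x : X) : M →+ Pm G X M := Finsupp.singleAddHom x

omit [Group G] [Module (ZG G) M] [MulAction G X] in
theorem pm_ext {A : Type} [AddCommGroup A] {u v : Pm G X M →+ A}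
    (h : ∀ x m, u (sg G x m) = v (sg G x m)) : u = v := Finsupp.addHom_ext h

/-- maps out of a permutation module -/
noncomputable def lf (G : Type) {A : Type} [AddCommGroup A] (c : X → M →+ A) : Pm G X M →+ A :=
  Finsupp.liftAddHom c

omit [Group G] [Module (ZG G) M] [MulAction G X] in
theorem lf_sg {A : Type} [AddCommGroup A] (c : X → M →+ A) (x : X) (m : M) :
    lf G c (sg G x m) = c x m := Finsupp.liftAddHom_apply_single c x m

/-- the diagonal action -/
noncomputable def pmR : G →* Module.End ℤ (Pm G X M) where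
  toFun g := (lf G fun x => (sg G (g • x)).comp (DistribSMul.toAddMonoidHom M (gs g))).toIntLinearMap
  map_one' := LinearMap.toAddMonoidHom_injective (pm_ext fun x m => (lf_sg _ x m).trans (by simp))
  map_mul' g h := LinearMap.toAddMonoidHom_injective (pm_ext fun x m => by
    simp [lf_sg, mul_smul])

noncomputable instance : Module (ZG G) (Pm G X M) :=
  Module.compHom _ (MonoidAlgebra.lift ℤ (Module.End ℤ (Pm G X M)) G pmR).toRingHom

theorem gs_sg (g : G) (x : X) (m : M) : gs g • sg G x m = sg G (g • x) (gs g • m) := by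
  change MonoidAlgebra.lift ℤ (Module.End ℤ (Pm G X M)) G pmR (.of ℤ G g) _ = _
  rw [MonoidAlgebra.lift_of]
  exact lf_sg _ x m

/-- linear maps out of a permutation module -/
noncomputable def lfL (c : X → M →+ Y) (h : ∀ (g : G) x m, c (g • x) (gs g • m) = gs g • c x m) :
    Pm G X M →ₗ[ZG G] Y :=
  mkL (lf G c) fun g z => DFunLike.congr_fun (pm_ext
    (u := (lf G c).comp (DistribSMul.toAddMonoidHom _ (gs g)))
    (v := (DistribSMul.toAddMonoidHom _ (gs g)).comp (lf G c)) fun x m => by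
      change lf G c (gs g • _) = gs g • lf G c _
      rw [gs_sg, lf_sg, lf_sg, h]) z

theorem lfL_sg (c : X → M →+ Y) (h : ∀ (g : G) x m, c (g • x) (gs g • m) = gs g • c x m) (x : X)
    (m : M) : lfL c h (sg G x m) = c x m := lf_sg c x m

theorem pm_prj (h : ∀ x : X, Module.Projective (ZG (MulAction.stabilizer G x))
    (Rs (MulAction.stabilizer G x).subtype M)) : Module.Projective (ZG G) (Pm G X M) := by
  refine Module.Projective.of_lifting_property'' fun π hπ => ?_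
  obtain ⟨c, c1, c2⟩ := eqv_choice (H := G) (X := X) (Z := M →+ (Pm G X M →₀ ZG G))
    (fun g z => (DistribSMul.toAddMonoidHom _ (gs g)).comp
      (z.comp (DistribSMul.toAddMonoidHom _ (gs g⁻¹))))
    (fun g g' z => by ext1; simp [mul_smul])
    (fun x z => ∀ m, π (z m) = sg G x m)
    (fun g x z e m => by
      change π (gs g • z (gs g⁻¹ • m)) = _
      rw [map_smul, e, gs_sg, gs_inv'])
    fun x => by
      obtain ⟨ψ, h1, h2⟩ := rs_lift _ (h x) π hπ (sg G x) fun g m => by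
        rw [gs_sg]
        exact congrArg (fun y => sg G y _) (show (g : G) • x = x from g.2).symm
      refine ⟨ψ, h2, fun g e => AddMonoidHom.ext fun m => ?_⟩
      exact (h1 ⟨g, e⟩ _).symm.trans (congrArg ψ (gs_inv' g m))
  refine ⟨lfL c fun g x m => ?_, LinearMap.toAddMonoidHom_injective (pm_ext fun x m =>
    (congrArg π (lfL_sg ..)).trans (c1 x m))⟩
  rw [c2]
  exact congrArg (fun y => gs g • c x y) (gs_inv g m)

/-- the sum of the coefficients -/
noncomputable def aug (X : Type) [MulAction G X] : Pm G X M →ₗ[ZG G] M :=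
  lfL (fun _ => AddMonoidHom.id M) fun _ _ _ => rfl

/-- a coefficient -/
noncomputable def ev (G : Type) (x : X) : Pm G X M →+ M := Finsupp.applyAddHom x

theorem ev_gs (g : G) (x : X) (z : Pm G X M) : ev G (g • x) (gs g • z) = gs g • ev G x z := by
  classical
  refine DFunLike.congr_fun (pm_ext
    (u := (ev G (g • x)).comp (DistribSMul.toAddMonoidHom _ (gs g)))
    (v := (DistribSMul.toAddMonoidHom _ (gs g)).comp (ev G x)) fun y m => ?_) z
  change ev G _ (gs g • sg G y m) = gs g • (Finsupp.single y m x)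
  rw [gs_sg]
  change Finsupp.single _ _ _ = _
  simp only [Finsupp.single_apply, smul_left_cancel_iff, smul_ite, smul_zero]

theorem aug_eq [Fintype X] (z : Pm G X M) : aug X z = ∑ x, ev G x z := by
  classical
  refine (DFunLike.congr_fun (pm_ext (u := (aug X).toAddMonoidHom) (v := ∑ x, ev G x)
    fun y m => (lf_sg _ y m).trans ?_) z).trans (AddMonoidHom.finsetSum_apply ..)
  rw [AddMonoidHom.finsetSum_apply]
  change m = ∑ x, Finsupp.single y m x
  simp [Finsupp.single_apply]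

/-- A retraction that is equivariant for a subgroup of finite index is averaged along a section of
the augmentation. -/
theorem higman (f : H →* G) [f.range.FiniteIndex] (π : Y →ₗ[ZG G] M) (hπ : Surjective π)
    (hY : Module.Projective (ZG G) Y) (hK : Module.Projective (ZG G) (LinearMap.ker π))
    (hM : Module.Projective (ZG H) (Rs f M)) : Module.Projective (ZG G) M := by
  have := Fintype.ofFinite (G ⧸ f.range)
  obtain ⟨σ, σ1, σ2⟩ := rs_lift f hM π hπ (AddMonoidHom.id M) fun _ _ => rfl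
  obtain ⟨s, hs⟩ := Module.projective_lifting_property (aug (G := G) (G ⧸ f.range))
    (LinearMap.id (M := LinearMap.ker π)) fun m => ⟨sg G ((1 : G) : G ⧸ f.range) m, lf_sg _ _ m⟩
  let r : Y →+ LinearMap.ker π := ((AddMonoidHom.id Y - σ.comp π.toAddMonoidHom).codRestrict
    (LinearMap.ker π) fun y => by simpa [sub_eq_zero] using (σ2 (π y)).symm)
  let u : Y →+ LinearMap.ker π := (ev G ((1 : G) : G ⧸ f.range)).comp (s.toAddMonoidHom.comp r)
  have hu : ∀ a b : G, (a : G ⧸ f.range) = b → ∀ y, gs a • u (gs a⁻¹ • y) = gs b • u (gs b⁻¹ • y) :=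
    fun a b e y => by
      obtain ⟨h, hh⟩ := QuotientGroup.eq.1 e
      have e1 : r (gs (f h) • gs b⁻¹ • y) = gs (f h) • r (gs b⁻¹ • y) := Subtype.ext (by
        change _ - σ (π _) = gs (f h) • (_ - σ (π _))
        rw [π.map_smul, σ1, smul_sub]
        rfl)
      have e2 := ev_gs (f h) ((1 : G) : G ⧸ f.range) (s (r (gs b⁻¹ • y)))
      rw [← map_smul, ← e1, ← gs_mul, show f h • ((1 : G) : G ⧸ f.range) = (1 : G) from
        QuotientGroup.eq.2 ⟨h⁻¹, by simp⟩, hh, mul_inv_cancel_right] at e2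
      change gs a • ev G _ (s (r _)) = _
      rw [e2, ← gs_mul, mul_inv_cancel_left]
      rfl
  let R : Y →ₗ[ZG G] LinearMap.ker π := mkL (∑ t : G ⧸ f.range,
    (DistribSMul.toAddMonoidHom _ (gs t.out)).comp
      (u.comp (DistribSMul.toAddMonoidHom _ (gs t.out⁻¹)))) fun g y => by
    rw [AddMonoidHom.finsetSum_apply, AddMonoidHom.finsetSum_apply, Finset.smul_sum,
      ← Equiv.sum_comp (MulAction.toPerm g)]
    refine Finset.sum_congr rfl fun t _ => (hu _ (g * t.out) ((Quotient.out_eq' _).trans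
      (MulAction.Quotient.mk_smul_out _ g t).symm) _).trans ?_
    rw [gs_mul (M := LinearMap.ker π), mul_inv_rev, gs_mul, gs_inv]
    rfl
  have hR : ∀ k : LinearMap.ker π, R k = k := fun k => by
    refine Eq.trans ((AddMonoidHom.finsetSum_apply ..).trans ?_) (LinearMap.congr_fun hs k)
    refine (Finset.sum_congr rfl fun t _ => ?_).trans (aug_eq (s k)).symm
    have e1 : r (gs t.out⁻¹ • k.1) = gs t.out⁻¹ • k := Subtype.ext (by
      change _ - σ (π _) = _
      rw [π.map_smul, show π k = 0 from k.2, smul_zero, map_zero, sub_zero]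
      rfl)
    change gs t.out • ev G _ (s (r (gs t.out⁻¹ • k.1))) = _
    rw [e1, map_smul, ← ev_gs, gs_inv']
    simp
  have k := ((LinearMap.exact_subtype_ker_map π).split_tfae Subtype.val_injective hπ).out 1 0
  obtain ⟨l, hl⟩ := k.1 ⟨R, LinearMap.ext hR⟩
  exact .of_split l π hl

theorem serre (f : H →* G) (hf : Injective f) [f.range.FiniteIndex] (d : ℕ) :
    ∀ (n : ℕ) (M : Type) [AddCommGroup M] [Module (ZG G) M], PD (ZG G) n M →
      PD (ZG H) d (Rs f M) → PD (ZG G) d M := by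
  have s := fun (M : Type) [AddCommGroup M] [Module (ZG G) M] =>
    Finsupp.linearCombination_surjective (ZG G) (surjective_id (α := M))
  induction d with
  | zero =>
    intro n
    induction n with
    | zero => exact fun M _ _ h _ => h
    | succ n ih =>
      exact fun M _ _ h h' => pd_zero.2 (higman f _ (s M) inferInstance (pd_zero.1
        (ih _ ((pd_ker _ (s M) inferInstance).1 h)
          ((rs_ses f hf _ (s M) inferInstance).1 (h'.mono zero_le_one)))) (pd_zero.1 h'))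
  | succ d ih =>
    exact fun n M _ _ h h' => (pd_ker _ (s M) inferInstance).2 (ih n _
      ((pd_ker _ (s M) inferInstance).1 (h.mono n.le_succ))
      ((rs_ses f hf _ (s M) inferInstance).1 h'))

end Pool.Agent.Work.MP_9d1ffa_al.WL.E
end

-- merged part: Pool.Agent.Work.MP_9d1ffa_al.WL.En
section
/-! Group rings of virtually polycyclic groups are noetherian. -/

namespace Pool.Agent.Work.MP_9d1ffa_al.WL

open MonoidAlgebra

variable {G H : Type} [Group G] [Group H]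

/-- The group ring is a finite module over the group ring of a subgroup of finite index. -/
theorem no_fin (f : H →* G) [f.range.FiniteIndex] (h : IsNoetherianRing (ZG H)) :
    IsNoetherianRing (ZG G) := by
  let _ : Module (ZG H) (ZG G) := Module.compHom _ (mapDomainRingHom ℤ f)
  have e : ∀ (a : ZG H) (x : ZG G), a • x = mapDomainRingHom ℤ f a * x := fun _ _ => rfl
  have : IsScalarTower (ZG H) (ZG G) (ZG G) := ⟨fun a x y => mul_assoc _ x y⟩
  have : Module.Finite (ZG H) (ZG G) := ⟨Submodule.fg_def.2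
    ⟨_, Set.finite_range fun q : G ⧸ f.range => single q.out⁻¹ 1, top_unique fun x _ => by
      refine x.induction_linear (zero_mem _) (fun _ _ => add_mem) fun g r => ?_
      obtain ⟨⟨_, k, rfl⟩, hk⟩ := QuotientGroup.mk_out_eq_mul f.range g⁻¹
      have := Submodule.smul_mem _ (single k r : ZG H) (Submodule.subset_span (R := ZG H)
        (Set.mem_range_self (f := fun q : G ⧸ f.range => (single q.out⁻¹ 1 : ZG G)) ↑g⁻¹))
      simpa [e, hk, single_mul_single] using this⟩⟩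
  exact isNoetherian_of_tower (ZG H) (inferInstance : IsNoetherian (ZG H) (ZG G))

theorem En_stab {α : Type} [PartialOrder α] [WellFoundedGT α] (a : ℕ → ℕ → α)
    (h : ∀ n n' d d', n ≤ n' → d ≤ d' → a n d ≤ a n' d') : ∃ N, ∀ n, N ≤ n → ∀ d, a N d = a n d := by
  obtain ⟨m, hm⟩ := WellFoundedGT.monotone_chain_condition
    ⟨fun n => a n n, fun n n' k => h _ _ _ _ k k⟩
  choose N hN using fun d => WellFoundedGT.monotone_chain_condition
    ⟨fun n => a n d, fun n n' k => h _ _ _ _ k le_rfl⟩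
  have k : ∀ n d, m ≤ n → m ≤ d → a n d = a m m := fun n d k k' => le_antisymm
    ((h _ _ _ _ le_sup_left le_sup_right).trans (hm _ (k.trans le_sup_left)).ge) (h _ _ _ _ k k')
  refine ⟨m ⊔ (Finset.range m).sup N, fun n hn d => ?_⟩
  rcases le_or_gt m d with l | l
  · rw [k _ _ le_sup_left l, k _ _ (le_sup_left.trans hn) l]
  · have l' := (Finset.le_sup (f := N) (Finset.mem_range.2 l)).trans (le_sup_right (a := m))
    exact (hN d _ l').symm.trans (hN d _ (l'.trans hn))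

/-- the elements of degree below `d` -/
def EnF {R S : Type} [Ring R] [Ring S] (φ : R →+* S) (t : S) (d : ℕ) : AddSubgroup S :=
  AddSubgroup.closure {x | ∃ i < d, ∃ r, x = t ^ i * φ r}

theorem En_skew {R S : Type} [Ring R] [Ring S] [IsNoetherianRing R] (φ : R →+* S) (t u : S)
    (hu : u * t = 1) (ha : ∀ i s, ∃ s', φ s * t ^ i = t ^ i * φ s')
    (hb : ∀ i s, ∃ s', φ s' * t ^ i = t ^ i * φ s) (he : ∀ x, ∃ n d, t ^ n * x ∈ EnF φ t d) :
    IsNoetherianRing S := by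
  have a1 : ∀ d s, ∀ y ∈ EnF φ t d, φ s * y ∈ EnF φ t d := fun d s y hy => by
    refine AddSubgroup.closure_induction ?_ (by simp) (fun _ _ _ _ k k' => ?_) (fun _ _ k => ?_) hy
    · rintro _ ⟨i, hi, r, rfl⟩
      obtain ⟨s', e⟩ := ha i s
      exact AddSubgroup.subset_closure ⟨i, hi, s' * r, by rw [← mul_assoc, e, mul_assoc, map_mul]⟩
    · exact mul_add (φ s) _ _ ▸ add_mem k k'
    · exact mul_neg (φ s) _ ▸ neg_mem k
  have a2 : ∀ d, ∀ y ∈ EnF φ t d, t * y ∈ EnF φ t (d + 1) := fun d y hy => by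
    refine AddSubgroup.closure_induction ?_ (by simp) (fun _ _ _ _ k k' => ?_) (fun _ _ k => ?_) hy
    · rintro _ ⟨i, hi, r, rfl⟩
      exact AddSubgroup.subset_closure ⟨i + 1, by omega, r, by rw [← mul_assoc, pow_succ']⟩
    · exact mul_add t _ _ ▸ add_mem k k'
    · exact mul_neg t _ ▸ neg_mem k
  have a3 : ∀ d, ∀ x ∈ EnF φ t (d + 1), ∃ r, ∃ y ∈ EnF φ t d, x = t ^ d * φ r + y := fun d x hx => by
    refine AddSubgroup.closure_induction ?_ ⟨0, 0, zero_mem _, by simp⟩ ?_ ?_ hx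
    · rintro _ ⟨i, hi, r, rfl⟩
      rcases (Nat.le_of_lt_succ hi).eq_or_lt with rfl | l
      · exact ⟨r, 0, zero_mem _, by simp⟩
      · exact ⟨0, _, AddSubgroup.subset_closure ⟨i, l, r, rfl⟩, by simp⟩
    · rintro _ _ _ _ ⟨r, y, k, rfl⟩ ⟨r', y', k', rfl⟩
      exact ⟨r + r', _, add_mem k k', by rw [map_add, mul_add, add_add_add_comm]⟩
    · rintro _ _ ⟨r, y, k, rfl⟩
      exact ⟨-r, _, neg_mem k, by rw [map_neg, mul_neg, neg_add]⟩
  let J : Ideal S → ℕ → Ideal R := fun I d =>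
    { carrier := {r | ∃ y ∈ EnF φ t d, t ^ d * φ r + y ∈ I}
      zero_mem' := ⟨0, zero_mem _, by simp⟩
      add_mem' := fun ⟨y, k, l⟩ ⟨y', k', l'⟩ => ⟨_, add_mem k k', by
        rw [map_add, mul_add, add_add_add_comm]
        exact add_mem l l'⟩
      smul_mem' := fun s r ⟨y, k, l⟩ => by
        obtain ⟨s', e⟩ := hb d s
        refine ⟨_, a1 d s' y k, ?_⟩
        rw [smul_eq_mul, map_mul, ← mul_assoc, ← e, mul_assoc, ← mul_add]
        exact I.mul_mem_left _ l }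
  have a4 : ∀ I, Monotone (J I) := fun I => monotone_nat_of_le_succ fun d r ⟨y, k, l⟩ =>
    ⟨_, a2 d y k, by
      rw [pow_succ', mul_assoc, ← mul_add]
      exact I.mul_mem_left _ l⟩
  refine monotone_stabilizes_iff_noetherian.1 fun I => ?_
  obtain ⟨N, hN⟩ := En_stab (fun n => J (I n)) fun n n' d d' k k' =>
    (a4 _ k').trans fun r ⟨y, l, l'⟩ => ⟨y, l, I.monotone k l'⟩
  refine ⟨N, fun n hn => le_antisymm (I.monotone hn) fun x hx => ?_⟩
  have a5 : ∀ d, ∀ x ∈ EnF φ t d, x ∈ I n → x ∈ I N := fun d => by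
    induction d with
    | zero =>
      intro x k _
      rw [show x = 0 by simpa [EnF] using k]
      exact zero_mem _
    | succ d ih =>
      intro x k l
      obtain ⟨r, y, k1, rfl⟩ := a3 d x k
      obtain ⟨y', k2, k3⟩ := (hN n hn d).ge (show r ∈ J (I n) d from ⟨y, k1, l⟩)
      have := add_mem k3 (ih _ (sub_mem k1 k2) (by simpa using sub_mem l (I.monotone hn k3)))
      simpa using this
  obtain ⟨m, d, k⟩ := he x
  have := Ideal.mul_mem_left (I N) (u ^ m) (a5 d _ k (Ideal.mul_mem_left _ _ hx))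
  rwa [← mul_assoc, pow_mul_pow_eq_one m hu, one_mul] at this

/-- The basis theorem. With `χ t` a generator of the image, the leading coefficients of the elements
of a left ideal `I` with degrees in `[0, d]` form left ideals `J d I`, monotone in `d` and `I`, and
`I ≤ I'` with equal `J d` are equal. -/
theorem no_cyc (χ : G →* Multiplicative ℤ) (h : IsNoetherianRing (ZG χ.ker)) :
    IsNoetherianRing (ZG G) := by
  obtain ⟨⟨_, t, rfl⟩, ht⟩ := IsCyclic.exists_generator (α := χ.range)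
  let φ := mapDomainRingHom ℤ χ.ker.subtype
  have c : ∀ (g : G) s, ∃ s', φ s' * single g 1 = single g 1 * φ s := fun g s => by
    refine s.induction_linear ⟨0, by simp⟩ (fun _ _ ⟨a, e⟩ ⟨b, e'⟩ => ⟨a + b, ?_⟩) fun k r =>
      ⟨single ⟨g * k * g⁻¹, χ.normal_ker.conj_mem _ k.2 g⟩ r, by simp [φ, single_mul_single]⟩
    rw [map_add, map_add, add_mul, mul_add, e, e']
  have m : ∀ n d d', n + d ≤ d' → ∀ y ∈ EnF φ (single t 1) d,
      single t 1 ^ n * y ∈ EnF φ (single t 1) d' := fun n d d' l y hy => by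
    refine AddSubgroup.closure_induction ?_ (by simp) (fun _ _ _ _ k k' => ?_) (fun _ _ k => ?_) hy
    · rintro _ ⟨i, hi, r, rfl⟩
      exact AddSubgroup.subset_closure ⟨n + i, by omega, r, by rw [← mul_assoc, pow_add]⟩
    · exact mul_add (single t 1 ^ n : ZG G) _ _ ▸ add_mem k k'
    · exact mul_neg (single t 1 ^ n : ZG G) _ ▸ neg_mem k
  refine En_skew φ (single t 1) (single t⁻¹ 1) (by simp [single_mul_single, one_def])
    (fun i s => ?_) (fun i s => by simpa using c (t ^ i) s) fun x => ?_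
  · obtain ⟨s', e⟩ := c (t ^ i)⁻¹ s
    refine ⟨s', ?_⟩
    have := congrArg (fun x => single (t ^ i) 1 * x * single (t ^ i) 1) e
    simpa [mul_assoc, single_mul_single, ← one_def, ← mul_assoc (single _ _ : ZG G) (single _ _)]
      using this.symm
  refine x.induction_linear ⟨0, 0, by simp⟩ (fun x y ⟨n, d, k⟩ ⟨n', d', k'⟩ =>
    ⟨n + n', n + n' + d + d', ?_⟩) fun g r => ?_
  · rw [mul_add]
    refine add_mem ?_ ?_
    · rw [add_comm n, pow_add, mul_assoc]
      exact m _ _ _ (by omega) _ k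
    · rw [pow_add, mul_assoc]
      exact m _ _ _ (by omega) _ k'
  obtain ⟨i, hi⟩ := ht ⟨χ g, g, rfl⟩
  have e : χ t ^ i = χ g := congrArg Subtype.val hi
  refine ⟨(-i).toNat, i.toNat + 1, AddSubgroup.subset_closure ⟨i.toNat, by omega,
    single ⟨(t ^ i)⁻¹ * g, by simp [← e]⟩ r, ?_⟩⟩
  have : t ^ (-i).toNat = t ^ i.toNat * (t ^ i)⁻¹ := by
    rw [← zpow_natCast, ← zpow_natCast, ← zpow_sub]
    congr 1
    omega
  simp [φ, single_mul_single, this, mul_assoc]

theorem no_pi (r : ℕ) : ∀ (G : Type) [Group G] (θ : G →* Multiplicative (Fin r → ℤ)),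
    IsNoetherianRing (ZG θ.ker) → IsNoetherianRing (ZG G) := by
  induction r with
  | zero =>
    intro G _ θ h
    have : θ.ker.subtype.range.FiniteIndex := by
      rw [Subgroup.range_subtype]
      infer_instance
    exact no_fin θ.ker.subtype h
  | succ r ih =>
    intro G _ θ h
    let χ : G →* Multiplicative ℤ := MonoidHom.mk'
      (fun g => Multiplicative.ofAdd ((θ g).toAdd 0)) fun g g' => by simp
    let θ' : χ.ker →* Multiplicative (Fin r → ℤ) := MonoidHom.mk'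
      (fun g => Multiplicative.ofAdd fun j => (θ g).toAdd j.succ) fun g g' => by
        ext j
        simp
    let f : θ.ker →* θ'.ker := MonoidHom.mk' (fun g => ⟨⟨g, congrFun g.2 0⟩,
      funext fun j => congrFun g.2 j.succ⟩) fun _ _ => rfl
    have : f.range.FiniteIndex := by
      rw [f.range_eq_top.2 fun g => ⟨⟨g, funext (Fin.cases g.1.2 (congrFun g.2))⟩, rfl⟩]
      infer_instance
    exact no_cyc χ (ih _ θ' (no_fin f h))

theorem no_of_pz (n : ℕ) : ∀ (G : Type) [Group G], PZ n G → IsNoetherianRing (ZG G) := by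
  induction n with
  | zero =>
    intro G _ h
    have : Finite G := h
    exact isNoetherian_of_tower ℤ (inferInstance : IsNoetherian ℤ (ZG G))
  | succ n ih =>
    rintro G _ ⟨Q, _, φ, r, ⟨A, θ, _, _, hθ⟩, h⟩
    have : (A.comap φ).subtype.range.FiniteIndex := by
      rw [Subgroup.range_subtype, ← QuotientGroup.ker_mk' A, MonoidHom.comap_ker]
      infer_instance
    refine no_fin (A.comap φ).subtype (no_pi r _ (θ.comp (φ.subgroupComap A)) (ih _ (h _
      ((A.comap φ).subtype.comp (Subgroup.subtype _))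
      (Subtype.val_injective.comp Subtype.val_injective) ?_)))
    refine (Set.finite_singleton 1).subset ?_
    rintro _ ⟨g, rfl⟩
    exact congrArg Subtype.val ((injective_iff_map_eq_one θ).1 hθ _ g.2)

end Pool.Agent.Work.MP_9d1ffa_al.WL
end
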