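import Mathlib

-- merged part: Pool.Agent.Work.MP_9d1ffa_al.WL.LtA
section
/-! Long thin covers: suprema, time weights and the greedy choice. -/

namespace Pool.Agent.Work.MP_9d1ffa_al.WL

open Set

theorem Lt_le_sup {α : Type*} {g : α → ℝ} (g1 : ∀ a, g a ≤ 1) (a : α) : g a ≤ ⨆ a, g a :=
  le_ciSup ⟨1, forall_mem_range.2 g1⟩ a

theorem Lt_sup_mem {α : Type*} {g : α → ℝ} (h : ∀ a, 0 ≤ g a ∧ g a ≤ 1) :
    0 ≤ ⨆ a, g a ∧ ⨆ a, g a ≤ 1 :=
  ⟨Real.iSup_nonneg fun a => (h a).1, Real.iSup_le (fun a => (h a).2) zero_le_one⟩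

theorem Lt_sup_le {α : Type*} {f g : α → ℝ} {ε : ℝ} (hε : 0 ≤ ε) (hg : ∀ a, 0 ≤ g a ∧ g a ≤ 1)
    (h : ∀ a, f a ≤ g a + ε) : ⨆ a, f a ≤ (⨆ a, g a) + ε :=
  Real.iSup_le (fun a => (h a).trans (add_le_add_left (Lt_le_sup (fun a => (hg a).2) a) ε))
    (add_nonneg (Lt_sup_mem hg).1 hε)

theorem Lt_sup_abs {α : Type*} {f g : α → ℝ} {ε : ℝ} (hε : 0 ≤ ε) (hf : ∀ a, 0 ≤ f a ∧ f a ≤ 1)
    (hg : ∀ a, 0 ≤ g a ∧ g a ≤ 1) (h : ∀ a, |f a - g a| ≤ ε) :
    |(⨆ a, f a) - ⨆ a, g a| ≤ ε := by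
  have h1 := Lt_sup_le hε hg fun a => show f a ≤ g a + ε by linarith [(abs_le.1 (h a)).2]
  have h2 := Lt_sup_le hε hf fun a => show g a ≤ f a + ε by linarith [(abs_le.1 (h a)).1]
  exact abs_le.2 ⟨by linarith, by linarith⟩

theorem Lt_sup_ne {α : Type*} {g : α → ℝ} (h : ⨆ a, g a ≠ 0) : ∃ a, g a ≠ 0 := by
  by_contra k
  push Not at k
  exact h (by simp [k])

theorem Lt_mul_mem {a b : ℝ} (ha : 0 ≤ a ∧ a ≤ 1) (hb : 0 ≤ b ∧ b ≤ 1) : 0 ≤ a * b ∧ a * b ≤ 1 :=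
  ⟨mul_nonneg ha.1 hb.1, mul_le_one₀ ha.2 hb.1 hb.2⟩

theorem Lt_mul_abs {a b a' b' x y : ℝ} (ha : 0 ≤ a ∧ a ≤ 1) (hb : 0 ≤ b' ∧ b' ≤ 1)
    (h1 : |a - a'| ≤ x) (h2 : |b - b'| ≤ y) : |a * b - a' * b'| ≤ x + y := by
  have e : a * b - a' * b' = (a - a') * b' + a * (b - b') := by ring
  rw [e]
  refine (abs_add_le _ _).trans (add_le_add ?_ ?_)
  · rw [abs_mul, abs_of_nonneg hb.1]
    exact (mul_le_of_le_one_right (abs_nonneg _) hb.2).trans h1
  · rw [abs_mul, abs_of_nonneg ha.1]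
    exact (mul_le_of_le_one_left (abs_nonneg _) ha.2).trans h2

section

variable {E : Type*} [NormedAddCommGroup E]

/-- the smallest value of a profile -/
noncomputable def tau (f : E → ℝ) : ℝ := ⨅ t, f t

/-- the time weight of a profile -/
noncomputable def kk (R : ℝ) (f : E → ℝ) : ℝ := ⨆ t, max 0 (1 - ‖t‖ / R) * min 1 (3 - f t)

theorem tau_le {f : E → ℝ} (h : ∀ t, 0 ≤ f t) (t : E) : tau f ≤ f t :=
  ciInf_le ⟨0, forall_mem_range.2 h⟩ t

theorem tau_lt {f : E → ℝ} {a : ℝ} (h : tau f < a) : ∃ t, f t < a := exists_lt_of_ciInf_lt h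

theorem tau_close {f g : E → ℝ} {ε : ℝ} (hf : ∀ t, 0 ≤ f t) (hg : ∀ t, 0 ≤ g t)
    (h : ∀ t, |f t - g t| ≤ ε) : |tau f - tau g| ≤ ε := by
  have h1 : tau f - ε ≤ tau g := le_ciInf fun t => by linarith [tau_le hf t, (abs_le.1 (h t)).2]
  have h2 : tau g - ε ≤ tau f := le_ciInf fun t => by linarith [tau_le hg t, (abs_le.1 (h t)).1]
  exact abs_le.2 ⟨by linarith, by linarith⟩

theorem tau_shift (f : E → ℝ) (s : E) : tau (fun t => f (t + s)) = tau f :=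
  (Equiv.addRight s).surjective.iInf_comp f

theorem Lt_tent {R : ℝ} (hR : 0 < R) (t : E) :
    0 ≤ max 0 (1 - ‖t‖ / R) ∧ max 0 (1 - ‖t‖ / R) ≤ 1 :=
  ⟨le_max_left _ _, max_le zero_le_one (sub_le_self _ (by positivity))⟩

theorem Lt_min {a : ℝ} (h : a ≤ 3) : 0 ≤ min 1 (3 - a) ∧ min 1 (3 - a) ≤ 1 :=
  ⟨le_min zero_le_one (by linarith), min_le_left _ _⟩

theorem kk_mem {R : ℝ} (hR : 0 < R) {f : E → ℝ} (h : ∀ t, f t ≤ 3) : 0 ≤ kk R f ∧ kk R f ≤ 1 :=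
  Lt_sup_mem fun t => Lt_mul_mem (Lt_tent hR t) (Lt_min (h t))

theorem kk_ne {R : ℝ} (hR : 0 < R) {f : E → ℝ} (h : ∀ t, f t ≤ 3) (k : kk R f ≠ 0) :
    ∃ t, ‖t‖ < R ∧ f t < 3 := by
  obtain ⟨t, ht⟩ := Lt_sup_ne k
  refine ⟨t, lt_of_not_ge fun e => ht ?_, lt_of_not_ge fun e => ht ?_⟩
  · rw [max_eq_left (sub_nonpos.2 ((one_le_div hR).2 e)), zero_mul]
  · rw [le_antisymm (h t) e, sub_self, min_eq_right zero_le_one, mul_zero]

theorem kk_ge {R : ℝ} (hR : 0 < R) {f : E → ℝ} (h : ∀ t, f t ≤ 3) {t : E} (ht : f t ≤ 2) :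
    1 - ‖t‖ / R ≤ kk R f := by
  refine le_trans ?_ (Lt_le_sup (fun t => (Lt_mul_mem (Lt_tent hR t) (Lt_min (h t))).2) t)
  rw [min_eq_left (by linarith), mul_one]
  exact le_max_right _ _

theorem kk_half {R : ℝ} (hR : 0 < R) {f : E → ℝ} (h : ∀ t, f t ≤ 3) {t : E} (ht : f t ≤ 2)
    (k : 2 * ‖t‖ ≤ R) : 1 / 2 ≤ kk R f := by
  refine le_trans ?_ (kk_ge hR h ht)
  have : ‖t‖ / R ≤ 1 / 2 := by rw [div_le_iff₀ hR]; linarith
  linarith

theorem kk_close {R ε : ℝ} (hR : 0 < R) {f g : E → ℝ} (hf : ∀ t, f t ≤ 3) (hg : ∀ t, g t ≤ 3)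
    (h : ∀ t, |f t - g t| ≤ ε) : |kk R f - kk R g| ≤ ε := by
  refine Lt_sup_abs ((abs_nonneg _).trans (h 0))
    (fun t => Lt_mul_mem (Lt_tent hR t) (Lt_min (hf t)))
    (fun t => Lt_mul_mem (Lt_tent hR t) (Lt_min (hg t))) fun t => ?_
  have k : |min 1 (3 - f t) - min 1 (3 - g t)| ≤ ε := by
    refine (abs_min_sub_min_le_max _ _ _ _).trans (max_le ?_ ?_)
    · simpa using (abs_nonneg _).trans (h 0)
    · rw [show 3 - f t - (3 - g t) = -(f t - g t) by ring, abs_neg]; exact h t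
  simpa using Lt_mul_abs (x := 0) (Lt_tent hR t) (Lt_min (hg t)) (by simp) k

theorem kk_shift {R : ℝ} (hR : 0 < R) {f : E → ℝ} (hf : ∀ t, f t ≤ 3) (s : E) :
    |kk R (fun t => f (t + s)) - kk R f| ≤ ‖s‖ / R := by
  have e : kk R f = ⨆ t, max 0 (1 - ‖t + s‖ / R) * min 1 (3 - f (t + s)) :=
    ((Equiv.addRight s).surjective.iSup_comp
      fun t => max 0 (1 - ‖t‖ / R) * min 1 (3 - f t)).symm
  rw [e]
  refine Lt_sup_abs (by positivity) (fun t => Lt_mul_mem (Lt_tent hR t) (Lt_min (hf _)))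
    (fun t => Lt_mul_mem (Lt_tent hR _) (Lt_min (hf _))) fun t => ?_
  have k : |max 0 (1 - ‖t‖ / R) - max 0 (1 - ‖t + s‖ / R)| ≤ ‖s‖ / R := by
    refine (abs_max_sub_max_le_max _ _ _ _).trans (max_le ?_ ?_)
    · simpa using (by positivity : 0 ≤ ‖s‖ / R)
    · rw [show 1 - ‖t‖ / R - (1 - ‖t + s‖ / R) = (‖t + s‖ - ‖t‖) / R by ring, abs_div,
        abs_of_pos hR]
      gcongr
      simpa using abs_norm_sub_norm_le (t + s) t
  simpa using Lt_mul_abs (y := 0) (b := min 1 (3 - f (t + s))) (Lt_tent hR t) (Lt_min (hf (t + s)))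
    k (by simp)

end

/-- a cut-off that detects values `v` near the threshold `θ` with time weight `u` -/
noncomputable def bt (δ θ u v : ℝ) : ℝ := max 0 (min 1 (min (2 * u) (2 - |v - θ| / δ)))

theorem bt_mem (δ θ u v : ℝ) : 0 ≤ bt δ θ u v ∧ bt δ θ u v ≤ 1 :=
  ⟨le_max_left _ _, max_le zero_le_one (min_le_left _ _)⟩

theorem bt_close {δ θ u v u' v' ε : ℝ} (hδ : 0 < δ) (h1 : 2 * |u - u'| ≤ ε)
    (h2 : |v - v'| ≤ ε * δ) : |bt δ θ u v - bt δ θ u' v'| ≤ ε := by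
  have h0 : 0 ≤ ε := le_trans (by positivity) h1
  refine (abs_max_sub_max_le_max _ _ _ _).trans (max_le (by simpa using h0) ?_)
  refine (abs_min_sub_min_le_max _ _ _ _).trans (max_le (by simpa using h0) ?_)
  refine (abs_min_sub_min_le_max _ _ _ _).trans (max_le ?_ ?_)
  · rwa [← mul_sub, abs_mul, abs_two]
  · rw [show 2 - |v - θ| / δ - (2 - |v' - θ| / δ) = (|v' - θ| - |v - θ|) / δ by ring, abs_div,
      abs_of_pos hδ, div_le_iff₀ hδ]
    refine (abs_abs_sub_abs_le_abs_sub _ _).trans ?_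
    rwa [sub_sub_sub_cancel_right, abs_sub_comm]

theorem bt_zero {δ θ u v : ℝ} (hδ : 0 < δ) (h : u = 0 ∨ 2 * δ ≤ |v - θ|) : bt δ θ u v = 0 := by
  refine max_eq_left ((min_le_right _ _).trans ?_)
  rcases h with h | h
  · exact (min_le_left _ _).trans (by simp [h])
  · exact (min_le_right _ _).trans (sub_nonpos.2 ((le_div_iff₀ hδ).2 h))

theorem bt_lt {δ θ u v : ℝ} (hδ : 0 < δ) (hu : 1 / 2 ≤ u) (h : bt δ θ u v < 1) : δ < |v - θ| := by
  by_contra k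
  have k' : |v - θ| / δ ≤ 1 := (div_le_one hδ).2 (le_of_not_gt k)
  exact absurd h (not_lt.2 (le_max_of_le_right
    (le_min le_rfl (le_min (by linarith) (by linarith)))))

section

variable {C : Type*}

/-- the greedy choice: `c` is present and no related candidate of smaller rank is chosen -/
def Act (rel : C → C → Prop) (rk : C → ℕ) (P : C → Prop) (c : C) : Prop :=
  P c ∧ ∀ c', rel c' c → rk c' < rk c → ¬Act rel rk P c'
termination_by rk c

theorem act_iff {rel : C → C → Prop} {rk : C → ℕ} {P : C → Prop} {c : C} :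
    Act rel rk P c ↔ P c ∧ ∀ c', rel c' c → rk c' < rk c → ¬Act rel rk P c' := by
  rw [Act]

theorem act_equiv {rel : C → C → Prop} {rk : C → ℕ} {P P' : C → Prop} (e : C ≃ C)
    (h1 : ∀ c c', rel (e c) (e c') ↔ rel c c') (h2 : ∀ c, rk (e c) = rk c)
    (h3 : ∀ c, P' (e c) ↔ P c) (c : C) : Act rel rk P' (e c) ↔ Act rel rk P c := by
  induction hn : rk c using Nat.strong_induction_on generalizing c with
  | _ n ih =>
    rw [act_iff, act_iff (c := c), h3, e.surjective.forall]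
    refine and_congr_right fun _ => forall_congr' fun c' => ?_
    rw [h1, h2, h2]
    exact imp_congr_right fun _ => imp_congr_right fun k => not_congr (ih _ (hn ▸ k) c' rfl)

theorem act_local {rel : C → C → Prop} {rk : C → ℕ} {P P' : C → Prop} (V : ℕ → C → Prop)
    (h1 : ∀ n c, V n c → (P c ↔ P' c))
    (h2 : ∀ n c c', V (n + 1) c → P c → P' c → rel c' c → P c' ∨ P' c' → V n c')
    (n : ℕ) (c : C) (hc : V n c) (hn : rk c ≤ n) : Act rel rk P c ↔ Act rel rk P' c := by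
  induction n generalizing c with
  | zero =>
    rw [act_iff, act_iff (P := P'), h1 _ c hc]
    refine and_congr_right fun _ => forall_congr' fun c' => ?_
    exact imp_congr_right fun _ => imp_congr_right fun k => by omega
  | succ n ih =>
    rw [act_iff, act_iff (P := P'), ← h1 _ c hc]
    refine and_congr_right fun hp => forall_congr' fun c' => ?_
    refine imp_congr_right fun hr => imp_congr_right fun k => not_congr ?_
    by_cases hq : P c' ∨ P' c'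
    · exact ih c' (h2 n c c' hc hp ((h1 _ c hc).1 hp) hr hq) (by omega)
    · exact iff_of_false (fun a => hq (Or.inl (act_iff.1 a).1))
        fun a => hq (Or.inr (act_iff.1 a).1)

end

end Pool.Agent.Work.MP_9d1ffa_al.WL
end

-- merged part: Pool.Agent.Work.MP_9d1ffa_al.WL.LtB
section
/-! Long thin covers: the weight of a profile. -/

namespace Pool.Agent.Work.MP_9d1ffa_al.WL

open Set

/-- candidates with ranks, atoms and thresholds -/
structure Lay (C Ω σ : Type*) where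
  rel : C → C → Prop
  rk : C → ℕ
  atm : C → Ω
  q : ℝ
  M : ℕ
  θ : σ → C → ℝ
  δ : ℝ
  symm : ∀ c c', rel c c' → rel c' c
  rkM : ∀ c, rk c ≤ M
  same : ∀ c c', rel c c' → rk c = rk c' → atm c = atm c'
  q2 : 2 ≤ q
  δ0 : 0 < δ
  δ1 : 2 * δ ≤ 1
  θ1 : ∀ s c, 1 < θ s c
  θ2 : ∀ s c, θ s c + 2 * δ ≤ 2

/-- the size of the large time window -/
def LtR (q : ℝ) (M : ℕ) : ℝ := 2 * (2 * q + (2 * M + 1) * (q + 1))

theorem LtR_ge {q : ℝ} (h : 2 ≤ q) (M : ℕ) : 4 * q ≤ LtR q M := by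
  have : 0 ≤ (2 * (M : ℝ) + 1) * (q + 1) := by positivity
  unfold LtR; linarith

open Classical in
/-- `x` if `P` holds and zero otherwise -/
noncomputable def ite0 (P : Prop) (x : ℝ) : ℝ := if P then x else 0

theorem ite0_abs {P Q : Prop} {x y ε : ℝ} (h : P ↔ Q) (k : |x - y| ≤ ε) :
    |ite0 P x - ite0 Q y| ≤ ε := by
  obtain rfl := propext h
  unfold ite0
  split_ifs
  exacts [k, by simpa using (abs_nonneg _).trans k]

namespace Lay

variable {C Ω σ E : Type*} [NormedAddCommGroup E] (X : Lay C Ω σ)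

/-- profiles that are coherent in time -/
structure Prof (p : C → E → ℝ) : Prop where
  p0 : ∀ c t, 0 ≤ p c t
  p3 : ∀ c t, p c t ≤ 3
  rl : ∀ c c' t t', p c t < 3 → p c' t' < 3 → ‖t - t'‖ ≤ X.q → X.rel c c'
  tco : ∀ c c' t t', X.rel c c' → p c t < 3 → p c' t' < 3 → ‖t - t'‖ ≤ X.q + 1

/-- how close the profile is to the threshold of the system `s` -/
noncomputable def bad (s : σ) (p : C → E → ℝ) : ℝ :=
  ⨆ c, bt X.δ (X.θ s c) (kk (LtR X.q X.M) (p c)) (tau (p c))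

/-- the candidates chosen in the system `s` -/
def act (s : σ) (p : C → E → ℝ) (c : C) : Prop := Act X.rel X.rk (fun c => tau (p c) < X.θ s c) c

/-- the time weight of a chosen candidate with atom `a` -/
noncomputable def w0 (s : σ) (p : C → E → ℝ) (a : Ω) (c : C) : ℝ :=
  ite0 (X.act s p c ∧ X.atm c = a) (kk (2 * X.q) (p c))

/-- the weight -/
noncomputable def W (p : C → E → ℝ) (a : Ω) : ℝ := ⨆ s, (1 - X.bad s p) * ⨆ c, X.w0 s p a c

theorem r0 : 0 < 2 * X.q := by linarith [X.q2]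

theorem R0 : 0 < LtR X.q X.M := by linarith [X.q2, LtR_ge X.q2 X.M]

theorem bad_mem (s : σ) (p : C → E → ℝ) : 0 ≤ 1 - X.bad s p ∧ 1 - X.bad s p ≤ 1 := by
  have := Lt_sup_mem fun c => bt_mem X.δ (X.θ s c) (kk (LtR X.q X.M) (p c)) (tau (p c))
  unfold bad
  exact ⟨by linarith [this.2], by linarith [this.1]⟩

variable {X} {p p' : C → E → ℝ}

theorem w0_mem (h : ∀ c t, p c t ≤ 3) (s : σ) (a : Ω) (c : C) :
    0 ≤ X.w0 s p a c ∧ X.w0 s p a c ≤ 1 := by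
  unfold w0 ite0
  split_ifs
  exacts [kk_mem X.r0 (h c), ⟨le_rfl, zero_le_one⟩]

theorem w1_mem (h : ∀ c t, p c t ≤ 3) (a : Ω) (s : σ) :
    0 ≤ (1 - X.bad s p) * ⨆ c, X.w0 s p a c ∧ (1 - X.bad s p) * ⨆ c, X.w0 s p a c ≤ 1 :=
  Lt_mul_mem (X.bad_mem s p) (Lt_sup_mem (w0_mem h s a))

theorem W_mem (h : ∀ c t, p c t ≤ 3) (a : Ω) : 0 ≤ X.W p a ∧ X.W p a ≤ 1 :=
  Lt_sup_mem (w1_mem h a)

theorem W_equiv (e : C ≃ C) (φ : Ω → Ω) (hφ : Function.Injective φ)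
    (h1 : ∀ c c', X.rel (e c) (e c') ↔ X.rel c c') (h2 : ∀ c, X.rk (e c) = X.rk c)
    (h3 : ∀ c, X.atm (e c) = φ (X.atm c)) (h4 : ∀ c, p' (e c) = p c)
    (h5 : ∀ s c, X.θ s (e c) = X.θ s c) (a : Ω) :
    X.W p' (φ a) = X.W p a := by
  refine iSup_congr fun s => ?_
  have k1 : X.bad s p' = X.bad s p := by
    unfold bad
    rw [← e.surjective.iSup_comp]
    simp only [h4, h5]
  have k2 : ∀ c, X.w0 s p' (φ a) (e c) = X.w0 s p a c := fun c => by
    have k : X.act s p' (e c) ↔ X.act s p c := act_equiv e h1 h2 (fun c => by rw [h4, h5]) c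
    simp only [w0, k, h3, h4, hφ.eq_iff]
  rw [k1, ← e.surjective.iSup_comp (X.w0 s p' (φ a))]
  simp only [k2]

theorem W_shift (h : ∀ c t, p c t ≤ 3) (u : E) (a : Ω) :
    |X.W (fun c t => p c (t + u)) a - X.W p a| ≤ ‖u‖ / X.q := by
  have q0 : 0 < X.q := by linarith [X.q2]
  have h' : ∀ c t, (fun c t => p c (t + u)) c t ≤ 3 := fun c t => h c _
  refine Lt_sup_abs (by positivity) (w1_mem h' a) (w1_mem h a) fun s => ?_
  have k1 : |(1 - X.bad s fun c t => p c (t + u)) - (1 - X.bad s p)| ≤ ‖u‖ / (2 * X.q) := by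
    rw [sub_sub_sub_cancel_left, abs_sub_comm]
    refine Lt_sup_abs (by positivity) (fun _ => bt_mem ..) (fun _ => bt_mem ..) fun c => ?_
    refine bt_close X.δ0 ?_ ?_
    · have k := kk_shift X.R0 (h c) u
      have k' : ‖u‖ / LtR X.q X.M ≤ ‖u‖ / (4 * X.q) := by gcongr; exact LtR_ge X.q2 _
      have e : ‖u‖ / (2 * X.q) = 2 * (‖u‖ / (4 * X.q)) := by field_simp; ring
      linarith
    · rw [tau_shift, sub_self, abs_zero]
      have := X.δ0
      positivity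
  have k2 : |(⨆ c, X.w0 s (fun c t => p c (t + u)) a c) - ⨆ c, X.w0 s p a c| ≤
      ‖u‖ / (2 * X.q) := by
    refine Lt_sup_abs (by positivity) (w0_mem h' s a) (w0_mem h s a) fun c => ?_
    have k : X.act s (fun c t => p c (t + u)) c ↔ X.act s p c := by simp only [act, tau_shift]
    exact ite0_abs (and_congr_left' k) (kk_shift X.r0 (h c) u)
  refine (Lt_mul_abs (X.bad_mem s _) (Lt_sup_mem (w0_mem h s a)) k1 k2).trans ?_
  exact le_of_eq (by field_simp; ring)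

theorem w0_ne (h : ∀ c t, p c t ≤ 3) {s : σ} {a : Ω} {c : C} (k : X.w0 s p a c ≠ 0) :
    X.act s p c ∧ X.atm c = a ∧ ∃ t, ‖t‖ < 2 * X.q ∧ p c t < 3 := by
  unfold w0 ite0 at k
  split_ifs at k with e
  exacts [⟨e.1, e.2, kk_ne X.r0 (h c) k⟩, absurd rfl k]

theorem W_ne (h : ∀ c t, p c t ≤ 3) {a : Ω} (k : X.W p a ≠ 0) :
    ∃ s c, X.act s p c ∧ X.atm c = a ∧ ∃ t, ‖t‖ < 2 * X.q ∧ p c t < 3 := by
  obtain ⟨s, hs⟩ := Lt_sup_ne k
  obtain ⟨c, hc⟩ := Lt_sup_ne (right_ne_zero_of_mul hs)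
  exact ⟨s, c, w0_ne h hc⟩

theorem act_same {s : σ} {c c' : C} (h : X.act s p c) (h' : X.act s p c') (k : X.rel c c') :
    X.atm c = X.atm c' := by
  refine X.same c c' k (le_antisymm (le_of_not_gt fun e => ?_) (le_of_not_gt fun e => ?_))
  exacts [(act_iff.1 h).2 c' (X.symm _ _ k) e h', (act_iff.1 h').2 c k e h]

theorem W_big (h : X.Prof p) {c : C} (hc : p c 0 ≤ 1) {s : σ}
    (hs : ∀ c, kk (LtR X.q X.M) (p c) = 0 ∨ 2 * X.δ ≤ |tau (p c) - X.θ s c|) :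
    ∃ a, 1 / 4 ≤ X.W p a := by
  have k0 : X.bad s p = 0 := by simp only [bad, fun c => bt_zero X.δ0 (hs c), Real.iSup_const_zero]
  obtain ⟨c', t, h1, h2, h3⟩ : ∃ c' t, X.act s p c' ∧ p c' t ≤ 2 ∧ ‖t‖ ≤ X.q + 1 := by
    by_cases k : X.act s p c
    · exact ⟨c, 0, k, by linarith, by rw [norm_zero]; linarith [X.q2]⟩
    · have hp : tau (p c) < X.θ s c := (tau_le (h.p0 c) 0).trans_lt (hc.trans_lt (X.θ1 s c))
      have k' : ¬∀ c', X.rel c' c → X.rk c' < X.rk c → ¬X.act s p c' :=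
        fun e => k (act_iff.2 ⟨hp, e⟩)
      push Not at k'
      obtain ⟨c', r1, -, r2⟩ := k'
      obtain ⟨t, ht⟩ := tau_lt (act_iff.1 r2).1
      have ht' : p c' t < 2 := by linarith [X.θ2 s c', X.δ0]
      exact ⟨c', t, r2, ht'.le, by simpa using h.tco c' c t 0 r1 (by linarith) (by linarith)⟩
  refine ⟨X.atm c', le_trans ?_ (Lt_le_sup (fun s => (w1_mem h.p3 _ s).2) s)⟩
  rw [k0, sub_zero, one_mul]
  refine le_trans ?_ (Lt_le_sup (fun c => (w0_mem h.p3 s _ c).2) c')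
  rw [w0, ite0, if_pos ⟨h1, rfl⟩]
  refine le_trans ?_ (kk_ge X.r0 (h.p3 c') h2)
  have : ‖t‖ / (2 * X.q) ≤ 3 / 4 := by rw [div_le_iff₀ X.r0]; linarith [X.q2]
  linarith

theorem Prof.self (h : X.Prof p) {c : C} {t t' : E} (k : p c t < 3) (k' : p c t' < 3) :
    ‖t‖ ≤ ‖t'‖ + (X.q + 1) := by
  have := h.tco c c t t' (h.rl c c t t k k (by rw [sub_self, norm_zero]; linarith [X.q2])) k k'
  linarith [norm_sub_norm_le t t']

theorem act_close (h : X.Prof p) (h' : X.Prof p') {s : σ} (hb : X.bad s p < 1)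
    (cl : ∀ c t, ‖t‖ ≤ LtR X.q X.M → p c t < 3 ∨ p' c t < 3 → ∀ u, |p c u - p' c u| ≤ X.δ)
    {c : C} {t : E} (ht : ‖t‖ ≤ 2 * X.q) (hc : p c t < 3 ∨ p' c t < 3) :
    X.act s p c ↔ X.act s p' c := by
  have q2 := X.q2
  have d0 := X.δ0
  have d1 := X.δ1
  have t2 := X.θ2 s
  have key : ∀ (n : ℕ) c t, ‖t‖ ≤ 2 * X.q + 2 * (X.M - n) * (X.q + 1) →
      p c t < 3 ∨ p' c t < 3 → (∀ u, |p c u - p' c u| ≤ X.δ) ∧
      ∀ u, p c u < 2 → ‖u‖ ≤ ‖t‖ + (X.q + 1) ∧ p' c u < 3 ∧ 2 * ‖u‖ ≤ LtR X.q X.M := by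
    intro n c t ht hc
    have e1 : 0 ≤ (n : ℝ) * (X.q + 1) := by positivity
    have e2 : 2 * (‖t‖ + (X.q + 1)) ≤ LtR X.q X.M := by unfold LtR; nlinarith
    have k := cl c t (by linarith [norm_nonneg t]) hc
    refine ⟨k, fun u hu => ?_⟩
    have hu' : p' c u < 3 := by linarith [(abs_le.1 (k u)).1]
    have : ‖u‖ ≤ ‖t‖ + (X.q + 1) :=
      hc.elim (fun e => h.self (by linarith) e) fun e => h'.self hu' e
    exact ⟨this, hu', by linarith⟩
  refine act_local (fun n c => ∃ t, ‖t‖ ≤ 2 * X.q + 2 * (X.M - n) * (X.q + 1) ∧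
    (p c t < 3 ∨ p' c t < 3)) ?_ ?_ X.M c ⟨t, by simpa using ht, hc⟩ (X.rkM c)
  · rintro n c ⟨t, ht, hc⟩
    obtain ⟨k1, k2⟩ := key n c t ht hc
    have k3 := abs_le.1 (tau_close (h.p0 c) (h'.p0 c) k1)
    have k4 : X.δ < |tau (p c) - X.θ s c| := by
      by_cases e : tau (p c) < 2
      · obtain ⟨u, hu⟩ := tau_lt e
        exact bt_lt d0 (kk_half X.R0 (h.p3 c) hu.le (k2 u hu).2.2)
          (lt_of_le_of_lt (Lt_le_sup (g := fun c => bt X.δ (X.θ s c) (kk (LtR X.q X.M) (p c))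
            (tau (p c))) (fun c => (bt_mem _ _ _ _).2) c) hb)
      · exact lt_abs.2 (Or.inl (by linarith [t2 c]))
    rcases lt_abs.1 k4 with k4 | k4
    · exact iff_of_false (by linarith) (by linarith)
    · exact iff_of_true (by linarith) (by linarith)
  · rintro n c c' ⟨t, ht, hc⟩ hp - hr hq
    obtain ⟨u, hu⟩ := tau_lt hp
    obtain ⟨k1, k2, -⟩ := (key _ c t ht hc).2 u (by linarith [t2 c])
    have k3 : ∀ v, ‖v - u‖ ≤ X.q + 1 → ‖v‖ ≤ 2 * X.q + 2 * (X.M - n) * (X.q + 1) := fun v hv => by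
      push_cast at ht
      linarith [norm_sub_norm_le v u]
    rcases hq with hq | hq
    · obtain ⟨v, hv⟩ := tau_lt hq
      exact ⟨v, k3 v (h.tco c' c v u hr (by linarith [t2 c']) (by linarith [t2 c])),
        Or.inl (by linarith [t2 c'])⟩
    · obtain ⟨v, hv⟩ := tau_lt hq
      exact ⟨v, k3 v (h'.tco c' c v u hr (by linarith [t2 c']) k2), Or.inr (by linarith [t2 c'])⟩

theorem W_close (h : X.Prof p) (h' : X.Prof p') {ε : ℝ} (e0 : 0 ≤ ε) (e1 : ε ≤ 1)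
    (cl : ∀ c t, ‖t‖ ≤ LtR X.q X.M → p c t < 3 ∨ p' c t < 3 → ∀ u, |p c u - p' c u| ≤ ε * X.δ)
    (a : Ω) : |X.W p a - X.W p' a| ≤ 2 * ε := by
  have d0 := X.δ0
  have d1 := X.δ1
  have e2 : 2 * (ε * X.δ) ≤ ε := by nlinarith
  have e3 : ε * X.δ ≤ X.δ := by nlinarith
  have e4 : 0 ≤ ε * X.δ := by positivity
  have kz : ∀ {R : ℝ} c, 0 < R → R ≤ LtR X.q X.M → (kk R (p c) = 0 ∧ kk R (p' c) = 0) ∨
      ((∃ t, ‖t‖ ≤ R ∧ (p c t < 3 ∨ p' c t < 3)) ∧ ∀ u, |p c u - p' c u| ≤ ε * X.δ) := by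
    intro R c hR hR'
    refine or_iff_not_imp_left.2 fun k => ?_
    obtain ⟨t, k1, k2⟩ : ∃ t, ‖t‖ < R ∧ (p c t < 3 ∨ p' c t < 3) := by
      rcases not_and_or.1 k with k | k
      · exact (kk_ne hR (h.p3 c) k).imp fun t e => ⟨e.1, Or.inl e.2⟩
      · exact (kk_ne hR (h'.p3 c) k).imp fun t e => ⟨e.1, Or.inr e.2⟩
    exact ⟨⟨t, k1.le, k2⟩, cl c t (by linarith) k2⟩
  refine Lt_sup_abs (by positivity) (w1_mem h.p3 a) (w1_mem h'.p3 a) fun s => ?_
  have k1 : |(1 - X.bad s p) - (1 - X.bad s p')| ≤ ε := by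
    rw [sub_sub_sub_cancel_left, abs_sub_comm]
    refine Lt_sup_abs e0 (fun _ => bt_mem ..) (fun _ => bt_mem ..) fun c => ?_
    rcases kz c X.R0 le_rfl with ⟨k, k'⟩ | ⟨-, k⟩
    · rw [bt_zero d0 (Or.inl k), bt_zero d0 (Or.inl k')]
      simpa using e0
    · exact bt_close d0 (by linarith [kk_close X.R0 (h.p3 c) (h'.p3 c) k])
        (tau_close (h.p0 c) (h'.p0 c) k)
  by_cases hb : X.bad s p < 1
  · have k2 : |(⨆ c, X.w0 s p a c) - ⨆ c, X.w0 s p' a c| ≤ ε := by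
      refine Lt_sup_abs e0 (w0_mem h.p3 s a) (w0_mem h'.p3 s a) fun c => ?_
      rcases kz c X.r0 (by linarith [LtR_ge X.q2 X.M, X.r0]) with ⟨k, k'⟩ | ⟨⟨t, r1, r2⟩, k⟩
      · simpa [w0, ite0, k, k'] using e0
      · exact ite0_abs (and_congr_left'
          (act_close h h' hb (fun c t a b u => (cl c t a b u).trans e3) r1 r2))
          (by linarith [kk_close X.r0 (h.p3 c) (h'.p3 c) k])
    linarith [Lt_mul_abs (X.bad_mem s p) (Lt_sup_mem (w0_mem h'.p3 s a)) k1 k2]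
  · have k2 : 1 - X.bad s p = 0 := by linarith [(X.bad_mem s p).1]
    rw [k2, zero_sub, abs_neg, abs_of_nonneg (X.bad_mem s p').1] at k1
    rw [k2, zero_mul, zero_sub, abs_neg, abs_of_nonneg (w1_mem h'.p3 a s).1]
    linarith [mul_le_of_le_one_right (X.bad_mem s p').1 (Lt_sup_mem (w0_mem (X := X) h'.p3 s a)).2]

theorem W_card {ι : Type*} [Fintype ι] [Fintype σ] {p : C → (ι → ℝ) → ℝ} (h : X.Prof p) :
    (Function.support (X.W p)).encard ≤ (Fintype.card σ * 5 ^ Fintype.card ι : ℕ) := by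
  classical
  have q0 : 0 < X.q := by linarith [X.q2]
  choose s c h1 h2 t h3 h4 using fun a : Function.support (X.W p) => W_ne h.p3 a.2
  have hm : ∀ a j, ⌊t a j / X.q⌋ ∈ Finset.Icc (-2 : ℤ) 2 := fun a j => by
    have k := abs_lt.1 ((norm_le_pi_norm (t a) j).trans_lt (h3 a))
    rw [Finset.mem_Icc, Int.le_floor, ← Int.lt_add_one_iff, Int.floor_lt, le_div_iff₀ q0,
      div_lt_iff₀ q0]
    push_cast
    constructor <;> linarith [k.1, k.2]
  have hi : Function.Injective fun a => (s a, fun j => (⟨_, hm a j⟩ : Finset.Icc (-2 : ℤ) 2)) := by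
    intro a a' e
    have e1 : s a = s a' := congrArg Prod.fst e
    have e2 : ‖t a - t a'‖ ≤ X.q := (pi_norm_le_iff_of_nonneg q0.le).2 fun j => by
      have k := Int.abs_sub_lt_one_of_floor_eq_floor
        (congrArg Subtype.val (congrFun (congrArg Prod.snd e) j))
      rw [← sub_div, abs_div, abs_of_pos q0, div_lt_one q0] at k
      exact k.le
    exact Subtype.ext (by
      rw [← h2 a, ← h2 a', act_same (h1 a) (e1 ▸ h1 a') (h.rl _ _ _ _ (h4 a) (h4 a') e2)])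
  have k := ENat.card_le_card_of_injective hi
  rw [ENat.card_eq_coe_fintype_card (α := σ × _), Fintype.card_prod, Fintype.card_fun,
    Fintype.card_coe, Int.card_Icc] at k
  exact k

end Lay

end Pool.Agent.Work.MP_9d1ffa_al.WL
end
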