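import Pool.Agent.Work.MP_9d1ffa_al.WL.En
import Pool.Agent.Work.MP_9d1ffa_al.GN.DomW
import Mathlib
import Pool.Agent.Work.MP_9d1ffa_al.WL.LtB
import Pool.Agent.Work.MP_9d1ffa_al.GN.Cl
import Pool.Agent.Work.MP_9d1ffa_al.GN.AlE

-- merged part: Pool.Agent.Work.MP_9d1ffa_al.WL.BS
section
/-! Closure properties of the base class. -/

namespace Pool.Agent.Work.MP_9d1ffa_al.WL

variable {c : ℕ} {G Q : Type} [Group G] [Group Q]

theorem finiteIndex_comap (φ : G →* Q) (H : Subgroup Q) [H.FiniteIndex] :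
    (H.comap φ).FiniteIndex := by
  refine ⟨?_⟩
  rw [Subgroup.index_comap]
  exact (inferInstance : (H.subgroupOf φ.range).FiniteIndex).index_ne_zero

theorem comm_map (φ : G →* Q) {x : G} (hx : x ∈ commutator G) : φ x ∈ commutator Q := by
  have : (commutator G).map φ ≤ commutator Q := by
    rw [commutator_def, Subgroup.map_commutator]
    exact Subgroup.commutator_mono le_top le_top
  exact this ⟨x, hx, rfl⟩

theorem Sc.of_ker (φ : G →* Q) (h : Sc c Q) (h1 : ∀ a ∈ φ.ker, ∀ b ∈ φ.ker, a * b = b * a)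
    (h2 : ∀ a ∈ φ.ker, a ^ c = 1) : Sc c G := by
  obtain ⟨H, hf, hs, ht⟩ := h
  let χ : H.comap φ →* H := φ.subgroupComap H
  have hk : ∀ x : H.comap φ, χ x = 1 → (x : G) ∈ φ.ker := fun x e =>
    congrArg (fun y : H => (y : Q)) e
  refine ⟨H.comap φ, finiteIndex_comap φ H, ?_, fun hc x hx => ?_⟩
  · have : Group.IsSolvable χ.ker := Group.isSolvable_of_comm fun a b =>
      Subtype.ext (Subtype.ext (h1 _ (hk _ a.2) _ (hk _ b.2)))
    exact Group.isSolvable_of_ker_le_range χ.ker.subtype χ (Subgroup.range_subtype _).ge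
  · obtain ⟨m, hm, e⟩ := isOfFinOrder_iff_pow_eq_one.1 (ht hc _ (comm_map χ hx))
    refine isOfFinOrder_iff_pow_eq_one.2 ⟨m * c, Nat.mul_pos hm (Nat.pos_of_ne_zero hc), ?_⟩
    rw [pow_mul]
    exact Subtype.ext (h2 _ (hk (x ^ m) (by rw [map_pow, e])))

theorem Sc.inj (φ : G →* Q) (hφ : Function.Injective φ) (h : Sc c Q) : Sc c G := by
  have : ∀ a ∈ φ.ker, a = 1 := fun a ha => hφ (by rw [map_one]; exact ha)
  exact h.of_ker φ (fun a ha b hb => by rw [this a ha, this b hb]) fun a ha => by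
    rw [this a ha, one_pow]

theorem Sc.sub (h : Sc c G) (H : Subgroup G) : Sc c H := h.inj H.subtype H.subtype_injective

theorem Sc.mono {H H' : Subgroup G} (h : Sc c H') (e : H ≤ H') : Sc c H :=
  h.inj (Subgroup.inclusion e) (Subgroup.inclusion_injective e)

theorem Sc.fin (H : Subgroup G) (hH : H.FiniteIndex) (h : Sc c H) : Sc c G := by
  obtain ⟨L, hf, hs, ht⟩ := h
  let e := L.equivMapOfInjective H.subtype H.subtype_injective
  refine ⟨L.map H.subtype, ⟨?_⟩, Group.isSolvable_of_isSolvable_injective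
    (f := e.symm.toMonoidHom) e.symm.injective, fun hc x hx => ?_⟩
  · rw [Subgroup.index_map_subtype]
    exact Nat.mul_ne_zero hf.index_ne_zero hH.index_ne_zero
  · have := e.toMonoidHom.isOfFinOrder (ht hc _ (comm_map e.symm.toMonoidHom hx))
    rwa [show e.toMonoidHom (e.symm.toMonoidHom x) = x from e.apply_symm_apply x] at this

theorem sc_comm (h : ∀ a b : G, a * b = b * a) : Sc c G := by
  have h' : ∀ a b : (⊤ : Subgroup G), a * b = b * a := fun a b => Subtype.ext (h _ _)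
  refine ⟨⊤, inferInstance, Group.isSolvable_of_comm h', fun _ x hx => ?_⟩
  have : commutator (⊤ : Subgroup G) ≤ ⊥ := by
    rw [commutator_def, Subgroup.commutator_le]
    intro a _ b _
    rw [Subgroup.mem_bot, commutatorElement_eq_one_iff_mul_comm]
    exact h' a b
  rw [Subgroup.mem_bot.1 (this hx)]
  exact IsOfFinOrder.one

theorem sc_finite [Finite G] : Sc c G :=
  Sc.fin ⊥ inferInstance (sc_comm fun _ _ => Subsingleton.elim _ _)

theorem sc_solvable (h : Group.IsSolvable G) : Sc 0 G :=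
  ⟨⊤, inferInstance, inferInstance, fun e => absurd rfl e⟩

theorem Sc.prod (h : Sc c G) (h' : Sc c Q) : Sc c (G × Q) := by
  obtain ⟨H, hf, hs, ht⟩ := h
  obtain ⟨H', hf', hs', ht'⟩ := h'
  let e := H.prodEquiv H'
  refine ⟨H.prod H', ⟨?_⟩, Group.isSolvable_of_isSolvable_injective
    (f := e.toMonoidHom) e.injective, fun hc x hx => ?_⟩
  · rw [Subgroup.index_prod]
    exact Nat.mul_ne_zero hf.index_ne_zero hf'.index_ne_zero
  · have k1 := ht hc _ (comm_map ((MonoidHom.fst _ _).comp e.toMonoidHom) hx)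
    have k2 := ht' hc _ (comm_map ((MonoidHom.snd _ _).comp e.toMonoidHom) hx)
    have k3 : IsOfFinOrder (e x) := IsOfFinOrder.prod_mk k1 k2
    have := e.symm.toMonoidHom.isOfFinOrder k3
    rwa [show e.symm.toMonoidHom (e x) = x from e.symm_apply_apply x] at this

/-- In a torsion free group the subgroup of finite index is commutative. -/
theorem Sc.tf (h : Sc c G) (hc : c ≠ 0) (tf : ∀ g : G, IsOfFinOrder g → g = 1) :
    ∃ H : Subgroup G, H.FiniteIndex ∧ ∀ a ∈ H, ∀ b ∈ H, a * b = b * a := by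
  obtain ⟨H, hf, -, ht⟩ := h
  refine ⟨H, hf, fun a ha b hb => ?_⟩
  have k := ht hc _ (Subgroup.commutator_mem_commutator (Subgroup.mem_top (⟨a, ha⟩ : H))
    (Subgroup.mem_top (⟨b, hb⟩ : H)))
  have := tf _ (H.subtype.isOfFinOrder k)
  rw [map_commutatorElement, commutatorElement_eq_one_iff_mul_comm] at this
  exact this

/-- finite products, for a class that is closed under products and embeddings -/
theorem pi_ind {P : (G : Type) → [Group G] → Prop}
    (triv : ∀ (G : Type) [Group G], Subsingleton G → P G)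
    (inj : ∀ (G H : Type) [Group G] [Group H] (φ : G →* H), Function.Injective φ → P H → P G)
    (prod : ∀ (G H : Type) [Group G] [Group H], P G → P H → P (G × H))
    {ι : Type} [Finite ι] (G : ι → Type) [∀ i, Group (G i)] (h : ∀ i, P (G i)) :
    P (∀ i, G i) := by
  revert G
  refine Finite.induction_empty_option (P := fun ι => ∀ (G : ι → Type) [∀ i, Group (G i)],
    (∀ i, P (G i)) → P (∀ i, G i)) ?_ ?_ ?_ ι
  · intro α β e ih G _ h
    refine inj _ _ (MonoidHom.pi fun a => Pi.evalMonoidHom G (e a)) (fun x y hxy => ?_)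
      (ih (fun a => G (e a)) fun a => h (e a))
    funext b
    obtain ⟨a, rfl⟩ := e.surjective b
    exact congrFun hxy a
  · intro G _ _
    exact triv _ inferInstance
  · intro α _ ih G _ h
    refine inj _ _ ((Pi.evalMonoidHom G none).prod
      (MonoidHom.pi fun a => Pi.evalMonoidHom G (some a))) (fun x y hxy => ?_)
      (prod _ _ (h none) (ih (fun a => G (some a)) fun a => h (some a)))
    funext b
    cases b with
    | none => exact congrArg Prod.fst hxy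
    | some a => exact congrFun (congrArg Prod.snd hxy) a

theorem Sc.pi {ι : Type} [Finite ι] (G : ι → Type) [∀ i, Group (G i)] (h : ∀ i, Sc c (G i)) :
    Sc c (∀ i, G i) :=
  pi_ind (P := fun G _ => Sc c G) (fun _ _ _ => sc_comm fun _ _ => Subsingleton.elim _ _)
    (fun _ _ _ _ φ hφ h => h.inj φ hφ) (fun _ _ _ _ => Sc.prod) G h

end Pool.Agent.Work.MP_9d1ffa_al.WL
end

-- merged part: Pool.Agent.Work.MP_9d1ffa_al.WL.BR
section
/-! The fibred statements satisfy the closure rules. -/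

namespace Pool.Agent.Work.MP_9d1ffa_al.WL

variable {W 𝒮 : (G : Type) → [Group G] → Prop} {c : ℕ} {G Q F : Type} [Group G] [Group Q] [Group F]

theorem Rl.comap (h : Rl W 𝒮 Q) (θ : G →* Q) (hθ : ∀ M : Subgroup G, 𝒮 (M.map θ) → 𝒮 M) :
    Rl W 𝒮 G := fun K _ φ k => h K (θ.comp φ) fun L e => k L (hθ _ (by rwa [Subgroup.map_map]))

theorem Rl.ker (h : Rl W (Sc c) Q) (θ : G →* Q) (h1 : ∀ a ∈ θ.ker, ∀ b ∈ θ.ker, a * b = b * a)
    (h2 : ∀ a ∈ θ.ker, a ^ c = 1) : Rl W (Sc c) G :=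
  h.comap θ fun M e => by
    have hk : ∀ x : M, x ∈ (θ.subgroupMap M).ker → (x : G) ∈ θ.ker := fun x e =>
      congrArg (fun y : M.map θ => (y : Q)) e
    exact e.of_ker (θ.subgroupMap M) (fun a ha b hb => Subtype.ext (h1 _ (hk _ ha) _ (hk _ hb)))
      fun a ha => Subtype.ext (h2 _ (hk _ ha))

theorem Rl.inj (h : Rl W (Sc c) Q) (θ : G →* Q) (hθ : Function.Injective θ) : Rl W (Sc c) G :=
  h.comap θ fun M e => e.inj (M.equivMapOfInjective θ hθ).toMonoidHom (MulEquiv.injective _)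

/-- Apply a fibred statement to a subgroup `L` of `K`. -/
theorem Rl.apply (hW : WB W) (h : Rl W 𝒮 Q) {K : Type} [Group K] (L : Subgroup K) (φ : L →* Q)
    (k : ∀ L' : Subgroup L, 𝒮 (L'.map φ) → W (L'.map L.subtype)) : W L :=
  h L φ fun L' e => hW.iso _ _ (L'.equivMapOfInjective _ L.subtype_injective).symm (k L' e)

theorem rl_base (hW : WB W) (h : Sc c Q) : Rl W (Sc c) Q := fun _ _ _ k =>
  hW.iso _ _ Subgroup.topEquiv (k ⊤ (h.sub _))

theorem Rl.prod (hW : WB W) (h : Rl W (Sc c) G) (h' : Rl W (Sc c) Q) : Rl W (Sc c) (G × Q) := by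
  intro K _ φ k
  refine h K ((MonoidHom.fst G Q).comp φ) fun L e => ?_
  refine h'.apply hW L (((MonoidHom.snd G Q).comp φ).comp L.subtype) fun L' e' => k _ ?_
  refine ((e.prod e').inj (Subgroup.prodEquiv _ _).toMonoidHom (MulEquiv.injective _)).mono ?_
  rintro _ ⟨_, ⟨x, hx, rfl⟩, rfl⟩
  exact ⟨⟨x, x.2, rfl⟩, ⟨x, hx, rfl⟩⟩

/-- the map of wreath products -/
def wmap (F : Type) [Group F] (φ : G →* Q) : G ≀ᵣ F →* Q ≀ᵣ F where
  toFun g := ⟨fun q => φ (g.left q), g.right⟩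
  map_one' := RegularWreathProduct.ext (funext fun _ => map_one φ) rfl
  map_mul' _ _ := RegularWreathProduct.ext (funext fun _ => map_mul φ _ _) rfl

theorem wmap_ker {φ : G →* Q} {g : G ≀ᵣ F} (h : g ∈ (wmap F φ).ker) :
    g.right = 1 ∧ ∀ q, g.left q ∈ φ.ker :=
  ⟨congrArg RegularWreathProduct.right h, fun q =>
    congrFun (congrArg RegularWreathProduct.left h) q⟩

theorem wmap_inj {φ : G →* Q} (h : Function.Injective φ) : Function.Injective (wmap F φ) :=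
  fun _ _ e => RegularWreathProduct.ext
    (funext fun q => h (congrFun (congrArg RegularWreathProduct.left e) q))
    (congrArg (fun x : Q ≀ᵣ F => x.right) e)

/-- the coordinates on the base group -/
def wleft (G F : Type) [Group G] [Group F] :
    (RegularWreathProduct.rightHom : G ≀ᵣ F →* F).ker →* (F → G) where
  toFun g := g.1.left
  map_one' := rfl
  map_mul' a b := by
    have : a.1.right = 1 := a.2
    change a.1.left * (fun x => b.1.left (a.1.right⁻¹ * x)) = _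
    simp only [this, inv_one, one_mul]

theorem wleft_inj : Function.Injective (wleft G F) := fun a b e =>
  Subtype.ext (RegularWreathProduct.ext e (Eq.trans a.2 (Eq.symm b.2)))

theorem Sc.wreath [Finite F] (h : Sc c G) : Sc c (G ≀ᵣ F) :=
  Sc.fin (RegularWreathProduct.rightHom : G ≀ᵣ F →* F).ker inferInstance
    ((Sc.pi (fun _ : F => G) fun _ => h).inj (wleft G F) wleft_inj)

/-- the embedding of Kaloujnine and Krasner -/
theorem exists_kk (N : Subgroup G) [N.Normal] :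
    ∃ θ : G →* N ≀ᵣ (G ⧸ N), Function.Injective θ := by
  have hm : ∀ (g : G) (q : G ⧸ N), q.out⁻¹ * g * (((g : G ⧸ N))⁻¹ * q).out ∈ N := fun g q => by
    rw [← QuotientGroup.eq_one_iff]
    simp
  refine ⟨{ toFun := fun g => ⟨fun q => ⟨_, hm g q⟩, (g : G ⧸ N)⟩
            map_one' := RegularWreathProduct.ext (funext fun q => Subtype.ext (by simp)) rfl
            map_mul' := fun a b => RegularWreathProduct.ext (funext fun q => Subtype.ext (by
              simp [mul_assoc])) rfl }, (injective_iff_map_eq_one _).2 fun g e => ?_⟩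
  have e1 : (g : G ⧸ N) = 1 := congrArg RegularWreathProduct.right e
  have e2 : (1 : G ⧸ N).out⁻¹ * g * (((g : G ⧸ N))⁻¹ * 1).out = 1 :=
    congrArg (fun x : N ≀ᵣ (G ⧸ N) => (x.left 1 : G)) e
  rw [e1, inv_one, one_mul] at e2
  simpa [mul_assoc, inv_mul_eq_one] using e2

theorem PW.inj (h : PW W (Sc c) Q) (θ : G →* Q) (hθ : Function.Injective θ) : PW W (Sc c) G :=
  fun F _ _ => (h F).inj (wmap F θ) (wmap_inj hθ)

theorem PW.prod (hW : WB W) (h : PW W (Sc c) G) (h' : PW W (Sc c) Q) : PW W (Sc c) (G × Q) :=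
  fun F _ _ => (Rl.prod hW (h F) (h' F)).inj
    ((wmap F (MonoidHom.fst G Q)).prod (wmap F (MonoidHom.snd G Q))) fun _ _ e =>
      RegularWreathProduct.ext (funext fun q => Prod.ext
        (congrFun (congrArg (fun x => x.1.left) e) q) (congrFun (congrArg (fun x => x.2.left) e) q))
        (congrArg (fun x => x.1.right) e)

theorem pw_base (hW : WB W) (h : Sc c Q) : PW W (Sc c) Q := fun _ _ _ => rl_base hW h.wreath

theorem PW.pi (hW : WB W) {ι : Type} [Finite ι] (G : ι → Type) [∀ i, Group (G i)]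
    (h : ∀ i, PW W (Sc c) (G i)) : PW W (Sc c) (∀ i, G i) :=
  pi_ind (P := fun G _ => PW W (Sc c) G)
    (fun _ _ _ => pw_base hW (sc_comm fun _ _ => Subsingleton.elim _ _))
    (fun _ _ _ _ φ hφ h => h.inj φ hφ) (fun _ _ _ _ => PW.prod hW) G h

theorem PW.rl_fin (h : PW W (Sc c) Q) (M : Subgroup G) (hM : M.FiniteIndex) (θ : M →* Q)
    (hθ : Function.Injective θ) : Rl W (Sc c) G := by
  obtain ⟨κ, hκ⟩ := exists_kk M.normalCore
  exact (h.inj (θ.comp (Subgroup.inclusion M.normalCore_le))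
    (hθ.comp (Subgroup.inclusion_injective _)) (G ⧸ M.normalCore)).inj κ hκ

/-- A subgroup of a wreath product that is virtually inside a product of groups in the class. -/
theorem GoodW.rl (hW : WB W) [Finite F] {Fam : Subgroup G → Prop}
    (hF : ∀ H, Fam H → PW W (Sc c) H) {H : Subgroup (G ≀ᵣ F)} (h : GoodW Fam H) :
    Rl W (Sc c) H := by
  obtain ⟨H₀, hf, h⟩ := h
  choose H' h1 h2 using h
  let r : H →* F := RegularWreathProduct.rightHom.comp H.subtype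
  let ι : (H₀ ⊓ r.ker : Subgroup H) →* (RegularWreathProduct.rightHom : G ≀ᵣ F →* F).ker :=
    (H.subtype.comp (Subgroup.subtype _)).codRestrict _ fun g => g.2.2
  refine (PW.pi hW (fun q => H' q) fun q => hF _ (h1 q)).rl_fin (H₀ ⊓ r.ker) inferInstance
    (MonoidHom.pi fun q => ((Pi.evalMonoidHom _ q).comp ((wleft G F).comp ι)).codRestrict _
      fun g => h2 q g g.2.1 g.2.2) fun a b e => ?_
  have : ι a = ι b := wleft_inj (funext fun q => congrArg Subtype.val (congrFun e q))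
  exact Subtype.ext (Subtype.ext (congrArg (fun x => (x.1 : G ≀ᵣ F)) this))

theorem goodW_top [Finite F] (H : Subgroup G) (hH : H.FiniteIndex) :
    GoodW (fun H' => H' = H) (⊤ : Subgroup (G ≀ᵣ F)) := by
  let B := (RegularWreathProduct.rightHom : G ≀ᵣ F →* F).ker
  let M : Subgroup B := ⨅ q : F, H.comap ((Pi.evalMonoidHom _ q).comp (wleft G F))
  have h1 : M.FiniteIndex := Subgroup.finiteIndex_iInf fun q => finiteIndex_comap _ H
  have h2 : (M.map B.subtype).FiniteIndex := ⟨by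
    rw [Subgroup.index_map_subtype]
    exact Nat.mul_ne_zero h1.index_ne_zero Subgroup.FiniteIndex.index_ne_zero⟩
  refine ⟨(M.map B.subtype).comap (Subgroup.subtype _), finiteIndex_comap _ _,
    fun q => ⟨H, rfl, ?_⟩⟩
  rintro ⟨g, -⟩ ⟨x, hx, rfl⟩ -
  exact Subgroup.mem_iInf.1 hx q

theorem PW.loc (hW : WB W) (h : ∀ H : Subgroup G, H.FG → PW W (Sc c) H) : PW W (Sc c) G := by
  classical
  intro F _ _ K _ φ k
  have := Fintype.ofFinite F
  refine hW.loc K fun T => ?_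
  let U : Finset G := (T ×ˢ (Finset.univ : Finset F)).image fun p => (φ p.1).left p.2
  let θ := wmap F (Subgroup.closure (U : Set G)).subtype
  have hθ : Function.Injective θ := wmap_inj (Subgroup.subtype_injective _)
  have hle : Subgroup.closure (T : Set K) ≤ θ.range.comap φ := (Subgroup.closure_le _).2 fun t ht =>
    ⟨⟨fun q => ⟨(φ t).left q, Subgroup.subset_closure (Finset.mem_coe.2 (Finset.mem_image.2
      ⟨(t, q), Finset.mem_product.2 ⟨ht, Finset.mem_univ _⟩, rfl⟩))⟩, (φ t).right⟩, rfl⟩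
  let ψ : Subgroup.closure (T : Set K) →* _ := (MonoidHom.ofInjective hθ).symm.toMonoidHom.comp
    ((φ.comp (Subgroup.subtype _)).codRestrict θ.range fun x => hle x.2)
  have hψ : θ.comp ψ = φ.comp (Subgroup.subtype _) := MonoidHom.ext fun x =>
    MonoidHom.apply_ofInjective_symm hθ _
  refine (h _ ⟨U, rfl⟩ F).apply hW _ ψ fun L e => k _ ?_
  rw [Subgroup.map_map, ← hψ, ← Subgroup.map_map]
  exact e.inj ((L.map ψ).equivMapOfInjective θ hθ).symm.toMonoidHom (MulEquiv.injective _)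

theorem closed2_pw (hW : WB W) (c : ℕ) : Closed2 c (PW W (Sc c)) where
  base _ _ := pw_base hW
  loc _ _ := PW.loc hW
  fin G _ H hH h F _ _ := (GoodW.rl hW (fun _ e => e ▸ h) (goodW_top H hH)).inj
    Subgroup.topEquiv.symm.toMonoidHom (MulEquiv.injective _)
  prod _ _ _ _ := PW.prod hW
  ker G Q _ _ φ h h1 h2 F _ _ := by
    let ι : (wmap F φ).ker →* (RegularWreathProduct.rightHom : G ≀ᵣ F →* F).ker :=
      Subgroup.inclusion fun g hg => (wmap_ker hg).1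
    have hι : Function.Injective ((wleft G F).comp ι) :=
      wleft_inj.comp (Subgroup.inclusion_injective _)
    refine (h F).ker (wmap F φ) (fun a ha b hb => ?_) fun a ha => ?_
    · have : (⟨a, ha⟩ * ⟨b, hb⟩ : (wmap F φ).ker) = ⟨b, hb⟩ * ⟨a, ha⟩ := hι (by
        rw [map_mul, map_mul]
        exact funext fun q => h1 _ ((wmap_ker ha).2 q) _ ((wmap_ker hb).2 q))
      exact congrArg Subtype.val this
    · have : (⟨a, ha⟩ ^ c : (wmap F φ).ker) = 1 := hι (by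
        rw [map_pow, map_one]
        exact funext fun q => h2 _ ((wmap_ker ha).2 q))
      exact congrArg Subtype.val this
  geo G _ Fam hF h F _ _ K _ φ k := hW.thmA _ _ (h F) K φ fun L e =>
    (e.rl hW hF).apply hW L (φ.subgroupMap L) fun L' e' => k _ (e'.inj
      (((L'.map L.subtype).map φ).subtype.codRestrict (L.map φ) (by
        rintro ⟨_, _, ⟨x, -, rfl⟩, rfl⟩
        exact ⟨x, x.2, rfl⟩) |>.codRestrict _ (by
        rintro ⟨_, _, ⟨x, hx, rfl⟩, rfl⟩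
        exact ⟨x, hx, rfl⟩)) fun a b e => Subtype.ext (congrArg (fun x => x.1.1) e))

/-- from the class to the group itself -/
theorem PW.w (h : PW W (Sc c) Q) (φ : G →* Q) (hφ : Function.Injective φ)
    (k : ∀ L : Subgroup G, Sc c L → W L) : W G :=
  (h.rl_fin (G := G) ⊤ inferInstance (φ.comp (Subgroup.subtype _))
    (hφ.comp (Subgroup.subtype_injective _))) G (MonoidHom.id G) fun L e => k L (by
      rwa [Subgroup.map_id] at e)

end Pool.Agent.Work.MP_9d1ffa_al.WL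
end

-- merged part: Pool.Agent.Work.MP_9d1ffa_al.WL.CuD
section
/-! Flow spaces with uniform geometry: definitions. -/

namespace Pool.Agent.Work.MP_9d1ffa_al.WL

variable {F J : Type} [Fintype J]

/-- A flow `Φ` that commutes with `G`; `N ρ δ x y` says that the flow lines of `x` and `y` are
`δ`-close on the time window of radius `ρ`. -/
structure Flw (G : Type) [Group G] [MulAction G F] (Φ : (J → ℝ) → F → F)
    (N : ℝ → ℝ → F → F → Prop) : Prop where
  zero : ∀ x, Φ 0 x = x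
  add : ∀ s t x, Φ (s + t) x = Φ s (Φ t x)
  smul : ∀ (g : G) s x, Φ s (g • x) = g • Φ s x
  refl : ∀ ρ x, N ρ 0 x x
  symm : ∀ {ρ δ x y}, N ρ δ x y → N ρ δ y x
  trans : ∀ {ρ δ δ' x y z}, N ρ δ x y → N ρ δ' y z → N ρ (δ + δ') x z
  mono : ∀ {ρ ρ' δ δ' x y}, N ρ δ x y → ρ' ≤ ρ → δ ≤ δ' → N ρ' δ' x y
  inv : ∀ {ρ δ x y} (g : G), N ρ δ x y → N ρ δ (g • x) (g • y)
  flow : ∀ {ρ r δ x y s}, N (ρ + r) δ x y → ‖s‖ ≤ r → N ρ δ (Φ s x) (Φ s y)
  move : ∀ ρ s x, N ρ ‖s‖ (Φ s x) x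
  speed : ∀ {δ s x}, N 0 δ (Φ s x) x → ‖s‖ ≤ δ

/-- Uniform polynomial covering numbers. -/
def Cvr (N : ℝ → ℝ → F → F → Prop) (D : ℕ) : Prop :=
  ∀ ρ B : ℝ, ∃ C : ℕ, ∀ k : ℕ, 1 ≤ k → ∀ x : F, ∃ col : F → Fin (C * k ^ D),
    ∀ y y', N 0 B x y → N 0 B x y' → col y = col y' → N ρ (1 / k) y y'

/-- Uniformly bounded multiplicity of the orbits of points of `Θ`. -/
def Mlt (G : Type) [Group G] [MulAction G F] (N : ℝ → ℝ → F → F → Prop) (Θ : Set F) : Prop :=
  ∀ B : ℝ, ∃ M : ℕ, ∀ x ∈ Θ, {y | (∃ g : G, y = g • x) ∧ N 0 B x y}.encard ≤ M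

/-- Elements that almost translate along a flow line generate a good subgroup. -/
def Gd {G : Type} [Group G] [MulAction G F] (Good : Subgroup G → Prop) (Φ : (J → ℝ) → F → F)
    (N : ℝ → ℝ → F → F → Prop) (Θ : Set F) : Prop :=
  ∀ r : ℝ, ∃ ρ η : ℝ, 0 < η ∧ ∀ x ∈ Θ,
    Good (Subgroup.closure {g | ∃ s, ‖s‖ ≤ r ∧ N ρ η (Φ s x) (g • x)})

/-- Weights with at most `M` atoms, good stabilisers and a large atom on `Θ` that are almost
invariant under the flow. -/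
def Cvw {G : Type} [Group G] [MulAction G F] (Good : Subgroup G → Prop) (Φ : (J → ℝ) → F → F)
    (N : ℝ → ℝ → F → F → Prop) (Θ : Set F) (M : ℕ) (ε κ : ℝ) : Prop :=
  ∃ (ρ δ : ℝ) (Ω : Type) (_ : MulAction G Ω) (W : F → Ω → ℝ), 0 < δ ∧
    (∀ x ω, 0 ≤ W x ω ∧ W x ω ≤ 1) ∧ (∀ x, (Function.support (W x)).encard ≤ M) ∧
    (∀ x ω, W x ω ≠ 0 → Good (MulAction.stabilizer G ω)) ∧ (∀ x ∈ Θ, ∃ ω, 1 / 4 ≤ W x ω) ∧
    ∀ (g : G) x x' s, ‖s‖ ≤ κ → N ρ δ (g • Φ s x) x' → Cl ε g (W x) (W x')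

end Pool.Agent.Work.MP_9d1ffa_al.WL
end

-- merged part: Pool.Agent.Work.MP_9d1ffa_al.WL.Cd
section
/-! Places, frames and local transfer data: definitions. -/

namespace Pool.Agent.Work.MP_9d1ffa_al.WL

open Real Matrix
open GN (V Le Nr act cl Red wb)

section

variable {E : Type} [Field E] {n : ℕ}

/-- monotone norms on the non-negative vectors -/
structure Nm (nm : (Fin n → ℝ) → ℝ) : Prop where
  mono : ∀ u w : Fin n → ℝ, (∀ j, 0 ≤ u j) → (∀ j, u j ≤ w j) → nm u ≤ nm w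
  sm : ∀ (c : ℝ) (u : Fin n → ℝ), 0 ≤ c → (∀ j, 0 ≤ u j) → nm (fun j => c * u j) = c * nm u
  ad : ∀ u w : Fin n → ℝ, (∀ j, 0 ≤ u j) → (∀ j, 0 ≤ w j) → nm (u + w) ≤ nm u + nm w
  one : ∀ j, nm (Pi.single j 1) = 1

/-- the supremum norm -/
noncomputable def ns (u : Fin n → ℝ) : ℝ := ⨆ j, u j

/-- the Euclidean norm -/
noncomputable def n2 (u : Fin n → ℝ) : ℝ := √(∑ j, u j ^ 2)

/-- the norm for which the columns of `f` are orthogonal of sizes `exp (β j)` -/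
noncomputable def dn (a : AbsoluteValue E ℝ) (nm : (Fin n → ℝ) → ℝ) (f : GL (Fin n) E)
    (β : Fin n → ℝ) : V n E → ℝ :=
  fun x => nm fun j => a (((f⁻¹ : GL (Fin n) E).1 *ᵥ x) j) * exp (β j)

/-- Elements of all sizes up to a bounded factor, and polynomial covering numbers. -/
structure Dbl (a : AbsoluteValue E ℝ) : Prop where
  nt : ∃ c : ℝ, ∀ u : ℝ, ∃ z, exp u ≤ a z ∧ a z ≤ exp (u + c)
  cov : ∃ D : ℕ, ∀ B : ℝ, ∃ C : ℕ, ∀ k : ℕ, 1 ≤ k → ∀ u : ℝ, ∃ col : E → Fin (C * k ^ D),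
    ∀ z z', a z ≤ exp (u + B) → a z' ≤ exp (u + B) → col z = col z' → a (z - z') ≤ exp u / k

/-- the usual absolute value -/
noncomputable def ac : AbsoluteValue ℂ ℝ := IsAbsoluteValue.toAbsoluteValue norm

/-- The relative positions `α`, `α'` are close and the flats of the frames `x`, `x'` are close. -/
def RF (a : AbsoluteValue E ℝ) (nm : (Fin n → ℝ) → ℝ) (κ r δ Γ : ℝ) (g : GL (Fin n) E)
    (α α' : Fin n → ℝ) (x x' : (Fin n → Fin n) → GL (Fin n) E × (Fin n → ℝ)) : Prop :=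
  (∀ j, |α j - α' j| ≤ κ) ∧ ∀ b : Fin n → Fin n, 0 < wb Γ (fun _ : Unit => α) (fun _ => b) →
    0 < wb Γ (fun _ : Unit => α') (fun _ => b) → ∃ s : Fin n → ℝ, ‖s‖ ≤ κ ∧ ∀ t : Fin n → ℝ,
      ‖t‖ ≤ r → Nr δ (act g (dn a nm (x b).1 fun j => (x b).2 j + (t (b j) + s (b j))))
        (dn a nm (x' b).1 fun j => (x' b).2 j + t (b j))

/-- A homotopy action that is controlled by the relation `R`. -/
structure HD {Q Z : Type} [Group Q] [MetricSpace Z] (S : Finset Q) (φ : Q → Z → Z)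
    (Hm : Q → Q → Z → unitInterval → Z) (R : Q → Z → Z → Prop) : Prop where
  φ_cont : ∀ g ∈ S, Continuous (φ g)
  H_cont : ∀ g ∈ S, ∀ h ∈ S, Continuous fun p : Z × unitInterval => Hm g h p.1 p.2
  H_zero : ∀ g ∈ S, ∀ h ∈ S, ∀ x, Hm g h x 0 = φ g (φ h x)
  H_one : ∀ g ∈ S, ∀ h ∈ S, ∀ x, Hm g h x 1 = φ (g * h) x
  near : ∃ δ : ℝ, 0 < δ ∧ ∀ x y, dist x y ≤ δ → R 1 x y
  φ_rel : ∀ g ∈ S, ∀ x, R g x (φ g x)
  H_rel : ∀ g ∈ S, ∀ h ∈ S, ∀ x t, R (g * h) x (Hm g h x t)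

/-- Transfer data at one place. -/
def LD (a : AbsoluteValue E ℝ) (nm : (Fin n → ℝ) → ℝ) {G : Type} [Group G]
    (ρ : G →* GL (Fin n) E) : Prop :=
  ∃ N : ℕ, ∀ S : Finset G, ∃ κ : ℝ, 0 ≤ κ ∧ ∀ r δ : ℝ, 0 ≤ r → 0 < δ → ∃ Γ0 : ℝ, ∀ Γ : ℝ, Γ0 ≤ Γ →
    0 < Γ → ∃ (Z : Type) (_ : MetricSpace Z) (φ : G → Z → Z) (Hm : G → G → Z → unitInterval → Z)
      (α : Z → Fin n → ℝ) (x : Z → (Fin n → Fin n) → GL (Fin n) E × (Fin n → ℝ)),
      Grid N Z ∧ (∀ y, Monotone (α y)) ∧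
        HD S φ Hm fun g y z => RF a nm κ r δ Γ (ρ g) (α y) (α z) (x y) (x z)

end

/-- A place of `K` together with a model norm. -/
structure Pc (K : Type) [Field K] (n : ℕ) where
  E : Type
  [fld : Field E]
  a : AbsoluteValue E ℝ
  σ : K →+* E
  nm : (Fin n → ℝ) → ℝ
  hnm : Nm nm
  dbl : Dbl a

attribute [instance] Pc.fld

variable {K : Type} [Field K] {n : ℕ} {I J G : Type} [Group G]

/-- the representation at a place -/
def Pc.rp (p : Pc K n) (ρ : G →* GL (Fin n) K) : G →* GL (Fin n) p.E :=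
  (GeneralLinearGroup.map p.σ).comp ρ

/-- the absolute value on `K` -/
def Pc.av (p : Pc K n) : AbsoluteValue K ℝ := p.a.comp p.σ.injective

/-- frames at all places -/
def Fm (P : I → Pc K n) (_ρ : G →* GL (Fin n) K) : Type :=
  ∀ v, GL (Fin n) (P v).E × (Fin n → ℝ)

variable {P : I → Pc K n} {ρ : G →* GL (Fin n) K}

instance : MulAction G (Fm P ρ) where
  smul g x := fun v => ((P v).rp ρ g * (x v).1, (x v).2)
  one_smul x := funext fun v => by
    change ((P v).rp ρ 1 * (x v).1, (x v).2) = x v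
    rw [map_one, one_mul]
  mul_smul g h x := funext fun v => by
    change ((P v).rp ρ (g * h) * (x v).1, (x v).2) =
      ((P v).rp ρ g * ((P v).rp ρ h * (x v).1), (x v).2)
    rw [map_mul, mul_assoc]

theorem Fm.smul_apply (g : G) (x : Fm P ρ) (v : I) :
    (g • x) v = ((P v).rp ρ g * (x v).1, (x v).2) := rfl

/-- the norms defined by a frame -/
noncomputable def pt (x : Fm P ρ) (v : I) : V n (P v).E → ℝ :=
  dn (P v).a (P v).nm (x v).1 (x v).2

/-- the flow for the block map `bl` -/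
def fw (bl : I → Fin n → J) (s : J → ℝ) (x : Fm P ρ) : Fm P ρ :=
  fun v => ((x v).1, fun j => (x v).2 j + s (bl v j))

/-- closeness of flats on a window -/
def NN [Fintype J] (bl : I → Fin n → J) (r δ : ℝ) (x y : Fm P ρ) : Prop :=
  ∀ t : J → ℝ, ‖t‖ ≤ r → ∀ v, Nr δ (pt (fw bl t x) v) (pt (fw bl t y) v)

/-- the span of the short integral vectors -/
def Ws (A : Subring K) (s : ℝ) (x : Fm P ρ) : Submodule K (V n K) :=
  Submodule.span K {z | (∀ p, z p ∈ A) ∧ ∀ v, pt x v (fun p => (P v).σ (z p)) ≤ exp s}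

/-- the thick part -/
def Thk (P : I → Pc K n) (ρ : G →* GL (Fin n) K) (A : Subring K) (R : ℝ) : Set (Fm P ρ) :=
  {x | ∃ s, Ws A s x = ⊥ ∧ Ws A (s + R) x = ⊤}

/-- virtually reducible or with finite image -/
def VR (ρ : G →* GL (Fin n) K) (H : Subgroup G) : Prop :=
  ∃ H' : Subgroup G, H' ≤ H ∧ H'.relIndex H ≠ 0 ∧ (Red ρ H' ∨ H' ≤ ρ.ker)

end Pool.Agent.Work.MP_9d1ffa_al.WL
end

-- merged part: Pool.Agent.Work.MP_9d1ffa_al.WL.Ca
section
/-! Diagonal norms for a monotone model norm; the flow space of frames. -/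

namespace Pool.Agent.Work.MP_9d1ffa_al.WL

open Real Matrix
open GN (V Le Nr act cl Red wb)

section

variable {E : Type} [Field E] {n : ℕ} {a : AbsoluteValue E ℝ} {nm : (Fin n → ℝ) → ℝ}
  {f f' : GL (Fin n) E} {β β' α α' : Fin n → ℝ} {r : ℝ}

theorem Nm.nonneg (h : Nm nm) {u : Fin n → ℝ} (hu : ∀ j, 0 ≤ u j) : 0 ≤ nm u := by
  have e := h.sm 0 u le_rfl hu
  rw [zero_mul] at e
  exact e ▸ h.mono _ _ (fun j => by simp) fun j => by simpa using hu j

theorem Nm.le (h : Nm nm) {u : Fin n → ℝ} (hu : ∀ j, 0 ≤ u j) (j : Fin n) : u j ≤ nm u := by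
  have e := h.sm (u j) (Pi.single j 1) (hu j) fun i => by simp [Pi.single_apply, apply_ite]
  rw [h.one, mul_one] at e
  refine e ▸ h.mono _ _ (fun i => ?_) fun i => ?_ <;> by_cases k : i = j <;> simp [k, hu]

theorem Nm.le_sum (h : Nm nm) {u : Fin n → ℝ} (hu : ∀ j, 0 ≤ u j) : nm u ≤ ∑ j, u j := by
  have p : ∀ j i, (0 : ℝ) ≤ (Pi.single j (u j) : Fin n → ℝ) i := fun j i => by
    by_cases k : i = j <;> simp [k, hu]
  have k : ∀ s : Finset (Fin n), nm (∑ j ∈ s, Pi.single j (u j)) ≤ ∑ j ∈ s, u j := fun s => by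
    induction s using Finset.induction_on with
    | empty => simpa [Pi.zero_def] using (h.sm 0 u le_rfl hu).le
    | insert j s hj ih =>
      rw [Finset.sum_insert hj, Finset.sum_insert hj]
      refine (h.ad _ _ (p j) fun i => ?_).trans (add_le_add (le_of_eq ?_) ih)
      · rw [Finset.sum_apply]
        exact Finset.sum_nonneg fun l _ => p l i
      · have e := h.sm (u j) (Pi.single j 1) (hu j) fun i => by simp [Pi.single_apply, apply_ite]
        rw [h.one, mul_one] at e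
        refine Eq.trans ?_ e
        congr 1
        ext i
        simp [Pi.single_apply]
  simpa [Finset.univ_sum_single] using k Finset.univ

theorem nm_ns : Nm (ns : (Fin n → ℝ) → ℝ) := by
  have l : ∀ (u : Fin n → ℝ) j, u j ≤ ns u := fun u => le_ciSup (Finite.bddAbove_range u)
  refine ⟨fun u w h e => Real.iSup_le (fun j => (e j).trans (l w j))
    (Real.iSup_nonneg fun j => (h j).trans (e j)), fun c u h _ => (mul_iSup_of_nonneg h u).symm,
    fun u w h e => Real.iSup_le (fun j => add_le_add (l u j) (l w j))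
      (add_nonneg (Real.iSup_nonneg h) (Real.iSup_nonneg e)), fun j => le_antisymm
        (Real.iSup_le (fun i => ?_) zero_le_one) (by simpa using l (Pi.single j 1) j)⟩
  by_cases k : i = j <;> simp [k]

theorem nm_n2 : Nm (n2 : (Fin n → ℝ) → ℝ) := by
  have e : ∀ u : Fin n → ℝ, n2 u = ‖WithLp.toLp 2 u‖ := fun u => by
    simp [n2, EuclideanSpace.norm_eq]
  refine ⟨fun u w h k => sqrt_le_sqrt (Finset.sum_le_sum fun j _ => pow_le_pow_left₀ (h j) (k j) 2),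
    fun c u h _ => ?_, fun u w _ _ => ?_, fun j => ?_⟩
  · simp only [n2, mul_pow, ← Finset.mul_sum, sqrt_mul (sq_nonneg c), sqrt_sq h]
  · rw [e, e, e, WithLp.toLp_add]
    exact norm_add_le _ _
  · simp [n2, Pi.single_apply]

theorem dn_ns (f : GL (Fin n) E) (β : Fin n → ℝ) : dn a ns f β = GN.dg a f β := rfl

theorem act_dn (g f : GL (Fin n) E) (β : Fin n → ℝ) :
    act g (dn a nm f β) = dn a nm (g * f) β := by
  funext x
  unfold act dn
  rw [Matrix.mulVec_mulVec, _root_.mul_inv_rev, Units.val_mul]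

theorem dn_nonneg (h : Nm nm) (f : GL (Fin n) E) (β : Fin n → ℝ) (x : V n E) :
    0 ≤ dn a nm f β x :=
  h.nonneg fun _ => by positivity

theorem le_dn (h : Nm nm) (f : GL (Fin n) E) (β : Fin n → ℝ) (x : V n E) (j : Fin n) :
    a (((f⁻¹ : GL (Fin n) E).1 *ᵥ x) j) * exp (β j) ≤ dn a nm f β x :=
  h.le (u := fun j => a (((f⁻¹ : GL (Fin n) E).1 *ᵥ x) j) * exp (β j)) (fun _ => by positivity) j

theorem dn_le_sum (h : Nm nm) (f : GL (Fin n) E) (β : Fin n → ℝ) (x : V n E) :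
    dn a nm f β x ≤ ∑ j, a (((f⁻¹ : GL (Fin n) E).1 *ᵥ x) j) * exp (β j) :=
  h.le_sum fun _ => by positivity

theorem dn_pos (h : Nm nm) (f : GL (Fin n) E) (β : Fin n → ℝ) {x : V n E} (hx : x ≠ 0) :
    0 < dn a nm f β x := by
  obtain ⟨j, hj, -⟩ := GN.dg_ex (a := a) f β hx
  exact (mul_pos (a.pos hj) (exp_pos _)).trans_le (le_dn h f β x j)

theorem dn_cl (h : Nm nm) (f : GL (Fin n) E) (β : Fin n → ℝ) (j : Fin n) :
    dn a nm f β (cl f j) = exp (β j) := by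
  rw [← mul_one (exp (β j)), ← h.one j,
    ← h.sm _ _ (exp_pos _).le fun i => by simp [Pi.single_apply, apply_ite], dn, GN.inv_mulVec_cl]
  congr 1
  ext i
  by_cases k : i = j <;> simp [GN.ee, k]

theorem dn_const (h : Nm nm) (f : GL (Fin n) E) (β : Fin n → ℝ) (c : ℝ) :
    (dn a nm f fun j => β j + c) = fun x => exp c * dn a nm f β x := by
  funext x
  rw [dn, dn, ← h.sm _ _ (exp_pos _).le fun _ => by positivity]
  congr 1
  ext i
  rw [exp_add]
  ring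

theorem dn_cmp (h : Nm nm) {x : V n E}
    (e : ∀ j, ((f⁻¹ : GL (Fin n) E).1 *ᵥ x) j ≠ 0 → β j ≤ r + β' j) :
    dn a nm f β x ≤ exp r * dn a nm f β' x := by
  rw [dn, dn, ← h.sm _ _ (exp_pos _).le fun _ => by positivity]
  refine h.mono _ _ (fun _ => by positivity) fun j => ?_
  by_cases k : ((f⁻¹ : GL (Fin n) E).1 *ᵥ x) j = 0
  · rw [k]
    simp
  · rw [mul_left_comm, ← exp_add]
    exact mul_le_mul_of_nonneg_left (exp_le_exp.2 (e j k)) (a.nonneg _)

theorem dn_le_of (h : Nm nm) (e : ∀ j, β j ≤ r + β' j) : Le r (dn a nm f β) (dn a nm f β') :=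
  fun _ => dn_cmp h fun j _ => e j

theorem dn_nr (h : Nm nm) (e : ∀ j, |β j - β' j| ≤ r) : Nr r (dn a nm f β) (dn a nm f β') :=
  ⟨dn_le_of h fun j => by linarith [(abs_le.1 (e j)).2],
    dn_le_of h fun j => by linarith [(abs_le.1 (e j)).1]⟩

theorem le_of_dn (h : Nm nm) (e : Le r (dn a nm f β) (dn a nm f β')) (j : Fin n) :
    β j ≤ r + β' j := by
  have := e (cl f j)
  rwa [dn_cl h, dn_cl h, ← exp_add, exp_le_exp] at this

theorem dn_entry (h : Nm nm) (e : Le r (dn a nm f β) (dn a nm f' β')) (p q : Fin n) :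
    a ((f⁻¹ * f' : GL (Fin n) E).1 p q) ≤ exp (r + β' q - β p) := by
  have k := (le_dn h f β (cl f' q) p).trans (e _)
  rw [dn_cl h, ← GN.cl_mul, ← exp_add] at k
  rw [exp_sub, le_div_iff₀ (exp_pos _)]
  exact k

theorem coord_le (h : Nm nm) (M : Matrix (Fin n) (Fin n) E) (f : GL (Fin n) E) (β : Fin n → ℝ)
    (x : V n E) (p : Fin n) (c : ℝ) : a ((M *ᵥ ((f⁻¹ : GL (Fin n) E).1 *ᵥ x)) p) * exp c ≤
      (∑ q, a (M p q) * exp (c - β q)) * dn a nm f β x := by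
  refine (mul_le_mul_of_nonneg_right (a.sum_le Finset.univ
    fun q => M p q * ((f⁻¹ : GL (Fin n) E).1 *ᵥ x) q) (exp_pos c).le).trans ?_
  rw [Finset.sum_mul, Finset.sum_mul]
  refine Finset.sum_le_sum fun q _ => le_trans (le_of_eq ?_)
    (mul_le_mul_of_nonneg_left (le_dn h f β x q) (by positivity))
  rw [map_mul, mul_mul_mul_comm, ← exp_add, sub_add_cancel]

/-- Frames whose transition matrix is close to the identity. -/
theorem dn_near (h : Nm nm) {θ u : ℝ} (hθ : 0 ≤ θ)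
    (e : ∀ p q, a (((f⁻¹ * f' : GL (Fin n) E).1 - 1) p q) ≤ θ) (hu : ∀ p q, β p - β q ≤ u) :
    Le (n * n * θ * exp u) (dn a nm f β) (dn a nm f' β) := by
  intro x
  have k : (f⁻¹ : GL (Fin n) E).1 *ᵥ x = (f'⁻¹ : GL (Fin n) E).1 *ᵥ x +
      ((f⁻¹ * f' : GL (Fin n) E).1 - 1) *ᵥ ((f'⁻¹ : GL (Fin n) E).1 *ᵥ x) := by
    rw [sub_mulVec, one_mulVec, mulVec_mulVec, ← Units.val_mul, mul_inv_cancel_right]
    abel
  have N := dn_nonneg (a := a) h f' β x
  have b := h.ad (fun j => a (((f'⁻¹ : GL (Fin n) E).1 *ᵥ x) j) * exp (β j))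
    (fun _ => n * θ * exp u * dn a nm f' β x) (fun _ => by positivity) fun _ => by positivity
  have c := h.le_sum (u := fun _ => n * θ * exp u * dn a nm f' β x) fun _ => by positivity
  rw [Finset.sum_const, Finset.card_fin, nsmul_eq_mul] at c
  refine ((h.mono _ _ (fun _ => by positivity) fun p => ?_).trans b).trans ?_
  · rw [k, Pi.add_apply, Pi.add_apply]
    refine (mul_le_mul_of_nonneg_right (a.add_le _ _) (exp_pos _).le).trans ?_
    rw [add_mul]
    refine add_le_add le_rfl ((coord_le h _ f' β x p _).trans (mul_le_mul_of_nonneg_right ?_ N))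
    refine (Finset.sum_le_card_nsmul _ _ (θ * exp u) fun q _ => ?_).trans (by simp [mul_assoc])
    exact mul_le_mul (e p q) (exp_le_exp.2 (hu p q)) (exp_pos _).le hθ
  · change dn a nm f' β x + _ ≤ _
    nlinarith [add_one_le_exp (n * n * θ * exp u)]

theorem exists_nr (h : Nm nm) (f f' : GL (Fin n) E) (β β' : Fin n → ℝ) :
    ∃ κ : ℝ, 0 ≤ κ ∧ Nr κ (dn a nm f β) (dn a nm f' β') := by
  have k : ∀ (f f' : GL (Fin n) E) (β β' : Fin n → ℝ),
      ∃ κ : ℝ, 0 ≤ κ ∧ Le κ (dn a nm f β) (dn a nm f' β') := fun f f' β β' => by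
    refine ⟨∑ p, ∑ q, a ((f⁻¹ * f' : GL (Fin n) E).1 p q) * exp (β p - β' q), by positivity,
      fun x => (dn_le_sum h f β x).trans (le_trans ?_ (mul_le_mul_of_nonneg_right
        ((le_add_of_nonneg_right zero_le_one).trans (add_one_le_exp _)) (dn_nonneg h _ _ _)))⟩
    rw [Finset.sum_mul]
    refine Finset.sum_le_sum fun p _ => le_trans (le_of_eq ?_) (coord_le h _ f' β' x p _)
    rw [mulVec_mulVec, ← Units.val_mul, mul_inv_cancel_right]
  obtain ⟨κ, h0, h1⟩ := k f f' β β'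
  obtain ⟨κ', h2, h3⟩ := k f' f β' β
  exact ⟨κ + κ', by positivity, h1.mono (dn_nonneg h _ _) (by linarith),
    h3.mono (dn_nonneg h _ _) (by linarith)⟩

theorem sa_dn (h : Nm nm) (hm : Monotone α) (hm' : Monotone α') {κ δ : ℝ}
    (hg : Le κ (dn a nm f (β - α)) (dn a nm f' (β' - α')))
    (hy : Le δ (dn a nm f' β') (dn a nm f β)) (j : Fin n) : α' j ≤ α j + κ + δ := by
  obtain ⟨x, hx, hM⟩ := (Matrix.exists_mulVec_eq_zero_iff (M := Matrix.of fun p q =>
      if j < p then (f⁻¹ : GL (Fin n) E).1 p q else if p < j then (f'⁻¹ : GL (Fin n) E).1 p q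
      else 0)).2 (Matrix.det_eq_zero_of_row_eq_zero j fun q => by simp)
  have i1 : dn a nm f β x ≤ exp (α j) * dn a nm f (β - α) x := dn_cmp h fun p hp => by
    have := hm (not_lt.1 fun k : j < p => hp (by
      simpa only [mulVec, dotProduct, Matrix.of_apply, if_pos k, Pi.zero_apply] using congrFun hM p))
    rw [Pi.sub_apply]
    linarith
  have i2 : dn a nm f' (β' - α') x ≤ exp (-α' j) * dn a nm f' β' x := dn_cmp h fun p hp => by
    have := hm' (not_lt.1 fun k : p < j => hp (by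
      simpa only [mulVec, dotProduct, Matrix.of_apply, if_pos k, if_neg k.not_gt,
        Pi.zero_apply] using congrFun hM p))
    rw [Pi.sub_apply]
    linarith
  have i3 : 1 * dn a nm f' (β' - α') x ≤
      exp (-α' j + (δ + (α j + κ))) * dn a nm f' (β' - α') x := by
    rw [one_mul, exp_add, exp_add, exp_add, mul_assoc, mul_assoc, mul_assoc]
    exact i2.trans (mul_le_mul_of_nonneg_left ((hy x).trans (mul_le_mul_of_nonneg_left
      (i1.trans (mul_le_mul_of_nonneg_left (hg x) (exp_pos _).le)) (exp_pos _).le)) (exp_pos _).le)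
  have i4 := one_le_exp_iff.1 (le_of_mul_le_mul_right i3 (dn_pos h _ _ hx))
  linarith

end

variable {K : Type} [Field K] {n : ℕ} {I J G : Type} [Group G] {P : I → Pc K n}
  {ρ : G →* GL (Fin n) K}

theorem Pc.rp_val (p : Pc K n) (g : G) : (p.rp ρ g).1 = (ρ g).1.map p.σ := rfl

theorem Pc.rp_mulVec (p : Pc K n) (g : G) (z : V n K) :
    ((p.rp ρ g).1 *ᵥ fun q => p.σ (z q)) = fun q => p.σ (((ρ g).1 *ᵥ z) q) :=
  funext fun q => (p.σ.map_mulVec (ρ g).1 z q).symm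

theorem pt_nonneg (x : Fm P ρ) (v : I) (z : V n (P v).E) : 0 ≤ pt x v z :=
  dn_nonneg (P v).hnm _ _ _

theorem pt_smul (g : G) (x : Fm P ρ) (v : I) : pt (g • x) v = act ((P v).rp ρ g) (pt x v) :=
  (act_dn _ _ _).symm

variable [Fintype J] {bl : I → Fin n → J}

theorem NN_zero {δ : ℝ} {x y : Fm P ρ} : NN bl 0 δ x y ↔ ∀ v, Nr δ (pt x v) (pt y v) := by
  have e : fw bl (0 : J → ℝ) = (id : Fm P ρ → Fm P ρ) := funext fun x => funext fun v => by simp [fw]
  refine ⟨fun h => by simpa [e] using h 0 (by simp), fun h t ht => ?_⟩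
  rw [norm_le_zero_iff.1 ht, e]
  exact h

theorem pt_fw (s : J → ℝ) (x : Fm P ρ) (v : I) : Nr ‖s‖ (pt (fw bl s x) v) (pt x v) :=
  dn_nr (P v).hnm fun j => by simpa [fw] using norm_le_pi_norm s (bl v j)

theorem flw [Nonempty J] (hs : ∀ k, ∃ v j, bl v j = k) :
    Flw G (fw bl : (J → ℝ) → Fm P ρ → Fm P ρ) (NN bl) := by
  have ad : ∀ (s t : J → ℝ) (x : Fm P ρ), fw bl (s + t) x = fw bl s (fw bl t x) := fun s t x =>
    funext fun v => by simp [fw, add_assoc, add_comm]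
  refine ⟨fun x => funext fun v => by simp [fw], ad, fun _ _ _ => rfl, fun _ _ _ _ _ => GN.Nr.rfl,
    fun h t k v => (h t k v).symm, fun h h' t k v => (h t k v).trans (h' t k v),
    fun h e e' t k v => (h t (k.trans e) v).mono (pt_nonneg _ _) (pt_nonneg _ _) e',
    fun {r δ x y} g h t k v => ?_, fun h e t k v => ?_, fun r s x t _ v => ?_,
    fun {δ s x} h => ?_⟩
  · change Nr δ (pt (g • fw bl t x) v) (pt (g • fw bl t y) v)
    rw [pt_smul, pt_smul]
    exact (h t k v).act _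
  · rw [← ad, ← ad]
    exact h _ ((norm_add_le _ _).trans (add_le_add k e)) v
  · rw [← ad, add_comm, ad]
    exact pt_fw _ _ _
  · have k : ∀ k, |s k| ≤ δ := fun k => by
      obtain ⟨v, j, rfl⟩ := hs k
      have h1 := le_of_dn (P v).hnm (NN_zero.1 h v).1 j
      have h2 := le_of_dn (P v).hnm (NN_zero.1 h v).2 j
      simp only [fw] at h1 h2
      exact abs_le.2 ⟨by linarith, by linarith⟩
    exact (pi_norm_le_iff_of_nonempty s).2 k

theorem VR.mono {H H' : Subgroup G} (e : H ≤ H') (h : VR ρ H') : VR ρ H := by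
  obtain ⟨L, -, h1, h2⟩ := h
  refine ⟨L ⊓ H, inf_le_right, by
    rw [Subgroup.inf_relIndex_right]; exact fun k => h1 (Subgroup.relIndex_eq_zero_of_le_right e k),
    h2.imp (fun k e => k (top_le_iff.1 (e ▸ Submodule.span_mono (Set.image_mono
      (inf_le_left : L ⊓ H ≤ L))))) inf_le_left.trans⟩

theorem VR.fin {H H' : Subgroup G} (e : H' ≤ H) (hi : H'.relIndex H ≠ 0) (h : VR ρ H') :
    VR ρ H :=
  let ⟨L, h0, h1, h2⟩ := h
  ⟨L, h0.trans e, Subgroup.relIndex_ne_zero_trans h1 hi, h2⟩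

end Pool.Agent.Work.MP_9d1ffa_al.WL
end

-- merged part: Pool.Agent.Work.MP_9d1ffa_al.WL.Cb
section
/-! Covering numbers of the flow space. -/

namespace Pool.Agent.Work.MP_9d1ffa_al.WL

open Real Matrix
open GN (V Le Nr act cl Red wb)

section

variable {E : Type} [Field E] {n : ℕ} {a : AbsoluteValue E ℝ} {nm : (Fin n → ℝ) → ℝ}

/-- Scaling the columns moves the exponents into `[0, c]`. -/
theorem cvr_nf {c : ℝ} (hc : ∀ u : ℝ, ∃ z, exp u ≤ a z ∧ a z ≤ exp (u + c))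
    (y : GL (Fin n) E × (Fin n → ℝ)) : ∃ y' : GL (Fin n) E × (Fin n → ℝ),
      (∀ j, 0 ≤ y'.2 j ∧ y'.2 j ≤ c) ∧ ∀ t : Fin n → ℝ,
        (dn a nm y'.1 fun j => y'.2 j + t j) = dn a nm y.1 fun j => y.2 j + t j := by
  choose z h1 h2 using fun j => hc (-y.2 j)
  have hp : ∀ j, 0 < a (z j) := fun j => (exp_pos _).trans_le (h1 j)
  have hz : ∀ j, z j ≠ 0 := fun j => a.pos_iff.1 (hp j)
  let d : GL (Fin n) E := ⟨diagonal z, diagonal fun j => (z j)⁻¹,
    by simp [diagonal_mul_diagonal, hz], by simp [diagonal_mul_diagonal, hz]⟩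
  refine ⟨(y.1 * d, fun j => y.2 j + log (a (z j))), fun j => ⟨?_, ?_⟩, fun t => ?_⟩
  · linarith [(le_log_iff_exp_le (hp j)).2 (h1 j)]
  · linarith [(log_le_iff_le_exp (hp j)).2 (h2 j)]
  · funext x
    refine congrArg nm (funext fun j => ?_)
    have e : (((y.1 * d)⁻¹ : GL (Fin n) E).1 *ᵥ x) j =
        (z j)⁻¹ * (((y.1)⁻¹ : GL (Fin n) E).1 *ᵥ x) j := by
      rw [_root_.mul_inv_rev, Units.val_mul, ← mulVec_mulVec]
      exact mulVec_diagonal _ _ j
    simp only [e, map_mul, map_inv₀, add_right_comm _ _ (t j), exp_add _ (log _), exp_log (hp j)]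
    field_simp [(hp j).ne']

theorem cvr_le (h : Nm nm) {f f' f'' : GL (Fin n) E} {β β' β'' t : Fin n → ℝ} {B c r k : ℝ}
    (hk : 0 < k) (hβ : ∀ j, β j ≤ c) (hβ' : ∀ j, 0 ≤ β' j ∧ β' j ≤ c)
    (e : Le B (dn a nm f' β') (dn a nm f β))
    (e1 : ∀ p q, a ((f⁻¹ * f'' : GL (Fin n) E).1 p q - (f⁻¹ * f' : GL (Fin n) E).1 p q) ≤
      exp (-(B + 2 * c + 2 * r + 2 * n ^ 3)) / k)
    (e2 : ∀ j, ⌊2 * k * β' j⌋ = ⌊2 * k * β'' j⌋) (ht : ‖t‖ ≤ r) :
    Le (1 / k) (dn a nm f' fun j => β' j + t j) (dn a nm f'' fun j => β'' j + t j) := by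
  have ht' : ∀ j, |t j| ≤ r := fun j => (norm_le_pi_norm t j).trans ht
  have h1 : (f'⁻¹ * f'' : GL (Fin n) E).1 - 1 = (f'⁻¹ * f : GL (Fin n) E).1 *
      ((f⁻¹ * f'' : GL (Fin n) E).1 - (f⁻¹ * f' : GL (Fin n) E).1) := by
    rw [mul_sub, ← Units.val_mul, ← Units.val_mul]
    simp [mul_assoc]
  have h2 := dn_near (a := a) (f := f') (f' := f'') (β := fun j => β' j + t j) h
    (θ := n * (exp (B + c) * (exp (-(B + 2 * c + 2 * r + 2 * n ^ 3)) / k))) (u := c + 2 * r)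
    (by positivity) (fun p q => by
      rw [h1, Matrix.mul_apply]
      refine (a.sum_le _ _).trans ((Finset.sum_le_card_nsmul _ _ _ fun j _ => ?_).trans_eq
        (by rw [Finset.card_fin, nsmul_eq_mul]))
      rw [map_mul]
      refine mul_le_mul ((dn_entry h e p j).trans (exp_le_exp.2 ?_)) (e1 j q) (a.nonneg _)
        (exp_pos _).le
      linarith [hβ j, (hβ' p).1])
    fun p q => by linarith [hβ' p, hβ' q, abs_le.1 (ht' p), abs_le.1 (ht' q)]
  have h3 : Le (1 / (2 * k)) (dn a nm f'' fun j => β' j + t j)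
      (dn a nm f'' fun j => β'' j + t j) := dn_le_of h fun j => by
    have := (abs_lt.1 (Int.abs_sub_lt_one_of_floor_eq_floor (e2 j))).2
    have : β' j - β'' j ≤ 1 / (2 * k) := by
      rw [le_div_iff₀ (by positivity)]
      linarith
    linarith
  refine (h2.trans h3).mono (dn_nonneg h _ _) ?_
  have h4 : exp (B + c) * exp (-(B + 2 * c + 2 * r + 2 * n ^ 3)) * exp (c + 2 * r) *
      exp (2 * n ^ 3) = 1 := by
    rw [← exp_add, ← exp_add, ← exp_add, ← exp_zero]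
    congr 1
    ring
  have h5 := mul_le_mul_of_nonneg_left (add_one_le_exp (2 * (n : ℝ) ^ 3)) (show 0 ≤
    exp (B + c) * exp (-(B + 2 * c + 2 * r + 2 * n ^ 3)) * exp (c + 2 * r) by positivity)
  rw [h4] at h5
  have h6 : 0 < exp (B + c) * exp (-(B + 2 * c + 2 * r + 2 * n ^ 3)) * exp (c + 2 * r) := by
    positivity
  generalize exp (-(B + 2 * c + 2 * r + 2 * n ^ 3)) = w at h5 h6 ⊢
  field_simp
  linarith

/-- One place. -/
theorem cvr_one {E : Type} [Field E] {n : ℕ} {a : AbsoluteValue E ℝ} {nm : (Fin n → ℝ) → ℝ}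
    (h : Nm nm) (hd : Dbl a) : ∃ D : ℕ, ∀ r B : ℝ, ∃ C : ℕ, ∀ k : ℕ, 1 ≤ k →
      ∀ x : GL (Fin n) E × (Fin n → ℝ), ∃ col : GL (Fin n) E × (Fin n → ℝ) → Fin (C * k ^ D),
        ∀ y y', Nr B (dn a nm x.1 x.2) (dn a nm y.1 y.2) →
          Nr B (dn a nm x.1 x.2) (dn a nm y'.1 y'.2) → col y = col y' → ∀ t : Fin n → ℝ, ‖t‖ ≤ r →
            Nr (1 / k) (dn a nm y.1 fun j => y.2 j + t j) (dn a nm y'.1 fun j => y'.2 j + t j) := by
  obtain ⟨c, hc⟩ := hd.nt
  obtain ⟨D, hD⟩ := hd.cov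
  choose N hN eN using cvr_nf (nm := nm) hc
  have e0 : ∀ y, dn a nm (N y).1 (N y).2 = dn a nm y.1 y.2 := fun y => by simpa using eN y 0
  refine ⟨D * n * n + n, fun r B => ?_⟩
  obtain ⟨C, hC⟩ := hD (B + c + (B + 2 * c + 2 * r + 2 * n ^ 3))
  refine ⟨(C ^ n) ^ n * (⌈2 * c⌉₊ + 1) ^ n, fun k hk x => ?_⟩
  obtain ⟨col, hcol⟩ := hC k hk (-(B + 2 * c + 2 * r + 2 * n ^ 3))
  have hk' : (1 : ℝ) ≤ k := by exact_mod_cast hk
  have hf : ∀ y j, ⌊2 * k * (N y).2 j⌋₊ < (⌈2 * c⌉₊ + 1) * k := fun y j => by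
    rw [Nat.floor_lt' (by positivity)]
    push_cast
    nlinarith [hN y j, Nat.le_ceil (2 * c)]
  let e := Fintype.equivFinOfCardEq (α := (Fin n → Fin n → Fin (C * k ^ D)) ×
    (Fin n → Fin ((⌈2 * c⌉₊ + 1) * k)))
    (n := (C ^ n) ^ n * (⌈2 * c⌉₊ + 1) ^ n * k ^ (D * n * n + n)) (by
      simp only [Fintype.card_prod, Fintype.card_pi, Fintype.card_fin, Finset.prod_const,
        Finset.card_univ, mul_pow, pow_add, pow_mul]
      ring)
  refine ⟨fun y => e (fun p q => col (((N x).1⁻¹ * (N y).1 : GL (Fin n) E).1 p q),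
    fun j => ⟨_, hf y j⟩), fun y y' hy hy' hyy t ht => ?_⟩
  obtain ⟨h1, h2⟩ := Prod.ext_iff.1 (e.injective hyy)
  rw [← e0 x, ← e0 y] at hy
  rw [← e0 x, ← e0 y'] at hy'
  have hb : ∀ {y}, Nr B (dn a nm (N x).1 (N x).2) (dn a nm (N y).1 (N y).2) → ∀ p q,
      a (((N x).1⁻¹ * (N y).1 : GL (Fin n) E).1 p q) ≤ exp (-(B + 2 * c + 2 * r + 2 * n ^ 3) +
        (B + c + (B + 2 * c + 2 * r + 2 * n ^ 3))) := fun {y} hy p q =>
    (dn_entry h hy.1 p q).trans (exp_le_exp.2 (by linarith [hN x p, hN y q]))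
  have h3 : ∀ j, ⌊2 * k * (N y).2 j⌋ = ⌊2 * k * (N y').2 j⌋ := fun j => by
    rw [← Int.natCast_floor_eq_floor (by have := (hN y j).1; positivity),
      ← Int.natCast_floor_eq_floor (by have := (hN y' j).1; positivity)]
    exact congrArg Nat.cast (congrArg Fin.val (congrFun h2 j))
  rw [← eN y, ← eN y']
  exact ⟨cvr_le h (by positivity) (fun j => (hN x j).2) (hN y) hy.2 (fun p q =>
      hcol _ _ (hb hy' p q) (hb hy p q) (congrFun (congrFun h1 p) q).symm) h3 ht,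
    cvr_le h (by positivity) (fun j => (hN x j).2) (hN y') hy'.2 (fun p q =>
      hcol _ _ (hb hy p q) (hb hy' p q) (congrFun (congrFun h1 p) q)) (fun j => (h3 j).symm) ht⟩

end

/-- Product of the colourings. -/
theorem cvr {K : Type} [Field K] {n : ℕ} {I G : Type} [Fintype I] [Group G] (P : I → Pc K n)
    (ρ : G →* GL (Fin n) K) : ∃ D : ℕ, ∀ (J : Type) [Fintype J] (bl : I → Fin n → J),
      Cvr (NN bl : ℝ → ℝ → Fm P ρ → Fm P ρ → Prop) D := by
  classical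
  choose D hD using fun v => cvr_one (P v).hnm (P v).dbl
  refine ⟨∑ v, D v, fun J _ bl r B => ?_⟩
  choose C hC using fun v => hD v r B
  refine ⟨∏ v, C v, fun k hk x => ?_⟩
  choose col hcol using fun v => hC v k hk (x v)
  let e := Fintype.equivFinOfCardEq (α := ∀ v, Fin (C v * k ^ D v))
    (n := (∏ v, C v) * k ^ ∑ v, D v) (by
      simp only [Fintype.card_pi, Fintype.card_fin, Finset.prod_mul_distrib,
        Finset.prod_pow_eq_pow_sum])
  refine ⟨fun y => e fun v => col v (y v), fun y y' hy hy' h t ht v =>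
    hcol v (y v) (y' v) (NN_zero.1 hy v) (NN_zero.1 hy' v) (congrFun (e.injective h) v)
      (fun j => t (bl v j)) ?_⟩
  exact (pi_norm_le_iff_of_nonneg ((norm_nonneg t).trans ht)).2 fun j =>
    (norm_le_pi_norm t _).trans ht

end Pool.Agent.Work.MP_9d1ffa_al.WL
end

-- merged part: Pool.Agent.Work.MP_9d1ffa_al.WL.Cf
section
/-! Bounded multiplicity on the thick part. -/

namespace Pool.Agent.Work.MP_9d1ffa_al.WL

open Real Matrix
open GN (V Le Nr act cl Red wb)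

variable {K : Type} [Field K] {n : ℕ} {I J G : Type} [Fintype I] [Fintype J] [Group G]
  {P : I → Pc K n} {ρ : G →* GL (Fin n) K} {A : Subring K} {bl : I → Fin n → J}

theorem Cf_basis {s : Set (V n K)} (h : Submodule.span K s = ⊤) :
    ∃ z : Fin n → V n K, (∀ i, z i ∈ s) ∧ Submodule.span K (Set.range z) = ⊤ := by
  have e : Module.finrank K (Submodule.span K s) = n := by
    rw [h, finrank_top, Module.finrank_fin_fun]
  have k := Submodule.exists_fun_fin_finrank_span_eq K s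
  rw [e, h] at k
  exact k.imp fun z hz => ⟨hz.1, hz.2.1⟩

theorem mlt (hA : ∀ g p q, (ρ g).1 p q ∈ A) (R : ℝ) : Mlt G (NN bl) (Thk P ρ A R) := by
  classical
  intro B
  choose D hD using fun v => (P v).dbl.cov
  choose C hC using fun v => hD v (R + B)
  choose col hcol using fun v => hC v (n + 1) (by omega)
  refine ⟨Fintype.card (Fin n → ∀ v, Fin n → Fin (C v * (n + 1) ^ D v)), ?_⟩
  rintro x ⟨s, h0, h1⟩
  obtain ⟨z, hz, hs⟩ := Cf_basis h1
  choose g hg using fun y : {y | (∃ g : G, y = g • x) ∧ NN bl 0 B x y} => y.2.1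
  have hb : ∀ y i v j, (P v).a ((((x v).1⁻¹ : GL (Fin n) (P v).E).1 *ᵥ
      fun q => (P v).σ (((ρ (g y)).1 *ᵥ z i) q)) j) ≤ exp (s - (x v).2 j + (R + B)) := by
    intro y i v j
    have k1 := (NN_zero.1 y.2.2 v).1 fun q => (P v).σ (((ρ (g y)).1 *ᵥ z i) q)
    rw [hg y, pt_smul] at k1
    conv_rhs at k1 => rw [← Pc.rp_mulVec, GN.act_mulVec]
    have k2 := (le_dn (P v).hnm _ _ _ j).trans
      (k1.trans (mul_le_mul_of_nonneg_left ((hz i).2 v) (exp_pos B).le))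
    rwa [← exp_add, ← le_div_iff₀ (exp_pos _), ← exp_sub,
      show B + (s + R) - (x v).2 j = s - (x v).2 j + (R + B) by ring] at k2
  have k := ENat.card_le_card_of_injective (f := fun y i v j => col v (s - (x v).2 j)
      ((((x v).1⁻¹ : GL (Fin n) (P v).E).1 *ᵥ fun q => (P v).σ (((ρ (g y)).1 *ᵥ z i) q)) j))
      fun y y' e => by
    have k1 : ∀ i, (ρ (g y)).1 *ᵥ z i = (ρ (g y')).1 *ᵥ z i := fun i => by
      have hw : ∀ (h : G) p, ((ρ h).1 *ᵥ z i) p ∈ A := fun h p =>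
        A.sum_mem (t := Finset.univ) fun q _ => A.mul_mem (hA h p q) ((hz i).1 q)
      rw [← sub_eq_zero, ← Submodule.mem_bot K, ← h0]
      refine Submodule.subset_span ⟨fun p => A.sub_mem (hw _ p) (hw _ p), fun v => ?_⟩
      refine (dn_le_sum (P v).hnm _ _ _).trans ((Finset.sum_le_card_nsmul _ _
        (exp s / (n + 1 : ℕ)) fun j _ => ?_).trans ?_)
      · have k2 := hcol v _ _ _ (hb y i v j) (hb y' i v j)
          (congrFun (congrFun (congrFun e i) v) j)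
        rw [← Pi.sub_apply, ← mulVec_sub, exp_sub, div_right_comm, le_div_iff₀ (exp_pos _)] at k2
        simpa only [Pi.sub_apply, map_sub, Pi.sub_def] using k2
      · rw [Finset.card_univ, Fintype.card_fin, nsmul_eq_mul, ← mul_div_assoc,
          div_le_iff₀ (by positivity)]
        push_cast
        nlinarith [exp_pos s]
    have k2 : ρ (g y) = ρ (g y') := Units.ext (toLin'.injective
      (LinearMap.ext_on_range hs fun i => by simpa using k1 i))
    refine Subtype.ext ((hg y).trans (Eq.trans ?_ (hg y').symm))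
    funext v
    simp only [Fm.smul_apply, Pc.rp, MonoidHom.comp_apply, k2]
  rwa [ENat.card_eq_coe_fintype_card (α := Fin n → _)] at k

end Pool.Agent.Work.MP_9d1ffa_al.WL
end

-- merged part: Pool.Agent.Work.MP_9d1ffa_al.WL.Cc
section
/-! The thin part and the thick part. -/

namespace Pool.Agent.Work.MP_9d1ffa_al.WL

open Real Matrix
open GN (V Le Nr act cl Red wb)

variable {K : Type} [Field K] {n : ℕ} {I J G : Type} [Fintype I] [Fintype J] [Group G]
  {P : I → Pc K n} {ρ : G →* GL (Fin n) K} {A : Subring K} {bl : I → Fin n → J}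

/-- Subspaces; `G` acts through `ρ`. -/
def Sb (_ρ : G →* GL (Fin n) K) : Type := Submodule K (V n K)

noncomputable instance : MulAction G (Sb ρ) where
  smul g U := Submodule.map (ρ g).1.mulVecLin U
  one_smul U := by
    change Submodule.map (ρ 1).1.mulVecLin U = U
    rw [map_one, Units.val_one, Matrix.mulVecLin_one, Submodule.map_id]
  mul_smul g h U := by
    change Submodule.map (ρ (g * h)).1.mulVecLin U =
      Submodule.map (ρ g).1.mulVecLin (Submodule.map (ρ h).1.mulVecLin U)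
    rw [map_mul, Units.val_mul, Matrix.mulVecLin_mul, Submodule.map_comp]

omit [Fintype I] in
theorem Ws_mono {s s' : ℝ} (h : s ≤ s') (x : Fm P ρ) : Ws A s x ≤ Ws A s' x := by
  exact Submodule.span_mono fun z hz => ⟨hz.1, fun v => (hz.2 v).trans (exp_le_exp.2 h)⟩

omit [Fintype I] in
/-- `Pc.rp_mulVec`, `GN.act_mulVec`. -/
theorem Ws_map (hA : ∀ g p q, (ρ g).1 p q ∈ A) {g : G} {x y : Fm P ρ} {k : ℝ}
    (h : ∀ v, Le k (pt y v) (pt (g • x) v)) (s : ℝ) :
    (Ws A s x).map (ρ g).1.mulVecLin ≤ Ws A (s + k) y := by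
  rw [Ws, Submodule.map_span_le]
  refine fun z hz => Submodule.subset_span ⟨fun p => ?_, fun v => ?_⟩
  · rw [Matrix.mulVecLin_apply, mulVec, dotProduct]
    exact A.sum_mem fun q _ => A.mul_mem (hA g p q) (hz.1 q)
  · refine (h v _).trans ?_
    rw [Matrix.mulVecLin_apply, ← Pc.rp_mulVec, pt_smul, GN.act_mulVec, add_comm, exp_add]
    exact mul_le_mul_of_nonneg_left (hz.2 v) (exp_pos k).le

theorem Cc_mono (g : G) {U U' : Submodule K (V n K)} (h : U ≤ U') :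
    (show Submodule K (V n K) from g • (show Sb ρ from U)) ≤ g • (show Sb ρ from U') :=
  Submodule.map_mono h

theorem Cc_bot {g : G} {U : Sb ρ} : g • U = (⊥ : Submodule K (V n K)) ↔
    U = (⊥ : Submodule K (V n K)) :=
  ⟨fun h => by rw [← inv_smul_smul g U, h]; exact Submodule.map_bot _,
    fun h => by rw [h]; exact Submodule.map_bot _⟩

theorem Cc_top {g : G} {U : Sb ρ} : g • U = (⊤ : Submodule K (V n K)) ↔
    U = (⊤ : Submodule K (V n K)) := by
  have e : ∀ g : G, g • (show Sb ρ from (⊤ : Submodule K (V n K))) =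
      (⊤ : Submodule K (V n K)) := fun g =>
    top_unique (α := Submodule K (V n K)) ((ge_of_eq (α := Submodule K (V n K))
      (smul_inv_smul g (show Sb ρ from (⊤ : Submodule K (V n K))))).trans (Cc_mono g le_top))
  exact ⟨fun h => by rw [← inv_smul_smul g U, h]; exact e _, fun h => by rw [h]; exact e _⟩

omit [Fintype I] in
theorem Cc_smul (hA : ∀ g p q, (ρ g).1 p q ∈ A) (g : G) (s : ℝ) (x : Fm P ρ) :
    g • (show Sb ρ from Ws A s x) = Ws A s (g • x) := by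
  have h : ∀ (g : G) (x : Fm P ρ), (Ws A s x).map (ρ g).1.mulVecLin ≤ Ws A s (g • x) :=
    fun g x => by simpa only [add_zero] using Ws_map hA (fun _ => GN.Le.rfl) s
  refine le_antisymm (α := Submodule K (V n K)) (h g x) ?_
  have h1 := Cc_mono (ρ := ρ) g (h g⁻¹ (g • x))
  rw [inv_smul_smul] at h1
  exact (ge_of_eq (α := Submodule K (V n K))
    (smul_inv_smul g (show Sb ρ from Ws A s (g • x)))).trans h1

omit [Fintype I] in
theorem thk_smul (hA : ∀ g p q, (ρ g).1 p q ∈ A) (R : ℝ) (g : G) :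
    ∀ x ∈ Thk P ρ A R, g • x ∈ Thk P ρ A R := by
  rintro x ⟨s, h1, h2⟩
  exact ⟨s, (Cc_smul hA g s x).symm.trans (Cc_bot.2 h1),
    (Cc_smul hA g _ x).symm.trans (Cc_top.2 h2)⟩

/-- `a (σ (z p)) ≤ c * pt x v (σ z)` (`exists_nr` with the frame `(1, 0)`, `le_dn`), then `Low` with
`R = 0`. -/
theorem Ws_bot [Nonempty I] (hL : GN.Low (fun v => (P v).av) A) (x : Fm P ρ) : ∃ s, Ws A s x = ⊥ := by
  obtain ⟨L, hL⟩ := hL 0
  choose κ h0 h using fun v => exists_nr (a := (P v).a) (P v).hnm 1 (x v).1 0 (x v).2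
  refine ⟨-∑ v, κ v - |L|, Submodule.span_eq_bot.2 fun z hz => funext fun p => ?_⟩
  have key : ∀ v, (P v).av (z p) ≤ exp (-|L|) := fun v => by
    have h1 := le_dn (a := (P v).a) (P v).hnm 1 0 (fun q => (P v).σ (z q)) p
    rw [inv_one, Units.val_one, one_mulVec, Pi.zero_apply, exp_zero, mul_one] at h1
    refine h1.trans (((h v).1 _).trans
      ((mul_le_mul_of_nonneg_left (hz.2 v) (exp_pos _).le).trans ?_))
    rw [← exp_add, exp_le_exp]
    linarith [Finset.single_le_sum (fun v _ => h0 v) (Finset.mem_univ v)]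
  exact hL _ (hz.1 p) (fun v => (key v).trans (exp_le_exp.2 (neg_nonpos.2 (abs_nonneg L))))
    ⟨Classical.arbitrary I, (key _).trans (exp_le_exp.2 (neg_le_neg (le_abs_self L)))⟩

/-- the standard basis vectors are integral -/
theorem Ws_top (x : Fm P ρ) : ∃ s, Ws A s x = ⊤ := by
  obtain ⟨s, hs⟩ := (Set.finite_range fun t : I × Fin n =>
    pt x t.1 fun p => (P t.1).σ (Pi.basisFun K (Fin n) t.2 p)).bddAbove
  refine ⟨s, top_unique ((Pi.basisFun K (Fin n)).span_eq.ge.trans (Submodule.span_mono ?_))⟩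
  rintro _ ⟨j, rfl⟩
  refine ⟨fun p => ?_, fun v => (hs ⟨(v, j), rfl⟩).trans (by linarith [add_one_le_exp s])⟩
  rw [Pi.basisFun_apply, Pi.single_apply]
  split_ifs
  exacts [A.one_mem, A.zero_mem]

omit [Fintype I] in
/-- All matrices in the span preserve `U`. -/
theorem red_stab {U : Submodule K (V n K)} (h0 : U ≠ ⊥) (h1 : U ≠ ⊤) :
    Red ρ (MulAction.stabilizer G (show Sb ρ from U)) := by
  intro h
  obtain ⟨u, hu, hu0⟩ := (Submodule.ne_bot_iff U).1 h0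
  obtain ⟨p, hp⟩ := Function.ne_iff.1 hu0
  refine h1 (top_unique fun w _ => ?_)
  have key : ∀ M ∈ Submodule.span K ((fun g => (ρ g).1) ''
      (MulAction.stabilizer G (show Sb ρ from U) : Set G)), M *ᵥ u ∈ U := fun M hM => by
    induction hM using Submodule.span_induction with
    | mem M hM =>
      obtain ⟨g, hg, rfl⟩ := hM
      exact (le_of_eq (α := Submodule K (V n K)) hg) ⟨u, hu, rfl⟩
    | zero => rw [zero_mulVec]; exact U.zero_mem
    | add M N _ _ hM hN => rw [add_mulVec]; exact U.add_mem hM hN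
    | smul c M _ hM => rw [smul_mulVec]; exact U.smul_mem c hM
  have := key (vecMulVec w (Pi.single p (u p)⁻¹)) (by rw [h]; trivial)
  rwa [vecMulVec_mulVec, single_dotProduct, inv_mul_cancel₀ hp, MulOpposite.op_one, one_smul]
    at this

/-- the admissible weights of a subspace -/
def Cc_wt (A : Subring K) (R0 : ℝ) (x : Fm P ρ) (U : Submodule K (V n K)) : Set ℝ :=
  {w | w = 0 ∨ w ≤ 1 ∧ U ≠ ⊥ ∧ U ≠ ⊤ ∧ ∃ s, Ws A s x = U ∧ Ws A (s + w * R0) x = U}

omit [Fintype I] in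
theorem Cc_one {R0 : ℝ} {x : Fm P ρ} {U : Submodule K (V n K)} : 1 ∈ upperBounds (Cc_wt A R0 x U) :=
  fun _ h => h.elim (fun e => e.trans_le zero_le_one) And.left

omit [Fintype I] in
theorem Cc_ne {R0 : ℝ} {x : Fm P ρ} {U : Submodule K (V n K)} (h : sSup (Cc_wt A R0 x U) ≠ 0) :
    U ≠ ⊥ ∧ U ≠ ⊤ ∧ ∃ s, Ws A s x = U := by
  by_contra k
  refine h ((congrArg sSup (Set.eq_singleton_iff_unique_mem.2 ⟨.inl rfl, fun w hw =>
    hw.resolve_right fun ⟨_, a, b, s, c, _⟩ => k ⟨a, b, s, c⟩⟩)).trans (csSup_singleton 0))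

omit [Fintype I] in
theorem Cc_cl (hA : ∀ g p q, (ρ g).1 p q ∈ A) {ε k R0 : ℝ} (hε : 0 ≤ ε) (h0 : 0 ≤ R0)
    (hk : 2 * k ≤ ε * R0) {g : G} {x y : Fm P ρ} (h : ∀ v, Nr k (pt (g • x) v) (pt y v))
    (U : Sb ρ) : sSup (Cc_wt A R0 x U) ≤ sSup (Cc_wt A R0 y (g • U)) + ε := by
  have p0 : 0 ≤ sSup (Cc_wt A R0 y (g • U)) := le_csSup ⟨1, Cc_one⟩ (.inl rfl)
  refine csSup_le ⟨0, .inl rfl⟩ fun w hw => ?_
  rcases le_or_gt w ε with e | e
  · linarith
  obtain ⟨w1, a, b, s, c, d⟩ := hw.resolve_left (by linarith)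
  have e1 : (show Submodule K (V n K) from g • U) ≤ Ws A (s + k) y := by
    rw [← c]
    exact Ws_map hA (fun v => (h v).2) s
  have e2 : Ws A (s + k) y ≤ Ws A (s + k + (w - ε) * R0) y :=
    Ws_mono (le_add_of_nonneg_right (mul_nonneg (sub_pos.2 e).le h0)) y
  have e3 : Ws A (s + k + (w - ε) * R0) y ≤ g • U := by
    have e4 := Ws_map hA (g := 1) (x := y) (y := g • x)
      (fun v => by rw [one_smul]; exact (h v).1) (s + k + (w - ε) * R0)
    rw [map_one, Units.val_one, Matrix.mulVecLin_one, Submodule.map_id] at e4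
    rw [← d]
    exact (e4.trans (Ws_mono (by linarith) _)).trans
      (ge_of_eq (α := Submodule K (V n K)) (Cc_smul hA g _ x))
  exact sub_le_iff_le_add.1 (le_csSup ⟨1, Cc_one⟩ (.inr ⟨by linarith, mt Cc_bot.1 a, mt Cc_top.1 b,
    s + k, le_antisymm (e2.trans e3) e1, le_antisymm e3 (e1.trans e2)⟩))

/-- `R0 = 2 k / ε + 1`; `W x U` is the supremum of `0` and of the `w ≤ 1` with `U ≠ ⊥`, `U ≠ ⊤`,
`Ws s x = U = Ws (s + w R0) x` for some `s`. The support is a chain (`finrank` is injective on it).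
If all weights are below `1 / 4`, take `s0` with `Ws s0 x = ⊥ ≠ Ws (s0 + R0) x` (`Ws_bot`, `Ws_top`,
`Nat.find`); the dimension grows at each step `R0` until `⊤`, so `R = n R0`. -/
theorem thin [Nonempty I] (hn : 0 < n) (hL : GN.Low (fun v => (P v).av) A)
    (hA : ∀ g p q, (ρ g).1 p q ∈ A) {ε k : ℝ} (hε : 0 < ε) (hk : 0 ≤ k) :
    ∃ (R : ℝ) (W : Fm P ρ → Sb ρ → ℝ), (∀ x U, 0 ≤ W x U ∧ W x U ≤ 1) ∧
      (∀ x, (Function.support (W x)).encard ≤ (n + 1 : ℕ)) ∧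
      (∀ x U, W x U ≠ 0 → Red ρ (MulAction.stabilizer G U)) ∧
      (∀ x, x ∉ Thk P ρ A R → ∃ U, 1 / 4 ≤ W x U) ∧
      ∀ (g : G) x y, (∀ v, Nr k (pt (g • x) v) (pt y v)) → Cl ε g (W x) (W y) := by
  have h0 : 0 < 2 * k / ε + 1 := by positivity
  have h1 : 2 * k ≤ ε * (2 * k / ε + 1) := by
    rw [mul_add, mul_div_cancel₀ _ hε.ne']
    linarith
  generalize 2 * k / ε + 1 = R0 at h0 h1
  refine ⟨n * R0, fun x U => sSup (Cc_wt A R0 x U), fun x U => ⟨le_csSup ⟨1, Cc_one⟩ (.inl rfl),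
    csSup_le ⟨0, .inl rfl⟩ Cc_one⟩, fun x => ?_, fun x U h => red_stab (Cc_ne h).1 (Cc_ne h).2.1,
    fun x hx => ?_, fun g x y h U => abs_sub_le_iff.2 ⟨?_, ?_⟩⟩
  · rw [← Finset.card_range (n + 1), ← Set.encard_coe_eq_coe_finsetCard]
    refine Set.encard_le_encard_of_injOn
      (f := fun U : Submodule K (V n K) => Module.finrank K U) (fun U _ => ?_)
      fun U hU U' hU' e => ?_
    · exact Finset.mem_coe.2 (Finset.mem_range.2 (Nat.lt_succ_of_le
        ((Submodule.finrank_le U).trans_eq (Module.finrank_fin_fun K))))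
    · obtain ⟨-, -, s, rfl⟩ := Cc_ne hU
      obtain ⟨-, -, s', rfl⟩ := Cc_ne hU'
      rcases le_total s s' with a | a
      · exact Submodule.eq_of_le_of_finrank_eq (Ws_mono a x) e
      · exact (Submodule.eq_of_le_of_finrank_eq (Ws_mono a x) e.symm).symm
  · by_contra! hW
    have : Nonempty (Fin n) := ⟨⟨0, hn⟩⟩
    obtain ⟨sb, hb⟩ := Ws_bot hL x
    obtain ⟨st, ht⟩ := Ws_top (A := A) x
    obtain ⟨m, hm⟩ : ∃ m : ℕ, Ws A (sb + m * R0) x = ⊥ ∧ Ws A (sb + m * R0 + R0) x ≠ ⊥ := by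
      by_contra! k
      have k1 : ∀ m : ℕ, Ws A (sb + m * R0) x = ⊥ := fun m => by
        induction m with
        | zero => simpa using hb
        | succ m ih => rw [Nat.cast_succ, add_one_mul, ← add_assoc]; exact k m ih
      obtain ⟨m, hm⟩ := exists_nat_ge ((st - sb) / R0)
      rw [div_le_iff₀ h0] at hm
      exact top_ne_bot (le_bot_iff.1 (ht.ge.trans ((Ws_mono (by linarith) x).trans (k1 m).le)))
    generalize sb + m * R0 = s at hm
    have k : ∀ i : ℕ, Ws A (s + (i + 1) * R0) x = ⊤ ∨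
        i + 1 ≤ Module.finrank K (Ws A (s + (i + 1) * R0) x) := fun i => by
      induction i with
      | zero =>
        rw [Nat.cast_zero, zero_add, one_mul]
        exact .inr (Submodule.one_le_finrank_iff.2 hm.2)
      | succ i ih =>
        have a : Ws A (s + (i + 1) * R0) x ≤ Ws A (s + (i + 1) * R0 + 1 * R0) x :=
          Ws_mono (by linarith) x
        rw [Nat.cast_succ, add_mul _ 1 R0, ← add_assoc]
        by_cases b : Ws A (s + (i + 1) * R0) x = ⊤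
        · exact .inl (top_unique (b.ge.trans a))
        have c := ih.resolve_left b
        refine .inr (Nat.succ_le_of_lt (c.trans_lt (Submodule.finrank_lt_finrank_of_lt
          (a.lt_of_ne fun e => ?_))))
        have d := le_csSup ⟨1, Cc_one⟩ (show 1 ∈ Cc_wt A R0 x _ from .inr ⟨le_rfl,
          Submodule.one_le_finrank_iff.1 (by omega), b, _, rfl, e.symm⟩)
        linarith [hW (Ws A (s + (i + 1) * R0) x)]
    obtain ⟨i, rfl⟩ := Nat.exists_eq_succ_of_ne_zero hn.ne'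
    refine hx ⟨s, hm.1, ?_⟩
    rw [Nat.cast_succ]
    exact (k i).elim id fun a => Submodule.eq_top_of_finrank_eq (le_antisymm
      (Submodule.finrank_le _) ((Module.finrank_fin_fun K).trans_le a))
  · have := Cc_cl hA hε.le h0.le h1 (g := g⁻¹) (x := y) (y := x) (fun v => by
      have := (h v).symm.act ((P v).rp ρ g⁻¹)
      rwa [← pt_smul, ← pt_smul, inv_smul_smul] at this) (g • U)
    rw [inv_smul_smul] at this
    linarith
  · linarith [Cc_cl hA hε.le h0.le h1 h U]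

end Pool.Agent.Work.MP_9d1ffa_al.WL
end

-- merged part: Pool.Agent.Work.MP_9d1ffa_al.WL.Ce
section
/-! Margulis type lemmas with archimedean places. -/

namespace Pool.Agent.Work.MP_9d1ffa_al.WL

open Real Matrix
open GN (V Le Nr act cl Red wb)

section

variable {E : Type} [Field E] {n : ℕ} {a : AbsoluteValue E ℝ} {nm : (Fin n → ℝ) → ℝ}

/-- `Matrix.det_apply` and the triangle inequality. -/
theorem det_le_fact {ι : Type} [Fintype ι] [DecidableEq ι] (M : Matrix ι ι E) {r : ℝ}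
    (h : ∀ σ : Equiv.Perm ι, ∏ j, a (M (σ j) j) ≤ r) :
    a M.det ≤ (Fintype.card ι).factorial * r := by
  rw [det_apply', ← Fintype.card_perm, ← nsmul_eq_mul]
  refine (a.sum_le _ _).trans (Finset.sum_le_card_nsmul _ _ _ fun σ _ => ?_)
  rw [map_mul, map_prod]
  rcases Int.units_eq_one_or (Equiv.Perm.sign σ) with e | e <;> simpa [e] using h σ

theorem shift_aux (h : Nm nm) (hn : 0 < n) {f g : GL (Fin n) E} {β : Fin n → ℝ} {u : ℝ}
    (hg : g.1.det = 1) (e : Le u (dn a nm f β) (act g (dn a nm f β))) : 0 ≤ u := by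
  have p : ∀ k : ℕ, Le (k * u) (dn a nm f β) (act (g ^ k) (dn a nm f β)) := fun k => by
    induction k with
    | zero => simpa [GN.act_one] using GN.Le.rfl
    | succ k ih =>
      rw [pow_succ, GN.act_mul, Nat.cast_succ, add_mul, one_mul]
      exact ih.trans (e.act _)
  by_contra hu
  have n0 : (0 : ℝ) < n := by exact_mod_cast hn
  have u0 : 0 < n * -u := mul_pos n0 (by linarith)
  obtain ⟨k, hk⟩ := exists_nat_gt (n.factorial / (n * -u))
  have d := det_le_fact (a := a) (f⁻¹ * (g ^ k * f) : GL (Fin n) E).1 (r := exp (n * (k * u)))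
    fun σ => (Finset.prod_le_prod (fun _ _ => a.nonneg _)
      fun j _ => dn_entry h (act_dn (g ^ k) f β ▸ p k) (σ j) j).trans (le_of_eq (by
        rw [← exp_sum, Finset.sum_sub_distrib, Finset.sum_add_distrib, Equiv.sum_comp σ β]
        simp))
  rw [Units.val_mul, Units.val_mul, det_mul, det_mul, Units.val_pow_eq_pow_val, det_pow, hg, one_pow,
    one_mul, ← det_mul, Units.inv_mul, det_one, map_one, Fintype.card_fin] at d
  rw [div_lt_iff₀ u0] at hk
  have d2 := mul_le_mul_of_nonneg_right d (exp_pos (k * (n * -u))).le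
  rw [mul_assoc, ← exp_add, show n * (k * u) + k * (n * -u) = 0 by ring, exp_zero] at d2
  linarith [add_one_le_exp (k * (n * -u))]

/-- By induction `Le (k (η - c)) (act (g ^ k)⁻¹ y) y`-type bounds hold for all powers; `dn_entry` and
`det_le_fact` give `1 ≤ n ! * exp (n k (η - c))` for all `k`. Same for the inverse. -/
theorem shift_le (h : Nm nm) (hn : 0 < n) {f g : GL (Fin n) E} {β : Fin n → ℝ} {c η : ℝ}
    (hg : g.1.det = 1) (e : Nr η (dn a nm f fun j => β j + c) (act g (dn a nm f β))) : |c| ≤ η := by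
  rw [dn_const h] at e
  have e1 : Le (η - c) (dn a nm f β) (act g (dn a nm f β)) := fun x => by
    rw [exp_sub, div_mul_eq_mul_div, le_div_iff₀' (exp_pos c)]
    exact e.1 x
  have e2 : Le (η + c) (act g (dn a nm f β)) (dn a nm f β) := fun x => by
    rw [exp_add, mul_assoc]
    exact e.2 x
  have e3 := e2.act g⁻¹
  rw [← GN.act_mul, inv_mul_cancel, GN.act_one] at e3
  have g1 : (g⁻¹ : GL (Fin n) E).1.det = 1 := by
    rw [← mul_one (det _), ← hg, ← det_mul, Units.inv_mul, det_one, hg]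
  exact abs_le.2 ⟨by linarith [shift_aux h hn g1 e3], by linarith [shift_aux h hn hg e1]⟩

theorem Ce_gram (f : GL (Fin n) E) (g : Fin n × Fin n → GL (Fin n) E) (β : Fin n → ℝ) (r : ℝ)
    (d : Fin n × Fin n → ℝ) (h : ∀ s t : Fin n × Fin n,
      a ((f⁻¹ * (g s * f) : GL (Fin n) E).1 t.1 t.2) ≤ exp (r + β t.2 - β t.1 - d t)) :
    a (Matrix.of fun s t => ((g s).1 * (g t).1).trace).det ≤
      exp (2 * (log (n * n).factorial + ((n * n : ℕ) * r - ∑ t, d t))) := by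
  have e : ∑ t : Fin n × Fin n, β t.2 = ∑ t : Fin n × Fin n, β t.1 :=
    Equiv.sum_comp (Equiv.prodComm (Fin n) (Fin n)) fun t => β t.1
  rw [GN.gram_det a f, two_mul, exp_add, ← sq, exp_add, exp_log (by positivity)]
  refine pow_le_pow_left₀ (a.nonneg _) ((det_le_fact _ fun σ => (Finset.prod_le_prod
    (fun _ _ => a.nonneg _) fun t _ => (mul_assoc f⁻¹ _ f ▸ h (σ t) t :)).trans_eq ?_).trans_eq
      (by rw [Fintype.card_prod, Fintype.card_fin])) 2
  rw [← exp_sum, Finset.sum_sub_distrib, Finset.sum_sub_distrib, Finset.sum_add_distrib, e,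
    add_sub_cancel_right, Finset.sum_const, Finset.card_univ, Fintype.card_prod, Fintype.card_fin,
    nsmul_eq_mul]

end

/-- The sets `O k` of the points `h₁ ⋯ h_j • x`, `j ≤ k`, increase and have at most `M` elements for
`k ≤ M + 1`; so `O k = O (k + 1)` for some `k`, and the orbit of `x` under the closure is finite. -/
theorem fin_orbit {F J G : Type} [Fintype J] [Group G] [MulAction G F] {Φ : (J → ℝ) → F → F}
    {N : ℝ → ℝ → F → F → Prop} (hF : Flw G Φ N) {x : F} {M : ℕ} {θ : ℝ} (h0 : 0 ≤ θ)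
    (hθ : (M + 1) * θ ≤ 1) (hM : {y | (∃ g : G, y = g • x) ∧ N 0 1 x y}.encard ≤ M) :
    (MulAction.stabilizer G x).relIndex (Subgroup.closure {g : G | N 0 θ x (g • x)}) ≠ 0 := by
  let O : ℕ → Set F := fun k => Nat.rec {x}
    (fun _ A => A ∪ {z | ∃ g : G, ∃ y ∈ A, N 0 θ x (g • x) ∧ z = g • y}) k
  have o1 : ∀ k, ∀ y ∈ O k, (∃ g : G, y = g • x) ∧ N 0 (k * θ) x y := fun k => by
    induction k with
    | zero =>
      intro y (e : y = x)
      exact ⟨⟨1, e.trans (one_smul _ _).symm⟩, by simpa [e] using hF.refl 0 x⟩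
    | succ k ih =>
      rintro _ (hy | ⟨g, y, hy, hg, rfl⟩)
      · exact ⟨(ih _ hy).1, hF.mono (ih _ hy).2 le_rfl (by push_cast; linarith)⟩
      · obtain ⟨⟨g', rfl⟩, k2⟩ := ih _ hy
        exact ⟨⟨g * g', (mul_smul _ _ _).symm⟩,
          hF.mono (hF.trans hg (hF.inv g k2)) le_rfl (by push_cast; linarith)⟩
  have o2 : ∀ k ≤ M + 1, (O k).encard ≤ M := fun k hk => le_trans (Set.encard_le_encard fun y hy =>
    show _ ∧ _ from ⟨(o1 k y hy).1, hF.mono (o1 k y hy).2 le_rfl ((mul_le_mul_of_nonneg_right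
      (by exact_mod_cast hk) h0).trans hθ)⟩) hM
  have o3 : ∀ k ≤ M + 1, (O k).Finite := fun k hk => Set.finite_of_encard_le_coe (o2 k hk)
  have o4 : ∀ k, x ∈ O k := fun k => by
    induction k with
    | zero => rfl
    | succ k ih => exact .inl ih
  obtain ⟨k, hk, e⟩ : ∃ k ≤ M, O (k + 1) ⊆ O k := by
    by_contra! c
    have : ∀ k ≤ M + 1, (k : ℕ∞) ≤ (O k).encard := fun k hk => by
      induction k with
      | zero => simp
      | succ k ih =>
        exact Order.add_one_le_of_lt ((ih (by omega)).trans_lt ((o3 k (by omega)).encard_lt_encard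
          ⟨Set.subset_union_left, c k (by omega)⟩))
    exact absurd (Nat.cast_le.1 ((this _ le_rfl).trans (o2 _ le_rfl))) (by omega)
  have o5 : ∀ g ∈ Subgroup.closure {g : G | N 0 θ x (g • x)}, ∀ y ∈ O k, g • y ∈ O k := by
    intro g hg
    induction hg using Subgroup.closure_induction'' with
    | mem g hg => exact fun y hy => e (.inr ⟨g, y, hy, hg, rfl⟩)
    | inv_mem g hg =>
      exact fun y hy => e (.inr ⟨g⁻¹, y, hy, by simpa using hF.symm (hF.inv g⁻¹ hg), rfl⟩)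
    | one => exact fun y hy => (one_smul G y).symm ▸ hy
    | mul g g' _ _ k1 k2 => exact fun y hy => (mul_smul g g' y).symm ▸ k1 _ (k2 y hy)
  have f : (MulAction.orbit (Subgroup.closure {g : G | N 0 θ x (g • x)}) x).Finite :=
    (o3 k (by omega)).subset (by
      rintro _ ⟨g, rfl⟩
      exact o5 g g.2 x (o4 k))
  have := Finite.of_equiv _ (h := f) (MulAction.orbitEquivQuotientStabilizer _ x)
  exact (Subgroup.finiteIndex_of_finite_quotient (H := MulAction.stabilizer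
    (Subgroup.closure {g : G | N 0 θ x (g • x)}) x)).index_ne_zero

variable {K : Type} [Field K] {n : ℕ} {I J G : Type} [Fintype J] [Group G]
  {P : I → Pc K n} {ρ : G →* GL (Fin n) K} {A : Subring K} {bl : I → Fin n → J}

/-- As `GN.red_of_gap` (copy it): `span_pow`, the Gram determinant `D ∈ A`, its image under `σ` is
the Gram determinant of the matrices `rp ρ (g s)` (`RingHom.map_det`), `GN.gram_det` over `E`,
`dn_entry`, `det_le_fact`. Products of `l` elements move the norms by at most `l r`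
(`Nr.act`, `Nr.trans`, `act_mul`). -/
theorem red_gap (hL : GN.Low (fun v => (P v).av) A) (hA : ∀ g p q, (ρ g).1 p q ∈ A) {r : ℝ}
    (hr : 0 ≤ r) : ∃ L : ℝ, 0 ≤ L ∧ ∀ (x x' : Fm P ρ) (v0 : I) (p0 q0 : Fin n),
      (x' v0).1 = (x v0).1 → (x' v0).2 q0 - (x' v0).2 p0 + L ≤ (x v0).2 q0 - (x v0).2 p0 →
      Red ρ (Subgroup.closure {g | (∀ v, Nr r (pt (g • x) v) (pt x v)) ∧
        Nr r (pt (g • x') v0) (pt x' v0)}) := by
  classical
  obtain ⟨L0, h0⟩ := hL (2 * (log (n * n).factorial + (n * n : ℕ) * ((n * n : ℕ) * r)))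
  obtain ⟨L, hLL⟩ := exists_nat_ge (log (n * n).factorial + (n * n : ℕ) * ((n * n : ℕ) * r) + L0 / 2)
  refine ⟨L, L.cast_nonneg, fun x x' v0 p0 q0 hf hgap => by_contra fun hc => ?_⟩
  have one : ∀ (y : Fm P ρ) v, Nr r (pt ((1 : G) • y) v) (pt y v) := fun y v => by
    rw [one_smul]
    exact GN.Nr.rfl.mono (pt_nonneg _ _) (pt_nonneg _ _) hr
  have sm : ∀ (g : G) {u : ℝ} {y z : Fm P ρ} {v}, Nr u (pt y v) (pt z v) →
      Nr u (pt (g • y) v) (pt (g • z) v) := fun g _ _ _ _ h => by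
    rw [pt_smul, pt_smul]
    exact h.act _
  have sp := GN.span_pow ρ (H := {g | (∀ v, Nr r (pt (g • x) v) (pt x v)) ∧
    Nr r (pt (g • x') v0) (pt x' v0)}) ⟨one x, one x' v0⟩ (fun g hg =>
      ⟨fun v => by simpa using (sm g⁻¹ (hg.1 v)).symm, by simpa using (sm g⁻¹ hg.2).symm⟩) hc
  generalize hH : {g : G | (∀ v, Nr r (pt (g • x) v) (pt x v)) ∧
    Nr r (pt (g • x') v0) (pt x' v0)} = H at sp
  obtain ⟨w, hv, -, li⟩ := Submodule.exists_fun_fin_finrank_span_eq K ((fun g => (ρ g).1) ''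
    {g | ∃ l : List G, l.length ≤ n * n ∧ (∀ x ∈ l, x ∈ H) ∧ l.prod = g})
  let e := Fintype.equivFinOfCardEq (α := Fin n × Fin n)
    (show _ = Module.finrank K (Submodule.span K ((fun g => (ρ g).1) ''
      {g | ∃ l : List G, l.length ≤ n * n ∧ (∀ x ∈ l, x ∈ H) ∧ l.prod = g})) by
      rw [sp]; simp [Module.finrank_matrix])
  have li' := li.comp e e.injective
  choose g hg hgv using fun s => hv (e s)
  choose l hl hlH hlg using hg
  have hbd : ∀ (y : Fm P ρ) v, (∀ h ∈ H, Nr r (pt (h • y) v) (pt y v)) → ∀ s p q,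
      (P v).a (((y v).1⁻¹ * ((P v).rp ρ (g s) * (y v).1) : GL (Fin n) (P v).E).1 p q) ≤
        exp ((n * n : ℕ) * r + (y v).2 q - (y v).2 p) := fun y v hy s => by
    have k : ∀ l : List G, (∀ h ∈ l, h ∈ H) →
        Nr (l.length * r) (pt (l.prod • y) v) (pt y v) := fun l hl => by
      induction l with
      | nil => simpa using GN.Nr.rfl
      | cons h l ih =>
        rw [List.length_cons, List.prod_cons, mul_smul, Nat.cast_succ, add_one_mul]
        exact (sm h (ih fun z hz => hl z (List.mem_cons_of_mem _ hz))).trans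
          (hy h (hl h List.mem_cons_self))
    exact dn_entry (P v).hnm ((hlg s ▸ k _ (hlH s)).2.mono (pt_nonneg _ _)
      (mul_le_mul_of_nonneg_right (Nat.cast_le.2 (hl s)) hr))
  have gm : ∀ v, (P v).av (Matrix.of fun s t => ((ρ (g s)).1 * (ρ (g t)).1).trace).det = (P v).a
      (Matrix.of fun s t => (((P v).rp ρ (g s)).1 * ((P v).rp ρ (g t)).1).trace).det := fun v => by
    refine congrArg (P v).a (((P v).σ.map_det _).trans (congrArg det ?_))
    ext s t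
    simp [Pc.rp_val, ← Matrix.map_mul, AddMonoidHom.map_trace]
  have h1 : ∀ v, ∀ h ∈ H, Nr r (pt (h • x) v) (pt x v) := fun v h hh => (hH ▸ hh :).1 v
  have hD := h0 (Matrix.of fun s t => ((ρ (g s)).1 * (ρ (g t)).1).trace).det ?_ (fun v => ?_)
    ⟨v0, ?_⟩
  · have h2 := GN.gram_det (P v0).av 1 fun s => ρ (g s)
    rw [hD, map_zero, eq_comm, sq_eq_zero_iff, AbsoluteValue.eq_zero,
      ← exists_vecMul_eq_zero_iff] at h2
    obtain ⟨c, hc0, hc1⟩ := h2
    refine hc0 (funext (Fintype.linearIndependent_iff.1 li' c ?_))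
    ext p q
    have h3 := congrFun hc1 (p, q)
    simp only [vecMul, dotProduct, Matrix.of_apply, inv_one, one_mul, mul_one, Pi.zero_apply] at h3
    simp only [Matrix.sum_apply, Matrix.smul_apply, smul_eq_mul, Function.comp_apply, ← hgv,
      Matrix.zero_apply]
    exact h3
  · rw [det_apply']
    refine A.sum_mem fun σ _ => A.mul_mem (intCast_mem A _) (A.prod_mem fun s _ => ?_)
    rw [Matrix.of_apply, ← Units.val_mul, ← map_mul]
    exact A.sum_mem fun p _ => hA _ p p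
  · have := Ce_gram (x v).1 (fun s => (P v).rp ρ (g s)) (x v).2 _ 0 fun s t => by
      rw [Pi.zero_apply, sub_zero]
      exact hbd x v (h1 v) s t.1 t.2
    simpa only [gm, Pi.zero_apply, Finset.sum_const_zero, sub_zero] using this
  · refine (gm v0).trans_le ((Ce_gram (x v0).1 (fun s => (P v0).rp ρ (g s)) (x v0).2
      ((n * n : ℕ) * r) (Pi.single (p0, q0) L) fun s t => ?_).trans (exp_le_exp.2 ?_))
    · by_cases ht : t = (p0, q0)
      · rw [ht, Pi.single_eq_same, ← hf]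
        exact (hbd x' v0 (fun h hh => (hH ▸ hh :).2) s p0 q0).trans (exp_le_exp.2 (by linarith))
      · rw [Pi.single_eq_of_ne ht, sub_zero]
        exact hbd x v0 (h1 v0) s t.1 t.2
    · rw [Finset.sum_pi_single', if_pos (Finset.mem_univ _)]
      linarith

/-- If `bl v p0 ≠ bl v q0` for some `v`: `red_gap` for `max r 0 + 1`, window `L`, `η = 1`,
`x' = fw bl (Pi.single (bl v p0) L) x`. Otherwise `η = 1 / (2 (M + 1))`, window `0`: `shift_le` at
every place, `fin_orbit`, and the stabiliser of `x` lies in the kernel of `ρ`. -/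
theorem gd [Nonempty I] (hn : 0 < n) (hL : GN.Low (fun v => (P v).av) A)
    (hA : ∀ g p q, (ρ g).1 p q ∈ A) (hd : ∀ g, (ρ g).1.det = 1) (hs : ∀ k, ∃ v j, bl v j = k)
    {Θ : Set (Fm P ρ)} (hM : Mlt G (NN bl) Θ) : Gd (VR ρ) (fw bl) (NN bl) Θ := by
  classical
  have : Nonempty J := ⟨bl (Classical.arbitrary I) ⟨0, hn⟩⟩
  have hF := flw (P := P) (ρ := ρ) hs
  intro r
  by_cases c : ∀ v p q, bl v p = bl v q
  · obtain ⟨M, hM⟩ := hM 1
    have m0 : (0 : ℝ) < M + 1 := by positivity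
    refine ⟨0, 1 / (M + 1) / 2, by positivity, fun x hx => VR.mono (H' := Subgroup.closure
      {g : G | NN bl 0 (1 / (M + 1)) x (g • x)}) (Subgroup.closure_mono ?_)
      ⟨MulAction.stabilizer G x ⊓ _, inf_le_right, ?_, .inr fun g hg => ?_⟩⟩
    · rintro g ⟨s, -, hg⟩
      have k : ‖s‖ ≤ 1 / (M + 1) / 2 := (pi_norm_le_iff_of_nonempty s).2 fun k => by
        obtain ⟨v, j, rfl⟩ := hs k
        have e := NN_zero.1 hg v
        rw [pt_smul] at e
        refine shift_le (P v).hnm hn (f := (x v).1) (β := (x v).2) (a := (P v).a)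
          (g := (P v).rp ρ g) (by rw [Pc.rp_val, ← RingHom.mapMatrix_apply, ← RingHom.map_det, hd, map_one]) ?_
        simpa only [pt, fw, c v _ j] using e
      exact hF.mono (hF.trans (hF.symm (hF.move 0 s x)) hg) le_rfl (by linarith)
    · rw [Subgroup.inf_relIndex_right]
      exact fin_orbit hF (by positivity) (by rw [mul_one_div_cancel m0.ne']) (hM x hx)
    · obtain ⟨v⟩ := ‹Nonempty I›
      have e : (P v).rp ρ g = 1 := mul_eq_right.1 (congrArg (fun y : Fm P ρ => (y v).1) hg.1)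
      refine Units.ext (Matrix.map_injective (P v).σ.injective ?_)
      exact (congrArg Units.val e).trans (Matrix.map_one _ (map_zero _) (map_one _)).symm
  · push Not at c
    obtain ⟨v, p, q, c⟩ := c
    obtain ⟨L, L0, hr⟩ := red_gap hL hA (r := max r 0 + 1) (by positivity)
    refine ⟨L, 1, one_pos, fun x _ => VR.mono (Subgroup.closure_mono ?_) ⟨_, le_rfl, by simp,
      .inl (hr x (fw bl (Pi.single (bl v p) L) x) v p q rfl (by simp [fw, c.symm, ← sub_sub]))⟩⟩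
    rintro g ⟨s, h1, hg⟩
    have k : ∀ t : J → ℝ, ‖t‖ ≤ L → ∀ w,
        Nr (max r 0 + 1) (pt (g • fw bl t x) w) (pt (fw bl t x) w) := fun t ht => by
      have e := hF.flow (ρ := 0) (by rwa [zero_add]) ht
      rw [← hF.add, add_comm, hF.add, hF.smul] at e
      exact NN_zero.1 (hF.mono (hF.trans (hF.symm e) (hF.move 0 s _)) le_rfl
        (by linarith [le_max_left r 0]))
    exact ⟨fun w => by simpa only [hF.zero] using k 0 (by simpa) w,
      k _ (by rw [Pi.norm_single, Real.norm_of_nonneg L0]) v⟩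

end Pool.Agent.Work.MP_9d1ffa_al.WL
end

-- merged part: Pool.Agent.Work.MP_9d1ffa_al.WL.CuA
section
/-! Nets, colourings and general position at one scale. -/

namespace Pool.Agent.Work.MP_9d1ffa_al.WL

open Set

theorem exists_net {α : Type*} (U : Set α) {R : α → α → Prop} (hR : ∀ x y, R x y → R y x) :
    ∃ A ⊆ U, (∀ x ∈ A, ∀ y ∈ A, R x y → x = y) ∧ ∀ x ∈ U, x ∈ A ∨ ∃ a ∈ A, R a x := by
  obtain ⟨A, hA⟩ := zorn_subset {A | A ⊆ U ∧ A.Pairwise fun x y => ¬R x y} fun c hc hch =>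
    ⟨⋃₀ c, ⟨sUnion_subset fun s hs => (hc hs).1, hch.pairwise_sUnion.2 fun s hs => (hc hs).2⟩,
      fun s hs => subset_sUnion_of_mem hs⟩
  refine ⟨A, hA.prop.1, fun x hx y hy h => by_contra fun e => hA.prop.2 hx hy e h, fun x hx => ?_⟩
  refine or_iff_not_imp_right.2 fun h => hA.mem_of_prop_insert ⟨insert_subset hx hA.prop.1, ?_⟩
  exact pairwise_insert.2 ⟨hA.prop.2, fun b hb _ =>
    ⟨fun e => h ⟨b, hb, hR _ _ e⟩, fun e => h ⟨b, hb, e⟩⟩⟩

theorem exists_col {α : Type*} {R : α → α → Prop} (hR : ∀ x y, R x y → R y x) (n : ℕ) (U : Set α)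
    (h : ∀ v ∈ U, {w | w ∈ U ∧ R w v ∧ w ≠ v}.encard ≤ n) :
    ∃ col : α → ℕ, (∀ v, col v ≤ n) ∧ ∀ v ∈ U, ∀ w ∈ U, R v w → col v = col w → v = w := by
  classical
  induction n generalizing U with
  | zero =>
    refine ⟨fun _ => 0, fun _ => le_rfl, fun v hv w hw k _ => by_contra fun e => ?_⟩
    have k' := encard_eq_zero.1 (nonpos_iff_eq_zero.1 (h w hw))
    exact (eq_empty_iff_forall_notMem.1 k') v ⟨hv, k, e⟩
  | succ n ih =>
    obtain ⟨A, hA, h1, h2⟩ := exists_net U hR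
    obtain ⟨col, h3, h4⟩ := ih (U \ A) fun v hv => by
      obtain ⟨a, ha, k⟩ := (h2 v hv.1).resolve_left hv.2
      have k1 := encard_diff_singleton_add_one (s := {w | w ∈ U ∧ R w v ∧ w ≠ v}) (a := a)
        ⟨hA ha, k, fun e => hv.2 (e ▸ ha)⟩
      have k2 := h v hv.1
      rw [← k1, Nat.cast_succ, ENat.add_le_add_iff_right ENat.one_ne_top] at k2
      refine le_trans (encard_le_encard fun w hw => ?_) k2
      exact ⟨⟨hw.1.1, hw.2⟩, fun e => hw.1.2 ((mem_singleton_iff.1 e) ▸ ha)⟩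
    refine ⟨fun v => if v ∈ A then n + 1 else col v, fun v => ?_, fun v hv w hw k e => ?_⟩
    · have := h3 v
      dsimp only
      split_ifs <;> omega
    · have := h3 v
      have := h3 w
      dsimp only at e
      split_ifs at e with a b b
      exacts [h1 v a w b k, by omega, by omega, h4 v ⟨hv, a⟩ w ⟨hw, b⟩ k e]

section

variable {F : Type*} {P : F → F → Prop} {m : ℕ} {A : Set F}

/-- `A` is covered by at most `m` sets on which `P` holds pairwise -/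
def Sml (P : F → F → Prop) (m : ℕ) (A : Set F) : Prop :=
  ∃ 𝒰 : Finset (Set F), 𝒰.card ≤ m ∧ (∀ x ∈ A, ∃ U ∈ 𝒰, x ∈ U) ∧ ∀ U ∈ 𝒰, ∀ y ∈ U, ∀ z ∈ U, P y z

theorem Sml.mono {A' : Set F} (h : Sml P m A) (k : A' ⊆ A) : Sml P m A' :=
  h.imp fun _ h => ⟨h.1, fun x hx => h.2.1 x (k hx), h.2.2⟩

theorem Sml.comap (h : Sml P m A) (f : F → F) (k : ∀ y z, P (f y) (f z) → P y z) :
    Sml P m (f ⁻¹' A) := by
  classical
  obtain ⟨𝒰, h1, h2, h3⟩ := h
  refine ⟨𝒰.image (f ⁻¹' ·), Finset.card_image_le.trans h1, fun x hx => ?_, fun U hU => ?_⟩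
  · obtain ⟨U, a, b⟩ := h2 _ hx
    exact ⟨_, Finset.mem_image_of_mem _ a, b⟩
  · obtain ⟨V, a, rfl⟩ := Finset.mem_image.1 hU
    exact fun y hy z hz => k y z (h3 V a _ hy _ hz)

theorem Sml.union {α : Type*} (S : Finset α) {B : α → Set F} (h : ∀ c, Sml P m (B c)) {M : ℕ}
    (hS : S.card ≤ M) (k : ∀ x ∈ A, ∃ c ∈ S, x ∈ B c) : Sml P (M * m) A := by
  classical
  choose 𝒰 h1 h2 h3 using h
  refine ⟨S.biUnion 𝒰, (Finset.card_biUnion_le_card_mul _ _ _ fun c _ => h1 c).trans (by gcongr),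
    fun x hx => ?_, fun U hU => ?_⟩
  · obtain ⟨c, a, b⟩ := k x hx
    obtain ⟨U, d, e⟩ := h2 c x b
    exact ⟨U, Finset.mem_biUnion.2 ⟨c, a, d⟩, e⟩
  · obtain ⟨c, -, a⟩ := Finset.mem_biUnion.1 hU
    exact h3 c U a

theorem Sml.pigeon (h : Sml P m A) {K : ℕ} (hK : 0 < K) {S : ℕ → Set F} (h1 : ∀ k, S k ⊆ A)
    (h2 : ∀ k k', ∀ x ∈ S k, ∀ y ∈ S k', P x y → k = k') : ∃ k < K, Sml P (m / K) (S k) := by
  classical
  obtain ⟨𝒰, a1, a2, a3⟩ := h
  have hf : ∀ U : Set F, ∃ j : ℕ, U ∈ 𝒰 → ∀ k, ∀ x ∈ S k, x ∈ U → j = k := fun U => by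
    by_cases e : ∃ k, ∃ x ∈ S k, x ∈ U
    · obtain ⟨j, y, b1, b2⟩ := e
      exact ⟨j, fun hU k x hx hx' => h2 j k y b1 x hx (a3 U hU y b2 x hx')⟩
    · exact ⟨0, fun _ k x hx hx' => (e ⟨k, x, hx, hx'⟩).elim⟩
  choose f hf using hf
  obtain ⟨k, b1, b2⟩ := Finset.exists_card_fiber_lt_of_card_lt_mul (s := 𝒰) (t := Finset.range K)
    (f := f) (n := m / K + 1) (by rw [Finset.card_range]; exact a1.trans_lt (Nat.lt_mul_div_succ m hK))
  refine ⟨k, Finset.mem_range.1 b1, _, Nat.lt_succ_iff.1 b2, fun x hx => ?_,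
    fun U hU => a3 U (Finset.mem_filter.1 hU).1⟩
  obtain ⟨U, d, e⟩ := a2 x (h1 k hx)
  exact ⟨U, Finset.mem_filter.2 ⟨d, hf U d k x hx e⟩, e⟩

variable {G : Type*} [Group G] [MulAction G F] {Q : F → F → ℕ → Prop} {Bl : F → F → Prop}
  {M K : ℕ}

theorem gen_step (hP : ∀ (g : G) x y, P (g • x) (g • y) → P x y)
    (hQ : ∀ (g : G) c x k, Q c x k → Q (g • c) (g • x) k) (hB : ∀ c x k, Q c x k → Bl c x)
    (h1 : ∀ c x y k k', Q c x k → Q c y k' → P x y → k = k')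
    (hM : ∀ x0, ∃ S : Finset F, S.card ≤ M ∧ ∀ c x k, Bl x0 x → Q c x k → c ∈ S) (hK : 0 < K)
    (hA : ∀ (g : G) x, x ∈ A → g • x ∈ A) (h : ∀ x0, Sml P m {x | x ∈ A ∧ Bl x0 x}) :
    ∃ th : F → ℕ, (∀ c, th c < K) ∧ (∀ (g : G) c, th (g • c) = th c) ∧
      ∀ x0, Sml P (M * (m / K)) {x | (x ∈ A ∧ ∃ c, Q c x (th c)) ∧ Bl x0 x} := by
  choose t t1 t2 using fun c => (h c).pigeon hK (S := fun k => {x | x ∈ A ∧ Q c x k})
    (fun k x hx => ⟨hx.1, hB _ _ _ hx.2⟩) fun k k' x hx y hy => h1 c x y k k' hx.2 hy.2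
  refine ⟨fun c => t (Quotient.mk (MulAction.orbitRel G F) c).out, fun c => t1 _,
    fun g c => ?_, fun x0 => ?_⟩
  · simp only [Quotient.sound (s := MulAction.orbitRel G F) (a := g • c) (b := c) ⟨g, rfl⟩]
  · obtain ⟨S, a, b⟩ := hM x0
    refine Sml.union S (B := fun c => {x | x ∈ A ∧
      Q c x (t (Quotient.mk (MulAction.orbitRel G F) c).out)}) (fun c => ?_) a ?_
    · obtain ⟨g, hg⟩ := Quotient.mk_out (s := MulAction.orbitRel G F) c
      refine ((t2 (Quotient.mk (MulAction.orbitRel G F) c).out).comap (g • ·) (hP g)).mono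
        fun x hx => ⟨hA g x hx.1, ?_⟩
      have k := hQ g _ _ _ hx.2
      rwa [show g • c = _ from hg] at k
    · rintro x ⟨⟨d, c, e⟩, f⟩
      exact ⟨c, b c x _ f e, d, e⟩

theorem gen_pos (hP : ∀ (g : G) x y, P (g • x) (g • y) → P x y)
    (hQ : ∀ (g : G) c x k, Q c x k → Q (g • c) (g • x) k) (hB : ∀ c x k, Q c x k → Bl c x)
    (h1 : ∀ c x y k k', Q c x k → Q c y k' → P x y → k = k')
    (hM : ∀ x0, ∃ S : Finset F, S.card ≤ M ∧ ∀ c x k, Bl x0 x → Q c x k → c ∈ S)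
    (h : ∀ x0, Sml P m {x | Bl x0 x}) (h0 : ∀ x, Bl x x) {n : ℕ} (hK : 0 < K)
    (hn : m * M ^ n < K ^ n) :
    ∃ th : Fin n → F → ℕ, (∀ j c, th j c < K) ∧ (∀ j (g : G) c, th j (g • c) = th j c) ∧
      ∀ x, ∃ j, ∀ c, ¬Q c x (th j c) := by
  have key : ∀ n : ℕ, ∃ th : Fin n → F → ℕ, (∀ j c, th j c < K) ∧
      (∀ j (g : G) c, th j (g • c) = th j c) ∧ ∃ m', m' * K ^ n ≤ m * M ^ n ∧
      ∀ x0, Sml P m' {x | x ∈ {x | ∀ j, ∃ c, Q c x (th j c)} ∧ Bl x0 x} := by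
    intro n
    induction n with
    | zero =>
      exact ⟨Fin.elim0, fun j => j.elim0, fun j => j.elim0, m, by simp,
        fun x0 => (h x0).mono fun x hx => hx.2⟩
    | succ n ih =>
      obtain ⟨th, a1, a2, m', a3, a4⟩ := ih
      obtain ⟨t, b1, b2, b3⟩ := gen_step hP hQ hB h1 hM hK (A := {x | ∀ j, ∃ c, Q c x (th j c)})
        (fun g x hx j => (hx j).elim fun c e => ⟨g • c, by rw [a2]; exact hQ g _ _ _ e⟩) a4
      refine ⟨Fin.cons t th, fun j => j.cases b1 a1, fun j => j.cases b2 a2, _, ?_,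
        fun x0 => (b3 x0).mono fun x hx => ⟨⟨fun j => hx.1 j.succ, hx.1 0⟩, hx.2⟩⟩
      calc M * (m' / K) * K ^ (n + 1) = M * (m' / K * K * K ^ n) := by ring
        _ ≤ M * (m' * K ^ n) := by gcongr; exact Nat.div_mul_le_self _ _
        _ ≤ M * (m * M ^ n) := by gcongr
        _ = _ := by ring
  obtain ⟨th, a1, a2, m', a3, a4⟩ := key n
  refine ⟨th, a1, a2, fun x => by_contra fun e => ?_⟩
  push Not at e
  obtain ⟨𝒰, b1, b2, -⟩ := a4 x
  obtain ⟨U, b3, -⟩ := b2 x ⟨e, h0 x⟩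
  have := Finset.card_pos.2 ⟨U, b3⟩
  have : 1 * K ^ n ≤ m' * K ^ n := by gcongr; omega
  omega

end

end Pool.Agent.Work.MP_9d1ffa_al.WL
end

-- merged part: Pool.Agent.Work.MP_9d1ffa_al.WL.CuB
section
/-! Nets, counting and profiles in a flow space with uniform geometry. -/

namespace Pool.Agent.Work.MP_9d1ffa_al.WL

open Set

variable {F J G : Type} [Fintype J] [Group G] [MulAction G F] {Φ : (J → ℝ) → F → F}
  {N : ℝ → ℝ → F → F → Prop} {Θ C : Set F} {D : ℕ} {ρ η : ℝ}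

theorem Flw.inv' (hF : Flw G Φ N) {ρ δ : ℝ} {x y : F} (g : G) (h : N ρ δ (g • x) (g • y)) :
    N ρ δ x y := by simpa using hF.inv g⁻¹ h

theorem Flw.net (hF : Flw G Φ N) (hΘ : ∀ (g : G), ∀ x ∈ Θ, g • x ∈ Θ) (ρ : ℝ) (hη : 0 ≤ η) :
    ∃ C ⊆ Θ, (∀ (g : G), ∀ c ∈ C, g • c ∈ C) ∧ (∀ x ∈ Θ, ∃ c ∈ C, N ρ η x c) ∧
      ∀ c ∈ C, ∀ c' ∈ C, N ρ η c c' → ∃ g : G, c' = g • c := by
  obtain ⟨A, h1, h2, h3⟩ := exists_net Θ (R := fun x y => ∃ g : G, N ρ η x (g • y))
    fun x y ⟨g, h⟩ => ⟨g⁻¹, hF.inv' g (by simpa using hF.symm h)⟩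
  refine ⟨{c | ∃ a ∈ A, ∃ g : G, c = g • a}, ?_, ?_, fun x hx => ?_, ?_⟩
  · rintro _ ⟨a, ha, g, rfl⟩
    exact hΘ g a (h1 ha)
  · rintro g _ ⟨a, ha, g', rfl⟩
    exact ⟨a, ha, g * g', (mul_smul _ _ _).symm⟩
  · rcases h3 x hx with k | ⟨a, ha, g, k⟩
    · exact ⟨x, ⟨x, k, 1, (one_smul _ _).symm⟩, hF.mono (hF.refl ρ x) le_rfl hη⟩
    · exact ⟨_, ⟨a, ha, g⁻¹, rfl⟩, hF.inv' g (by simpa using hF.symm k)⟩
  · rintro _ ⟨a, ha, g, rfl⟩ _ ⟨a', ha', g', rfl⟩ k
    obtain rfl := h2 a ha a' ha' ⟨g⁻¹ * g', hF.inv' g (by simpa [mul_smul] using k)⟩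
    exact ⟨g' * g⁻¹, by simp [mul_smul]⟩

theorem Flw.orbs (hF : Flw G Φ N) (hC : Cvr N D) (hη : 0 < η)
    (hs : ∀ c ∈ C, ∀ c' ∈ C, N ρ η c c' → ∃ g : G, c' = g • c) (B : ℝ) :
    ∃ M : ℕ, ∀ x, ∃ f : F → Fin M, ∀ c ∈ C, ∀ c' ∈ C, N 0 B x c → N 0 B x c' → f c = f c' →
      ∃ g : G, c' = g • c := by
  obtain ⟨C0, h⟩ := hC ρ B
  obtain ⟨n, hn⟩ := exists_nat_one_div_lt hη
  refine ⟨_, fun x => (h (n + 1) (by omega) x).imp fun f hf c hc c' hc' a b e => hs c hc c' hc' ?_⟩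
  exact hF.mono (hf c c' a b e) le_rfl (by exact_mod_cast hn.le)

theorem Flw.count (hF : Flw G Φ N) (hC : Cvr N D) (hM : Mlt G N Θ) (hΘ : C ⊆ Θ) (hη : 0 < η)
    (hs : ∀ c ∈ C, ∀ c' ∈ C, N ρ η c c' → ∃ g : G, c' = g • c) (B : ℝ) :
    ∃ M : ℕ, ∀ x, ∃ S : Finset F, S.card ≤ M ∧ ∀ c ∈ C, N 0 B x c → c ∈ S := by
  classical
  obtain ⟨M1, h1⟩ := hF.orbs hC hη hs B
  obtain ⟨M2, h2⟩ := hM (B + B)
  refine ⟨M1 * M2, fun x => ?_⟩
  obtain ⟨f, hf⟩ := h1 x
  have k : ∀ i, ∃ S : Finset F, S.card ≤ M2 ∧ ∀ c ∈ C, N 0 B x c → f c = i → c ∈ S := fun i => by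
    by_cases e : ∃ c ∈ C, N 0 B x c ∧ f c = i
    · obtain ⟨c, a, b, d⟩ := e
      have k1 := h2 c (hΘ a)
      have k2 := finite_of_encard_le_coe k1
      refine ⟨k2.toFinset, ?_, fun c' a' b' d' => k2.mem_toFinset.2
        ⟨hf c a c' a' b b' (d.trans d'.symm), hF.trans (hF.symm b) b'⟩⟩
      rwa [k2.encard_eq_coe_toFinset_card, Nat.cast_le] at k1
    · exact ⟨∅, Nat.zero_le _, fun c a b d => (e ⟨c, a, b, d⟩).elim⟩
  choose S h3 h4 using k
  refine ⟨Finset.univ.biUnion S, ?_, fun c a b =>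
    Finset.mem_biUnion.2 ⟨_, Finset.mem_univ _, h4 _ c a b rfl⟩⟩
  simpa using Finset.card_biUnion_le_card_mul Finset.univ S M2 fun i _ => h3 i

theorem Cu_colour {R : F → F → Prop} (h1 : ∀ c c', R c c' → R c' c)
    (h2 : ∀ (g : G) c c', R c c' → R (g • c) (g • c')) {M : ℕ}
    (h3 : ∀ x, ∃ f : F → Fin M, ∀ c c', R c x → R c' x → f c = f c' → ∃ g : G, c' = g • c) :
    ∃ col : F → ℕ, (∀ c, col c ≤ M) ∧ (∀ (g : G) c, col (g • c) = col c) ∧
      ∀ c c', R c c' → col c = col c' → ∃ g : G, c' = g • c := by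
  have hq : ∀ (g : G) c, Quotient.mk (MulAction.orbitRel G F) (g • c) = Quotient.mk _ c :=
    fun g c => Quotient.sound ⟨g, rfl⟩
  obtain ⟨col, a, b⟩ := exists_col (R := fun v w : Quotient (MulAction.orbitRel G F) =>
      ∃ c c', Quotient.mk _ c = v ∧ Quotient.mk _ c' = w ∧ R c c')
      (fun _ _ ⟨c, c', d, e, f⟩ => ⟨c', c, e, d, h1 _ _ f⟩) M univ fun v _ => by
    obtain ⟨x, rfl⟩ := Quotient.exists_rep v
    obtain ⟨f, hf⟩ := h3 x
    have k : ∀ w : {w | w ∈ univ ∧ (∃ c c', Quotient.mk (MulAction.orbitRel G F) c = w ∧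
        Quotient.mk (MulAction.orbitRel G F) c' = Quotient.mk _ x ∧ R c c') ∧ w ≠ Quotient.mk _ x},
        ∃ c, Quotient.mk _ c = w.1 ∧ R c x := by
      rintro ⟨w, -, ⟨c, c', d, e, f⟩, -⟩
      obtain ⟨g, rfl⟩ := Quotient.exact e.symm
      exact ⟨g • c, (hq g c).trans d, h2 g _ _ f⟩
    choose r r1 r2 using k
    have k := ENat.card_le_card_of_injective (f := fun w => f (r w)) fun w w' e => by
      obtain ⟨g, hg⟩ := hf _ _ (r2 w) (r2 w') e
      exact Subtype.ext (by rw [← r1, ← r1, hg, hq])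
    rwa [ENat.card_eq_coe_fintype_card (α := Fin M), Fintype.card_fin] at k
  refine ⟨fun c => col (Quotient.mk _ c), fun c => a _, fun g c => by simp only [hq],
    fun c c' d e => ?_⟩
  obtain ⟨g, hg⟩ := Quotient.exact (b _ trivial _ trivial ⟨c, c', rfl, rfl, d⟩ e).symm
  exact ⟨g, hg.symm⟩

/-- the distance, in units of `η` and cut off at `3`, of the flow line of `x` at time `t` to `c` -/
noncomputable def prf (Φ : (J → ℝ) → F → F) (N : ℝ → ℝ → F → F → Prop) (C : Set F) (ρ η : ℝ)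
    (x c : F) (t : J → ℝ) : ℝ :=
  sInf (insert 3 {a | 0 ≤ a ∧ c ∈ C ∧ N ρ (a * η) (Φ t x) c})

theorem prf_bdd (S : ℝ → Prop) : ∀ a ∈ insert (3 : ℝ) {a | 0 ≤ a ∧ S a}, 0 ≤ a := by
  rintro a (rfl | h)
  exacts [by norm_num, h.1]

theorem prf_zero (x c : F) (t : J → ℝ) : 0 ≤ prf Φ N C ρ η x c t := Real.sInf_nonneg (prf_bdd _)

theorem prf_three (x c : F) (t : J → ℝ) : prf Φ N C ρ η x c t ≤ 3 :=
  csInf_le ⟨0, prf_bdd _⟩ (mem_insert _ _)

theorem prf_le {x c : F} {t : J → ℝ} {a : ℝ} (h0 : 0 ≤ a) (hc : c ∈ C)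
    (h : N ρ (a * η) (Φ t x) c) : prf Φ N C ρ η x c t ≤ a :=
  csInf_le ⟨0, prf_bdd _⟩ (Or.inr ⟨h0, hc, h⟩)

theorem prf_lt (hF : Flw G Φ N) (hη : 0 < η) {x c : F} {t : J → ℝ} (h : prf Φ N C ρ η x c t < 3) :
    c ∈ C ∧ N ρ (3 * η) (Φ t x) c := by
  obtain ⟨a, rfl | ha, k⟩ := exists_lt_of_csInf_lt (insert_nonempty _ _) h
  exacts [absurd k (lt_irrefl _), ⟨ha.2.1, hF.mono ha.2.2 le_rfl (by gcongr)⟩]

theorem prf_smul (hF : Flw G Φ N) (hC : ∀ (g : G), ∀ c ∈ C, g • c ∈ C) (g : G) (x c : F) :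
    prf Φ N C ρ η (g • x) (g • c) = prf Φ N C ρ η x c := by
  ext t
  unfold prf
  congr 2
  ext a
  exact and_congr_right fun _ => and_congr ⟨fun h => by simpa using hC g⁻¹ _ h, hC g c⟩
    (by rw [hF.smul]; exact ⟨hF.inv' g, hF.inv g⟩)

theorem prf_flow (hF : Flw G Φ N) (s : J → ℝ) (x : F) :
    prf Φ N C ρ η (Φ s x) = fun c t => prf Φ N C ρ η x c (t + s) := by
  ext c t
  simp only [prf, hF.add]

theorem prf_close (hF : Flw G Φ N) (hη : 0 < η) (h1 : 3 * η ≤ 1) (hρ : 0 ≤ ρ) {B d : ℝ}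
    (hd : 0 ≤ d) {x x' c : F} (h : N 0 B x c) (k : N (ρ + (B + 1)) d x x') (u : J → ℝ) :
    prf Φ N C ρ η x' c u - prf Φ N C ρ η x c u ≤ d / η := by
  have d0 : 0 ≤ d / η := by positivity
  have k3 := prf_three (Φ := Φ) (N := N) (C := C) (ρ := ρ) (η := η) x' c u
  rw [sub_le_comm]
  refine le_csInf (insert_nonempty _ _) fun a ha => ?_
  rcases le_or_gt 3 a with e | e
  · linarith
  · obtain ⟨a0, hc, ha⟩ := ha.resolve_left e.ne
    have k1 := hF.speed (hF.trans (hF.mono ha hρ le_rfl) (hF.symm h))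
    have k2 := hF.trans (hF.symm (hF.flow k (s := u) (by nlinarith))) ha
    rw [show d + a * η = (d / η + a) * η by field_simp] at k2
    linarith [prf_le (by positivity) hc k2]

theorem prf_abs (hF : Flw G Φ N) (hη : 0 < η) (h1 : 3 * η ≤ 1) (hρ : 0 ≤ ρ) {B d : ℝ}
    (hd : 0 ≤ d) {x x' c : F} (h : N 0 B x c) (h' : N 0 B x' c) (k : N (ρ + (B + 1)) d x x')
    (u : J → ℝ) : |prf Φ N C ρ η x c u - prf Φ N C ρ η x' c u| ≤ d / η :=
  abs_sub_le_iff.2 ⟨prf_close hF hη h1 hρ hd h' (hF.symm k) u, prf_close hF hη h1 hρ hd h k u⟩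

end Pool.Agent.Work.MP_9d1ffa_al.WL
end

-- merged part: Pool.Agent.Work.MP_9d1ffa_al.WL.Cu
section
/-! Long and thin covers for flow spaces with uniform geometry. -/

namespace Pool.Agent.Work.MP_9d1ffa_al.WL

variable {F J G : Type} [Fintype J] [Group G] [MulAction G F] {Φ : (J → ℝ) → F → F}
  {N : ℝ → ℝ → F → F → Prop} {Θ : Set F} {D : ℕ} {Good : Subgroup G → Prop}

theorem Cu_theta (hF : Flw G Φ N) (hC : Cvr N D) {C : Set F} {ρ η : ℝ} (hη : 0 < η)
    (h1 : 3 * η ≤ 1) (hρ : 0 ≤ ρ) (hG : ∀ (g : G), ∀ c ∈ C, g • c ∈ C) {B : ℝ} (hB : 0 ≤ B) {M : ℕ}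
    (hM : ∀ x, ∃ S : Finset F, S.card ≤ M ∧ ∀ c ∈ C, N 0 (B + B) x c → c ∈ S) :
    ∃ (θ : Fin (D + 1) → F → ℝ) (δ : ℝ), 0 < δ ∧ 2 * δ ≤ 1 ∧ (∀ s c, 1 < θ s c ∧ θ s c + 2 * δ ≤ 2) ∧
      (∀ s (g : G) c, θ s (g • c) = θ s c) ∧
      ∀ x, ∃ s, ∀ c ∈ C, N 0 B c x → 2 * δ ≤ |tau (prf Φ N C ρ η x c) - θ s c| := by
  classical
  obtain ⟨C0, h0⟩ := hC (ρ + (B + 1)) B
  obtain ⟨e, he⟩ := exists_nat_gt (6 / η)
  have e0 : (0 : ℝ) < e := lt_trans (by positivity) he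
  obtain ⟨K, hK⟩ : ∃ K : ℕ, C0 * e ^ D * M ^ (D + 1) < K := ⟨_, Nat.lt_succ_self _⟩
  have K0 : 0 < K := by omega
  have K1 : (1 : ℝ) ≤ K := by exact_mod_cast K0
  obtain ⟨μ, hμ⟩ : ∃ μ : ℝ, μ = 1 / ((K * e : ℕ) : ℝ) / η := ⟨_, rfl⟩
  have μ0 : 0 < μ := by rw [hμ]; push_cast; positivity
  have μ1 : 6 * (K * μ) ≤ 1 := by
    rw [div_lt_iff₀ hη] at he
    have : 6 * (K * μ) = 6 / (e * η) := by rw [hμ]; push_cast; field_simp
    rw [this, div_le_one (by positivity)]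
    exact he.le
  have μ2 : μ ≤ K * μ := le_mul_of_one_le_left μ0.le K1
  obtain ⟨th, a1, a2, a3⟩ := gen_pos (G := G) (P := N (ρ + (B + 1)) (1 / ((K * e : ℕ) : ℝ)))
    (Q := fun c x k => c ∈ C ∧ N 0 B c x ∧ |tau (prf Φ N C ρ η x c) - (5 / 4 + 3 * k * μ)| < μ)
    (Bl := N 0 B) (M := M) (m := C0 * (K * e) ^ D) (n := D + 1) (fun g x y => hF.inv' g)
    (fun g c x k h => ⟨hG g c h.1, hF.inv g h.2.1, by rw [prf_smul hF hG]; exact h.2.2⟩)
    (fun c x k h => h.2.1)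
    (fun c x y k k' h h' a => by
      have b1 := abs_le.1 (tau_close (prf_zero x c) (prf_zero y c) (prf_abs (C := C) hF hη h1 hρ
        (by positivity) (hF.symm h.2.1) (hF.symm h'.2.1) a))
      have b2 := abs_lt.1 h.2.2
      have b3 := abs_lt.1 h'.2.2
      rw [← hμ] at b1
      have b4 : (k : ℝ) < k' + 1 := lt_of_mul_lt_mul_right (by linarith [b1.1, b2.1, b3.2]) μ0.le
      have b5 : (k' : ℝ) < k + 1 := lt_of_mul_lt_mul_right (by linarith [b1.2, b2.2, b3.1]) μ0.le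
      norm_cast at b4 b5
      omega)
    (fun x => (hM x).imp fun S h => ⟨h.1, fun c y k a b => h.2 c b.1 (hF.trans a (hF.symm b.2.1))⟩)
    (fun x => by
      obtain ⟨col, h⟩ := h0 (K * e) (Nat.mul_pos K0 (by exact_mod_cast e0)) x
      refine ⟨Finset.univ.image fun i => {y | N 0 B x y ∧ col y = i},
        Finset.card_image_le.trans (by simp), fun y hy =>
          ⟨_, Finset.mem_image_of_mem _ (Finset.mem_univ (col y)), hy, rfl⟩, fun U hU => ?_⟩
      obtain ⟨i, -, rfl⟩ := Finset.mem_image.1 hU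
      exact fun y hy z hz => h y z hy.1 hz.1 (hy.2.trans hz.2.symm))
    (fun x => hF.mono (hF.refl 0 x) le_rfl hB) K0 (by
      calc C0 * (K * e) ^ D * M ^ (D + 1) = K ^ D * (C0 * e ^ D * M ^ (D + 1)) := by ring
        _ < K ^ D * K := by gcongr
        _ = _ := by ring)
  refine ⟨fun s c => 5 / 4 + 3 * th s c * μ, μ / 2, by positivity, by linarith, fun s c => ?_,
    fun s g c => by simp only [a2], fun x => (a3 x).imp fun s h c a b => ?_⟩
  · have k1 : (th s c : ℝ) * μ ≤ K * μ := by gcongr; exact (a1 s c).le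
    have k2 : 0 ≤ (th s c : ℝ) * μ := by positivity
    constructor <;> linarith
  · exact le_of_not_gt fun k => h c ⟨a, b, by linarith⟩

theorem ult (hF : Flw G Φ N) (hC : Cvr N D) (hΘ : ∀ (g : G), ∀ x ∈ Θ, g • x ∈ Θ) (hM : Mlt G N Θ)
    (hG : Gd Good Φ N Θ) (hmono : ∀ H H' : Subgroup G, H ≤ H' → Good H' → Good H) {ε : ℝ}
    (hε : 0 < ε) (κ : ℝ) : Cvw Good Φ N Θ ((D + 1) * 5 ^ Fintype.card J) ε κ := by
  obtain ⟨q, q2, qκ⟩ : ∃ q : ℝ, 2 ≤ q ∧ κ / (ε / 2) ≤ q := ⟨_, le_max_left _ _, le_max_right _ _⟩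
  obtain ⟨ρ1, η1, η0, hgood⟩ := hG q
  obtain ⟨η, hη, η2, η3⟩ : ∃ η : ℝ, 0 < η ∧ 6 * η ≤ η1 ∧ 12 * η ≤ 1 :=
    ⟨min (η1 / 6) (1 / 12), by positivity, by linarith [min_le_left (η1 / 6) (1 / 12)],
      by linarith [min_le_right (η1 / 6) (1 / 12)]⟩
  obtain ⟨ρ, ρ0, ρ2⟩ : ∃ ρ : ℝ, 0 ≤ ρ ∧ ρ1 ≤ ρ := ⟨_, le_max_left _ _, le_max_right _ _⟩
  have ρ3 : 0 ≤ ρ + q := by linarith
  obtain ⟨C, c1, c2, c3, c4⟩ := hF.net hΘ (ρ + q) hη.le
  obtain ⟨p, hp⟩ : ∃ p, p = prf Φ N C (ρ + q) η := ⟨_, rfl⟩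
  have p0 : ∀ x c t, 0 ≤ p x c t := hp ▸ prf_zero
  have p3 : ∀ x c t, p x c t ≤ 3 := hp ▸ prf_three
  have plt : ∀ {x c t}, p x c t < 3 → c ∈ C ∧ N (ρ + q) (3 * η) (Φ t x) c := hp ▸ prf_lt hF hη
  have pG : ∀ (g : G) x c, p (g • x) (g • c) = p x c := hp ▸ prf_smul hF c2
  have pN : ∀ {x c t}, p x c t < 3 → N 0 (‖t‖ + 3 * η) x c := fun {x c t} h =>
    hF.trans (hF.symm (hF.move 0 t x)) (hF.mono (plt h).2 ρ3 le_rfl)
  obtain ⟨R, hR⟩ : ∃ R : F → F → Prop,
      ∀ c c', R c c' ↔ ∃ y t t', ‖t - t'‖ ≤ q ∧ p y c t < 3 ∧ p y c' t' < 3 := ⟨_, fun _ _ => Iff.rfl⟩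
  have r1 : ∀ c c', R c c' → R c' c := fun c c' h => by
    obtain ⟨y, t, t', a, b, d⟩ := (hR _ _).1 h
    exact (hR _ _).2 ⟨y, t', t, by rwa [norm_sub_rev], d, b⟩
  have r2 : ∀ (g : G) c c', R c c' → R (g • c) (g • c') := fun g c c' h => by
    obtain ⟨y, t, t', a, b, d⟩ := (hR _ _).1 h
    exact (hR _ _).2 ⟨g • y, t, t', a, by rwa [pG], by rwa [pG]⟩
  have r3 : ∀ c c', R c c' → c ∈ C ∧ ∃ s, ‖s‖ ≤ q ∧ N ρ (6 * η) (Φ s c) c' := fun c c' h => by
    obtain ⟨y, t, t', a, b, d⟩ := (hR _ _).1 h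
    rw [norm_sub_rev] at a
    have k := hF.flow (plt b).2 a
    rw [← hF.add, sub_add_cancel] at k
    exact ⟨(plt b).1, _, a, hF.mono (hF.trans (hF.symm k) (hF.mono (plt d).2 (by linarith) le_rfl))
      le_rfl (by linarith)⟩
  have r4 : ∀ c c', R c c' → N 0 (q + 6 * η) c c' := fun c c' h => by
    obtain ⟨-, s, a, b⟩ := r3 c c' h
    exact hF.mono (hF.trans (hF.symm (hF.move 0 s c)) (hF.mono b ρ0 le_rfl)) le_rfl (by linarith)
  obtain ⟨M, hM1⟩ := hF.orbs hC hη c4 (q + 6 * η)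
  obtain ⟨col, l1, l2, l3⟩ := Cu_colour r1 r2 fun x => (hM1 x).imp fun f hf c c' a b =>
    hf c (r3 _ _ a).1 c' (r3 _ _ b).1 (r4 _ _ (r1 _ _ a)) (r4 _ _ (r1 _ _ b))
  have R0 := LtR_ge q2 M
  obtain ⟨M', hM'⟩ := hF.count hC hM c1 hη c4 (LtR q M + 1 + (LtR q M + 1))
  obtain ⟨θ, δ, δ0, δ1, hθ, θG, hgen⟩ :=
    Cu_theta hF hC hη (by linarith) ρ3 c2 (by linarith) hM'
  have b1 : ∀ (g : G) c c', (∃ k : G, c' = k • c) ∧ R c c' →
      (∃ k : G, g • c' = k • g • c) ∧ R (g • c) (g • c') := fun g c c' ⟨⟨k, a⟩, b⟩ =>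
    ⟨⟨g * k * g⁻¹, by simp [a, mul_smul]⟩, r2 g _ _ b⟩
  let X : Lay F (GN.UC F) (Fin (D + 1)) :=
    { rel := R
      rk := col
      atm := GN.uc fun c c' => (∃ k : G, c' = k • c) ∧ R c c'
      q := q
      M := M
      θ := θ
      δ := δ
      symm := r1
      rkM := l1
      same := fun c c' a b => GN.uc_eq ⟨l3 c c' a b, a⟩
      q2 := q2
      δ0 := δ0
      δ1 := δ1
      θ1 := fun s c => (hθ s c).1
      θ2 := fun s c => (hθ s c).2 }
  have hP : ∀ x, X.Prof (p x) := fun x =>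
    { p0 := p0 x
      p3 := p3 x
      rl := fun c c' t t' a b d => (hR _ _).2 ⟨x, t, t', d, a, b⟩
      tco := fun c c' t t' a b d => by
        have k := hF.trans (hF.trans (hF.mono (plt b).2 ρ3 le_rfl) (r4 c c' a))
          (hF.symm (hF.mono (plt d).2 ρ3 le_rfl))
        rw [← sub_add_cancel t t', hF.add] at k
        exact (hF.speed k).trans (show _ ≤ q + 1 by linarith) }
  obtain ⟨e, e0, e1, e2⟩ : ∃ e : ℝ, 0 < e ∧ e ≤ 1 ∧ 4 * e ≤ ε :=
    ⟨min 1 (ε / 4), by positivity, min_le_left _ _, by linarith [min_le_right 1 (ε / 4)]⟩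
  have d1 : e * δ * η ≤ 1 / 2 := by
    have : e * δ ≤ 1 := by nlinarith
    nlinarith
  refine ⟨ρ + q + (LtR q M + 1 + 1), e * δ * η, GN.UC F, inferInstance, fun x => X.W (p x),
    by positivity, fun x => Lay.W_mem (p3 x), fun x => ?_, fun x ω h => ?_, fun x hx => ?_,
    fun g x x' s hs h ω => ?_⟩
  · simpa using Lay.W_card (hP x)
  · obtain ⟨s, c, -, rfl, t, -, k⟩ := Lay.W_ne (p3 x) h
    refine hmono _ _ ((GN.stab_uc_le b1 (fun _ _ a => a.1) ⟨⟨1, (one_smul _ _).symm⟩, (hR _ _).2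
      ⟨x, t, t, by rw [sub_self, norm_zero]; linarith, k, k⟩⟩).trans
      (Subgroup.closure_mono fun g hg => ?_)) (hgood c (c1 (plt k).1))
    obtain ⟨-, u, a, b⟩ := r3 _ _ hg.2
    exact ⟨u, a, hF.mono b ρ2 η2⟩
  · obtain ⟨c, a, b⟩ := c3 x hx
    obtain ⟨s, hs⟩ := hgen x
    refine Lay.W_big (hP x) (c := c) (s := s) ?_ fun c => or_iff_not_imp_left.2 fun k => ?_
    · exact hp ▸ prf_le zero_le_one a (by rwa [one_mul, hF.zero])
    · obtain ⟨t, k1, k2⟩ := kk_ne X.R0 (p3 x c) k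
      exact hp ▸ hs c (plt k2).1 (hF.mono (hF.symm (pN k2)) le_rfl (by
        have : ‖t‖ < LtR q M := k1
        linarith))
  · have k1 : X.W (p (g • x)) (g • ω) = X.W (p x) ω :=
      Lay.W_equiv (MulAction.toPerm g) (g • ·) (MulAction.injective g)
        (fun c c' => ⟨fun a => by simpa using r2 g⁻¹ _ _ a, r2 g c c'⟩) (l2 g)
        (fun c => GN.uc_smul b1 c g) (pG g x) (fun s c => θG s g c) ω
    have k2 := Lay.W_shift (X := X) (p3 (g • x)) s (g • ω)
    have k3 : p (g • Φ s x) = fun c t => p (g • x) c (t + s) := by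
      rw [← hF.smul, hp, prf_flow hF]
    have k4 := Lay.W_close (hP x') (hP (g • Φ s x)) e0.le e1 (fun c t ht hc u => by
      have ht' : ‖t‖ ≤ LtR q M := ht
      have h0 := hF.mono h (show 0 ≤ _ by linarith) d1
      have k : N 0 (LtR q M + 1) x' c ∧ N 0 (LtR q M + 1) (g • Φ s x) c := by
        rcases hc with a | a
        · exact ⟨hF.mono (pN a) le_rfl (by linarith),
            hF.mono (hF.trans h0 (pN a)) le_rfl (by linarith)⟩
        · exact ⟨hF.mono (hF.trans (hF.symm h0) (pN a)) le_rfl (by linarith),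
            hF.mono (pN a) le_rfl (by linarith)⟩
      have k' := prf_abs (C := C) hF hη (by linarith) ρ3 (by positivity) k.1 k.2 (hF.symm h) u
      rwa [← hp, mul_div_cancel_right₀ _ hη.ne'] at k') (g • ω)
    rw [← k3, k1] at k2
    have k5 : ‖s‖ / q ≤ ε / 2 := by
      rw [div_le_iff₀ (by positivity)] at qκ
      rw [div_le_iff₀ (by linarith)]
      linarith
    exact (abs_sub_le _ _ _).trans ((add_le_add k4 (k2.trans k5)).trans (by linarith))

end Pool.Agent.Work.MP_9d1ffa_al.WL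
end

-- merged part: Pool.Agent.Work.MP_9d1ffa_al.WL.Cg
section
/-! From local transfer data to global transfer data. -/

namespace Pool.Agent.Work.MP_9d1ffa_al.WL

open Real Matrix
open GN (V Le Nr act cl Red wb)

variable {K : Type} [Field K] {n : ℕ} {I G : Type} [Fintype I] [Group G]
  {P : I → Pc K n} {ρ : G →* GL (Fin n) K} {A : Subring K}

/-- `thin` with `k = max κ 0 + 1` gives `R`; `ult` with `Θ = Thk P ρ A R`; the atoms are the sum type
of the two kinds; window `max ρ 0`, `δ = min δ 1`. -/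
theorem cvw [Nonempty I] (hn : 0 < n) (hL : GN.Low (fun v => (P v).av) A)
    (hA : ∀ g p q, (ρ g).1 p q ∈ A) (hd : ∀ g, (ρ g).1.det = 1) :
    ∃ M : ℕ, ∀ (J : Type) [Fintype J] (bl : I → Fin n → J), (∀ k, ∃ v j, bl v j = k) →
      ∀ ε κ : ℝ, 0 < ε → Cvw (VR ρ) (fw bl : (J → ℝ) → Fm P ρ → Fm P ρ) (NN bl) Set.univ M ε κ := by
  classical
  obtain ⟨D, hD⟩ := cvr P ρ
  refine ⟨n + 1 + (D + 1) * 5 ^ Fintype.card (I × Fin n), fun J _ bl hs ε κ hε => ?_⟩
  have : Nonempty J := ⟨bl (Classical.arbitrary I) ⟨0, hn⟩⟩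
  have hF := flw (P := P) (ρ := ρ) hs
  obtain ⟨R, W, a1, a2, a3, a4, a5⟩ := thin (P := P) hn hL hA hε (k := max κ 0 + 1) (by positivity)
  have hM := mlt (P := P) (bl := bl) hA R
  obtain ⟨r, δ, Ω, _, W', b0, b1, b2, b3, b4, b5⟩ := ult hF (hD J bl) (thk_smul hA R) hM
    (gd hn hL hA hd hs hM) (fun _ _ => VR.mono) hε κ
  refine ⟨max r 0, min δ 1, Sb ρ ⊕ Ω, inferInstance, fun x => Sum.elim (W x) (W' x),
    lt_min b0 one_pos, fun x => Sum.rec (a1 x) (b1 x), fun x => ?_, fun x => Sum.rec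
      (fun U k => VR.mono (fun g e => Sum.inl_injective e) ⟨_, le_rfl, by simp, .inl (a3 x U k)⟩)
      fun ω k => VR.mono (fun g e => Sum.inr_injective e) (b3 x ω k), fun x _ => ?_,
    fun g x y s e k => Sum.rec (a5 g x y fun v => ?_)
      (b5 g x y s e (hF.mono k (le_max_left _ _) (min_le_left _ _)))⟩
  · refine (Set.encard_le_encard (t := Sum.inl '' Function.support (W x) ∪
      Sum.inr '' Function.support (W' x)) (Sum.rec (fun U k => .inl ⟨U, k, rfl⟩)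
        fun ω k => .inr ⟨ω, k, rfl⟩)).trans ((Set.encard_union_le _ _).trans ?_)
    rw [Nat.cast_add]
    exact add_le_add ((Set.encard_image_le _ _).trans (a2 x)) ((Set.encard_image_le _ _).trans
      ((b2 x).trans (Nat.cast_le.2 (Nat.mul_le_mul_left _ (Nat.pow_le_pow_right (by norm_num)
        (Fintype.card_le_of_surjective (fun p : I × Fin n => bl p.1 p.2) fun k =>
          let ⟨v, j, e⟩ := hs k; ⟨(v, j), e⟩))))))
  · by_cases k : x ∈ Thk P ρ A R
    · exact let ⟨ω, e⟩ := b4 x k; ⟨.inr ω, e⟩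
    · exact let ⟨ω, e⟩ := a4 x k; ⟨.inl ω, e⟩
  · have c := NN_zero.1 (hF.mono k (le_max_right _ _) (min_le_right _ _)) v
    rw [← hF.smul] at c
    exact ((pt_fw s (g • x) v).symm.trans c).mono (pt_nonneg _ _) (pt_nonneg _ _)
      (add_le_add (e.trans (le_max_left _ _)) le_rfl)

theorem wb_unit {Γ : ℝ} {α : I → Fin n → ℝ} {b : I → Fin n → Fin n} (v : I) :
    wb Γ α b ≤ wb Γ (fun _ : Unit => α v) fun _ => b v :=
  le_ciInf fun
    | none => GN.wb_le_one _ _ _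
    | some p => ciInf_le (Finite.bddBelow_range _) (some (v, p.2))

theorem mm_le {a a' w w' ε : ℝ} (hw : 0 ≤ w) (hw' : 0 ≤ w') (hε : 0 ≤ ε) (h : a ≤ a' + ε)
    (h' : a' ≤ a + ε) (k : 0 < a → 0 < a' → |w' - w| ≤ ε) :
    |min (max 0 a') w' - min (max 0 a) w| ≤ ε := by
  rw [abs_le] at k ⊢
  grind

omit [Fintype I] in
theorem pos_vr {Ω : Type} [MulAction G Ω] {N : ℕ} {μ : Ω → ℝ} (h0 : ∀ ω, 0 ≤ μ ω ∧ μ ω ≤ 1)
    (h1 : ∃ ω, 1 ≤ (N + 1 : ℝ) * μ ω) (h2 : (Function.support μ).encard ≤ (N + 1 : ℕ))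
    (h3 : ∀ ω, μ ω ≠ 0 → VR ρ (MulAction.stabilizer G ω)) : Pos (VR ρ) N μ := by
  refine ⟨h0, h1, h2, fun σ H ⟨ω, k⟩ e e' => VR.fin inf_le_right ?_
    ((h3 ω (e k)).mono (H := _ ⊓ H) inf_le_left)⟩
  rw [Subgroup.inf_relIndex_right]
  change (MulAction.stabilizer H ω).index ≠ 0
  rw [MulAction.index_stabilizer]
  exact Set.ncard_ne_zero_of_mem (MulAction.mem_orbit_self ω)
    (((Set.finite_of_encard_le_coe h2).subset e).subset fun _ ⟨g, c⟩ => c ▸ e' g g.2 ω k)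

/-- For `b : I → Fin n → Fin n` let `J b = {p : I × Fin n // ∃ j, b p.1 j = p.2}`. `κ = ∑ v, κ v`;
`cvw` gives windows, errors, atoms `Ω b` and weights `W b`; `r = ∑ b, |ρ b|`, `δ ≤ δ b`,
`Γ = ∑ v, |Γ0 v| + 2 κ / ε + 1`. `Z = ∀ v, Z v`, `Ω = Σ b, Ω b`,
`f y ⟨b, ω⟩ = min (max 0 (wb Γ (α y) b)) (W b (x y b) ω)` (`wb_lip`, `exists_blocks`, `one_le_wb`). -/
theorem zt_of_ld [Nonempty I] (hn : 0 < n) (hL : GN.Low (fun v => (P v).av) A)
    (hA : ∀ g p q, (ρ g).1 p q ∈ A) (hd : ∀ g, (ρ g).1.det = 1)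
    (h : ∀ v, LD (P v).a (P v).nm ((P v).rp ρ)) : ZT G (VR ρ) := by
  classical
  choose N h using h
  obtain ⟨M, hM⟩ := cvw (P := P) hn hL hA hd
  refine ⟨(∑ v, N v + 1) ^ Fintype.card I + Fintype.card (I → Fin n → Fin n) * M + 3,
    fun S ε hε => ?_⟩
  choose κ κ0 h using fun v => h v S
  have κ1 : ∀ v, κ v ≤ ∑ v, κ v := fun v =>
    Finset.single_le_sum (fun v _ => κ0 v) (Finset.mem_univ v)
  have κ2 : 0 ≤ ∑ v, κ v := Finset.sum_nonneg fun v _ => κ0 v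
  let bl : ∀ b : I → Fin n → Fin n, I → Fin n → {p : I × Fin n // ∃ j, b p.1 j = p.2} :=
    fun b v j => ⟨(v, b v j), j, rfl⟩
  choose r δ Ω iΩ W w0 w1 w2 w3 w4 w5 using fun b => hM _ (bl b)
    (fun ⟨⟨v, _⟩, j, e⟩ => ⟨v, j, Subtype.ext (Prod.ext rfl e)⟩) ε (∑ v, κ v) hε
  have : Nonempty (I → Fin n → Fin n) := ⟨fun _ => id⟩
  obtain ⟨b0, hb0⟩ := Finite.exists_min δ
  choose Γ0 h using fun v => h v (∑ b, |r b|) (δ b0) (by positivity) (w0 b0)
  set Γ := ∑ v, |Γ0 v| + 2 * (∑ v, κ v) / ε + 1 with hΓ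
  have Γp : 0 < Γ := by positivity
  have Γe : 2 * (∑ v, κ v) / Γ ≤ ε := by
    rw [div_le_comm₀ Γp hε]
    have : 0 ≤ ∑ v, |Γ0 v| := by positivity
    linarith
  choose Z iZ φ Hm α x z1 z2 z3 using fun v => h v Γ (by
    have := Finset.single_le_sum (fun v _ => abs_nonneg (Γ0 v)) (Finset.mem_univ v)
    have : 0 ≤ 2 * (∑ v, κ v) / ε := by positivity
    linarith [le_abs_self (Γ0 v)]) Γp
  let f : (∀ v, Z v) → (Σ b, Ω b) → ℝ := fun y ω =>
    min (max 0 (wb Γ (fun v => α v (y v)) ω.1)) (W ω.1 (fun v => x v (y v) (ω.1 v)) ω.2)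
  have key : ∀ (g : G) (y z : ∀ v, Z v), (∀ v, RF (P v).a (P v).nm (κ v) (∑ b, |r b|) (δ b0) Γ
      ((P v).rp ρ g) (α v (y v)) (α v (z v)) (x v (y v)) (x v (z v))) → Cl ε g (f y) (f z) := by
    rintro g y z k ⟨b, ω⟩
    have e : ∀ v j, |α v (y v) j - α v (z v) j| ≤ ∑ v, κ v := fun v j => ((k v).1 j).trans (κ1 v)
    refine mm_le (w1 _ _ _).1 (w1 _ _ _).1 hε.le
      ((GN.wb_lip Γp κ2 e b).trans (add_le_add le_rfl Γe)) ((GN.wb_lip Γp κ2
        (fun v j => (abs_sub_comm _ _).trans_le (e v j)) b).trans (add_le_add le_rfl Γe))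
      fun p q => ?_
    choose s s1 s2 using fun v =>
      (k v).2 (b v) (p.trans_le (wb_unit v)) (q.trans_le (wb_unit v))
    refine w5 b g _ _ (fun p => s p.1.1 p.1.2) ((pi_norm_le_iff_of_nonneg κ2).2 fun p =>
      (norm_le_pi_norm _ _).trans ((s1 _).trans (κ1 _))) (fun t ht v => ?_) ω
    have c := s2 v (fun q => if e : ∃ j, b v j = q then t ⟨(v, q), e⟩ else 0)
      ((pi_norm_le_iff_of_nonneg (by positivity)).2 fun q => le_trans (by
        split_ifs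
        exacts [norm_le_pi_norm t _, by simp]) (ht.trans ((le_abs_self _).trans
          (Finset.single_le_sum (fun b _ => abs_nonneg (r b)) (Finset.mem_univ b)))))
    simp only [exists_apply_eq_apply, dif_pos, act_dn, add_comm (t _), ← add_assoc] at c
    exact c.mono (dn_nonneg (P v).hnm _ _) (dn_nonneg (P v).hnm _ _) (hb0 b)
  choose d d0 hd using fun v => (z3 v).near
  obtain ⟨v0, hv0⟩ := Finite.exists_min d
  refine ⟨∀ v, Z v, inferInstance, fun g y v => φ v g (y v), fun g g' y t v => Hm v g g' (y v) t,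
    Σ b, Ω b, inferInstance, f, Grid.pi (fun v => (z1 v).mono
      (Finset.single_le_sum (fun _ _ => Nat.zero_le _) (Finset.mem_univ v))) (by omega),
    ⟨fun g hg => continuous_pi fun v => ((z3 v).φ_cont g hg).comp (continuous_apply v),
      fun g hg g' hg' => continuous_pi fun v => ((z3 v).H_cont g hg g' hg').comp
        (f := fun p : (∀ v, Z v) × unitInterval => (p.1 v, p.2)) (by fun_prop),
      fun g hg g' hg' y => funext fun v => (z3 v).H_zero g hg g' hg' _,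
      fun g hg g' hg' y => funext fun v => (z3 v).H_one g hg g' hg' _,
      ⟨d v0, d0 v0, fun y z e => key _ _ _ fun v =>
        hd v _ _ ((dist_le_pi_dist y z v).trans (e.trans (hv0 v)))⟩,
      fun g hg y => key _ _ _ fun v => (z3 v).φ_rel g hg _,
      fun g hg g' hg' y t => key _ _ _ fun v => (z3 v).H_rel g hg g' hg' _ _⟩, fun y => ?_⟩
  have su : ∀ ω, f y ω ≠ 0 → W ω.1 (fun v => x v (y v) (ω.1 v)) ω.2 ≠ 0 := fun ω k e =>
    k (by simp only [f, e, min_eq_right (le_max_left _ _)])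
  refine pos_vr (fun ω => ⟨le_min (le_max_left _ _) (w1 _ _ _).1,
    (min_le_right _ _).trans (w1 _ _ _).2⟩) ?_ ?_ fun ω k => (w3 _ _ _ (su ω k)).mono
      fun g e => eq_of_heq (Sigma.mk.inj e).2
  · choose b e1 e2 using fun v => GN.exists_blocks (z2 v (y v)) Γp
    obtain ⟨ω, e⟩ := w4 b (fun v => x v (y v) (b v)) trivial
    have c : 1 / 4 ≤ f y ⟨b, ω⟩ :=
      le_min (le_max_of_le_right (le_trans (by norm_num) (GN.one_le_wb Γp e1 e2))) e
    refine ⟨⟨b, ω⟩, le_trans (by norm_num) (mul_le_mul (a := 4) ?_ c (by norm_num) (by positivity))⟩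
    norm_cast
    omega
  · refine (Set.encard_le_encard (t := ⋃ b, Sigma.mk b '' Function.support
      (W b fun v => x v (y v) (b v))) fun ω k => Set.mem_iUnion.2 ⟨ω.1, ω.2, su ω k, rfl⟩).trans
      ((Set.encard_iUnion_le_of_fintype _).trans ((Finset.sum_le_card_nsmul _ _ (M : ℕ∞) fun b _ =>
        (Set.encard_image_le _ _).trans (w2 b _)).trans ?_))
    rw [nsmul_eq_mul, Finset.card_univ, ← Nat.cast_mul, Nat.cast_le]
    omega

end Pool.Agent.Work.MP_9d1ffa_al.WL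
end

-- merged part: Pool.Agent.Work.MP_9d1ffa_al.WL.ZtW
section
/-! Topological transfer data for wreath products; the space of norms is a grid. -/

namespace Pool.Agent.Work.MP_9d1ffa_al.WL

variable {G F : Type} [Group G] [Group F]

/-- tuples of atoms -/
def OW (F Ω : Type) : Type := F → Ω

instance {Ω : Type} [MulAction G Ω] : MulAction (G ≀ᵣ F) (OW F Ω) where
  smul a ω := fun j => a.left j • ω (a.right⁻¹ * j)
  one_smul ω := funext fun j => by
    change (1 : G) • ω (1⁻¹ * j) = ω j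
    simp
  mul_smul a b ω := funext fun j => by
    change (a.left j * b.left (a.right⁻¹ * j)) • ω ((a.right * b.right)⁻¹ * j) =
      a.left j • b.left (a.right⁻¹ * j) • ω (b.right⁻¹ * (a.right⁻¹ * j))
    rw [mul_smul, mul_inv_rev, mul_assoc]

theorem ZtW_cl [Finite F] {Ω : Type} [MulAction G Ω] {ε : ℝ} {a : G ≀ᵣ F} {μ ν : F → Ω → ℝ}
    (h : ∀ j, Cl ε (a.left j) (μ (a.right⁻¹ * j)) (ν j)) :
    Cl ε a (fun ω : OW F Ω => ⨅ j, μ j (ω j)) fun ω => ⨅ j, ν j (ω j) := fun ω => by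
  have e : ⨅ j, μ (a.right⁻¹ * j) (ω (a.right⁻¹ * j)) = ⨅ j, μ j (ω j) :=
    (Equiv.mulLeft a.right⁻¹).iInf_comp (g := fun j => μ j (ω j))
  change |(⨅ j, ν j (a.left j • ω (a.right⁻¹ * j))) - ⨅ j, μ j (ω j)| ≤ ε
  rw [← e]
  refine abs_sub_le_iff.2 ⟨?_, ?_⟩ <;> rw [sub_le_comm] <;> refine le_ciInf fun j => ?_
  · linarith [ciInf_le (Finite.bddBelow_range fun j => ν j (a.left j • ω (a.right⁻¹ * j))) j,
      (abs_le.1 (h j (ω (a.right⁻¹ * j)))).2]
  · linarith [ciInf_le (Finite.bddBelow_range fun j => μ (a.right⁻¹ * j) (ω (a.right⁻¹ * j))) j,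
      (abs_le.1 (h j (ω (a.right⁻¹ * j)))).1]

theorem ZtW_pos [Fintype F] {Ω : Type} [MulAction G Ω] {Fam : Subgroup G → Prop} {N M : ℕ}
    {μ : F → Ω → ℝ} (h : ∀ j, Pos Fam N (μ j)) (hM : (N + 1) ^ Fintype.card F ≤ M + 1) :
    Pos (Q := G ≀ᵣ F) (GoodW Fam) M fun ω : OW F Ω => ⨅ j, μ j (ω j) := by
  have le : ∀ (ω : OW F Ω) j, ⨅ j, μ j (ω j) ≤ μ j (ω j) := fun ω j =>
    ciInf_le (Finite.bddBelow_range fun j => μ j (ω j)) j
  have nn : ∀ ω : OW F Ω, 0 ≤ ⨅ j, μ j (ω j) := fun ω => le_ciInf fun j => ((h j).1 _).1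
  have su : ∀ ω : OW F Ω, ⨅ j, μ j (ω j) ≠ 0 → ∀ j, μ j (ω j) ≠ 0 := fun ω k j e =>
    k (le_antisymm (e ▸ le ω j) (nn ω))
  refine ⟨fun ω => ⟨nn ω, (le ω 1).trans ((h 1).1 _).2⟩, ?_, ?_, fun σ H ⟨ω0, h0⟩ h1 h2 =>
    ⟨⊤, inferInstance, fun q => ?_⟩⟩
  · choose ω hω using fun j => (h j).2.1
    refine ⟨ω, ?_⟩
    have N0 : (0 : ℝ) < N + 1 := by positivity
    have e : (N + 1 : ℝ) ≤ M + 1 := by
      exact_mod_cast (Nat.le_self_pow Fintype.card_ne_zero _).trans hM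
    refine le_trans ?_ (mul_le_mul_of_nonneg_right e (nn ω))
    exact (div_le_iff₀' N0).1 (le_ciInf fun j => (div_le_iff₀' N0).2 (hω j))
  · exact (Set.encard_le_encard (t := Set.univ.pi fun j => Function.support (μ j))
      fun ω k j _ => su ω k j).trans ((ZtG_pi fun j => (h j).2.2.1).trans (Nat.cast_le.2 hM))
  · let τ : Set Ω := (fun ω : OW F Ω => ω q) '' σ
    let H' : Subgroup G :=
      { carrier := {x | ∀ ω ∈ τ, x • ω ∈ τ ∧ x⁻¹ • ω ∈ τ}
        mul_mem' := fun {a b} ha hb ω k => by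
          rw [mul_inv_rev, mul_smul, mul_smul]
          exact ⟨(ha _ (hb ω k).1).1, (hb _ (ha ω k).2).2⟩
        one_mem' := fun ω k => by simpa using k
        inv_mem' := fun {a} ha ω k => by
          rw [inv_inv]
          exact (ha ω k).symm }
    have a : ∀ g ∈ H, g.right = 1 → ∀ ω ∈ τ, g.left q • ω ∈ τ := by
      rintro g hg e _ ⟨ω, k, rfl⟩
      refine ⟨g • ω, h2 g hg ω k, ?_⟩
      change g.left q • ω (g.right⁻¹ * q) = _
      simp [e]
    refine ⟨H', (h q).2.2.2 τ H' ⟨_, ω0, h0, rfl⟩ ?_ fun x hx ω k => (hx ω k).1,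
      fun g _ e ω k => ⟨a g g.2 e ω k, ?_⟩⟩
    · rintro _ ⟨ω, k, rfl⟩
      exact su ω (h1 k) q
    · simpa [e] using a (g : G ≀ᵣ F)⁻¹ (H.inv_mem g.2) (by simp [e]) ω k

theorem ZT.wr [Finite F] {Fam : Subgroup G → Prop} (h : ZT G Fam) : ZT (G ≀ᵣ F) (GoodW Fam) := by
  classical
  have := Fintype.ofFinite F
  obtain ⟨N, h⟩ := h
  refine ⟨(N + 1) ^ Fintype.card F, fun S ε hε => ?_⟩
  obtain ⟨Z, _, φ, Hm, Ω, _, f, h1, h2, h3⟩ :=
    h (S.biUnion fun a => Finset.univ.image a.left) ε hε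
  have m : ∀ a ∈ S, ∀ j, a.left j ∈ S.biUnion fun a => Finset.univ.image a.left := fun a ha j =>
    Finset.mem_biUnion.2 ⟨a, ha, Finset.mem_image_of_mem _ (Finset.mem_univ j)⟩
  obtain ⟨δ, δ0, hδ⟩ := h2.f_cl
  refine ⟨F → Z, inferInstance, fun a z j => φ (a.left j) (z (a.right⁻¹ * j)),
    fun a b z t j => Hm (a.left j) (b.left (a.right⁻¹ * j)) (z ((a * b).right⁻¹ * j)) t,
    OW F Ω, inferInstance, fun z ω => ⨅ j, f (z j) (ω j), Grid.pi (fun _ => h1) (Nat.le_succ _),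
    ⟨fun a ha => continuous_pi fun j => (h2.φ_cont _ (m a ha j)).comp (continuous_apply _),
      fun a ha b hb => continuous_pi fun j => (h2.H_cont _ (m a ha j) _ (m b hb _)).comp
        (f := fun p : (F → Z) × unitInterval => (p.1 ((a * b).right⁻¹ * j), p.2)) (by fun_prop),
      fun a ha b hb z => funext fun j => ?_,
      fun a ha b hb z => funext fun j => h2.H_one _ (m a ha j) _ (m b hb _) _,
      ⟨δ, δ0, fun x y k => ZtW_cl (μ := fun j => f (x j)) (ν := fun j => f (y j)) fun j => ?_⟩,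
      fun a ha z => ZtW_cl (μ := fun j => f (z j)) fun j => h2.φ_cl _ (m a ha j) _,
      fun a ha b hb z t => ZtW_cl (μ := fun j => f (z j)) fun j =>
        h2.H_cl _ (m a ha j) _ (m b hb _) _ t⟩,
    fun z => ZtW_pos (fun j => h3 (z j)) (Nat.le_succ _)⟩
  · rw [h2.H_zero _ (m a ha j) _ (m b hb _), RegularWreathProduct.mul_right, mul_inv_rev, mul_assoc]
  · simpa using hδ _ _ ((dist_le_pi_dist x y j).trans k)

theorem ZT.cdw {Fam : Subgroup G → Prop} (h : ZT G Fam) : CDW G Fam := fun _ _ _ => h.wr.cdat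

open GN in
theorem grid_XX {K : Type} [Field K] {n : ℕ} {ι : Type} [Fintype ι] {av : ι → AbsoluteValue K ℝ}
    {S : Finset (GL (Fin n) K)} {T : ℕ} {κ : ℝ} (ha : ∀ i, G2.Pl (av i)) (hT : 0 < T) (hκ : κ ≤ T)
    {N : ℕ} (hN : 2 ^ (Fintype.card ι * n) ≤ N + 1) : Grid N (XX av S T κ) := by
  have : CompactSpace (XX av S T κ) := XX.compactSpace
  have : Nonempty (XX av S T κ) := ⟨⟨fun i => g0 (av i), fun i => g0_mem (ha i) hκ⟩⟩
  obtain ⟨sg, s1, -, s2, s3, s4, -⟩ := XX.exists_seg (S := S) (κ := κ) ha hT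
  refine Grid.of_weights sg s1 s2 s3 s4 fun δ hδ => ?_
  obtain ⟨Ω, W, h1, -, h3, h4, h5⟩ := XX.weights (S := S) (T := T) (κ := κ) ha δ hδ
  exact ⟨Ω, W, h1, h3, fun x => (h4 x).trans (by exact_mod_cast hN), h5⟩

end Pool.Agent.Work.MP_9d1ffa_al.WL
end

-- merged part: Pool.Agent.Work.MP_9d1ffa_al.WL.Ch
section
/-! Local transfer data at a finite place. -/

namespace Pool.Agent.Work.MP_9d1ffa_al.WL

open Real Matrix
open GN (V Le Nr act cl Red wb)

theorem Ch_rf {K : Type} [Field K] {n : ℕ} {a : AbsoluteValue K ℝ} {Γ σ r r' k₁ k₂ κ δ δ' : ℝ}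
    {g f f' : GL (Fin n) K} {β β' α α' : Fin n → ℝ}
    (h : GN.Cmp (fun _ : Unit => a) Γ σ r' k₁ k₂ δ' g ⟨fun _ => f, fun _ => β, fun _ => α⟩
      ⟨fun _ => f', fun _ => β', fun _ => α'⟩) (h0 : 0 ≤ k₂) (h1 : k₁ ≤ κ) (h2 : k₂ ≤ κ)
    (hr : 0 ≤ r) (h3 : r + k₂ ≤ r') (h4 : δ' ≤ δ) :
    RF a ns κ r δ Γ g α α' (fun b => (f, fun j => β j - σ * (b j : ℕ)))
      fun b => (f', fun j => β' j - σ * (b j : ℕ)) := by
  refine ⟨fun j => (h.1 () j).trans h1, fun b w w' => ?_⟩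
  obtain ⟨s, hs, h5⟩ := h.2 (fun _ => b) w w'
  refine ⟨fun p => s ((), p), (pi_norm_le_iff_of_nonneg (h0.trans h2)).2 fun p =>
    ((norm_le_pi_norm s _).trans hs).trans h2, fun t ht => ?_⟩
  have e : ‖fun p : Unit × Fin n => t p.2‖ ≤ r :=
    (pi_norm_le_iff_of_nonneg hr).2 fun p => (norm_le_pi_norm t _).trans ht
  have h6 := h5 _ ((fun p => t p.2) + GN.ctr σ) rfl
    (by
      rw [add_right_comm, add_sub_cancel_right]
      exact (norm_add_le _ _).trans ((add_le_add e hs).trans h3))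
    (by
      rw [add_sub_cancel_right]
      linarith) ()
  have e1 : ∀ u v : Fin n → ℝ, (fun j => u j + (v (b j) + -(σ * (b j : ℕ)))) =
      fun j => u j - σ * (b j : ℕ) + v (b j) := fun u v => funext fun j => by ring
  rw [dn_ns, dn_ns, ← e1, ← e1 β fun p => t p + s ((), p), GN.act_dg]
  rw [GN.fl, GN.fl, GN.act_dg] at h6
  simp only [Pi.add_apply, GN.ctr, add_right_comm _ (-_) (s _)] at h6
  exact h6.mono (GN.dg_nonneg _ _) (GN.dg_nonneg _ _) h4

/-- `GN.exists_act` with `ι = Unit`, `k = 1`; `φ g = Γ [] g`, `Hm g h y t = Γ [(g, t)] h y`; frames from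
`InX.frame`; `GN.cmp_of_rel` with window `r + c` and `σ = 2 (r + c)`;
`x y b = (f y, fun j => β y j - σ * b j)`; `κ = 4 κ1`; `T` is chosen last. -/
theorem ld_fin {K G : Type} [Field K] [Group G] {n : ℕ} {a : AbsoluteValue K ℝ} (ha : G2.Pl a)
    (ρ : G →* GL (Fin n) K) : LD a ns ρ := by
  refine ⟨2 ^ (Fintype.card Unit * n), fun S => ?_⟩
  obtain ⟨S', k, hk, hA⟩ := GN.exists_act (av := fun _ : Unit => a) (fun _ => ha) ρ S 1
  have k1 : (1 : ℝ) ≤ k := by exact_mod_cast hk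
  have n0 : (0 : ℝ) ≤ n := Nat.cast_nonneg _
  refine ⟨4 * k, by linarith, fun r δ hr hδ => ⟨n * (2 * (r + 2 * k)) + 2 * (r + 2 * k) + 2 * k,
    fun Γ hΓ0 hΓ => ?_⟩⟩
  obtain ⟨T0, hT0⟩ := exists_nat_ge ((12 * k ^ 2 + 2 * k * (2 * n * Γ)) / δ)
  obtain ⟨T, hT, hT1⟩ : ∃ T : ℕ, 12 * k ≤ T ∧ T0 ≤ T := ⟨12 * k + T0, by omega, by omega⟩
  have t1 : (12 * k : ℝ) ≤ T := by exact_mod_cast hT
  have t0 : (0 : ℝ) < T := by linarith
  have t2 : 12 * (k : ℝ) ^ 2 / T + 2 * k / T * (2 * n * Γ) ≤ δ := by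
    rw [div_mul_eq_mul_div, ← add_div, div_le_iff₀' t0]
    exact (div_le_iff₀ hδ).1 (hT0.trans (Nat.cast_le.2 hT1))
  have t3 : 12 * (k : ℝ) ^ 2 / T ≤ k := by
    rw [div_le_iff₀ t0]
    nlinarith
  obtain ⟨W, hW, hR⟩ := hA T (by omega)
  choose f β α hf hm _ _ using fun y : GN.XX (fun _ : Unit => a) S' T k => (y.2 ()).frame ha
  have key : ∀ (g : GL (Fin n) K) (y z : GN.XX (fun _ : Unit => a) S' T k),
      Nr k (act g (GN.g0 a)) (GN.g0 a) →
      GN.Rel a (2 * k) (2 * k / T) (12 * k ^ 2 / T) g (y.1 ()) (z.1 ()) →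
      RF a ns (4 * k) r δ Γ g (α y) (α z)
        (fun b => (f y, fun j => β y j - 2 * (r + 2 * k) * (b j : ℕ)))
        fun b => (f z, fun j => β z j - 2 * (r + 2 * k) * (b j : ℕ)) := fun g y z h1 h2 =>
    Ch_rf (GN.cmp_of_rel (av := fun _ : Unit => a) (fun _ => ha) (y := y.1) (z := z.1)
      (fun _ => ⟨hf y, hm y⟩) (fun _ => ⟨hf z, hm z⟩) (fun _ => h1) (fun _ => h2) (by linarith)
      (by positivity) ((div_le_one t0).2 (by linarith)) hΓ (by linarith) le_rfl hΓ0)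
      (by linarith) (by linarith) (by linarith) hr le_rfl t2
  have rel : ∀ (l : List (G × unitInterval)) (g g' : G) y, l.length ≤ 1 → (∀ p ∈ l, p.1 ∈ S) →
      g ∈ S → (l.map Prod.fst).prod * g = g' → RF a ns (4 * k) r δ Γ (ρ g') (α y) (α (W l g y))
        (fun b => (f y, fun j => β y j - 2 * (r + 2 * k) * (b j : ℕ)))
        fun b => (f (W l g y), fun j => β (W l g y) j - 2 * (r + 2 * k) * (b j : ℕ)) := by
    rintro l g _ y h1 h2 h3 rfl
    obtain ⟨a1, a2⟩ := hR l g y h1 h2 h3 ()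
    refine key _ _ _ a1 (a2.mono ((W l g y).2 ()).sn.nn ?_ ?_ ?_) <;>
      exact le_of_eq (by push_cast; ring)
  refine ⟨GN.XX (fun _ : Unit => a) S' T k, inferInstance, fun g => W [] g,
    fun g h y t => W [(g, t)] h y, α,
    fun y b => (f y, fun j => β y j - 2 * (r + 2 * k) * (b j : ℕ)),
    grid_XX (fun _ => ha) (by omega) (by linarith) (Nat.le_succ _), hm, fun g _ => ?_,
    fun g _ h _ => ?_, fun g _ h _ y => hW.cut [] [] g h y, fun g _ h _ y => hW.mergeLast [] g h y,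
    ⟨12 * k ^ 2 / T, by positivity, fun y z e => key _ _ _ ?_ ?_⟩,
    fun g hg y => rel [] g g y (by simp) (by simp) hg (by simp),
    fun g hg h hh y t => rel [(g, t)] h (g * h) y (by simp) (by simpa using hg) hh (by simp)⟩
  · simpa [Function.comp_def] using (hW.cont 0 (fun _ => g) g).comp
      (f := fun y => (fun _ => 0, y)) (by fun_prop)
  · simpa [Function.comp_def] using (hW.cont 1 (fun _ => g) h).comp
      (f := fun p : _ × unitInterval => (fun _ => p.2, p.1)) (by fun_prop)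
  · rw [map_one, GN.act_one]
    exact GN.Nr.rfl.mono (GN.dg_nonneg _ _) (GN.dg_nonneg _ _) (by linarith)
  · rw [map_one]
    exact (GN.rel_of_nr ((GN.XX.dist_le_iff (by positivity)).1 e ()).symm).mono (z.2 ()).sn.nn
      (by linarith) (by positivity) le_rfl

end Pool.Agent.Work.MP_9d1ffa_al.WL
end

-- merged part: Pool.Agent.Work.MP_9d1ffa_al.WL.Ci
section
/-! Interpolation of Euclidean norms. -/

namespace Pool.Agent.Work.MP_9d1ffa_al.WL

open Real Matrix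
open GN (V Le Nr act cl Red wb)

variable {n : ℕ}

theorem ac_apply (z : ℂ) : ac z = ‖z‖ := rfl

theorem dn2_sq (f : GL (Fin n) ℂ) (β : Fin n → ℝ) (x : V n ℂ) :
    dn ac n2 f β x ^ 2 = ∑ j, ‖((f⁻¹ : GL (Fin n) ℂ).1 *ᵥ x) j‖ ^ 2 * exp (2 * β j) := by
  unfold dn n2
  rw [sq_sqrt (Finset.sum_nonneg fun j _ => sq_nonneg _)]
  refine Finset.sum_congr rfl fun j _ => ?_
  rw [ac_apply, mul_pow, two_mul, exp_add, sq (exp (β j))]

/-- complex interpolation weight -/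
noncomputable def Ci_e (a b : Fin n → ℝ) (z : ℂ) (p : Fin n) : ℂ :=
  Complex.exp ((1 - z) * (a p : ℂ) + z * (b p : ℂ))

theorem Ci_e_norm (a b : Fin n → ℝ) (z : ℂ) (p : Fin n) :
    ‖Ci_e a b z p‖ = exp ((1 - z.re) * a p + z.re * b p) := by
  unfold Ci_e
  rw [Complex.norm_exp]
  congr 1
  simp

theorem Ci_e_ne (a b : Fin n → ℝ) (z : ℂ) (p : Fin n) : Ci_e a b z p ≠ 0 := Complex.exp_ne_zero _

theorem Ci_e_diff (a b : Fin n → ℝ) (p : Fin n) : Differentiable ℂ fun z => Ci_e a b z p := by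
  unfold Ci_e
  fun_prop

theorem Ci_norm (f : GL (Fin n) ℂ) (a b : Fin n → ℝ) (z : ℂ) (x : V n ℂ) :
    ‖(WithLp.toLp 2 fun p => Ci_e a b z p * ((f⁻¹ : GL (Fin n) ℂ).1 *ᵥ x) p :
      EuclideanSpace ℂ (Fin n))‖ = dn ac n2 f (fun j => (1 - z.re) * a j + z.re * b j) x := by
  rw [EuclideanSpace.norm_eq]
  unfold dn n2
  congr 1
  refine Finset.sum_congr rfl fun j _ => ?_
  simp only [ac_apply, norm_mul, Ci_e_norm]
  rw [mul_comm]

/-- Three lines theorem (`Complex.HadamardThreeLines.norm_le_interp_of_mem_verticalClosedStrip₀₁'`).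
With `M = f⁻¹ * f'`, `v q = exp (c' q) * (f'⁻¹ x) q`, `w p = exp (c p) * (f⁻¹ x) p` put
`F z = ∑ p, conj (w p) * exp ((1 - z) a p + z b p) * ∑ q, M p q * exp (-(1 - z) a' q - z b' q) * v q`.
Then `F l = ‖w‖ ^ 2`; on `re z = 0` Cauchy-Schwarz and `h` at the vector `f' *ᵥ y`,
`y q = exp (-(1 - z) a' q - z b' q) * v q`, give `‖F z‖ ≤ ‖w‖ * exp r * ‖v‖`; same on `re z = 1`. -/
theorem interp {f f' : GL (Fin n) ℂ} {a a' b b' : Fin n → ℝ} {r r' l : ℝ} (h0 : 0 ≤ l) (h1 : l ≤ 1)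
    (h : Le r (dn ac n2 f a) (dn ac n2 f' a')) (h' : Le r' (dn ac n2 f b) (dn ac n2 f' b')) :
    Le ((1 - l) * r + l * r') (dn ac n2 f fun j => (1 - l) * a j + l * b j)
      (dn ac n2 f' fun j => (1 - l) * a' j + l * b' j) := by
  intro x
  obtain ⟨W, hW⟩ : ∃ W, W = dn ac n2 f' (fun j => (1 - l) * a' j + l * b' j) x := ⟨_, rfl⟩
  have hW0 : 0 ≤ W := by
    rw [hW]
    exact sqrt_nonneg _
  obtain ⟨X, hX⟩ : ∃ X : ℂ → V n ℂ, ∀ z, X z = f'.1 *ᵥ fun q =>
      (Ci_e a' b' z q)⁻¹ * (Ci_e a' b' l q * ((f'⁻¹ : GL (Fin n) ℂ).1 *ᵥ x) q) :=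
    ⟨_, fun _ => rfl⟩
  have hXl : X l = x := by
    rw [hX]
    have : (fun q => (Ci_e a' b' l q)⁻¹ * (Ci_e a' b' l q * ((f'⁻¹ : GL (Fin n) ℂ).1 *ᵥ x) q)) =
        (f'⁻¹ : GL (Fin n) ℂ).1 *ᵥ x := by
      funext q
      rw [inv_mul_cancel_left₀ (Ci_e_ne _ _ _ _)]
    rw [this, mulVec_mulVec, Units.mul_inv, one_mulVec]
  have hXW : ∀ z : ℂ, dn ac n2 f' (fun j => (1 - z.re) * a' j + z.re * b' j) (X z) = W := by
    intro z
    have e1 := Ci_norm f' a' b' z (X z)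
    have e2 := Ci_norm f' a' b' l x
    rw [Complex.ofReal_re] at e2
    rw [← e1, hW, ← e2]
    congr 2
    funext p
    rw [hX, mulVec_mulVec, Units.inv_mul, one_mulVec, mul_inv_cancel_left₀ (Ci_e_ne _ _ _ _)]
  obtain ⟨F, hF⟩ : ∃ F : ℂ → EuclideanSpace ℂ (Fin n), ∀ z, F z =
      WithLp.toLp 2 fun p => Ci_e a b z p * ((f⁻¹ : GL (Fin n) ℂ).1 *ᵥ X z) p := ⟨_, fun _ => rfl⟩
  have hFn : ∀ z : ℂ, ‖F z‖ = dn ac n2 f (fun j => (1 - z.re) * a j + z.re * b j) (X z) := by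
    intro z
    rw [hF, Ci_norm]
  have hXd : ∀ k, Differentiable ℂ fun z => X z k := by
    intro k
    simp only [hX, mulVec, dotProduct]
    refine Differentiable.fun_sum fun q _ => ?_
    exact (((Ci_e_diff a' b' q).inv fun z => Ci_e_ne _ _ _ _).mul_const _).const_mul _
  have hFd : Differentiable ℂ F := by
    rw [differentiable_euclidean]
    intro p
    simp only [hF, mulVec, dotProduct]
    refine (Ci_e_diff a b p).mul (Differentiable.fun_sum fun k _ => ?_)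
    exact (hXd k).const_mul _
  have hB : BddAbove ((norm ∘ F) '' Complex.HadamardThreeLines.verticalClosedStrip 0 1) := by
    refine ⟨exp ‖b - a‖ * (exp r * (exp ‖b' - a'‖ * W)), ?_⟩
    rintro _ ⟨z, hz, rfl⟩
    obtain ⟨z0, z1⟩ : 0 ≤ z.re ∧ z.re ≤ 1 := hz
    have k1 : ∀ j, (1 - z.re) * a j + z.re * b j ≤ ‖b - a‖ + a j := by
      intro j
      have e : |b j - a j| ≤ ‖b - a‖ := norm_le_pi_norm (b - a) j
      have e' := abs_le.1 e
      nlinarith [norm_nonneg (b - a)]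
    have k2 : ∀ j, a' j ≤ ‖b' - a'‖ + ((1 - z.re) * a' j + z.re * b' j) := by
      intro j
      have e : |b' j - a' j| ≤ ‖b' - a'‖ := norm_le_pi_norm (b' - a') j
      have e' := abs_le.1 e
      nlinarith [norm_nonneg (b' - a')]
    have m1 := dn_le_of (a := ac) (f := f) nm_n2 k1 (X z)
    have m2 := h (X z)
    have m3 := dn_le_of (a := ac) (f := f') nm_n2 k2 (X z)
    rw [hXW] at m3
    show ‖F z‖ ≤ _
    rw [hFn]
    refine m1.trans (mul_le_mul_of_nonneg_left (m2.trans ?_) (exp_pos _).le)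
    exact mul_le_mul_of_nonneg_left m3 (exp_pos _).le
  have ha : ∀ z ∈ Complex.re ⁻¹' {0}, ‖F z‖ ≤ exp r * W := by
    intro z hz
    have hz0 : z.re = 0 := hz
    have e := hXW z
    rw [hFn]
    simp only [hz0, sub_zero, one_mul, zero_mul, add_zero] at e ⊢
    rw [← e]
    exact h (X z)
  have hb : ∀ z ∈ Complex.re ⁻¹' {1}, ‖F z‖ ≤ exp r' * W := by
    intro z hz
    have hz0 : z.re = 1 := hz
    have e := hXW z
    rw [hFn]
    simp only [hz0, sub_self, one_mul, zero_mul, zero_add] at e ⊢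
    rw [← e]
    exact h' (X z)
  have hl : (l : ℂ) ∈ Complex.HadamardThreeLines.verticalClosedStrip 0 1 := ⟨h0, h1⟩
  have key := Complex.HadamardThreeLines.norm_le_interp_of_mem_verticalClosedStrip₀₁' F hl
    hFd.diffContOnCl hB ha hb
  rw [hFn, hXl, Complex.ofReal_re, mul_rpow (exp_pos _).le hW0, mul_rpow (exp_pos _).le hW0,
    mul_mul_mul_comm, ← rpow_add_of_nonneg hW0 (sub_nonneg.2 h1) h0, sub_add_cancel, rpow_one,
    ← exp_mul, ← exp_mul, ← exp_add, mul_comm r, mul_comm r', hW] at key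
  exact key

end Pool.Agent.Work.MP_9d1ffa_al.WL
end

-- merged part: Pool.Agent.Work.MP_9d1ffa_al.WL.Cj
section
/-! Hermitian forms: polarisation, frames, and the comparison of flats. -/

namespace Pool.Agent.Work.MP_9d1ffa_al.WL

open Real Matrix
open GN (V Le Nr act cl Red wb)

variable {n : ℕ}

/-- the quadratic form of a matrix -/
noncomputable def qf (y : Matrix (Fin n) (Fin n) ℂ) (x : V n ℂ) : ℝ := (star x ⬝ᵥ y *ᵥ x).re

/-- the Hermitian matrix of a frame -/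
noncomputable def hm (f : GL (Fin n) ℂ) (β : Fin n → ℝ) : Matrix (Fin n) (Fin n) ℂ :=
  (f⁻¹ : GL (Fin n) ℂ).1ᴴ * diagonal (fun j => ((exp (2 * β j) : ℝ) : ℂ)) * (f⁻¹ : GL (Fin n) ℂ).1

theorem hm_herm (f : GL (Fin n) ℂ) (β : Fin n → ℝ) : (hm f β).IsHermitian :=
  isHermitian_conjTranspose_mul_mul _
    (isHermitian_diagonal_iff.2 fun _ => Complex.conj_ofReal _)

theorem cj_re_sq (z : ℂ) (d : ℝ) : (star z * ((d : ℂ) * z)).re = ‖z‖ ^ 2 * d := by
  have : star z * ((d : ℂ) * z) = ((‖z‖ ^ 2 * d : ℝ) : ℂ) := by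
    rw [Complex.ofReal_mul, Complex.ofReal_pow, ← Complex.conj_mul', Complex.star_def]; ring
  rw [this, Complex.ofReal_re]

theorem cj_qf_diag (A : Matrix (Fin n) (Fin n) ℂ) (d : Fin n → ℝ) (x : V n ℂ) :
    qf (Aᴴ * diagonal (fun j => (d j : ℂ)) * A) x = ∑ j, ‖(A *ᵥ x) j‖ ^ 2 * d j := by
  unfold qf
  rw [← mulVec_mulVec, ← mulVec_mulVec, dotProduct_mulVec, ← star_mulVec, dotProduct,
    Complex.re_sum]
  refine Finset.sum_congr rfl fun j _ => ?_
  rw [mulVec_diagonal, Pi.star_apply, cj_re_sq]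

theorem qf_hm (f : GL (Fin n) ℂ) (β : Fin n → ℝ) (x : V n ℂ) :
    qf (hm f β) x = dn ac n2 f β x ^ 2 := by
  rw [dn2_sq, hm, cj_qf_diag]

theorem cj_qf_one (x : V n ℂ) : qf (1 : Matrix (Fin n) (Fin n) ℂ) x = ∑ j, ‖x j‖ ^ 2 := by
  have := cj_qf_diag (1 : Matrix (Fin n) (Fin n) ℂ) (fun _ => 1) x
  simpa using this

theorem cj_qf_gram (A : Matrix (Fin n) (Fin n) ℂ) (x : V n ℂ) :
    qf (Aᴴ * A - 1) x = ∑ j, ‖(A *ᵥ x) j‖ ^ 2 - ∑ j, ‖x j‖ ^ 2 := by
  have h1 := cj_qf_diag A (fun _ => 1) x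
  have h2 := cj_qf_one x
  simp only [Complex.ofReal_one, diagonal_one, mul_one] at h1
  rw [← h1, ← h2, qf, qf, qf, sub_mulVec, dotProduct_sub, Complex.sub_re]

theorem cj_polar {y : Matrix (Fin n) (Fin n) ℂ} (hy : y.IsHermitian) (u v : V n ℂ) :
    qf y (u + v) - qf y (u - v) = 4 * (star u ⬝ᵥ y *ᵥ v).re := by
  have h : (star v ⬝ᵥ y *ᵥ u).re = (star u ⬝ᵥ y *ᵥ v).re := by
    have : star v ⬝ᵥ y *ᵥ u = star (star u ⬝ᵥ y *ᵥ v) := by
      rw [← star_dotProduct_star, star_star, star_mulVec, hy.eq, dotProduct_mulVec,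
        dotProduct_comm]
    rw [this, Complex.star_def, Complex.conj_re]
  simp only [qf, star_add, star_sub, mulVec_add, mulVec_sub, add_dotProduct, sub_dotProduct,
    dotProduct_add, dotProduct_sub, Complex.add_re, Complex.sub_re]
  linarith

/-- Evaluate at `e p + c • e q` and `e p - c • e q`, `‖c‖ = 1`, `y p q * c = ‖y p q‖`. -/
theorem entry_le {y : Matrix (Fin n) (Fin n) ℂ} (hy : y.IsHermitian) {θ : ℝ}
    (h : ∀ x : V n ℂ, |qf y x| ≤ θ * ∑ j, ‖x j‖ ^ 2) (p q : Fin n) : ‖y p q‖ ≤ θ := by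
  obtain ⟨c, hc, hc'⟩ := Complex.exists_norm_eq_mul_self (y p q)
  have h1 := cj_polar hy (Pi.single p 1) (Pi.single q c)
  have h2 : star (Pi.single p 1 : V n ℂ) ⬝ᵥ y *ᵥ Pi.single q c = (‖y p q‖ : ℝ) := by
    rw [hc', ← Pi.single_star, single_dotProduct, mulVec_single]
    simp [mul_comm]
  rw [h2, Complex.ofReal_re] at h1
  have h3 : ∀ (k : Fin n) (z : ℂ), ∑ j, ‖(Pi.single k z : V n ℂ) j‖ ^ 2 = ‖z‖ ^ 2 := by
    intro k z
    rw [Finset.sum_eq_single k]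
    · simp
    · intro j _ hj; simp [hj]
    · simp
  have h4 : ∑ j, ‖(Pi.single p 1 + Pi.single q c : V n ℂ) j‖ ^ 2 +
      ∑ j, ‖(Pi.single p 1 - Pi.single q c : V n ℂ) j‖ ^ 2 = 4 := by
    rw [← Finset.sum_add_distrib]
    have : ∀ j, ‖(Pi.single p 1 + Pi.single q c : V n ℂ) j‖ ^ 2 +
        ‖(Pi.single p 1 - Pi.single q c : V n ℂ) j‖ ^ 2 =
        2 * (‖(Pi.single p 1 : V n ℂ) j‖ ^ 2 + ‖(Pi.single q c : V n ℂ) j‖ ^ 2) := fun j => by
      rw [Pi.add_apply, Pi.sub_apply]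
      exact parallelogram_law_with_norm ℂ _ _
    rw [Finset.sum_congr rfl fun j _ => this j, ← Finset.mul_sum, Finset.sum_add_distrib, h3, h3,
      hc, norm_one]
    norm_num
  have h5 := (abs_le.1 (h (Pi.single p 1 + Pi.single q c))).2
  have h6 := (abs_le.1 (h (Pi.single p 1 - Pi.single q c))).1
  have h7 : θ * ∑ j, ‖(Pi.single p 1 + Pi.single q c : V n ℂ) j‖ ^ 2 +
      θ * ∑ j, ‖(Pi.single p 1 - Pi.single q c : V n ℂ) j‖ ^ 2 = θ * 4 := by
    rw [← mul_add, h4]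
  linarith

theorem qf_le {y : Matrix (Fin n) (Fin n) ℂ} {θ : ℝ} (h : ∀ p q, ‖y p q‖ ≤ θ) (x : V n ℂ) :
    |qf y x| ≤ n * θ * ∑ j, ‖x j‖ ^ 2 := by
  rcases Nat.eq_zero_or_pos n with rfl | hn
  · simp [qf, dotProduct]
  have hθ : 0 ≤ θ := (norm_nonneg _).trans (h ⟨0, hn⟩ ⟨0, hn⟩)
  have h1 : ∀ p, ‖(y *ᵥ x) p‖ ≤ θ * ∑ q, ‖x q‖ := fun p => by
    rw [mulVec, dotProduct, Finset.mul_sum]
    refine (norm_sum_le _ _).trans (Finset.sum_le_sum fun q _ => ?_)
    rw [norm_mul]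
    exact mul_le_mul_of_nonneg_right (h p q) (norm_nonneg _)
  have h2 : ‖star x ⬝ᵥ y *ᵥ x‖ ≤ (∑ q, ‖x q‖) * (θ * ∑ q, ‖x q‖) := by
    rw [dotProduct, Finset.sum_mul]
    refine (norm_sum_le _ _).trans (Finset.sum_le_sum fun p _ => ?_)
    rw [norm_mul, Pi.star_apply, norm_star]
    exact mul_le_mul_of_nonneg_left (h1 p) (norm_nonneg _)
  have h3 := sq_sum_le_card_mul_sum_sq (s := Finset.univ) (f := fun q => ‖x q‖)
  rw [Finset.card_univ, Fintype.card_fin] at h3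
  have h4 := mul_le_mul_of_nonneg_left h3 hθ
  refine (Complex.abs_re_le_norm _).trans (h2.trans ?_)
  calc (∑ q, ‖x q‖) * (θ * ∑ q, ‖x q‖) = θ * (∑ q, ‖x q‖) ^ 2 := by ring
    _ ≤ θ * (n * ∑ q, ‖x q‖ ^ 2) := h4
    _ = _ := by ring

/-- Spectral theorem (`Matrix.IsHermitian.spectral_theorem`), sorted by `Tuple.sort`. -/
theorem exists_frame {y : Matrix (Fin n) (Fin n) ℂ} (hy : y.IsHermitian)
    (h : ∀ x : V n ℂ, x ≠ 0 → 0 < qf y x) : ∃ (U : GL (Fin n) ℂ) (α : Fin n → ℝ), Monotone α ∧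
      dn ac n2 U 0 = dn ac n2 1 0 ∧ ∀ x, dn ac n2 U α x = √(qf y x) := by
  have hpos : ∀ j, 0 < hy.eigenvalues j := fun j => by
    rw [hy.eigenvalues_eq]
    refine h _ fun h0 => ?_
    have := hy.eigenvectorBasis.orthonormal.1 j
    have h1 : hy.eigenvectorBasis j = 0 := by
      ext k
      exact congrFun h0 k
    rw [h1, norm_zero] at this
    exact zero_ne_one this
  set W : Matrix (Fin n) (Fin n) ℂ := hy.eigenvectorUnitary.1 with hW
  have hW1 : W * Wᴴ = 1 := hy.eigenvectorUnitary.2.2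
  have hW2 : Wᴴ * W = 1 := hy.eigenvectorUnitary.2.1
  have hsp : y = W * diagonal (fun j => (hy.eigenvalues j : ℂ)) * Wᴴ := hy.spectral_theorem
  set σ := Tuple.sort hy.eigenvalues with hσ
  have e1 : W.submatrix id σ * Wᴴ.submatrix σ id = 1 := by
    rw [submatrix_mul_equiv, hW1, submatrix_id_id]
  have e2 : Wᴴ.submatrix σ id * W.submatrix id σ = 1 := mul_eq_one_comm.1 e1
  let U : GL (Fin n) ℂ := ⟨W.submatrix id σ, Wᴴ.submatrix σ id, e1, e2⟩
  have hU : (U⁻¹ : GL (Fin n) ℂ).1 = Wᴴ.submatrix σ id := rfl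
  have hU' : (Wᴴ.submatrix σ id)ᴴ = W.submatrix id σ := by
    rw [conjTranspose_submatrix, conjTranspose_conjTranspose]
  have hsq : ∀ (f : GL (Fin n) ℂ) (β : Fin n → ℝ) (x : V n ℂ),
      dn ac n2 f β x = √(qf (hm f β) x) := fun f β x => by
    rw [qf_hm, sqrt_sq (dn_nonneg nm_n2 _ _ _)]
  refine ⟨U, fun j => log (hy.eigenvalues (σ j)) / 2, fun i j hij => ?_, ?_, fun x => ?_⟩
  · exact div_le_div_of_nonneg_right
      (log_le_log (hpos _) (Tuple.monotone_sort hy.eigenvalues hij)) zero_le_two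
  · funext x
    rw [hsq, hsq]
    have a1 : hm U 0 = 1 := by
      rw [hm, hU, hU']
      simpa using e1
    have a2 : hm (1 : GL (Fin n) ℂ) 0 = 1 := by simp [hm]
    rw [a1, a2]
  · rw [hsq]
    have a1 : (hm U fun j => log (hy.eigenvalues (σ j)) / 2) = y := by
      rw [hm, hU, hU']
      have : (fun j => ((exp (2 * (log (hy.eigenvalues (σ j)) / 2)) : ℝ) : ℂ)) =
          (fun j => (hy.eigenvalues j : ℂ)) ∘ σ := by
        funext j
        rw [mul_div_cancel₀ _ two_ne_zero, exp_log (hpos _)]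
        rfl
      rw [this, ← submatrix_diagonal_equiv, submatrix_mul_equiv, submatrix_mul_equiv,
        submatrix_id_id]
      exact hsp.symm
    rw [a1]

theorem cj_inv_mul (f f' : GL (Fin n) ℂ) (z : V n ℂ) :
    (f⁻¹ : GL (Fin n) ℂ).1 *ᵥ (f'.1 *ᵥ z) = (f⁻¹ * f' : GL (Fin n) ℂ).1 *ᵥ z := by
  rw [mulVec_mulVec, Units.val_mul]

theorem cj_inv_self (f : GL (Fin n) ℂ) (z : V n ℂ) :
    (f⁻¹ : GL (Fin n) ℂ).1 *ᵥ (f.1 *ᵥ z) = z := by
  rw [cj_inv_mul, inv_mul_cancel, Units.val_one, one_mulVec]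

theorem cj_half {f f' : GL (Fin n) ℂ} {β β' τ : Fin n → ℝ} {b : Fin n → Fin n} {δ ε r : ℝ}
    (hε : 0 ≤ ε) (hy : Le δ (dn ac n2 f β) (dn ac n2 f' β'))
    (he : ∀ p q, b p ≠ b q → ‖(f⁻¹ * f' : GL (Fin n) ℂ).1 p q‖ ≤ ε * exp (β' q - β p))
    (hτ : ‖τ‖ ≤ r) (x : V n ℂ) :
    dn ac n2 f (fun j => β j + τ (b j)) x ≤
      (exp δ + n * n * exp (2 * r) * ε) * dn ac n2 f' (fun j => β' j + τ (b j)) x := by
  set N := (f⁻¹ * f' : GL (Fin n) ℂ).1 with hN
  set y := (f'⁻¹ : GL (Fin n) ℂ).1 *ᵥ x with hyx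
  set D := dn ac n2 f' (fun j => β' j + τ (b j)) x with hD
  have hD0 : 0 ≤ D := dn_nonneg nm_n2 _ _ _
  have hx : (f⁻¹ : GL (Fin n) ℂ).1 *ᵥ x = N *ᵥ y := by
    rw [hyx, mulVec_mulVec, hN, ← Units.val_mul, mul_inv_cancel_right]
  let z : V n ℂ := fun q => (exp (τ (b q)) : ℝ) * y q
  have h1 : dn ac n2 f' β' (f'.1 *ᵥ z) = D := by
    rw [hD, dn, dn, cj_inv_self]
    congr 1
    funext q
    rw [ac_apply, ac_apply, norm_mul, Complex.norm_real, Real.norm_of_nonneg (exp_pos _).le,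
      exp_add]
    ring
  have h2 := hy (f'.1 *ᵥ z)
  rw [h1, dn, cj_inv_mul, ← hN] at h2
  have hb : ∀ k, |τ k| ≤ r := fun k => (norm_le_pi_norm τ k).trans hτ
  have h3 : ∀ q, ‖y q‖ * exp (β' q + τ (b q)) ≤ D := fun q =>
    le_dn (a := ac) nm_n2 f' (fun j => β' j + τ (b j)) x q
  have h4 : ∀ p q, ‖N p q * (((exp (τ (b p)) - exp (τ (b q)) : ℝ) : ℂ) * y q)‖ * exp (β p) ≤
      exp (2 * r) * ε * D := fun p q => by
    by_cases hpq : b p = b q
    · rw [hpq, sub_self, Complex.ofReal_zero, zero_mul, mul_zero, norm_zero, zero_mul]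
      positivity
    have a1 : |exp (τ (b p)) - exp (τ (b q))| ≤ exp (2 * r) * exp (τ (b q)) := by
      have b1 := abs_le.1 (hb (b p))
      have b2 := abs_le.1 (hb (b q))
      have b3 : exp (τ (b p)) ≤ exp (2 * r) * exp (τ (b q)) := by
        rw [← exp_add]; exact exp_le_exp.2 (by linarith)
      have b4 : exp (τ (b q)) ≤ exp (2 * r) * exp (τ (b q)) := by
        rw [← exp_add]; exact exp_le_exp.2 (by linarith)
      have b5 := exp_pos (τ (b p))
      have b6 := exp_pos (τ (b q))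
      exact abs_le.2 ⟨by linarith, by linarith⟩
    rw [norm_mul, norm_mul, Complex.norm_real, Real.norm_eq_abs]
    calc ‖N p q‖ * (|exp (τ (b p)) - exp (τ (b q))| * ‖y q‖) * exp (β p)
        ≤ ε * exp (β' q - β p) * (exp (2 * r) * exp (τ (b q)) * ‖y q‖) * exp (β p) := by
          refine mul_le_mul_of_nonneg_right ?_ (exp_pos _).le
          exact mul_le_mul (he p q hpq) (mul_le_mul_of_nonneg_right a1 (norm_nonneg _))
            (by positivity) (by positivity)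
      _ = exp (2 * r) * ε * (‖y q‖ * exp (β' q + τ (b q))) := by
          rw [exp_add, exp_sub]
          field_simp
      _ ≤ _ := mul_le_mul_of_nonneg_left (h3 q) (by positivity)
  have h5 : ∀ p, ac ((N *ᵥ y) p) * exp (β p + τ (b p)) ≤
      ((fun p => ac ((N *ᵥ z) p) * exp (β p)) + fun _ => n * (exp (2 * r) * ε * D) :
        Fin n → ℝ) p := fun p => by
    have a1 : ((exp (τ (b p)) : ℝ) : ℂ) * (N *ᵥ y) p =
        (N *ᵥ z) p + ∑ q, N p q * (((exp (τ (b p)) - exp (τ (b q)) : ℝ) : ℂ) * y q) := by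
      simp only [mulVec, dotProduct, z, Finset.mul_sum, ← Finset.sum_add_distrib,
        Complex.ofReal_sub]
      exact Finset.sum_congr rfl fun q _ => by ring
    have a2 : ‖∑ q, N p q * (((exp (τ (b p)) - exp (τ (b q)) : ℝ) : ℂ) * y q)‖ * exp (β p) ≤
        n * (exp (2 * r) * ε * D) := by
      refine (mul_le_mul_of_nonneg_right (norm_sum_le _ _) (exp_pos _).le).trans ?_
      rw [Finset.sum_mul]
      refine (Finset.sum_le_sum fun q _ => h4 p q).trans ?_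
      rw [Finset.sum_const, Finset.card_univ, Fintype.card_fin, nsmul_eq_mul]
    have a3 : ‖(N *ᵥ y) p‖ * exp (β p + τ (b p)) =
        ‖((exp (τ (b p)) : ℝ) : ℂ) * (N *ᵥ y) p‖ * exp (β p) := by
      rw [norm_mul, Complex.norm_real, Real.norm_of_nonneg (exp_pos _).le, exp_add]
      ring
    rw [Pi.add_apply, ac_apply, ac_apply, a3, a1]
    have a4 := mul_le_mul_of_nonneg_right (norm_add_le ((N *ᵥ z) p)
      (∑ q, N p q * (((exp (τ (b p)) - exp (τ (b q)) : ℝ) : ℂ) * y q))) (exp_pos (β p)).le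
    linarith
  have hc : 0 ≤ n * (exp (2 * r) * ε * D) := by positivity
  have h6 := nm_n2.mono _ _ (fun p => mul_nonneg (ac.nonneg _) (exp_pos _).le) h5
  have h7 := (nm_n2 (n := n)).ad (fun p => ac ((N *ᵥ z) p) * exp (β p))
    (fun _ => n * (exp (2 * r) * ε * D)) (fun p => mul_nonneg (ac.nonneg _) (exp_pos _).le)
    fun _ => hc
  have h8 := (nm_n2 (n := n)).le_sum (u := fun _ => n * (exp (2 * r) * ε * D)) fun _ => hc
  rw [Finset.sum_const, Finset.card_univ, Fintype.card_fin, nsmul_eq_mul] at h8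
  rw [dn, hx]
  calc _ ≤ exp δ * D + n * (n * (exp (2 * r) * ε * D)) := by linarith
    _ = _ := by ring

/-- the normalised transition matrix -/
noncomputable def cjM (f f' : GL (Fin n) ℂ) (β β' : Fin n → ℝ) : Matrix (Fin n) (Fin n) ℂ :=
  diagonal (fun j => ((exp (β j) : ℝ) : ℂ)) * (f⁻¹ * f' : GL (Fin n) ℂ).1 *
    diagonal fun j => ((exp (-β' j) : ℝ) : ℂ)

theorem cjM_norm (f f' : GL (Fin n) ℂ) (β β' : Fin n → ℝ) (p q : Fin n) :
    ‖(f⁻¹ * f' : GL (Fin n) ℂ).1 p q‖ = ‖cjM f f' β β' p q‖ * exp (β' q - β p) := by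
  rw [cjM, mul_diagonal, diagonal_mul, norm_mul, norm_mul, Complex.norm_real, Complex.norm_real,
    Real.norm_of_nonneg (exp_pos _).le, Real.norm_of_nonneg (exp_pos _).le, exp_sub, exp_neg]
  field_simp

theorem cjM_le {f f' : GL (Fin n) ℂ} {β β' : Fin n → ℝ} {p q : Fin n} {u : ℝ}
    (h : ‖(f⁻¹ * f' : GL (Fin n) ℂ).1 p q‖ ≤ exp (u + β' q - β p)) :
    ‖cjM f f' β β' p q‖ ≤ exp u := by
  rw [cjM_norm f f' β β', add_sub_assoc, exp_add] at h
  exact le_of_mul_le_mul_right h (exp_pos _)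

theorem cjM_mul (f f' : GL (Fin n) ℂ) (β β' : Fin n → ℝ) :
    cjM f f' β β' * cjM f' f β' β = 1 := by
  have h : ∀ γ : Fin n → ℝ, (diagonal fun j => ((exp (-γ j) : ℝ) : ℂ)) *
      (diagonal fun j => ((exp (γ j) : ℝ) : ℂ)) = 1 := fun γ => by
    rw [diagonal_mul_diagonal, ← diagonal_one]
    congr 1
    funext j
    rw [← Complex.ofReal_mul, ← exp_add, neg_add_cancel, exp_zero, Complex.ofReal_one]
  have h2 : (f⁻¹ * f' : GL (Fin n) ℂ).1 * (f'⁻¹ * f : GL (Fin n) ℂ).1 = 1 := by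
    rw [← Units.val_mul, mul_assoc, mul_inv_cancel_left, inv_mul_cancel, Units.val_one]
  calc cjM f f' β β' * cjM f' f β' β
      = (diagonal fun j => ((exp (β j) : ℝ) : ℂ)) * ((f⁻¹ * f' : GL (Fin n) ℂ).1 *
        (((diagonal fun j => ((exp (-β' j) : ℝ) : ℂ)) *
          (diagonal fun j => ((exp (β' j) : ℝ) : ℂ))) * (f'⁻¹ * f : GL (Fin n) ℂ).1)) *
        diagonal fun j => ((exp (-β j) : ℝ) : ℂ) := by
        simp only [cjM, Matrix.mul_assoc]
    _ = 1 := by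
        rw [h, Matrix.one_mul, h2, Matrix.mul_one]
        exact mul_eq_one_comm.1 (h β)

theorem cjM_gram {f f' : GL (Fin n) ℂ} {β β' : Fin n → ℝ} {δ : ℝ} (hδ : 0 ≤ δ)
    (hy : Nr δ (dn ac n2 f β) (dn ac n2 f' β')) (p q : Fin n) :
    ‖((cjM f f' β β')ᴴ * cjM f f' β β' - 1) p q‖ ≤ exp (2 * δ) - 1 := by
  refine entry_le ((isHermitian_conjTranspose_mul_self _).sub isHermitian_one) (fun v => ?_) p q
  rw [cj_qf_gram]
  obtain ⟨z, hz⟩ : ∃ z : V n ℂ, z = (diagonal fun j => ((exp (-β' j) : ℝ) : ℂ)) *ᵥ v := ⟨_, rfl⟩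
  have h1 : dn ac n2 f' β' (f'.1 *ᵥ z) ^ 2 = ∑ j, ‖v j‖ ^ 2 := by
    rw [dn2_sq, cj_inv_self]
    refine Finset.sum_congr rfl fun j _ => ?_
    rw [hz, mulVec_diagonal, norm_mul, Complex.norm_real, Real.norm_of_nonneg (exp_pos _).le,
      two_mul, exp_add, exp_neg]
    field_simp
  have h2 : dn ac n2 f β (f'.1 *ᵥ z) ^ 2 = ∑ j, ‖(cjM f f' β β' *ᵥ v) j‖ ^ 2 := by
    rw [dn2_sq, cj_inv_mul, cjM, ← mulVec_mulVec, ← mulVec_mulVec, ← hz]
    refine Finset.sum_congr rfl fun j _ => ?_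
    rw [mulVec_diagonal, norm_mul, Complex.norm_real, Real.norm_of_nonneg (exp_pos _).le,
      two_mul, exp_add]
    ring
  rw [← h1, ← h2]
  have h3 := hy.1 (f'.1 *ᵥ z)
  have h4 := hy.2 (f'.1 *ᵥ z)
  have h5 := dn_nonneg (a := ac) nm_n2 f β (f'.1 *ᵥ z)
  have h6 := dn_nonneg (a := ac) nm_n2 f' β' (f'.1 *ᵥ z)
  generalize dn ac n2 f β (f'.1 *ᵥ z) = s at *
  generalize dn ac n2 f' β' (f'.1 *ᵥ z) = t at *
  have h7 : exp (2 * δ) = exp δ ^ 2 := by rw [two_mul, exp_add, sq]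
  have h8 : 1 ≤ exp δ ^ 2 := one_le_pow₀ (one_le_exp hδ)
  have h9 : s ^ 2 ≤ exp δ ^ 2 * t ^ 2 := by rw [← mul_pow]; exact pow_le_pow_left₀ h5 h3 2
  have h10 : t ^ 2 ≤ exp δ ^ 2 * s ^ 2 := by rw [← mul_pow]; exact pow_le_pow_left₀ h6 h4 2
  rw [h7]
  generalize exp δ ^ 2 = c at *
  have h11 := sq_nonneg s
  have h12 := sq_nonneg t
  generalize s ^ 2 = S at *
  generalize t ^ 2 = T at *
  refine abs_le.2 ⟨?_, by linarith⟩
  rcases le_total S T with h | h
  · have := mul_le_mul_of_nonneg_left h (sub_nonneg.2 h8)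
    linarith
  · have := mul_nonneg (sub_nonneg.2 h8) h12
    linarith

theorem cjM_diff {f f' : GL (Fin n) ℂ} {β β' : Fin n → ℝ} {δ : ℝ} (hδ : 0 ≤ δ)
    (hy : Nr δ (dn ac n2 f β) (dn ac n2 f' β')) (p q : Fin n) :
    |‖cjM f f' β β' p q‖ - ‖cjM f' f β' β q p‖| ≤ n * ((exp (2 * δ) - 1) * exp δ) := by
  have h1 : (cjM f f' β β')ᴴ - cjM f' f β' β =
      ((cjM f f' β β')ᴴ * cjM f f' β β' - 1) * cjM f' f β' β := by
    rw [Matrix.sub_mul, Matrix.mul_assoc, cjM_mul, Matrix.mul_one, Matrix.one_mul]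
  have h2 := congrFun (congrFun h1 q) p
  rw [Matrix.sub_apply, conjTranspose_apply, mul_apply] at h2
  rw [← norm_star (cjM f f' β β' p q)]
  refine (abs_norm_sub_norm_le _ _).trans ?_
  rw [h2]
  have h3 : ∀ k, ‖((cjM f f' β β')ᴴ * cjM f f' β β' - 1) q k * cjM f' f β' β k p‖ ≤
      (exp (2 * δ) - 1) * exp δ := fun k => by
    rw [norm_mul]
    have := cjM_gram hδ hy q k
    exact mul_le_mul this (cjM_le (dn_entry (a := ac) nm_n2 hy.2 k p)) (norm_nonneg _)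
      ((norm_nonneg _).trans this)
  refine (norm_sum_le _ _).trans ((Finset.sum_le_sum fun k _ => h3 k).trans ?_)
  rw [Finset.sum_const, Finset.card_univ, Fintype.card_fin, nsmul_eq_mul]

/-- Put `M p q = exp (β p) * (f⁻¹ * f') p q * exp (- β' q)`, `M' = M⁻¹`. By `dn_entry` for `hg` and
`sa_dn`, `‖M p q‖ ≤ exp (2 κ + δ - Γ)` if `b p < b q` and `‖M' q p‖ ≤ exp (2 κ + δ - Γ)` if
`b q < b p`. The Hermitian matrix `B = Mᴴ * M - 1` has entries at most `exp (2 δ) - 1`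
(`entry_le`), and `Mᴴ - M' = B * M'`. So all entries of `M` and `M'` with `b p ≠ b q` are small, and
`exp (τ (b p) - τ (b q)) * M p q` differs from `M p q` only there. -/
theorem key_c (κ r : ℝ) {δ0 : ℝ} (h0 : 0 < δ0) : ∃ δ Γ : ℝ, 0 < δ ∧
    ∀ (f f' : GL (Fin n) ℂ) (β α β' α' τ : Fin n → ℝ) (b : Fin n → Fin n), Monotone α →
      Monotone α' → Nr κ (dn ac n2 f (β - α)) (dn ac n2 f' (β' - α')) →
      Nr δ (dn ac n2 f β) (dn ac n2 f' β') → (∀ p q, b p < b q → Γ ≤ α' q - α' p) → ‖τ‖ ≤ r →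
      Nr δ0 (dn ac n2 f fun j => β j + τ (b j)) (dn ac n2 f' fun j => β' j + τ (b j)) := by
  set C : ℝ := n * n * exp (2 * r) with hC
  have hC0 : 0 ≤ C := by positivity
  have hcont : Continuous fun δ : ℝ => exp δ + C * (n * ((exp (2 * δ) - 1) * exp δ)) := by
    fun_prop
  have hev : ∀ᶠ δ : ℝ in nhds 0, exp δ + C * (n * ((exp (2 * δ) - 1) * exp δ)) < exp δ0 :=
    hcont.continuousAt.eventually_lt continuousAt_const (by simpa using h0)
  obtain ⟨δ, hδ1, hδ⟩ := ((hev.filter_mono nhdsWithin_le_nhds).and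
    (self_mem_nhdsWithin (a := (0 : ℝ)) (s := Set.Ioi 0))).exists
  replace hδ : 0 < δ := hδ
  set η : ℝ := n * ((exp (2 * δ) - 1) * exp δ) with hη
  have hη0 : 0 ≤ η := by
    have : 0 ≤ exp (2 * δ) - 1 := sub_nonneg.2 (one_le_exp (by linarith))
    positivity
  set e : ℝ := (exp δ0 - (exp δ + C * η)) / (C + 1) with he
  have he0 : 0 < e := div_pos (sub_pos.2 hδ1) (by linarith)
  have hfin : exp δ + C * (e + η) ≤ exp δ0 := by
    have : (C + 1) * e = exp δ0 - (exp δ + C * η) := mul_div_cancel₀ _ (by linarith)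
    linarith
  refine ⟨δ, 2 * κ + δ - log e, hδ, fun f f' β α β' α' τ b hm hm' hg hy hΓ hτ => ?_⟩
  have h1 : ∀ p q, b p < b q → ‖cjM f f' β β' p q‖ ≤ e := fun p q hpq => by
    rw [← exp_log he0]
    refine cjM_le ((dn_entry (a := ac) nm_n2 hg.1 p q).trans (exp_le_exp.2 ?_))
    have a1 := sa_dn nm_n2 hm' hm hg.2 hy.1 p
    have a2 := hΓ p q hpq
    rw [Pi.sub_apply, Pi.sub_apply]
    linarith
  have h2 : ∀ p q, b q < b p → ‖cjM f' f β' β q p‖ ≤ e := fun p q hpq => by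
    rw [← exp_log he0]
    refine cjM_le ((dn_entry (a := ac) nm_n2 hg.2 q p).trans (exp_le_exp.2 ?_))
    have a1 := sa_dn nm_n2 hm hm' hg.1 hy.2 p
    have a2 := hΓ q p hpq
    rw [Pi.sub_apply, Pi.sub_apply]
    linarith
  have h3 : ∀ p q, b p ≠ b q →
      ‖cjM f f' β β' p q‖ ≤ e + η ∧ ‖cjM f' f β' β q p‖ ≤ e + η := fun p q hpq => by
    have a1 := abs_le.1 (cjM_diff hδ.le hy p q)
    rcases lt_or_gt_of_ne hpq with h | h
    · have := h1 p q h
      constructor <;> linarith [a1.1, a1.2]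
    · have := h2 p q h
      constructor <;> linarith [a1.1, a1.2]
  have h4 : 0 ≤ e + η := by linarith
  refine ⟨fun x => (cj_half h4 hy.1 (fun p q hpq => ?_) hτ x).trans
      (mul_le_mul_of_nonneg_right hfin (dn_nonneg nm_n2 _ _ _)),
    fun x => (cj_half h4 hy.2 (fun p q hpq => ?_) hτ x).trans
      (mul_le_mul_of_nonneg_right hfin (dn_nonneg nm_n2 _ _ _))⟩
  · rw [cjM_norm f f' β β']
    exact mul_le_mul_of_nonneg_right (h3 p q hpq).1 (exp_pos _).le
  · rw [cjM_norm f' f β' β]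
    exact mul_le_mul_of_nonneg_right (h3 q p hpq.symm).2 (exp_pos _).le

end Pool.Agent.Work.MP_9d1ffa_al.WL
end

-- merged part: Pool.Agent.Work.MP_9d1ffa_al.WL.Cn
section
/-! Local transfer data at a complex place. -/

namespace Pool.Agent.Work.MP_9d1ffa_al.WL

open Real Matrix
open GN (V Le Nr act cl Red wb)

variable {n : ℕ} {T : ℝ}

/-- a ball in the space of positive Hermitian forms -/
def ZC (n : ℕ) (T : ℝ) : Set (Fin n → Fin n → ℂ) :=
  {y | (Matrix.of y).IsHermitian ∧ ∀ x : V n ℂ, exp (-(2 * T)) * ∑ j, ‖x j‖ ^ 2 ≤ qf (Matrix.of y) x ∧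
    qf (Matrix.of y) x ≤ exp (2 * T) * ∑ j, ‖x j‖ ^ 2}

/-- the norm of a form -/
noncomputable def nq (y : Fin n → Fin n → ℂ) : V n ℂ → ℝ := fun x => √(qf (Matrix.of y) x)

theorem Cn_qf (a b : ℝ) (y z : Fin n → Fin n → ℂ) (x : V n ℂ) :
    qf (Matrix.of (a • y + b • z)) x = a * qf (Matrix.of y) x + b * qf (Matrix.of z) x := by
  have e : Matrix.of (a • y + b • z) = a • Matrix.of y + b • Matrix.of z := rfl
  simp only [qf, e, add_mulVec, smul_mulVec, dotProduct_add, dotProduct_smul, Complex.add_re,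
    Complex.smul_re, smul_eq_mul]

theorem Cn_herm (a b : ℝ) {y z : Fin n → Fin n → ℂ} (hy : (Matrix.of y).IsHermitian)
    (hz : (Matrix.of z).IsHermitian) : (Matrix.of (a • y + b • z)).IsHermitian :=
  IsHermitian.ext fun i j => by
    have e1 := hy.apply i j
    have e2 := hz.apply i j
    simp only [of_apply, RCLike.star_def] at e1 e2
    simp [e1, e2]

theorem Cn_le {a b r : ℝ} (hb : 0 ≤ b) : √a ≤ exp r * √b ↔ a ≤ exp (2 * r) * b := by
  rw [sqrt_le_left (by positivity), mul_pow, sq_sqrt hb, ← exp_nat_mul, Nat.cast_ofNat]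

theorem nq_hm (f : GL (Fin n) ℂ) (β : Fin n → ℝ) : nq (hm f β) = dn ac n2 f β := funext fun x =>
  (congrArg sqrt (qf_hm f β x)).trans (sqrt_sq (dn_nonneg nm_n2 _ _ _))

theorem Cn_nr {y z : Fin n → Fin n → ℂ} {r : ℝ} (hy : ∀ x, 0 ≤ qf (Matrix.of y) x)
    (hz : ∀ x, 0 ≤ qf (Matrix.of z) x) : Nr r (nq y) (nq z) ↔
      ∀ x, qf (Matrix.of y) x ≤ exp (2 * r) * qf (Matrix.of z) x ∧
        qf (Matrix.of z) x ≤ exp (2 * r) * qf (Matrix.of y) x :=
  (and_congr (forall_congr' fun x => Cn_le (hz x)) (forall_congr' fun x => Cn_le (hy x))).trans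
    forall_and.symm

theorem Cn_hm0 (f : GL (Fin n) ℂ) (β : Fin n → ℝ) (x : V n ℂ) : 0 ≤ qf (Matrix.of (hm f β)) x :=
  (qf_hm f β x).symm ▸ sq_nonneg _

theorem ZC_nonneg {y : Fin n → Fin n → ℂ} (h : y ∈ ZC n T) (x : V n ℂ) : 0 ≤ qf (Matrix.of y) x :=
  le_trans (by positivity) (h.2 x).1

theorem ZC_convex : Convex ℝ (ZC n T) := by
  intro y hy z hz a b ha hb hab
  refine ⟨Cn_herm a b hy.1 hz.1, fun x => ?_⟩
  rw [Cn_qf]
  obtain rfl : b = 1 - a := by linarith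
  constructor <;> nlinarith [mul_le_mul_of_nonneg_left (hy.2 x).1 ha,
    mul_le_mul_of_nonneg_left (hy.2 x).2 ha, mul_le_mul_of_nonneg_left (hz.2 x).1 hb,
    mul_le_mul_of_nonneg_left (hz.2 x).2 hb]

theorem ZC_compact : IsCompact (ZC n T) := by
  have hc : ∀ x : V n ℂ, Continuous fun y : Fin n → Fin n → ℂ => qf (Matrix.of y) x := fun x => by
    simp only [qf, dotProduct, mulVec, of_apply]
    fun_prop
  refine Metric.isCompact_of_isClosed_isBounded (IsClosed.inter ?_ ?_)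
    (isBounded_iff_forall_norm_le.2 ⟨exp (2 * T), fun y hy => ?_⟩)
  · exact isClosed_eq (f := fun (y : Fin n → Fin n → ℂ) i j => star (y j i)) (by fun_prop)
      continuous_id
  · change IsClosed {y : Fin n → Fin n → ℂ | ∀ x : V n ℂ, _}
    rw [Set.setOf_forall]
    exact isClosed_iInter fun x =>
      (isClosed_le continuous_const (hc x)).inter (isClosed_le (hc x) continuous_const)
  · exact (pi_norm_le_iff_of_nonneg (exp_pos _).le).2 fun p =>
      (pi_norm_le_iff_of_nonneg (exp_pos _).le).2 fun q => entry_le hy.1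
        (fun x => by rw [abs_of_nonneg (ZC_nonneg hy x)]; exact (hy.2 x).2) p q

theorem mem_ZC {y : Fin n → Fin n → ℂ} :
    y ∈ ZC n T ↔ (Matrix.of y).IsHermitian ∧ (∀ x, 0 ≤ qf (Matrix.of y) x) ∧
      Nr T (nq y) (dn ac n2 1 0) := by
  have e : ∀ x, qf (Matrix.of (hm (1 : GL (Fin n) ℂ) 0)) x = ∑ j, ‖x j‖ ^ 2 := fun x =>
    (qf_hm 1 0 x).trans (by simp [dn2_sq])
  have k : (∀ x, 0 ≤ qf (Matrix.of y) x) → (Nr T (nq y) (dn ac n2 1 0) ↔ ∀ x : V n ℂ,
      exp (-(2 * T)) * ∑ j, ‖x j‖ ^ 2 ≤ qf (Matrix.of y) x ∧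
        qf (Matrix.of y) x ≤ exp (2 * T) * ∑ j, ‖x j‖ ^ 2) := fun h => by
    rw [← nq_hm, Cn_nr h (Cn_hm0 1 0)]
    exact forall_congr' fun x => by rw [e, exp_neg, inv_mul_le_iff₀ (exp_pos _), and_comm]
  exact ⟨fun h => ⟨h.1, ZC_nonneg h, (k (ZC_nonneg h)).2 h.2⟩, fun h => ⟨h.1, (k h.2.1).1 h.2.2⟩⟩

theorem nr_of_dist {y z : Fin n → Fin n → ℂ} (hy : y ∈ ZC n T) (hz : z ∈ ZC n T) :
    Nr (n * exp (2 * T) * dist y z) (nq y) (nq z) := by
  refine (Cn_nr (ZC_nonneg hy) (ZC_nonneg hz)).2 fun x => ?_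
  have k := qf_le (y := Matrix.of ((1 : ℝ) • y + (-1 : ℝ) • z)) (θ := dist y z) (fun p q => by
    simpa [dist_eq_norm, sub_eq_add_neg] using
      (dist_le_pi_dist (y p) (z p) q).trans (dist_le_pi_dist y z p)) x
  rw [Cn_qf, abs_le] at k
  have k0 : 0 ≤ n * dist y z := by positivity
  have k1 : ∀ w ∈ ZC n T, n * dist y z * ∑ j, ‖x j‖ ^ 2 + qf (Matrix.of w) x ≤
      exp (2 * (n * exp (2 * T) * dist y z)) * qf (Matrix.of w) x := fun w hw => by
    have a := (hw.2 x).1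
    rw [exp_neg, inv_mul_le_iff₀ (exp_pos _)] at a
    have b := mul_le_mul_of_nonneg_right (add_one_le_exp (2 * (n * exp (2 * T) * dist y z)))
      (ZC_nonneg hw x)
    have c := mul_le_mul_of_nonneg_left a k0
    have d : 0 ≤ n * dist y z * (exp (2 * T) * qf (Matrix.of w) x) :=
      mul_nonneg k0 (mul_nonneg (exp_pos _).le (ZC_nonneg hw x))
    linarith
  exact ⟨by linarith [k1 z hz, k.2], by linarith [k1 y hy, k.1]⟩

theorem cont_of_nr {φ : ZC n T → ZC n T}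
    (h : ∀ (y z : ZC n T) (δ : ℝ), 0 ≤ δ → Nr δ (nq y.1) (nq z.1) → Nr δ (nq (φ y).1) (nq (φ z).1)) :
    Continuous φ := by
  refine continuous_iff_continuousAt.2 fun z => tendsto_iff_dist_tendsto_zero.2
    (squeeze_zero (g := fun y => (exp (2 * (n * exp (2 * T) * dist y z)) - 1) * exp (2 * T))
      (fun _ => dist_nonneg) (fun y => ?_) ?_)
  · have k0 : 0 ≤ exp (2 * (n * exp (2 * T) * dist y z)) - 1 :=
      sub_nonneg.2 (one_le_exp (by positivity))
    have k := (Cn_nr (ZC_nonneg (φ y).2) (ZC_nonneg (φ z).2)).1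
      (h y z (n * exp (2 * T) * dist y z) (by positivity) (nr_of_dist y.2 z.2))
    refine (dist_pi_le_iff (by positivity)).2 fun p => (dist_pi_le_iff (by positivity)).2 fun q => ?_
    have k' := entry_le (Cn_herm 1 (-1) (φ y).2.1 (φ z).2.1)
      (θ := (exp (2 * (n * exp (2 * T) * dist y z)) - 1) * exp (2 * T)) (fun x => by
        have a := mul_le_mul_of_nonneg_left ((φ y).2.2 x).2 k0
        have b := mul_le_mul_of_nonneg_left ((φ z).2.2 x).2 k0
        have c := k x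
        rw [Cn_qf]
        exact abs_le.2 ⟨by linarith [c.2], by linarith [c.1]⟩) p q
    simpa [dist_eq_norm, sub_eq_add_neg] using k'
  · exact Continuous.tendsto' (by fun_prop) _ _ (by simp)

theorem ZC_frame (y : ZC n T) : ∃ (U : GL (Fin n) ℂ) (α : Fin n → ℝ), Monotone α ∧
    dn ac n2 U 0 = dn ac n2 1 0 ∧ dn ac n2 U α = nq y.1 := by
  obtain ⟨U, α, a, b, c⟩ := exists_frame y.2.1 fun x hx => sqrt_pos.1 (pos_of_mul_pos_right
    ((dn_pos (a := ac) nm_n2 1 0 hx).trans_le ((mem_ZC.1 y.2).2.2.2 x)) (exp_pos T).le)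
  exact ⟨U, α, a, b, funext c⟩

/-- The contraction: `φ g y` is the form with frame `(U', l α')`, where `(U', α')` is the unitary
frame of `g y` and `l = 1 - κ / T` (`interp`). -/
theorem exists_phi {κ : ℝ} (h0 : 0 ≤ κ) (hT : κ ≤ T) (h1 : 0 < T) (g : GL (Fin n) ℂ)
    (hg : Nr κ (dn ac n2 g 0) (dn ac n2 1 0)) : ∃ φ : ZC n T → ZC n T, Continuous φ ∧
      ∀ (z : ZC n T) (f : GL (Fin n) ℂ) (γ : Fin n → ℝ) (d : ℝ), Nr d (nq z.1) (dn ac n2 f γ) →
        Nr κ (dn ac n2 (g * f) 0) (dn ac n2 1 0) →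
        Nr (κ / T * κ + (1 - κ / T) * d) (nq (φ z).1)
          (dn ac n2 (g * f) fun j => (1 - κ / T) * γ j) := by
  have m0 : 0 ≤ κ / T := by positivity
  have l0 : 0 ≤ 1 - κ / T := sub_nonneg.2 ((div_le_one h1).2 hT)
  have hU : ∀ z : ZC n T, ∃ (U : GL (Fin n) ℂ) (α : Fin n → ℝ),
      dn ac n2 U 0 = dn ac n2 1 0 ∧ dn ac n2 U α = act g (nq z.1) := fun z => by
    obtain ⟨U, α, -, -, c⟩ := ZC_frame z
    obtain ⟨U', α', -, a, b⟩ := exists_frame (hm_herm (g * U) α) fun x hx =>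
      (qf_hm _ _ x).symm ▸ pow_pos (dn_pos nm_n2 _ _ hx) 2
    exact ⟨U', α', a, (funext b).trans ((nq_hm _ _).trans (by rw [← c, act_dn]))⟩
  choose U α u1 u2 using hU
  have ip : ∀ {f f' : GL (Fin n) ℂ} {b b' : Fin n → ℝ} {r r' : ℝ},
      Nr r (dn ac n2 f 0) (dn ac n2 f' 0) → Nr r' (dn ac n2 f b) (dn ac n2 f' b') →
      Nr (κ / T * r + (1 - κ / T) * r') (dn ac n2 f fun j => (1 - κ / T) * b j)
        (dn ac n2 f' fun j => (1 - κ / T) * b' j) := fun a b =>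
    ⟨by simpa using interp l0 (by linarith) a.1 b.1, by simpa using interp l0 (by linarith) a.2 b.2⟩
  refine ⟨fun z => ⟨hm (U z) fun j => (1 - κ / T) * α z j, mem_ZC.2 ⟨hm_herm _ _, Cn_hm0 _ _, ?_⟩⟩,
    cont_of_nr fun y z δ h2 h => ?_, fun z f γ d a b => ?_⟩
  · have a := ((mem_ZC.1 z.2).2.2.act g).trans (show Nr κ (act g (dn ac n2 1 0)) _ by
      rwa [act_dn, mul_one])
    rw [← u2, ← u1 z] at a
    have b := ip GN.Nr.rfl a
    simp only [Pi.zero_apply, mul_zero] at b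
    rw [nq_hm, ← u1 z]
    refine b.mono (dn_nonneg nm_n2 _ _) (dn_nonneg nm_n2 _ _) ?_
    have e : κ / T * T = κ := div_mul_cancel₀ _ h1.ne'
    nlinarith
  · have a := h.act g
    rw [← u2, ← u2] at a
    simp only [nq_hm]
    exact (ip (r := 0) (by rw [u1, u1]; exact GN.Nr.rfl) a).mono (dn_nonneg nm_n2 _ _)
      (dn_nonneg nm_n2 _ _) (by nlinarith)
  · have c := a.act g
    rw [← u2, act_dn] at c
    simp only [nq_hm]
    exact ip (u1 z ▸ b.symm) c

/-- segments -/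
theorem nr_seg {y z : Fin n → Fin n → ℂ} {f : GL (Fin n) ℂ} {u w : Fin n → ℝ} {d t : ℝ}
    (hy : ∀ x, 0 ≤ qf (Matrix.of y) x) (hz : ∀ x, 0 ≤ qf (Matrix.of z) x)
    (h0 : 0 ≤ t) (h1 : t ≤ 1) (h : Nr d (nq y) (dn ac n2 f u)) (h' : Nr d (nq z) (dn ac n2 f w)) :
    Nr d (nq ((1 - t) • y + t • z))
      (dn ac n2 f fun j => log ((1 - t) * exp (2 * u j) + t * exp (2 * w j)) / 2) := by
  have h2 : 0 ≤ 1 - t := by linarith
  rw [← nq_hm, Cn_nr hy (Cn_hm0 _ _)] at h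
  rw [← nq_hm, Cn_nr hz (Cn_hm0 _ _)] at h'
  rw [← nq_hm, Cn_nr (fun x => by rw [Cn_qf]; have := hy x; have := hz x; positivity) (Cn_hm0 _ _)]
  intro x
  have e : qf (Matrix.of (hm f fun j => log ((1 - t) * exp (2 * u j) + t * exp (2 * w j)) / 2)) x =
      (1 - t) * qf (Matrix.of (hm f u)) x + t * qf (Matrix.of (hm f w)) x := by
    change qf (hm _ _) x = _ * qf (hm _ _) x + _ * qf (hm _ _) x
    simp only [qf_hm, dn2_sq, Finset.mul_sum, ← Finset.sum_add_distrib]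
    refine Finset.sum_congr rfl fun j _ => ?_
    rw [mul_div_cancel₀ _ two_ne_zero, exp_log (by
      rcases h0.eq_or_lt with rfl | k
      exacts [by simpa using exp_pos _, by positivity])]
    ring
  rw [e, Cn_qf]
  constructor <;> nlinarith [mul_le_mul_of_nonneg_left (h x).1 h2, mul_le_mul_of_nonneg_left (h x).2 h2,
    mul_le_mul_of_nonneg_left (h' x).1 h0, mul_le_mul_of_nonneg_left (h' x).2 h0]

end Pool.Agent.Work.MP_9d1ffa_al.WL
end

-- merged part: Pool.Agent.Work.MP_9d1ffa_al.WL.Co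
section
/-! Local transfer data at a complex place: the homotopy action. -/

namespace Pool.Agent.Work.MP_9d1ffa_al.WL

open Real Matrix
open GN (V Le Nr act cl Red wb)

variable {n : ℕ}

theorem Co_mono {r s : ℝ} {f f' : GL (Fin n) ℂ} {β β' : Fin n → ℝ}
    (h : Nr r (dn ac n2 f β) (dn ac n2 f' β')) (e : r ≤ s) :
    Nr s (dn ac n2 f β) (dn ac n2 f' β') :=
  h.mono (dn_nonneg nm_n2 _ _) (dn_nonneg nm_n2 _ _) e

theorem Co_zero {U : GL (Fin n) ℂ} (h : dn ac n2 U 0 = dn ac n2 1 0) (g : GL (Fin n) ℂ) :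
    dn ac n2 (g * U) 0 = dn ac n2 g 0 := by
  rw [← act_dn, h, act_dn, mul_one]

theorem Co_rf (k c r : ℝ) {δ : ℝ} (hδ : 0 < δ) (hk : 0 ≤ k) (hc : 0 ≤ c) :
    ∃ d0 Γ0 : ℝ, 0 < d0 ∧ ∀ Γ Λ d : ℝ, Γ0 ≤ Γ → 0 < Γ → 0 ≤ Λ → Λ * (2 * n * Γ) + d ≤ d0 →
      ∀ (g U U' : GL (Fin n) ℂ) (α α' x : Fin n → ℝ), Monotone α → Monotone α' →
        dn ac n2 U 0 = dn ac n2 1 0 → dn ac n2 U' 0 = dn ac n2 1 0 →
        Nr k (dn ac n2 g 0) (dn ac n2 1 0) → (∀ p q, x p - x q ≤ Λ * |α p - α q|) →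
        (∀ p, |x p| ≤ c) → Nr d (dn ac n2 U' α') (dn ac n2 (g * U) (α + x)) →
        RF ac n2 (k + c + 1) r δ Γ g α α' (fun _ => (U, α)) fun _ => (U', α') := by
  obtain ⟨d1, Γ0, h1, h2⟩ := key_c (n := n) (c + k) r hδ
  refine ⟨min d1 1, Γ0, by positivity,
    fun Γ Λ d e1 e2 e3 e4 g U U' α α' x m m' u u' hg x1 x2 h => ?_⟩
  have k0 : 0 ≤ Λ * (2 * n * Γ) := by positivity
  have k1 : ∀ y : Fin n → ℝ, (∀ p, |y p| ≤ c) →
      Nr (c + k) (dn ac n2 (g * U) (α + y - α)) (dn ac n2 U' (α' - α')) := fun y hy => by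
    rw [sub_self, u', add_sub_cancel_left]
    exact (dn_nr nm_n2 (β' := 0) fun j => by simpa using hy j).trans ((Co_zero u g).symm ▸ hg)
  refine ⟨fun j => ?_, fun b hb hb' => ⟨x, ?_, fun t ht => ?_⟩⟩
  · have a1 := sa_dn nm_n2 m m' (k1 x x2).1 h.1 j
    have a2 := sa_dn nm_n2 m' m (k1 x x2).2 h.2 j
    have := min_le_right d1 1
    exact abs_le.2 ⟨by linarith, by linarith⟩
  · exact (pi_norm_le_iff_of_nonneg (by positivity)).2 fun j => (x2 j).trans (by linarith)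
  · have a1 : ∀ p, |(α + fun j => x (b j)) p - (α + x) p| ≤ Λ * (2 * n * Γ) := fun p => by
      have a2 := mul_le_mul_of_nonneg_left ((GN.wb_pos e2 hb).2 () p) e3
      have a3 := x1 p (b p)
      have a4 := x1 (b p) p
      rw [abs_sub_comm] at a4
      simp only [Pi.add_apply]
      exact abs_le.2 ⟨by linarith, by linarith⟩
    have a5 := h2 (g * U) U' (α + fun j => x (b j)) α α' α' t b m m' (k1 _ fun p => x2 _)
      (Co_mono ((dn_nr nm_n2 a1).trans h.symm) (e4.trans (min_le_left _ _)))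
      (fun p q e => e1.trans ((GN.wb_pos e2 hb').1 () p q e).le) ht
    rw [act_dn]
    simpa only [Pi.add_apply, add_assoc, add_comm (x _)] using a5

theorem Co_lse {t u w u' w' e : ℝ} (h0 : 0 ≤ t) (h1 : t ≤ 1) (hu : u ≤ u' + e) (hw : w ≤ w' + e) :
    log ((1 - t) * exp (2 * u) + t * exp (2 * w)) / 2 ≤
      log ((1 - t) * exp (2 * u') + t * exp (2 * w')) / 2 + e := by
  have h2 : 0 ≤ 1 - t := by linarith
  have p : ∀ a b : ℝ, 0 < (1 - t) * exp a + t * exp b := fun a b => by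
    rcases h0.eq_or_lt with rfl | k
    exacts [by simpa using exp_pos a, by positivity]
  have k : (1 - t) * exp (2 * u) + t * exp (2 * w) ≤
      ((1 - t) * exp (2 * u') + t * exp (2 * w')) * exp (2 * e) := by
    rw [add_mul, mul_assoc, mul_assoc, ← exp_add, ← exp_add]
    gcongr <;> linarith
  have k' := log_le_log (p _ _) k
  rw [log_mul (p _ _).ne' (exp_pos _).ne', log_exp] at k'
  linarith

theorem Co_lse0 (t u : ℝ) : log ((1 - t) * exp (2 * u) + t * exp (2 * u)) / 2 = u := by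
  rw [← add_mul, sub_add_cancel, one_mul, log_exp]
  ring

theorem Co_lin {l Λ : ℝ} (h : |l - 1| ≤ Λ) (a : ℝ) : |l * a - a| ≤ Λ * |a| := by
  rw [← sub_one_mul, abs_mul]
  gcongr

theorem ld_cx {G : Type} [Group G] (ρ : G →* GL (Fin n) ℂ) : LD ac n2 ρ := by
  classical
  refine ⟨2 ^ Module.finrank ℝ (Fin n → Fin n → ℂ), fun S => ?_⟩
  obtain ⟨k, k1, hk⟩ : ∃ k : ℝ, 1 ≤ k ∧ ∀ g ∈ insert 1 (S ∪ Finset.image₂ (· * ·) S S),
      Nr k (dn ac n2 (ρ g) 0) (dn ac n2 1 0) := by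
    choose κ h0 h using fun g => exists_nr (a := ac) nm_n2 (ρ g) 1 0 0
    have h1 := Finset.sum_nonneg (s := insert 1 (S ∪ Finset.image₂ (· * ·) S S)) fun g _ => h0 g
    exact ⟨_ + 1, by linarith, fun g hg => Co_mono (h g)
      ((Finset.single_le_sum (fun g _ => h0 g) hg).trans (le_add_of_nonneg_right zero_le_one))⟩
  have g1 := hk 1 (Finset.mem_insert_self _ _)
  have g2 := fun g hg => hk g (Finset.mem_insert_of_mem (Finset.mem_union_left _ hg))
  have g3 := fun g hg h hh => hk (g * h) (Finset.mem_insert_of_mem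
    (Finset.mem_union_right _ (Finset.mem_image₂_of_mem hg hh)))
  refine ⟨k + 2 * k + 1, by positivity, fun r δ _ hδ => ?_⟩
  obtain ⟨d0, Γ0, d1, hR⟩ := Co_rf (n := n) k (2 * k) r hδ (by positivity) (by positivity)
  refine ⟨Γ0, fun Γ e1 e2 => ?_⟩
  obtain ⟨T, T1, T2⟩ : ∃ T : ℝ, k ≤ T ∧ 2 * k * (2 * n * Γ + k) / d0 ≤ T :=
    ⟨_, le_max_left _ _, le_max_right _ _⟩
  have T0 : 0 < T := by linarith
  obtain ⟨m, hm0⟩ : ∃ m : ℝ, m = k / T := ⟨_, rfl⟩
  have m0 : 0 < m := by rw [hm0]; positivity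
  have m1 : m ≤ 1 := by rw [hm0, div_le_one T0]; exact T1
  have m2 : m * T = k := by rw [hm0]; field_simp
  have m3 : 2 * m * (2 * n * Γ) + 2 * (m * k) ≤ d0 := by
    rw [div_le_iff₀ d1] at T2
    refine le_of_mul_le_mul_left ?_ T0
    calc T * (2 * m * (2 * n * Γ) + 2 * (m * k)) = 2 * (m * T) * (2 * n * Γ + k) := by ring
      _ ≤ _ := by rwa [m2]
  have mk : 0 ≤ m * k := by positivity
  have l1 : |1 - m - 1| ≤ 2 * m := abs_le.2 ⟨by linarith, by linarith⟩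
  have l2 : |(1 - m) * (1 - m) - 1| ≤ 2 * m := abs_le.2 ⟨by nlinarith, by nlinarith⟩
  have n0 : ∀ (y : Fin n → Fin n → ℂ) x, 0 ≤ nq y x := fun y x => sqrt_nonneg _
  choose U α u1 u2 u3 using ZC_frame (n := n) (T := T)
  have u4 : ∀ y j, |α y j| ≤ T := fun y j => by
    have a := (mem_ZC.1 y.2).2.2
    rw [← u3, ← u2 y] at a
    have a1 := le_of_dn nm_n2 a.1 j
    have a2 := le_of_dn nm_n2 a.2 j
    rw [Pi.zero_apply] at a1 a2
    exact abs_le.2 ⟨by linarith, by linarith⟩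
  have u5 : ∀ {l : ℝ} (y : ZC n T) j, |l - 1| ≤ 2 * m → |l * α y j - α y j| ≤ 2 * k :=
    fun y j h => (Co_lin h _).trans (by nlinarith [u4 y j])
  have u6 : ∀ {l : ℝ} (y : ZC n T) p q, |l - 1| ≤ 2 * m →
      l * α y p ≤ l * α y q + (α y p - α y q + 2 * m * |α y p - α y q|) := fun y p q h => by
    linarith [(abs_le.1 (Co_lin h (α y p - α y q))).2]
  have hφ : ∀ g : G, ∃ φ : ZC n T → ZC n T, Continuous φ ∧
      (Nr k (dn ac n2 (ρ g) 0) (dn ac n2 1 0) → ∀ (z : ZC n T) f γ d,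
        Nr d (nq z.1) (dn ac n2 f γ) → Nr k (dn ac n2 (ρ g * f) 0) (dn ac n2 1 0) →
        Nr (m * k + (1 - m) * d) (nq (φ z).1) (dn ac n2 (ρ g * f) fun j => (1 - m) * γ j)) := by
    intro g
    by_cases e : Nr k (dn ac n2 (ρ g) 0) (dn ac n2 1 0)
    · obtain ⟨φ, a, b⟩ := exists_phi (by linarith) T1 T0 (ρ g) e
      exact ⟨φ, a, fun _ => hm0 ▸ b⟩
    · exact ⟨id, continuous_id, fun a => (e a).elim⟩
  choose φ p1 p2 using hφ
  have p3 : ∀ g, Nr k (dn ac n2 (ρ g) 0) (dn ac n2 1 0) → ∀ y, Nr (m * k) (nq (φ g y).1)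
      (dn ac n2 (ρ g * U y) fun j => (1 - m) * α y j) := fun g hg y => by
    simpa using p2 g hg y (U y) (α y) 0 (u3 y ▸ GN.Nr.rfl) ((Co_zero (u2 y) _).symm ▸ hg)
  have key : ∀ g (y z : ZC n T) (w : Fin n → ℝ), Nr k (dn ac n2 (ρ g) 0) (dn ac n2 1 0) →
      (∀ p q, w p ≤ w q + (α y p - α y q + 2 * m * |α y p - α y q|)) →
      (∀ p, |w p - α y p| ≤ 2 * k) → Nr (2 * (m * k)) (nq z.1) (dn ac n2 (ρ g * U y) w) →
      RF ac n2 (k + 2 * k + 1) r δ Γ (ρ g) (α y) (α z) (fun _ => (U y, α y))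
        fun _ => (U z, α z) := fun g y z w a b c d =>
    hR Γ (2 * m) _ e1 e2 (by positivity) m3 (ρ g) (U y) (U z) (α y) (α z) (w - α y) (u1 y) (u1 z)
      (u2 y) (u2 z) a (fun p q => by simp only [Pi.sub_apply]; linarith [b p q]) c
      (by rwa [u3, add_sub_cancel])
  refine ⟨ZC n T, inferInstance, φ, fun g h y t => ⟨(1 - t.1) • (φ g (φ h y)).1 + t.1 • (φ (g * h) y).1,
    ZC_convex (φ g (φ h y)).2 (φ (g * h) y).2 (sub_nonneg.2 t.2.2) t.2.1 (sub_add_cancel _ _)⟩,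
    α, fun y _ => (U y, α y), Grid.convex ZC_compact ZC_convex ⟨hm 1 0, mem_ZC.2 ⟨hm_herm 1 0,
      Cn_hm0 1 0, (nq_hm 1 0).symm ▸ Co_mono GN.Nr.rfl T0.le⟩⟩ (Nat.le_succ _), u1, fun g _ => p1 g,
    fun g _ h _ => Continuous.subtype_mk ?_ _, fun g _ h _ y => Subtype.ext (by simp),
    fun g _ h _ y => Subtype.ext (by simp), ⟨2 * (m * k) / (n * exp (2 * T) + 1), by positivity,
      fun y z e => ?_⟩, fun g hg y => ?_, fun g hg h hh y t => ?_⟩
  · have a := continuous_subtype_val.comp ((p1 g).comp (p1 h))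
    have b := continuous_subtype_val.comp (p1 (g * h))
    exact ((continuous_const.sub continuous_snd.subtype_val).smul (a.comp continuous_fst)).add
      (continuous_snd.subtype_val.smul (b.comp continuous_fst))
  · refine key 1 y z (α y) g1 (fun p q => ?_) (fun p => by rw [sub_self, abs_zero]; positivity) ?_
    · have : 0 ≤ 2 * m * |α y p - α y q| := by positivity
      linarith
    · rw [map_one, one_mul, u3]
      refine (nr_of_dist y.2 z.2).symm.mono (n0 _) (n0 _) ?_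
      rw [le_div_iff₀ (by positivity)] at e
      have : 0 ≤ dist y z := dist_nonneg
      change _ * dist y z ≤ _
      linarith
  · exact key g y _ _ (g2 g hg) (fun p q => u6 y p q l1) (fun p => u5 y p l1)
      ((p3 g (g2 g hg) y).mono (n0 _) (dn_nonneg nm_n2 _ _) (by linarith))
  · have a := p2 g (g2 g hg) _ _ _ _ (p3 h (g2 h hh) y)
      (by rw [← mul_assoc, ← map_mul, Co_zero (u2 y)]; exact g3 g hg h hh)
    simp only [← mul_assoc, ← map_mul] at a
    refine key (g * h) y _ _ (g3 g hg h hh) (fun p q => ?_) (fun p => ?_) (nr_seg (ZC_nonneg (φ g _).2)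
      (ZC_nonneg (φ _ y).2)
      t.2.1 t.2.2 (a.mono (n0 _) (dn_nonneg nm_n2 _ _) (by nlinarith))
      ((p3 _ (g3 g hg h hh) y).mono (n0 _) (dn_nonneg nm_n2 _ _) (by linarith)))
    · exact Co_lse t.2.1 t.2.2 (u6 y p q l2) (u6 y p q l1)
    · have b1 := abs_le.1 (u5 y p l1)
      have b2 := abs_le.1 (u5 y p l2)
      have b3 := Co_lse (u' := α y p) (w' := α y p) (e := 2 * k) t.2.1 t.2.2
        (show (1 - m) * (1 - m) * α y p ≤ _ by linarith) (show (1 - m) * α y p ≤ _ by linarith)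
      have b4 := Co_lse (u := α y p) (w := α y p) (e := 2 * k) t.2.1 t.2.2
        (show _ ≤ (1 - m) * (1 - m) * α y p + _ by linarith)
        (show _ ≤ (1 - m) * α y p + _ by linarith)
      rw [Co_lse0] at b3 b4
      exact abs_le.2 ⟨by linarith, by linarith⟩

end Pool.Agent.Work.MP_9d1ffa_al.WL
end

-- merged part: Pool.Agent.Work.MP_9d1ffa_al.WL.Ck
section
/-! The places of a number field. -/

namespace Pool.Agent.Work.MP_9d1ffa_al.WL

open Real Matrix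
open GN (V Le Nr act cl Red wb)

theorem Ck_col {E X : Type} (f : E → X) (T : Finset X) {n : ℕ} (hn : T.card ≤ n) (h0 : 0 < n) :
    ∃ col : E → Fin n, ∀ z z', f z ∈ T → f z' ∈ T → col z = col z' → f z = f z' := by
  classical
  refine ⟨fun z => if h : f z ∈ T then Fin.castLE hn (T.equivFin ⟨f z, h⟩) else ⟨0, h0⟩,
    fun z z' h h' e => ?_⟩
  simp only [dif_pos h, dif_pos h'] at e
  exact congrArg Subtype.val (T.equivFin.injective (Fin.castLE_injective hn e))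

/-- Real and imaginary parts on a grid: `D = 2`. -/
theorem dbl_ac : Dbl ac := by
  refine ⟨⟨0, fun u => ⟨(exp u : ℝ), ?_⟩⟩, 2, fun B => ⟨(4 * ⌈exp B⌉₊ + 1) ^ 2, fun k hk u => ?_⟩⟩
  · change exp u ≤ ‖((exp u : ℝ) : ℂ)‖ ∧ ‖((exp u : ℝ) : ℂ)‖ ≤ _
    rw [Complex.norm_real, Real.norm_of_nonneg (exp_pos u).le, add_zero]
    exact ⟨le_rfl, le_rfl⟩
  obtain ⟨c, hc⟩ : ∃ c, c = ⌈exp B⌉₊ := ⟨_, rfl⟩
  have hc' : exp B ≤ c := hc ▸ Nat.le_ceil _
  rw [← hc]
  have hk' : (0 : ℝ) < k := by exact_mod_cast hk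
  obtain ⟨ε, hε⟩ : ∃ ε, ε = exp u / k / 2 := ⟨_, rfl⟩
  have h0 : 0 < ε := by rw [hε]; positivity
  obtain ⟨col, hcol⟩ := Ck_col (fun z : ℂ => (⌊z.re / ε⌋, ⌊z.im / ε⌋))
    (Finset.Icc (-(2 * c * k : ℕ) : ℤ) (2 * c * k : ℕ) ×ˢ
      Finset.Icc (-(2 * c * k : ℕ) : ℤ) (2 * c * k : ℕ)) (n := (4 * c + 1) ^ 2 * k ^ 2)
    (by
      rw [Finset.card_product, Int.card_Icc, ← mul_pow, sq]
      have : (((2 * c * k : ℕ) : ℤ) + 1 - -((2 * c * k : ℕ) : ℤ)).toNat ≤ (4 * c + 1) * k := by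
        have : (4 * c + 1) * k = 2 * (2 * c * k) + k := by ring
        omega
      exact Nat.mul_le_mul this this) (by positivity)
  have h1 : ∀ x : ℝ, |x| ≤ exp (u + B) →
      ⌊x / ε⌋ ∈ Finset.Icc (-(2 * c * k : ℕ) : ℤ) (2 * c * k : ℕ) := fun x hx => by
    have h2 : |x| ≤ (2 * c * k : ℕ) * ε := hx.trans (by
      rw [exp_add, hε]
      push_cast
      have := mul_le_mul_of_nonneg_left hc' (exp_pos u).le
      refine this.trans (le_of_eq ?_)
      field_simp)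
    rw [Finset.mem_Icc, Int.le_floor, Int.floor_le_iff, le_div_iff₀ h0, div_lt_iff₀ h0]
    obtain ⟨h3, h4⟩ := abs_le.1 h2
    constructor
    · rw [Int.cast_neg, Int.cast_natCast]
      linarith
    · rw [Int.cast_natCast]
      linarith
  have h2 : ∀ x y : ℝ, ⌊x / ε⌋ = ⌊y / ε⌋ → |x - y| ≤ ε := fun x y h => by
    have := Int.abs_sub_lt_one_of_floor_eq_floor h
    rw [← sub_div, abs_div, abs_of_pos h0, div_lt_one h0] at this
    exact this.le
  refine ⟨col, fun z z' hz hz' e => ?_⟩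
  have h3 := hcol z z'
    (Finset.mem_product.2 ⟨h1 _ ((Complex.abs_re_le_norm z).trans hz),
      h1 _ ((Complex.abs_im_le_norm z).trans hz)⟩)
    (Finset.mem_product.2 ⟨h1 _ ((Complex.abs_re_le_norm z').trans hz'),
      h1 _ ((Complex.abs_im_le_norm z').trans hz')⟩) e
  have h4 := h2 _ _ (Prod.ext_iff.1 h3).1
  have h5 := h2 _ _ (Prod.ext_iff.1 h3).2
  refine (Complex.norm_le_abs_re_add_abs_im (z - z')).trans ?_
  rw [Complex.sub_re, Complex.sub_im]
  linarith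

theorem Ck_lt {K : Type} [Field K] {a : AbsoluteValue K ℝ} (ha : G2.Pl a) {z : K} (h : a z < 1) :
    a z ≤ exp (-1) := by
  by_cases hz : z = 0
  · rw [hz, map_zero]
    exact (exp_pos _).le
  obtain ⟨n, hn⟩ := ha.val z hz
  rw [hn, exp_lt_one_iff] at h
  have h1 : n < 0 := by exact_mod_cast h
  have h2 : n ≤ -1 := by omega
  rw [hn, exp_le_exp]
  exact_mod_cast h2

theorem Ck_zpow {K : Type} [Field K] {a : AbsoluteValue K ℝ} {ϖ : K} (hϖ : a ϖ = exp (-1))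
    (n : ℤ) : a (ϖ ^ n) = exp (-n) := by
  rw [map_zpow₀, hϖ, ← rpow_intCast, ← exp_mul, neg_one_mul]

theorem Ck_dig {K : Type} [Field K] {a : AbsoluteValue K ℝ} (ha : G2.Pl a) {ϖ : K}
    (hϖ : a ϖ = exp (-1)) (R0 : Finset K) (h : ∀ z, a z ≤ 1 → ∃ p ∈ R0, a (z - p) < 1) (l : ℕ) :
    ∃ T : Finset K, T.card ≤ R0.card ^ l ∧ ∀ z, a z ≤ 1 → ∃ p ∈ T, a (z - p) ≤ exp (-l) := by
  classical
  induction l with
  | zero => exact ⟨{0}, by simp, fun z hz => ⟨0, by simp, by simpa using hz⟩⟩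
  | succ l ih =>
    obtain ⟨T, h1, h2⟩ := ih
    have h0 : ϖ ≠ 0 := fun e => by
      rw [e, map_zero] at hϖ
      exact (exp_pos _).ne hϖ
    have h3 : a (ϖ ^ l) = exp (-l) := by simpa using Ck_zpow hϖ l
    refine ⟨Finset.image₂ (fun p q => p + ϖ ^ l * q) T R0, ?_, fun z hz => ?_⟩
    · exact (Finset.card_image₂_le _ _ _).trans (by rw [pow_succ]; exact Nat.mul_le_mul_right _ h1)
    obtain ⟨p, hp, h4⟩ := h2 z hz
    obtain ⟨q, hq, h5⟩ := h ((z - p) / ϖ ^ l) (by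
      rwa [map_div₀, h3, div_le_one (exp_pos _)])
    refine ⟨_, Finset.mem_image₂_of_mem hp hq, ?_⟩
    have e : z - (p + ϖ ^ l * q) = ϖ ^ l * ((z - p) / ϖ ^ l - q) := by
      field_simp
      ring
    rw [e, map_mul, h3, Nat.cast_succ, neg_add, exp_add]
    exact mul_le_mul_of_nonneg_left (Ck_lt ha h5) (exp_pos _).le

/-- With a uniformiser `ϖ`, `a ϖ = exp (-1)`, and a finite set `R0` of representatives of the residue
field: `z` is determined up to `exp u` by `l` digits if `a z ≤ exp (u + l)`, and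
`card R0 ^ (log 2 k + 1) ≤ card R0 * k ^ card R0`. -/
theorem dbl_of_res {K : Type} [Field K] {a : AbsoluteValue K ℝ} (ha : G2.Pl a) {ϖ : K}
    (hϖ : a ϖ = exp (-1)) (R0 : Finset K) (h : ∀ z, a z ≤ 1 → ∃ p ∈ R0, a (z - p) < 1) : Dbl a := by
  classical
  refine ⟨⟨1, fun u => ⟨ϖ ^ (-⌈u⌉), ?_⟩⟩, R0.card, fun B => ⟨R0.card ^ (⌈B⌉₊ + 2), fun k hk u => ?_⟩⟩
  · rw [Ck_zpow hϖ, Int.cast_neg, neg_neg, exp_le_exp, exp_le_exp]
    exact ⟨Int.le_ceil u, (Int.ceil_lt_add_one u).le⟩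
  have hq : 0 < R0.card := by
    obtain ⟨p, hp, -⟩ := h 0 (by simp)
    exact Finset.card_pos.2 ⟨p, hp⟩
  obtain ⟨T, h1, h2⟩ := Ck_dig ha hϖ R0 h (⌈B⌉₊ + 2 + Nat.log 2 k)
  choose! f hf hf' using h2
  obtain ⟨col, hcol⟩ := Ck_col (fun z => f (z * ϖ ^ ⌈u + B⌉)) T
    (n := R0.card ^ (⌈B⌉₊ + 2) * k ^ R0.card) (h1.trans (by
      rw [pow_add]
      refine Nat.mul_le_mul_left _ ((Nat.pow_le_pow_left Nat.lt_two_pow_self.le _).trans ?_)
      rw [← pow_mul, mul_comm, pow_mul]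
      exact Nat.pow_le_pow_left (Nat.pow_log_le_self 2 (by omega)) _)) (by positivity)
  have h3 : ∀ z, a z ≤ exp (u + B) → a (z * ϖ ^ ⌈u + B⌉) ≤ 1 := fun z hz => by
    rw [map_mul, Ck_zpow hϖ, exp_neg, ← div_eq_mul_inv, div_le_one (exp_pos _)]
    exact hz.trans (exp_le_exp.2 (Int.le_ceil _))
  refine ⟨col, fun z z' hz hz' e => ?_⟩
  have h4 : f (z * ϖ ^ ⌈u + B⌉) = f (z' * ϖ ^ ⌈u + B⌉) :=
    hcol z z' (hf _ (h3 z hz)) (hf _ (h3 z' hz')) e
  have h5 := ha.na (z * ϖ ^ ⌈u + B⌉ - f (z * ϖ ^ ⌈u + B⌉))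
    (-(z' * ϖ ^ ⌈u + B⌉ - f (z' * ϖ ^ ⌈u + B⌉)))
  rw [a.map_neg] at h5
  have h6 := h5.trans (max_le (hf' _ (h3 z hz)) (hf' _ (h3 z' hz')))
  rw [h4, neg_sub, sub_add_sub_cancel, ← sub_mul, map_mul, Ck_zpow hϖ, exp_neg (⌈u + B⌉ : ℤ),
    ← div_eq_mul_inv, div_le_iff₀ (exp_pos _), ← exp_add] at h6
  have hk' : (0 : ℝ) < k := by exact_mod_cast hk
  have h7 : (k : ℝ) ≤ exp ((Nat.log 2 k + 1 : ℕ) * 1) := by
    rw [exp_nat_mul]
    have h8 : (k : ℝ) ≤ 2 ^ (Nat.log 2 k + 1) := by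
      exact_mod_cast (Nat.lt_pow_succ_log_self one_lt_two k).le
    exact h8.trans (pow_le_pow_left₀ zero_le_two (by linarith [add_one_le_exp 1]) _)
  rw [le_div_iff₀ hk']
  refine (mul_le_mul h6 h7 hk'.le (exp_pos _).le).trans ?_
  rw [← exp_add, exp_le_exp]
  push_cast
  linarith [Int.ceil_lt_add_one (u + B), Nat.le_ceil B]

open IsDedekindDomain NumberField in
theorem Ck_place {K : Type} [Field K] [NumberField K] (v : HeightOneSpectrum (𝓞 K)) :
    ∃ a : AbsoluteValue K ℝ, G2.Pl a ∧ Dbl a ∧ (∀ x, a x ≤ 1 ↔ v.valuation K x ≤ 1) ∧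
      ∀ x, a x < 1 ↔ v.valuation K x < 1 := by
  classical
  have hb : (1 : NNReal) < ⟨exp 1, (exp_pos 1).le⟩ := one_lt_exp_iff.2 one_pos
  have h1 : ∀ x, v.adicAbv hb x =
      (WithZeroMulInt.toNNReal (ne_zero_of_lt hb) (v.valuation K x) : NNReal) := fun _ => rfl
  have h2 : ∀ x, v.adicAbv hb x ≤ 1 ↔ v.valuation K x ≤ 1 := fun x => by
    rw [h1, ← WithZeroMulInt.toNNReal_le_one_iff hb]
    exact_mod_cast Iff.rfl
  have h3 : ∀ x, v.adicAbv hb x < 1 ↔ v.valuation K x < 1 := fun x => by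
    rw [h1, ← WithZeroMulInt.toNNReal_lt_one_iff hb]
    exact_mod_cast Iff.rfl
  have h4 : ∀ x (n : ℤ), v.valuation K x = WithZero.exp n → v.adicAbv hb x = exp n := fun x n h => by
    rw [h1, h, WithZeroMulInt.toNNReal_neg_apply _ WithZero.exp_ne_zero, NNReal.coe_zpow]
    change exp 1 ^ n = _
    rw [← rpow_intCast, ← exp_mul, one_mul]
  have h5 : G2.Pl (v.adicAbv (K := K) hb) := ⟨v.isNonarchimedean_adicAbv hb, fun x hx =>
    ⟨_, h4 x _ (WithZero.exp_log ((Valuation.ne_zero_iff _).2 hx)).symm⟩⟩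
  obtain ⟨ϖ, hϖ⟩ := v.valuation_exists_uniformizer K
  have : Finite (𝓞 K ⧸ v.asIdeal) := v.asIdeal.finiteQuotientOfFreeOfNeBot v.ne_bot
  have := Fintype.ofFinite (𝓞 K ⧸ v.asIdeal)
  choose s hs using Ideal.Quotient.mk_surjective (I := v.asIdeal)
  refine ⟨v.adicAbv hb, h5, dbl_of_res h5 (ϖ := ϖ) (by simpa using h4 ϖ _ hϖ)
    (Finset.univ.image fun c => algebraMap (𝓞 K) K (s c)) fun z hz => ?_, h2, h3⟩
  obtain ⟨r, hr⟩ := v.exists_valuation_sub_lt_of_integer ((h2 z).1 hz) 1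
  refine ⟨_, Finset.mem_image_of_mem _ (Finset.mem_univ (Ideal.Quotient.mk _ r)), (h3 _).2 ?_⟩
  have h6 : v.valuation K (algebraMap (𝓞 K) K (r - s (Ideal.Quotient.mk _ r))) < 1 :=
    (v.valuation_lt_one_iff_mem _).2 (Ideal.Quotient.eq.1 (hs _).symm)
  have e : z - algebraMap (𝓞 K) K (s (Ideal.Quotient.mk _ r)) =
      algebraMap (𝓞 K) K (r - s (Ideal.Quotient.mk _ r)) - (algebraMap (𝓞 K) K r - z) := by
    rw [map_sub]
    ring
  rw [e]
  exact (v.valuation K).map_sub_lt h6 hr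

theorem Ck_fin {X : Type} {S : Set X} (hS : S.Finite) (f : X → ℝ) (h : ∀ x ∈ S, 0 < f x) :
    ∃ L : ℝ, ∀ x ∈ S, exp (-L) < f x := by
  obtain ⟨L, hL⟩ := (hS.image fun x => -log (f x)).bddAbove
  refine ⟨L + 1, fun x hx => ?_⟩
  have := hL (Set.mem_image_of_mem _ hx)
  rw [← lt_log_iff_exp_lt (h x hx)]
  linarith

/-- `I` is the finite set of primes at which some element of `E` is not integral,
`av v = v.adicAbv` with base `e` (or `exp (log of the valuation)`), `A` the ring of `I`-integers.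
`exists_valuation_sub_lt_of_integer`, finiteness of `𝓞 K ⧸ v`, and the product formula
`NumberField.prod_abs_eq_one` (or the norm of `m * x` for a suitable product `m`). -/
theorem exists_nf (K : Type) [Field K] [NumberField K] (E : Finset K) :
    ∃ (I : Type) (_ : Fintype I) (av : I → AbsoluteValue K ℝ) (A : Subring K),
      (∀ i, G2.Pl (av i) ∧ Dbl (av i)) ∧ (∀ x ∈ E, x ∈ A) ∧ ∀ R : ℝ, ∃ L : ℝ, ∀ x ∈ A,
        (∀ i, av i x ≤ exp R) → (∀ σ : K →+* ℂ, ‖σ x‖ ≤ exp R) →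
        ((∃ i, av i x ≤ exp (-L)) ∨ ∃ σ : K →+* ℂ, ‖σ x‖ ≤ exp (-L)) → x = 0 := by
  classical
  obtain ⟨d, hd, hE⟩ := exists_integral_multiples ℤ ℚ E
  have hd' : (d : K) ≠ 0 := Int.cast_ne_zero.2 hd
  have hd2 : algebraMap (NumberField.RingOfIntegers K) K d = d := map_intCast _ d
  have hfin : {v : IsDedekindDomain.HeightOneSpectrum (NumberField.RingOfIntegers K) |
      v.asIdeal ∣ Ideal.span {(d : NumberField.RingOfIntegers K)}}.Finite :=
    Ideal.finite_factors (by simpa using hd)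
  obtain ⟨I, hI, hI'⟩ : ∃ I : Set (IsDedekindDomain.HeightOneSpectrum
      (NumberField.RingOfIntegers K)), I.Finite ∧ ∀ v, v ∈ I ↔ v.valuation K d < 1 :=
    ⟨_, hfin, fun v => by
      rw [← hd2]
      exact (v.valuation_lt_one_iff_dvd (K := K) _).symm⟩
  have h1 : ∀ v, v ∉ I → v.valuation K d = 1 := fun v hv =>
    le_antisymm (hd2 ▸ v.valuation_le_one _) (not_lt.1 fun h => hv ((hI' v).2 h))
  choose av ha hb hc hc' using Ck_place (K := K)
  refine ⟨I, hI.fintype, fun i => av i.1, ⨅ v ∉ I, (v.valuation K).integer,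
    fun i => ⟨ha _, hb _⟩, fun x hx => ?_, fun R => ?_⟩
  · simp only [Subring.mem_iInf, Valuation.mem_integer_iff]
    intro v hv
    have h2 := v.valuation_le_one (K := K) ⟨_, hE x hx⟩
    change v.valuation K (d • x) ≤ 1 at h2
    rwa [zsmul_eq_mul, map_mul, h1 v hv, one_mul] at h2
  have h2 : {x : K | x ≠ 0 ∧ x ∈ (⨅ v ∉ I, (v.valuation K).integer : Subring K) ∧
      (∀ i : I, av i.1 x ≤ exp R) ∧ ∀ σ : K →+* ℂ, ‖σ x‖ ≤ exp R}.Finite := by
    refine ((NumberField.Embeddings.finite_of_norm_le K ℂ (‖(d : ℂ)‖ ^ ⌈R⌉₊ * exp R)).preimage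
      (mul_right_injective₀ (pow_ne_zero ⌈R⌉₊ hd')).injOn).subset fun x ⟨_, h3, h4, h5⟩ =>
        ⟨?_, fun σ => ?_⟩
    · simp only [Subring.mem_iInf, Valuation.mem_integer_iff] at h3
      obtain ⟨y, hy⟩ := IsDedekindDomain.HeightOneSpectrum.mem_integers_of_valuation_le_one
        (R := NumberField.RingOfIntegers K) K ((d : K) ^ ⌈R⌉₊ * x) fun v => by
          by_cases hv : v ∈ I
          · rw [← hc, map_mul, map_pow]
            refine (mul_le_mul (pow_le_pow_left₀ ((av v).nonneg _)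
              (Ck_lt (ha v) ((hc' v _).2 ((hI' v).1 hv))) _) (h4 ⟨v, hv⟩) ((av v).nonneg _)
              (by positivity)).trans ?_
            rw [← exp_nat_mul, ← exp_add, exp_le_one_iff]
            linarith [Nat.le_ceil R]
          · rw [map_mul, map_pow, h1 v hv, one_pow, one_mul]
            exact h3 v hv
      change IsIntegral ℤ ((d : K) ^ ⌈R⌉₊ * x)
      rw [← hy]
      exact y.2
    · change ‖σ ((d : K) ^ ⌈R⌉₊ * x)‖ ≤ _
      rw [map_mul, map_pow, map_intCast, norm_mul, norm_pow]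
      exact mul_le_mul_of_nonneg_left (h5 σ) (by positivity)
  have := hI.to_subtype
  obtain ⟨L, hL⟩ := Ck_fin (h2.prod (Set.finite_univ (α := I ⊕ (K →+* ℂ))))
    (fun y => y.2.elim (fun i => av i.1 y.1) fun σ => ‖σ y.1‖) (by
      rintro ⟨x, i | σ⟩ ⟨h, -⟩
      · exact (av i.1).pos h.1
      · exact norm_pos_iff.2 ((map_ne_zero σ).2 h.1))
  refine ⟨L, fun x hx h3 h4 h5 => by_contra fun h0 => ?_⟩
  rcases h5 with ⟨i, hi⟩ | ⟨σ, hσ⟩
  · exact (hL (x, .inl i) ⟨⟨h0, hx, h3, h4⟩, trivial⟩).not_ge hi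
  · exact (hL (x, .inr σ) ⟨⟨h0, hx, h3, h4⟩, trivial⟩).not_ge hσ

end Pool.Agent.Work.MP_9d1ffa_al.WL
end

-- merged part: Pool.Agent.Work.MP_9d1ffa_al.WL.Cm
section
/-! Arithmetic groups. -/

namespace Pool.Agent.Work.MP_9d1ffa_al.WL

open Real Matrix
open GN (V Le Nr act cl Red wb)

theorem zt_nf {K G : Type} [Field K] [NumberField K] [Group G] (hG : Group.FG G) {n : ℕ}
    (hn : 0 < n) (ρ : G →* GL (Fin n) K) (hd : ∀ g, (ρ g).1.det = 1) : ZT G (VR ρ) := by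
  classical
  obtain ⟨S, hS⟩ := hG.out
  obtain ⟨I, _, av, A, h1, h2, h3⟩ := exists_nf K
    ((S ×ˢ (Finset.univ : Finset (Fin n × Fin n))).image (fun x => (ρ x.1).1 x.2.1 x.2.2) ∪
      (S ×ˢ (Finset.univ : Finset (Fin n × Fin n))).image fun x => (ρ x.1⁻¹).1 x.2.1 x.2.2)
  refine zt_of_ld (A := A) (P := Sum.elim
    (fun i => ({ E := K, a := av i, σ := RingHom.id K, nm := ns, hnm := nm_ns, dbl := (h1 i).2 } :
      Pc K n))
    fun σ : K →+* ℂ => { E := ℂ, a := ac, σ := σ, nm := n2, hnm := nm_n2, dbl := dbl_ac }) hn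
    (fun R => (h3 R).imp fun L hL x hx k hv =>
      hL x hx (fun i => k (.inl i)) (fun σ => k (.inr σ)) (Sum.exists.1 hv)) (fun g => ?_) hd
    fun v => ?_
  · have hg : g ∈ Subgroup.closure (S : Set G) := hS ▸ trivial
    induction hg using Subgroup.closure_induction'' with
    | mem g hg => exact fun p q => h2 _ (Finset.mem_union_left _ (Finset.mem_image.2
        ⟨(g, p, q), Finset.mem_product.2 ⟨hg, Finset.mem_univ _⟩, rfl⟩))
    | inv_mem g hg => exact fun p q => h2 _ (Finset.mem_union_right _ (Finset.mem_image.2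
        ⟨(g, p, q), Finset.mem_product.2 ⟨hg, Finset.mem_univ _⟩, rfl⟩))
    | one =>
      intro p q
      rw [map_one, Units.val_one, one_apply]
      split_ifs
      exacts [A.one_mem, A.zero_mem]
    | mul g g' _ _ k k' =>
      intro p q
      rw [map_mul, Units.val_mul, mul_apply]
      exact A.sum_mem fun j _ => A.mul_mem (k p j) (k' j q)
  · cases v with
    | inl i => exact ld_fin (h1 i).1 _
    | inr σ => exact ld_cx _

theorem CDat.mono {Q : Type} [Group Q] {Good Good' : Subgroup Q → Prop} (h : CDat Q Good)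
    (hG : ∀ H, Good H → Good' H) : CDat Q Good' :=
  h.imp fun _ h S ε hε =>
    let ⟨Ω, i, B, j, k, p, h1, h2⟩ := h S ε hε
    ⟨Ω, i, B, j, k, p, h1, fun b => (h2 b).mono le_rfl hG⟩

/-- Pass to the elements of the base group all of whose coordinates lie in the subgroups of finite
index. -/
theorem goodW_vr {K G F : Type} [Field K] [Group G] [Group F] [Finite F] {n : ℕ}
    {ρ : G →* GL (Fin n) K} {Fam : Subgroup G → Prop} (hF : ∀ H, Red ρ H ∨ H ≤ ρ.ker → Fam H)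
    {H : Subgroup (G ≀ᵣ F)} (h : GoodW (VR ρ) H) : GoodW Fam H := by
  obtain ⟨H₀, _, h⟩ := h
  choose H' h1 h2 using h
  choose L _ l2 l3 using h1
  let B := H₀ ⊓ (RegularWreathProduct.rightHom.comp H.subtype).ker
  let ψ : F → B →* G := fun q => MonoidHom.mk' (fun g => g.1.1.left q) fun g g' => by
    have e : g.1.1.right = 1 := g.2.2
    simp [e]
  have : (⨅ q, (L q).comap (ψ q)).FiniteIndex := Subgroup.finiteIndex_iInf fun q => ⟨by
    rw [Subgroup.index_comap]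
    refine fun k => l2 q (Subgroup.relIndex_eq_zero_of_le_right ?_ k)
    rintro _ ⟨g, rfl⟩
    exact h2 q g g.2.1 g.2.2⟩
  refine ⟨(⨅ q, (L q).comap (ψ q)).map B.subtype, ⟨?_⟩, fun q => ⟨L q, hF _ (l3 q), ?_⟩⟩
  · rw [Subgroup.index_map_subtype]
    exact mul_ne_zero Subgroup.FiniteIndex.index_ne_zero Subgroup.FiniteIndex.index_ne_zero
  · rintro _ ⟨g, hg, rfl⟩ -
    exact Subgroup.mem_iInf.1 hg q

theorem thmC : ThmC := by
  intro K _ _ _ n G _ hG ρ hρ hd F _ _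
  rcases n.eq_zero_or_pos with rfl | hn
  · have := hρ.subsingleton
    exact ((zt_nf hG one_pos (1 : G →* GL (Fin 1) K) fun _ => det_one).cdw F).mono fun _ =>
      goodW_vr fun _ _ => .inr (sc_comm fun _ _ => Subsingleton.elim _ _)
  · exact ((zt_nf hG hn ρ hd).cdw F).mono fun _ => goodW_vr fun H k => k.imp_right fun k =>
      sc_comm fun a b => Subtype.ext (hρ (by
        rw [H.coe_mul, H.coe_mul, map_mul, map_mul, show ρ a = 1 from k a.2, one_mul, mul_one]))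

end Pool.Agent.Work.MP_9d1ffa_al.WL
end
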