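import Pool.Agent.Work.MP_9d1ffa_al.WL.En
import Mathlib
import Pool.Agent.Work.MP_9d1ffa_al.Br.KTop
import Pool.Agent.Work.MP_9d1ffa_al.Cyc

-- merged part: Pool.Agent.Work.MP_9d1ffa_al.WL.Dc
section
/-! Virtually free abelian groups: the final statements. -/

namespace Pool.Agent.Work.MP_9d1ffa_al.WL

open Finset

theorem grid_bl (I : Type) [Fintype I] : Grid (2 ^ Fintype.card I) (Bl I) := by
  classical
  refine ⟨inferInstance, ⟨⟨0, Metric.mem_closedBall_self zero_le_one⟩⟩, ⟨Bl.sg, ?_,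
    fun x y => Subtype.ext (by simp [Bl.sg]), fun x y => Subtype.ext (by simp [Bl.sg]),
    fun x t => Subtype.ext (by simp [Bl.sg, ← add_smul])⟩, fun δ hδ =>
    ⟨I → ℤ, fun a => {x | ∀ i, |2 / δ * x.1 i - a i| < 1}, fun a => ?_,
      fun x => ⟨fun i => round (2 / δ * x.1 i), fun i => (abs_sub_round _).trans_lt one_half_lt_one⟩,
      fun x => ?_, fun a x hx y hy => (dist_pi_le_iff hδ.le).2 fun i => ?_⟩⟩
  · have c := continuous_subtype_val.comp
      ((continuous_snd (X := Bl I) (Y := unitInterval)).comp (continuous_snd (X := Bl I)))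
    exact Continuous.subtype_mk (((continuous_const.sub c).smul
      (continuous_subtype_val.comp continuous_fst)).add
      (c.smul (continuous_subtype_val.comp (continuous_fst.comp continuous_snd)))) _
  · simp only [Set.ofPred_forall]
    exact isOpen_iInter_of_finite fun i => isOpen_lt (((continuous_const.mul
      ((continuous_apply i).comp continuous_subtype_val)).sub continuous_const).abs) continuous_const
  · refine (Set.encard_le_encard (t := ↑(Fintype.piFinset fun i =>
      ({⌊2 / δ * x.1 i⌋, ⌊2 / δ * x.1 i⌋ + 1} : Finset ℤ))) fun a ha =>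
        mem_coe.2 (Fintype.mem_piFinset.2 fun i => ?_)).trans ?_
    · have b := abs_lt.1 (ha i)
      have b1 : ⌊2 / δ * x.1 i⌋ < a i + 1 := Int.floor_lt.2 (by push_cast; linarith [b.2])
      have b2 : a i - 1 ≤ ⌊2 / δ * x.1 i⌋ := Int.le_floor.2 (by push_cast; linarith [b.1])
      simp only [mem_insert, mem_singleton]
      omega
    · rw [Set.encard_coe_eq_coe_finsetCard, Nat.cast_le, Fintype.card_piFinset]
      exact (prod_le_pow_card _ _ 2 fun i _ => card_le_two).trans (Nat.le_succ _)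
  · have b := abs_lt.1 (hx i)
    have b' := abs_lt.1 (hy i)
    have e : x.1 i - y.1 i = δ / 2 * (2 / δ * x.1 i - 2 / δ * y.1 i) := by field_simp
    rw [Real.dist_eq, e, abs_mul, abs_of_pos (half_pos hδ)]
    have := mul_le_mul_of_nonneg_left (abs_le.2 ⟨by linarith [b.1, b'.2], by linarith [b.2, b'.1]⟩ :
      |2 / δ * x.1 i - 2 / δ * y.1 i| ≤ 2) (half_pos hδ).le
    linarith

variable {W : (G : Type) → [Group G] → Prop}

theorem rl_vz (hA : ThmA W) (hi : ∀ (G H : Type) [Group G] [Group H], (G ≃* H) → W G → W H) {r : ℕ}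
    {G : Type} [Group G] (h : VZ r G) : Rl W FC G :=
  rl_vz' (fun _ _ _ => ZT.cdat) (fun I _ => ⟨_, grid_bl I⟩) hA hi r G h

theorem w_vz (hA : ThmA W) (hi : ∀ (G H : Type) [Group G] [Group H], (G ≃* H) → W G → W H)
    (h0 : ∀ (G : Type) [Group G], (∃ χ : G →* Multiplicative ℤ, Function.Injective χ) → W G)
    {r : ℕ} {G : Type} [Group G] (tf : ∀ g : G, IsOfFinOrder g → g = 1) (h : VZ r G) : W G :=
  w_of_rl hi h0 tf (rl_vz hA hi h)

/-- This is `ThmD W`. -/
theorem thmD (hA : ThmA W) (hi : ∀ (G H : Type) [Group G] [Group H], (G ≃* H) → W G → W H)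
    (h0 : ∀ (G : Type) [Group G], (∃ χ : G →* Multiplicative ℤ, Function.Injective χ) → W G)
    (L : Type) [Group L] (fg : Group.FG L) (tf : ∀ g : L, IsOfFinOrder g → g = 1) (H : Subgroup L)
    (_ : H.FiniteIndex) (hc : ∀ a ∈ H, ∀ b ∈ H, a * b = b * a) : W L :=
  let ⟨_, h⟩ := vz_of_comm H hc
  w_vz hA hi h0 tf h

end Pool.Agent.Work.MP_9d1ffa_al.WL
end

-- merged part: Pool.Agent.Work.MP_9d1ffa_al.WL.Em
section
/-! Virtually solvable linear groups are virtually nilpotent by abelian. -/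

namespace Pool.Agent.Work.MP_9d1ffa_al.WL

open scoped commutatorElement

variable {K V G : Type} [Field K] [AddCommGroup V] [Module K V] [FiniteDimensional K V] [Group G]

theorem Em_stab {X : Type} [MulAction G X] {x : X} (h : (MulAction.orbit G x).Finite) :
    (MulAction.stabilizer G x).FiniteIndex :=
  have := Finite.of_equiv _ (h := h) (MulAction.orbitEquivQuotientStabilizer G x)
  Subgroup.finiteIndex_of_finite_quotient

theorem Em_map {H : Subgroup G} [H.FiniteIndex] (L : Subgroup H) [L.FiniteIndex] :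
    (L.map H.subtype).FiniteIndex :=
  ⟨by
    rw [Subgroup.index_map_subtype]
    exact mul_ne_zero Subgroup.FiniteIndex.index_ne_zero Subgroup.FiniteIndex.index_ne_zero⟩

theorem Em_span (s : Set (Module.End K V)) :
    ∃ T : Finset (Module.End K V), ↑T ⊆ s ∧ Submodule.span K s = Submodule.span K ↑T :=
  (Submodule.fg_span_iff_fg_span_finset_subset s).1 (IsNoetherian.noetherian _)

/-- If the commutators have finitely many images, a subgroup of finite index has commutative image.
Pick a finite subset of the image that spans the same space; each member has finitely many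
conjugates. -/
theorem Em_fin (ρ : G →* Module.End K V) (h : (ρ '' (commutator G : Set G)).Finite) :
    ∃ H : Subgroup G, H.FiniteIndex ∧ ∀ a ∈ H, ∀ b ∈ H, ρ a * ρ b = ρ b * ρ a := by
  let _ : MulAction G (Module.End K V) :=
    { smul a x := ρ a * x * ρ a⁻¹
      one_smul x := show ρ 1 * x * ρ 1⁻¹ = x by simp
      mul_smul a b x := show ρ (a * b) * x * ρ (a * b)⁻¹ = ρ a * (ρ b * x * ρ b⁻¹) * ρ a⁻¹ by
        simp only [mul_inv_rev, map_mul, mul_assoc] }
  obtain ⟨T, h1, h2⟩ := Em_span (Set.range ρ)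
  refine ⟨⨅ x ∈ T, MulAction.stabilizer G x, Subgroup.finiteIndex_iInf' _ fun x hx => ?_,
    fun a ha b _ => ?_⟩
  · obtain ⟨g, rfl⟩ := h1 hx
    refine Em_stab ((h.image (· * ρ g)).subset ?_)
    rintro _ ⟨a, rfl⟩
    refine ⟨_, ⟨⁅a, g⁆, Subgroup.commutator_mem_commutator trivial trivial, rfl⟩, ?_⟩
    change _ = ρ a * ρ g * ρ a⁻¹
    simp only [← map_mul, commutatorElement_def, inv_mul_cancel_right]
  · have : ρ b ∈ Submodule.span K (T : Set (Module.End K V)) :=
      h2 ▸ Submodule.subset_span ⟨b, rfl⟩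
    refine LinearMap.mem_eqLocus.1 ((Submodule.span_le (p := LinearMap.eqLocus
      (LinearMap.mulLeft K (ρ a)) (LinearMap.mulRight K (ρ a)))).2 (fun x hx => ?_) this)
    have e : ρ a * x * ρ a⁻¹ = x := (Subgroup.mem_iInf.1 (Subgroup.mem_iInf.1 ha x) hx :)
    change ρ a * x = x * ρ a
    conv_rhs => rw [← e, mul_assoc, ← map_mul, inv_mul_cancel, map_one, mul_one]

/-- A commutative image has a common eigenvector: take a minimal invariant subspace. -/
theorem Em_comm [IsAlgClosed K] [Nontrivial V] (ρ : G →* Module.End K V)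
    (h : ∀ a b, ρ a * ρ b = ρ b * ρ a) : ∃ v : V, v ≠ 0 ∧ ∀ g, ∃ c : K, ρ g v = c • v := by
  obtain ⟨W, ⟨w1, w2⟩, hW⟩ := (wellFounded_lt (α := Submodule K V)).has_min
    {W | W ≠ ⊥ ∧ ∀ g, ∀ w ∈ W, ρ g w ∈ W} ⟨⊤, top_ne_bot, fun _ _ _ => trivial⟩
  obtain ⟨v, v1, v2⟩ := W.ne_bot_iff.1 w1
  refine ⟨v, v2, fun g => ?_⟩
  have := Submodule.nontrivial_iff_ne_bot.2 w1
  obtain ⟨c, hc⟩ := Module.End.exists_eigenvalue (K := K) (V := W) ((ρ g).restrict (w2 g))
  obtain ⟨u, hu⟩ := hc.exists_hasEigenvector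
  have e : W ⊓ (ρ g).eigenspace c = W := (inf_le_left.lt_or_eq).resolve_left (hW _ ⟨
    (Submodule.ne_bot_iff _).2 ⟨u, ⟨u.2, Module.End.mem_eigenspace_iff.2
      (congrArg Subtype.val hu.apply_eq_smul)⟩, fun k => hu.2 (Subtype.ext k)⟩,
    fun a w hw => ⟨w2 a w hw.1, Module.End.mem_eigenspace_iff.2 (by
      rw [← Module.End.mul_apply, h, Module.End.mul_apply, Module.End.mem_eigenspace_iff.1 hw.2,
        map_smul])⟩⟩)
  exact ⟨c, Module.End.mem_eigenspace_iff.1 (e.ge v1).2⟩

/-- The smallest span of the image of a subgroup of finite index in `N`; it lies in all others. -/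
theorem Em_min (ρ : G →* Module.End K V) (N : Subgroup G) :
    ∃ N₁ : Subgroup G, N₁ ≤ N ∧ N₁.relIndex N ≠ 0 ∧ ∀ N₂ : Subgroup G, N₂.relIndex N ≠ 0 →
      Submodule.span K (ρ '' (N₁ : Set G)) ≤ Submodule.span K (ρ '' (N₂ : Set G)) := by
  obtain ⟨_, ⟨N₁, h1, h2, rfl⟩, hA⟩ := (wellFounded_lt (α := Submodule K (Module.End K V))).has_min
    {A | ∃ N₁ : Subgroup G, N₁ ≤ N ∧ N₁.relIndex N ≠ 0 ∧ A = Submodule.span K (ρ '' (N₁ : Set G))}
    ⟨_, N, le_rfl, by simp, rfl⟩
  refine ⟨N₁, h1, h2, fun N₂ h3 => ?_⟩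
  have e := (Submodule.span_mono (R := K) (Set.image_mono (f := ρ)
    (inf_le_left : N₁ ⊓ N₂ ≤ N₁))).lt_or_eq.resolve_left
    (hA _ ⟨N₁ ⊓ N₂, inf_le_left.trans h1, Subgroup.relIndex_inf_ne_zero h2 h3, rfl⟩)
  exact e.ge.trans (Submodule.span_mono (Set.image_mono (inf_le_right : N₁ ⊓ N₂ ≤ N₂)))

theorem Em_range {M : Type} [Monoid M] (f : G →* M) (P : Subgroup G) [P.FiniteIndex]
    (h : (f '' (P : Set G)).Finite) : (Set.range f).Finite := by
  refine ((Set.finite_range fun q : G ⧸ P => f q.out).image2 (· * ·) h).subset ?_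
  rintro _ ⟨g, rfl⟩
  exact ⟨_, ⟨(g : G ⧸ P), rfl⟩, _, ⟨_, QuotientGroup.eq.1 (QuotientGroup.out_eq' (g : G ⧸ P)), rfl⟩,
    by simp only [← map_mul, mul_inv_cancel_left]⟩

/-- the vectors with the eigenvalues of `u` -/
def Em_E (A : Submodule K (Module.End K V)) (u : V) : Submodule K V :=
  ⨅ x ∈ A, ⨅ c : K, ⨅ _ : x u = c • u, x.eigenspace c

omit [FiniteDimensional K V] in
theorem Em_mem {A : Submodule K (Module.End K V)} {u w : V} :
    w ∈ Em_E A u ↔ ∀ x ∈ A, ∀ c : K, x u = c • u → x w = c • w := by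
  simp only [Em_E, Submodule.mem_iInf, Module.End.mem_eigenspace_iff]

theorem Em_step [IsAlgClosed K] (ρ : G →* Module.End K V) (M : Subgroup G)
    (hM : M.relIndex (commutator G) ≠ 0) {v : V} (hv : v ≠ 0)
    (h : ∀ g ∈ M, ∃ c : K, ρ g v = c • v) :
    ∃ H : Subgroup G, H.FiniteIndex ∧ ∃ v : V, v ≠ 0 ∧ ∀ g ∈ H, ∃ c : K, ρ g v = c • v := by
  obtain ⟨N, -, n2, n3⟩ := Em_min ρ (commutator G)
  obtain ⟨T, t1, t2⟩ := Em_span (ρ '' (N : Set G))
  set A := Submodule.span K (ρ '' (N : Set G)) with hA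
  have i1 : ∀ g w, ρ g (ρ g⁻¹ w) = w := fun g w => by
    rw [← Module.End.mul_apply, ← map_mul, mul_inv_cancel, map_one, Module.End.one_apply]
  have i2 : ∀ g w, ρ g⁻¹ (ρ g w) = w := fun g w => by
    rw [← Module.End.mul_apply, ← map_mul, inv_mul_cancel, map_one, Module.End.one_apply]
  have a1 : ∀ x ∈ A, ∃ c : K, x v = c • v := fun x hx => Submodule.mem_span_singleton.1
    ((Submodule.span_le (p := (K ∙ v).comap (LinearMap.applyₗ v))).2 (by
      rintro _ ⟨g, hg, rfl⟩
      exact Submodule.mem_span_singleton.2 ((h g hg).imp fun _ => Eq.symm)) (n3 M hM hx))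
      |>.imp fun _ => Eq.symm
  have a2 : ∀ g, ∀ x ∈ A, ρ g⁻¹ * (x * ρ g) ∈ A := fun g x hx =>
    (Submodule.span_le (p := A.comap
      (LinearMap.mulLeft K (ρ g⁻¹) ∘ₗ LinearMap.mulRight K (ρ g)))).2 (by
        rintro _ ⟨a, ha, rfl⟩
        refine Submodule.subset_span ⟨_, ha, ?_⟩
        simp [mul_assoc])
      (n3 (N.comap (MulAut.conj g⁻¹).toMonoidHom) (by
        rw [Subgroup.relIndex_comap]
        exact fun k => n2 (Subgroup.relIndex_eq_zero_of_le_right (Subgroup.map_le_iff_le_comap.2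
          fun a ha => Subgroup.Normal.conj_mem inferInstance a ha g⁻¹) k)) hx)
  have a3 : ∀ g, ∀ x ∈ A, ∃ c : K, x (ρ g v) = c • ρ g v := fun g x hx =>
    (a1 _ (a2 g x hx)).imp fun c hc => by
      rw [← map_smul, ← hc]
      exact (i1 g _).symm
  have a4 : ∀ g u, ∀ w ∈ Em_E A u, ρ g w ∈ Em_E A (ρ g u) := fun g u w hw =>
    Em_mem.2 fun x hx c hc => by
      rw [← map_smul, ← Em_mem.1 hw _ (a2 g x hx) c (by
        change ρ g⁻¹ (x (ρ g u)) = _
        rw [hc, map_smul, i2])]
      exact (i1 g _).symm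
  let _ : MulAction G (Submodule K V) :=
    { smul g U := U.map (ρ g)
      one_smul U := show U.map (ρ 1) = U by rw [map_one]; exact U.map_id
      mul_smul a b U := show U.map (ρ (a * b)) = (U.map (ρ b)).map (ρ a) by
        rw [map_mul]; exact U.map_comp _ _ }
  have f1 : (MulAction.stabilizer G (Em_E A v)).FiniteIndex := by
    refine Em_stab (((Set.Finite.pi' fun x : T => x.1.finite_hasEigenvalue).image
      fun c => ⨅ x : T, x.1.eigenspace (c x)).subset ?_)
    rintro _ ⟨g, rfl⟩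
    have v0 : ρ g v ≠ 0 := fun k => hv (by rw [← i2 g v, k, map_zero])
    choose c hc using fun x : T => a3 g x (Submodule.subset_span (t1 x.2))
    refine ⟨c, fun x => Module.End.hasEigenvalue_of_hasEigenvector
      ⟨Module.End.mem_eigenspace_iff.2 (hc x), v0⟩, le_antisymm (fun w hw => ?_) ?_⟩
    · refine ⟨ρ g⁻¹ w, ?_, i1 g w⟩
      rw [← i2 g v]
      refine a4 _ _ _ (Em_mem.2 fun x hx => ?_)
      rw [t2] at hx
      induction hx using Submodule.span_induction with
      | mem x hx =>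
        intro d hd
        rw [smul_left_injective K v0 (hd.symm.trans (hc ⟨x, hx⟩))]
        exact Module.End.mem_eigenspace_iff.1 ((Submodule.mem_iInf _).1 hw ⟨x, hx⟩)
      | zero =>
        intro d hd
        rw [(smul_eq_zero.1 hd.symm).resolve_right v0, zero_smul, LinearMap.zero_apply]
      | add x y hx hy ix iy =>
        intro d hd
        obtain ⟨a, ha⟩ := a3 g x (t2 ▸ hx)
        obtain ⟨b, hb⟩ := a3 g y (t2 ▸ hy)
        rw [LinearMap.add_apply, ha, hb, ← add_smul] at hd
        rw [LinearMap.add_apply, ix a ha, iy b hb, ← add_smul, smul_left_injective K v0 hd]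
      | smul a x hx ix =>
        intro d hd
        obtain ⟨b, hb⟩ := a3 g x (t2 ▸ hx)
        rw [LinearMap.smul_apply, hb, smul_smul] at hd
        rw [LinearMap.smul_apply, ix b hb, smul_smul, smul_left_injective K v0 hd]
    · rintro _ ⟨w, hw, rfl⟩
      exact (Submodule.mem_iInf _).2 fun x => Module.End.mem_eigenspace_iff.2
        (Em_mem.1 (a4 g v w hw) x (Submodule.subset_span (t1 x.2)) _ (hc x))
  set G₁ := MulAction.stabilizer G (Em_E A v)
  let σ : G₁ →* Module.End K (Em_E A v) := Representation.subrepresentation (ρ.comp G₁.subtype) _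
    fun g w hw => (show (Em_E A v).map (ρ g) = _ from g.2).le ⟨w, hw, rfl⟩
  have : Nontrivial (Em_E A v) := Submodule.nontrivial_iff_ne_bot.2
    ((Submodule.ne_bot_iff _).2 ⟨v, Em_mem.2 fun _ _ _ k => k, hv⟩)
  have f2 : (N.comap (G₁.subtype.comp (commutator G₁).subtype)).FiniteIndex := ⟨by
    rw [Subgroup.index_comap]
    refine fun k => n2 (Subgroup.relIndex_eq_zero_of_le_right ?_ k)
    rw [MonoidHom.range_comp, Subgroup.range_subtype, Subgroup.map_subtype_commutator]
    exact Subgroup.commutator_mono le_top le_top⟩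
  obtain ⟨H, _, hH⟩ := Em_fin σ ((Em_range (σ.comp (commutator G₁).subtype)
    (N.comap (G₁.subtype.comp (commutator G₁).subtype))
    (((Polynomial.nthRoots (Module.finrank K (Em_E A v)) (1 : K)).finite_toSet.image
      fun c => c • LinearMap.id).subset (by
        rintro _ ⟨g, hg, rfl⟩
        obtain ⟨c, hc⟩ := a1 _ (Submodule.subset_span ⟨_, hg, rfl⟩)
        have e : σ g = c • LinearMap.id := LinearMap.ext fun w =>
          Subtype.ext (Em_mem.1 w.2 _ (Submodule.subset_span ⟨_, hg, rfl⟩) c hc)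
        have d : LinearMap.det (σ g) = 1 := congrArg Units.val
          (Abelianization.commutator_subset_ker (LinearMap.det.comp σ).toHomUnits g.2)
        rw [e, LinearMap.det_smul, LinearMap.det_id, mul_one] at d
        exact ⟨c, (Polynomial.mem_nthRoots Module.finrank_pos).2 d, e.symm⟩))).subset (by
      rintro _ ⟨g, hg, rfl⟩
      exact ⟨⟨g, hg⟩, rfl⟩))
  obtain ⟨w, w0, hw⟩ := Em_comm (σ.comp H.subtype) fun a b => hH a a.2 b b.2
  refine ⟨_, Em_map H, w, fun k => w0 (Subtype.ext k), ?_⟩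
  rintro _ ⟨g, hg, rfl⟩
  exact (hw ⟨g, hg⟩).imp fun c hc => congrArg Subtype.val hc

theorem Em_der [IsAlgClosed K] [Nontrivial V] (k : ℕ) : ∀ (G : Type) [Group G]
    (ρ : G →* Module.End K V), derivedSeries G k = ⊥ →
      ∃ H : Subgroup G, H.FiniteIndex ∧ ∃ v : V, v ≠ 0 ∧ ∀ g ∈ H, ∃ c : K, ρ g v = c • v := by
  induction k with
  | zero =>
    intro G _ ρ h
    obtain ⟨v, hv⟩ := exists_ne (0 : V)
    exact ⟨⊤, inferInstance, v, hv, fun g hg => ⟨1, by
      rw [Subgroup.mem_bot.1 (h.le hg), map_one, one_smul, Module.End.one_apply]⟩⟩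
  | succ k ih =>
    intro G _ ρ h
    have e : ∀ j, (derivedSeries (commutator G) j).map (commutator G).subtype ≤
        derivedSeries G (j + 1) := fun j => by
      induction j with
      | zero => exact Subgroup.map_subtype_le _
      | succ j ij =>
        rw [derivedSeries_succ, Subgroup.map_commutator]
        exact Subgroup.commutator_mono ij ij
    obtain ⟨H, hH, v, hv, k⟩ := ih _ (ρ.comp (commutator G).subtype)
      ((Subgroup.map_eq_bot_iff_of_injective _ (Subgroup.subtype_injective _)).1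
        (le_bot_iff.1 (h ▸ e k)))
    refine Em_step ρ (H.map (commutator G).subtype) ?_ hv ?_
    · rw [Subgroup.relIndex, Subgroup.subgroupOf,
        Subgroup.comap_map_eq_self_of_injective (Subgroup.subtype_injective _)]
      exact hH.index_ne_zero
    · rintro _ ⟨g, hg, rfl⟩
      exact k g hg

/-- A common eigenvector for a subgroup of finite index, by induction on the derived length. -/
theorem Em_eig [IsAlgClosed K] [Nontrivial V] (ρ : G →* Module.End K V) (h : Group.IsSolvable G) :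
    ∃ H : Subgroup G, H.FiniteIndex ∧ ∃ v : V, v ≠ 0 ∧ ∀ g ∈ H, ∃ c : K, ρ g v = c • v :=
  let ⟨k, hk⟩ := h.solvable
  Em_der k G ρ hk

theorem Em_dim [IsAlgClosed K] (d : ℕ) : ∀ (V G : Type) [AddCommGroup V] [Module K V]
    [FiniteDimensional K V] [Group G] (ρ : G →* Module.End K V), Module.finrank K V = d →
      Group.IsSolvable G → ∃ H : Subgroup G, H.FiniteIndex ∧ ∀ l : List G, (∀ u ∈ l, u ∈ ⁅H, H⁆) →
        d ≤ l.length → (l.map fun u => ρ u - 1).prod = 0 := by
  induction d with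
  | zero =>
    intro V G _ _ _ _ ρ hd _
    have := Module.finrank_zero_iff.1 hd
    exact ⟨⊤, inferInstance, fun _ _ _ => Subsingleton.elim _ _⟩
  | succ d ih =>
    intro V G _ _ _ _ ρ hd h
    have := Module.nontrivial_of_finrank_eq_succ hd
    obtain ⟨H, _, v, hv, k⟩ := Em_eig ρ h
    let σ : H →* Module.End K (V ⧸ K ∙ v) := Representation.quotient (ρ.comp H.subtype) _
      fun g => (Submodule.span_singleton_le_iff_mem _ _).2
        (Submodule.mem_span_singleton.2 ((k g g.2).imp fun _ => Eq.symm))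
    obtain ⟨L, _, hL⟩ := ih _ _ σ (by
      have := (K ∙ v).finrank_quotient_add_finrank
      rw [finrank_span_singleton hv] at this
      omega) inferInstance
    have q : ∀ (l : List H) (w : V), (K ∙ v).mkQ ((l.map fun u : H => ρ u - 1).prod w) =
        (l.map fun u => σ u - 1).prod ((K ∙ v).mkQ w) := fun l w => by
      induction l with
      | nil => rfl
      | cons u l il =>
        rw [List.map_cons, List.map_cons, List.prod_cons, List.prod_cons, Module.End.mul_apply,
          Module.End.mul_apply, ← il]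
        rfl
    have fx : ∀ u ∈ ⁅H, H⁆, ρ u v = v := fun u hu => by
      let _ : MulAction G V := MulAction.compHom V ρ
      refine (Subgroup.commutator_le (H₃ := MulAction.stabilizer G v)).2 (fun a ha b hb => ?_) hu
      obtain ⟨x, hx⟩ := k a ha
      obtain ⟨y, hy⟩ := k b hb
      have e : ρ (a * b) v = ρ (b * a) v := by
        simp only [map_mul, Module.End.mul_apply, hx, hy, map_smul, smul_smul, mul_comm]
      obtain ⟨z, hz⟩ := k (a⁻¹ * b⁻¹) (H.mul_mem (H.inv_mem ha) (H.inv_mem hb))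
      change ρ ⁅a, b⁆ v = v
      rw [commutatorElement_def, mul_assoc, map_mul, Module.End.mul_apply, hz, map_smul, e,
        ← map_smul, ← hz, ← Module.End.mul_apply, ← map_mul]
      simp
    refine ⟨_, Em_map L, fun l hl hd' => ?_⟩
    rw [← Subgroup.map_commutator] at hl
    obtain _ | ⟨u, l⟩ := l
    · exact absurd hd' (by simp)
    have m : ∀ x ∈ l, x ∈ H := fun x hx => Subgroup.map_subtype_le _ (hl x (List.mem_cons_of_mem _ hx))
    lift l to List H using m
    ext w
    have e := q l w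
    rw [hL l (fun x hx => ?_) (by simpa using hd'), LinearMap.zero_apply, Submodule.mkQ_apply,
      Submodule.Quotient.mk_eq_zero, Submodule.mem_span_singleton] at e
    · obtain ⟨c, hc⟩ := e
      have u1 : ρ u v = v := fx u (Subgroup.map_subtype_commutator H ▸
        Subgroup.map_mono (Subgroup.commutator_mono le_top le_top) (hl u List.mem_cons_self))
      rw [List.map_cons, List.prod_cons, Module.End.mul_apply, List.map_map]
      change (ρ u - 1) ((l.map fun u : H => ρ u - 1).prod w) = 0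
      rw [← hc, map_smul, LinearMap.sub_apply, u1, Module.End.one_apply, sub_self, smul_zero]
    · obtain ⟨y, hy, e⟩ := hl x (List.mem_cons_of_mem _ (List.mem_map_of_mem hx))
      exact (Subtype.ext e : y = x) ▸ hy

/-- Induction on the dimension: products of `finrank` factors `ρ u - 1` vanish. -/
theorem Em_uni [IsAlgClosed K] (ρ : G →* Module.End K V) (h : Group.IsSolvable G) :
    ∃ H : Subgroup G, H.FiniteIndex ∧ ∀ l : List G, (∀ u ∈ l, u ∈ ⁅H, H⁆) →
      Module.finrank K V ≤ l.length → (l.map fun u => ρ u - 1).prod = 0 :=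
  Em_dim _ V G ρ rfl h

/-- Unipotent groups are nilpotent. -/
theorem Em_nil {R : Type} [Ring R] (ρ : G →* R) (hρ : Function.Injective ρ) (n : ℕ)
    (h : ∀ l : List G, n ≤ l.length → (l.map fun u => ρ u - 1).prod = 0) :
    Group.IsNilpotent G := by
  set I := Submodule.span ℤ (Set.range fun u => ρ u - 1) with hI
  have m : ∀ u, ρ u - 1 ∈ I := fun u => Submodule.subset_span ⟨u, rfl⟩
  have i2 : I * I ≤ I := by
    rw [hI, Submodule.span_mul_span, Submodule.span_le]
    rintro _ ⟨_, ⟨a, rfl⟩, _, ⟨b, rfl⟩, rfl⟩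
    have e : (ρ a - 1) * (ρ b - 1) = ρ (a * b) - 1 - (ρ a - 1) - (ρ b - 1) := by
      rw [map_mul]
      noncomm_ring
    exact show (ρ a - 1) * (ρ b - 1) ∈ I from e ▸ sub_mem (sub_mem (m _) (m _)) (m _)
  have r : ∀ k, ∀ x ∈ I ^ (k + 1), ∀ g, x * ρ g ∈ I ^ (k + 1) := fun k x hx g => by
    have e : x * ρ g = x + x * (ρ g - 1) := by noncomm_ring
    have l : I ^ (k + 1) * I ≤ I ^ (k + 1) := by
      rw [pow_succ, mul_assoc]
      exact mul_le_mul_right i2 _
    exact e ▸ add_mem hx (l (Submodule.mul_mem_mul hx (m g)))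
  let F : ℕ → Subgroup G := fun k =>
    { carrier := {g | ρ g - 1 ∈ I ^ (k + 1)}
      one_mem' := show ρ 1 - 1 ∈ I ^ (k + 1) by simp
      mul_mem' := fun {a b} ha hb => by
        have e : ρ (a * b) - 1 = (ρ a - 1) * ρ b + (ρ b - 1) := by
          rw [map_mul]
          noncomm_ring
        exact show ρ (a * b) - 1 ∈ _ from e ▸ add_mem (r k _ ha b) hb
      inv_mem' := fun {a} ha => by
        have e : ρ a⁻¹ - 1 = -((ρ a - 1) * ρ a⁻¹) := by
          rw [sub_mul, ← map_mul, mul_inv_cancel, map_one, one_mul, neg_sub]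
        exact show ρ a⁻¹ - 1 ∈ _ from e ▸ neg_mem (r k _ ha _) }
  have l : ∀ k, (⊤ : Subgroup G).lowerCentralSeries k ≤ F k := fun k => by
    induction k with
    | zero => exact fun g _ => show ρ g - 1 ∈ I ^ (0 + 1) by simpa using m g
    | succ k ih =>
      refine Subgroup.commutator_le.2 fun a ha b _ => ?_
      have e : ρ ⁅a, b⁆ - 1 = ((ρ a - 1) * (ρ b - 1) - (ρ b - 1) * (ρ a - 1)) * ρ (b * a)⁻¹ := by
        have e1 : (ρ a - 1) * (ρ b - 1) - (ρ b - 1) * (ρ a - 1) = ρ (a * b) - ρ (b * a) := by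
          rw [map_mul, map_mul]
          noncomm_ring
        rw [e1, sub_mul, ← map_mul, ← map_mul, mul_inv_cancel, map_one, commutatorElement_def,
          mul_inv_rev, mul_assoc (a * b)]
      change ρ ⁅a, b⁆ - 1 ∈ I ^ (k + 1 + 1)
      rw [e]
      refine r _ _ (sub_mem ?_ ?_) _
      · rw [pow_succ]
        exact Submodule.mul_mem_mul (ih ha) (m b)
      · rw [pow_succ']
        exact Submodule.mul_mem_mul (m b) (ih ha)
  refine Subgroup.nilpotent_iff_lowerCentralSeries.2 ⟨n, le_bot_iff.1 fun g hg => hρ ?_⟩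
  have z : I ^ (n + 1) ≤ ⊥ := by
    rw [hI, Submodule.span_pow, Submodule.span_le]
    intro x hx
    obtain ⟨f, rfl⟩ := Set.mem_pow.1 hx
    choose u hu using fun i => (f i).2
    have := h (List.ofFn u) (by simp)
    rw [List.map_ofFn] at this
    rw [← show (fun u => ρ u - 1) ∘ u = fun i => (f i).1 from funext hu]
    exact this
  rw [map_one]
  exact sub_eq_zero.1 (z (l n hg))

theorem malcev {n : ℕ} (ρ : G →* GL (Fin n) K) (hρ : Function.Injective ρ) (H : Subgroup G)
    [H.FiniteIndex] (h : Group.IsSolvable H) :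
    ∃ H₀ : Subgroup G, H₀.Normal ∧ H₀.FiniteIndex ∧ Group.IsNilpotent (⁅H₀, H₀⁆ : Subgroup G) := by
  let σ : G →* Module.End (AlgebraicClosure K) (Fin n → AlgebraicClosure K) :=
    (Matrix.toLinAlgEquiv'.toRingEquiv.toRingHom.comp
      (algebraMap K (AlgebraicClosure K)).mapMatrix).toMonoidHom.comp ((Units.coeHom _).comp ρ)
  have hσ : Function.Injective σ := Matrix.toLinAlgEquiv'.injective.comp
    ((Matrix.map_injective (algebraMap K (AlgebraicClosure K)).injective).comp
      (Units.val_injective.comp hρ))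
  obtain ⟨L, _, hL⟩ := Em_uni (σ.comp H.subtype) h
  have := Em_map L
  have l : ⁅(L.map H.subtype).normalCore, (L.map H.subtype).normalCore⁆ ≤ ⁅L, L⁆.map H.subtype := by
    rw [Subgroup.map_commutator]
    exact Subgroup.commutator_mono (Subgroup.normalCore_le _) (Subgroup.normalCore_le _)
  refine ⟨(L.map H.subtype).normalCore, inferInstance, inferInstance,
    Em_nil (σ.comp (Subgroup.subtype _)) (hσ.comp (Subgroup.subtype_injective _))
      (Module.finrank (AlgebraicClosure K) (Fin n → AlgebraicClosure K)) fun s hs => ?_⟩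
  have e := hL (s.map (Subgroup.inclusion (l.trans (Subgroup.map_subtype_le _)))) (fun u hu => by
    obtain ⟨x, -, rfl⟩ := List.mem_map.1 hu
    obtain ⟨y, hy, e⟩ := l x.2
    exact (Subtype.ext e : y = Subgroup.inclusion (l.trans (Subgroup.map_subtype_le _)) x) ▸ hy)
    (hs.trans (List.length_map _).ge)
  rw [List.map_map] at e
  exact e

end Pool.Agent.Work.MP_9d1ffa_al.WL
end

-- merged part: Pool.Agent.Work.MP_9d1ffa_al.WL.Ek
section
/-! The complex of short chains in a lattice. -/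

namespace Pool.Agent.Work.MP_9d1ffa_al.WL

open Sq Finsupp

theorem Ek_map {W : Type} {P : W → Prop} {z : W →₀ ℤ} (h : ∀ σ, z σ ≠ 0 → P σ) :
    mapDomain Subtype.val (z.subtypeDomain P) = z := by
  ext σ
  by_cases k : P σ
  · exact mapDomain_apply Subtype.val_injective _ ⟨σ, k⟩
  · rw [mapDomain_of_notMem_range _ _ (by simpa using k)]
    exact (by_contra fun l => k (h σ l) : z σ = 0).symm

/-- A group of automorphisms of a semilattice with a shift. `X q` is the type of the cells with `q`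
vertices, `d` is `bdy` restricted by `Finsupp.subtypeDomain`, exactness is `acyc`. -/
theorem gc_of_lat {Q L : Type} [Group Q] [SemilatticeInf L] [Nonempty L] (s : L ≃o L)
    (ρ : Q →* L ≃o L) (hρ : ∀ g a, ρ g (s a) = s (ρ g a)) (hs : ∀ a, a ≤ s a)
    (ar : ∀ a b : L, ∃ c : ℕ, a ≤ s^[c] b)
    (hull : ∀ A : Set L, A.Finite → ∃ Z : Set L, Z.Finite ∧ A ⊆ Z ∧ TC s Z)
    (N : ℕ) (hN : ∀ σ, Cell s σ → σ.card ≤ N) (fin : ∀ a b, {g | ρ g a = b}.Finite) :
    Nonempty (GC Q) := by
  classical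
  let X (q : ℕ) := {σ : Finset L // Cell s σ ∧ σ.card = q}
  let act (q : ℕ) : MulAction Q (X q) :=
    { smul := fun g x => ⟨x.1.image (ρ g), by
        simp only [Cell, Finset.forall_mem_image, ← hρ, OrderIso.le_iff_le]
        exact fun a ha b hb => x.2.1 a ha b hb,
        (Finset.card_image_of_injective _ (ρ g).injective).trans x.2.2⟩
      one_smul := fun x => Subtype.ext (show x.1.image (ρ 1) = x.1 by simp)
      mul_smul := fun g h x => Subtype.ext (show x.1.image (ρ (g * h)) =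
        (x.1.image (ρ h)).image (ρ g) by simp [Finset.image_image]) }
  let d (q : ℕ) (x : X (q + 1)) : X q →₀ ℤ := (bdy x.1).subtypeDomain _
  have h1 : ∀ q (x : X (q + 1)), mapDomain Subtype.val (d q x) = bdy x.1 := fun q x =>
    Ek_map fun σ k => by
      obtain ⟨a, ha, rfl⟩ := bdy_ne k
      exact ⟨x.2.1.subset (Finset.erase_subset _ _), by
        rw [Finset.card_erase_of_mem ha, x.2.2, Nat.add_sub_cancel]⟩
  have h2 : ∀ q (z : X (q + 1) →₀ ℤ), mapDomain Subtype.val (linearCombination ℤ (d q) z) =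
      lx bdy (mapDomain Subtype.val z) := fun q z => by
    rw [linearCombination_mapDomain, ← lmapDomain_apply ℤ ℤ, apply_linearCombination]
    exact congrArg (fun f => linearCombination ℤ f z) (funext (h1 q))
  have h3 : ∀ q, Function.Injective (mapDomain (M := ℤ) (Subtype.val : X q → Finset L)) :=
    fun q => mapDomain_injective Subtype.val_injective
  have h4 : ∀ q (z : X q →₀ ℤ), lx bdy (mapDomain Subtype.val z) = 0 →
      ∃ w, linearCombination ℤ (d q) w = z := fun q z hz => by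
    obtain ⟨a⟩ := ‹Nonempty L›
    obtain ⟨Z, z1, z2, z3⟩ := hull _ (insert a (z.support.biUnion fun x => x.1)).finite_toSet
    obtain ⟨w, w1, w2⟩ := acyc hs z3 z1 ⟨a, z2 (by simp)⟩ (fun a _ b _ => ar a b) (q := q)
      (mem_Cq.2 fun σ k => by
        obtain ⟨x, hx, rfl⟩ := Finset.mem_image.1 (mapDomain_support (mem_support_iff.2 k))
        exact ⟨x.2.1, fun b hb => z2 (Finset.mem_insert_of_mem
          (Finset.mem_biUnion.2 ⟨x, hx, hb⟩)), x.2.2⟩) hz
    refine ⟨w.subtypeDomain _, h3 q ?_⟩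
    rw [h2, Ek_map fun σ k => ⟨(mem_Cq.1 w1 σ k).1, (mem_Cq.1 w1 σ k).2.2⟩, w2]
  refine ⟨@GC.mk Q _ X act d N (fun q g x y => bdy_map (ρ g) x.1 y.1) (fun q x => h3 q ?_)
    (fun q z hz => h4 _ z (by rw [← h2, hz, mapDomain_zero])) (fun z => h4 0 z ?_)
    ⟨∅, fun a ha => absurd ha (by simp), rfl⟩
    (fun x => Subtype.ext (Finset.card_eq_zero.1 x.2.2))
    ⟨fun x => (hN _ x.2.1).not_gt (N.lt_succ_self.trans_eq x.2.2.symm)⟩ fun q x => ?_⟩
  · rw [h2, h1, mapDomain_zero]
    exact bdy_bdy fun a ha b hb => (x.2.1 a ha b hb).1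
  · rw [linearCombination_mapDomain, show bdy ∘ (Subtype.val : X 0 → Finset L) = 0 from
      funext fun x => by rw [Function.comp, Finset.card_eq_zero.1 x.2.2]; exact bdy_empty]
    simp
  · obtain ⟨a, ha⟩ := Finset.card_pos.1 (q.succ_pos.trans_eq x.2.2.symm)
    refine (x.1.finite_toSet.biUnion fun b _ => fin a b).subset fun g hg => ?_
    have : x.1.image (ρ g) = x.1 := congrArg Subtype.val hg
    exact Set.mem_biUnion (this ▸ Finset.mem_image_of_mem _ ha : ρ g a ∈ x.1) rfl

/-- `exists_coc` gives an action on `I → ℤ` by permutations of coordinates and translations; boxes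
are tropically convex; a cell lies in a box of side two. -/
theorem gc_of_vz {Q : Type} [Group Q] {r : ℕ} (h : VZ r Q) : Nonempty (GC Q) := by
  classical
  obtain ⟨A, θ, _, _, hθ⟩ := h
  obtain ⟨C, -, hC⟩ := exists_coc A θ hθ
  have := Fintype.ofFinite (Q ⧸ A)
  let T (g : Q) (x : (Σ _ : Fin r, Q ⧸ A) → ℤ) := fun i => C.e g i + x ((C.π g)⁻¹ • i)
  have t1 : ∀ g h x, T g (T h x) = T (g * h) x := fun g h x => funext fun i => by
    simp only [T, C.mul, map_mul, mul_inv_rev, mul_smul, add_assoc]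
  have t2 : ∀ x, T 1 x = x := fun x => funext fun i => by simp [T, C.one]
  have t3 : ∀ g, Monotone (T g) := fun g x y k i => add_le_add_right (k _) _
  let ρ : Q →* ((Σ _ : Fin r, Q ⧸ A) → ℤ) ≃o ((Σ _ : Fin r, Q ⧸ A) → ℤ) := MonoidHom.mk'
    (fun g => Equiv.toOrderIso ⟨T g, T g⁻¹, fun x => by rw [t1, inv_mul_cancel, t2],
      fun x => by rw [t1, mul_inv_cancel, t2]⟩ (t3 g) (t3 g⁻¹))
    fun g h => DFunLike.ext _ _ fun x => (t1 g h x).symm
  have hs : ∀ a : (Σ _ : Fin r, Q ⧸ A) → ℤ, a ≤ a + 1 := fun a i => (lt_add_one (a i)).le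
  refine gc_of_lat (OrderIso.addRight 1) ρ (fun g a => funext fun i => (add_assoc _ _ _).symm) hs
    (fun a b => ⟨∑ i, (a i - b i).toNat, fun i => ?_⟩) (fun B hB => ?_)
    (3 ^ Fintype.card (Σ _ : Fin r, Q ⧸ A)) (fun σ k => ?_) fun a b =>
      .of_finite_image (f := C.π) (Set.toFinite _) fun g hg h hh e => ?_
  · have := Finset.single_le_sum (f := fun i => (a i - b i).toNat) (fun _ _ => Nat.zero_le _)
      (Finset.mem_univ i)
    rw [show ⇑(OrderIso.addRight (1 : (Σ _ : Fin r, Q ⧸ A) → ℤ)) = (· + 1) from rfl,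
      add_right_iterate, nsmul_one]
    change _ ≤ b i + ((∑ i, (a i - b i).toNat : ℕ) : ℤ)
    omega
  · obtain ⟨u, hu⟩ := hB.bddBelow
    obtain ⟨v, hv⟩ := hB.bddAbove
    exact ⟨Set.Icc u v, Set.finite_Icc u v, fun x hx => ⟨hu hx, hv hx⟩, fun a ha b hb =>
      ⟨⟨le_inf ha.1 hb.1, inf_le_left.trans ha.2⟩, le_inf ha.1 (hb.1.trans (hs b)),
        inf_le_left.trans ha.2⟩⟩
  · rcases σ.eq_empty_or_nonempty with rfl | ⟨a, ha⟩
    · simp
    refine (Finset.card_le_card (t := Finset.Icc (a - 1) (a + 1)) fun b hb => Finset.mem_Icc.2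
      ⟨sub_le_iff_le_add.2 (k b hb a ha).2, (k a ha b hb).2⟩).trans ?_
    rw [Pi.card_Icc, Finset.prod_congr rfl (g := fun _ => 3) fun i _ => by
      rw [Int.card_Icc, Pi.add_apply, Pi.sub_apply, Pi.one_apply]; omega]
    simp
  · have e1 : C.π (h⁻¹ * g) = 1 := by rw [map_mul, map_inv, e, inv_mul_cancel]
    have e2 : T (h⁻¹ * g) a = a := by
      rw [← t1, show T g a = T h a from hg.trans hh.symm, t1, inv_mul_cancel, t2]
    exact (inv_mul_eq_one.1 (hC 1 _ e1 fun j => by
      simpa [T, e1] using congrFun e2 ⟨j, 1⟩)).symm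

end Pool.Agent.Work.MP_9d1ffa_al.WL
end

-- merged part: Pool.Agent.Work.MP_9d1ffa_al.WL.Eq
section
/-! Finite global dimension. -/

namespace Pool.Agent.Work.MP_9d1ffa_al.WL.E

open Function Finsupp

variable {G Q M X Y Z : Type} [Group G] [Group Q] [AddCommGroup M]

/-- integral chains with a coefficient -/
noncomputable def tw (G : Type) (m : M) : (X →₀ ℤ) →ₗ[ℤ] Pm G X M :=
  linearCombination ℤ fun x => sg G x m

/-- the map with coefficients of an integral matrix -/
noncomputable def cf (G M : Type) [AddCommGroup M] (φ : X → Y →₀ ℤ) : Pm G X M →+ Pm G Y M :=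
  lf G fun x =>
    { toFun := fun m => tw G m (φ x)
      map_zero' := by simp [tw, linearCombination_apply]
      map_add' := fun a b => by simp [tw, linearCombination_apply] }

omit [Group G] in
theorem cf_sg (φ : X → Y →₀ ℤ) (x : X) (m : M) : cf G M φ (sg G x m) = tw G m (φ x) := lf_sg _ x m

omit [Group G] in
theorem cf_tw (φ : X → Y →₀ ℤ) (m : M) (z : X →₀ ℤ) :
    cf G M φ (tw G m z) = tw G m (linearCombination ℤ φ z) := by
  induction z using induction_linear with
  | zero => simp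
  | add a b ha hb => simp only [map_add, ha, hb]
  | single x n => rw [linearCombination_single, map_smul, tw, linearCombination_single, map_zsmul,
      cf_sg, tw]

omit [Group G] in
theorem tw_single (x : X) (m : M) : tw G m (single x 1) = sg G x m := by simp [tw]

variable [Module (ZG G) M] [MulAction G X] [MulAction G Y]

theorem gs_tw (g : G) (m : M) (z : X →₀ ℤ) :
    gs g • tw G m z = tw G (gs g • m) (mapDomain (g • ·) z) := by
  induction z using induction_linear with
  | zero => simp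
  | add a b ha hb => simp only [map_add, mapDomain_add, smul_add, ha, hb]
  | single x n => simp [tw, smul_comm (gs g) n, gs_sg]

/-- the linear map of an equivariant matrix -/
noncomputable def cfL (M : Type) [AddCommGroup M] [Module (ZG G) M] (φ : X → Y →₀ ℤ)
    (h : ∀ (g : G) x y, φ (g • x) (g • y) = φ x y) : Pm G X M →ₗ[ZG G] Pm G Y M :=
  mkL (cf G M φ) fun g z => DFunLike.congr_fun (pm_ext
    (u := (cf G M φ).comp (DistribSMul.toAddMonoidHom _ (gs g)))
    (v := (DistribSMul.toAddMonoidHom _ (gs g)).comp (cf G M φ)) fun x m => by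
      change cf G M φ (gs g • sg G x m) = gs g • cf G M φ _
      rw [gs_sg, cf_sg, cf_sg, gs_tw]
      refine congrArg _ (Finsupp.ext fun y => ?_)
      rw [← smul_inv_smul g y, h, mapDomain_apply (MulAction.injective g)]) z

theorem pd_gc (C : GC Q) [∀ q, MulAction G (C.X q)]
    (eqv : ∀ q (g : G) x y, C.d q (g • x) (g • y) = C.d q x y)
    (h : ∀ q (x : C.X (q + 1)), Module.Projective (ZG (MulAction.stabilizer G x))
      (Rs (MulAction.stabilizer G x).subtype M)) : PD (ZG G) C.D M := by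
  have ext : ∀ {A B : Type} (u v : (A →₀ ℤ) →ₗ[ℤ] B →₀ ℤ),
      (∀ x, u (single x 1) = v (single x 1)) → ∀ z, u z = v z := fun u v e =>
    LinearMap.congr_fun (lhom_ext' fun x => LinearMap.ext_ring (e x))
  have st : ∀ q (s : C.X q → C.X (q + 1) →₀ ℤ), (∀ y, linearCombination ℤ (C.d q)
      (linearCombination ℤ s (C.d q y)) = C.d q y) → ∃ s' : C.X (q + 1) → C.X (q + 2) →₀ ℤ, ∀ y,
        linearCombination ℤ (C.d (q + 1)) (s' y) = single y 1 - linearCombination ℤ s (C.d q y) :=
    fun q s hs => Classical.skolem.1 fun y => C.ex q _ (by simp [hs])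
  have cn : ∀ q, ∃ s : C.X q → C.X (q + 1) →₀ ℤ, ∀ y, linearCombination ℤ (C.d q)
      (linearCombination ℤ s (C.d q y)) = C.d q y := fun q => by
    induction q with
    | zero =>
      choose s hs using fun x => C.ex0 (single x 1)
      exact ⟨s, fun y => ext (linearCombination ℤ (C.d 0) ∘ₗ linearCombination ℤ s) .id
        (fun x => by simp [hs]) _⟩
    | succ q ih =>
      obtain ⟨s, hs⟩ := ih
      obtain ⟨s', hs'⟩ := st q s hs
      refine ⟨s', fun y => (ext (linearCombination ℤ (C.d (q + 1)) ∘ₗ linearCombination ℤ s')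
        (.id - linearCombination ℤ s ∘ₗ linearCombination ℤ (C.d q))
        (fun x => by simp [hs']) _).trans ?_⟩
      simp [C.dd]
  have key : ∀ k q, q + k = C.D → PD (ZG G) k (LinearMap.range (cfL M (C.d q) (eqv q))) := by
    intro k
    induction k with
    | zero =>
      rintro _ rfl
      have := C.emp
      have : Subsingleton (Pm G (C.X (C.D + 1)) M) := inferInstanceAs (Subsingleton (_ →₀ M))
      have := (cfL M (C.d C.D) (eqv _)).surjective_rangeRestrict.subsingleton
      exact pd_zero.2 inferInstance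
    | succ k ih =>
      intro q e
      obtain ⟨s, hs⟩ := cn q
      obtain ⟨s', hs'⟩ := st q s hs
      refine (pd_ses (LinearMap.range (cfL M (C.d (q + 1)) (eqv _))).subtype _ Subtype.val_injective
        (fun z => ⟨fun hz => ⟨⟨z, cf G M s' z, ?_⟩, rfl⟩, ?_⟩)
        (cfL M (C.d q) (eqv q)).surjective_rangeRestrict (pm_prj (h q))).2 (ih _ (by omega))
      · have := DFunLike.congr_fun (pm_ext (u := (cf G M (C.d (q + 1))).comp (cf G M s'))
          (v := AddMonoidHom.id _ - (cf G M s).comp (cf G M (C.d q))) fun x m => by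
            simp [cf_sg, cf_tw, hs', tw_single]) z
        rw [AddMonoidHom.sub_apply, AddMonoidHom.comp_apply (cf G M s),
          show cf G M (C.d q) z = 0 from congrArg Subtype.val hz, map_zero, sub_zero] at this
        exact this
      · rintro ⟨⟨_, w, rfl⟩, rfl⟩
        exact Subtype.ext (DFunLike.congr_fun (pm_ext
          (u := (cf G M (C.d q)).comp (cf G M (C.d (q + 1)))) (v := 0) fun x m => by
            simp [cf_sg, cf_tw, C.dd]) w)
  obtain ⟨w, hw⟩ := C.ex0 (single C.o 1)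
  exact (key _ 0 (zero_add _)).ret ((mkL (sg G C.o) fun g m => by
    rw [gs_sg, C.uniq (g • C.o)]).codRestrict _ fun m => ⟨tw G m w, (cf_tw ..).trans (by
      rw [hw, tw_single]
      rfl)⟩) (aug _ ∘ₗ Submodule.subtype _) fun m => lf_sg (G := G) _ C.o m

theorem gd_step (C : GC Q) (φ : G →* Q) (h : ∀ (L : Type) [Group L] (f : L →* G), Injective f →
    Finite (φ.comp f).range → ∃ d, GD L d) : ∃ d, GD G d := by
  let _ := fun q => MulAction.compHom (C.X q) φ
  obtain ⟨d, hd⟩ := h _ φ.ker.subtype Subtype.val_injective (@Finite.of_subsingleton _ ⟨by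
    rintro ⟨_, x, rfl⟩ ⟨_, y, rfl⟩
    exact Subtype.ext (x.2.trans y.2.symm)⟩)
  have key : ∀ d (M : Type) [AddCommGroup M] [Module (ZG G) M], (∀ q (x : C.X (q + 1)),
      PD (ZG (MulAction.stabilizer G x)) d (Rs (MulAction.stabilizer G x).subtype M)) →
      PD (ZG G) (C.D + d) M := fun d => by
    induction d with
    | zero => exact fun M _ _ k => pd_gc C (fun q g => C.eqv q (φ g)) fun q x => pd_zero.1 (k q x)
    | succ d ih =>
      intro M _ _ k
      have s := linearCombination_surjective (ZG G) (surjective_id (α := M))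
      exact (pd_ker _ s inferInstance).2
        (ih _ fun q x => (rs_ses _ Subtype.val_injective _ s inferInstance).1 (k q x))
  refine ⟨_, fun M _ _ => key d M fun q x => ?_⟩
  have : Finite (φ.comp (MulAction.stabilizer G x).subtype).range :=
    (C.fin q x).subset (by rintro _ ⟨g, rfl⟩; exact g.2)
  obtain ⟨n, hn⟩ := h _ _ Subtype.val_injective this
  have l : φ.ker ≤ MulAction.stabilizer G x := fun g hg => by
    change φ g • x = x
    rw [show φ g = 1 from hg, one_smul]
  have : (Subgroup.inclusion l).range.FiniteIndex := Subgroup.finiteIndex_of_le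
    (H := (φ.comp (MulAction.stabilizer G x).subtype).ker) fun g hg => ⟨⟨g, hg⟩, rfl⟩
  exact serre _ (Subgroup.inclusion_injective l) d n _ (hn _) (hd _)

theorem gd_of_pz (n : ℕ) : ∀ (G : Type) [Group G], (∀ g : G, IsOfFinOrder g → g = 1) → PZ n G →
    ∃ d, GD G d := by
  induction n with
  | zero =>
    intro G _ tf h
    have : Finite G := h
    have : Subsingleton G := ⟨fun a b =>
      (tf a (isOfFinOrder_of_finite a)).trans (tf b (isOfFinOrder_of_finite b)).symm⟩
    exact ⟨1, gd_triv⟩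
  | succ n ih =>
    rintro G _ tf ⟨Q, _, φ, r, h1, h2⟩
    obtain ⟨C⟩ := gc_of_vz h1
    exact gd_step C φ fun L _ f hf k => ih L (fun g e => hf ((tf _ (f.isOfFinOrder e)).trans
      (map_one f).symm)) (h2 L f hf k)

end Pool.Agent.Work.MP_9d1ffa_al.WL.E
end

-- merged part: Pool.Agent.Work.MP_9d1ffa_al.WL.Et
section
/-! Whitehead groups of torsion free virtually solvable linear groups. -/

namespace Pool.Agent.Work.MP_9d1ffa_al.WL

open Function Matrix VN

variable {G H Q K : Type} [Group G] [Group H] [Group Q] [Group K]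

theorem k0_of_sfi (h : SFI (ZG G)) : K0Zero G := fun M _ _ _ _ => by
  obtain ⟨k, f, hf⟩ := Module.Finite.exists_fin' (ZG G) M
  obtain ⟨s, hs⟩ := Module.projective_lifting_property f LinearMap.id hf
  have fs : ∀ m, f (s m) = m := LinearMap.congr_fun hs
  obtain ⟨E, hE⟩ := SF_mat (s ∘ₗ f)
  obtain ⟨a, _, _, b, _, _, U, W, h1, h2⟩ := h _ E (SF_ext fun x => by
    rw [← vecMul_vecMul, hE, hE]
    exact congrArg s (fs _))
  let j : (M × (a → ZG G)) →ₗ[ZG G] (Fin k ⊕ a → ZG G) :=
    (LinearEquiv.sumArrowLequivProdArrow _ _ _ _).symm.toLinearMap ∘ₗ s.prodMap .id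
  let p : (Fin k ⊕ a → ZG G) →ₗ[ZG G] (M × (a → ZG G)) :=
    f.prodMap .id ∘ₗ (LinearEquiv.sumArrowLequivProdArrow _ _ _ _).toLinearMap
  have pj : ∀ x, p (j x) = x := fun x => Prod.ext (fs x.1) rfl
  have jp : ∀ v, j (p v) = v ᵥ* (W * U) := fun v => by
    rw [h2, vecMul_fromBlocks, hE, vecMul_zero, vecMul_zero, vecMul_one, add_zero, zero_add]
    funext i
    cases i <;> rfl
  have : Module.Free (ZG G) (M × (a → ZG G)) := .of_equiv (LinearEquiv.ofLinearMap
    (p ∘ₗ U.vecMulLinear) (W.vecMulLinear ∘ₗ j) (LinearMap.ext fun x => by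
      change p (j x ᵥ* W ᵥ* U) = x
      rw [vecMul_vecMul, ← jp, pj, pj]) (LinearMap.ext fun z => by
      change j (p (z ᵥ* U)) ᵥ* W = z
      rw [jp, vecMul_vecMul, vecMul_vecMul, Matrix.mul_assoc, h1, Matrix.mul_one, h1, vecMul_one]))
  exact .of_free_prod _ M (a → ZG G)

theorem k0_of_whk (h : WhK G) (hK : FA K) : K0Zero (G × K) := k0_of_sfi (h.sfi hK)

theorem fpr_of_pd [IsNoetherianRing (ZG G)] (n : ℕ) : ∀ (M : Type) [AddCommGroup M]
    [Module (ZG G) M], Module.Finite (ZG G) M → E.PD (ZG G) n M → FPR (ZG G) n M := by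
  induction n with
  | zero => exact fun M _ _ h h' => ⟨h, E.pd_zero.1 h'⟩
  | succ n ih =>
    intro M _ _ _ h
    obtain ⟨k, f, hf⟩ := Module.Finite.exists_fin' (ZG G) M
    exact ⟨_, _, _, f, inferInstance, inferInstance, hf,
      ih _ inferInstance ((E.pd_ker f hf inferInstance).1 h)⟩

theorem coh_of_pz {n : ℕ} (tf : TF G) (h : PZ n G) (k : SFI (ZG G)) : Coh (ZG G) := by
  have := no_of_pz n G h
  obtain ⟨d, hd⟩ := E.gd_of_pz n G tf h
  exact coh_of_rc (fun M _ _ _ => ⟨d, fpr_of_pd d M inferInstance (hd M)⟩) (k0_of_sfi k)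

theorem whk_iso (G H : Type) [Group G] [Group H] (e : G ≃* H) (h : WhK G) : WhK H :=
  closed_whK.ret H G e.symm.toMonoidHom e.toMonoidHom e.apply_symm_apply h

theorem PZ.prod {n : ℕ} (h : PZ n G) (hK : FA K) : PZ (n + 1) (G × K) := by
  have tf := hK.tf
  obtain ⟨r, ⟨e⟩⟩ := hK
  refine ⟨K, inferInstance, MonoidHom.snd G K, r, ⟨⊤, e.toMonoidHom.comp (Subgroup.subtype _),
    inferInstance, inferInstance, e.injective.comp Subtype.val_injective⟩, fun L _ f hf _ =>
      h.inj ((MonoidHom.fst G K).comp f) ((injective_iff_map_eq_one _).2 fun x hx => hf ?_)⟩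
  rw [map_one]
  exact Prod.ext hx (tf _ ((Subgroup.subtype _).isOfFinOrder
    (isOfFinOrder_of_finite (((MonoidHom.snd G K).comp f).rangeRestrict x))))

/-- what the induction carries -/
def WC (G : Type) [Group G] : Prop :=
  WhK G ∧ ∀ (K : Type) [Group K], FA K → Coh (ZG (G × K))

theorem whk_cyc (ψ : G →* Multiplicative ℤ) (h : WC ψ.ker) : WhK G := by
  cases finite_or_infinite ψ.range with
  | inl _ =>
    exact whk_iso _ _ ((MulEquiv.subgroupCongr (top_unique fun g _ =>
      ((Subgroup.subtype _).isOfFinOrder (isOfFinOrder_of_finite (ψ.rangeRestrict g))).eq_one')).trans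
        Subgroup.topEquiv) h.1
  | inr _ =>
    intro K _ hK
    let χ := (intCyclicMulEquiv (G := ψ.range)).symm.toMonoidHom.comp
      (ψ.rangeRestrict.comp (MonoidHom.fst G K))
    have m : ∀ x, x ∈ χ.ker ↔ x.1 ∈ ψ.ker := fun x =>
      (intCyclicMulEquiv (G := ψ.range)).symm.map_eq_one_iff (x := ψ.rangeRestrict x.1) |>.trans
        Subtype.ext_iff
    let e : χ.ker ≃* ψ.ker × K :=
      { toFun := fun x => (⟨x.1.1, (m _).1 x.2⟩, x.1.2)
        invFun := fun x => ⟨(x.1, x.2), (m _).2 x.1.2⟩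
        map_mul' := fun _ _ => rfl }
    have c := rc_of_coh (coh_of_lcl (D := χ.ker) fun T => ⟨_, inferInstance, e.symm.toMonoidHom,
      e.symm.injective, fun g _ => ⟨e g, e.symm_apply_apply g⟩, h.2 K hK⟩)
    have cap : ∀ S : Finset (G × K), S.Nonempty → RC (CapT χ.ker S) := fun S ⟨g, hg⟩ => by
      have : CapT χ.ker S = χ.ker := by
        simp only [CapT, show ∀ g, χ.ker.map (MulAut.conj g).toMonoidHom = χ.ker from fun g =>
          Subgroup.Normal.conj_smul_eq_self g χ.ker]
        exact biInf_const ⟨g, hg⟩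
      rw [this]
      exact c.1
    refine (cyc_main (F := {χ.ker}) χ ((intCyclicMulEquiv (G := ψ.range)).symm.surjective.comp
      (ψ.rangeRestrict_surjective.comp Prod.fst_surjective)) c.2 {χ.ker} (fun _ e => e.le)
      (fun _ k => ⟨_, rfl, k⟩) (fun _ e S k _ _ => ⟨0, e ▸ cap _ k⟩) ⟨_, rfl, le_rfl⟩
      fun _ e S k _ _ _ n => (n (e ▸ cap _ k)).elim).wh0 ?_
    rintro _ rfl
    exact Wh0.equiv (h.1 K hK) e

theorem whk_step (hA : ThmA WhK) (φ : G →* Q) {r : ℕ} (hQ : VZ r Q)
    (h : ∀ (L : Type) [Group L] (f : L →* G), Injective f → Finite (φ.comp f).range → WC L) :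
    WhK G :=
  rl_vz hA whk_iso hQ G φ fun L ⟨χ, _⟩ => whk_cyc (χ.comp (φ.subgroupMap L))
    (h _ (L.subtype.comp (Subgroup.subtype _)) (Subtype.val_injective.comp Subtype.val_injective)
      ((Set.finite_range fun x : χ.ker => (x.1 : Q)).subset (by
        rintro _ ⟨x, rfl⟩
        exact ⟨⟨_, x.2⟩, rfl⟩)))

theorem TF.inj (h : TF G) (f : H →* G) (hf : Injective f) : TF H := fun g e =>
  hf ((h _ (f.isOfFinOrder e)).trans (map_one f).symm)

theorem wc_of_pz (hA : ThmA WhK) (n : ℕ) : ∀ (G : Type) [Group G], TF G → PZ n G → WC G := by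
  have k : ∀ n (G : Type) [Group G], TF G → PZ n G → WhK G → WC G := fun n G _ tf h w =>
    ⟨w, fun K _ hK => coh_of_pz (tf.prod hK.tf) (h.prod hK) (w.sfi hK)⟩
  induction n with
  | zero =>
    intro G _ tf h
    have : Finite G := h
    have : Subsingleton G := ⟨fun a b =>
      (tf a (isOfFinOrder_of_finite a)).trans (tf b (isOfFinOrder_of_finite b)).symm⟩
    exact k 0 G tf h (closed_whK.triv G)
  | succ n ih =>
    intro G _ tf h
    refine k _ G tf h ?_
    obtain ⟨Q, _, φ, r, h1, h2⟩ := h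
    exact whk_step hA φ h1 fun L _ f hf e => ih L (TF.inj tf f hf) (h2 L f hf e)

theorem nil_inj [Group.IsNilpotent G] (f : H →* G) (hf : Injective f) : Group.IsNilpotent H :=
  Group.nilpotent_of_mulEquiv (MonoidHom.ofInjective hf).symm

theorem wc_of_vnil (hA : ThmA WhK) (tf : TF G) (U : Subgroup G) [U.FiniteIndex]
    [Group.IsNilpotent U] : WC G := by
  have h : Lcl WC G := fun T => by
    let N := Subgroup.closure (T : Set G)
    have : Group.FG N := (Group.fg_iff_subgroup_fg N).2 ⟨T, rfl⟩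
    have : Group.IsNilpotent (U.subgroupOf N) := nil_inj (G := U) (N.subtype.subgroupComap U)
      fun _ _ e => Subtype.ext (Subtype.ext (congrArg (fun x : U => x.1) e))
    obtain ⟨n, hn⟩ := pz_of_vnil (U.subgroupOf N)
    exact ⟨N, inferInstance, N.subtype, N.subtype_injective, fun g hg =>
      ⟨⟨g, Subgroup.subset_closure hg⟩, rfl⟩, wc_of_pz hA n N (TF.inj tf _ N.subtype_injective) hn⟩
  exact ⟨closed_whK.lcl G (h.mono fun _ _ k => k.1),
    fun K _ hK => coh_of_lcl (Lcl.prod (h.mono fun _ _ k => k.2 K hK))⟩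

theorem whk_of_na (hA : ThmA WhK) (L : Type) [Group L] (tf : ∀ g : L, IsOfFinOrder g → g = 1)
    (H₀ : Subgroup L) [H₀.Normal] [H₀.FiniteIndex]
    (hn : Group.IsNilpotent (⁅H₀, H₀⁆ : Subgroup L)) : WhK L := closed_whK.lcl L fun T => by
  let N := Subgroup.closure (T : Set L)
  have : Group.FG N := (Group.fg_iff_subgroup_fg N).2 ⟨T, rfl⟩
  let φ := (QuotientGroup.mk' ⁅H₀, H₀⁆).comp N.subtype
  have : ((H₀.subgroupOf N).map φ.rangeRestrict).FiniteIndex := ⟨ne_zero_of_dvd_ne_zero
    Subgroup.FiniteIndex.index_ne_zero (Subgroup.index_map_dvd _ φ.rangeRestrict_surjective)⟩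
  obtain ⟨r, hr⟩ := vz_of_comm ((H₀.subgroupOf N).map φ.rangeRestrict) (by
    rintro _ ⟨a, ha, rfl⟩ _ ⟨b, hb, rfl⟩
    refine Subtype.ext (commutatorElement_eq_one_iff_mul_comm.1 ?_)
    exact (map_commutatorElement φ a b).symm.trans
      ((QuotientGroup.eq_one_iff _).2 (Subgroup.commutator_mem_commutator ha hb)))
  refine ⟨N, inferInstance, N.subtype, N.subtype_injective, fun g hg =>
    ⟨⟨g, Subgroup.subset_closure hg⟩, rfl⟩, whk_step hA φ.rangeRestrict hr fun L' _ f hf _ => ?_⟩
  have := nil_inj (G := (⁅H₀, H₀⁆ : Subgroup L)) (((N.subtype.comp f).comp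
    (φ.rangeRestrict.comp f).ker.subtype).codRestrict _ fun x =>
      (QuotientGroup.eq_one_iff _).1 (congrArg Subtype.val x.2)) fun _ _ e =>
        Subtype.ext (hf (Subtype.ext (congrArg (fun x : (⁅H₀, H₀⁆ : Subgroup L) => x.1) e)))
  exact wc_of_vnil hA (TF.inj tf (N.subtype.comp f) (N.subtype_injective.comp hf))
    (φ.rangeRestrict.comp f).ker

theorem thmE (hA : ThmA WhK) : ThmE WhK := fun _ _ _ _ L _ ρ hρ tf ⟨H, _, hs, _⟩ =>
  let ⟨H₀, _, _, hn⟩ := malcev ρ hρ H hs
  whk_of_na hA L tf H₀ hn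

end Pool.Agent.Work.MP_9d1ffa_al.WL
end
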