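import Pool.Agent.Work.MP_9d1ffa_al.WL.En
import Pool.Agent.Work.MP_9d1ffa_al.Br.KTop

-- merged part: Pool.Agent.Work.MP_9d1ffa_al.WL.ToA
section
/-! The torsion of a contractible based complex. -/

namespace Pool.Agent.Work.MP_9d1ffa_al.WL.A2

open Matrix

section Ring

variable {A : Type} [Ring A]

/-- the part over the idempotent `P`, extended by the identity -/
def rs (P Y : A) : A := P * Y + (1 - P)

theorem rs_mul {P X : A} (hP : P * P = P) (hX : P * X = X * P) (Y : A) :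
    rs P X * rs P Y = rs P (X * Y) := by
  have e1 : P * X * P = P * X := by rw [mul_assoc, ← hX, ← mul_assoc, hP]
  have e2 : ∀ Z, P * (P * Z) = P * Z := fun Z => by rw [← mul_assoc, hP]
  simp only [rs, add_mul, mul_add, sub_mul, mul_sub, one_mul, mul_one, hP, e1, e2]
  rw [← mul_assoc, e1, mul_assoc]
  abel

theorem rs_one (P : A) : rs P 1 = 1 := by simp [rs]

theorem rs_add (P Y : A) : rs P (1 + Y) = 1 + P * Y := by
  rw [rs, mul_add, mul_one]
  abel

theorem odd_mul {P X Y : A} (hX : P * X = X * (1 - P)) (hY : P * Y = Y * (1 - P)) :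
    P * (X * Y) = X * Y * P := by
  rw [← mul_assoc, hX, mul_assoc, sub_mul, hY, mul_assoc]
  congr 1
  noncomm_ring

theorem odd_inv {P X Y : A} (hX : P * X = X * (1 - P)) (h1 : X * Y = 1) (h2 : Y * X = 1) :
    P * Y = Y * (1 - P) := by
  have e : X * P = (1 - P) * X := by
    rw [sub_mul, hX]
    noncomm_ring
  calc P * Y = Y * X * P * Y := by rw [h2, one_mul]
    _ = Y * (1 - P) * (X * Y) := by rw [mul_assoc Y, e]; noncomm_ring
    _ = _ := by rw [h1, mul_one]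

theorem sq_inv {D Γ : A} {n : ℕ} (hD : D * D = 0) (h : D * Γ + Γ * D = 1)
    (hn : (-(Γ * Γ)) ^ n = 0) :
    (D + Γ) * ((D + Γ) * ∑ i ∈ Finset.range n, (-(Γ * Γ)) ^ i) = 1 ∧
      ((D + Γ) * ∑ i ∈ Finset.range n, (-(Γ * Γ)) ^ i) * (D + Γ) = 1 := by
  have e : (D + Γ) * (D + Γ) = 1 - -(Γ * Γ) := by
    rw [← h, add_mul, mul_add, mul_add, hD]
    abel
  have h1 := mul_neg_geom_sum (-(Γ * Γ)) n
  have h2 := geom_sum_mul_neg (-(Γ * Γ)) n
  rw [hn, sub_zero, ← e] at h1 h2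
  generalize ∑ i ∈ Finset.range n, (-(Γ * Γ)) ^ i = W at h1 h2
  generalize D + Γ = X at h1 h2
  rw [mul_assoc] at h1
  rw [← mul_assoc] at h2
  refine ⟨h1, ?_⟩
  rwa [← left_inv_eq_right_inv h2 h1]

end Ring

variable {G : Type} [Group G] {ι κ : Type} [Fintype ι] [DecidableEq ι] [Fintype κ] [DecidableEq κ]

/-- homogeneous matrices -/
def Deg (c : ι → ℕ) (r : ℤ) (X : Matrix ι ι (ZG G)) : Prop :=
  ∀ a b, X a b ≠ 0 → (c a : ℤ) = c b + r

variable {c : ι → ℕ} {r s : ℤ} {X Y : Matrix ι ι (ZG G)}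

omit [Fintype ι] [DecidableEq ι] in
theorem Deg.zero : Deg c r (0 : Matrix ι ι (ZG G)) := fun _ _ h => (h rfl).elim

omit [Fintype ι] in
theorem Deg.one : Deg c 0 (1 : Matrix ι ι (ZG G)) := fun a b h => by
  by_cases e : a = b
  · simp [e]
  · exact (h (one_apply_ne e)).elim

omit [Fintype ι] [DecidableEq ι] in
theorem Deg.add (hX : Deg c r X) (hY : Deg c r Y) : Deg c r (X + Y) := fun a b h => by
  by_cases e : X a b = 0
  · exact hY a b (by simpa [e] using h)
  · exact hX a b e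

omit [Fintype ι] [DecidableEq ι] in
theorem Deg.neg (hX : Deg c r X) : Deg c r (-X) := fun a b h => hX a b (by simpa using h)

omit [Fintype ι] [DecidableEq ι] in
theorem Deg.sub (hX : Deg c r X) (hY : Deg c r Y) : Deg c r (X - Y) := by
  rw [sub_eq_add_neg]
  exact hX.add hY.neg

omit [DecidableEq ι] in
theorem Deg.mul (hX : Deg c r X) (hY : Deg c s Y) {t : ℤ} (e : t = r + s) : Deg c t (X * Y) :=
  fun a b h => by
    obtain ⟨k, -, hk⟩ := Finset.exists_ne_zero_of_sum_ne_zero (h : ∑ k, X a k * Y k b ≠ 0)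
    have h1 := hX a k (left_ne_zero_of_mul hk)
    have h2 := hY k b (right_ne_zero_of_mul hk)
    omega

theorem Deg.pow (hX : Deg c r X) (n : ℕ) : Deg c (n * r) (X ^ n) := by
  induction n with
  | zero => simpa using Deg.one
  | succ n ih =>
    rw [pow_succ]
    exact ih.mul hX (by push_cast; ring)

theorem Deg.nil {N : ℕ} (hc : ∀ a, c a ≤ N) (hX : Deg c 2 X) : X ^ (N + 1) = 0 := by
  ext1 a b
  by_contra h
  have h1 := hX.pow (N + 1) a b h
  have h2 := hc a
  push_cast at h1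
  omega

/-- the projection onto the even part -/
noncomputable def ev (G : Type) [Group G] (c : ι → ℕ) : Matrix ι ι (ZG G) :=
  diagonal fun a => if c a % 2 = 0 then 1 else 0

theorem ev_ev : ev G c * ev G c = ev G c := by
  rw [ev, diagonal_mul_diagonal]
  congr 1
  funext a
  split_ifs <;> simp

omit [Fintype ι] in
theorem one_sub_ev : 1 - ev G c = diagonal fun a => if c a % 2 = 0 then 0 else 1 := by
  rw [ev, ← diagonal_one, diagonal_sub]
  congr 1
  funext a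
  split_ifs <;> simp

theorem ev_even (h : ∀ a b, X a b ≠ 0 → c a % 2 = c b % 2) : ev G c * X = X * ev G c := by
  ext1 a b
  rw [ev, diagonal_mul, mul_diagonal]
  by_cases e : X a b = 0
  · simp [e]
  · rw [h a b e]
    split_ifs <;> simp

theorem ev_odd (h : ∀ a b, X a b ≠ 0 → c a % 2 ≠ c b % 2) : ev G c * X = X * (1 - ev G c) := by
  ext1 a b
  rw [one_sub_ev, ev, diagonal_mul, mul_diagonal]
  by_cases e : X a b = 0
  · simp [e]
  · have := h a b e
    split_ifs <;> first | omega | simp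

theorem Deg.ev0 (h : Deg c 0 X) : ev G c * X = X * ev G c :=
  ev_even fun a b e => by have := h a b e; omega

theorem ev_ne {a b : ι} (h : (ev G c * X) a b ≠ 0) : X a b ≠ 0 := by
  rw [ev, diagonal_mul] at h
  exact right_ne_zero_of_mul h

omit [Fintype ι] in
theorem deg_ev : Deg c 0 (ev G c) := fun a b h => by
  by_cases e : a = b
  · simp [e]
  · exact (h (diagonal_apply_ne _ e)).elim

theorem odd_add {D Γ : Matrix ι ι (ZG G)} (hD : Deg c (-1) D) (hΓ : Deg c 1 Γ) :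
    ev G c * (D + Γ) = (D + Γ) * (1 - ev G c) := by
  rw [mul_add, add_mul, ev_odd fun a b e => by have := hD a b e; omega,
    ev_odd fun a b e => by have := hΓ a b e; omega]

theorem triv_rs (h : ι → ℕ) (hX : ∀ a b, X a b ≠ 0 → h a < h b) :
    Triv ∅ (rs (ev G c) (1 + X)) := by
  rw [rs_add]
  exact triv_tri h _ fun a b e => hX a b (ev_ne e)

/-- the torsion does not depend on the contraction -/
theorem triv_contr {N : ℕ} (hc : ∀ a, c a ≤ N) {D Γ Γ' σ : Matrix ι ι (ZG G)} (hDD : D * D = 0)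
    (h : D * Γ + Γ * D = 1) (h' : D * Γ' + Γ' * D = 1) (hD : Deg c (-1) D) (hΓ : Deg c 1 Γ)
    (hΓ' : Deg c 1 Γ') (hσ : σ * σ = 1) (hP : ev G c * σ = σ * (1 - ev G c))
    (hT : Triv ∅ (rs (ev G c) ((D + Γ) * σ))) : Triv ∅ (rs (ev G c) (σ * (D + Γ'))) := by
  refine hT.of_mul_left ?_
  have a1 : D * Γ = 1 - Γ * D := eq_sub_of_add_eq h
  have a2 : D * Γ' = 1 - Γ' * D := eq_sub_of_add_eq h'
  have a3 : D * ((Γ - Γ') * D) = 0 := by
    rw [← mul_assoc, mul_sub, a1, a2, sub_mul, sub_mul, sub_mul, mul_assoc, mul_assoc, hDD]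
    simp
  have hx : Deg c 0 ((Γ - Γ') * D) := (hΓ.sub hΓ').mul hD (by norm_num)
  have a4 : (Γ - Γ') * D * (Γ * D) = (Γ - Γ') * D := by
    rw [mul_assoc, ← mul_assoc D, a1, sub_mul 1, mul_assoc, hDD, mul_zero, sub_zero, one_mul]
  have a5 : (Γ - Γ') * D * ((Γ - Γ') * D) = 0 := by rw [mul_assoc, a3, mul_zero]
  have a6 : (D + Γ) * σ * (σ * (D + Γ')) = 1 + (Γ - Γ') * D + Γ * Γ' := by
    rw [mul_assoc, ← mul_assoc σ, hσ, one_mul, add_mul, mul_add, mul_add, hDD, a2, sub_mul]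
    abel
  have a7 : Γ * D * ((Γ - Γ') * D) = 0 := by rw [mul_assoc, a3, mul_zero]
  generalize (Γ - Γ') * D = x at hx a4 a5 a6 a7
  have a8 : 1 + x + Γ * Γ' = (1 + x) * (1 + (1 - x) * (Γ * Γ')) := by
    rw [mul_add, ← mul_assoc, mul_sub, mul_one, add_mul, a5]
    simp
  rw [rs_mul ev_ev (odd_mul (odd_add hD hΓ) hP), a6, a8, ← rs_mul ev_ev (Deg.one.add hx).ev0]
  refine Triv.mul ?_ (triv_rs (fun a => N - c a) fun a b e => ?_)
  · rw [rs_add, ← a4, ← mul_assoc]
    refine triv_swap _ _ ?_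
    rw [← mul_assoc, ← (hΓ.mul hD (by norm_num)).ev0, mul_assoc, a7, mul_zero, add_zero]
    exact triv_one
  · have h1 := (Deg.one.sub hx).mul (hΓ.mul hΓ' rfl) rfl a b e
    have h2 := hc a
    omega

/-! ### control -/

variable {Ω : Type} [MulAction G Ω] {p : ι → Ω → ℝ} {η η' : ℝ}

omit [Fintype ι] [DecidableEq ι] in
theorem ctl_mono (h : CtlM η p X) (e : η ≤ η') : CtlM η' p X :=
  fun a b g k ω => (h a b g k ω).trans e

omit [Fintype ι] [DecidableEq ι] in
theorem ctl_zero : CtlM η p (0 : Matrix ι ι (ZG G)) := fun _ _ _ k => (k rfl).elim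

omit [Fintype ι] [DecidableEq ι] in
theorem ctl_add (hX : CtlM η p X) (hY : CtlM η p Y) : CtlM η p (X + Y) := fun a b g k => by
  by_cases e : (X a b).coeff g = 0
  · exact hY a b g (by simpa [e] using k)
  · exact hX a b g e

omit [Fintype ι] [DecidableEq ι] in
theorem ctl_neg (hX : CtlM η p X) : CtlM η p (-X) := fun a b g k => hX a b g (by simpa using k)

omit [Fintype ι] [DecidableEq ι] in
theorem ctl_sub (hX : CtlM η p X) (hY : CtlM η p Y) : CtlM η p (X - Y) := by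
  rw [sub_eq_add_neg]
  exact ctl_add hX (ctl_neg hY)

omit [DecidableEq ι] in
theorem ctl_mul (hX : CtlM η p X) (hY : CtlM η' p Y) : CtlM (η + η') p (X * Y) :=
  fun a b g k ω => by
    simp only [Matrix.mul_apply, MonoidAlgebra.coeff_sum, Finsupp.finsetSum_apply] at k
    obtain ⟨j, -, k⟩ := Finset.exists_ne_zero_of_sum_ne_zero k
    obtain ⟨x, y, hx, hy, rfl⟩ := coeff_mul_ne k
    rw [mul_smul]
    exact (abs_sub_le _ _ _).trans (add_le_add (hX a j x hx _) (hY j b y hy _))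

theorem cl_one {g : G} {μ : Ω → ℝ} (h : 0 ≤ η) (k : (1 : ZG G).coeff g ≠ 0) : Cl η g μ μ := by
  have : g = 1 := by
    by_contra e
    exact k (by simp [MonoidAlgebra.one_def, Ne.symm e])
  intro ω
  simpa [this] using h

omit [Fintype ι] in
theorem ctl_diag (h : 0 ≤ η) (q : ι → Prop) [DecidablePred q] :
    CtlM η p (diagonal fun a => if q a then (1 : ZG G) else 0) := fun a b g k => by
  by_cases e : a = b
  · subst e
    rw [diagonal_apply_eq] at k
    split_ifs at k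
    · exact cl_one h k
    · exact (k rfl).elim
  · rw [diagonal_apply_ne _ e] at k
    exact (k rfl).elim

omit [Fintype ι] in
theorem ctl_one (h : 0 ≤ η) : CtlM η p (1 : Matrix ι ι (ZG G)) := by
  simpa using ctl_diag (G := G) (p := p) h fun _ => True

theorem ctl_rs (h : 0 ≤ η) (hX : CtlM η p X) : CtlM η p (rs (ev G c) X) := by
  have := ctl_mul (ctl_diag (p := p) le_rfl fun a => c a % 2 = 0) hX
  rw [zero_add] at this
  exact ctl_add this (ctl_sub (ctl_one h) (ctl_diag h _))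

theorem ctl_pow (hX : CtlM η p X) (n : ℕ) : CtlM (n * η) p (X ^ n) := by
  induction n with
  | zero => simpa using ctl_one le_rfl
  | succ n ih =>
    rw [pow_succ, Nat.cast_succ, add_mul, one_mul]
    exact ctl_mul ih hX

theorem ctl_geom (h : 0 ≤ η) (hX : CtlM η p X) (n : ℕ) :
    CtlM (n * η) p (∑ i ∈ Finset.range n, X ^ i) :=
  Finset.sum_induction _ (CtlM (n * η) p) (fun _ _ => ctl_add) ctl_zero fun i hi =>
    ctl_mono (ctl_pow hX i)
      (mul_le_mul_of_nonneg_right (Nat.cast_le.2 (Finset.mem_range.1 hi).le) h)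

/-- a controlled contraction gives a controlled automorphism -/
theorem ctl_contr {N : ℕ} (hc : ∀ a, c a ≤ N) {D Γ σ : Matrix ι ι (ZG G)} (hDD : D * D = 0)
    (h : D * Γ + Γ * D = 1) (hD : Deg c (-1) D) (hΓ : Deg c 1 Γ) (hσ : σ * σ = 1)
    (hP : ev G c * σ = σ * (1 - ev G c)) (h0 : 0 ≤ η) (cD : CtlM η p D) (cΓ : CtlM η p Γ)
    (cσ : CtlM 0 p σ) :
    ∃ A', (rs (ev G c) ((D + Γ) * σ) * A' = 1 ∧ A' * rs (ev G c) ((D + Γ) * σ) = 1) ∧
      CtlM ((2 * N + 3) * η) p (rs (ev G c) ((D + Γ) * σ)) ∧ CtlM ((2 * N + 3) * η) p A' := by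
  obtain ⟨e1, e2⟩ := sq_inv hDD h ((hΓ.mul hΓ (by norm_num)).neg.nil hc)
  have c1 := ctl_mul cσ (ctl_mul (ctl_add cD cΓ)
    (ctl_geom (add_nonneg h0 h0) (ctl_neg (ctl_mul cΓ cΓ)) (N + 1)))
  generalize (D + Γ) * ∑ i ∈ Finset.range (N + 1), (-(Γ * Γ)) ^ i = W at e1 e2 c1
  have hX := odd_add hD hΓ
  have hN : (0 : ℝ) ≤ N * η := mul_nonneg N.cast_nonneg h0
  have h1 : 0 ≤ (2 * N + 3) * η := by linarith
  refine ⟨rs (ev G c) (σ * W), ⟨?_, ?_⟩, ctl_rs h1 (ctl_mono (ctl_mul (ctl_add cD cΓ) cσ)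
    (by linarith)), ctl_rs h1 (ctl_mono c1 (by push_cast; linarith))⟩
  · rw [rs_mul ev_ev (odd_mul hX hP), mul_assoc, ← mul_assoc σ, hσ, one_mul, e1, rs_one]
  · rw [rs_mul ev_ev (odd_mul hP (odd_inv hX e1 e2)), mul_assoc, ← mul_assoc W, e2, one_mul, hσ,
      rs_one]

end Pool.Agent.Work.MP_9d1ffa_al.WL.A2
end

-- merged part: Pool.Agent.Work.MP_9d1ffa_al.WL.ToB
section
/-! The torsion of a mapping cone. -/

namespace Pool.Agent.Work.MP_9d1ffa_al.WL.A2

open Matrix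

variable {G : Type} [Group G] {ι : Type} [Fintype ι] [DecidableEq ι] {c : ι → ℕ}

/-- the degree in the cone -/
def cc (c : ι → ℕ) : ι ⊕ ι → ℕ := Sum.elim c fun a => c a + 1

omit [Fintype ι] [DecidableEq ι] in
theorem deg_blk {r s t : ℤ} {X Y Z W : Matrix ι ι (ZG G)} (hX : Deg c r X) (hY : Deg c s Y)
    (hZ : Deg c t Z) (hW : Deg c r W) (e : s = r + 1) (e' : t = r - 1) :
    Deg (cc c) r (fromBlocks X Y Z W) := by
  rintro (a | a) (b | b) h
  · exact hX a b h
  · have := hY a b h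
    simp only [cc, Sum.elim_inl, Sum.elim_inr]
    omega
  · have := hZ a b h
    simp only [cc, Sum.elim_inl, Sum.elim_inr]
    omega
  · have := hW a b h
    simp only [cc, Sum.elim_inr]
    omega

omit [Fintype ι] [DecidableEq ι] in
theorem ctl_blk {Ω : Type} [MulAction G Ω] {p : ι → Ω → ℝ} {η : ℝ} {X Y Z W : Matrix ι ι (ZG G)}
    (hX : CtlM η p X) (hY : CtlM η p Y) (hZ : CtlM η p Z) (hW : CtlM η p W) :
    CtlM η (Sum.elim p p) (fromBlocks X Y Z W) := by
  rintro (a | a) (b | b) g h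
  exacts [hX a b g h, hY a b g h, hZ a b g h, hW a b g h]

/-- the exchange of the two copies -/
noncomputable def sw (G ι : Type) [Group G] [DecidableEq ι] : Matrix (ι ⊕ ι) (ι ⊕ ι) (ZG G) :=
  fromBlocks 0 1 1 0

theorem sw_sw : sw G ι * sw G ι = 1 := by simp [sw, fromBlocks_multiply]

theorem ev_sw : ev G (cc c) * sw G ι = sw G ι * (1 - ev G (cc c)) := by
  refine ev_odd ?_
  rintro (a | a) (b | b) h
  · exact (h rfl).elim
  · have := Deg.one (c := c) a b h
    simp only [cc, Sum.elim_inl, Sum.elim_inr]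
    omega
  · have := Deg.one (c := c) a b h
    simp only [cc, Sum.elim_inl, Sum.elim_inr]
    omega
  · exact (h rfl).elim

omit [Fintype ι] in
theorem ev_cc : ev G (cc c) = fromBlocks (ev G c) 0 0 (1 - ev G c) := by
  rw [one_sub_ev, ev, ev, fromBlocks_diagonal]
  congr 1
  funext a
  rcases a with a | a
  · rfl
  · simp only [cc, Sum.elim_inr]
    split_ifs <;> first | omega | rfl

theorem fix_contr {A : Type} [Ring A] {D Γ n : A} (dd : D * D = 0) (e : D * Γ + Γ * D = 1 + n)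
    (nn : n * n = 0) : D * (Γ * (1 - n)) + Γ * (1 - n) * D = 1 := by
  have a : n * D = D * n := by
    rw [← add_right_inj D, ← mul_one_add, ← one_add_mul, ← e, add_mul, mul_add, mul_assoc Γ,
      ← mul_assoc D D, dd, mul_assoc, zero_mul, mul_zero, add_zero, zero_add]
  have b : (1 - n) * D = D * (1 - n) := by rw [sub_mul, mul_sub, a, one_mul, mul_one]
  rw [mul_assoc, b, ← mul_assoc, ← mul_assoc, ← add_mul, e, mul_sub, add_mul 1 n n, nn]
  simp

theorem conj_contr {A : Type} [Ring A] {D Γ U V : A} (e : D * Γ + Γ * D = 1) (h : U * V = 1)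
    (h' : V * U = 1) : V * D * U * (V * Γ * U) + V * Γ * U * (V * D * U) = 1 := by
  have a : ∀ X Y : A, V * X * U * (V * Y * U) = V * (X * Y) * U := fun X Y => by
    simp only [mul_assoc]
    rw [← mul_assoc U, h, one_mul]
  rw [a, a, ← add_mul, ← mul_add, e, mul_one, h']

/-- concentrated in degree zero -/
def Bot (c : ι → ℕ) (z : Matrix ι ι (ZG G)) : Prop := ∀ a b, z a b ≠ 0 → c a = 0 ∧ c b = 0

omit [Fintype ι] [DecidableEq ι] in
theorem Bot.deg {z : Matrix ι ι (ZG G)} (h : Bot c z) : Deg c 0 z := fun a b e => by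
  have := h a b e
  omega

theorem Bot.ev {z : Matrix ι ι (ZG G)} (h : Bot c z) : ev G c * z = z := by
  ext1 a b
  rw [A2.ev, diagonal_mul]
  by_cases e : z a b = 0
  · simp [e]
  · simp [(h a b e).1]

/-- the cone of an automorphism that differs from the identity only in degree zero -/
theorem triv_bot {d z z' : Matrix ι ι (ZG G)} (hd : Deg c (-1) d) (hz : Bot c z) (hz' : Bot c z')
    (e : z' * d = 0)
    (h : Triv ∅ (rs (ev G (cc c)) (sw G ι * fromBlocks d (1 + z) (1 + z') (-d)))) :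
    Triv ∅ (1 + z') := by
  have a1 : z' * (ev G c * d) = 0 := by rw [← mul_assoc, ← hz'.deg.ev0, hz'.ev, e]
  have a : rs (ev G (cc c)) (sw G ι * fromBlocks d (1 + z) (1 + z') (-d)) =
      fromBlocks (1 + z') 0 0 1 * (1 + fromBlocks 0 (-(ev G c * d)) ((1 - ev G c) * d) 0) := by
    rw [rs, ev_cc, sw, ← fromBlocks_one, sub_eq_add_neg (fromBlocks _ _ _ _), fromBlocks_neg]
    simp only [fromBlocks_multiply, fromBlocks_add, fromBlocks_inj, Matrix.zero_mul,
      Matrix.one_mul, Matrix.mul_one, zero_add, add_zero, mul_add, add_mul,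
      sub_mul, hz.ev, hz'.ev, mul_neg, a1, neg_zero]
    refine ⟨by abel, trivial, trivial, by abel⟩
  rw [a] at h
  refine (triv_block_iff (κ := ι)).1 (Triv.of_mul_right (triv_tri (Sum.elim c c) _ ?_) h)
  rintro (a | a) (b | b) k
  · exact (k rfl).elim
  · have := (deg_ev.mul hd rfl).neg a b k
    simp only [Sum.elim_inl, Sum.elim_inr]
    omega
  · have := ((Deg.one.sub deg_ev).mul hd rfl) a b k
    simp only [Sum.elim_inl, Sum.elim_inr]
    omega
  · exact (k rfl).elim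

/-- homotopic maps have cones with the same torsion -/
theorem triv_conj {j : Matrix ι ι (ZG G)} (hj : Deg c 1 j) {X : Matrix (ι ⊕ ι) (ι ⊕ ι) (ZG G)}
    (hX : ev G (cc c) * X = X * (1 - ev G (cc c)))
    (h : Triv ∅ (rs (ev G (cc c))
      (sw G ι * (fromBlocks 1 (-j) 0 1 * X * fromBlocks 1 j 0 1)))) :
    Triv ∅ (rs (ev G (cc c)) (sw G ι * X)) := by
  have a1 : sw G ι * (fromBlocks 1 (-j) 0 1 * X * fromBlocks 1 j 0 1) =
      (1 + fromBlocks 0 0 (-j) 0) * (sw G ι * X * (1 + fromBlocks 0 j 0 0)) := by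
    have b1 : sw G ι * fromBlocks 1 (-j) 0 1 = (1 + fromBlocks 0 0 (-j) 0) * sw G ι := by
      rw [← fromBlocks_one, fromBlocks_add]
      simp [sw, fromBlocks_multiply]
    have b2 : fromBlocks 1 j 0 1 = (1 : Matrix (ι ⊕ ι) (ι ⊕ ι) (ZG G)) + fromBlocks 0 j 0 0 := by
      rw [← fromBlocks_one, fromBlocks_add]
      simp
    rw [← mul_assoc, ← mul_assoc, b1, b2]
    simp only [mul_assoc]
  have a2 : ev G (cc c) * (1 + fromBlocks 0 0 (-j) 0) =
      (1 + fromBlocks 0 0 (-j) 0) * ev G (cc c) := by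
    have := deg_blk (r := 2) Deg.zero Deg.zero hj.neg Deg.zero rfl rfl
    rw [mul_add, add_mul, mul_one, one_mul, ev_even fun a b e => by have := this a b e; omega]
  rw [a1, ← rs_mul ev_ev a2, ← rs_mul ev_ev (odd_mul ev_sw hX)] at h
  refine Triv.of_mul_right (triv_rs (Sum.elim (fun _ => 0) fun _ => 1) ?_)
    (Triv.of_mul_left (triv_rs (Sum.elim (fun _ => 1) fun _ => 0) ?_) h) <;>
  · rintro (a | a) (b | b) k <;> first | exact (k rfl).elim | simp

/-- the torsion of a controlled homotopy equivalence -/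
theorem cone {Ω : Type} [MulAction G Ω] {p : ι → Ω → ℝ} {η : ℝ} {N : ℕ} (hc : ∀ a, c a ≤ N)
    {d ψ ψ' h k j z z' : Matrix ι ι (ZG G)} (dd : d * d = 0) (e : d * ψ = ψ * d)
    (e' : d * ψ' = ψ' * d) (e1 : ψ * ψ' - 1 = d * h + h * d) (e2 : ψ' * ψ - 1 = d * k + k * d)
    (e3 : ψ - (1 + z) = d * j + j * d) (e4 : (1 + z) * (1 + z') = 1) (e5 : (1 + z') * (1 + z) = 1)
    (e6 : z' * d = 0) (e7 : d * z' = 0)
    (gd : Deg c (-1) d) (gψ : Deg c 0 ψ) (gψ' : Deg c 0 ψ') (gh : Deg c 1 h) (gk : Deg c 1 k)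
    (gj : Deg c 1 j) (gz : Bot c z) (gz' : Bot c z') (h0 : 0 ≤ η) (cd : CtlM η p d)
    (cψ : CtlM η p ψ) (cψ' : CtlM η p ψ') (ch : CtlM η p h) (ck : CtlM η p k) :
    ∃ A A' : Matrix (ι ⊕ ι) (ι ⊕ ι) (ZG G), (A * A' = 1 ∧ A' * A = 1) ∧
      (CtlM ((6 * N + 15) * η) (Sum.elim p p) A ∧ CtlM ((6 * N + 15) * η) (Sum.elim p p) A') ∧
      (Triv ∅ A → Triv ∅ (1 + z')) := by
  have hc' : ∀ a, cc c a ≤ N + 1 := by
    rintro (a | a)
    exacts [(hc a).trans N.le_succ, Nat.succ_le_succ (hc a)]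
  have gD : ∀ φ : Matrix ι ι (ZG G), Deg c 0 φ → Deg (cc c) (-1) (fromBlocks d φ 0 (-d)) :=
    fun φ hφ => deg_blk gd hφ Deg.zero gd.neg rfl rfl
  have DD : fromBlocks d ψ 0 (-d) * fromBlocks d ψ 0 (-d) = 0 := by
    simp [fromBlocks_multiply, dd, e]
  have a1 : fromBlocks d ψ 0 (-d) * fromBlocks (-h) 0 ψ' k +
      fromBlocks (-h) 0 ψ' k * fromBlocks d ψ 0 (-d) = 1 + fromBlocks 0 (ψ * k - h * ψ) 0 0 := by
    rw [← fromBlocks_one]
    simp only [fromBlocks_multiply, fromBlocks_add, fromBlocks_inj, eq_add_of_sub_eq e1,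
      eq_add_of_sub_eq e2, neg_mul, e']
    refine ⟨?_, ?_, ?_, ?_⟩ <;> noncomm_ring
  have a2 := fix_contr DD a1 (by simp [fromBlocks_multiply])
  have gΓ : Deg (cc c) 1 (fromBlocks (-h) 0 ψ' k * (1 - fromBlocks 0 (ψ * k - h * ψ) 0 0)) :=
    (deg_blk gh.neg Deg.zero gψ' gk rfl rfl).mul (Deg.one.sub (deg_blk Deg.zero
      ((gψ.mul gk rfl).sub (gh.mul gψ rfl)) Deg.zero Deg.zero rfl rfl)) rfl
  have cΓ : CtlM (η + (η + η)) (Sum.elim p p)
      (fromBlocks (-h) 0 ψ' k * (1 - fromBlocks 0 (ψ * k - h * ψ) 0 0)) :=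
    ctl_mul (ctl_blk (ctl_neg ch) ctl_zero cψ' ck) (ctl_sub (ctl_one (add_nonneg h0 h0))
      (ctl_blk ctl_zero (ctl_sub (ctl_mul cψ ck) (ctl_mul ch cψ)) ctl_zero ctl_zero))
  generalize fromBlocks (-h) 0 ψ' k * (1 - fromBlocks 0 (ψ * k - h * ψ) 0 0) = Γ at a2 gΓ cΓ
  obtain ⟨A', u, c1, c2⟩ := ctl_contr hc' DD a2 (gD ψ gψ) gΓ sw_sw ev_sw (by linarith)
    (ctl_mono (ctl_blk cd cψ ctl_zero (ctl_neg cd)) (by linarith)) cΓ
    (ctl_blk ctl_zero (ctl_one le_rfl) (ctl_one le_rfl) ctl_zero)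
  have en : (2 * ((N + 1 : ℕ) : ℝ) + 3) * (η + (η + η)) = (6 * N + 15) * η := by
    push_cast
    ring
  rw [en] at c1 c2
  refine ⟨_, A', u, ⟨c1, c2⟩, fun hT => ?_⟩
  have b1 : fromBlocks d (1 + z) 0 (-d) * fromBlocks 0 0 (1 + z') 0 +
      fromBlocks 0 0 (1 + z') 0 * fromBlocks d (1 + z) 0 (-d) = 1 := by
    rw [← fromBlocks_one]
    simp only [fromBlocks_multiply, fromBlocks_add, fromBlocks_inj, e4, e5]
    simp [mul_add, add_mul, e6, e7]
  have b2 := conj_contr (U := fromBlocks 1 j 0 1) (V := fromBlocks 1 (-j) 0 1) b1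
    (by simp [fromBlocks_multiply]) (by simp [fromBlocks_multiply])
  have b3 : fromBlocks 1 (-j) 0 1 * fromBlocks d (1 + z) 0 (-d) * fromBlocks 1 j 0 1 =
      fromBlocks d ψ 0 (-d) := by
    simp only [fromBlocks_multiply, fromBlocks_inj, eq_add_of_sub_eq e3]
    refine ⟨?_, ?_, ?_, ?_⟩ <;> noncomm_ring
  have g0 : Deg (cc c) 1 (fromBlocks 0 0 (1 + z') 0) :=
    deg_blk Deg.zero Deg.zero (Deg.one.add gz'.deg) Deg.zero rfl rfl
  rw [b3] at b2
  have b4 := triv_contr hc' DD a2 b2 (gD ψ gψ) gΓ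
    (((deg_blk Deg.one gj.neg Deg.zero Deg.one rfl rfl).mul g0 rfl).mul
      (deg_blk Deg.one gj Deg.zero Deg.one rfl rfl) rfl) sw_sw ev_sw hT
  rw [← b3, ← add_mul, ← mul_add] at b4
  have b5 := triv_conj gj (odd_add (gD _ (Deg.one.add gz.deg)) g0) b4
  rw [fromBlocks_add] at b5
  simp only [add_zero, zero_add] at b5
  exact triv_bot gd gz gz' e6 b5

end Pool.Agent.Work.MP_9d1ffa_al.WL.A2
end

-- merged part: Pool.Agent.Work.MP_9d1ffa_al.WL.ToC
section
/-! The transfer of a matrix over a group ring along chain level data. -/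

namespace Pool.Agent.Work.MP_9d1ffa_al.WL.A2

open Matrix MonoidAlgebra

variable {G : Type} [Group G] {n B : Type}

/-- an integral matrix placed at a group element -/
noncomputable def sg (g : G) : Matrix n n ℤ →+ Matrix n n (ZG G) where
  toFun X := X.map (single g)
  map_zero' := Matrix.map_zero _ (single_zero g)
  map_add' X Y := Matrix.map_add _ (single_add g) X Y

theorem sg_apply (g : G) (X : Matrix n n ℤ) (i j : n) : sg g X i j = single g (X i j) := rfl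

theorem sg_mul [Fintype n] (g h : G) (X Y : Matrix n n ℤ) :
    sg g X * sg h Y = sg (g * h) (X * Y) := by
  ext1 i j
  simp only [Matrix.mul_apply, sg_apply, single_mul_single]
  exact (map_sum (singleAddHom (g * h)) _ _).symm

theorem sg_one [DecidableEq n] : sg (1 : G) (1 : Matrix n n ℤ) = 1 :=
  Matrix.map_one _ (single_zero _) rfl

theorem sg_ne {g h : G} {X : Matrix n n ℤ} {i j : n} (e : (sg g X i j).coeff h ≠ 0) :
    h = g ∧ X i j ≠ 0 := by
  rw [sg_apply, coeff_single] at e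
  exact ⟨(Finsupp.single_apply_ne_zero.1 e).1, (Finsupp.single_apply_ne_zero.1 e).2⟩

/-- all group elements that occur lie in `T` -/
def Sup (T : Set G) (x : Matrix n n (ZG G)) : Prop := ∀ i j g, (x i j).coeff g ≠ 0 → g ∈ T

theorem exists_sup [Fintype n] (x : Matrix n n (ZG G)) :
    ∃ T : Finset G, ∀ g, g ∈ T ↔ ∃ i j, (x i j).coeff g ≠ 0 := by
  classical
  exact ⟨Finset.univ.biUnion fun i => Finset.univ.biUnion fun j => (x i j).coeff.support,
    fun g => by simp⟩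

theorem Sup.ind [Fintype n] {T : Set G} {P : Matrix n n (ZG G) → Prop} (h0 : P 0)
    (ha : ∀ x y, P x → P y → P (x + y)) (hs : ∀ g ∈ T, ∀ X, P (sg g X))
    {x : Matrix n n (ZG G)} (hx : Sup T x) : P x := by
  obtain ⟨T0, h⟩ := exists_sup x
  have e : x = ∑ g ∈ T0, sg g (Matrix.of fun i j => (x i j).coeff g) := by
    classical
    refine mat_ext fun i j g => ?_
    simp only [Matrix.sum_apply, coeff_sum, Finsupp.finsetSum_apply, sg_apply, coeff_single,
      Finsupp.single_apply, Finset.sum_ite_eq', Matrix.of_apply]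
    split_ifs with k
    · rfl
    · by_contra k'
      exact k ((h g).2 ⟨i, j, k'⟩)
  rw [e]
  exact Finset.sum_induction _ P ha h0 fun g hg =>
    let ⟨i, j, k⟩ := (h g).1 hg
    hs g (hx i j g k) _

theorem sup_univ (x : Matrix n n (ZG G)) : Sup Set.univ x := fun _ _ _ _ => trivial

/-- the twisted tensor product -/
noncomputable def tw (Φ : G → Matrix B B ℤ) :
    Matrix n n (ZG G) →+ Matrix (n × B) (n × B) (ZG G) where
  toFun x := Matrix.of fun s t => ofCoeff ((fun g => Φ g s.2 t.2) • (x s.1 t.1).coeff)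
  map_zero' := mat_ext fun s t g => by simp
  map_add' x y := mat_ext fun s t g => by simp

theorem tw_coeff (Φ : G → Matrix B B ℤ) (x : Matrix n n (ZG G)) (s t : n × B) (g : G) :
    (tw Φ x s t).coeff g = Φ g s.2 t.2 * (x s.1 t.1).coeff g := rfl

theorem tw_sg (Φ : G → Matrix B B ℤ) (g : G) (X : Matrix n n ℤ) :
    tw Φ (sg g X) = sg g (kroneckerMap (· * ·) X (Φ g)) := by
  classical
  refine mat_ext fun s t h => ?_
  rw [tw_coeff, sg_apply, sg_apply, coeff_single, coeff_single, Finsupp.single_apply,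
    Finsupp.single_apply]
  split_ifs with e
  · rw [e, mul_comm]
    rfl
  · exact mul_zero _

theorem tw_ne {Φ : G → Matrix B B ℤ} {x : Matrix n n (ZG G)} {s t : n × B} (e : tw Φ x s t ≠ 0) :
    ∃ g, Φ g s.2 t.2 ≠ 0 := by
  by_contra! k
  exact e (by ext g; rw [tw_coeff, k, zero_mul]; rfl)

theorem tw_zero (x : Matrix n n (ZG G)) : tw (fun _ => (0 : Matrix B B ℤ)) x = 0 :=
  mat_ext fun s t g => by simp [tw_coeff]

theorem deg_tw {c : B → ℕ} {r : ℤ} {Φ : G → Matrix B B ℤ}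
    (h : ∀ g a b, Φ g a b ≠ 0 → (c a : ℤ) = c b + r) (x : Matrix n n (ZG G)) :
    Deg (fun s : n × B => c s.2) r (tw Φ x) := fun _ _ e =>
  let ⟨g, k⟩ := tw_ne e
  h g _ _ k

theorem ctl_tw {Ω : Type} [MulAction G Ω] {p : B → Ω → ℝ} {η : ℝ} {T : Set G}
    {Φ : G → Matrix B B ℤ} (h : ∀ g ∈ T, ∀ a b, Φ g a b ≠ 0 → Cl η g (p b) (p a))
    {x : Matrix n n (ZG G)} (hx : Sup T x) : CtlM η (fun s : n × B => p s.2) (tw Φ x) :=
  fun _ _ g e => h g (hx _ _ g (right_ne_zero_of_mul e)) _ _ (left_ne_zero_of_mul e)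

theorem sup_sg (g : G) (X : Matrix n n ℤ) : Sup {g} (sg g X) := fun _ _ _ e => (sg_ne e).1

variable [Fintype n] [DecidableEq n] [Fintype B] [DecidableEq B]

omit [DecidableEq n] [DecidableEq B] in
theorem tw_mul (Φ Ψ : G → Matrix B B ℤ) (g h : G) (X Y : Matrix n n ℤ) :
    tw Φ (sg g X) * tw Ψ (sg h Y) = sg (g * h) (kroneckerMap (· * ·) (X * Y) (Φ g * Ψ h)) := by
  rw [tw_sg, tw_sg, sg_mul, mul_kronecker_mul]

omit [DecidableEq n] [DecidableEq B] in
theorem tw_const (E F : Matrix B B ℤ) (x y : Matrix n n (ZG G)) :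
    tw (fun _ => E) x * tw (fun _ => F) y = tw (fun _ => E * F) (x * y) := by
  refine Sup.ind (P := fun x => tw (fun _ => E) x * tw (fun _ => F) y = tw (fun _ => E * F) (x * y))
    (by simp) (fun a b ha hb => by rw [map_add, add_mul, add_mul, map_add, ha, hb])
    (fun g _ X => ?_) (sup_univ x)
  refine Sup.ind (P := fun y => tw (fun _ => E) (sg g X) * tw (fun _ => F) y =
    tw (fun _ => E * F) (sg g X * y)) (by simp)
    (fun a b ha hb => by rw [map_add, mul_add, mul_add, map_add, ha, hb])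
    (fun h _ Y => ?_) (sup_univ y)
  rw [tw_mul, sg_mul, tw_sg]

omit [DecidableEq B] in
theorem d_tw (d : Matrix B B ℤ) (Φ : G → Matrix B B ℤ) (g : G) (X : Matrix n n ℤ) :
    tw (fun _ => d) 1 * tw Φ (sg g X) = sg g (kroneckerMap (· * ·) X (d * Φ g)) := by
  rw [← sg_one, tw_mul, one_mul, one_mul]

omit [DecidableEq B] in
theorem tw_d (d : Matrix B B ℤ) (Φ : G → Matrix B B ℤ) (g : G) (X : Matrix n n ℤ) :
    tw Φ (sg g X) * tw (fun _ => d) 1 = sg g (kroneckerMap (· * ·) X (Φ g * d)) := by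
  rw [← sg_one, tw_mul, mul_one, mul_one]

theorem tw_comm {T : Set G} {d : Matrix B B ℤ} {Φ : G → Matrix B B ℤ}
    (h : ∀ g ∈ T, d * Φ g = Φ g * d) {x : Matrix n n (ZG G)} (hx : Sup T x) :
    tw (fun _ => d) 1 * (1 + tw Φ x) = (1 + tw Φ x) * tw (fun _ => d) 1 := by
  rw [mul_add, add_mul, mul_one, one_mul, add_right_inj]
  exact Sup.ind (P := fun x => tw (fun _ => d) 1 * tw Φ x = tw Φ x * tw (fun _ => d) 1) (by simp)
    (fun a b ha hb => by rw [map_add, mul_add, add_mul, ha, hb])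
    (fun g hg X => by rw [d_tw, tw_d, h g hg]) hx

/-- null homotopic by a homotopy with the property `P` -/
def Nul {A : Type} [Ring A] (d : A) (P : A → Prop) (z : A) : Prop :=
  ∃ h, z = d * h + h * d ∧ P h

theorem Nul.zero {A : Type} [Ring A] {d : A} {P : A → Prop} (h : P 0) : Nul d P 0 :=
  ⟨0, by simp, h⟩

theorem Nul.add {A : Type} [Ring A] {d x y : A} {P : A → Prop}
    (h : ∀ a b, P a → P b → P (a + b)) (hx : Nul d P x) (hy : Nul d P y) : Nul d P (x + y) := by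
  obtain ⟨a, rfl, ha⟩ := hx
  obtain ⟨b, rfl, hb⟩ := hy
  exact ⟨a + b, by noncomm_ring, h a b ha hb⟩

theorem nul_sg {d H E F : Matrix B B ℤ} (e : d * H + H * d = E - F) (g : G) (X : Matrix n n ℤ)
    {P : Matrix (n × B) (n × B) (ZG G) → Prop} (h : P (tw (fun _ => H) (sg g X))) :
    Nul (tw (fun _ => d) 1) P
      (sg g (kroneckerMap (· * ·) X E) - sg g (kroneckerMap (· * ·) X F)) := by
  refine ⟨_, ?_, h⟩
  rw [d_tw, tw_d, ← map_add, ← kronecker_add, e, eq_add_of_sub_eq e.symm, kronecker_add, map_add,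
    add_sub_cancel_right, add_sub_cancel_right]

theorem nul_mul {T : Set G} {d : Matrix B B ℤ} {Φ : G → Matrix B B ℤ} {H : G → G → Matrix B B ℤ}
    (e : ∀ g ∈ T, ∀ h ∈ T, d * H g h + H g h * d = Φ g * Φ h - Φ (g * h))
    {P : Matrix (n × B) (n × B) (ZG G) → Prop} (h0 : P 0) (ha : ∀ a b, P a → P b → P (a + b))
    (hP : ∀ g ∈ T, ∀ h ∈ T, ∀ X, P (tw (fun _ => H g h) (sg (g * h) X)))
    {x y : Matrix n n (ZG G)} (hx : Sup T x) (hy : Sup T y) (k : x + y + x * y = 0) :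
    Nul (tw (fun _ => d) 1) P ((1 + tw Φ x) * (1 + tw Φ y) - 1) := by
  have a : (1 + tw Φ x) * (1 + tw Φ y) - 1 =
      tw Φ x * tw Φ y - tw Φ (x * y) + tw Φ (x + y + x * y) := by
    rw [map_add, map_add]
    noncomm_ring
  rw [a, k, map_zero, add_zero]
  refine Sup.ind (P := fun x => Nul (tw (fun _ => d) 1) P (tw Φ x * tw Φ y - tw Φ (x * y)))
    (by simpa using Nul.zero h0)
    (fun a b h1 h2 => by
      rw [map_add, add_mul, add_mul, map_add, add_sub_add_comm]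
      exact h1.add ha h2) (fun g hg X => ?_) hx
  refine Sup.ind (P := fun y => Nul (tw (fun _ => d) 1) P
    (tw Φ (sg g X) * tw Φ y - tw Φ (sg g X * y))) (by simpa using Nul.zero h0)
    (fun a b h1 h2 => by
      rw [map_add, mul_add, mul_add, map_add, add_sub_add_comm]
      exact h1.add ha h2) (fun h hh Y => ?_) hy
  rw [tw_mul, sg_mul, tw_sg]
  exact nul_sg (e g hg h hh) _ _ (hP g hg h hh _)

theorem nul_sub {T : Set G} {d E : Matrix B B ℤ} {Φ J : G → Matrix B B ℤ}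
    (e : ∀ g ∈ T, d * J g + J g * d = Φ g - E)
    {P : Matrix (n × B) (n × B) (ZG G) → Prop} (h0 : P 0) (ha : ∀ a b, P a → P b → P (a + b))
    (hP : ∀ g X, P (tw (fun _ => J g) (sg g X))) {x : Matrix n n (ZG G)} (hx : Sup T x) :
    Nul (tw (fun _ => d) 1) P (tw Φ x - tw (fun _ => E) x) := by
  refine Sup.ind (P := fun x => Nul (tw (fun _ => d) 1) P (tw Φ x - tw (fun _ => E) x))
    (by simpa using Nul.zero h0)
    (fun a b h1 h2 => by
      rw [map_add, map_add, add_sub_add_comm]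
      exact h1.add ha h2) (fun g hg X => ?_) hx
  rw [tw_sg, tw_sg]
  exact nul_sg (e g hg) _ _ (hP g _)

theorem triv_rank {u v : B → ℤ} (e : v ⬝ᵥ u = 1) {y : Matrix n n (ZG G)}
    (h : Triv ∅ (1 + tw (fun _ => vecMulVec u v) y)) : Triv ∅ (1 + y) := by
  have a1 : tw (fun _ => vecMulVec u v) y = (Matrix.of fun (s : n × B) j => u s.2 • y s.1 j) *
      Matrix.of fun i (t : n × B) => if i = t.1 then (v t.2 : ZG G) else 0 := by
    ext1 s t
    simp only [Matrix.mul_apply, Matrix.of_apply, mul_ite, mul_zero, Finset.sum_ite_eq',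
      Finset.mem_univ, if_true]
    rw [← zsmul_one, mul_smul_comm, mul_one, smul_smul]
    ext g
    rw [tw_coeff, vecMulVec_apply, mul_comm (u _)]
    rfl
  have a2 : y = (Matrix.of fun i (t : n × B) => if i = t.1 then (v t.2 : ZG G) else 0) *
      Matrix.of fun (s : n × B) j => u s.2 • y s.1 j := by
    ext1 i j
    simp only [Matrix.mul_apply, Matrix.of_apply, ite_mul, zero_mul, Fintype.sum_prod_type,
      Finset.sum_ite_irrel, Finset.sum_const_zero, Finset.sum_ite_eq, Finset.mem_univ, if_true,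
      ← zsmul_eq_mul, smul_smul, ← Finset.sum_smul]
    rw [show ∑ b, v b * u b = 1 from e, one_smul]
  rw [a1] at h
  rw [a2]
  exact triv_swap _ _ h

/-- the transfer of an invertible matrix -/
theorem transfer {Q Ω Ω' : Type} [Group Q] [MulAction Q Ω] [MulAction G Ω'] {S : Finset Q} {N : ℕ}
    {ε : ℝ} {p : B → Ω → ℝ} (C : CD B S N ε p) (h0 : 0 ≤ ε) (ψ : G →* Q) {p' : B → Ω' → ℝ}
    (hp : ∀ g a b, Cl ε (ψ g) (p a) (p b) → Cl ε g (p' a) (p' b)) {x y : Matrix n n (ZG G)}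
    (hx : Sup {g | ψ g ∈ S} x) (hy : Sup {g | ψ g ∈ S} y) (e : x + y + x * y = 0)
    (e' : y + x + y * x = 0) :
    ∃ A A' : Matrix ((n × B) ⊕ (n × B)) ((n × B) ⊕ (n × B)) (ZG G), (A * A' = 1 ∧ A' * A = 1) ∧
      (CtlM ((6 * N + 15) * ε) (Sum.elim (fun s => p' s.2) fun s => p' s.2) A ∧
        CtlM ((6 * N + 15) * ε) (Sum.elim (fun s => p' s.2) fun s => p' s.2) A') ∧
      (Triv ∅ A → Triv ∅ (1 + y)) := by
  have H := fun {x y : Matrix n n (ZG G)} => nul_mul (x := x) (y := y) (T := {g | ψ g ∈ S})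
    (Φ := fun g => C.Φ (ψ g)) (H := fun g h => C.H (ψ g) (ψ h))
    (fun g hg h hh => by rw [map_mul]; exact C.dH _ hg _ hh)
    (P := fun h => Deg (fun s : n × B => C.dg s.2) 1 h ∧ CtlM ε (fun s : n × B => p' s.2) h)
    ⟨Deg.zero, ctl_zero⟩ (fun a b ha hb => ⟨ha.1.add hb.1, ctl_add ha.2 hb.2⟩)
    fun g hg h hh X => ⟨deg_tw (fun _ a b k => by rw [C.H_dg _ _ a b k]; rfl) _,
      ctl_tw (fun _ k a b k' => hp _ _ _ (by rw [k, map_mul]; exact C.H_cl _ hg _ hh a b k'))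
        (sup_sg _ _)⟩
  obtain ⟨h, e1, gh, ch⟩ := H hx hy e
  obtain ⟨k, e2, gk, ck⟩ := H hy hx e'
  obtain ⟨j, e3, gj⟩ := nul_sub (T := {g | ψ g ∈ S}) (Φ := fun g => C.Φ (ψ g))
    (fun g hg => C.dJ _ hg) (P := Deg (fun s : n × B => C.dg s.2) 1) Deg.zero (fun _ _ => Deg.add)
    (fun g X => deg_tw (fun _ a b k => by rw [C.J_dg _ a b k]; rfl) _) hx
  have EE : vecMulVec C.u C.v * vecMulVec C.u C.v = vecMulVec C.u C.v := by
    rw [vecMulVec_mul_vecMulVec, C.vu, one_smul]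
  have inv : ∀ x y : Matrix n n (ZG G), x + y + x * y = 0 →
      (1 + tw (fun _ => vecMulVec C.u C.v) x) * (1 + tw (fun _ => vecMulVec C.u C.v) y) = 1 :=
    fun x y e => by
      rw [mul_add, mul_one, add_mul, one_mul, tw_const, EE, add_assoc, ← map_add, ← map_add,
        ← add_assoc, e, map_zero, add_zero]
  have bot : ∀ x : Matrix n n (ZG G),
      Bot (fun s : n × B => C.dg s.2) (tw (fun _ => vecMulVec C.u C.v) x) := fun x a b k =>
    let ⟨_, k⟩ := tw_ne k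
    ⟨C.u_dg _ (left_ne_zero_of_mul k), C.v_dg _ (right_ne_zero_of_mul k)⟩
  have du : C.d *ᵥ C.u = 0 := by
    funext a
    refine Finset.sum_eq_zero fun b _ => ?_
    by_contra k
    have h1 := C.d_dg a b (left_ne_zero_of_mul k)
    have h2 := C.u_dg b (right_ne_zero_of_mul k)
    omega
  have gΦ : ∀ x : Matrix n n (ZG G),
      Deg (fun s : n × B => C.dg s.2) 0 (1 + tw (fun g => C.Φ (ψ g)) x) := fun x =>
    Deg.one.add (deg_tw (fun _ a b k => by rw [C.Φ_dg _ a b k, add_zero]) _)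
  have cΦ : ∀ x : Matrix n n (ZG G), Sup {g | ψ g ∈ S} x →
      CtlM ε (fun s : n × B => p' s.2) (1 + tw (fun g => C.Φ (ψ g)) x) := fun x hx =>
    ctl_add (ctl_one h0) (ctl_tw (fun g hg a b k => hp _ _ _ (C.Φ_cl _ hg a b k)) hx)
  have dΦ := fun {x : Matrix n n (ZG G)} => tw_comm (x := x) (T := {g | ψ g ∈ S})
    (Φ := fun g => C.Φ (ψ g)) fun g hg => C.dΦ _ hg
  have s1 : Sup {1} (1 : Matrix n n (ZG G)) := by
    rw [← sg_one]
    exact sup_sg 1 1
  have cd : CtlM ε (fun s : n × B => p' s.2) (tw (fun _ : G => C.d) 1) :=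
    ctl_tw (fun _ k a b k' => hp _ _ _ (by rw [k, map_one]; exact C.d_cl a b k')) s1
  obtain ⟨A, A', a1, a2, a3⟩ := cone (d := tw (fun _ => C.d) 1) (fun s => C.dg_le s.2)
    (by rw [tw_const, C.dd, tw_zero]) (dΦ hx) (dΦ hy) e1 e2
    ((add_sub_add_left_eq_sub _ _ _).trans e3) (inv x y e) (inv y x e')
    (by rw [tw_const, vecMulVec_mul, C.vd, vecMulVec_zero, tw_zero])
    (by rw [tw_const, mul_vecMulVec, du, zero_vecMulVec, tw_zero])
    (deg_tw (fun _ a b k => by rw [← C.d_dg a b k]; push_cast; ring) _) (gΦ x) (gΦ y) gh gk gj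
    (bot x) (bot y) h0 cd (cΦ x hx) (cΦ y hy) ch ck
  exact ⟨A, A', a1, a2, fun t => triv_rank C.vu (a3 t)⟩

end Pool.Agent.Work.MP_9d1ffa_al.WL.A2
end

-- merged part: Pool.Agent.Work.MP_9d1ffa_al.WL.Top
section
/-! Theorem A from the squeezing theorem. -/

namespace Pool.Agent.Work.MP_9d1ffa_al.WL

open Matrix Filter Function

namespace A2

theorem fa_prod {G K : Type} [Group G] [Group K] (h : FA G) (h' : FA K) : FA (G × K) := by
  obtain ⟨m, ⟨e⟩⟩ := h
  obtain ⟨n, ⟨e'⟩⟩ := h'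
  exact ⟨m + n, ⟨(e.prodCongr e').trans ((MulEquiv.prodMultiplicative _ _).symm.trans
    (AddEquiv.toMultiplicative ((LinearEquiv.sumArrowLequivProdArrow _ _ ℤ ℤ).symm.trans
      (LinearEquiv.funCongrLeft ℤ ℤ finSumFinEquiv.symm)).toAddEquiv))⟩⟩

theorem whK_prod {G K : Type} [Group G] [Group K] (h : WhK G) (hK : FA K) : WhK (G × K) :=
  fun _ _ hK' => Wh0.equiv (h _ (fa_prod hK hK')) MulEquiv.prodAssoc

variable {Q Ω Ω' : Type} [Group Q] [MulAction Q Ω] [MulAction Q Ω'] {i : Ω → Ω'}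

theorem cl_ext (hi : Injective i) (e : ∀ (g : Q) ω, i (g • ω) = g • i ω) {η : ℝ} (h0 : 0 ≤ η)
    {g : Q} {μ ν : Ω → ℝ} (h : Cl η g μ ν) : Cl η g (extend i μ 0) (extend i ν 0) := by
  intro ω
  by_cases k : ∃ a, i a = ω
  · obtain ⟨a, rfl⟩ := k
    rw [← e, hi.extend_apply, hi.extend_apply]
    exact h a
  · rw [extend_apply' _ _ _ k, extend_apply' _ _ _ fun ⟨a, ha⟩ =>
      k ⟨g⁻¹ • a, by rw [e, ha, inv_smul_smul]⟩]
    simpa using h0

theorem supp_ext (hi : Injective i) (μ : Ω → ℝ) : support (extend i μ 0) = i '' support μ := by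
  ext ω
  by_cases k : ∃ a, i a = ω
  · obtain ⟨a, rfl⟩ := k
    rw [mem_support, hi.extend_apply, hi.mem_set_image, mem_support]
  · rw [mem_support, extend_apply' _ _ _ k]
    exact ⟨fun h => (h rfl).elim, fun ⟨a, _, ha⟩ => (k ⟨a, ha⟩).elim⟩

omit [MulAction Q Ω'] in
theorem pos_ext {G : Type} [Group G] [MulAction G Ω'] (hi : Injective i)
    {Good : Subgroup Q → Prop} {N : ℕ} {μ : Ω → ℝ} (h : Pos Good N μ) :
    Pos (fun _ : Subgroup G => True) N (extend i μ 0) := by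
  obtain ⟨h1, ⟨a, h2⟩, h3, -⟩ := h
  refine ⟨fun ω => ?_, ⟨i a, by rwa [hi.extend_apply]⟩, ?_, fun _ _ _ _ _ => trivial⟩
  · by_cases k : ∃ a, i a = ω
    · obtain ⟨a, rfl⟩ := k
      rw [hi.extend_apply]
      exact h1 a
    · rw [extend_apply' _ _ _ k]
      exact ⟨le_rfl, zero_le_one⟩
  · rwa [supp_ext hi, hi.encard_image]

theorem good_ext (hi : Injective i) (e : ∀ (g : Q) ω, i (g • ω) = g • i ω)
    {Good : Subgroup Q → Prop} {N : ℕ} {μ : Ω → ℝ} (h : Pos Good N μ) {ν : Ω' → ℝ}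
    (h1 : (support ν).Nonempty) (h2 : support ν ⊆ support (extend i μ 0)) {H : Subgroup Q}
    (hH : ∀ g ∈ H, ∀ ω, ν (g • ω) = ν ω) : Good H := by
  rw [supp_ext hi] at h2
  refine h.2.2.2 (i ⁻¹' support ν) H ?_ (fun a ha => hi.mem_set_image.1 (h2 ha)) fun g hg a ha => ?_
  · obtain ⟨ω, hω⟩ := h1
    obtain ⟨a, -, rfl⟩ := h2 hω
    exact ⟨a, hω⟩
  · rwa [Set.mem_preimage, mem_support, e, hH g hg]

end A2

open A2

theorem wcl_whK : WCl WhK where
  wh _ _ h := Wh0.equiv (h (Multiplicative (Fin 0 → ℤ)) ⟨0, ⟨MulEquiv.refl _⟩⟩)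
    (MulEquiv.prodUnique).symm
  int _ _ h := whK_prod h ⟨1, ⟨(MulEquiv.funUnique (Fin 1) _).symm.trans
    (MulEquiv.piMultiplicative _).symm⟩⟩
  iso G H _ _ e h := closed_whK.ret H G e.symm.toMonoidHom e.toMonoidHom e.apply_symm_apply h

theorem thmA_of (hV : VanM) : ThmA WhK := by
  classical
  rintro Q _ Good ⟨N, hN⟩ K _ φ hK K' _ hK' n α hα
  obtain ⟨β, e1, e2⟩ := isUnit_iff_exists.1 hα
  obtain ⟨T, hT⟩ := exists_sup (β - 1)
  obtain ⟨T', hT'⟩ := exists_sup (α - 1)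
  let ψ : K × K' →* Q := φ.comp (MonoidHom.fst K K')
  have pos : ∀ m : ℕ, (0 : ℝ) < 1 / (m + 1) := fun m => Nat.one_div_pos_of_nat
  choose Ω act B fB dB p hC hp using fun m : ℕ => hN ((T ∪ T').image ψ) _ (pos m)
  let _ : MulAction (K × K') (Σ m, Ω m) := MulAction.compHom _ ψ
  have hi : ∀ m, Injective (Sigma.mk m : Ω m → Σ m, Ω m) := fun m => sigma_mk_injective
  choose A A' a1 a2 a3 using fun m : ℕ => transfer (hC m).some (pos m).le ψ
    (p' := fun b => extend (Sigma.mk m) (p m b) 0)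
    (fun g a b h => cl_ext (Q := Q) (g := ψ g) (hi m) (fun _ _ => rfl) (pos m).le h)
    (x := β - 1) (y := α - 1)
    (fun i j g h => Finset.mem_image_of_mem _ (Finset.mem_union_left _ ((hT g).2 ⟨i, j, h⟩)))
    (fun i j g h => Finset.mem_image_of_mem _ (Finset.mem_union_right _ ((hT' g).2 ⟨i, j, h⟩)))
    (by rw [mul_sub, sub_mul, e2]; noncomm_ring) (by rw [mul_sub, sub_mul, e1]; noncomm_ring)
  obtain ⟨m, hm⟩ := hV WhK wcl_whK (K × K') (Σ m, Ω m) N _
    (fun m => Sum.elim (fun s => extend (Sigma.mk m) (p m s.2) 0)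
      fun s => extend (Sigma.mk m) (p m s.2) 0) A A'
    (by rintro m (b | b) <;> exact pos_ext (hi m) (hp m b.2)) (fun m b ν h1 h2 => by
      let L := (St (K × K') ν).comap (MonoidHom.inl K K')
      have hL : Good (L.map φ) := by
        rcases b with b | b <;>
        · refine good_ext (Q := Q) (hi m) (fun _ _ => rfl) (hp m b.2) h1 h2 ?_
          rintro _ ⟨k, hk, rfl⟩
          exact hk
      exact closed_whK.ret _ (L × K')
        (((MonoidHom.fst K K').comp (Subgroup.subtype _)).codRestrict L (fun g => g.2) |>.prod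
          ((MonoidHom.snd K K').comp (Subgroup.subtype _)))
        ((L.subtype.prodMap (MonoidHom.id K')).codRestrict _ fun g => g.1.2) (fun _ => rfl)
        (whK_prod (hK L hL) hK')) a1 fun η hη => by
      have := (tendsto_one_div_add_atTop_nhds_zero_nat (𝕜 := ℝ)).const_mul (6 * (N : ℝ) + 15)
      rw [mul_zero] at this
      exact (this.eventually_le_const hη).mono fun m h =>
        ⟨ctl_mono (a2 m).1 h, ctl_mono (a2 m).2 h⟩
  simpa using a3 m hm

end Pool.Agent.Work.MP_9d1ffa_al.WL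
end
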