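import Pool.Agent.Work.MP_9d1ffa_al.WL.En

-- merged part: Pool.Agent.Work.MP_9d1ffa_al.WL.Oq
section
/-! Equivariance, control, monomial operators and block diagonal operators. -/

namespace Pool.Agent.Work.MP_9d1ffa_al.WL.A1

open Finsupp

variable {K B B' J Ω : Type}

theorem Oq_ext {a b : Md K B →ₗ[ℤ] Md K B'} (h : ∀ t, a (single t 1) = b (single t 1)) : a = b :=
  lhom_ext' fun t => LinearMap.ext_ring (h t)

/-- the signed monomial unit of a permutation -/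
noncomputable def mo (σ : K × B ≃ K × B) (ε : K × B → ℤˣ) : (En K B)ˣ where
  val := linearCombination ℤ fun t => single (σ t) (ε t : ℤ)
  inv := linearCombination ℤ fun t => single (σ.symm t) (ε (σ.symm t) : ℤ)
  val_inv := Oq_ext fun t => by simp [Int.units_coe_mul_self]
  inv_val := Oq_ext fun t => by simp [Int.units_coe_mul_self]

theorem mo_apply (σ : K × B ≃ K × B) (ε : K × B → ℤˣ) (t : K × B) :
    (mo σ ε).1 (single t 1) = single (σ t) (ε t : ℤ) := by simp [mo]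

theorem mo_inv (σ : K × B ≃ K × B) (ε : K × B → ℤˣ) :
    (mo σ ε)⁻¹ = mo σ.symm fun t => ε (σ.symm t) := Units.ext rfl

theorem kr_mo_ne {σ : K × B ≃ K × B} {ε : K × B → ℤˣ} {t' t : K × B}
    (h : kr (mo σ ε).1 t' t ≠ 0) : t' = σ t := by
  rw [kr, mo_apply] at h
  exact (single_apply_ne_zero.1 h).1

theorem isM_mo (σ : K × B ≃ K × B) (ε : K × B → ℤˣ) : IsM (mo σ ε).1 :=
  fun t => ⟨_, _, mo_apply σ ε t⟩

theorem Oq_mo (σ : K × B ≃ K × B) (v : Md K B) (t : K × B) : (mo σ 1).1 v (σ t) = v t := by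
  have e : (mo σ 1).1 = lmapDomain ℤ ℤ σ := Oq_ext fun t => by simp [mo_apply]
  rw [e, lmapDomain_apply, mapDomain_apply σ.injective]

theorem kr_conj (σ : K × B ≃ K × B) (a : En K B) (t' t : K × B) :
    kr ((mo σ 1).1 * a * (mo σ 1)⁻¹.1) (σ t') (σ t) = kr a t' t := by
  have e : (mo σ 1)⁻¹.1 (single (σ t) 1) = single t 1 := by
    rw [mo_inv, mo_apply]; simp
  rw [kr, Module.End.mul_apply, Module.End.mul_apply, e, Oq_mo, kr]

/-- the embedding as the copy number `k` -/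
def em (B : Type) (k : J) : B ↪ B × J := ⟨fun b => (b, k), fun _ _ h => congrArg Prod.fst h⟩

theorem Oq_up_single (k : J) (g : K) (b : B) :
    up K (em B k) (single (g, b) 1) = single (g, b, k) 1 := by
  rw [up, lmapDomain_apply, mapDomain_single]; rfl

theorem Oq_up (a : J → En K B) (k : J) (v : Md K B) :
    (linearCombination ℤ fun t : K × B × J =>
      up K (em B t.2.2) (a t.2.2 (single (t.1, t.2.1) 1))) (up K (em B k) v) =
      up K (em B k) (a k v) := by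
  have e : (linearCombination ℤ fun t : K × B × J =>
      up K (em B t.2.2) (a t.2.2 (single (t.1, t.2.1) 1))) ∘ₗ up K (em B k) =
      up K (em B k) ∘ₗ a k := Oq_ext fun t => by
    rw [LinearMap.comp_apply, Oq_up_single, linearCombination_single, one_smul]; rfl
  exact LinearMap.congr_fun e v

/-- block diagonal operators -/
noncomputable def Dg (K B J : Type) : (J → En K B) →+* En K (B × J) where
  toFun a := linearCombination ℤ fun t => up K (em B t.2.2) (a t.2.2 (single (t.1, t.2.1) 1))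
  map_one' := Oq_ext fun t => by
    rw [linearCombination_single, one_smul]; exact Oq_up_single _ _ _
  map_mul' a b := Oq_ext fun t => by
    rw [Module.End.mul_apply, linearCombination_single, linearCombination_single, one_smul,
      one_smul, Oq_up]; rfl
  map_zero' := Oq_ext fun t => by simp
  map_add' a b := Oq_ext fun t => by simp

theorem Oq_Dg (a : J → En K B) (g : K) (b : B) (k : J) :
    Dg K B J a (single (g, b, k) 1) = up K (em B k) (a k (single (g, b) 1)) := by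
  simp [Dg]

open Classical in
theorem kr_Dg (a : J → En K B) (g' g : K) (b' b : B) (k' k : J) :
    kr (Dg K B J a) (g', b', k') (g, b, k) = if k' = k then kr (a k) (g', b') (g, b) else 0 := by
  rw [kr, Oq_Dg, up, lmapDomain_apply]
  split_ifs with h
  · subst h
    exact mapDomain_apply (Function.injective_id.prodMap (em B k').injective) _ (g', b')
  · refine mapDomain_of_notMem_range _ _ ?_
    rintro ⟨x, hx⟩
    exact h (congrArg (fun y : K × B × J => y.2.2) hx).symm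

theorem kr_Dg_ne {a : J → En K B} {t' t : K × B × J} (h : kr (Dg K B J a) t' t ≠ 0) :
    t'.2.2 = t.2.2 ∧ kr (a t.2.2) (t'.1, t'.2.1) (t.1, t.2.1) ≠ 0 := by
  obtain ⟨g', b', k'⟩ := t'
  obtain ⟨g, b, k⟩ := t
  rw [kr_Dg] at h
  split_ifs at h with e
  · exact ⟨e, h⟩
  · exact absurd rfl h

theorem Dg_single [DecidableEq J] (k : J) (a : En K B) :
    Dg K B J (Function.update 1 k a) = xt K (em B k) a := by
  refine kr_ext fun ⟨g', b', i'⟩ ⟨g, b, i⟩ => ?_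
  rw [xt_apply, kr_add, ← map_one (Dg K B J), kr_Dg, kr_Dg]
  by_cases h : i' = k ∧ i = k
  · obtain ⟨rfl, rfl⟩ := h
    have e := kr_tr (em B i) (em B i) (a - 1) g' g b' b
    rw [if_pos rfl, if_pos rfl, Function.update_self]
    refine Eq.trans ?_ (congrArg _ e.symm)
    rw [kr_sub, Pi.one_apply, add_sub_cancel]
  · have e : kr (tr (em B k) (em B k) (a - 1)) (g', b', i') (g, b, i) = 0 := by
      by_contra e
      obtain ⟨c', c, h1, h2, -⟩ := kr_tr_ne e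
      exact h ⟨congrArg Prod.snd h1, congrArg Prod.snd h2⟩
    rw [e, add_zero]
    split_ifs with e'
    · rw [Function.update_of_ne fun e'' => h ⟨e'.trans e'', e''⟩]
    · rfl

theorem Dg_prj (S : J → Set B) :
    Dg K B J (fun k => prj K (S k)) = prj K {x | x.1 ∈ S x.2} := by
  refine Oq_ext fun ⟨g, b, k⟩ => ?_
  rw [Oq_Dg]
  by_cases h : b ∈ S k
  · rw [prj_mem (t := (g, b)) h, prj_mem (t := (g, b, k)) h, Oq_up_single]
  · rw [prj_nmem (t := (g, b)) h, prj_nmem (t := (g, b, k)) h, map_zero]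

theorem rf_Dg {a : J → En K B} (h : ∀ k, RF (a k)) : RF (Dg K B J a) := by
  intro b'
  refine ((h b'.2 b'.1).image fun b => (b, b'.2)).subset ?_
  rintro ⟨b, k⟩ ⟨g, g', e⟩
  obtain ⟨e1, e2⟩ := kr_Dg_ne e
  obtain rfl : b'.2 = k := e1
  exact ⟨b, ⟨g, g', e2⟩, rfl⟩

theorem fi_Dg {a : J → En K B} (h : ∀ k, Fi (a k)) (h' : {k | a k ≠ 0}.Finite) :
    Fi (Dg K B J a) := by
  refine (h'.biUnion fun k _ => (h k).image fun b => (b, k)).subset ?_
  rintro ⟨b, k⟩ ⟨g, t', e⟩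
  obtain ⟨-, e2⟩ := kr_Dg_ne e
  refine Set.mem_biUnion (x := k) (fun z => e2 ?_) ⟨b, ⟨g, _, e2⟩, rfl⟩
  rw [show a k = 0 from z, kr_zero]

/-- the shift of the copies -/
def shE (K B : Type) : K × B × ℤ ≃ K × B × ℤ :=
  (Equiv.refl K).prodCongr ((Equiv.refl B).prodCongr (Equiv.addRight 1))

theorem sh_Dg (a : ℤ → En K B) :
    (mo (shE K B) 1).1 * Dg K B ℤ a * (mo (shE K B) 1)⁻¹.1 = Dg K B ℤ fun k => a (k - 1) := by
  refine kr_ext fun t' t => ?_
  obtain ⟨⟨g', b', k'⟩, rfl⟩ := (shE K B).surjective t'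
  obtain ⟨⟨g, b, k⟩, rfl⟩ := (shE K B).surjective t
  rw [kr_conj, kr_Dg]
  refine Eq.trans ?_ (kr_Dg _ g' g b' b (k' + 1) (k + 1)).symm
  by_cases h : k' = k <;> simp [h]

variable [Group K]

/-- equivariant -/
def Eqv (a : En K B) : Prop :=
  ∀ (x g' g : K) (b' b : B), kr a (x * g', b') (x * g, b) = kr a (g', b') (g, b)

/-- left translation -/
def Oq_tau (B : Type) (x : K) : K × B ≃ K × B := (Equiv.mulLeft x).prodCongr (Equiv.refl B)

theorem Oq_eqv {a : En K B} :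
    Eqv a ↔ ∀ x : K, (mo (Oq_tau B x) 1).1 * a * (mo (Oq_tau B x) 1)⁻¹.1 = a := by
  refine ⟨fun h x => kr_ext fun t' t => ?_, fun h x g' g b' b => ?_⟩
  · obtain ⟨⟨g', b'⟩, rfl⟩ := (Oq_tau B x).surjective t'
    obtain ⟨⟨g, b⟩, rfl⟩ := (Oq_tau B x).surjective t
    rw [kr_conj]
    exact (h x g' g b' b).symm
  · have e := kr_conj (Oq_tau B x) a (g', b') (g, b)
    rwa [h x] at e

theorem Eqv.mul {a b : En K B} (ha : Eqv a) (hb : Eqv b) : Eqv (a * b) := by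
  refine Oq_eqv.2 fun x => ?_
  have e : (mo (Oq_tau B x) 1).1 * (a * b) * (mo (Oq_tau B x) 1)⁻¹.1 =
      ((mo (Oq_tau B x) 1).1 * a * (mo (Oq_tau B x) 1)⁻¹.1) *
        ((mo (Oq_tau B x) 1).1 * b * (mo (Oq_tau B x) 1)⁻¹.1) := by
    simp only [mul_assoc, Units.inv_mul_cancel_left]
  rw [e, Oq_eqv.1 ha, Oq_eqv.1 hb]
theorem Eqv.add {a b : En K B} (ha : Eqv a) (hb : Eqv b) : Eqv (a + b) :=
  fun x g' g b' b => by rw [kr_add, kr_add, ha, hb]
theorem Eqv.neg {a : En K B} (ha : Eqv a) : Eqv (-a) :=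
  fun x g' g b' b => by rw [kr_neg, kr_neg, ha]
theorem eqv_one : Eqv (1 : En K B) := Oq_eqv.2 fun x => by rw [mul_one, Units.mul_inv]
theorem eqv_zero : Eqv (0 : En K B) := fun _ _ _ _ _ => rfl
theorem eqv_prj (S : Set B) : Eqv (prj K S) := fun x g' g b' b => by
  rw [← mul_one (prj K S), kr_prj_mul, kr_prj_mul, eqv_one x g' g b' b]
theorem Eqv.tr {a : En K B} (h : Eqv a) (j j' : B ↪ B') : Eqv (tr j j' a) := by
  intro x g' g b' b
  by_cases e : (∃ c', b' = j c') ∧ ∃ c, b = j' c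
  · obtain ⟨⟨c', rfl⟩, c, rfl⟩ := e
    rw [kr_tr, kr_tr, h]
  · have z : ∀ y' y : K, kr (A1.tr j j' a) (y', b') (y, b) = 0 := fun y' y => by
      by_contra z
      obtain ⟨c', c, h1, h2, -⟩ := kr_tr_ne z
      exact e ⟨⟨c', h1⟩, c, h2⟩
    rw [z, z]
theorem Eqv.cp {a : En K B'} (h : Eqv a) (j : B ↪ B') : Eqv (cp j a) :=
  fun x g' g b' b => by rw [kr_cp, kr_cp, h]
theorem eqv_Dg {a : J → En K B} (h : ∀ k, Eqv (a k)) : Eqv (Dg K B J a) :=
  fun x g' g ⟨b', k'⟩ ⟨b, k⟩ => by rw [kr_Dg, kr_Dg, h k]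

/-- a finite equivariant operator has finite support -/
theorem Fi.sp {a : En K B} (h : Fi a) (e : Eqv a) : ∃ S : Set B, S.Finite ∧ Sp S a := by
  refine ⟨_, Set.Finite.union h
    (Set.Finite.biUnion h fun b _ => (kr_fin a (1, b)).image Prod.snd), ?_⟩
  rintro ⟨g', b'⟩ ⟨g, b⟩ z
  refine ⟨Or.inr (Set.mem_biUnion (x := b) ⟨g, _, z⟩ ⟨(g⁻¹ * g', b'), ?_, rfl⟩), Or.inl ⟨g, _, z⟩⟩
  have y := e g⁻¹ g' g b' b
  rw [inv_mul_cancel] at y
  exact fun w => z (y.symm.trans w)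

/-- equivariant permutation -/
def EqP (σ : K × B ≃ K × B) : Prop :=
  ∀ (x g : K) (b : B), σ (x * g, b) = (x * (σ (g, b)).1, (σ (g, b)).2)

theorem EqP.symm {σ : K × B ≃ K × B} (h : EqP σ) : EqP σ.symm := fun x g b => by
  apply σ.injective
  rw [h, Prod.mk.eta, σ.apply_symm_apply, σ.apply_symm_apply]

theorem eqv_mo {σ : K × B ≃ K × B} (h : EqP σ) {ε : K × B → ℤˣ}
    (hε : ∀ x g b, ε (x * g, b) = ε (g, b)) : Eqv (mo σ ε).1 := by
  classical
  intro x g' g b' b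
  rw [kr, kr, mo_apply, mo_apply, h, hε, single_apply, single_apply]
  simp only [Prod.ext_iff, mul_right_inj]

theorem rf_mo {σ : K × B ≃ K × B} (h : EqP σ) (ε : K × B → ℤˣ) : RF (mo σ ε).1 := by
  intro b'
  refine (Set.finite_singleton (σ.symm (1, b')).2).subset ?_
  rintro b ⟨g, g', z⟩
  have y := h.symm g' 1 b'
  rw [mul_one, kr_mo_ne z, σ.symm_apply_apply] at y
  exact congrArg Prod.snd y

theorem eqP_sh : EqP (shE K B) := fun _ _ _ => rfl

end Pool.Agent.Work.MP_9d1ffa_al.WL.A1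
end

-- merged part: Pool.Agent.Work.MP_9d1ffa_al.WL.Oc
section
/-! Control of operators. -/

namespace Pool.Agent.Work.MP_9d1ffa_al.WL.A1

open Finsupp

variable {K B B' J Ω : Type} [Group K]

variable [MulAction K Ω]

/-- control between two systems of positions -/
def Ct (η : ℝ) (p p' : B → Ω → ℝ) (a : En K B) : Prop :=
  ∀ t' t, kr a t' t ≠ 0 → Cl η (t'.1⁻¹ * t.1) (p t.2) (p' t'.2)

theorem _root_.Pool.Agent.Work.MP_9d1ffa_al.WL.Cl.rfl {η : ℝ} (h : 0 ≤ η) (μ : Ω → ℝ) : Cl η (1 : K) μ μ := fun ω => by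
  rwa [one_smul, sub_self, abs_zero]
theorem _root_.Pool.Agent.Work.MP_9d1ffa_al.WL.Cl.mono {η η' : ℝ} {g : K} {μ ν : Ω → ℝ} (h : Cl η g μ ν) (k : η ≤ η') : Cl η' g μ ν :=
  fun ω => (h ω).trans k
theorem _root_.Pool.Agent.Work.MP_9d1ffa_al.WL.Cl.symm {η : ℝ} {g : K} {μ ν : Ω → ℝ} (h : Cl η g μ ν) : Cl η g⁻¹ ν μ := fun ω => by
  have := h (g⁻¹ • ω)
  rwa [smul_inv_smul, abs_sub_comm] at this
theorem _root_.Pool.Agent.Work.MP_9d1ffa_al.WL.Cl.tr2 {η η' : ℝ} {g g' : K} {μ ν ξ : Ω → ℝ} (h : Cl η g μ ν) (k : Cl η' g' ν ξ) :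
    Cl (η' + η) (g' * g) μ ξ := fun ω => by
  rw [mul_smul]
  exact (abs_sub_le _ (ν (g • ω)) _).trans (add_le_add (k _) (h _))

theorem Ct.mono {η η' : ℝ} {p p' : B → Ω → ℝ} {a : En K B} (h : Ct η p p' a) (k : η ≤ η') :
    Ct η' p p' a := fun t' t e => (h t' t e).mono k
theorem Ct.mul {η η' : ℝ} {p p' p'' : B → Ω → ℝ} {a b : En K B} (ha : Ct η' p' p'' a)
    (hb : Ct η p p' b) : Ct (η' + η) p p'' (a * b) := fun t'' t e => by
  obtain ⟨t', e1, e2⟩ := kr_mul_ne e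
  have := (hb _ _ e2).tr2 (ha _ _ e1)
  rwa [mul_assoc, mul_inv_cancel_left] at this
theorem Ct.add {η : ℝ} {p p' : B → Ω → ℝ} {a b : En K B} (ha : Ct η p p' a) (hb : Ct η p p' b) :
    Ct η p p' (a + b) := fun t' t e => by
  by_cases h : kr a t' t = 0
  · exact hb _ _ (by rwa [kr_add, h, zero_add] at e)
  · exact ha _ _ h
theorem Ct.neg {η : ℝ} {p p' : B → Ω → ℝ} {a : En K B} (ha : Ct η p p' a) : Ct η p p' (-a) :=
  fun t' t e => ha _ _ (by rwa [kr_neg, neg_ne_zero] at e)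
theorem ct_one {η : ℝ} (h : 0 ≤ η) (p : B → Ω → ℝ) : Ct η p p (1 : En K B) := fun t' t e => by
  rw [kr_one_ne e, inv_mul_cancel]
  exact Cl.rfl h _
theorem ct_zero (η : ℝ) (p p' : B → Ω → ℝ) : Ct η p p' (0 : En K B) := fun _ _ e => absurd rfl e
theorem ct_prj {η : ℝ} (h : 0 ≤ η) (p : B → Ω → ℝ) (S : Set B) : Ct η p p (prj K S) :=
  fun t' t e => by
    rw [(kr_prj_ne e).1, inv_mul_cancel]
    exact Cl.rfl h _
theorem Ct.tr {η : ℝ} {p : B → Ω → ℝ} {p' : B' → Ω → ℝ} {a : En K B} (h : Ct η p p a)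
    {j j' : B ↪ B'} (e : ∀ b, p' (j b) = p b) (e' : ∀ b, p' (j' b) = p b) :
    Ct η p' p' (tr j j' a) := fun t' t k => by
  obtain ⟨b', b, e1, e2, e3⟩ := kr_tr_ne k
  rw [e1, e2, e, e']
  exact h _ _ e3
theorem Ct.cp {η : ℝ} {p : B → Ω → ℝ} {p' : B' → Ω → ℝ} {a : En K B'} (h : Ct η p' p' a)
    {j : B ↪ B'} (e : ∀ b, p' (j b) = p b) : Ct η p p (cp j a) := fun t' t k => by
  rw [← e, ← e]
  exact h (t'.1, j t'.2) (t.1, j t.2) (by rwa [← kr_cp])
theorem ct_Dg {η : ℝ} {p : B × J → Ω → ℝ} {a : J → En K B}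
    (h : ∀ k, Ct η (fun b => p (b, k)) (fun b => p (b, k)) (a k)) : Ct η p p (Dg K B J a) := by
  rintro ⟨g', b', k'⟩ ⟨g, b, k⟩ e
  obtain ⟨rfl, e2⟩ := kr_Dg_ne e
  exact h _ _ _ e2
theorem ct_mo {η : ℝ} {p p' : B → Ω → ℝ} {σ : K × B ≃ K × B} (ε : K × B → ℤˣ)
    (h : ∀ t, Cl η ((σ t).1⁻¹ * t.1) (p t.2) (p' (σ t).2)) :
    Ct η p p' (mo σ ε).1 ∧ Ct η p' p (mo σ ε)⁻¹.1 := by
  refine ⟨fun t' t e => kr_mo_ne e ▸ h t, fun t' t e => ?_⟩
  rw [mo_inv] at e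
  have := (h (σ.symm t)).symm
  rw [Equiv.apply_symm_apply, mul_inv_rev, inv_inv] at this
  exact kr_mo_ne e ▸ this

end Pool.Agent.Work.MP_9d1ffa_al.WL.A1
end

-- merged part: Pool.Agent.Work.MP_9d1ffa_al.WL.Rs
section
/-! Restriction from `K × ℤ` to `K`. -/

namespace Pool.Agent.Work.MP_9d1ffa_al.WL.A1

open Finsupp

noncomputable section

/-- the product with an infinite cyclic group that acts trivially -/
def KZ (K : Type) : Type := K × Multiplicative ℤ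

instance (K : Type) [Group K] : Group (KZ K) := inferInstanceAs (Group (K × Multiplicative ℤ))

instance (K Ω : Type) [Group K] [MulAction K Ω] : MulAction (KZ K) Ω :=
  MulAction.compHom Ω (MonoidHom.fst K (Multiplicative ℤ))

variable {K B B' Ω : Type}

def kz (g : K) (n : ℤ) : KZ K := (g, Multiplicative.ofAdd n)

def eqZ (K B : Type) : KZ K × B ≃ K × B × ℤ where
  toFun t := (t.1.1, t.2, Multiplicative.toAdd t.1.2)
  invFun t := (kz t.1 t.2.2, t.2.1)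
  left_inv _ := rfl
  right_inv _ := rfl

/-- restriction -/
def res (K B : Type) : En (KZ K) B ≃+* En K (B × ℤ) :=
  (Finsupp.domLCongr (eqZ K B) : Md (KZ K) B ≃ₗ[ℤ] Md K (B × ℤ)).conjRingEquiv

theorem Rs_app (a : En (KZ K) B) (t : KZ K × B) :
    res K B a (single (eqZ K B t) 1) = Finsupp.domLCongr (R := ℤ) (eqZ K B) (a (single t 1)) := by
  have e : (Finsupp.domLCongr (eqZ K B) : Md (KZ K) B ≃ₗ[ℤ] Md K (B × ℤ)).symm
      (single (eqZ K B t) 1) = single t 1 := by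
    rw [LinearEquiv.symm_apply_eq, domLCongr_single]
  rw [← e]
  rfl

theorem kr_res (a : En (KZ K) B) (t' t : KZ K × B) :
    kr (res K B a) (eqZ K B t') (eqZ K B t) = kr a t' t := by
  rw [kr, Rs_app]
  rfl

/-- induction -/
def ind (K B : Type) : En K B →+* En (KZ K) B :=
  (res K B).symm.toRingHom.comp ((Dg K B ℤ).comp (Pi.constRingHom ℤ (En K B)))

theorem res_ind (a : En K B) : res K B (ind K B a) = Dg K B ℤ fun _ => a :=
  (res K B).apply_symm_apply _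

theorem Rs_kr (a : En (KZ K) B) (g' g : K) (n' n : ℤ) (b' b : B) :
    kr (res K B a) (g', b', n') (g, b, n) = kr a (kz g' n', b') (kz g n, b) :=
  kr_res a (kz g' n', b') (kz g n, b)

theorem kr_ind (a : En K B) (g' g : K) (n' n : ℤ) (b' b : B) :
    kr (ind K B a) (kz g' n', b') (kz g n, b) = if n' = n then kr a (g', b') (g, b) else 0 := by
  rw [← Rs_kr, res_ind, kr_Dg]
  split_ifs <;> rfl

/-- the embedding `j × id` -/
def emZ (j : B ↪ B') : B × ℤ ↪ B' × ℤ := j.prodMap (Function.Embedding.refl ℤ)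

theorem Rs_ind_ne {a : En K B} {t' t : KZ K × B} (h : kr (ind K B a) t' t ≠ 0) :
    kr a (t'.1.1, t'.2) (t.1.1, t.2) ≠ 0 := fun z => h <| by
  refine (kr_ind a t'.1.1 t.1.1 (Multiplicative.toAdd t'.1.2) (Multiplicative.toAdd t.1.2)
    t'.2 t.2).trans ?_
  rw [z, ite_self]

theorem Rs_tr0 {j j' : B ↪ B'} (a : En K B) (g' g : K) {c' c : B'}
    (e : ¬((∃ b', c' = j b') ∧ ∃ b, c = j' b)) : kr (tr j j' a) (g', c') (g, c) = 0 := by
  by_contra z
  obtain ⟨b', b, h1, h2, -⟩ := kr_tr_ne z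
  exact e ⟨⟨b', h1⟩, b, h2⟩

theorem res_tr (j j' : B ↪ B') (a : En (KZ K) B) :
    res K B' (tr j j' a) = tr (emZ j) (emZ j') (res K B a) := by
  refine kr_ext fun ⟨g', c', n'⟩ ⟨g, c, n⟩ => ?_
  rw [Rs_kr]
  by_cases e : (∃ b', c' = j b') ∧ ∃ b, c = j' b
  · obtain ⟨⟨b', rfl⟩, b, rfl⟩ := e
    rw [kr_tr, ← Rs_kr]
    exact (kr_tr (emZ j) (emZ j') _ g' g (b', n') (b, n)).symm
  · rw [Rs_tr0 _ _ _ e, Rs_tr0]
    rintro ⟨⟨b', h1⟩, b, h2⟩
    exact e ⟨⟨b'.1, congrArg Prod.fst h1⟩, b.1, congrArg Prod.fst h2⟩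

theorem res_xt (j : B ↪ B') (a : En (KZ K) B) :
    res K B' (xt (KZ K) j a) = xt K (emZ j) (res K B a) := by
  rw [xt_apply, xt_apply, map_add, map_one, res_tr, map_sub, map_one]

theorem Rs_ind_tr (j j' : B ↪ B') (a : En K B) :
    ind K B' (tr j j' a) = tr j j' (ind K B a) := by
  refine kr_ext fun t' t => ?_
  obtain ⟨⟨g', c', n'⟩, rfl⟩ := (eqZ K B').symm.surjective t'
  obtain ⟨⟨g, c, n⟩, rfl⟩ := (eqZ K B').symm.surjective t
  refine (kr_ind _ g' g n' n c' c).trans (Eq.trans ?_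
    (rfl : kr (tr j j' (ind K B a)) (kz g' n', c') (kz g n, c) = _))
  by_cases e : (∃ b', c' = j b') ∧ ∃ b, c = j' b
  · obtain ⟨⟨b', rfl⟩, b, rfl⟩ := e
    rw [kr_tr, kr_tr, kr_ind]
  · rw [Rs_tr0 _ _ _ e, Rs_tr0 _ _ _ e, ite_self]

theorem ind_xt (j : B ↪ B') (a : En K B) : ind K B' (xt K j a) = xt (KZ K) j (ind K B a) := by
  rw [xt_apply, xt_apply, map_add, map_one, Rs_ind_tr, map_sub, map_one]

theorem res_prj (S : Set B) : res K B (prj (KZ K) S) = prj K {x | x.1 ∈ S} := by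
  refine kr_ext fun ⟨g', b', n'⟩ ⟨g, b, n⟩ => ?_
  rw [Rs_kr, ← mul_one (prj (KZ K) S), ← mul_one (prj K _), kr_prj_mul, kr_prj_mul, ← Rs_kr,
    map_one]
  rfl

theorem Sp.res {S : Set B} {a : En (KZ K) B} (h : Sp S a) : Sp {x | x.1 ∈ S} (res K B a) :=
  fun ⟨g', b', n'⟩ ⟨g, b, n⟩ e => h (kz g' n', b') (kz g n, b) (by rwa [Rs_kr] at e)

theorem IsM.res {a : En (KZ K) B} (h : IsM a) : IsM (res K B a) := by
  intro t
  obtain ⟨s, rfl⟩ := (eqZ K B).surjective t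
  obtain ⟨t', ε, e⟩ := h s
  exact ⟨eqZ K B t', ε, by rw [Rs_app, e, domLCongr_single]⟩

theorem Fi.ind {a : En K B} (h : Fi a) : Fi (ind K B a) := by
  refine Set.Finite.subset h ?_
  rintro b ⟨g, t', e⟩
  exact ⟨_, _, Rs_ind_ne e⟩

theorem RF.ind {a : En K B} (h : RF a) : RF (ind K B a) := by
  intro b'
  refine (h b').subset ?_
  rintro b ⟨g, g', e⟩
  exact ⟨_, _, Rs_ind_ne e⟩

open Classical in
/-- the shift over `π` -/
def shP (K : Type) (π : Set B) : K × B × ℤ ≃ K × B × ℤ where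
  toFun t := (t.1, t.2.1, if t.2.1 ∈ π then t.2.2 + 1 else t.2.2)
  invFun t := (t.1, t.2.1, if t.2.1 ∈ π then t.2.2 - 1 else t.2.2)
  left_inv := by
    rintro ⟨g, b, n⟩
    by_cases h : b ∈ π <;> simp [h]
  right_inv := by
    rintro ⟨g, b, n⟩
    by_cases h : b ∈ π <;> simp [h]

/-- multiplication by the generator over `π` -/
def tP (K : Type) (π : Set B) : KZ K × B ≃ KZ K × B :=
  (eqZ K B).trans ((shP K π).trans (eqZ K B).symm)

theorem res_tP (π : Set B) : res K B (mo (tP K π) 1).1 = (mo (shP K π) 1).1 := by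
  refine Oq_ext fun t => ?_
  obtain ⟨s, rfl⟩ := (eqZ K B).surjective t
  rw [Rs_app, mo_apply, mo_apply, domLCongr_single]
  rfl

open Classical in
theorem Rs_tP (π : Set B) (g : K) (n : ℤ) (b : B) :
    tP K π (kz g n, b) = (kz g (if b ∈ π then n + 1 else n), b) := rfl

theorem xt_tP (j : B ↪ B') (π : Set B) :
    xt (KZ K) j (mo (tP K π) 1).1 = (mo (tP K (j '' π)) 1).1 := by
  refine Oq_ext fun t => ?_
  obtain ⟨⟨g, c, n⟩, rfl⟩ := (eqZ K B').symm.surjective t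
  show xt (KZ K) j (mo (tP K π) 1).1 (single (kz g n, c) 1) =
    (mo (tP K (j '' π)) 1).1 (single (kz g n, c) 1)
  rw [xt_apply, LinearMap.add_apply, Ot_tr_apply, mo_apply, Rs_tP, Module.End.one_apply]
  by_cases e : c ∈ Set.range j
  · obtain ⟨b, rfl⟩ := e
    rw [Ot_dn_single, LinearMap.sub_apply, mo_apply, Rs_tP, Module.End.one_apply, map_sub,
      Ot_up_single, Ot_up_single, add_sub_cancel]
    have e : j b ∈ j '' π ↔ b ∈ π := j.injective.mem_set_image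
    by_cases h : b ∈ π
    · rw [if_pos h, if_pos (e.2 h)]
      rfl
    · rw [if_neg h, if_neg (mt e.1 h)]
      rfl
  · rw [Ot_dn_nmem j (t := (kz g n, c)) e, map_zero, map_zero, add_zero,
      if_neg fun h => e (Set.image_subset_range _ _ h)]
    rfl

/-- `kr_conj` -/
theorem kr_tP_conj {π : Set B} {a : En K B} {t' t : KZ K × B}
    (h : kr ((mo (tP K π) 1).1 * ind K B a * (mo (tP K π) 1)⁻¹.1 - ind K B a) t' t ≠ 0) :
    kr a (t'.1.1, t'.2) (t.1.1, t.2) ≠ 0 ∧ ¬(t'.2 ∈ π ↔ t.2 ∈ π) := by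
  obtain ⟨s', rfl⟩ := (tP K π).surjective t'
  obtain ⟨s, rfl⟩ := (tP K π).surjective t
  obtain ⟨⟨g', b', n'⟩, rfl⟩ := (eqZ K B).symm.surjective s'
  obtain ⟨⟨g, b, n⟩, rfl⟩ := (eqZ K B).symm.surjective s
  rw [kr_sub, kr_conj] at h
  change kr (ind K B a) (kz g' n', b') (kz g n, b) -
    kr (ind K B a) (tP K π (kz g' n', b')) (tP K π (kz g n, b)) ≠ 0 at h
  rw [Rs_tP, Rs_tP, kr_ind, kr_ind] at h
  refine ⟨fun z : kr a (g', b') (g, b) = 0 => h ?_, fun e : b' ∈ π ↔ b ∈ π => h ?_⟩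
  · rw [z, ite_self, ite_self, sub_self]
  · by_cases hb : b ∈ π
    · simp only [if_pos hb, if_pos (e.2 hb), add_left_inj, sub_self]
    · simp only [if_neg hb, if_neg (mt e.1 hb), sub_self]

/-- the half space -/
def hf (B : Type) : Set (B × ℤ) := {x | 0 ≤ x.2}

/-- the shifted half space -/
def hfP (π : Set B) : Set (B × ℤ) := {x | 0 ≤ x.2 ∨ (x.2 = -1 ∧ x.1 ∈ π)}

theorem shP_hf (π : Set B) :
    (mo (shP K π) 1)⁻¹.1 * prj K (hf B) * (mo (shP K π) 1).1 = prj K (hfP π) := by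
  refine Oq_ext fun ⟨g, b, n⟩ => ?_
  have e : (shP K π (g, b, n)).2 ∈ hf B ↔ (b, n) ∈ hfP π := by
    by_cases h : b ∈ π
    · simp only [shP, hf, hfP, Equiv.coe_fn_mk, Set.mem_ofPred_eq, h, if_true, and_true]
      omega
    · simp only [shP, hf, hfP, Equiv.coe_fn_mk, Set.mem_ofPred_eq, h, if_false, and_false, or_false]
  rw [Module.End.mul_apply, Module.End.mul_apply, mo_apply, Pi.one_apply, Units.val_one]
  by_cases h : (b, n) ∈ hfP π
  · rw [prj_mem (e.2 h), prj_mem (t := (g, b, n)) h, mo_inv, mo_apply, Equiv.symm_apply_apply]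
    rfl
  · rw [prj_nmem (mt e.1 h), prj_nmem (t := (g, b, n)) h, map_zero]

theorem Sp.shP {S : Set B} (π : Set B) {a : En K (B × ℤ)} (h : Sp {x | x.1 ∈ S} a) :
    Sp {x | x.1 ∈ S} ((mo (shP K π) 1)⁻¹.1 * a * (mo (shP K π) 1).1) := by
  intro t' t e
  rw [← kr_conj (A1.shP K π)] at e
  simp only [← mul_assoc, Units.mul_inv, one_mul, Units.mul_inv_cancel_right] at e
  exact h (A1.shP K π t') (A1.shP K π t) e

theorem comm_hf_Dg (a : ℤ → En K B) : Commute (prj K (hf B)) (Dg K B ℤ a) :=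
  comm_prj_iff.2 fun t' t e => by simp only [hf, Set.mem_ofPred_eq, (kr_Dg_ne e).1]

theorem comm_hfP_Dg (π : Set B) {a : ℤ → En K B} (h : a (-1) = 1) :
    Commute (prj K (hfP π)) (Dg K B ℤ a) := by
  refine comm_prj_iff.2 fun t' t e => ?_
  obtain ⟨e1, e2⟩ := kr_Dg_ne e
  by_cases hn : t.2.2 = -1
  · rw [hn, h] at e2
    have e3 : t'.2.1 = t.2.1 := congrArg Prod.snd (kr_one_ne e2)
    simp only [hfP, Set.mem_ofPred_eq, e1, e3]
  · simp only [hfP, Set.mem_ofPred_eq, e1, hn, false_and]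

theorem comm_hf_xt (j : B ↪ B') {a : En K (B × ℤ)} (h : Commute (prj K (hf B)) a) :
    Commute (prj K (hf B')) (xt K (emZ j) a) := by
  rw [xt_apply]
  refine (Commute.one_right _).add_right (comm_prj_iff.2 fun t' t e => ?_)
  obtain ⟨b', b, e1, e2, e3⟩ := kr_tr_ne e
  rw [e1, e2]
  exact comm_prj_iff.1 (h.sub_right (Commute.one_right _)) _ _ e3

variable [Group K]

theorem Rs_mul (x g : K) (m n : ℤ) : kz x m * kz g n = kz (x * g) (m + n) := rfl

theorem Rs_norm {a : En (KZ K) B} (e : Eqv a) (g' g : K) (n' n : ℤ) (b' b : B) :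
    kr (res K B a) (g', b', n') (g, b, n) = kr a (kz (g⁻¹ * g') (n' - n), b') (1, b) := by
  have := e (kz g n) (kz (g⁻¹ * g') (n' - n)) 1 b' b
  rw [Rs_mul, mul_inv_cancel_left, add_sub_cancel, mul_one] at this
  rw [Rs_kr, this]

theorem Eqv.res {a : En (KZ K) B} (h : Eqv a) : Eqv (res K B a) := by
  rintro x g' g ⟨b', n'⟩ ⟨b, n⟩
  have := h (kz x 0) (kz g' n') (kz g n) b' b
  rw [Rs_mul, Rs_mul, zero_add, zero_add] at this
  rw [Rs_kr, Rs_kr, this]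

theorem RF.res {a : En (KZ K) B} (h : RF a) (e : Eqv a) : RF (res K B a) := by
  rintro ⟨b', n'⟩
  refine ((h b').biUnion fun b _ => (kr_fin a (1, b)).image
    fun t => (b, n' - Multiplicative.toAdd t.1.2)).subset ?_
  rintro ⟨b, n⟩ ⟨g, g', z⟩
  rw [Rs_norm e] at z
  exact Set.mem_biUnion (x := b) ⟨_, _, z⟩ ⟨_, z, Prod.ext rfl (sub_sub_cancel n' n)⟩

theorem Eqv.ind {a : En K B} (h : Eqv a) : Eqv (ind K B a) := by
  intro x g' g b' b
  refine (kr_ind a (x.1 * g'.1) (x.1 * g.1) (Multiplicative.toAdd x.2 + Multiplicative.toAdd g'.2)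
    (Multiplicative.toAdd x.2 + Multiplicative.toAdd g.2) b' b).trans (Eq.trans ?_
    (kr_ind a g'.1 g.1 (Multiplicative.toAdd g'.2) (Multiplicative.toAdd g.2) b' b).symm)
  simp only [h x.1, add_right_inj]

theorem eqP_shP (π : Set B) : EqP (shP K π) := fun _ _ _ => rfl

theorem eqP_tP (π : Set B) : EqP (tP K π) := by
  intro x g b
  refine (Rs_tP π (x.1 * g.1) (Multiplicative.toAdd x.2 + Multiplicative.toAdd g.2) b).trans
    (Eq.trans ?_ (congrArg (fun t : KZ K × B => (x * t.1, t.2))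
      (Rs_tP π g.1 (Multiplicative.toAdd g.2) b).symm))
  split_ifs
  · rw [add_assoc]
    rfl
  · rfl

/-- A finite equivariant operator moves the copies by a bounded amount, so only finitely many
columns cross the boundary of the half space. -/
theorem fi_cross {a : En (KZ K) B} (h : Fi a) (e : Eqv a) :
    Fi (prj K (hf B) * res K B a * prj K (hf B)ᶜ + prj K (hf B)ᶜ * res K B a * prj K (hf B)) := by
  refine (Set.Finite.biUnion h fun b _ => (kr_fin a (1, b)).biUnion fun t _ =>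
    (Set.finite_Icc (-|Multiplicative.toAdd t.1.2|) |Multiplicative.toAdd t.1.2|).image
      fun n => (b, n)).subset ?_
  rintro ⟨b, n⟩ ⟨g, ⟨g', b', n'⟩, z⟩
  rw [kr_add, kr_mul_prj, kr_mul_prj, kr_prj_mul, kr_prj_mul, Rs_norm e] at z
  simp only [hf, Set.mem_compl_iff, Set.mem_ofPred_eq] at z
  have z1 : kr a (kz (g⁻¹ * g') (n' - n), b') (1, b) ≠ 0 := fun w => z (by simp [w])
  have z2 : ¬(0 ≤ n' ↔ 0 ≤ n) := fun w => z (by by_cases hn : 0 ≤ n <;> simp [hn, w])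
  refine Set.mem_biUnion (x := b) ⟨_, _, z1⟩ (Set.mem_biUnion z1 ⟨n, ?_, rfl⟩)
  show -|n' - n| ≤ n ∧ n ≤ |n' - n|
  rcases abs_cases (n' - n) with w | w <;> omega

variable [MulAction K Ω]

theorem cl_kz {η : ℝ} {g : KZ K} {μ ν : Ω → ℝ} : Cl η g μ ν ↔ Cl η g.1 μ ν := Iff.rfl

theorem Ct.res {η : ℝ} {p : B → Ω → ℝ} {a : En (KZ K) B} (h : Ct η p p a) :
    Ct η (fun x => p x.1) (fun x => p x.1) (res K B a) :=
  fun ⟨g', b', n'⟩ ⟨g, b, n⟩ e => cl_kz.1 (h (kz g' n', b') (kz g n, b) (by rwa [Rs_kr] at e))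

theorem Ct.ind {η : ℝ} {p : B → Ω → ℝ} {a : En K B} (h : Ct η p p a) : Ct η p p (ind K B a) :=
  fun t' t e => cl_kz.2 (h (t'.1.1, t'.2) (t.1.1, t.2) (Rs_ind_ne e))

/-- the stabiliser in `K × ℤ` -/
theorem st_kz (ν : Ω → ℝ) : Nonempty (St K ν × Multiplicative ℤ ≃* St (KZ K) ν) :=
  ⟨{ toFun := fun x => ⟨(x.1.1, x.2), x.1.2⟩
     invFun := fun y => (⟨y.1.1, y.2⟩, y.1.2)
     left_inv := fun _ => rfl
     right_inv := fun _ => rfl
     map_mul' := fun _ _ => rfl }⟩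

end

end Pool.Agent.Work.MP_9d1ffa_al.WL.A1
end

-- merged part: Pool.Agent.Work.MP_9d1ffa_al.WL.Rg
section
/-! Families of operators along a filter whose control tends to zero. -/

namespace Pool.Agent.Work.MP_9d1ffa_al.WL.A1

open Filter

noncomputable section

abbrev SR {ι : Type} (K : Type) (B : ι → Type) : Type := ∀ i, En K (B i)

abbrev SU {ι : Type} (K : Type) (B : ι → Type) : Type := ∀ i, (En K (B i))ˣ

variable {ι K Ω : Type} {B : ι → Type}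

/-- the underlying family of operators -/
def vl : SU K B →* SR K B where
  toFun u i := (u i).1
  map_one' := rfl
  map_mul' _ _ := rfl

theorem vl_apply (u : SU K B) (i : ι) : vl u i = (u i).1 := rfl

theorem vl_inj {u v : SU K B} (h : vl u = vl v) : u = v :=
  funext fun i => Units.ext (congrFun h i)

theorem vl_mul_inv (u : SU K B) : vl u * vl u⁻¹ = 1 := by rw [← map_mul, mul_inv_cancel, map_one]

theorem vl_inv_mul (u : SU K B) : vl u⁻¹ * vl u = 1 := by rw [← map_mul, inv_mul_cancel, map_one]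

/-- the family of units with given value and inverse -/
def mkU (a b : SR K B) (h : a * b = 1) (h' : b * a = 1) : SU K B :=
  fun i => ⟨a i, b i, congrFun h i, congrFun h' i⟩

theorem vl_mkU (a b : SR K B) (h : a * b = 1) (h' : b * a = 1) : vl (mkU a b h h') = a := rfl

theorem vl_mkU_inv (a b : SR K B) (h : a * b = 1) (h' : b * a = 1) : vl (mkU a b h h')⁻¹ = b := rfl

/-- eventually finite -/
def Fn (l : Filter ι) (a : SR K B) : Prop := ∀ᶠ i in l, Fi (a i)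

/-- eventually trivial -/
def Ev (l : Filter ι) : Set (SU K B) := {u | ∀ᶠ i in l, u i = 1}

variable [Group K] [MulAction K Ω]

/-- equivariant row finite families whose control tends to zero -/
def RR (K : Type) [Group K] [MulAction K Ω] (l : Filter ι) (p : ∀ i, B i → Ω → ℝ) :
    Subring (SR K B) where
  carrier := {a | (∀ᶠ i in l, Eqv (a i) ∧ RF (a i)) ∧
    ∀ η : ℝ, 0 < η → ∀ᶠ i in l, Ct η (p i) (p i) (a i)}
  mul_mem' := fun ha hb => ⟨(ha.1.and hb.1).mono fun _ h => ⟨h.1.1.mul h.2.1, h.1.2.mul h.2.2⟩,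
    fun η hη => ((ha.2 _ (half_pos hη)).and (hb.2 _ (half_pos hη))).mono fun _ h =>
      (h.1.mul h.2).mono (add_halves η).le⟩
  one_mem' := ⟨.of_forall fun _ => ⟨eqv_one, rf_one⟩, fun _ hη => .of_forall fun _ => ct_one hη.le _⟩
  add_mem' := fun ha hb => ⟨(ha.1.and hb.1).mono fun _ h => ⟨h.1.1.add h.2.1, h.1.2.add h.2.2⟩,
    fun η hη => ((ha.2 η hη).and (hb.2 η hη)).mono fun _ h => h.1.add h.2⟩
  zero_mem' := ⟨.of_forall fun _ => ⟨eqv_zero, rf_zero⟩, fun _ _ => .of_forall fun _ => ct_zero _ _ _⟩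
  neg_mem' := fun ha => ⟨ha.1.mono fun _ h => ⟨h.1.neg, h.2.neg⟩,
    fun η hη => (ha.2 η hη).mono fun _ h => h.neg⟩

def GG (K : Type) [Group K] [MulAction K Ω] (l : Filter ι) (p : ∀ i, B i → Ω → ℝ) :
    Subgroup (SU K B) where
  carrier := {u | vl u ∈ RR K l p ∧ vl u⁻¹ ∈ RR K l p}
  mul_mem' := fun {u v} hu hv => ⟨by rw [map_mul]; exact mul_mem hu.1 hv.1,
    by rw [mul_inv_rev, map_mul]; exact mul_mem hv.2 hu.2⟩
  one_mem' := ⟨one_mem (RR K l p), by rw [inv_one]; exact one_mem (RR K l p)⟩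
  inv_mem' := fun hu => ⟨hu.2, hu.1⟩

/-- elementary families -/
def El (K : Type) [Group K] [MulAction K Ω] (l : Filter ι) (p : ∀ i, B i → Ω → ℝ) :
    Set (SU K B) :=
  {u | ∃ a ∈ RR K l p, ∃ b ∈ RR K l p, Fn l a ∧ Fn l b ∧ b * a = 0 ∧ vl u = 1 + a * b}

def E0 (K : Type) [Group K] [MulAction K Ω] (l : Filter ι) (p : ∀ i, B i → Ω → ℝ) :
    Subgroup (SU K B) := Subgroup.closure (El K l p ∪ Ev l)

/-- monomial families -/
def Mon (K : Type) [Group K] [MulAction K Ω] (l : Filter ι) (p : ∀ i, B i → Ω → ℝ) :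
    Subgroup (SU K B) where
  carrier := {u | u ∈ GG K l p ∧ ∀ᶠ i in l, IsM (u i).1 ∧ IsM (u i)⁻¹.1}
  mul_mem' := fun hu hv => ⟨mul_mem hu.1 hv.1,
    (hu.2.and hv.2).mono fun _ h => ⟨h.1.1.mul h.2.1, h.2.2.mul h.1.2⟩⟩
  one_mem' := ⟨one_mem _, .of_forall fun _ => ⟨isM_one, isM_one⟩⟩
  inv_mem' := fun hu => ⟨inv_mem hu.1, hu.2.mono fun _ h => ⟨h.2, h.1⟩⟩

/-- almost monomial families -/
def AM (K : Type) [Group K] [MulAction K Ω] (l : Filter ι) (p : ∀ i, B i → Ω → ℝ) :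
    Subgroup (SU K B) where
  carrier := {u | u ∈ GG K l p ∧ ∀ᶠ i in l, AMo (u i).1 ∧ AMo (u i)⁻¹.1}
  mul_mem' := fun hu hv => ⟨mul_mem hu.1 hv.1,
    ((hu.2.and hv.2).and (hv.1.1.1.and hu.1.2.1)).mono fun _ h =>
      ⟨h.1.1.1.mul h.1.2.1 h.2.1.2, h.1.2.2.mul h.1.1.2 h.2.2.2⟩⟩
  one_mem' := ⟨one_mem _, .of_forall fun _ => ⟨isM_one.amo, isM_one.amo⟩⟩
  inv_mem' := fun hu => ⟨inv_mem hu.1, hu.2.mono fun _ h => ⟨h.2, h.1⟩⟩

def EE (K : Type) [Group K] [MulAction K Ω] (l : Filter ι) (p : ∀ i, B i → Ω → ℝ) :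
    Subgroup (SU K B) := E0 K l p ⊔ Mon K l p

variable {l : Filter ι} {p : ∀ i, B i → Ω → ℝ}

theorem rr_congr {a b : SR K B} (ha : a ∈ RR K l p) (h : ∀ᶠ i in l, a i = b i) :
    b ∈ RR K l p :=
  ⟨(ha.1.and h).mono fun _ e => e.2 ▸ e.1, fun η hη => ((ha.2 η hη).and h).mono fun _ e => e.2 ▸ e.1⟩

theorem rr_prj (S : ∀ i, Set (B i)) : (fun i => prj K (S i)) ∈ RR K l p :=
  ⟨.of_forall fun _ => ⟨eqv_prj _, rf_prj _⟩, fun _ hη => .of_forall fun _ => ct_prj hη.le _ _⟩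

theorem Fn.add {a b : SR K B} (ha : Fn l a) (hb : Fn l b) : Fn l (a + b) :=
  (ha.and hb).mono fun _ h => h.1.add h.2
theorem Fn.neg {a : SR K B} (ha : Fn l a) : Fn l (-a) := ha.mono fun _ h => h.neg
theorem Fn.mul_left {b : SR K B} (hb : Fn l b) (a : SR K B) : Fn l (a * b) :=
  hb.mono fun _ h => h.mul_left _
theorem Fn.mul_right {a b : SR K B} (ha : Fn l a) (hb : b ∈ RR K l p) : Fn l (a * b) :=
  (ha.and hb.1).mono fun _ h => h.1.mul_right h.2.2

theorem fn_mul {u v : SU K B} (hu : Fn l (vl u - 1)) (hv : Fn l (vl v - 1)) :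
    Fn l (vl (u * v) - 1) := by
  rw [show vl (u * v) - 1 = vl u * (vl v - 1) + (vl u - 1) by
    rw [map_mul, mul_sub, mul_one, sub_add_sub_cancel]]
  exact (hv.mul_left _).add hu

theorem fn_inv {u : SU K B} (hu : Fn l (vl u - 1)) : Fn l (vl u⁻¹ - 1) := by
  rw [show vl u⁻¹ - 1 = -(vl u⁻¹ * (vl u - 1)) by rw [mul_sub, vl_inv_mul, mul_one, neg_sub]]
  exact (hu.mul_left _).neg

theorem fn_conj {g u : SU K B} (hg : g ∈ GG K l p) (hu : Fn l (vl u - 1)) :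
    Fn l (vl (g * u * g⁻¹) - 1) := by
  rw [show vl (g * u * g⁻¹) - 1 = vl g * (vl u - 1) * vl g⁻¹ by
    rw [mul_sub, sub_mul, mul_one, vl_mul_inv, map_mul, map_mul]]
  exact (hu.mul_left _).mul_right hg.2

theorem ev_e0 {u : SU K B} (h : ∀ᶠ i in l, u i = 1) : u ∈ E0 K l p :=
  Subgroup.subset_closure (Or.inr h)

theorem mem_congr {H : Subgroup (SU K B)} (hH : E0 K l p ≤ H) {u v : SU K B} (hu : u ∈ H)
    (h : ∀ᶠ i in l, u i = v i) : v ∈ H := by
  rw [← mul_inv_cancel_left u v]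
  exact mul_mem hu (hH (ev_e0 (h.mono fun i e => by
    rw [Pi.mul_apply, Pi.inv_apply, e, inv_mul_cancel])))

theorem Rg_sq {R : Type} [Ring R] {a b : R} (h : b * a = 0) :
    (1 + a * b) * (1 - a * b) = 1 ∧ (1 - a * b) * (1 + a * b) = 1 := by
  have e : a * b * (a * b) = 0 := by rw [mul_assoc, ← mul_assoc b, h, zero_mul, mul_zero]
  constructor
  · rw [add_mul, one_mul, mul_sub, mul_one, e, sub_zero, sub_add_cancel]
  · rw [sub_mul, one_mul, mul_add, mul_one, e, add_zero, add_sub_cancel_right]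

/-- the inverse of `1 + a b` is `1 - a b` -/
theorem e0_le_gg : E0 K l p ≤ GG K l p := by
  refine (Subgroup.closure_le _).2 ?_
  rintro u (⟨a, ha, b, hb, -, -, h, e⟩ | h)
  · refine ⟨e ▸ add_mem (one_mem _) (mul_mem ha hb), ?_⟩
    rw [left_inv_eq_right_inv (vl_inv_mul u) (e ▸ (Rg_sq h).1 : vl u * (1 - a * b) = 1)]
    exact sub_mem (one_mem _) (mul_mem ha hb)
  · exact ⟨rr_congr (one_mem _) (h.mono fun i e => by rw [vl_apply, e]; rfl),
      rr_congr (one_mem _) (h.mono fun i e => by rw [vl_apply, Pi.inv_apply, e]; rfl)⟩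

theorem e0_fn {u : SU K B} (h : u ∈ E0 K l p) : Fn l (vl u - 1) := by
  induction h using Subgroup.closure_induction with
  | mem u hu =>
    rcases hu with ⟨a, -, b, -, -, hb, -, e⟩ | hu
    · rw [e, add_sub_cancel_left]
      exact hb.mul_left a
    · refine hu.mono fun i e => ?_
      rw [Pi.sub_apply, vl_apply, e, Pi.one_apply, Units.val_one, sub_self]
      exact fi_zero
  | one =>
    rw [map_one, sub_self]
    exact .of_forall fun _ => fi_zero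
  | mul u v _ _ hu hv => exact fn_mul hu hv
  | inv u _ hu => exact fn_inv hu

/-- `g (1 + a b) g⁻¹ = 1 + (g a) (b g⁻¹)` -/
theorem el_conj {g u : SU K B} (hg : g ∈ GG K l p) (hu : u ∈ El K l p) :
    g * u * g⁻¹ ∈ El K l p := by
  obtain ⟨a, ha, b, hb, fa, fb, h, e⟩ := hu
  refine ⟨vl g * a, mul_mem hg.1 ha, b * vl g⁻¹, mul_mem hb hg.2, fa.mul_left _, fb.mul_right hg.2,
    ?_, ?_⟩
  · rw [mul_assoc, ← mul_assoc _ (vl g), vl_inv_mul, one_mul, h]
  · rw [map_mul, map_mul, e, mul_add, add_mul, mul_one, vl_mul_inv]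
    simp only [mul_assoc]

theorem e0_conj {g u : SU K B} (hg : g ∈ GG K l p) (hu : u ∈ E0 K l p) :
    g * u * g⁻¹ ∈ E0 K l p := by
  refine (Subgroup.closure_le ((E0 K l p).comap (MulAut.conj g).toMonoidHom)).2 ?_ hu
  rintro v (h | h)
  · exact Subgroup.subset_closure (Or.inl (el_conj hg h))
  · refine ev_e0 (h.mono fun i e => ?_)
    change g i * v i * (g i)⁻¹ = 1
    rw [e, mul_one, mul_inv_cancel]

theorem Rg_el {u : SU K B} {a b : SR K B} (ha : a ∈ RR K l p) (hb : b ∈ RR K l p) (fa : Fn l a)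
    (fb : Fn l b) (h : ∀ᶠ i in l, b i * a i = 0 ∧ (u i).1 = 1 + a i * b i) : u ∈ E0 K l p := by
  classical
  let c : SR K B := fun i => if b i * a i = 0 then a i else 0
  have e : ∀ᶠ i in l, a i = c i := h.mono fun i x => (if_pos x.1).symm
  have z : b * c = 0 := funext fun i => by
    change b i * (if b i * a i = 0 then a i else 0) = 0
    split_ifs with x
    exacts [x, mul_zero _]
  refine mem_congr le_rfl (u := mkU _ _ (Rg_sq z).1 (Rg_sq z).2) (Subgroup.subset_closure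
    (Or.inl ⟨c, rr_congr ha e, b, hb, (fa.and e).mono fun i x => x.2 ▸ x.1, fb, z, rfl⟩))
    ((h.and e).mono fun i x => Units.ext ?_)
  rw [x.1.2, x.2]
  rfl

/-- One finite factor suffices: by `Fi.sp` there are finite sets `S i` that carry the finite factor,
replace `b` by `prj S * b` or `a` by `a * prj S`; put `a i = 0` at the bad indices. -/
theorem e0_of {u : SU K B} {a b : SR K B} (ha : a ∈ RR K l p) (hb : b ∈ RR K l p)
    (hf : Fn l a ∨ Fn l b) (h : ∀ᶠ i in l, b i * a i = 0 ∧ (u i).1 = 1 + a i * b i) :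
    u ∈ E0 K l p := by
  have k : ∀ c ∈ RR K l p, Fn l c → ∃ S : ∀ i, Set (B i), Fn l (fun i => prj K (S i)) ∧
      ∀ᶠ i in l, prj K (S i) * c i = c i ∧ c i * prj K (S i) = c i := by
    intro c hc fc
    have : ∀ i, ∃ S : Set (B i), Fi (c i) ∧ Eqv (c i) ∧ RF (c i) → S.Finite ∧ Sp S (c i) :=
      fun i => by
        by_cases e : Fi (c i) ∧ Eqv (c i) ∧ RF (c i)
        · exact (e.1.sp e.2.1).imp fun _ x _ => x
        · exact ⟨∅, fun x => absurd x e⟩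
    choose S hS using this
    exact ⟨S, (fc.and hc.1).mono fun i e => fi_prj (hS i e).1,
      (fc.and hc.1).mono fun i e => sp_iff.1 (hS i e).2⟩
  rcases hf with hf | hf
  · obtain ⟨S, f, e⟩ := k a ha hf
    refine Rg_el ha (mul_mem (rr_prj S) hb) hf (f.mul_right hb) ((h.and e).mono fun i x => ?_)
    rw [Pi.mul_apply, mul_assoc, x.1.1, mul_zero, ← mul_assoc, x.2.2]
    exact ⟨rfl, x.1.2⟩
  · obtain ⟨S, f, e⟩ := k b hb hf
    refine Rg_el (mul_mem ha (rr_prj S)) hb (f.mul_left a) hf ((h.and e).mono fun i x => ?_)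
    rw [Pi.mul_apply, ← mul_assoc, x.1.1, zero_mul, mul_assoc, x.2.1]
    exact ⟨rfl, x.1.2⟩

theorem e0_le_ee : E0 K l p ≤ EE K l p := le_sup_left
theorem mon_le_ee : Mon K l p ≤ EE K l p := le_sup_right
theorem mon_le_gg : Mon K l p ≤ GG K l p := fun _ h => h.1
theorem am_le_gg : AM K l p ≤ GG K l p := fun _ h => h.1
theorem ee_le_gg : EE K l p ≤ GG K l p := sup_le e0_le_gg mon_le_gg

theorem mem_ee {u : SU K B} : u ∈ EE K l p ↔ ∃ μ ∈ Mon K l p, ∃ v ∈ E0 K l p, u = μ * v := by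
  refine ⟨fun h => ?_, ?_⟩
  · rw [EE, Subgroup.sup_eq_closure] at h
    induction h using Subgroup.closure_induction with
    | mem u hu =>
      rcases hu with hu | hu
      exacts [⟨1, one_mem _, u, hu, (one_mul u).symm⟩, ⟨u, hu, 1, one_mem _, (mul_one u).symm⟩]
    | one => exact ⟨1, one_mem _, 1, one_mem _, (one_mul 1).symm⟩
    | mul _ _ _ _ h h' =>
      obtain ⟨μ, hμ, v, hv, rfl⟩ := h
      obtain ⟨μ', hμ', v', hv', rfl⟩ := h'
      exact ⟨μ * μ', mul_mem hμ hμ', μ'⁻¹ * v * μ'⁻¹⁻¹ * v',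
        mul_mem (e0_conj (mon_le_gg (inv_mem hμ')) hv) hv', by group⟩
    | inv _ _ h =>
      obtain ⟨μ, hμ, v, hv, rfl⟩ := h
      exact ⟨μ⁻¹, inv_mem hμ, μ * v⁻¹ * μ⁻¹, e0_conj (mon_le_gg hμ) (inv_mem hv), by group⟩
  · rintro ⟨μ, hμ, v, hv, rfl⟩
    exact mul_mem (mon_le_ee hμ) (e0_le_ee hv)

theorem am_of_fn {u : SU K B} (hu : u ∈ GG K l p) (h : Fn l (vl u - 1)) : u ∈ AM K l p :=
  ⟨hu, (h.and (fn_inv h)).mono fun _ e => ⟨isM_one.amo.of_fi e.1, isM_one.amo.of_fi e.2⟩⟩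

theorem ee_le_am : EE K l p ≤ AM K l p :=
  sup_le (fun _ h => am_of_fn (e0_le_gg h) (e0_fn h))
    fun _ h => ⟨h.1, h.2.mono fun _ e => ⟨e.1.amo, e.2.amo⟩⟩

theorem mo_mem {σ : ∀ i, K × B i ≃ K × B i} (h : ∀ i, EqP (σ i))
    (hc : ∀ η : ℝ, 0 < η → ∀ᶠ i in l,
      ∀ t, Cl η ((σ i t).1⁻¹ * t.1) (p i t.2) (p i (σ i t).2)) :
    (fun i => mo (σ i) 1) ∈ Mon K l p :=
  ⟨⟨⟨.of_forall fun i => ⟨eqv_mo (h i) fun _ _ _ => rfl, rf_mo (h i) _⟩,
      fun η hη => (hc η hη).mono fun _ e => (ct_mo 1 e).1⟩,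
    ⟨.of_forall fun i => ⟨eqv_mo (h i).symm fun _ _ _ => rfl, rf_mo (h i).symm _⟩,
      fun η hη => (hc η hη).mono fun _ e => (ct_mo 1 e).2⟩⟩,
    .of_forall fun _ => ⟨isM_mo _ _, isM_mo _ _⟩⟩

end

end Pool.Agent.Work.MP_9d1ffa_al.WL.A1
end

-- merged part: Pool.Agent.Work.MP_9d1ffa_al.WL.Tr
section
/-! Stabilisation. -/

namespace Pool.Agent.Work.MP_9d1ffa_al.WL.A1

open Filter

noncomputable section

variable {ι K Ω : Type} {B B' B'' : ι → Type}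

/-- extension by the identity -/
def ex (K : Type) (j : ∀ i, B i ↪ B' i) : SU K B →* SU K B' where
  toFun u i := Units.map (xt K (j i)) (u i)
  map_one' := funext fun _ => map_one _
  map_mul' _ _ := funext fun _ => map_mul _ _ _

theorem ex_val (j : ∀ i, B i ↪ B' i) (u : SU K B) (i : ι) :
    (ex K j u i).1 = 1 + tr (j i) (j i) ((u i).1 - 1) := rfl

theorem ex_ex (j : ∀ i, B i ↪ B' i) (j' : ∀ i, B' i ↪ B'' i) (u : SU K B) :
    ex K j' (ex K j u) = ex K (fun i => (j i).trans (j' i)) u :=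
  funext fun _ => Units.ext (xt_xt _ _ _)

theorem ex_refl (u : SU K B) : ex K (fun i => Function.Embedding.refl (B i)) u = u :=
  funext fun i => Units.ext (by
    have e : ∀ a : En K (B i), tr (Function.Embedding.refl _) (Function.Embedding.refl _) a = a :=
      fun a => kr_ext fun t' t => kr_tr (Function.Embedding.refl _) _ a t'.1 t.1 t'.2 t.2
    rw [ex_val, e, add_sub_cancel])

theorem ex_comm {j j' : ∀ i, B i ↪ B' i} (h : ∀ i b b', j i b ≠ j' i b') (u v : SU K B) :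
    Commute (ex K j u) (ex K j' v) :=
  funext fun i => Units.ext (by
    have h' : ∀ b b', j' i b ≠ j i b' := fun b b' e => h i b' b e.symm
    simp only [Pi.mul_apply, Units.val_mul, ex_val, mul_add, add_mul, one_mul, mul_one,
      tr_mul_zero (h i), tr_mul_zero h']
    abel)

theorem fn_ex {l : Filter ι} (j : ∀ i, B i ↪ B' i) {u : SU K B} (h : Fn l (vl u - 1)) :
    Fn l (vl (ex K j u) - 1) := h.mono fun i k => by
  rw [Pi.sub_apply, vl_apply, ex_val, Pi.one_apply, add_sub_cancel_left]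
  exact k.tr _ _

/-- the positions lie eventually in a member of the family `𝒜` of positive level -/
def Lev (l : Filter ι) (𝒜 : ℝ → Set (Ω → ℝ)) (p : ∀ i, B i → Ω → ℝ) : Prop :=
  ∃ c : ℝ, 0 < c ∧ ∀ᶠ i in l, ∀ b, ∃ c', c ≤ c' ∧ p i b ∈ 𝒜 c'

variable {l : Filter ι} {p : ∀ i, B i → Ω → ℝ} {p' : ∀ i, B' i → Ω → ℝ}
  {𝒜 𝒜' : ℝ → Set (Ω → ℝ)}

theorem Lev.mono (h : Lev l 𝒜 p) (k : ∀ c, 𝒜 c ⊆ 𝒜' c) : Lev l 𝒜' p :=
  h.imp fun _ h => ⟨h.1, h.2.mono fun _ e b => (e b).imp fun c z => ⟨z.1, k c z.2⟩⟩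

theorem Lev.of_mem (h : Lev l 𝒜 p) (k : ∀ᶠ i in l, ∀ b', ∃ b, p' i b' = p i b) : Lev l 𝒜 p' :=
  h.imp fun _ h => ⟨h.1, (h.2.and k).mono fun _ e b' => (e.2 b').elim fun b z => z ▸ e.1 b⟩

theorem Lev.sum (h : Lev l 𝒜 p) (h' : Lev l 𝒜 p') :
    Lev l 𝒜 fun i => Sum.elim (p i) (p' i) := by
  obtain ⟨c, hc, h⟩ := h
  obtain ⟨c', hc', h'⟩ := h'
  refine ⟨min c c', lt_min hc hc', (h.and h').mono ?_⟩
  rintro i e (b | b)
  exacts [(e.1 b).imp fun _ z => ⟨(min_le_left _ _).trans z.1, z.2⟩,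
    (e.2 b).imp fun _ z => ⟨(min_le_right _ _).trans z.1, z.2⟩]

theorem Lev.of_two {p'' : ∀ i, B'' i → Ω → ℝ} (h : Lev l 𝒜 p) (h' : Lev l 𝒜 p')
    (k : ∀ᶠ i in l, ∀ x, (∃ b, p'' i x = p i b) ∨ ∃ b, p'' i x = p' i b) : Lev l 𝒜 p'' :=
  (h.sum h').of_mem (k.mono fun _ e x => (e x).elim (fun ⟨b, z⟩ => ⟨Sum.inl b, z⟩)
    fun ⟨b, z⟩ => ⟨Sum.inr b, z⟩)

variable [Group K] [MulAction K Ω]

theorem rr_tr {j j' : ∀ i, B i ↪ B' i} (e : ∀ i b, p' i (j i b) = p i b)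
    (e' : ∀ i b, p' i (j' i b) = p i b) {a : SR K B} (h : a ∈ RR K l p) :
    (fun i => tr (j i) (j' i) (a i)) ∈ RR K l p' :=
  ⟨h.1.mono fun _ k => ⟨k.1.tr _ _, k.2.tr _ _⟩,
    fun η hη => (h.2 η hη).mono fun i k => k.tr (e i) (e' i)⟩

theorem gg_ex {j : ∀ i, B i ↪ B' i} (e : ∀ i b, p' i (j i b) = p i b) {u : SU K B}
    (h : u ∈ GG K l p) : ex K j u ∈ GG K l p' :=
  ⟨add_mem (one_mem _) (rr_tr e e (sub_mem h.1 (one_mem _))),
    add_mem (one_mem _) (rr_tr e e (sub_mem h.2 (one_mem _)))⟩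

theorem e0_ex {j : ∀ i, B i ↪ B' i} (e : ∀ i b, p' i (j i b) = p i b) {u : SU K B}
    (h : u ∈ E0 K l p) : ex K j u ∈ E0 K l p' := by
  refine (Subgroup.closure_le ((E0 K l p').comap (ex K j))).2 ?_ h
  rintro v (⟨a, ha, b, hb, fa, fb, z, k⟩ | k)
  · refine Subgroup.subset_closure (Or.inl ⟨_, rr_tr e e ha, _, rr_tr e e hb,
      fa.mono fun i k => k.tr _ _, fb.mono fun i k => k.tr _ _, funext fun i => ?_,
      funext fun i => ?_⟩)
    · exact (tr_mul _ _ _ _ _).trans ((congrArg _ (congrFun z i)).trans (tr_zero _ _))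
    · have k' : (v i).1 = 1 + a i * b i := congrFun k i
      rw [vl_apply, ex_val, k', add_sub_cancel_left, ← tr_mul _ (j i)]
      rfl
  · exact ev_e0 (Filter.Eventually.mono k fun i z =>
      (congrArg (Units.map (xt K (j i))) z).trans (map_one _))

theorem mon_ex {j : ∀ i, B i ↪ B' i} (e : ∀ i b, p' i (j i b) = p i b) {u : SU K B}
    (h : u ∈ Mon K l p) : ex K j u ∈ Mon K l p' :=
  ⟨gg_ex e h.1, h.2.mono fun _ k => ⟨k.1.xt _, k.2.xt _⟩⟩

theorem ee_ex {j : ∀ i, B i ↪ B' i} (e : ∀ i b, p' i (j i b) = p i b) {u : SU K B}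
    (h : u ∈ EE K l p) : ex K j u ∈ EE K l p' :=
  (sup_le (fun _ k => e0_le_ee (e0_ex e k)) fun _ k => mon_le_ee (mon_ex e k) :
    EE K l p ≤ (EE K l p').comap (ex K j)) h

section

variable {C C' : Type} {j j' : C ↪ C'}

/-- the involution that exchanges two copies -/
def Tr_s (K : Type) (j j' : C ↪ C') : En K C' :=
  1 - tr j j 1 - tr j' j' 1 + tr j j' 1 + tr j' j 1

omit [Group K] in
theorem Tr_s_sq (h : ∀ b b', j b ≠ j' b') : Tr_s K j j' * Tr_s K j j' = 1 := by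
  have h' : ∀ b b', j' b ≠ j b' := fun b b' e => h b' b e.symm
  simp only [Tr_s, mul_add, add_mul, mul_sub, sub_mul, one_mul, mul_one, tr_mul, tr_mul_zero h,
    tr_mul_zero h']
  abel

omit [Group K] in
theorem Tr_s_conj (h : ∀ b b', j b ≠ j' b') (x : En K C) :
    1 + tr j j x = Tr_s K j j' * (1 + tr j' j' x) * Tr_s K j j' := by
  have h' : ∀ b b', j' b ≠ j b' := fun b b' e => h b' b e.symm
  have e1 : Tr_s K j j' * tr j' j' x = tr j j' x := by
    simp only [Tr_s, add_mul, sub_mul, one_mul, tr_mul, tr_mul_zero h]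
    abel
  have e2 : tr j j' x * Tr_s K j j' = tr j j x := by
    simp only [Tr_s, mul_add, mul_sub, mul_one, tr_mul, tr_mul_zero h']
    abel
  rw [mul_add, mul_one, add_mul, Tr_s_sq h, e1, e2]

omit [Group K] in
theorem Tr_s_isM (h : ∀ b b', j b ≠ j' b') : IsM (Tr_s K j j') := by
  rintro ⟨g, c⟩
  have z : ∀ (i i' : C ↪ C'), c ∉ Set.range i' →
      tr i i' (1 : En K C) (Finsupp.single (g, c) 1) = 0 := fun i i' e => by
    rw [Ot_tr_apply, Ot_dn_nmem i' (t := (g, c)) e, map_zero, map_zero]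
  have y : ∀ (i i' : C ↪ C') b, tr i i' (1 : En K C) (Finsupp.single (g, i' b) 1) =
      Finsupp.single (g, i b) 1 := fun i i' b => by
    rw [Ot_tr_apply, Ot_dn_single, Module.End.one_apply, Ot_up_single]
  unfold MC Tr_s
  simp only [LinearMap.add_apply, LinearMap.sub_apply, Module.End.one_apply]
  by_cases e : c ∈ Set.range j
  · obtain ⟨b, rfl⟩ := e
    have e' : j b ∉ Set.range j' := fun ⟨b', k⟩ => h b b' k.symm
    exact ⟨(g, j' b), 1, by rw [y, y, z _ _ e', z _ _ e']; simp⟩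
  · by_cases e' : c ∈ Set.range j'
    · obtain ⟨b, rfl⟩ := e'
      exact ⟨(g, j b), 1, by rw [y, y, z _ _ e, z _ _ e]; simp⟩
    · exact ⟨(g, c), 1, by rw [z _ _ e, z _ _ e, z _ _ e', z _ _ e']; simp⟩

omit [Group K] in
theorem Tr_wh (h : ∀ b b', j b ≠ j' b') {x y : En K C} (h1 : x * y = -x - y)
    (h2 : y * x = -x - y) : (1 + tr j j x) * (1 + tr j' j' y) = (1 + tr j j' x) *
      ((1 + tr j' j 1) * (1 + tr j j' y) * (1 - tr j' j 1)) * (1 + tr j' j (-x)) := by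
  have h' : ∀ b b', j' b ≠ j b' := fun b b' e => h b' b e.symm
  have e1 : (1 + tr j' j 1) * (1 + tr j j' y) * (1 - tr j' j 1) =
      1 + tr j j' y + tr j' j' y - tr j j y - tr j' j y := by
    simp only [mul_add, add_mul, mul_sub, one_mul, mul_one, tr_mul, tr_mul_zero h]
    abel
  have e2 : (1 + tr j j' x) * (1 + tr j j' y + tr j' j' y - tr j j y - tr j' j y) =
      1 + tr j j x + tr j' j' y - tr j' j y := by
    simp only [mul_add, add_mul, mul_sub, one_mul, mul_one, tr_mul, tr_mul_zero h', h1, tr_sub,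
      tr_neg]
    abel
  rw [e1, e2, tr_neg]
  simp only [mul_add, add_mul, sub_mul, mul_neg, one_mul, mul_one, tr_mul, tr_mul_zero h, h2,
    tr_sub, tr_neg]
  abel

end

/-- The involution `s = 1 - tr j j 1 - tr j' j' 1 + tr j j' 1 + tr j' j 1`. -/
theorem exists_swap {j j' : ∀ i, B i ↪ B' i} (h : ∀ i b b', j i b ≠ j' i b')
    (e : ∀ i b, p' i (j i b) = p' i (j' i b)) :
    ∃ s ∈ Mon K l p', ∀ u : SU K B, ex K j u = s * ex K j' u * s⁻¹ := by
  have q : (fun i => Tr_s K (j i) (j' i)) * (fun i => Tr_s K (j i) (j' i)) = (1 : SR K B') :=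
    funext fun i => Tr_s_sq (h i)
  have a : ∀ i b, p' i (j i b) = p' i (j i b) := fun _ _ => rfl
  have a' : ∀ i b, p' i (j' i b) = p' i (j i b) := fun i b => (e i b).symm
  have r : (fun i => Tr_s K (j i) (j' i)) ∈ RR K l p' :=
    add_mem (add_mem (sub_mem (sub_mem (one_mem _) (rr_tr a a (one_mem _)))
      (rr_tr a' a' (one_mem _))) (rr_tr a a' (one_mem _))) (rr_tr a' a (one_mem _))
  exact ⟨mkU _ _ q q, ⟨⟨r, r⟩, Eventually.of_forall fun i => ⟨Tr_s_isM (h i), Tr_s_isM (h i)⟩⟩,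
    fun u => funext fun i => Units.ext (Tr_s_conj (h i) _)⟩

/-- the elementary unit -/
def Tr_e {j j' : ∀ i, B i ↪ B' i} (h : ∀ i b b', j i b ≠ j' i b') (x : SR K B) : SU K B' :=
  mkU (fun i => 1 + tr (j i) (j' i) (x i)) (fun i => 1 - tr (j i) (j' i) (x i))
    (funext fun i => by
      simp [mul_sub, add_mul, tr_mul_zero fun b b' e => h i b' b e.symm])
    (funext fun i => by
      simp [mul_add, sub_mul, tr_mul_zero fun b b' e => h i b' b e.symm])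

theorem Tr_e0 {j j' : ∀ i, B i ↪ B' i} (h : ∀ i b b', j i b ≠ j' i b')
    (e : ∀ i b, p' i (j i b) = p i b) (e' : ∀ i b, p' i (j' i b) = p i b) {x : SR K B}
    (hx : x ∈ RR K l p) (hf : Fn l x) : Tr_e h x ∈ E0 K l p' :=
  e0_of (rr_tr e e hx) (rr_tr e e' (one_mem _)) (Or.inl (hf.mono fun _ k => k.tr _ _))
    (Eventually.of_forall fun i => ⟨tr_mul_zero (fun b b' e => h i b' b e.symm) _ _, by
      rw [tr_mul, Pi.one_apply, mul_one]
      rfl⟩)

/-- The lemma of Whitehead. -/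
theorem whitehead {j j' : ∀ i, B i ↪ B' i} (h : ∀ i b b', j i b ≠ j' i b')
    (e : ∀ i b, p' i (j i b) = p i b) (e' : ∀ i b, p' i (j' i b) = p i b) {u : SU K B}
    (hu : u ∈ GG K l p) (hf : Fn l (vl u - 1)) : ex K j u * ex K j' u⁻¹ ∈ E0 K l p' := by
  have h' : ∀ i b b', j' i b ≠ j i b' := fun i b b' e => h i b' b e.symm
  have k : ex K j u * ex K j' u⁻¹ = Tr_e h (vl u - 1) *
      (Tr_e h' 1 * Tr_e h (vl u⁻¹ - 1) * (Tr_e h' 1)⁻¹) * Tr_e h' (-(vl u - 1)) :=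
    funext fun i => Units.ext (Tr_wh (h i) (x := (u i).1 - 1) (y := (u i)⁻¹.1 - 1)
      (by rw [mul_sub, sub_mul, Units.mul_inv, one_mul, mul_one]; abel)
      (by rw [mul_sub, sub_mul, Units.inv_mul, one_mul, mul_one]; abel))
  have g : Tr_e h' 1 ∈ GG K l p' := ⟨add_mem (one_mem _) (rr_tr e' e (one_mem _)),
    sub_mem (one_mem _) (rr_tr e' e (one_mem _))⟩
  have r := sub_mem hu.1 (one_mem _)
  rw [k]
  exact mul_mem (mul_mem (Tr_e0 h e e' r hf)
    (e0_conj g (Tr_e0 h e e' (sub_mem hu.2 (one_mem _)) (fn_inv hf))))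
    (Tr_e0 h' e' e (neg_mem r) hf.neg)

/-- `X (Y₁ Y₂⁻¹) X⁻¹ (Y₁ Y₂⁻¹)⁻¹ = X Y₁ X⁻¹ Y₁⁻¹` -/
theorem comm_e0 {j j' : ∀ i, B i ↪ B' i} (h : ∀ i b b', j i b ≠ j' i b')
    (e : ∀ i b, p' i (j i b) = p i b) (e' : ∀ i b, p' i (j' i b) = p i b) {x y : SU K B}
    (hx : x ∈ GG K l p) (hy : y ∈ GG K l p) (hf : Fn l (vl y - 1)) :
    ex K j (x * y * x⁻¹ * y⁻¹) ∈ E0 K l p' := by
  have w := whitehead h e e' hy hf
  have k := mul_mem (e0_conj (gg_ex e hx) w) (inv_mem w)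
  have c := (ex_comm h x y⁻¹).inv_left.eq
  rw [← mul_assoc, mul_assoc _ (ex K j' y⁻¹), ← c, mul_inv_rev, ← mul_assoc, ← mul_assoc,
    mul_inv_cancel_right] at k
  rwa [map_mul, map_mul, map_mul, map_inv, map_inv]

end

end Pool.Agent.Work.MP_9d1ffa_al.WL.A1
end

-- merged part: Pool.Agent.Work.MP_9d1ffa_al.WL.Tc
section
/-! Restriction of families, truncation at the half space. -/

namespace Pool.Agent.Work.MP_9d1ffa_al.WL.A1

open Filter

noncomputable section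

variable {ι K Ω : Type} {B B' : ι → Type}

def resU (K : Type) (B : ι → Type) : SU (KZ K) B →* SU K fun i => B i × ℤ where
  toFun u i := Units.map (res K (B i)).toRingHom.toMonoidHom (u i)
  map_one' := funext fun _ => map_one _
  map_mul' _ _ := funext fun _ => map_mul _ _ _

def indU (K : Type) (B : ι → Type) : SU K B →* SU (KZ K) B where
  toFun u i := Units.map (ind K (B i)).toMonoidHom (u i)
  map_one' := funext fun _ => map_one _
  map_mul' _ _ := funext fun _ => map_mul _ _ _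

theorem resU_val (u : SU (KZ K) B) (i : ι) : (resU K B u i).1 = res K (B i) (u i).1 := rfl

theorem indU_val (u : SU K B) (i : ι) : (indU K B u i).1 = ind K (B i) (u i).1 := rfl

theorem resU_ex (j : ∀ i, B i ↪ B' i) (u : SU (KZ K) B) :
    resU K B' (ex (KZ K) j u) = ex K (fun i => emZ (j i)) (resU K B u) :=
  funext fun _ => Units.ext (res_xt _ _)

theorem indU_ex (j : ∀ i, B i ↪ B' i) (u : SU K B) :
    indU K B' (ex K j u) = ex (KZ K) j (indU K B u) :=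
  funext fun _ => Units.ext (ind_xt _ _)

def tU (K : Type) (π : ∀ i, Set (B i)) : SU (KZ K) B := fun i => mo (tP K (π i)) 1

def sU (K : Type) (π : ∀ i, Set (B i)) : SU K fun i => B i × ℤ := fun i => mo (shP K (π i)) 1

theorem resU_tU (π : ∀ i, Set (B i)) : resU K B (tU K π) = sU K π :=
  funext fun _ => Units.ext (res_tP _)

theorem ex_tU (j : ∀ i, B i ↪ B' i) (π : ∀ i, Set (B i)) :
    ex (KZ K) j (tU K π) = tU K fun i => j i '' π i :=
  funext fun _ => Units.ext (xt_tP _ _)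

/-- the commutator of the twist with the induced family -/
def tw (π : ∀ i, Set (B i)) (α : SU K B) : SU (KZ K) B :=
  tU K π * indU K B α * (tU K π)⁻¹ * (indU K B α)⁻¹

theorem ex_tw (j : ∀ i, B i ↪ B' i) (π : ∀ i, Set (B i)) (α : SU K B) :
    ex (KZ K) j (tw π α) = tw (fun i => j i '' π i) (ex K j α) := by
  simp only [tw, map_mul, map_inv, ex_tU, indU_ex]

variable [Group K] [MulAction K Ω] {l : Filter ι} {p : ∀ i, B i → Ω → ℝ}

theorem rr_res {a : SR (KZ K) B} (h : a ∈ RR (KZ K) l p) :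
    (fun i => res K (B i) (a i)) ∈ RR K l fun i (x : B i × ℤ) => p i x.1 :=
  ⟨h.1.mono fun _ k => ⟨k.1.res, k.2.res k.1⟩, fun η hη => (h.2 η hη).mono fun _ k => k.res⟩

theorem gg_res {u : SU (KZ K) B} (h : u ∈ GG (KZ K) l p) :
    resU K B u ∈ GG K l fun i (x : B i × ℤ) => p i x.1 := ⟨rr_res h.1, rr_res h.2⟩

theorem mon_res {u : SU (KZ K) B} (h : u ∈ Mon (KZ K) l p) :
    resU K B u ∈ Mon K l fun i (x : B i × ℤ) => p i x.1 :=
  ⟨gg_res h.1, h.2.mono fun _ k => ⟨k.1.res, k.2.res⟩⟩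

theorem Tc_rr_ind {a : SR K B} (h : a ∈ RR K l p) :
    (fun i => ind K (B i) (a i)) ∈ RR (KZ K) l p :=
  ⟨h.1.mono fun _ k => ⟨k.1.ind, k.2.ind⟩, fun η hη => (h.2 η hη).mono fun _ k => k.ind⟩

theorem gg_ind {u : SU K B} (h : u ∈ GG K l p) : indU K B u ∈ GG (KZ K) l p :=
  ⟨Tc_rr_ind h.1, Tc_rr_ind h.2⟩

theorem fn_ind {u : SU K B} (h : Fn l (vl u - 1)) : Fn l (vl (indU K B u) - 1) :=
  h.mono fun i k => by
    have e := k.ind
    rwa [Pi.sub_apply, map_sub, Pi.one_apply, map_one] at e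

theorem tU_mem (π : ∀ i, Set (B i)) : tU K π ∈ Mon (KZ K) l p :=
  mo_mem (fun i => eqP_tP (π i)) fun η hη => .of_forall fun i t => cl_kz.2 (by
    change Cl η (t.1.1⁻¹ * t.1.1) (p i t.2) (p i t.2)
    rw [inv_mul_cancel]
    exact Cl.rfl hη.le _)

theorem sU_mem (π : ∀ i, Set (B i)) : sU K π ∈ Mon K l fun i (x : B i × ℤ) => p i x.1 :=
  resU_tU (K := K) π ▸ mon_res (tU_mem π)

theorem tw_mem (π : ∀ i, Set (B i)) {α : SU K B} (h : α ∈ GG K l p) (hf' : Fn l (vl α - 1)) :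
    tw π α ∈ GG (KZ K) l p ∧ Fn l (vl (tw π α) - 1) :=
  have t : tU K π ∈ GG (KZ K) l p := mon_le_gg (tU_mem π)
  ⟨mul_mem (mul_mem (mul_mem t (gg_ind h)) (inv_mem t)) (inv_mem (gg_ind h)),
    fn_mul (fn_conj t (fn_ind hf')) (fn_inv (fn_ind hf'))⟩

/-- products of a member of `E0` with a family that preserves the half space; `e0_conj` -/
def TZ (K : Type) [Group K] [MulAction K Ω] (l : Filter ι) (p : ∀ i, B i → Ω → ℝ) :
    Subgroup (SU K fun i => B i × ℤ) where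
  carrier := {x | ∃ w ∈ E0 K l fun i (x : B i × ℤ) => p i x.1,
    ∃ z ∈ GG K l fun i (x : B i × ℤ) => p i x.1,
      (∀ i, Commute (prj K (hf (B i))) (z i).1) ∧ x = w * z}
  mul_mem' := by
    rintro _ _ ⟨w, hw, z, hz, c, rfl⟩ ⟨w', hw', z', hz', c', rfl⟩
    exact ⟨w * (z * w' * z⁻¹), mul_mem hw (e0_conj hz hw'), z * z', mul_mem hz hz',
      fun i => (c i).mul_right (c' i), by group⟩
  one_mem' := ⟨1, one_mem _, 1, one_mem _, fun _ => Commute.one_right _, (mul_one 1).symm⟩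
  inv_mem' := by
    rintro _ ⟨w, hw, z, hz, c, rfl⟩
    exact ⟨z⁻¹ * w⁻¹ * z⁻¹⁻¹, e0_conj (inv_mem hz) (inv_mem hw), z⁻¹, inv_mem hz,
      fun i => (c i).units_inv_right, by group⟩

theorem Tc_ring {R : Type} [Ring R] {θ X P Y : R} (hθ : θ * θ = θ) (c : P * θ = θ * P)
    (h1 : P * X = 0) (h2 : X * P = X) (hY : Y = θ * X * (1 - θ) + (1 - θ) * X * θ) :
    P * Y = 0 ∧ (1 + (X - Y)) * (1 - (X - Y)) = 1 ∧ (1 - (X - Y)) * (1 + (X - Y)) = 1 ∧
      (1 + X) * (1 - (X - Y)) = 1 + Y * P ∧ Commute θ (1 + (X - Y)) := by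
  have c' : P * (1 - θ) = (1 - θ) * P := by rw [mul_sub, sub_mul, c, mul_one, one_mul]
  have a1 : P * Y = 0 := by
    rw [hY, mul_add, ← mul_assoc, ← mul_assoc, ← mul_assoc, ← mul_assoc, c, c', mul_assoc θ,
      mul_assoc (1 - θ), h1]
    simp
  have a2 : Y * P = Y := by
    rw [hY, add_mul, mul_assoc _ _ P, mul_assoc _ _ P, ← c, ← c', ← mul_assoc, ← mul_assoc,
      mul_assoc θ X P, mul_assoc (1 - θ) X P, h2]
  have a3 : P * (X - Y) = 0 := by rw [mul_sub, h1, a1, sub_zero]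
  have a4 : X * (X - Y) = 0 := by
    conv_lhs => rw [← h2]
    rw [mul_assoc, h2, a3, mul_zero]
  have a5 : Y * (X - Y) = 0 := by
    nth_rw 1 [← a2]
    rw [mul_assoc, a3, mul_zero]
  have a6 : (X - Y) * (X - Y) = 0 := by rw [sub_mul, a4, a5, sub_zero]
  refine ⟨a1, ?_, ?_, ?_, (Commute.one_right _).add_right ?_⟩
  · rw [add_mul, one_mul, mul_sub (X - Y), mul_one, a6, sub_zero, sub_add_cancel]
  · rw [sub_mul, one_mul, mul_add, mul_one, a6, add_zero, add_sub_cancel_right]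
  · rw [add_mul, one_mul, mul_sub X 1, mul_one, a4, a2]
    abel
  · have e : X - Y = θ * X * θ + (1 - θ) * X * (1 - θ) := by rw [hY]; noncomm_ring
    have z : θ * (1 - θ) = 0 := by rw [mul_sub, mul_one, hθ, sub_self]
    have z' : (1 - θ) * θ = 0 := by rw [sub_mul, one_mul, hθ, sub_self]
    rw [e, Commute, SemiconjBy, mul_add, add_mul, ← mul_assoc, ← mul_assoc, ← mul_assoc,
      ← mul_assoc, hθ, z, mul_assoc _ θ θ, hθ, mul_assoc _ (1 - θ) θ, z']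
    simp

/-- Let `θ = prj (hf _)`, `X = res a`, `X₁ = θ X (1 - θ) + (1 - θ) X θ` (finite by `fi_cross`),
`X₂ = X - X₁ = θ X θ + (1 - θ) X (1 - θ)`, `P = prj {x | x.1 ∈ S i}` (it commutes with `θ`).
Then `X_r = (1 - P) X_r P`, so `1 + X = (1 + X₁ * P) (1 + X₂)`, `P X₁ = 0`, `X₂ X₂ = 0`; `e0_of`. -/
theorem tz_unip {u : SU (KZ K) B} {a : SR (KZ K) B} (ha : a ∈ RR (KZ K) l p) (hf' : Fn l a)
    (S : ∀ i, Set (B i)) (h1 : ∀ i, prj (KZ K) (S i) * a i = 0)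
    (h2 : ∀ i, a i * prj (KZ K) (S i) = a i) (hu : vl u = 1 + a) : resU K B u ∈ TZ K l p := by
  let X : SR K fun i => B i × ℤ := fun i => res K (B i) (a i)
  let θ : SR K fun i => B i × ℤ := fun i => prj K (hf (B i))
  let P : SR K fun i => B i × ℤ := fun i => prj K {x | x.1 ∈ S i}
  have rX : X ∈ RR K l fun i (x : B i × ℤ) => p i x.1 := rr_res ha
  have rθ : θ ∈ RR K l fun i (x : B i × ℤ) => p i x.1 := rr_prj _
  have rP : P ∈ RR K l fun i (x : B i × ℤ) => p i x.1 := rr_prj _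
  have rθ' := sub_mem (one_mem _) rθ
  have rY := add_mem (mul_mem (mul_mem rθ rX) rθ') (mul_mem (mul_mem rθ' rX) rθ)
  have fY : Fn l (θ * X * (1 - θ) + (1 - θ) * X * θ) := (hf'.and ha.1).mono fun i k => by
    have e := fi_cross k.1 k.2.1
    rwa [prj_compl] at e
  obtain ⟨a1, a2, a3, a4, a5⟩ := Tc_ring (θ := θ) (X := X) (P := P)
    (funext fun i => (prj_mul _ _).trans (by rw [Set.inter_self]))
    (funext fun i => (prj_mul _ _).trans (by rw [Set.inter_comm]; exact (prj_mul _ _).symm))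
    (funext fun i => by
      have e := congrArg (res K (B i)) (h1 i)
      rwa [map_mul, res_prj, map_zero] at e)
    (funext fun i => by
      have e := congrArg (res K (B i)) (h2 i)
      rwa [map_mul, res_prj] at e) rfl
  refine ⟨resU K B u * (mkU _ _ a2 a3)⁻¹,
    e0_of rY rP (Or.inl fY) (.of_forall fun i => ⟨congrFun a1 i, ?_⟩), mkU _ _ a2 a3,
    ⟨add_mem (one_mem _) (sub_mem rX rY), sub_mem (one_mem _) (sub_mem rX rY)⟩,
    fun i => congrFun a5.eq i, (inv_mul_cancel_right _ _).symm⟩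
  have e : (resU K B u i).1 = 1 + X i := by
    rw [resU_val, ← vl_apply, hu, Pi.add_apply, map_add, Pi.one_apply, map_one]
  refine Eq.trans ?_ (congrFun a4 i)
  rw [Pi.mul_apply, Units.val_mul, e]
  rfl

theorem Tc_tz_e {j j' : ∀ i, B i ↪ B' i} {p' : ∀ i, B' i → Ω → ℝ} (h : ∀ i b b', j i b ≠ j' i b')
    (e : ∀ i b, p' i (j i b) = p i b) (e' : ∀ i b, p' i (j' i b) = p i b) {x : SR (KZ K) B}
    (hx : x ∈ RR (KZ K) l p) (hf' : Fn l x) : resU K B' (Tr_e h x) ∈ TZ K l p' :=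
  tz_unip (rr_tr e e' hx) (hf'.mono fun _ k => k.tr _ _) (fun i => Set.range (j' i))
    (fun i => by rw [← tr_one]; exact tr_mul_zero (fun b b' z => h i b' b z.symm) _ _)
    (fun i => by rw [← tr_one, tr_mul, mul_one]) rfl

theorem Tc_comm {R : Type} [Ring R] {A B : R} (hA : A * A = 0) (hB : B * B = 0) (h : B * A = 0) :
    1 + A * B = (1 + A) * (1 + B) * (1 - A) * (1 - B) := by
  have e : (1 + B) * (1 - A) = (1 - A) + B := by rw [add_mul, one_mul, mul_sub, mul_one, h, sub_zero]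
  have e' : (1 + A) * (1 - A) = 1 := by
    rw [add_mul, one_mul, mul_sub, mul_one, hA, sub_zero, sub_add_cancel]
  rw [mul_assoc (1 + A), e, mul_add, e', add_mul, one_mul, mul_assoc, mul_sub B, mul_one, hB,
    sub_zero, add_mul, one_mul]
  abel

/-- `ex inl (1 + a b) = e12 a * e21 b * e12 (-a) * e21 (-b)` if `b a = 0`, where
`e12 a = 1 + tr inl inr a`, `e21 b = 1 + tr inr inl b`; `tz_unip` with `S = range inr`,
`S = range inl`. -/
theorem tz_e0 {v : SU (KZ K) B} (h : v ∈ E0 (KZ K) l p) :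
    resU K (fun i => B i ⊕ B i) (ex (KZ K) (fun _ => Function.Embedding.inl) v) ∈
      TZ K l fun i => Sum.elim (p i) (p i) := by
  refine (Subgroup.closure_le ((TZ K l fun i => Sum.elim (p i) (p i)).comap
    ((resU K fun i => B i ⊕ B i).comp (ex (KZ K) fun _ => Function.Embedding.inl)))).2 ?_ h
  rintro v (⟨a, ha, b, hb, fa, fb, z, k⟩ | k)
  · have h : ∀ i (b b' : B i), (Function.Embedding.inl : B i ↪ B i ⊕ B i) b ≠
        (Function.Embedding.inr : B i ↪ B i ⊕ B i) b' := fun _ _ _ => Sum.inl_ne_inr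
    have h' : ∀ i (b b' : B i), (Function.Embedding.inr : B i ↪ B i ⊕ B i) b ≠
        (Function.Embedding.inl : B i ↪ B i ⊕ B i) b' := fun _ _ _ => Sum.inr_ne_inl
    have e : ex (KZ K) (fun _ => Function.Embedding.inl) v =
        Tr_e h a * Tr_e h' b * (Tr_e h a)⁻¹ * (Tr_e h' b)⁻¹ := funext fun i => Units.ext (by
      have k' : (v i).1 = 1 + a i * b i := congrFun k i
      rw [ex_val, k', add_sub_cancel_left, ← tr_mul _ Function.Embedding.inr]
      refine Tc_comm (tr_mul_zero (h' i) _ _) (tr_mul_zero (h i) _ _) ?_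
      exact (tr_mul _ _ _ _ _).trans ((congrArg _ (congrFun z i)).trans (tr_zero _ _)))
    have m1 := Tc_tz_e (p' := fun i => Sum.elim (p i) (p i)) h (fun _ _ => rfl) (fun _ _ => rfl)
      ha fa
    have m2 := Tc_tz_e (p' := fun i => Sum.elim (p i) (p i)) h' (fun _ _ => rfl) (fun _ _ => rfl)
      hb fb
    change resU K _ (ex (KZ K) _ v) ∈ TZ K l _
    rw [e, map_mul, map_mul, map_mul, map_inv, map_inv]
    exact mul_mem (mul_mem (mul_mem m1 m2) (inv_mem m1)) (inv_mem m2)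
  · refine ⟨_, ev_e0 (Filter.Eventually.mono k fun i z => ?_), 1, one_mem _,
      fun _ => Commute.one_right _, (mul_one _).symm⟩
    change Units.map _ (Units.map _ (v i)) = 1
    rw [z, map_one, map_one]

/-- `mem_ee`, `W = resU (ex inl μ) * w` -/
theorem tz_ee {v : SU (KZ K) B} (h : v ∈ EE (KZ K) l p) :
    ∃ W ∈ EE K l fun i (x : (B i ⊕ B i) × ℤ) => Sum.elim (p i) (p i) x.1,
      ∀ i, Commute (prj K (hf (B i ⊕ B i)))
        ((W⁻¹ * resU K (fun i => B i ⊕ B i)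
          (ex (KZ K) (fun _ => Function.Embedding.inl) v)) i).1 := by
  obtain ⟨μ, hμ, v, hv, rfl⟩ := mem_ee.1 h
  obtain ⟨w, hw, z, -, c, e⟩ := tz_e0 hv
  refine ⟨resU K _ (ex (KZ K) (fun _ => Function.Embedding.inl) μ) * w, mul_mem (mon_le_ee (mon_res
    (mon_ex (p' := fun i => Sum.elim (p i) (p i)) (fun _ _ => rfl) hμ))) (e0_le_ee hw), fun i => ?_⟩
  rw [map_mul, map_mul, e, ← mul_assoc _ w z, inv_mul_cancel_left]
  exact c i

end

end Pool.Agent.Work.MP_9d1ffa_al.WL.A1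
end

-- merged part: Pool.Agent.Work.MP_9d1ffa_al.WL.Ss
section
/-! Stably trivial families. -/

namespace Pool.Agent.Work.MP_9d1ffa_al.WL.A1

open Filter

noncomputable section

variable {ι K Ω : Type} {B B' : ι → Type} [Group K] [MulAction K Ω]

theorem Ss_swap {l : Filter ι} {p' : ∀ i, B' i → Ω → ℝ} {j j' : ∀ i, B i ↪ B' i}
    (h : ∀ i b b', j i b ≠ j' i b') (e : ∀ i b, p' i (j i b) = p' i (j' i b)) {u : SU K B}
    (hu : ex K j' u ∈ EE K l p') : ex K j u ∈ EE K l p' := by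
  obtain ⟨s, hs, h1⟩ := exists_swap (K := K) (l := l) h e
  rw [h1]
  exact mul_mem (mul_mem (mon_le_ee hs) hu) (inv_mem (mon_le_ee hs))

theorem Ss_inl {l : Filter ι} {B₁ B₂ : ι → Type} {p₁ : ∀ i, B₁ i → Ω → ℝ}
    (p₂ : ∀ i, B₂ i → Ω → ℝ) {j : ∀ i, B i ↪ B₁ i} {u : SU K B} (hu : ex K j u ∈ EE K l p₁) :
    ex K (fun i => (j i).trans Function.Embedding.inl) u ∈
      EE K l fun i => Sum.elim (p₁ i) (p₂ i) := by
  rw [← ex_ex]
  exact ee_ex (fun _ _ => rfl) hu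

theorem Ss_inr {l : Filter ι} {B₁ B₂ : ι → Type} {p₁ : ∀ i, B₁ i → Ω → ℝ}
    {p₂ : ∀ i, B₂ i → Ω → ℝ} {j₁ : ∀ i, B i ↪ B₁ i} {j₂ : ∀ i, B i ↪ B₂ i}
    (e : ∀ i b, p₁ i (j₁ i b) = p₂ i (j₂ i b)) {u : SU K B} (hu : ex K j₂ u ∈ EE K l p₂) :
    ex K (fun i => (j₁ i).trans Function.Embedding.inl) u ∈
      EE K l fun i => Sum.elim (p₁ i) (p₂ i) := by
  refine Ss_swap (j' := fun i => (j₂ i).trans Function.Embedding.inr)
    (fun _ _ _ => Sum.inl_ne_inr) e ?_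
  rw [← ex_ex]
  exact ee_ex (fun _ _ => rfl) hu

/-- Stably trivial families. For the product put the two stabilisations into `B₁ i ⊕ B₂ i` and use
`exists_swap`. -/
def SS (K : Type) [Group K] [MulAction K Ω] (l : Filter ι) (𝒜 : ℝ → Set (Ω → ℝ))
    (p : ∀ i, B i → Ω → ℝ) : Subgroup (SU K B) where
  carrier := {u | u ∈ GG K l p ∧ (Lev l 𝒜 p →
    ∃ (B' : ι → Type) (p' : ∀ i, B' i → Ω → ℝ) (j : ∀ i, B i ↪ B' i),
      (∀ i b, p' i (j i b) = p i b) ∧ Lev l 𝒜 p' ∧ ex K j u ∈ EE K l p')}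
  mul_mem' := fun {u v} hu hv => ⟨mul_mem hu.1 hv.1, fun hl => by
    obtain ⟨B₁, p₁, j₁, e₁, l₁, h₁⟩ := hu.2 hl
    obtain ⟨B₂, p₂, j₂, e₂, l₂, h₂⟩ := hv.2 hl
    refine ⟨fun i => B₁ i ⊕ B₂ i, fun i => Sum.elim (p₁ i) (p₂ i),
      fun i => (j₁ i).trans Function.Embedding.inl, e₁, l₁.sum l₂, ?_⟩
    rw [map_mul]
    exact mul_mem (Ss_inl p₂ h₁) (Ss_inr (fun i b => (e₁ i b).trans (e₂ i b).symm) h₂)⟩
  one_mem' := ⟨one_mem _, fun hl => ⟨B, p, fun i => Function.Embedding.refl _, fun _ _ => rfl, hl,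
    by rw [map_one]; exact one_mem _⟩⟩
  inv_mem' := fun {u} hu => ⟨inv_mem hu.1, fun hl => by
    obtain ⟨B₁, p₁, j₁, e₁, l₁, h₁⟩ := hu.2 hl
    exact ⟨B₁, p₁, j₁, e₁, l₁, by rw [map_inv]; exact inv_mem h₁⟩⟩

/-- all finite families with positions in `𝒜` are stably trivial -/
def Van (K : Type) [Group K] [MulAction K Ω] (l : Filter ι) (𝒜 : ℝ → Set (Ω → ℝ)) : Prop :=
  ∀ (B : ι → Type) (p : ∀ i, B i → Ω → ℝ), Lev l 𝒜 p →
    ∀ u ∈ GG K l p, Fn l (vl u - 1) → u ∈ SS K l 𝒜 p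

variable {l : Filter ι} {p : ∀ i, B i → Ω → ℝ} {p' : ∀ i, B' i → Ω → ℝ}
  {𝒜 𝒜' : ℝ → Set (Ω → ℝ)}

theorem ss_le_gg : SS K l 𝒜 p ≤ GG K l p := fun _ h => h.1

theorem ee_le_ss : EE K l p ≤ SS K l 𝒜 p := fun u h => ⟨ee_le_gg h, fun hl =>
  ⟨B, p, fun _ => Function.Embedding.refl _, fun _ _ => rfl, hl, by rwa [ex_refl]⟩⟩

theorem ss_congr {u v : SU K B} (hu : u ∈ SS K l 𝒜 p) (h : ∀ᶠ i in l, u i = v i) :
    v ∈ SS K l 𝒜 p := mem_congr (e0_le_ee.trans ee_le_ss) hu h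

/-- ascent: stabilise into `B' i ⊕ B₁ i` and use `exists_swap` -/
theorem ss_up {j : ∀ i, B i ↪ B' i} (e : ∀ i b, p' i (j i b) = p i b) (k : ∀ c, 𝒜 c ⊆ 𝒜' c)
    (hp : Lev l 𝒜 p) {u : SU K B} (h : u ∈ SS K l 𝒜 p) : ex K j u ∈ SS K l 𝒜' p' := by
  obtain ⟨B₁, p₁, j₁, e₁, l₁, h₁⟩ := h.2 hp
  refine ⟨gg_ex e h.1, fun hl => ⟨fun i => B' i ⊕ B₁ i, fun i => Sum.elim (p' i) (p₁ i),
    fun _ => Function.Embedding.inl, fun _ _ => rfl, hl.sum (l₁.mono k), ?_⟩⟩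
  rw [ex_ex]
  exact Ss_inr (fun i b => (e i b).trans (e₁ i b).symm) h₁

/-- descent -/
theorem ss_down {j : ∀ i, B i ↪ B' i} (e : ∀ i b, p' i (j i b) = p i b) (hp : Lev l 𝒜 p')
    {u : SU K B} (hu : u ∈ GG K l p) (h : ex K j u ∈ SS K l 𝒜 p') : u ∈ SS K l 𝒜 p := by
  obtain ⟨B₁, p₁, j₁, e₁, l₁, h₁⟩ := h.2 hp
  exact ⟨hu, fun _ => ⟨B₁, p₁, fun i => (j i).trans (j₁ i), fun i b => (e₁ i _).trans (e i b), l₁,
    by rwa [← ex_ex]⟩⟩

theorem ss_mono (k : ∀ c, 𝒜 c ⊆ 𝒜' c) (hp : Lev l 𝒜 p) : SS K l 𝒜 p ≤ SS K l 𝒜' p := fun _ h => by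
  obtain ⟨B₁, p₁, j₁, e₁, l₁, h₁⟩ := h.2 hp
  exact ⟨h.1, fun _ => ⟨B₁, p₁, j₁, e₁, l₁.mono k, h₁⟩⟩

theorem ss_comm {x y : SU K B} (hx : x ∈ GG K l p) (hy : y ∈ GG K l p) (hf : Fn l (vl y - 1)) :
    x * y * x⁻¹ * y⁻¹ ∈ SS K l 𝒜 p := by
  have h1 : x * y * x⁻¹ * y⁻¹ ∈ GG K l p :=
    (GG K l p).mul_mem ((GG K l p).mul_mem ((GG K l p).mul_mem hx hy) ((GG K l p).inv_mem hx))
      ((GG K l p).inv_mem hy)
  have h2 := comm_e0 (p' := fun i => Sum.elim (p i) (p i))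
    (j := fun _ => Function.Embedding.inl) (j' := fun _ => Function.Embedding.inr)
    (fun _ _ _ => Sum.inl_ne_inr) (fun _ _ => rfl) (fun _ _ => rfl) hx hy hf
  generalize x * y * x⁻¹ * y⁻¹ = z at h1 h2
  exact ⟨h1, fun hl => ⟨_, _, _, fun _ _ => rfl, hl.sum hl, e0_le_ee h2⟩⟩

theorem van_congr (h : ∀ c, 𝒜 c = 𝒜' c) (H : Van K l 𝒜) : Van K l 𝒜' := by
  rwa [← (funext h : 𝒜 = 𝒜')]

/-- no positions: `B i` is eventually empty -/
theorem van_empty (h : ∀ c, 𝒜 c = ∅) : Van K l 𝒜 := by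
  rintro B p ⟨c, -, hc⟩ u - -
  refine ee_le_ss (e0_le_ee (ev_e0 (hc.mono fun i hi => ?_)))
  refine Units.ext (LinearMap.ext fun x => Finsupp.ext fun t => ?_)
  obtain ⟨c', -, h'⟩ := hi t.2
  rw [h] at h'
  exact h'.elim

end

end Pool.Agent.Work.MP_9d1ffa_al.WL.A1
end

-- merged part: Pool.Agent.Work.MP_9d1ffa_al.WL.Pm
section
/-! Almost monomial units. -/

namespace Pool.Agent.Work.MP_9d1ffa_al.WL.A1

open Finsupp

variable {K B B' J Ω : Type} [Group K]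

/-- an injective operator has an injective selection of nonzero entries -/
theorem Pm_hall (v : (B →₀ ℤ) →ₗ[ℤ] (B →₀ ℤ)) (hv : Function.Injective v) :
    ∃ π : B → B, Function.Injective π ∧ ∀ b, v (single b 1) (π b) ≠ 0 := by
  classical
  obtain ⟨π, h1, h2⟩ := (Finset.all_card_le_biUnion_card_iff_exists_injective
    fun b => (v (single b 1)).support).1 fun s => by
      have i : LinearIndependent ℤ fun b : s => v (single b.1 1) :=
        ((Finsupp.linearIndependent_single_one ℤ B).map' v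
          (LinearMap.ker_eq_bot.2 hv)).comp (fun b : s => b.1) Subtype.val_injective
      have := linearIndependent_le_span_aux' _ i
        (((s.biUnion fun b => (v (single b 1)).support).image fun c => single c (1 : ℤ) :
          Finset (B →₀ ℤ)) : Set (B →₀ ℤ)) (by
          rintro _ ⟨b, rfl⟩
          rw [Finset.coe_image, ← supported_eq_span_single]
          exact fun c hc => Finset.mem_coe.2 (Finset.mem_biUnion.2 ⟨b, b.2, hc⟩))
      simp only [Fintype.card_coe, Finset.coe_sort_coe] at this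
      exact this.trans Finset.card_image_le
  exact ⟨π, h1, fun b => mem_support_iff.1 (h2 b)⟩

theorem Pm_perm (v w : (B →₀ ℤ) →ₗ[ℤ] (B →₀ ℤ)) (h : ∀ x, w (v x) = x) (h' : ∀ x, v (w x) = x)
    {F : Set B} (hF : F.Finite) (hm : ∀ b ∉ F, ∃ (c : B) (e : ℤ), v (single b 1) = single c e) :
    ∃ π : B ≃ B, ∀ b, v (single b 1) (π b) ≠ 0 := by
  obtain ⟨π, p1, p2⟩ := Pm_hall v (Function.LeftInverse.injective h)
  obtain ⟨ρ, r1, r2⟩ := Pm_hall w (Function.LeftInverse.injective h')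
  have k : ∀ b ∉ F, ρ (π b) = b := fun b hb => by
    obtain ⟨c, e, he⟩ := hm b hb
    have h1 := p2 b
    rw [he] at h1
    obtain ⟨h2, h3⟩ := single_apply_ne_zero.1 h1
    have h4 := h (single b 1)
    rw [he, ← h2, ← mul_one e, ← smul_eq_mul, ← smul_single, map_smul] at h4
    have h5 : single b (1 : ℤ) (ρ (π b)) ≠ 0 := by
      rw [← h4, Finsupp.smul_apply, smul_eq_mul]
      exact mul_ne_zero h3 (r2 _)
    exact (single_apply_ne_zero.1 h5).1
  have i : Function.Injective (ρ ∘ π) := r1.comp p1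
  have m : Set.MapsTo (ρ ∘ π) F F := fun b hb => by
    by_contra c
    exact c ((i (k _ c)).symm ▸ hb)
  refine ⟨Equiv.ofBijective π ⟨p1, fun c => ?_⟩, p2⟩
  by_cases hc : ρ c ∈ F
  · obtain ⟨b, -, e⟩ := ((hF.injOn_iff_bijOn_of_mapsTo m).1 i.injOn).surjOn hc
    exact ⟨b, r1 e⟩
  · exact ⟨ρ c, r1 (k _ hc)⟩

theorem Pm_shift {a : En K B} (h : Eqv a) (g : K) (b : B) :
    a (single (g, b) 1) =
      mapDomain ((Equiv.mulLeft g).prodCongr (Equiv.refl B)) (a (single (1, b) 1)) := by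
  ext ⟨g', b'⟩
  rw [mapDomain_equiv_apply]
  have := h g (g⁻¹ * g') 1 b' b
  rw [mul_inv_cancel_left, mul_one] at this
  exact this

/-- the augmentation of an operator -/
noncomputable def Pm_ag (a : En K B) : (B →₀ ℤ) →ₗ[ℤ] (B →₀ ℤ) :=
  lmapDomain ℤ ℤ Prod.snd ∘ₗ a ∘ₗ lmapDomain ℤ ℤ fun b => ((1 : K), b)

theorem Pm_ag_single (a : En K B) (b : B) :
    Pm_ag a (single b 1) = mapDomain Prod.snd (a (single (1, b) 1)) := by
  simp [Pm_ag]

theorem Pm_ag_snd {a : En K B} (h : Eqv a) (x : Md K B) :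
    Pm_ag a (mapDomain Prod.snd x) = mapDomain Prod.snd (a x) := by
  have : Pm_ag a ∘ₗ lmapDomain ℤ ℤ Prod.snd = lmapDomain ℤ ℤ Prod.snd ∘ₗ a :=
    lhom_ext' fun t => LinearMap.ext_ring (by
      change Pm_ag a (mapDomain Prod.snd (single t 1)) = mapDomain Prod.snd (a (single t 1))
      rw [mapDomain_single, Pm_ag_single, show t = (t.1, t.2) from rfl, Pm_shift h t.1,
        ← mapDomain_comp]
      rfl)
  exact LinearMap.congr_fun this x

theorem Pm_ag_inv {a b : En K B} (h : Eqv a) (e : a * b = 1) (x : B →₀ ℤ) :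
    Pm_ag a (Pm_ag b x) = x := by
  change Pm_ag a (mapDomain Prod.snd (b (mapDomain (fun b => ((1 : K), b)) x))) = x
  rw [Pm_ag_snd h, ← Module.End.mul_apply, e, Module.End.one_apply, ← mapDomain_comp]
  exact mapDomain_id

/-- An almost monomial unit is a finite perturbation of a monomial one with the same control.
The augmentations of `u` and `u⁻¹` are inverse to each other, and the marriage theorem selects
nonzero entries along a permutation. -/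
theorem exists_mo {u : (En K B)ˣ} (h1 : Eqv u.1) (h2 : Eqv u⁻¹.1) (h3 : AMo u.1) (h4 : AMo u⁻¹.1) :
    ∃ (σ : K × B ≃ K × B) (ε : K × B → ℤˣ), EqP σ ∧ (∀ x g b, ε (x * g, b) = ε (g, b)) ∧
      (∀ t, kr u.1 (σ t) t ≠ 0) ∧ Fi (u.1 - (mo σ ε).1) := by
  classical
  obtain ⟨π, hπ⟩ := Pm_perm (Pm_ag u.1) (Pm_ag u⁻¹.1) (Pm_ag_inv h2 u.inv_mul)
    (Pm_ag_inv h1 u.mul_inv) h3 fun b hb => by
      obtain ⟨t, e, he⟩ : MC u.1 (1, b) := by
        by_contra c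
        exact hb ⟨1, c⟩
      exact ⟨t.2, e, by rw [Pm_ag_single, he, mapDomain_single]⟩
  have hγ : ∀ b, ∃ g : K, kr u.1 (g, π b) (1, b) ≠ 0 := fun b => by
    have := hπ b
    rw [Pm_ag_single] at this
    obtain ⟨t, ht, e⟩ := Finset.mem_image.1 (mapDomain_support (mem_support_iff.2 this))
    exact ⟨t.1, e ▸ mem_support_iff.1 ht⟩
  choose γ hγ using hγ
  have he : ∀ b, ∃ e : ℤˣ, MC u.1 (1, b) → u.1 (single (1, b) 1) = single (γ b, π b) (e : ℤ) :=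
    fun b => by
      by_cases c : MC u.1 (1, b)
      · obtain ⟨t, e, he⟩ := c
        have := hγ b
        rw [kr, he] at this
        exact ⟨e, fun _ => by rw [he, (single_apply_ne_zero.1 this).1]⟩
      · exact ⟨1, fun c' => absurd c' c⟩
  choose e he using he
  let σ : K × B ≃ K × B :=
    { toFun := fun t => (t.1 * γ t.2, π t.2)
      invFun := fun t => (t.1 * (γ (π.symm t.2))⁻¹, π.symm t.2)
      left_inv := fun t => by simp
      right_inv := fun t => by simp }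
  refine ⟨σ, fun t => e t.2, fun x g b => Prod.ext (mul_assoc _ _ _) rfl, fun _ _ _ => rfl,
    fun t => ?_, h3.subset ?_⟩
  · have := h1 t.1 (γ t.2) 1 (π t.2) t.2
    rw [mul_one] at this
    exact this.trans_ne (hγ t.2)
  · rintro b ⟨g, t', ht⟩
    refine ⟨1, fun c => ht ?_⟩
    rw [kr_sub, kr, kr, mo_apply, Pm_shift h1, he b c, mapDomain_single]
    exact sub_self _

end Pool.Agent.Work.MP_9d1ffa_al.WL.A1
end

-- merged part: Pool.Agent.Work.MP_9d1ffa_al.WL.Sup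
section
/-! Supports, splitting, almost monomial families and change of gauge. -/

namespace Pool.Agent.Work.MP_9d1ffa_al.WL.A1

open Filter

noncomputable section

section

variable {K C C' : Type}

theorem Sup_comm {S : Set C} {a : En K C} (h : Sp S (a - 1)) : Commute (prj K S) a := by
  have e : Commute (prj K S) (a - 1) := (sp_iff.1 h).1.trans (sp_iff.1 h).2.symm
  have := e.add_right (Commute.one_right _)
  rwa [sub_add_cancel] at this

theorem Sup_cpU (j : C ↪ C') (u : (En K C')ˣ) : ∃ v : (En K C)ˣ,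
    Sp (Set.range j) (u.1 - 1) → v.1 = cp j u.1 ∧ v⁻¹.1 = cp j u⁻¹.1 := by
  by_cases h : Sp (Set.range j) (u.1 - 1)
  · exact ⟨⟨cp j u.1, cp j u⁻¹.1, by rw [← cp_mul j (Sup_comm h), Units.mul_inv, cp_one],
      by rw [← cp_mul j (Sup_comm h.inv_sub), Units.inv_mul, cp_one]⟩, fun _ => ⟨rfl, rfl⟩⟩
  · exact ⟨1, fun k => absurd k h⟩

theorem Sup_idem {R : Type} [Ring R] {P a b : R} (hP : P * P = P) (k : Commute P a)
    (h : a * b = 1) : (1 + P * (a - 1)) * (1 + P * (b - 1)) = 1 := by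
  have e : P * (a - 1) * (P * (b - 1)) = P * ((a - 1) * (b - 1)) := by
    rw [mul_assoc, ← mul_assoc (a - 1), ← (k.sub_right (Commute.one_right _)).eq, ← mul_assoc,
      ← mul_assoc, hP, mul_assoc]
  have z : (a - 1) * (b - 1) = -(a - 1) - (b - 1) := by
    rw [mul_sub, sub_mul, h, one_mul, mul_one]
    abel
  rw [mul_add, mul_one, add_mul, one_mul, e, z, mul_sub P (-(a - 1)), mul_neg]
  abel

theorem Sup_cutU (S : Set C) (u : (En K C)ˣ) : ∃ v : (En K C)ˣ, Commute (prj K S) u.1 →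
    v.1 = 1 + prj K S * (u.1 - 1) ∧ v⁻¹.1 = 1 + prj K S * (u⁻¹.1 - 1) := by
  by_cases h : Commute (prj K S) u.1
  · have hP : prj K S * prj K S = prj K S := by rw [prj_mul, Set.inter_self]
    exact ⟨⟨_, _, Sup_idem hP h u.mul_inv, Sup_idem hP h.units_inv_right u.inv_mul⟩,
      fun _ => ⟨rfl, rfl⟩⟩
  · exact ⟨1, fun k => absurd k h⟩

theorem Sup_sp_cut {S T : Set C} {a : En K C} (k : Commute (prj K S) a) (h : Sp T a) :
    Sp (T ∩ S) (prj K S * a) := fun t' t e => by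
  rw [kr_prj_mul] at e
  by_cases m : t'.2 ∈ S
  · rw [if_pos m] at e
    exact ⟨⟨(h t' t e).1, m⟩, (h t' t e).2, (comm_prj_iff.1 k t' t e).1 m⟩
  · exact absurd (if_neg m) e

/-- the involution of a unit on two copies -/
def Sup_s (a b : En K C) : En K (C ⊕ C) :=
  tr Function.Embedding.inr Function.Embedding.inl a +
    tr Function.Embedding.inl Function.Embedding.inr b

theorem Sup_lr (b b' : C) :
    (Function.Embedding.inl : C ↪ C ⊕ C) b ≠ (Function.Embedding.inr : C ↪ C ⊕ C) b' :=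
  Sum.inl_ne_inr

theorem Sup_rl (b b' : C) :
    (Function.Embedding.inr : C ↪ C ⊕ C) b ≠ (Function.Embedding.inl : C ↪ C ⊕ C) b' :=
  Sum.inr_ne_inl

theorem Sup_s_sq {a b : En K C} (h : a * b = 1) (h' : b * a = 1) : Sup_s a b * Sup_s a b = 1 := by
  have e : Set.range (Function.Embedding.inr : C ↪ C ⊕ C) =
      (Set.range (Function.Embedding.inl : C ↪ C ⊕ C))ᶜ := Set.compl_range_inl.symm
  simp only [Sup_s, mul_add, add_mul, tr_mul, tr_mul_zero Sup_lr, tr_mul_zero Sup_rl, h, h',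
    tr_one, e, prj_compl]
  abel

theorem Sup_s_conj {a b : En K C} (h : a * b = 1) (h' : b * a = 1) (x : En K C) :
    Sup_s a b * (1 + tr Function.Embedding.inr Function.Embedding.inr (x - 1)) * Sup_s a b =
      1 + tr Function.Embedding.inl Function.Embedding.inl (b * x * a - 1) := by
  have e : b * x * a - 1 = b * (x - 1) * a := by rw [mul_sub, sub_mul, mul_one, h']
  rw [mul_add, mul_one, add_mul, Sup_s_sq h h', e]
  simp only [Sup_s, mul_add, add_mul, tr_mul, tr_mul_zero Sup_lr, tr_mul_zero Sup_rl, zero_add,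
    add_zero]

theorem Sup_s_isM {a b : En K C} (h : IsM a) (h' : IsM b) : IsM (Sup_s a b) := by
  rintro ⟨g, c | c⟩
  · obtain ⟨⟨g', c'⟩, ε, k⟩ := h (g, c)
    refine ⟨(g', Sum.inr c'), ε, ?_⟩
    have e1 := Ot_dn_single (K := K) (Function.Embedding.inl : C ↪ C ⊕ C) g c 1
    have e2 := Ot_dn_nmem (K := K) (Function.Embedding.inr : C ↪ C ⊕ C) (t := (g, Sum.inl c))
      (fun ⟨_, z⟩ => Sum.inr_ne_inl z) 1
    rw [Function.Embedding.inl_apply] at e1
    rw [Sup_s, LinearMap.add_apply, Ot_tr_apply, Ot_tr_apply, e1, e2, map_zero, map_zero, add_zero,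
      k, Ot_up_single]
    rfl
  · obtain ⟨⟨g', c'⟩, ε, k⟩ := h' (g, c)
    refine ⟨(g', Sum.inl c'), ε, ?_⟩
    have e1 := Ot_dn_single (K := K) (Function.Embedding.inr : C ↪ C ⊕ C) g c 1
    have e2 := Ot_dn_nmem (K := K) (Function.Embedding.inl : C ↪ C ⊕ C) (t := (g, Sum.inr c))
      (fun ⟨_, z⟩ => Sum.inl_ne_inr z) 1
    rw [Function.Embedding.inr_apply] at e1
    rw [Sup_s, LinearMap.add_apply, Ot_tr_apply, Ot_tr_apply, e1, e2, map_zero, map_zero, zero_add,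
      k, Ot_up_single]
    rfl

theorem Sup_ct_tr {Ω : Type} [Group K] [MulAction K Ω] {η : ℝ} {p q : C → Ω → ℝ}
    {P : C' → Ω → ℝ} {a : En K C} (h : Ct η p q a) {j j' : C ↪ C'} (e : ∀ b, P (j b) = q b)
    (e' : ∀ b, P (j' b) = p b) : Ct η P P (tr j j' a) := fun t' t k => by
  obtain ⟨b', b, e1, e2, e3⟩ := kr_tr_ne k
  rw [e1, e2, e, e']
  exact h _ _ e3

end

variable {ι K Ω : Type} {B B' : ι → Type} [Group K] [MulAction K Ω]
  {l : Filter ι} {p : ∀ i, B i → Ω → ℝ} {p' : ∀ i, B' i → Ω → ℝ} {𝒜 𝒜' : ℝ → Set (Ω → ℝ)}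

/-- At the good indices `v i = cp (j i) (u i)` with inverse `cp (j i) (u i)⁻¹` (`cp_mul`, `tr_cp`,
`Sp.inv_sub`), at the other ones `v i = 1`. -/
theorem exists_cp {j : ∀ i, B i ↪ B' i} (e : ∀ i b, p' i (j i b) = p i b) {u : SU K B'}
    (hu : u ∈ GG K l p') (h : ∀ᶠ i in l, Sp (Set.range (j i)) ((u i).1 - 1)) :
    ∃ v ∈ GG K l p, (∀ᶠ i in l, ex K j v i = u i) ∧ (Fn l (vl u - 1) → Fn l (vl v - 1)) ∧
      (u ∈ AM K l p' → v ∈ AM K l p) := by
  choose v hv using fun i => Sup_cpU (j i) (u i)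
  have r : ∀ a ∈ RR K l p', (fun i => cp (j i) (a i)) ∈ RR K l p := fun a ha =>
    ⟨ha.1.mono fun _ k => ⟨k.1.cp _, k.2.cp _⟩, fun η hη => (ha.2 η hη).mono fun i k => k.cp (e i)⟩
  have g : v ∈ GG K l p := ⟨rr_congr (r _ hu.1) (h.mono fun i k => (hv i k).1.symm),
    rr_congr (r _ hu.2) (h.mono fun i k => (hv i k).2.symm)⟩
  have z : ∀ᶠ i in l, (v i).1 - 1 = cp (j i) ((u i).1 - 1) := h.mono fun i k => by
    rw [(hv i k).1, cp_sub, cp_one]
  refine ⟨v, g, (h.and z).mono fun i k => Units.ext ?_, fun f => (f.and z).mono fun i k => ?_,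
    fun a => ⟨g, (a.2.and h).mono fun i k => ?_⟩⟩
  · rw [ex_val, k.2, tr_cp _ k.1, add_sub_cancel]
  · exact (k.2 ▸ Fi.cp k.1 (j i) : Fi ((v i).1 - 1))
  · rw [(hv i k.2).1, (hv i k.2).2]
    exact ⟨k.1.1.cp _ (Sup_comm k.2), k.1.2.cp _ (Sup_comm k.2.inv_sub)⟩

/-- At the good indices `v i = 1 + prj (S i) * (u i - 1)`, `w i = 1 + prj (S i)ᶜ * (u i - 1)`
(inverses: the same with `(u i)⁻¹`), at the other ones `v i = 1`, `w i = u i`. -/
theorem exists_cut {S T : ∀ i, Set (B i)} {u : SU K B} (hu : u ∈ GG K l p)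
    (h : ∀ᶠ i in l, Commute (prj K (S i)) (u i).1 ∧ Sp (T i) ((u i).1 - 1)) :
    ∃ v ∈ GG K l p, ∃ w ∈ GG K l p, u = v * w ∧
      (∀ᶠ i in l, Sp (T i ∩ S i) ((v i).1 - 1) ∧ Sp (T i \ S i) ((w i).1 - 1)) ∧
      (u ∈ AM K l p → v ∈ AM K l p ∧ w ∈ AM K l p) := by
  choose v hv using fun i => Sup_cutU (S i) (u i)
  have r : ∀ a ∈ RR K l p, 1 + (fun i => prj K (S i)) * (a - 1) ∈ RR K l p := fun a ha =>
    add_mem (one_mem _) (mul_mem (rr_prj S) (sub_mem ha (one_mem _)))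
  have g : v ∈ GG K l p := ⟨rr_congr (r _ hu.1) (h.mono fun i k => (hv i k.1).1.symm),
    rr_congr (r _ hu.2) (h.mono fun i k => (hv i k.1).2.symm)⟩
  refine ⟨v, g, v⁻¹ * u, mul_mem (inv_mem g) hu, (mul_inv_cancel_left v u).symm,
    h.mono fun i k => ⟨?_, ?_⟩, fun a => ?_⟩
  · rw [(hv i k.1).1, add_sub_cancel_left]
    exact Sup_sp_cut (k.1.sub_right (Commute.one_right _)) k.2
  · have e : ((v⁻¹ * u) i).1 - 1 = prj K (S i)ᶜ * ((u i).1 - 1) := by
      rw [Pi.mul_apply, Pi.inv_apply, Units.val_mul, (hv i k.1).2, add_mul, one_mul, mul_assoc,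
        sub_mul, Units.inv_mul, one_mul, prj_compl, sub_mul, one_mul, mul_sub, mul_sub]
      abel
    rw [e]
    refine Sup_sp_cut (S := (S i)ᶜ) ?_ k.2
    rw [prj_compl]
    exact (Commute.one_left _).sub_left (k.1.sub_right (Commute.one_right _))
  · have m : v ∈ AM K l p := ⟨g, (a.2.and h).mono fun i k => by
      rw [(hv i k.2.1).1, (hv i k.2.1).2]
      exact ⟨k.1.1.cut k.2.1, k.1.2.cut k.2.1.units_inv_right⟩⟩
    exact ⟨m, mul_mem (inv_mem m) a⟩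

/-- `exists_mo` at the good indices, `ct_mo` -/
theorem exists_perm {u : SU K B} (hu : u ∈ AM K l p) :
    ∃ ν ∈ Mon K l p, Fn l (vl (u * ν⁻¹) - 1) := by
  have k : ∀ i, ∃ (σ : K × B i ≃ K × B i) (ε : K × B i → ℤˣ),
      ((Eqv (u i).1 ∧ RF (u i).1) ∧ Eqv (u i)⁻¹.1 ∧ RF (u i)⁻¹.1) ∧ AMo (u i).1 ∧ AMo (u i)⁻¹.1 →
      EqP σ ∧ (∀ x g b, ε (x * g, b) = ε (g, b)) ∧ (∀ t, kr (u i).1 (σ t) t ≠ 0) ∧
        Fi ((u i).1 - (mo σ ε).1) := fun i => by
    by_cases c : ((Eqv (u i).1 ∧ RF (u i).1) ∧ Eqv (u i)⁻¹.1 ∧ RF (u i)⁻¹.1) ∧ AMo (u i).1 ∧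
        AMo (u i)⁻¹.1
    · obtain ⟨σ, ε, z⟩ := exists_mo c.1.1.1 c.1.2.1 c.2.1 c.2.2
      exact ⟨σ, ε, fun _ => z⟩
    · exact ⟨Equiv.refl _, 1, fun z => absurd z c⟩
  choose σ ε k using k
  have k' := ((hu.1.1.1.and hu.1.2.1).and hu.2).mono k
  have c : ∀ η : ℝ, 0 < η → ∀ᶠ i in l, Ct η (p i) (p i) (mo (σ i) (ε i)).1 ∧
      Ct η (p i) (p i) (mo (σ i) (ε i))⁻¹.1 := fun η hη =>
    ((hu.1.1.2 η hη).and k').mono fun i z => ct_mo _ fun t => z.1 _ _ (z.2.2.2.1 t)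
  have g : (fun i => mo (σ i) (ε i)) ∈ GG K l p :=
    ⟨⟨k'.mono fun i z => ⟨eqv_mo z.1 z.2.1, rf_mo z.1 _⟩, fun η hη => (c η hη).mono fun _ z => z.1⟩,
      ⟨k'.mono fun i z => ⟨eqv_mo (σ := (σ i).symm) (ε := fun t => ε i ((σ i).symm t)) z.1.symm
        fun x g b => by rw [z.1.symm, z.2.1], rf_mo z.1.symm _⟩,
        fun η hη => (c η hη).mono fun _ z => z.2⟩⟩
  refine ⟨_, ⟨g, .of_forall fun _ => ⟨isM_mo _ _, isM_mo _ _⟩⟩, ?_⟩
  rw [map_mul, ← vl_mul_inv fun i => mo (σ i) (ε i), ← sub_mul]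
  exact Fn.mul_right (k'.mono fun i z => z.2.2.2) g.2

theorem Van.am (H : Van K l 𝒜) (hp : Lev l 𝒜 p) : AM K l p ≤ SS K l 𝒜 p := fun u hu => by
  obtain ⟨ν, hν, f⟩ := exists_perm hu
  rw [← inv_mul_cancel_right u ν]
  exact mul_mem (H B p hp _ (mul_mem hu.1 (inv_mem hν.1)) f) (ee_le_ss (mon_le_ee hν))

/-- localisation: `exists_cp` for the inclusions of the subtypes, `Van.am`, `ss_up`, `ss_congr` -/
theorem Van.loc (H : Van K l 𝒜) (k : ∀ c, 𝒜 c ⊆ 𝒜' c) {S : ∀ i, Set (B i)}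
    (hS : Lev l 𝒜 fun i (b : S i) => p i b) {u : SU K B} (hu : u ∈ AM K l p)
    (h : ∀ᶠ i in l, Sp (S i) ((u i).1 - 1)) : u ∈ SS K l 𝒜' p := by
  obtain ⟨v, -, e, -, m⟩ := exists_cp (p := fun i (b : S i) => p i b) (p' := p)
    (j := fun i => Function.Embedding.subtype (· ∈ S i)) (fun _ _ => rfl) hu.1
    (h.mono fun i z => z.mono fun b hb => ⟨⟨b, hb⟩, rfl⟩)
  exact ss_congr (ss_up (p := fun i (b : S i) => p i b) (p' := p)
    (j := fun i => Function.Embedding.subtype (· ∈ S i)) (fun _ _ => rfl) k hS (H.am hS (m hu))) e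

/-- Change of gauge. On `B i ⊕ B i` with positions `Sum.elim (p i) (q i)` the involution
`s = tr inr inl μ + tr inl inr μ⁻¹` lies in `Mon` and `ex inl (μ⁻¹ u μ) = s * ex inr u * s`;
use `ss_up` and `ss_down`. -/
theorem gauge {q : ∀ i, B i → Ω → ℝ} {σ : ∀ i, K × B i ≃ K × B i} (h : ∀ i, EqP (σ i))
    (hc : ∀ η : ℝ, 0 < η → ∀ᶠ i in l,
      ∀ t, Cl η ((σ i t).1⁻¹ * t.1) (p i t.2) (q i (σ i t).2))
    (hq : Lev l 𝒜 q) {u μ : SU K B} (hμ : ∀ i, μ i = mo (σ i) 1) :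
    (u ∈ GG K l q → μ⁻¹ * u * μ ∈ GG K l p) ∧
      (u ∈ SS K l 𝒜 q → μ⁻¹ * u * μ ∈ SS K l 𝒜 p) := by
  obtain rfl : μ = fun i => mo (σ i) 1 := funext hμ
  have e1 : ∀ i, Eqv (mo (σ i) 1).1 ∧ RF (mo (σ i) 1).1 := fun i =>
    ⟨eqv_mo (h i) fun _ _ _ => rfl, rf_mo (h i) _⟩
  have e2 : ∀ i, Eqv (mo (σ i) 1)⁻¹.1 ∧ RF (mo (σ i) 1)⁻¹.1 := fun i =>
    ⟨eqv_mo (h i).symm fun _ _ _ => rfl, rf_mo (h i).symm _⟩
  have c : ∀ η : ℝ, 0 < η → ∀ᶠ i in l, Ct η (p i) (q i) (mo (σ i) 1).1 ∧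
      Ct η (q i) (p i) (mo (σ i) 1)⁻¹.1 := fun η hη => (hc η hη).mono fun _ z => ct_mo 1 z
  have r : ∀ a ∈ RR K l q, vl (fun i => mo (σ i) 1)⁻¹ * a * vl (fun i => mo (σ i) 1) ∈ RR K l p :=
    fun a ha => ⟨ha.1.mono fun i z => ⟨((e2 i).1.mul z.1).mul (e1 i).1,
      ((e2 i).2.mul z.2).mul (e1 i).2⟩, fun η hη =>
      ((c (η / 3) (by positivity)).and (ha.2 (η / 3) (by positivity))).mono fun i z =>
        ((z.1.2.mul z.2).mul z.1.1).mono (add_thirds η).le⟩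
  have g : u ∈ GG K l q → (fun i => mo (σ i) 1)⁻¹ * u * (fun i => mo (σ i) 1) ∈ GG K l p :=
    fun hu => ⟨by rw [map_mul, map_mul]; exact r _ hu.1, by
      rw [mul_inv_rev, mul_inv_rev, inv_inv, ← mul_assoc, map_mul, map_mul]; exact r _ hu.2⟩
  refine ⟨g, fun hu => ?_⟩
  by_cases hp : Lev l 𝒜 p
  swap
  · exact ⟨g hu.1, fun z => absurd z hp⟩
  have w : (fun i => Sup_s (mo (σ i) 1).1 (mo (σ i) 1)⁻¹.1) *
      (fun i => Sup_s (mo (σ i) 1).1 (mo (σ i) 1)⁻¹.1) = (1 : SR K fun i => B i ⊕ B i) :=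
    funext fun i => Sup_s_sq (Units.mul_inv _) (Units.inv_mul _)
  have rs : (fun i => Sup_s (mo (σ i) 1).1 (mo (σ i) 1)⁻¹.1) ∈
      RR K l fun i => Sum.elim (p i) (q i) :=
    ⟨.of_forall fun i => ⟨((e1 i).1.tr _ _).add ((e2 i).1.tr _ _),
      ((e1 i).2.tr _ _).add ((e2 i).2.tr _ _)⟩, fun η hη => (c η hη).mono fun i z =>
        (Sup_ct_tr z.1 (fun _ => rfl) fun _ => rfl).add (Sup_ct_tr z.2 (fun _ => rfl) fun _ => rfl)⟩
  have ms : mkU _ _ w w ∈ SS K l 𝒜 fun i => Sum.elim (p i) (q i) :=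
    ee_le_ss (mon_le_ee ⟨⟨rs, rs⟩, .of_forall fun i =>
      ⟨Sup_s_isM (isM_mo _ _) (isM_mo _ _), Sup_s_isM (isM_mo _ _) (isM_mo _ _)⟩⟩)
  refine ss_down (j := fun _ => Function.Embedding.inl) (fun _ _ => rfl) (hp.sum hq) (g hu.1) ?_
  have y := mul_mem (mul_mem ms (ss_up (j := fun _ => Function.Embedding.inr) (fun _ _ => rfl)
    (fun _ => le_rfl) hq hu)) ms
  exact ss_congr y (.of_forall fun i => Units.ext
    (Sup_s_conj (Units.mul_inv _) (Units.inv_mul _) _))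

end

end Pool.Agent.Work.MP_9d1ffa_al.WL.A1
end

-- merged part: Pool.Agent.Work.MP_9d1ffa_al.WL.MV
section
/-! The Mayer-Vietoris step. -/

namespace Pool.Agent.Work.MP_9d1ffa_al.WL.A1

open Filter

noncomputable section

variable {ι K Ω : Type} {B : ι → Type} [Group K] [MulAction K Ω]

/-- level families that are open and invariant -/
def Opn (K : Type) [Group K] [MulAction K Ω] (𝒜 : ℝ → Set (Ω → ℝ)) : Prop :=
  ∀ (c c' η : ℝ) (g : K) (μ ν : Ω → ℝ), 0 < c' → 0 ≤ η → c' + η ≤ c → μ ∈ 𝒜 c → Cl η g μ ν →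
    ν ∈ 𝒜 c'

variable {l : Filter ι} {p : ∀ i, B i → Ω → ℝ} {𝒜 𝒜₁ 𝒜₂ 𝒞 : ℝ → Set (Ω → ℝ)}

theorem Opn.mono (h : Opn K 𝒜) {c c' : ℝ} (h0 : 0 < c') (k : c' ≤ c) : 𝒜 c ⊆ 𝒜 c' :=
  fun μ e => h c c' 0 1 μ μ h0 le_rfl (by linarith) e (Cl.rfl le_rfl μ)

theorem MV_two (h₁ : Opn K 𝒜₁) (h₂ : Opn K 𝒜₂) {c : ℝ} (hc : 0 < c) {g : K} {μ ν : Ω → ℝ}
    (k : Cl (c / 8) g μ ν) (hν : ν ∈ 𝒜₁ c ∪ 𝒜₂ c) (e : μ ∈ 𝒜₁ (c / 2)) (e' : ν ∉ 𝒜₁ (c / 2)) :
    μ ∈ 𝒜₁ (3 * c / 8) ∩ 𝒜₂ (3 * c / 8) ∧ ν ∈ 𝒜₁ (3 * c / 8) ∩ 𝒜₂ (3 * c / 8) := by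
  have a : 0 < 3 * c / 8 := by linarith
  have b : 0 ≤ c / 8 := by linarith
  have z : ν ∈ 𝒜₂ c := hν.resolve_left fun z => e' (h₁.mono (half_pos hc) (by linarith) z)
  exact ⟨⟨h₁.mono a (by linarith) e, h₂ _ _ _ _ _ _ a b (by linarith) z k.symm⟩,
    h₁ _ _ _ _ _ _ a b (by linarith) e k, h₂.mono a (by linarith) z⟩

/-- `tw π α - 1 = (t (ind α) t⁻¹ - ind α) (ind α)⁻¹`; `kr_tP_conj`, `Ct.ind`, control `c / 8` -/
theorem tw_sp (h₁ : Opn K 𝒜₁) (h₂ : Opn K 𝒜₂) {c : ℝ} (hc : 0 < c)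
    (hp : ∀ᶠ i in l, ∀ b, p i b ∈ 𝒜₁ c ∪ 𝒜₂ c) {α : SU K B} (h : α ∈ GG K l p) :
    ∀ᶠ i in l, Sp {b | p i b ∈ 𝒜₁ (c / 4) ∩ 𝒜₂ (c / 4)}
      ((tw (fun i => {b | p i b ∈ 𝒜₁ (c / 2)}) α i).1 - 1) := by
  have a : 0 < c / 8 := by linarith
  have a' : 0 < c / 4 := by linarith
  filter_upwards [hp, h.1.2 _ a, h.2.2 _ a] with i h1 h2 h3 t'' t e
  have q : (tw (fun i => {b | p i b ∈ 𝒜₁ (c / 2)}) α i).1 - 1 =
      ((mo (tP K {b | p i b ∈ 𝒜₁ (c / 2)}) 1).1 * ind K (B i) (α i).1 *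
        (mo (tP K {b | p i b ∈ 𝒜₁ (c / 2)}) 1)⁻¹.1 - ind K (B i) (α i).1) *
        ind K (B i) (α i)⁻¹.1 := by
    rw [sub_mul, ← map_mul, Units.mul_inv, map_one]
    rfl
  rw [q] at e
  obtain ⟨t', e1, e2⟩ := kr_mul_ne e
  obtain ⟨e3, e4⟩ := kr_tP_conj e1
  have k := h2 _ _ e3
  have k' := (cl_kz.1 (Ct.ind h3 _ _ e2)).symm
  have z : p i t''.2 ∈ 𝒜₁ (3 * c / 8) ∩ 𝒜₂ (3 * c / 8) ∧
      p i t'.2 ∈ 𝒜₁ (3 * c / 8) ∩ 𝒜₂ (3 * c / 8) := by
    by_cases y : p i t'.2 ∈ 𝒜₁ (c / 2)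
    · exact (MV_two h₁ h₂ hc k (h1 _) y fun x => e4 (iff_of_true x y)).symm
    · exact MV_two h₁ h₂ hc k.symm (h1 _) (by_contra fun x => e4 (iff_of_false x y)) y
  exact ⟨⟨h₁.mono a' (by linarith) z.1.1, h₂.mono a' (by linarith) z.1.2⟩,
    h₁ _ _ _ _ _ _ a' a.le (by linarith) z.2.1 k', h₂ _ _ _ _ _ _ a' a.le (by linarith) z.2.2 k'⟩

open Classical in
/-- gluing of an embedding of a subset with the inclusion of the complement -/
def MV_J {X Y : Type} (S : Set X) (j : S ↪ Y) : X ↪ ↥Sᶜ ⊕ Y where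
  toFun b := if h : b ∈ S then Sum.inr (j ⟨b, h⟩) else Sum.inl ⟨b, h⟩
  inj' a b h := by
    beta_reduce at h
    by_cases x : a ∈ S <;> by_cases y : b ∈ S
    · rw [dif_pos x, dif_pos y] at h
      exact congrArg Subtype.val (j.injective (Sum.inr_injective h))
    · rw [dif_pos x, dif_neg y] at h
      exact absurd h Sum.inr_ne_inl
    · rw [dif_neg x, dif_pos y] at h
      exact absurd h Sum.inl_ne_inr
    · rw [dif_neg x, dif_neg y] at h
      exact congrArg Subtype.val (Sum.inl_injective h)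

theorem MV_conj {R : Type} [Monoid R] (d : Rˣ) {a b : R} (h : Commute a b) :
    Commute (d⁻¹.1 * a * d.1) (d⁻¹.1 * b * d.1) := by
  simp only [Commute, SemiconjBy, mul_assoc, Units.mul_inv_cancel_left]
  rw [← mul_assoc a, h.eq, mul_assoc]

theorem MV_J_pos {X Y : Type} (S : Set X) (j : S ↪ Y) (b : S) : MV_J S j b = Sum.inr (j b) :=
  dif_pos b.2

theorem MV_J_neg {X Y : Type} (S : Set X) (j : S ↪ Y) (b : ↥Sᶜ) : MV_J S j b = Sum.inl b :=
  dif_neg b.2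

/-- `exists_cp` for the subtypes `S i` gives `u₀`; `H` gives `C`, `q`, `j` with
`ex j u₀ ∈ EE q`; `tz_ee` gives `W₀`. Put `B' i = (S i)ᶜ ⊕ (C i ⊕ C i)`, `Z i = range inr`,
`J b = inr (inl (j b))` for `b ∈ S i` and `inl b` else, `W = ex (emZ inr) W₀`. Eventually
`ex J u = ex inr (ex inl (ex j u₀))` (`ex_ex`); `resU_ex`, `comm_hf_xt`, `sp_tr`. -/
theorem mv_prep (H : Van (KZ K) l 𝒞) {S : ∀ i, Set (B i)} (hS : Lev l 𝒞 fun i (b : S i) => p i b)
    {u : SU (KZ K) B} (hu : u ∈ GG (KZ K) l p) (hf' : Fn l (vl u - 1))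
    (h : ∀ᶠ i in l, Sp (S i) ((u i).1 - 1)) :
    ∃ (B' : ι → Type) (p' : ∀ i, B' i → Ω → ℝ) (J : ∀ i, B i ↪ B' i) (Z : ∀ i, Set (B' i)),
      (∀ i b, p' i (J i b) = p i b) ∧ (∀ i b', b' ∈ Z i ∨ ∃ b, J i b = b') ∧
      Lev l 𝒞 (fun i (b : Z i) => p' i b) ∧
      ∃ W ∈ EE K l fun i (x : B' i × ℤ) => p' i x.1, ∀ᶠ i in l,
        Sp {x | x.1 ∈ Z i} ((W i).1 - 1) ∧
          Commute (prj K (hf (B' i))) ((W⁻¹ * resU K B' (ex (KZ K) J u)) i).1 := by
  obtain ⟨v, hv, e1, e2, -⟩ := exists_cp (p := fun i (b : S i) => p i b)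
    (j := fun i => Function.Embedding.subtype (· ∈ S i)) (fun _ _ => rfl) hu
    (h.mono fun i e => e.mono fun b hb => ⟨⟨b, hb⟩, rfl⟩)
  obtain ⟨C, q, j, a1, a2, a3⟩ := (H _ _ hS v hv (e2 hf')).2 hS
  obtain ⟨W, hW, cW⟩ := tz_ee a3
  let J : ∀ i, B i ↪ ↥(S i)ᶜ ⊕ (C i ⊕ C i) := fun i =>
    MV_J (S i) ((j i).trans Function.Embedding.inl)
  have k : ex (KZ K) J (ex (KZ K) (fun i => Function.Embedding.subtype (· ∈ S i)) v) =
      ex (KZ K) (fun _ => Function.Embedding.inr)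
        (ex (KZ K) (fun _ => Function.Embedding.inl) (ex (KZ K) j v)) := by
    rw [ex_ex, ex_ex, ex_ex]
    exact congrArg (fun x => ex (KZ K) x v)
      (funext fun i => Function.Embedding.ext fun b => MV_J_pos (S i) _ b)
  refine ⟨fun i => ↥(S i)ᶜ ⊕ (C i ⊕ C i),
    fun i => Sum.elim (fun b => p i b) (Sum.elim (q i) (q i)), J, fun _ => Set.range Sum.inr,
    fun i b => ?_, ?_, a2.of_mem (.of_forall ?_),
    ex K (fun _ => emZ Function.Embedding.inr) W, ee_ex (fun _ _ => rfl) hW,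
    e1.mono fun i e => ⟨?_, ?_⟩⟩
  · by_cases x : b ∈ S i
    · exact (congrArg _ (MV_J_pos (S i) _ ⟨b, x⟩)).trans (a1 i ⟨b, x⟩)
    · exact congrArg _ (MV_J_neg (S i) _ ⟨b, x⟩)
  · rintro i (b | b)
    exacts [Or.inr ⟨b, MV_J_neg (S i) _ b⟩, Or.inl ⟨b, rfl⟩]
  · rintro i ⟨_, b | b, rfl⟩
    exacts [⟨b, rfl⟩, ⟨b, rfl⟩]
  · rw [ex_val, add_sub_cancel_left]
    refine (sp_tr _ _).mono ?_
    rintro _ ⟨x, rfl⟩
    exact ⟨x.1, rfl⟩
  · have z : resU K _ (ex (KZ K) J u) i = resU K _ (ex (KZ K) J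
        (ex (KZ K) (fun i => Function.Embedding.subtype (· ∈ S i)) v)) i :=
      Units.ext (congrArg (fun x : (En (KZ K) (B i))ˣ => res K _ (xt (KZ K) (J i) x.1)) e.symm)
    rw [Pi.mul_apply, z, k, resU_ex, ← Pi.mul_apply, ← map_inv, ← map_mul]
    exact comm_hf_xt _ (cW i)

/-- Let `D = sU π`, `ᾱ = resU (indU α) = Dg (fun _ => α)`, `α₀ = ex (em (-1)) α`,
`W' = D⁻¹ W D ∈ EE`, `θ = prj hf`, `Θ = prj (hfP π) = D⁻¹ θ D` (`shP_hf`). As `ᾱ` commutes with `θ`,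
`W'⁻¹ ᾱ` commutes with `Θ`; `ᾱ = α₀ * Dg (update (fun _ => α) (-1) 1)` (`Dg_single`,
`comm_hfP_Dg`), so `β = W'⁻¹ α₀` commutes with `Θ`. -/
theorem mv_comm {π Z : ∀ i, Set (B i)} {α : SU K B} {W : SU K fun i => B i × ℤ} {i : ι}
    (h1 : Sp {x | x.1 ∈ Z i} ((W i).1 - 1))
    (h2 : Commute (prj K (hf (B i))) ((W⁻¹ * resU K B (tw π α)) i).1) :
    Commute (prj K (hfP (π i)))
      ((((sU K π)⁻¹ * W * sU K π)⁻¹ * ex K (fun i => em (B i) (-1 : ℤ)) α) i).1 ∧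
    Sp {x | x.1 ∈ Z i ∨ x.2 = -1}
      (((((sU K π)⁻¹ * W * sU K π)⁻¹ * ex K (fun i => em (B i) (-1 : ℤ)) α) i).1 - 1) := by
  constructor
  · have c1 : Commute (prj K (hf (B i))) (resU K B (indU K B α) i).1 := by
      rw [resU_val, indU_val, res_ind]
      exact comm_hf_Dg _
    have c2 := h2.mul_right c1
    rw [← Units.val_mul, ← Pi.mul_apply, tw, map_mul, map_mul, map_mul, map_inv, map_inv, resU_tU,
      mul_assoc W⁻¹, inv_mul_cancel_right] at c2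
    have c3 : Commute (prj K (hfP (π i)))
        ((((sU K π)⁻¹ * W * sU K π)⁻¹ * resU K B (indU K B α)) i).1 := by
      have e : ((sU K π)⁻¹ * W * sU K π)⁻¹ * resU K B (indU K B α) = (sU K π)⁻¹ *
          (W⁻¹ * (sU K π * resU K B (indU K B α) * (sU K π)⁻¹)) * sU K π := by group
      rw [e, ← shP_hf]
      exact MV_conj (sU K π i) c2
    have e : (ex K (fun i => em (B i) (-1 : ℤ)) α i).1 = (resU K B (indU K B α) i).1 *
        Dg K (B i) ℤ (Function.update (fun _ => (α i)⁻¹.1) (-1) 1) := by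
      rw [resU_val, indU_val, res_ind, ← map_mul]
      refine (Dg_single _ _).symm.trans (congrArg _ (funext fun k => ?_))
      by_cases x : k = -1
      · simp [x]
      · simp [x]
    rw [Pi.mul_apply, Units.val_mul, e, ← mul_assoc]
    exact c3.mul_right (comm_hfP_Dg _ (Function.update_self ..))
  · refine Sp.mul_sub (Sp.inv_sub (u := ((sU K π)⁻¹ * W * sU K π) i) ?_) ?_
    · have e : (((sU K π)⁻¹ * W * sU K π) i).1 - 1 =
          (mo (shP K (π i)) 1)⁻¹.1 * ((W i).1 - 1) * (mo (shP K (π i)) 1).1 := by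
        rw [mul_sub, sub_mul, mul_one, Units.inv_mul]
        rfl
      rw [e]
      exact (h1.shP _).mono fun _ => Or.inl
    · rw [ex_val, add_sub_cancel_left]
      refine (sp_tr _ _).mono ?_
      rintro _ ⟨x, rfl⟩
      exact Or.inr rfl

/-- `β ∈ AM` (`ee_le_am`, `am_of_fn`); `mv_comm`, `exists_cut`, `Van.loc` twice, `ss_down`. -/
theorem mv_core (H₁ : Van K l 𝒜₁) (H₂ : Van K l 𝒜₂) (k₁ : ∀ c, 𝒜₁ c ⊆ 𝒜 c) (k₂ : ∀ c, 𝒜₂ c ⊆ 𝒜 c)
    {π Z : ∀ i, Set (B i)} (l₁ : Lev l 𝒜₁ fun i (b : ↥(π i ∪ Z i)) => p i b)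
    (l₂ : Lev l 𝒜₂ fun i (b : ↥((π i)ᶜ ∪ Z i)) => p i b)
    {α : SU K B} (hα : α ∈ GG K l p) (hf' : Fn l (vl α - 1)) {W : SU K fun i => B i × ℤ}
    (hW : W ∈ EE K l fun i (x : B i × ℤ) => p i x.1)
    (h : ∀ᶠ i in l, Sp {x | x.1 ∈ Z i} ((W i).1 - 1) ∧
      Commute (prj K (hf (B i))) ((W⁻¹ * resU K B (tw π α)) i).1) :
    α ∈ SS K l 𝒜 p := by
  have s := mon_le_ee (sU_mem (K := K) (l := l) (p := p) π)
  have w := mul_mem (mul_mem (inv_mem s) hW) s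
  have a := gg_ex (p' := fun i (x : B i × ℤ) => p i x.1) (j := fun i => em (B i) (-1 : ℤ))
    (fun _ _ => rfl) hα
  have b := mul_mem (inv_mem (ee_le_am w)) (am_of_fn a (fn_ex _ hf'))
  obtain ⟨v, -, v', -, e, e1, e2⟩ := exists_cut (S := fun i => hfP (π i))
    (T := fun i => {x | x.1 ∈ Z i ∨ x.2 = -1}) (am_le_gg b) (h.mono fun i x => mv_comm x.1 x.2)
  have m₁ : Lev l 𝒜₁ fun i (x : ↥({x : B i × ℤ | x.1 ∈ Z i ∨ x.2 = -1} ∩ hfP (π i))) => p i x.1.1 :=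
    l₁.of_mem (.of_forall fun i x => ⟨⟨x.1.1, x.2.1.elim Or.inr fun y => x.2.2.elim
      (fun z => absurd (z.trans_eq y) (by decide)) fun z => Or.inl z.2⟩, rfl⟩)
  have m₂ : Lev l 𝒜₂ fun i (x : ↥({x : B i × ℤ | x.1 ∈ Z i ∨ x.2 = -1} \ hfP (π i))) => p i x.1.1 :=
    l₂.of_mem (.of_forall fun i x => ⟨⟨x.1.1, x.2.1.elim Or.inr fun y =>
      Or.inl fun z => x.2.2 (Or.inr ⟨y, z⟩)⟩, rfl⟩)
  have m : Lev l 𝒜 fun i (x : B i × ℤ) => p i x.1 :=
    (l₁.mono k₁).of_two (l₂.mono k₂) (.of_forall fun i x => (Classical.em (x.1 ∈ π i)).imp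
      (fun y => ⟨⟨x.1, Or.inl y⟩, rfl⟩) fun y => ⟨⟨x.1, Or.inl y⟩, rfl⟩)
  have c₁ := H₁.loc (p := fun i (x : B i × ℤ) => p i x.1) k₁ m₁ (e2 b).1 (e1.mono fun _ x => x.1)
  have c₂ := H₂.loc (p := fun i (x : B i × ℤ) => p i x.1) k₂ m₂ (e2 b).2 (e1.mono fun _ x => x.2)
  have c := mul_mem (ee_le_ss w) (mul_mem c₁ c₂)
  rw [← e, mul_inv_cancel_left] at c
  exact ss_down (p' := fun i (x : B i × ℤ) => p i x.1) (j := fun i => em (B i) (-1 : ℤ))
    (fun _ _ => rfl) m hα c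

/-- `tw_mem`, `tw_sp`, `mv_prep`, `ex_tw`, `mv_core` for `ex J α` and `J '' π`, `ss_down` -/
theorem mv {P : Set (Ω → ℝ)} (h₁ : Opn K 𝒜₁) (h₂ : Opn K 𝒜₂) (H₁ : Van K l fun c => P ∩ 𝒜₁ c)
    (H₂ : Van K l fun c => P ∩ 𝒜₂ c) (H : Van (KZ K) l fun c => P ∩ (𝒜₁ c ∩ 𝒜₂ c)) :
    Van K l fun c => P ∩ (𝒜₁ c ∪ 𝒜₂ c) := by
  intro B p hp α hα hf'
  obtain ⟨c, hc, h0⟩ := id hp
  have h : ∀ᶠ i in l, ∀ b, p i b ∈ P ∧ p i b ∈ 𝒜₁ c ∪ 𝒜₂ c := h0.mono fun i e b =>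
    (e b).elim fun _ z => ⟨z.2.1, z.2.2.imp (fun y => h₁.mono hc z.1 y) fun y => h₂.mono hc z.1 y⟩
  have t := tw_mem (fun i => {b | p i b ∈ 𝒜₁ (c / 2)}) hα hf'
  obtain ⟨B', p', J, Z, e, cov, lZ, W, hW, hev⟩ := mv_prep H
    ⟨c / 4, by linarith, h.mono fun i e b => ⟨_, le_rfl, (e _).1, b.2⟩⟩ t.1 t.2
    (tw_sp h₁ h₂ hc (h.mono fun _ e b => (e b).2) hα)
  rw [ex_tw] at hev
  have m₁ : Lev l (fun c => P ∩ 𝒜₁ c) fun i (b : ↥{b | p i b ∈ 𝒜₁ (c / 2)}) => p i b :=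
    ⟨c / 2, half_pos hc, h.mono fun i e b => ⟨_, le_rfl, (e _).1, b.2⟩⟩
  have m₂ : Lev l (fun c => P ∩ 𝒜₂ c) fun i (b : ↥{b | p i b ∉ 𝒜₁ (c / 2)}) => p i b :=
    ⟨c, hc, h.mono fun i e b => ⟨_, le_rfl, (e _).1, (e _).2.resolve_left fun z =>
      b.2 (h₁.mono (half_pos hc) (by linarith) z)⟩⟩
  refine ss_down e (hp.of_two (lZ.mono fun _ _ z => ⟨z.1, Or.inl z.2.1⟩) (.of_forall fun i x => ?_))
    hα (mv_core (𝒜 := fun c => P ∩ (𝒜₁ c ∪ 𝒜₂ c)) H₁ H₂ (fun _ _ z => ⟨z.1, Or.inl z.2⟩)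
      (fun _ _ z => ⟨z.1, Or.inr z.2⟩)
      (m₁.of_two (lZ.mono fun _ _ z => ⟨z.1, z.2.1⟩) (.of_forall ?_))
      (m₂.of_two (lZ.mono fun _ _ z => ⟨z.1, z.2.2⟩) (.of_forall ?_))
      (gg_ex e hα) (fn_ex J hf') hW hev)
  · rcases cov i x with y | ⟨b, rfl⟩
    exacts [Or.inr ⟨⟨x, y⟩, rfl⟩, Or.inl ⟨b, e i b⟩]
  · rintro i ⟨_, ⟨b, y, rfl⟩ | y⟩
    exacts [Or.inl ⟨⟨b, y⟩, e i b⟩, Or.inr ⟨⟨_, y⟩, rfl⟩]
  · rintro i ⟨x, y⟩
    rcases cov i x with z | ⟨b, rfl⟩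
    · exact Or.inr ⟨⟨x, z⟩, rfl⟩
    · exact y.elim (fun z => Or.inl ⟨⟨b, fun w => z ⟨b, w, rfl⟩⟩, e i b⟩) fun z =>
        Or.inr ⟨⟨_, z⟩, rfl⟩

end

end Pool.Agent.Work.MP_9d1ffa_al.WL.A1
end

-- merged part: Pool.Agent.Work.MP_9d1ffa_al.WL.Tel
section
/-! Telescoping along the shift. -/

namespace Pool.Agent.Work.MP_9d1ffa_al.WL.A1

open Filter

noncomputable section

variable {ι K Ω : Type} {B : ι → Type}

/-- block diagonal families -/
def dgU (K : Type) (B : ι → Type) (J : Type) : (J → SU K B) →* SU K fun i => B i × J where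
  toFun a := mkU (fun i => Dg K (B i) J fun k => (a k i).1) (fun i => Dg K (B i) J fun k => (a k i)⁻¹.1)
    (funext fun i => (map_mul (Dg K (B i) J) _ _).symm.trans
      ((congrArg _ (funext fun k => (a k i).mul_inv)).trans (map_one _)))
    (funext fun i => (map_mul (Dg K (B i) J) _ _).symm.trans
      ((congrArg _ (funext fun k => (a k i).inv_mul)).trans (map_one _)))
  map_one' := funext fun i => Units.ext (map_one (Dg K (B i) J))
  map_mul' _ _ := funext fun i => Units.ext (map_mul (Dg K (B i) J) _ _)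

theorem dgU_val {J : Type} (a : J → SU K B) (i : ι) :
    (dgU K B J a i).1 = Dg K (B i) J fun k => (a k i).1 := rfl

/-- one member of a family -/
def pt (i : ι) : SU K B →* SU K fun _ : Unit => B i where
  toFun u _ := u i
  map_one' := rfl
  map_mul' _ _ := rfl

/-- the shift -/
def Tel_s (K : Type) (B : ι → Type) : SU K fun i => B i × ℤ := fun i => mo (shE K (B i)) 1

theorem Tel_comm (P : ℤ → SU K B) :
    Tel_s K B * dgU K B ℤ P * (Tel_s K B)⁻¹ * (dgU K B ℤ P)⁻¹ =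
      dgU K B ℤ fun k => P (k - 1) * (P k)⁻¹ := by
  have e : Tel_s K B * dgU K B ℤ P * (Tel_s K B)⁻¹ = dgU K B ℤ fun k => P (k - 1) :=
    funext fun i => Units.ext (sh_Dg fun k => (P k i).1)
  rw [e, ← map_inv, ← map_mul]
  rfl

theorem Tel_ex (n : ι → ℤ) (u : SU K B) : ex K (fun i => em (B i) (n i)) u =
    dgU K B ℤ fun k i => if k = n i then u i else 1 := funext fun i => Units.ext (by
  refine (Dg_single (n i) (u i).1).symm.trans (congrArg _ (funext fun k => ?_))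
  rw [Function.update_apply]
  beta_reduce
  split_ifs <;> rfl)

theorem Tel_fn {l : Filter ι} {P : ℤ → SU K B}
    (h : ∀ᶠ i in l, (∀ k, Fi ((P k i).1 - 1)) ∧ {k | P k i ≠ 1}.Finite) :
    Fn l (vl (dgU K B ℤ P) - 1) := h.mono fun i e => by
  rw [Pi.sub_apply, vl_apply, dgU_val, Pi.one_apply, ← map_one (Dg K (B i) ℤ), ← map_sub]
  exact fi_Dg e.1 (e.2.subset fun k z y => z (sub_eq_zero.2 (congrArg Units.val y)))

variable [Group K] [MulAction K Ω] {𝒜 : ℝ → Set (Ω → ℝ)}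

theorem Tel_rr {l : Filter ι} {q : ∀ i, B i × ℤ → Ω → ℝ} {a : ∀ i, ℤ → En K (B i)}
    (h1 : ∀ᶠ i in l, ∀ k, Eqv (a i k) ∧ RF (a i k))
    (h2 : ∀ η : ℝ, 0 < η → ∀ᶠ i in l, ∀ k,
      Ct η (fun b => q i (b, k)) (fun b => q i (b, k)) (a i k)) :
    (fun i => Dg K (B i) ℤ (a i)) ∈ RR K l q :=
  ⟨h1.mono fun _ e => ⟨eqv_Dg fun k => (e k).1, rf_Dg fun k => (e k).2⟩,
    fun η hη => (h2 η hη).mono fun _ e => ct_Dg e⟩

theorem Tel_dg {l : Filter ι} {q : ∀ i, B i × ℤ → Ω → ℝ} {P : ℤ → SU K B}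
    (h1 : ∀ᶠ i in l, ∀ k, (Eqv (P k i).1 ∧ RF (P k i).1) ∧ Eqv (P k i)⁻¹.1 ∧ RF (P k i)⁻¹.1)
    (h2 : ∀ η : ℝ, 0 < η → ∀ᶠ i in l, ∀ k,
      Ct η (fun b => q i (b, k)) (fun b => q i (b, k)) (P k i).1 ∧
        Ct η (fun b => q i (b, k)) (fun b => q i (b, k)) (P k i)⁻¹.1) : dgU K B ℤ P ∈ GG K l q :=
  ⟨Tel_rr (a := fun i k => (P k i).1) (h1.mono fun _ e k => (e k).1)
    fun η hη => (h2 η hη).mono fun _ e k => (e k).1,
    Tel_rr (a := fun i k => (P k i)⁻¹.1) (h1.mono fun _ e k => (e k).2)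
      fun η hη => (h2 η hη).mono fun _ e k => (e k).2⟩

theorem Tel_cv {C : Type} {η : ℝ} {p₀ p₁ : C → Ω → ℝ} {a : En K C} (h0 : Ct η p₀ p₀ a)
    (h1 : Ct η p₁ p₁ a) (t : Set.Icc (0 : ℝ) 1) :
    Ct η (fun b ω => (1 - t.1) * p₀ b ω + t.1 * p₁ b ω)
      (fun b ω => (1 - t.1) * p₀ b ω + t.1 * p₁ b ω) a := fun x y e ω => by
  have a0 := abs_le.1 (h0 x y e ω)
  have a1 := abs_le.1 (h1 x y e ω)
  have t0 := t.2.1
  have t1 := sub_nonneg.2 t.2.2
  have b0 := mul_le_mul_of_nonneg_left a0.1 t1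
  have b1 := mul_le_mul_of_nonneg_left a0.2 t1
  have b2 := mul_le_mul_of_nonneg_left a1.1 t0
  have b3 := mul_le_mul_of_nonneg_left a1.2 t0
  rw [abs_le]
  constructor <;> linarith

/-- Linear homotopy of the positions. -/
theorem tel {B : ℕ → Type} {p₀ p₁ : ∀ i, B i → Ω → ℝ}
    (hb : ∀ᶠ i in atTop, ∀ b ω, |p₁ i b ω - p₀ i b ω| ≤ 1)
    (hL : Lev atTop 𝒜 fun i (x : B i × Set.Icc (0 : ℝ) 1) ω =>
      (1 - x.2.1) * p₀ i x.1 ω + x.2.1 * p₁ i x.1 ω)
    {u : SU K B} (h0 : u ∈ GG K atTop p₀) (hf : Fn atTop (vl u - 1))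
    (h1 : u ∈ SS K atTop 𝒜 p₁) : u ∈ SS K atTop 𝒜 p₀ := by
  obtain ⟨t, t0, t1, t2⟩ : ∃ t : ℕ → ℤ → Set.Icc (0 : ℝ) 1, (∀ i, (t i 0).1 = 0) ∧
      (∀ i : ℕ, (t i (i + 1)).1 = 1) ∧ ∀ i k, |(t i (k + 1)).1 - (t i k).1| ≤ 1 / ((i : ℝ) + 1) := by
    refine ⟨fun i k => Set.projIcc 0 1 zero_le_one (k / ((i : ℝ) + 1)), fun i => by simp,
      fun i => ?_, fun i k => (Set.abs_projIcc_sub_projIcc _).trans_eq ?_⟩
    · push_cast
      rw [div_self (by positivity)]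
      simp
    · push_cast
      rw [← sub_div, add_sub_cancel_left, abs_of_nonneg (by positivity)]
  let q : ∀ i, B i × ℤ → Ω → ℝ := fun i x ω =>
    (1 - (t i x.2).1) * p₀ i x.1 ω + (t i x.2).1 * p₁ i x.1 ω
  have e0 : ∀ i b, q i (em (B i) 0 b) = p₀ i b := fun i b => funext fun ω => by
    change (1 - (t i 0).1) * p₀ i b ω + (t i 0).1 * p₁ i b ω = _
    rw [t0]; ring
  have e1 : ∀ (i : ℕ) b, q i (em (B i) ((i : ℤ) + 1) b) = p₁ i b := fun i b => funext fun ω => by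
    change (1 - (t i (i + 1)).1) * p₀ i b ω + (t i (i + 1)).1 * p₁ i b ω = _
    rw [t1]; ring
  have Lq : Lev atTop 𝒜 q := hL.of_mem (Eventually.of_forall fun i x => ⟨(x.1, t i x.2), rfl⟩)
  have L1 : Lev atTop 𝒜 p₁ := Lq.of_mem (Eventually.of_forall fun i b => ⟨_, (e1 i b).symm⟩)
  have hs : Tel_s K B ∈ Mon K atTop q := mo_mem (fun _ => eqP_sh) fun η hη => by
    filter_upwards [hb, (tendsto_one_div_add_atTop_nhds_zero_nat (𝕜 := ℝ)).eventually_le_const hη]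
      with i c d x ω
    change |q i (x.2.1, x.2.2 + 1) ((x.1⁻¹ * x.1) • ω) - q i x.2 ω| ≤ η
    have : q i (x.2.1, x.2.2 + 1) ω - q i x.2 ω =
        ((t i (x.2.2 + 1)).1 - (t i x.2.2).1) * (p₁ i x.2.1 ω - p₀ i x.2.1 ω) := by
      simp only [q]; ring
    rw [inv_mul_cancel, one_smul, this, abs_mul]
    exact (mul_le_of_le_one_right (abs_nonneg _) (c _ _)).trans ((t2 _ _).trans d)
  let P : ℤ → SU K B := fun k i => if 0 ≤ k ∧ k < (i : ℤ) + 1 then u i else 1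
  have hY : dgU K B ℤ P ∈ GG K atTop q := by
    refine Tel_dg ((h0.1.1.and h0.2.1).mono fun i e k => ?_) fun η hη => ?_
    · simp only [P]
      split_ifs
      exacts [e, ⟨⟨eqv_one, rf_one⟩, eqv_one, rf_one⟩]
    · filter_upwards [h0.1.2 η hη, h0.2.2 η hη, h1.1.1.2 η hη, h1.1.2.2 η hη] with i a b c d k
      simp only [P]
      split_ifs
      exacts [⟨Tel_cv a c (t i k), Tel_cv b d (t i k)⟩, ⟨ct_one hη.le _, ct_one hη.le _⟩]
  have hF : Fn atTop (vl (dgU K B ℤ P) - 1) := Tel_fn (hf.mono fun i e => ⟨fun k => by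
    simp only [P]
    split_ifs
    exacts [e, by simpa using fi_zero], (Set.finite_Ico (0 : ℤ) (i + 1)).subset fun k z => by
      by_contra y
      exact z (if_neg y)⟩)
  have c := ss_comm (𝒜 := 𝒜) hs.1 hY hF
  have e : (fun k => P (k - 1) * (P k)⁻¹) = (fun (k : ℤ) (i : ℕ) =>
      if k = (i : ℤ) + 1 then u i else 1) * (fun (k : ℤ) (i : ℕ) => if k = 0 then u i else 1)⁻¹ := by
    funext k i
    simp only [P, Pi.mul_apply, Pi.inv_apply]
    split_ifs <;> first | omega | simp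
  rw [Tel_comm, e, map_mul, map_inv, ← Tel_ex fun i : ℕ => (i : ℤ) + 1, ← Tel_ex fun _ => 0] at c
  have d := ss_up e1 (fun _ => subset_rfl) L1 h1
  exact ss_down e0 Lq h0 (inv_mem_iff.1 ((mul_mem_cancel_left d).1 c))

theorem rr_top {C : Type} {q : C → Ω → ℝ} {a : SR K fun _ : Unit => C} :
    a ∈ RR K ⊤ (fun _ : Unit => q) ↔ Eqv (a ()) ∧ RF (a ()) ∧ Ct 0 q q (a ()) :=
  ⟨fun h => ⟨(eventually_top.1 h.1 ()).1, (eventually_top.1 h.1 ()).2, fun x y e ω =>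
    le_of_forall_gt_imp_ge_of_dense fun η hη => eventually_top.1 (h.2 η hη) () x y e ω⟩,
    fun h => ⟨eventually_top.2 fun _ => ⟨h.1, h.2.1⟩,
      fun _ hη => eventually_top.2 fun _ => h.2.2.mono hη.le⟩⟩

theorem Tel_one {l : Filter ι} {p : ∀ i, B i → Ω → ℝ} : (1 : SU K B) ∈ El K l p :=
  ⟨0, zero_mem _, 0, zero_mem _, Eventually.of_forall fun _ => fi_zero,
    Eventually.of_forall fun _ => fi_zero, mul_zero _, by rw [map_one, mul_zero, add_zero]⟩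

theorem Tel_alg {R : Type} [Ring R] {a b u v : R} (z : b * a = 0) (k : u = 1 + a * b)
    (h : v * u = 1) : b * -a = 0 ∧ v = 1 + -a * b := by
  have e : u * (1 + -a * b) = 1 := by
    have : (1 + a * b) * (1 + -a * b) = 1 - a * (b * a) * b := by noncomm_ring
    rw [k, this, z, mul_zero, zero_mul, sub_zero]
  exact ⟨by rw [mul_neg, z, neg_zero], left_inv_eq_right_inv h e⟩

theorem Tel_inv {l : Filter ι} {p : ∀ i, B i → Ω → ℝ} {u : SU K B} (h : u ∈ El K l p) :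
    u⁻¹ ∈ El K l p :=
  let ⟨a, ha, b, hb, fa, fb, z, k⟩ := h
  ⟨-a, neg_mem ha, b, hb, fa.neg, fb, Tel_alg z k (vl_inv_mul u)⟩

/-- final products of a word in the generators -/
theorem e0_chain {C : Type} {q : C → Ω → ℝ} {v : SU K fun _ : Unit => C}
    (h : v ∈ E0 K ⊤ fun _ : Unit => q) :
    ∃ (n : ℕ) (P : ℤ → SU K fun _ : Unit => C), (∀ k, P k ∈ E0 K ⊤ fun _ : Unit => q) ∧
      (∀ k, k < 0 ∨ (n : ℤ) < k → P k = 1) ∧ P n = v ∧
      ∀ k, k ≠ (n : ℤ) + 1 → P (k - 1) * (P k)⁻¹ ∈ El K ⊤ fun _ : Unit => q := by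
  have el : ∀ x ∈ El K ⊤ (fun _ : Unit => q) ∪ Ev ⊤, x ∈ El K ⊤ fun _ : Unit => q := by
    rintro x (h | h)
    · exact h
    · exact (funext (eventually_top.1 h) : x = 1) ▸ Tel_one
  have step : ∀ x ∈ El K ⊤ (fun _ : Unit => q), ∀ (y : SU K fun _ : Unit => C) (n : ℕ)
      (P : ℤ → SU K fun _ : Unit => C), (∀ k, P k ∈ E0 K ⊤ fun _ : Unit => q) ∧
      (∀ k, k < 0 ∨ (n : ℤ) < k → P k = 1) ∧ P n = y ∧
      (∀ k, k ≠ (n : ℤ) + 1 → P (k - 1) * (P k)⁻¹ ∈ El K ⊤ fun _ : Unit => q) →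
      ∃ (n : ℕ) (P : ℤ → SU K fun _ : Unit => C), (∀ k, P k ∈ E0 K ⊤ fun _ : Unit => q) ∧
      (∀ k, k < 0 ∨ (n : ℤ) < k → P k = 1) ∧ P n = x * y ∧
      ∀ k, k ≠ (n : ℤ) + 1 → P (k - 1) * (P k)⁻¹ ∈ El K ⊤ fun _ : Unit => q := by
    rintro x hx _ n P ⟨h1, h2, rfl, h4⟩
    refine ⟨n + 1, fun k => if k = n + 1 then x * P n else P k, fun k => ?_, fun k e => ?_,
      if_pos (by push_cast; rfl), fun k e => ?_⟩ <;> beta_reduce
    · split_ifs
      exacts [mul_mem (Subgroup.subset_closure (Or.inl hx)) (h1 _), h1 _]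
    · rw [if_neg (by omega), h2 k (by omega)]
    · rw [if_neg (by omega)]
      split_ifs with c
      · rw [c, add_sub_cancel_right, mul_inv_rev, mul_inv_cancel_left]
        exact Tel_inv hx
      · exact h4 k c
  induction h using Subgroup.closure_induction_left with
  | one => exact ⟨0, 1, fun _ => one_mem _, fun _ _ => rfl, rfl, fun _ _ => by simpa using Tel_one⟩
  | mul_left x hx y _ ih => exact ih.elim fun n => fun ⟨P, k⟩ => step x (el x hx) y n P k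
  | inv_mul_cancel x hx y _ ih =>
    exact ih.elim fun n => fun ⟨P, k⟩ => step _ (Tel_inv (el x hx)) y n P k

variable {l : Filter ι} {p : ∀ i, B i → Ω → ℝ}

theorem Tel_gg {v : SU K B} (h : ∀ᶠ i in l, pt i v ∈ GG K ⊤ fun _ : Unit => p i) :
    v ∈ GG K l p :=
  ⟨⟨h.mono fun _ e => ⟨(rr_top.1 e.1).1, (rr_top.1 e.1).2.1⟩,
    fun _ hη => h.mono fun _ e => (rr_top.1 e.1).2.2.mono hη.le⟩,
    h.mono fun _ e => ⟨(rr_top.1 e.2).1, (rr_top.1 e.2).2.1⟩,
    fun _ hη => h.mono fun _ e => (rr_top.1 e.2).2.2.mono hη.le⟩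

theorem Tel_top {a : ∀ i, ℤ → En K (B i)}
    (e : ∀ i k, (fun _ : Unit => a i k) ∈ RR K ⊤ fun _ : Unit => p i) :
    (fun i => Dg K (B i) ℤ (a i)) ∈ RR K l fun i (x : B i × ℤ) => p i x.1 :=
  Tel_rr (Eventually.of_forall fun i k => ⟨(rr_top.1 (e i k)).1, (rr_top.1 (e i k)).2.1⟩)
    fun _ hη => Eventually.of_forall fun i k => (rr_top.1 (e i k)).2.2.mono hη.le

theorem Tel_el {Q : ℤ → SU K B} (h : ∀ i k, pt i (Q k) ∈ El K ⊤ fun _ : Unit => p i)
    (h' : ∀ i, {k | Q k i ≠ 1}.Finite) :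
    dgU K B ℤ Q ∈ E0 K l fun i (x : B i × ℤ) => p i x.1 := by
  have ab : ∀ i k, ∃ a b : En K (B i), ((fun _ : Unit => a) ∈ RR K ⊤ fun _ : Unit => p i) ∧
      ((fun _ : Unit => b) ∈ RR K ⊤ fun _ : Unit => p i) ∧ Fi a ∧ b * a = 0 ∧
      (Q k i).1 = 1 + a * b ∧ (a ≠ 0 → Q k i ≠ 1) := fun i k => by
    by_cases c : Q k i = 1
    · exact ⟨0, 0, zero_mem _, zero_mem _, fi_zero, mul_zero _, by simp [c], fun z => absurd rfl z⟩
    · obtain ⟨a, ha, b, hb, fa, -, z, e⟩ := h i k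
      exact ⟨a (), b (), ha, hb, eventually_top.1 fa (), congrFun z (), congrFun e (), fun _ => c⟩
  choose a b ha hb fa z e f using ab
  refine e0_of (Tel_top ha) (Tel_top hb)
    (Or.inl (Eventually.of_forall fun i => fi_Dg (fa i) ((h' i).subset (f i))))
    (Eventually.of_forall fun i => ⟨?_, ?_⟩)
  · rw [← map_mul, ← map_zero (Dg K (B i) ℤ)]
    exact congrArg (Dg K (B i) ℤ) (funext (z i))
  · rw [dgU_val, ← map_mul, ← map_one (Dg K (B i) ℤ), ← map_add]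
    exact congrArg (Dg K (B i) ℤ) (funext (e i))

theorem Tel_uc {v : SU K B} (h : ∀ i, pt i v ∈ E0 K ⊤ fun _ : Unit => p i) :
    v ∈ SS K l 𝒜 p := by
  choose n P' h1 h2 h3 h4 using fun i => e0_chain (h i)
  obtain ⟨P, rfl⟩ : ∃ P : ℤ → SU K B, P' = fun i k => pt i (P k) := ⟨fun k i => P' i k (), rfl⟩
  have k2 : ∀ i k, k < 0 ∨ (n i : ℤ) < k → P k i = 1 := fun i k e => congrFun (h2 i k e) ()
  have k3 : ∀ i, P (n i) i = v i := fun i => congrFun (h3 i) ()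
  let Q : ℤ → SU K B := fun k i => if k = (n i : ℤ) + 1 then 1 else P (k - 1) i * (P k i)⁻¹
  have hW := Tel_el (l := l) (p := p) (Q := Q) (fun i k => by
    change (fun _ => if k = (n i : ℤ) + 1 then 1 else P (k - 1) i * (P k i)⁻¹) ∈ _
    split_ifs with c
    exacts [Tel_one, h4 i k c]) fun i => (Set.finite_Icc (0 : ℤ) (n i)).subset fun k y => by
      by_contra x
      rw [Set.mem_Icc] at x
      refine y ?_
      simp only [Q]
      split_ifs
      · rfl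
      · rw [k2 i k (by omega), k2 i (k - 1) (by omega), mul_inv_cancel]
  have hs : Tel_s K B ∈ Mon K l fun i (x : B i × ℤ) => p i x.1 :=
    mo_mem (fun _ => eqP_sh) fun η hη => Eventually.of_forall fun i x => by
      change Cl η (x.1⁻¹ * x.1) (p i x.2.1) (p i x.2.1)
      rw [inv_mul_cancel]
      exact Cl.rfl hη.le _
  have hY : dgU K B ℤ P ∈ GG K l fun i (x : B i × ℤ) => p i x.1 :=
    ⟨Tel_top (a := fun i k => (P k i).1) fun i k => (e0_le_gg (h1 i k)).1,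
      Tel_top (a := fun i k => (P k i)⁻¹.1) fun i k => (e0_le_gg (h1 i k)).2⟩
  have c := ss_comm (𝒜 := 𝒜) hs.1 hY (Tel_fn (Eventually.of_forall fun i =>
    ⟨fun k => eventually_top.1 (e0_fn (h1 i k)) (), (Set.finite_Icc (0 : ℤ) (n i)).subset
      fun k y => by
        by_contra x
        rw [Set.mem_Icc] at x
        exact y (k2 i k (by omega))⟩))
  have e' : (fun k => P (k - 1) * (P k)⁻¹) =
      (fun (k : ℤ) i => if k = (n i : ℤ) + 1 then v i else 1) * Q := by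
    funext k i
    simp only [Q, Pi.mul_apply, Pi.inv_apply]
    split_ifs with d
    · rw [d, add_sub_cancel_right, k3, k2 i _ (by omega), inv_one]
    · rw [one_mul]
  rw [Tel_comm, e', map_mul, ← Tel_ex fun i => (n i : ℤ) + 1] at c
  have g : v ∈ GG K l p := Tel_gg (Eventually.of_forall fun i => e0_le_gg (h i))
  have d := (mul_mem_cancel_right (ee_le_ss (e0_le_ee hW))).1 c
  refine ⟨g, fun hp => ?_⟩
  have L : Lev l 𝒜 fun i (x : B i × ℤ) => p i x.1 :=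
    hp.of_mem (Eventually.of_forall fun i x => ⟨x.1, rfl⟩)
  exact (ss_down (j := fun i => em (B i) ((n i : ℤ) + 1)) (fun _ _ => rfl) L g d).2 hp

theorem uc0 {v : SU K B} (h : ∀ᶠ i in l, pt i v ∈ E0 K ⊤ fun _ : Unit => p i) :
    v ∈ SS K l 𝒜 p := by
  classical
  refine ss_congr (Tel_uc (v := fun i => if pt i v ∈ E0 K ⊤ (fun _ : Unit => p i) then v i else 1)
    fun i => ?_) (h.mono fun i e => if_pos e)
  change (fun _ => if pt i v ∈ E0 K ⊤ (fun _ : Unit => p i) then v i else 1) ∈ _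
  split_ifs with c
  exacts [c, one_mem _]

theorem uc {𝒞 : Set (Ω → ℝ)} {c : ℝ} (hc : 0 < c) (k : 𝒞 ⊆ 𝒜 c) {u : SU K B}
    (h : ∀ᶠ i in l, (∀ b, p i b ∈ 𝒞) ∧ pt i u ∈ SS K ⊤ (fun _ => 𝒞) fun _ : Unit => p i) :
    u ∈ SS K l 𝒜 p := by
  have : ∀ i, ∃ (C : Type) (q : C → Ω → ℝ) (j : B i ↪ C) (μ v : (En K C)ˣ),
      (∀ b, q (j b) = p i b) ∧
      ((∀ b, p i b ∈ 𝒞) ∧ pt i u ∈ SS K ⊤ (fun _ => 𝒞) (fun _ : Unit => p i) →
        (∀ x, q x ∈ 𝒞) ∧ ((fun _ => μ) ∈ Mon K ⊤ fun _ : Unit => q) ∧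
          ((fun _ => v) ∈ E0 K ⊤ fun _ : Unit => q) ∧ μ * v = Units.map (xt K j) (u i)) := fun i => by
    by_cases g : (∀ b, p i b ∈ 𝒞) ∧ pt i u ∈ SS K ⊤ (fun _ => 𝒞) fun _ : Unit => p i
    · obtain ⟨C, q, j, e, ⟨_, -, L⟩, d⟩ :=
        g.2.2 ⟨1, one_pos, eventually_top.2 fun _ b => ⟨1, le_rfl, g.1 b⟩⟩
      obtain ⟨μ, hμ, v, hv, d⟩ := mem_ee.1 d
      exact ⟨C (), q (), j (), μ (), v (), e (), fun _ =>
        ⟨fun x => (eventually_top.1 L () x).elim fun _ z => z.2, hμ, hv, (congrFun d ()).symm⟩⟩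
    · exact ⟨B i, p i, Function.Embedding.refl _, 1, 1, fun _ => rfl, fun z => absurd z g⟩
  choose C q j μ v e d using this
  have d' := h.mono d
  have hμ : μ ∈ Mon K l q := ⟨Tel_gg (d'.mono fun _ z => z.2.1.1),
    d'.mono fun _ z => eventually_top.1 z.2.1.2 ()⟩
  exact ss_down e ⟨c, hc, d'.mono fun _ z x => ⟨c, le_rfl, k (z.1 x)⟩⟩
    (Tel_gg (h.mono fun _ z => z.2.1))
    (ss_congr (mul_mem (ee_le_ss (mon_le_ee hμ)) (uc0 (d'.mono fun _ z => z.2.2.1)))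
      (d'.mono fun _ z => z.2.2.2))

theorem Tel_rr0 {a : SR K B} (h : a ∈ RR K l p) : ∀ᶠ i in l,
    (fun _ => a i) ∈ RR K ⊤ fun (_ : Unit) (_ : B i) (_ : Ω) => (0 : ℝ) :=
  h.1.mono fun _ e => rr_top.2 ⟨e.1, e.2, fun _ _ _ _ => by simp⟩

/-- evaluation, forgetting the control -/
theorem ee_pt {u : SU K B} (h : u ∈ EE K l p) :
    ∀ᶠ i in l, pt i u ∈ EE K ⊤ fun (_ : Unit) (_ : B i) (_ : Ω) => (0 : ℝ) := by
  let H : Subgroup (SU K B) :=
    { carrier := {u | ∀ᶠ i in l, pt i u ∈ EE K ⊤ fun (_ : Unit) (_ : B i) (_ : Ω) => (0 : ℝ)}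
      mul_mem' := fun a b => (Filter.Eventually.and a b).mono fun _ e => mul_mem e.1 e.2
      one_mem' := Eventually.of_forall fun _ => one_mem _
      inv_mem' := fun a => Filter.Eventually.mono a fun _ e => inv_mem e }
  refine (sup_le ((Subgroup.closure_le H).2 ?_) fun v k => ?_ : EE K l p ≤ H) h
  · rintro v (⟨a, ha, b, hb, fa, fb, z, k⟩ | k)
    · filter_upwards [Tel_rr0 ha, Tel_rr0 hb, fa, fb] with i h1 h2 h3 h4
      exact e0_le_ee (Subgroup.subset_closure (Or.inl ⟨_, h1, _, h2, eventually_top.2 fun _ => h3,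
        eventually_top.2 fun _ => h4, funext fun _ => congrFun z i, funext fun _ => congrFun k i⟩))
    · exact Filter.Eventually.mono k fun i e => e0_le_ee (ev_e0 (eventually_top.2 fun _ => e))
  · filter_upwards [Tel_rr0 k.1.1, Tel_rr0 k.1.2, k.2] with i h1 h2 h3
    exact mon_le_ee ⟨⟨h1, h2⟩, eventually_top.2 fun _ => h3⟩

end

end Pool.Agent.Work.MP_9d1ffa_al.WL.A1
end

-- merged part: Pool.Agent.Work.MP_9d1ffa_al.WL.Lk
section
/-! Matrices over the group ring and equivariant operators. -/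

namespace Pool.Agent.Work.MP_9d1ffa_al.WL.A1

open Filter Finsupp

noncomputable section

variable {K Ω B B' : Type} [Group K] [Fintype B] [DecidableEq B] [Fintype B'] [DecidableEq B']

/-- the operator of a matrix, as a function -/
def Lk_f (A : Matrix B B (ZG K)) : En K B := linearCombination ℤ fun t =>
  ∑ b', (A b' t.2).coeff.sum fun h n => single (t.1 * h⁻¹, b') n

omit [DecidableEq B] in
theorem Lk_kr (A : Matrix B B (ZG K)) (t' t : K × B) :
    kr (Lk_f A) t' t = (A t'.2 t.2).coeff (t'.1⁻¹ * t.1) := by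
  rw [kr, Lk_f, linearCombination_single, one_smul, finsetSum_apply, Finset.sum_eq_single t'.2,
    Finsupp.sum_apply, Finsupp.sum_eq_single (t'.1⁻¹ * t.1)]
  · simp
  · refine fun h _ e => single_eq_of_ne fun c => e ?_
    rw [c]; simp
  · simp
  · refine fun b _ e => ?_
    rw [Finsupp.sum_apply]
    exact Finset.sum_eq_zero fun h _ => single_eq_of_ne fun c => e (congrArg Prod.snd c).symm
  · simp

/-- the operator of a matrix -/
def op (K B : Type) [Group K] [Fintype B] [DecidableEq B] : Matrix B B (ZG K) →+* En K B where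
  toFun A := linearCombination ℤ fun t =>
    ∑ b', (A b' t.2).coeff.sum fun h n => single (t.1 * h⁻¹, b') n
  map_one' := kr_ext fun t' t => (Lk_kr 1 t' t).trans (by
    classical
    rw [kr, Module.End.one_apply, single_apply, Matrix.one_apply, MonoidAlgebra.one_def]
    by_cases c : t'.2 = t.2
    · simp [c, single_apply, Prod.ext_iff, eq_inv_mul_iff_mul_eq, eq_comm (a := t.1)]
    · rw [if_neg c, if_neg fun k => c (congrArg Prod.snd k).symm]
      rfl)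
  map_mul' A C := kr_ext fun t' t => (Lk_kr (A * C) t' t).trans (by
    change _ = Lk_f A (Lk_f C (single t 1)) t'
    rw [Matrix.mul_apply, MonoidAlgebra.coeff_sum, finsetSum_apply, Lk_f.eq_1 C,
      linearCombination_single, one_smul, map_sum, finsetSum_apply]
    refine Finset.sum_congr rfl fun b _ => ?_
    rw [MonoidAlgebra.coeff_mul_apply_right, map_finsuppSum, Finsupp.sum_apply]
    refine Finsupp.sum_congr fun h _ => ?_
    rw [← mul_one ((C b t.2).coeff h), ← smul_eq_mul ((C b t.2).coeff h), ← smul_single, map_smul,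
      Finsupp.smul_apply, ← kr, Lk_kr, mul_assoc, smul_eq_mul, smul_eq_mul, mul_one, mul_comm])
  map_zero' := kr_ext fun t' t => Lk_kr 0 t' t
  map_add' A C := kr_ext fun t' t => (Lk_kr (A + C) t' t).trans
    (congrArg₂ (· + ·) (Lk_kr A t' t) (Lk_kr C t' t)).symm

theorem kr_op (A : Matrix B B (ZG K)) (t' t : K × B) :
    kr (op K B A) t' t = (A t'.2 t.2).coeff (t'.1⁻¹ * t.1) := Lk_kr A t' t

theorem op_inj : Function.Injective (op K B) := fun A C h => mat_ext fun i j g => by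
  simpa [kr_op] using congrArg (fun a => kr a (1, i) (g, j)) h

theorem eqv_op (A : Matrix B B (ZG K)) : Eqv (op K B A) := fun x g' g b' b => by
  simp [kr_op, mul_assoc]

theorem exists_op {a : En K B} (h : Eqv a) : ∃ A, op K B A = a := by
  refine ⟨fun b' b => .ofCoeff (comapDomain (fun g : K => (g⁻¹, b')) (a (single (1, b) 1))
    fun _ _ _ _ e => inv_injective (congrArg Prod.fst e)), kr_ext fun t' t => ?_⟩
  have := h t.1 (t'.1⁻¹ * t.1)⁻¹ 1 t'.2 t.2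
  rw [mul_inv_rev, inv_inv, mul_inv_cancel_left, mul_one, ← inv_inv t'.1, ← mul_inv_rev,
    inv_inv] at this
  exact (kr_op _ _ _).trans this.symm

theorem rf_of_finite (a : En K B) : RF a := fun _ => Set.toFinite _

theorem op_block (A : Matrix B B (ZG K)) :
    op K (B ⊕ B') (Matrix.fromBlocks A 0 0 1) = xt K Function.Embedding.inl (op K B A) := by
  have e : op K (B ⊕ B') (Matrix.fromBlocks (A - 1) 0 0 0) =
      tr Function.Embedding.inl Function.Embedding.inl (op K B (A - 1)) := by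
    refine kr_ext ?_
    rintro ⟨g', b' | b'⟩ ⟨g, b | b⟩
    · exact (kr_op ..).trans ((kr_tr .inl .inl _ g' g b' b).trans (kr_op (A - 1) _ _)).symm
    all_goals
      refine (kr_op ..).trans (Eq.symm (not_not.1 fun c => ?_))
      obtain ⟨_, _, h1, h2, -⟩ := kr_tr_ne c
      simp at h1 h2
  rw [xt_apply, ← map_one (op K B), ← map_sub, ← e, ← map_one (op K (B ⊕ B')), ← map_add,
    ← Matrix.fromBlocks_one, Matrix.fromBlocks_add]
  simp

/-- a monomial matrix is a permutation matrix times a diagonal matrix with entries `± g`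
(`triv_perm`, `triv_sgn`) -/
theorem triv_of_isM {A : Matrix B B (ZG K)} (hA : IsUnit A) (h : IsM (op K B A)) : Triv ∅ A := by
  choose t ε he using fun b => h (1, b)
  have e : ∀ b' b, A b' b = if b' = (t b).2 then MonoidAlgebra.single (t b).1⁻¹ (ε b : ℤ) else 0 := by
    intro b' b
    ext g
    have := kr_op A (g⁻¹, b') (1, b)
    rw [kr, he, inv_inv, mul_one] at this
    rw [← this]
    classical
    split_ifs with c
    · simp [single_apply, Prod.ext_iff, c, inv_eq_iff_eq_inv]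
    · exact single_eq_of_ne fun k => c (congrArg Prod.snd k)
  have s : Function.Surjective fun b => (t b).2 := fun b' => by
    by_contra c
    obtain ⟨C, h1, -⟩ := isUnit_iff_exists.1 hA
    have := congrFun (congrFun h1 b') b'
    rw [Matrix.mul_apply, Matrix.one_apply_eq, Finset.sum_eq_zero fun b _ => by
      rw [e, if_neg fun k => c ⟨b, k.symm⟩, zero_mul]] at this
    exact zero_ne_one this
  have := (triv_perm (F := ∅) (G := K) (Equiv.ofBijective _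
    (Finite.surjective_iff_bijective.1 s))).mul (triv_sgn (fun b => (t b).1⁻¹) ε)
  convert this using 1
  funext b' b
  rw [Matrix.mul_diagonal, e]
  simp [Matrix.one_apply]

variable [MulAction K Ω]

theorem ct_op {η : ℝ} {p : B → Ω → ℝ} {A : Matrix B B (ZG K)} :
    Ct η p p (op K B A) ↔ CtlM η p A :=
  ⟨fun h b' b g e => by simpa using h (1, b') (g, b) (by simpa [kr_op] using e),
    fun h t' t e => h _ _ _ (kr_op A t' t ▸ e)⟩

/-- the operator of a matrix over the group ring of a stabiliser -/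
def Lk_ph (ν : Ω → ℝ) (B : Type) [Fintype B] [DecidableEq B] :
    Matrix B B (ZG (St K ν)) →+* En K B := (op K B).comp (incl (St K ν)).mapMatrix

theorem Lk_rr {ν : Ω → ℝ} (A : Matrix B B (ZG (St K ν))) :
    (fun _ => Lk_ph ν B A) ∈ RR K ⊤ fun (_ : Unit) (_ : B) => ν :=
  ⟨.of_forall fun _ => ⟨eqv_op _, rf_of_finite _⟩, fun η hη => .of_forall fun _ =>
    ct_op.2 fun _ _ g e ω => by
      rw [sub_eq_zero.2 ((mem_of_coeff_incl e : g ∈ St K ν) ω), abs_zero]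
      exact hη.le⟩

theorem Lk_isM {ν : Ω → ℝ} (g : B → St K ν) (ε : B → ℤˣ) :
    IsM (Lk_ph ν B (Matrix.diagonal fun i => MonoidAlgebra.single (g i) (ε i : ℤ))) := by
  classical
  refine fun t => ⟨(t.1 * (g t.2 : K)⁻¹, t.2), ε t.2, Finsupp.ext fun t' => (kr_op _ t' t).trans ?_⟩
  rw [RingHom.mapMatrix_apply, Matrix.map_apply, Matrix.diagonal_apply, single_apply]
  by_cases c : t'.2 = t.2
  · rw [if_pos c, incl_single, MonoidAlgebra.coeff_single, single_apply, c]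
    simp [mul_inv_eq_iff_eq_mul, eq_inv_mul_iff_mul_eq, Prod.ext_iff, c, eq_comm (a := t.1)]
  · rw [if_neg c, map_zero, if_neg (by rintro rfl; exact c rfl)]
    rfl

theorem Lk_ee {ν : Ω → ℝ} {A : Matrix B B (ZG (St K ν))} (h : A ∈ Submonoid.closure (Gen ∅ B)) :
    ∃ w ∈ EE K ⊤ fun (_ : Unit) (_ : B) => ν, (w ()).1 = Lk_ph ν B A := by
  induction h using Submonoid.closure_induction with
  | one => exact ⟨1, one_mem _, (map_one _).symm⟩
  | mul A C _ _ h1 h2 =>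
    obtain ⟨w, hw, e⟩ := h1
    obtain ⟨w', hw', e'⟩ := h2
    exact ⟨w * w', mul_mem hw hw', by rw [map_mul, ← e, ← e']; rfl⟩
  | mem A hA =>
    rcases hA with ⟨i, j, r, hij, rfl⟩ | ⟨g, ε, rfl⟩ | ⟨H, hH, -⟩
    · have z : (fun _ => Lk_ph ν B (Matrix.single i j 1) : SR K fun _ : Unit => B) *
          (fun _ => Lk_ph ν B (Matrix.single i i r)) = 0 := funext fun _ => by
        rw [Pi.mul_apply, ← map_mul, Matrix.single_mul_single_of_ne _ _ _ _ hij.symm, map_zero]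
        rfl
      refine ⟨mkU _ _ (Rg_sq z).1 (Rg_sq z).2, e0_le_ee (Subgroup.subset_closure (.inl
        ⟨_, Lk_rr _, _, Lk_rr _, .of_forall fun _ => fi_of_finite _,
          .of_forall fun _ => fi_of_finite _, z, rfl⟩)), ?_⟩
      change 1 + Lk_ph ν B _ * Lk_ph ν B _ = _
      rw [← map_mul, Matrix.single_mul_single_same, mul_one, map_add, map_one]
    · have z : ∀ g g' : B → St K ν, (∀ i, g i * g' i = 1) →
          (fun _ => Lk_ph ν B (Matrix.diagonal fun i => MonoidAlgebra.single (g i) (ε i : ℤ)) :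
            SR K fun _ : Unit => B) * (fun _ => Lk_ph ν B (Matrix.diagonal fun i =>
              MonoidAlgebra.single (g' i) (ε i : ℤ))) = 1 := fun g g' k => funext fun _ => by
        rw [Pi.mul_apply, ← map_mul, Matrix.diagonal_mul_diagonal]
        simp only [MonoidAlgebra.single_mul_single, k, Int.units_coe_mul_self,
          ← MonoidAlgebra.one_def, Matrix.diagonal_one, map_one, Pi.one_apply]
      exact ⟨mkU _ _ (z g (fun i => (g i)⁻¹) fun _ => mul_inv_cancel _)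
        (z _ _ fun _ => inv_mul_cancel _), mon_le_ee ⟨⟨Lk_rr _, Lk_rr _⟩,
          .of_forall fun _ => ⟨Lk_isM _ _, Lk_isM _ _⟩⟩, rfl⟩
    · exact hH.elim

/-- `op` of `1 + single i j r = 1 + single i i r * single i j 1` lies in `El`, `op` of a diagonal
matrix in `Mon`; show by induction over the closure that `op (C.map incl)` is the value of a member
of `EE`; `op_block`. -/
theorem ss_of_triv {ν : Ω → ℝ} {A : Matrix B B (ZG (St K ν))} (h : Triv ∅ A)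
    {u : SU K fun _ : Unit => B} (hu : (u ()).1 = op K B (A.map (incl (St K ν)))) :
    u ∈ SS K ⊤ (fun _ => {ν}) fun (_ : Unit) (_ : B) => ν := by
  obtain ⟨A', h1, -, -⟩ := h.inv
  obtain ⟨m, h⟩ := h
  obtain ⟨w, hw, e⟩ := Lk_ee h
  have i : (u ())⁻¹.1 = Lk_ph ν B A' := Units.inv_eq_of_mul_eq_one_right (by
    rw [hu]; exact (map_mul (Lk_ph ν B) A A').symm.trans (h1 ▸ map_one _))
  refine ⟨⟨(funext fun _ => hu : vl u = _) ▸ Lk_rr A, (funext fun _ => i : vl u⁻¹ = _) ▸ Lk_rr A'⟩,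
    fun _ => ⟨fun _ => B ⊕ Fin m, fun _ _ => ν, fun _ => .inl, fun _ _ => rfl,
      ⟨1, one_pos, .of_forall fun _ _ => ⟨1, le_rfl, rfl⟩⟩, ?_⟩⟩
  convert hw using 1
  refine funext fun _ => Units.ext ?_
  rw [e, ex_val, hu, ← xt_apply, ← op_block (B' := Fin m)]
  change _ = op K _ (Matrix.map _ _)
  rw [Matrix.fromBlocks_map, Matrix.map_one _ (map_zero _) (map_one _),
    Matrix.map_zero _ (map_zero _), Matrix.map_zero _ (map_zero _)]

omit [Group K] in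
theorem Lk_comm {C : Type} {S : Set C} {a : En K C} (h : Sp S a) : Commute (prj K S) a :=
  comm_prj_iff.2 fun t' t e => iff_of_true (h t' t e).1 (h t' t e).2

omit [Group K] in
theorem Lk_comm' {C : Type} {S : Set C} {a : En K C} (h : Sp S (a - 1)) : Commute (prj K S) a := by
  simpa using (Lk_comm h).add_right (Commute.one_right _)

/-- A member of `E0` is carried by a finite set, and its compression to every larger finite set is
stably trivial: `cp (1 + a b) = 1 + cp a * cp b` if the set carries `a` and `b` (`Fi.sp`),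
`triv_swap`. -/
theorem e0_triv {C : Type} {v : SU K fun _ : Unit => C}
    (h : v ∈ E0 K ⊤ fun (_ : Unit) (_ : C) (_ : Ω) => (0 : ℝ)) :
    ∃ F : Set C, F.Finite ∧ Sp F ((v ()).1 - 1) ∧
      ∀ (D : Type) [Fintype D] [DecidableEq D] (e : D ↪ C) (A : Matrix D D (ZG K)),
        F ⊆ Set.range e → op K D A = cp e (v ()).1 → Triv ∅ A := by
  have o : ∀ v : SU K fun _ : Unit => C, v () = 1 → ∃ F : Set C, F.Finite ∧ Sp F ((v ()).1 - 1) ∧
      ∀ (D : Type) [Fintype D] [DecidableEq D] (e : D ↪ C) (A : Matrix D D (ZG K)),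
        F ⊆ Set.range e → op K D A = cp e (v ()).1 → Triv ∅ A := fun v hv => by
    refine ⟨∅, Set.finite_empty, fun t' t k => absurd ?_ k, fun D _ _ e A _ k => ?_⟩
    · rw [hv, Units.val_one, sub_self, kr_zero]
    · rw [hv, Units.val_one, cp_one, ← map_one (op K D)] at k
      exact op_inj k ▸ triv_one
  have q : ∀ v ∈ E0 K ⊤ fun (_ : Unit) (_ : C) (_ : Ω) => (0 : ℝ), Eqv (v ()).1 := fun v hv =>
    (eventually_top.1 (e0_le_gg hv).1.1 ()).1
  induction h using Subgroup.closure_induction with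
  | one => exact o 1 rfl
  | mem v hv =>
    rcases hv with ⟨a, ha, b, hb, fa, fb, z, k⟩ | hv
    · have ea := (eventually_top.1 ha.1 ()).1
      have eb := (eventually_top.1 hb.1 ()).1
      obtain ⟨S, hS, sa⟩ := (eventually_top.1 fa ()).sp ea
      obtain ⟨T, hT, sb⟩ := (eventually_top.1 fb ()).sp eb
      have k' : (v ()).1 = 1 + a () * b () := congrFun k ()
      have z' : b () * a () = 0 := congrFun z ()
      refine ⟨S ∪ T, hS.union hT, fun t' t c => ?_, fun D _ _ e A hF c => ?_⟩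
      · rw [k', add_sub_cancel_left] at c
        obtain ⟨_, c1, c2⟩ := kr_mul_ne c
        exact ⟨.inl (sa _ _ c1).1, .inr (sb _ _ c2).2⟩
      · obtain ⟨X, hX⟩ := exists_op (ea.cp e)
        obtain ⟨Y, hY⟩ := exists_op (eb.cp e)
        rw [k', cp_add, cp_one, cp_mul e (Lk_comm (sa.mono (Set.subset_union_left.trans hF))), ← hX,
          ← hY, ← map_mul, ← map_one (op K D), ← map_add] at c
        have y : Y * X = 0 := op_inj (by
          rw [map_mul, hX, hY, ← cp_mul e (Lk_comm (sb.mono (Set.subset_union_right.trans hF))), z',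
            map_zero]
          simp [cp])
        rw [op_inj c]
        exact triv_swap X Y (by rw [y, add_zero]; exact triv_one)
    · exact o v (eventually_top.1 hv ())
  | mul v w hv hw h1 h2 =>
    obtain ⟨S, hS, sa, ta⟩ := h1
    obtain ⟨T, hT, sb, tb⟩ := h2
    refine ⟨S ∪ T, hS.union hT, (sa.mono Set.subset_union_left).mul_sub
      (sb.mono Set.subset_union_right), fun D _ _ e A hF c => ?_⟩
    obtain ⟨X, hX⟩ := exists_op ((q v hv).cp e)
    obtain ⟨Y, hY⟩ := exists_op ((q w hw).cp e)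
    rw [Pi.mul_apply, Units.val_mul, cp_mul e (Lk_comm' (sa.mono (Set.subset_union_left.trans hF))),
      ← hX, ← hY, ← map_mul] at c
    rw [op_inj c]
    exact (ta D e X (Set.subset_union_left.trans hF) hX).mul
      (tb D e Y (Set.subset_union_right.trans hF) hY)
  | inv v hv h1 =>
    obtain ⟨S, hS, sa, ta⟩ := h1
    refine ⟨S, hS, sa.inv_sub, fun D _ _ e A hF c => ?_⟩
    obtain ⟨X, hX⟩ := exists_op ((q v hv).cp e)
    have y : X * A = 1 := op_inj (by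
      rw [map_mul, hX, c, ← cp_mul e (Lk_comm' (sa.mono hF)), Pi.inv_apply, Units.mul_inv, cp_one,
        map_one])
    exact (ta D e X hF hX).of_mul_left (y ▸ triv_one)

/-- Write `ex j u = μ v` (`mem_ee`), take `F` from `e0_triv` and compress to
`D = B ⊕ (F \ range j)`; `μ - 1` is carried by the range, so `cp e μ` is monomial;
`cp e (xt j a) = xt inl a`, `op_block`, `triv_block_iff`. -/
theorem triv_of_ee {C : Type} (j : B ↪ C) {A : Matrix B B (ZG K)} {u : SU K fun _ : Unit => B}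
    (hu : (u ()).1 = op K B A)
    (h : ex K (fun _ : Unit => j) u ∈ EE K ⊤ fun (_ : Unit) (_ : C) (_ : Ω) => (0 : ℝ)) :
    Triv ∅ A := by
  classical
  obtain ⟨μ, hμ, v, hv, k⟩ := mem_ee.1 h
  obtain ⟨F, hF, sv, tv⟩ := e0_triv hv
  let _ : Fintype ↥(F \ Set.range j) := (hF.subset Set.sdiff_subset).fintype
  let e : B ⊕ ↥(F \ Set.range j) ↪ C := ⟨Sum.elim j Subtype.val, j.injective.sumElim
    Subtype.val_injective fun b c z => c.2.2 ⟨b, z⟩⟩
  have hFe : F ⊆ Set.range e := fun c hc => by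
    by_cases z : c ∈ Set.range j
    · obtain ⟨b, rfl⟩ := z
      exact ⟨.inl b, rfl⟩
    · exact ⟨.inr ⟨c, hc, z⟩, rfl⟩
  have k1 : (μ ()).1 * (v ()).1 = 1 + tr e e (op K _ (Matrix.fromBlocks A 0 0 1) - 1) := by
    rw [op_block, ← xt_apply, xt_xt, ← hu]
    exact (congrArg Units.val (congrFun k ())).symm
  have sμ : Sp (Set.range e) ((μ ()).1 - 1) := by
    rw [← Units.mul_inv_cancel_right (μ ()).1 (v ())]
    refine Sp.mul_sub ?_ (sv.mono hFe).inv_sub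
    rw [k1, add_sub_cancel_left]
    exact sp_tr e _
  have c := Lk_comm' sμ
  obtain ⟨M, hM⟩ := exists_op ((eventually_top.1 hμ.1.1.1 ()).1.cp e)
  obtain ⟨M', hM'⟩ := exists_op ((eventually_top.1 hμ.1.2.1 ()).1.cp e)
  obtain ⟨V, hV⟩ := exists_op ((eventually_top.1 (e0_le_gg hv).1.1 ()).1.cp e)
  rw [vl_apply] at hM hM' hV
  have u1 : IsUnit M := isUnit_iff_exists.2 ⟨M', op_inj (by
    rw [map_mul, hM, hM', ← cp_mul e c, Pi.inv_apply, Units.mul_inv, cp_one, map_one]), op_inj (by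
    rw [map_mul, hM, hM', Pi.inv_apply, ← cp_mul e (Lk_comm' sμ.inv_sub), Units.inv_mul, cp_one,
      map_one])⟩
  have m : IsM (op K _ M) := by
    rintro ⟨g, d⟩
    obtain ⟨⟨g', c'⟩, ε, z⟩ := (eventually_top.1 hμ.2 ()).1 (g, e d)
    obtain ⟨d', rfl⟩ : c' ∈ Set.range e := Ot_mc_mem c z ⟨d, rfl⟩
    exact ⟨(g', d'), ε, by rw [hM, Ot_cp_apply, Ot_up_single, z, Ot_dn_single]⟩
  have y : M * V = Matrix.fromBlocks A 0 0 1 := op_inj (by
    rw [map_mul, hM, hV, ← cp_mul e c, k1, cp_add, cp_one, cp_tr, add_sub_cancel])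
  exact triv_block_iff.1 (y ▸ (triv_of_isM u1 m).mul (tv _ e V hFe hV))

end

end Pool.Agent.Work.MP_9d1ffa_al.WL.A1
end

-- merged part: Pool.Agent.Work.MP_9d1ffa_al.WL.Ds
section
/-! The discrete case and the base case of the induction over the thresholds. -/

namespace Pool.Agent.Work.MP_9d1ffa_al.WL.A1

open Filter

noncomputable section

variable {K Ω : Type} [Group K] [MulAction K Ω]

/-- one position: `rr_top`, `exists_op`, `ct_op`, `exists_incl_mat`, `map_incl_injective`,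
`Triv.reindex`, `ss_of_triv` -/
theorem ss_one {B : Type} [Finite B] {ν : Ω → ℝ} (h : WhGen (∅ : Set (Subgroup (St K ν))))
    {u : SU K fun _ : Unit => B} (hu : u ∈ GG K ⊤ fun (_ : Unit) (_ : B) => ν) :
    u ∈ SS K ⊤ (fun _ => {ν}) fun (_ : Unit) (_ : B) => ν := by
  classical
  have := Fintype.ofFinite B
  have k : ∀ a : SR K fun _ : Unit => B, a ∈ RR K ⊤ (fun (_ : Unit) (_ : B) => ν) →
      ∃ C : Matrix B B (ZG (St K ν)), a () = op K B (C.map (incl (St K ν))) := fun a ha => by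
    obtain ⟨h1, -, h2⟩ := rr_top.1 ha
    obtain ⟨A, hA⟩ := exists_op h1
    rw [← hA, ct_op] at h2
    obtain ⟨C, rfl⟩ := exists_incl_mat (D := St K ν) (A := A) fun i j g e ω =>
      sub_eq_zero.1 (abs_nonpos_iff.1 (h2 i j g e ω))
    exact ⟨C, hA.symm⟩
  obtain ⟨C, hC⟩ := k _ hu.1
  obtain ⟨C', hC'⟩ := k _ hu.2
  have m : ∀ X Y : Matrix B B (ZG (St K ν)),
      op K B (X.map (incl (St K ν))) * op K B (Y.map (incl (St K ν))) = 1 → X * Y = 1 :=
    fun X Y e => map_incl_injective _ (op_inj (by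
      rw [Matrix.map_mul, map_mul, e, Matrix.map_one _ (map_zero _) (map_one _), map_one]))
  exact ss_of_triv (h.triv ⟨⟨C, C', m _ _ (hC ▸ hC' ▸ (u ()).mul_inv),
    m _ _ (hC ▸ hC' ▸ (u ()).inv_mul)⟩, rfl⟩) hC

/-- one orbit of positions: choose `γ b` with `Cl 0 (γ b) ν (q b)`; `gauge` with
`σ (g, b) = (g * γ b, b)` in both directions, `ss_one`, `ss_mono` -/
theorem ss_orb {B : Type} [Finite B] {𝒞 : Set (Ω → ℝ)} {ν : Ω → ℝ} (hν : ν ∈ 𝒞)
    (h : WhGen (∅ : Set (Subgroup (St K ν)))) {q : B → Ω → ℝ} (hq : ∀ b, ∃ g : K, Cl 0 g ν (q b))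
    {u : SU K fun _ : Unit => B} (hu : u ∈ GG K ⊤ fun _ : Unit => q) :
    u ∈ SS K ⊤ (fun _ => 𝒞) fun _ : Unit => q := by
  choose γ hγ using hq
  let σ : K × B ≃ K × B :=
    { toFun := fun t => (t.1 * γ t.2, t.2)
      invFun := fun t => (t.1 * (γ t.2)⁻¹, t.2)
      left_inv := fun t => by simp
      right_inv := fun t => by simp }
  have e : EqP σ := fun x g b => Prod.ext (mul_assoc _ _ _) rfl
  let μ : SU K fun _ : Unit => B := fun _ => mo σ 1
  have h1 := (gauge (l := ⊤) (𝒜 := fun _ => Set.univ) (p := fun (_ : Unit) (_ : B) => ν)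
    (q := fun _ : Unit => q) (σ := fun _ => σ.symm) (fun _ => e.symm)
    (fun η hη => .of_forall fun _ t => by
      change Cl η ((t.1 * (γ t.2)⁻¹)⁻¹ * t.1) ν (q t.2)
      rw [mul_inv_rev, inv_inv, inv_mul_cancel_right]
      exact (hγ t.2).mono hη.le)
    ⟨1, one_pos, .of_forall fun _ _ => ⟨1, le_rfl, trivial⟩⟩ (u := u) (μ := μ⁻¹)
    fun _ => mo_inv σ 1).1 hu
  have h2 := ss_mono (𝒜' := fun _ => 𝒞) (fun _ => Set.singleton_subset_iff.2 hν)
    ⟨1, one_pos, .of_forall fun _ _ => ⟨1, le_rfl, rfl⟩⟩ (ss_one h h1)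
  have h3 := (gauge (l := ⊤) (p := fun _ : Unit => q) (q := fun (_ : Unit) (_ : B) => ν)
    (σ := fun _ => σ) (fun _ => e)
    (fun η hη => .of_forall fun _ t => by
      change Cl η ((t.1 * γ t.2)⁻¹ * t.1) (q t.2) ν
      rw [mul_inv_rev, inv_mul_cancel_right]
      exact (hγ t.2).symm.mono hη.le)
    ⟨1, one_pos, .of_forall fun _ _ => ⟨1, le_rfl, hν⟩⟩ (μ := μ) fun _ => rfl).2 h2
  rwa [show μ⁻¹ * (μ⁻¹⁻¹ * u * μ⁻¹) * μ = u by group] at h3

/-- The discrete case. `u - 1` is carried by a finite set `F` (`Fi.sp`); strong induction on `F`: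
for `b₀ ∈ F` let `S = {b | ∃ g, Cl 0 g (p b₀) (p b)}`, `prj S` commutes with `u` (`comm_prj_iff`,
`rr_top`); `exists_cut`, `exists_cp` for the subtype `F ∩ S`, `ss_orb`, `ss_up`. -/
theorem van_disc {𝒞 : Set (Ω → ℝ)} (h : ∀ ν ∈ 𝒞, WhGen (∅ : Set (Subgroup (St K ν)))) :
    Van K (⊤ : Filter Unit) fun _ => 𝒞 := by
  intro B p hL u hu hf
  obtain ⟨C, rfl⟩ : ∃ C, B = fun _ => C := ⟨B (), rfl⟩
  obtain ⟨q, rfl⟩ : ∃ q : C → Ω → ℝ, p = fun _ => q := ⟨p (), rfl⟩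
  have hq : ∀ b, q b ∈ 𝒞 := fun b => by
    obtain ⟨c, -, e⟩ := hL
    exact (eventually_top.1 e () b).elim fun _ z => z.2
  obtain ⟨F, hF, hs⟩ := Fi.sp (eventually_top.1 hf ())
    (rr_top.1 (sub_mem hu.1 (one_mem (RR K ⊤ fun _ : Unit => q)))).1
  replace hs : Sp F ((u ()).1 - 1) := hs
  clear hf
  induction F, hF using Set.Finite.induction_on generalizing u with
  | empty =>
    have e := (sp_iff.1 hs).1
    rw [prj_empty, zero_mul, eq_comm, sub_eq_zero] at e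
    rw [show u = 1 from funext fun _ => Units.ext e]
    exact one_mem _
  | @insert b₀ F _ hF ih =>
    have c : Commute (prj K {b | ∃ g : K, Cl 0 g (q b₀) (q b)}) (u ()).1 :=
      comm_prj_iff.2 fun t' t e => by
        have z := (rr_top.1 hu.1).2.2 t' t e
        exact ⟨fun ⟨g, y⟩ => ⟨_, (y.tr2 z.symm).mono (add_zero _).le⟩,
          fun ⟨g, y⟩ => ⟨_, (y.tr2 z).mono (add_zero _).le⟩⟩
    obtain ⟨v, hv, w, hw, rfl, hvw, -⟩ := exists_cut (l := ⊤)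
      (S := fun _ => {b | ∃ g : K, Cl 0 g (q b₀) (q b)}) (T := fun _ => insert b₀ F) hu
      (.of_forall fun _ => ⟨c, hs⟩)
    obtain ⟨s1, s2⟩ := eventually_top.1 hvw ()
    refine mul_mem ?_ (ih w hw (s2.mono ?_))
    · have := ((hF.insert b₀).inter_of_left {b | ∃ g : K, Cl 0 g (q b₀) (q b)}).to_subtype
      obtain ⟨x, hx, e, -⟩ := exists_cp (l := ⊤) (j := fun _ : Unit => Function.Embedding.subtype
        (· ∈ insert b₀ F ∩ {b | ∃ g : K, Cl 0 g (q b₀) (q b)})) (p := fun _ b => q b.1)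
        (fun _ _ => rfl) hv (.of_forall fun _ => s1.mono fun b hb => ⟨⟨b, hb⟩, rfl⟩)
      have y := ss_orb (q := fun b : (insert b₀ F ∩ {b | ∃ g : K, Cl 0 g (q b₀) (q b)} : Set C) =>
        q b.1) (hq b₀) (h _ (hq b₀)) (fun b => b.2.2) hx
      refine ss_congr (ss_up (p' := fun _ : Unit => q) ?_ (fun _ => subset_rfl) ?_ y) e
      exacts [fun _ _ => rfl, ⟨1, one_pos, .of_forall fun _ b => ⟨1, le_rfl, hq b.1⟩⟩]
    · rintro b ⟨rfl | hb, z⟩
      · exact absurd ⟨1, Cl.rfl le_rfl _⟩ z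
      · exact hb

/-- positions with values in the unit interval and support in `𝒦` -/
def PP (𝒦 : Set (Set Ω)) : Set (Ω → ℝ) :=
  {μ | (∀ ω, 0 ≤ μ ω ∧ μ ω ≤ 1) ∧ Function.support μ ∈ 𝒦}

/-- positions that stay away from the threshold `(2 r + 1) δ` and exceed it somewhere -/
def Th (Ω : Type) (δ : ℝ) (r : ℕ) (c : ℝ) : Set (Ω → ℝ) :=
  {μ | (∀ ω, c ≤ |μ ω - (2 * r + 1) * δ|) ∧ ∃ ω, (2 * r + 1) * δ < μ ω}

def MI (Ω : Type) (δ : ℝ) (I : Finset ℕ) (c : ℝ) : Set (Ω → ℝ) := {μ | ∀ r ∈ I, μ ∈ Th Ω δ r c}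

open Classical in
/-- the step function -/
def stp (δ : ℝ) (I : Finset ℕ) (x : ℝ) : ℝ :=
  2 * δ * ((I.filter fun r : ℕ => (2 * r + 1) * δ < x).sup (fun r => r + 1) : ℕ)

theorem stp_far {δ : ℝ} (hδ : 0 < δ) {I : Finset ℕ} {r : ℕ} (hr : r ∈ I) (x : ℝ) :
    ((2 * r + 1) * δ < x → (2 * r + 1) * δ + δ ≤ stp δ I x) ∧
      (x ≤ (2 * r + 1) * δ → stp δ I x + δ ≤ (2 * r + 1) * δ) := by
  classical
  unfold stp
  constructor
  · intro h
    have : r + 1 ≤ (I.filter fun r : ℕ => (2 * r + 1) * δ < x).sup fun r => r + 1 :=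
      Finset.le_sup (f := fun r : ℕ => r + 1) (Finset.mem_filter.2 ⟨hr, h⟩)
    have := mul_le_mul_of_nonneg_left (Nat.cast_le (α := ℝ).2 this) hδ.le
    push_cast at this ⊢
    linarith
  · intro h
    have : ((I.filter fun r : ℕ => (2 * r + 1) * δ < x).sup fun r => r + 1) ≤ r :=
      Finset.sup_le fun s hs => by
        have := lt_of_mul_lt_mul_right ((Finset.mem_filter.1 hs).2.trans_le h) hδ.le
        exact Nat.succ_le_of_lt (Nat.cast_lt (α := ℝ).1 (by linarith))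
    have := mul_le_mul_of_nonneg_left (Nat.cast_le (α := ℝ).2 this) hδ.le
    linarith

theorem stp_eq {δ η c : ℝ} {I : Finset ℕ} {g : K} {μ ν : Ω → ℝ} (hμ : μ ∈ MI Ω δ I c)
    (h : Cl η g μ ν) (hη : η < c) : Cl 0 g (stp δ I ∘ μ) (stp δ I ∘ ν) := by
  intro ω
  rw [abs_nonpos_iff, sub_eq_zero, Function.comp_apply, Function.comp_apply, stp, stp]
  refine congrArg (fun J : Finset ℕ => 2 * δ * (J.sup (fun r => r + 1) : ℕ))
    (Finset.filter_congr fun r hr => ?_)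
  have h1 := abs_le.1 (h ω)
  rcases le_abs.1 ((hμ r hr).1 ω) with h2 | h2
  · exact iff_of_true (by linarith [h1.1]) (by linarith [h1.1, h1.2])
  · exact iff_of_false (not_lt.2 (by linarith [h1.2])) (not_lt.2 (by linarith [h1.1, h1.2]))

theorem Ds_bd {δ : ℝ} (hδ : 0 < δ) {I : Finset ℕ} (hI : ∀ r ∈ I, (2 * r + 2) * δ ≤ 1) (x : ℝ) :
    0 ≤ stp δ I x ∧ stp δ I x ≤ 1 := by
  refine ⟨by unfold stp; positivity, ?_⟩
  refine Finset.sup_induction (p := fun m : ℕ => 2 * δ * m ≤ 1) (by simp)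
    (fun a ha b hb => sup_ind (p := fun m : ℕ => 2 * δ * m ≤ 1) a b ha hb) fun r hr => ?_
  have := hI r (Finset.mem_filter.1 hr).1
  push_cast
  linarith

/-- the segment from `μ` to its rounding -/
theorem stp_seg {δ c : ℝ} (hδ : 0 < δ) (hc : 0 < c) {I : Finset ℕ} (hI : ∀ r ∈ I, (2 * r + 2) * δ ≤ 1)
    {𝒦 : Set (Set Ω)} (h𝒦 : ∀ s ∈ 𝒦, ∀ t, t ⊆ s → t ∈ 𝒦) {μ : Ω → ℝ}
    (hμ : μ ∈ PP 𝒦 ∩ MI Ω δ I c) {t : ℝ} (h0 : 0 ≤ t) (h1 : t ≤ 1) :
    (fun ω => (1 - t) * μ ω + t * stp δ I (μ ω)) ∈ PP 𝒦 ∩ MI Ω δ I (min c δ) := by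
  obtain ⟨⟨m1, m2⟩, m3⟩ := hμ
  have t1 := sub_nonneg.2 h1
  have k : ∀ r ∈ I, ∀ ω, ((2 * r + 1) * δ < μ ω →
      min c δ ≤ (1 - t) * μ ω + t * stp δ I (μ ω) - (2 * r + 1) * δ) ∧ (μ ω ≤ (2 * r + 1) * δ →
      min c δ ≤ -((1 - t) * μ ω + t * stp δ I (μ ω) - (2 * r + 1) * δ)) := fun r hr ω => by
    have a1 := (m3 r hr).1 ω
    have a2 := mul_le_mul_of_nonneg_left (min_le_left c δ) t1
    have a3 := mul_le_mul_of_nonneg_left (min_le_right c δ) h0
    constructor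
    · intro e
      rw [abs_of_pos (sub_pos.2 e)] at a1
      have a4 := mul_le_mul_of_nonneg_left a1 t1
      have a5 := mul_le_mul_of_nonneg_left ((stp_far hδ hr _).1 e) h0
      linarith
    · intro e
      rw [abs_of_nonpos (sub_nonpos.2 e)] at a1
      have a4 := mul_le_mul_of_nonneg_left a1 t1
      have a5 := mul_le_mul_of_nonneg_left ((stp_far hδ hr _).2 e) h0
      linarith
  refine ⟨⟨fun ω => ?_, h𝒦 _ m2 _ fun ω e z => e ?_⟩, fun r hr => ⟨fun ω => ?_, ?_⟩⟩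
  · obtain ⟨a1, a2⟩ := Ds_bd hδ hI (μ ω)
    have a3 := mul_le_mul_of_nonneg_left (m1 ω).2 t1
    have a4 := mul_le_mul_of_nonneg_left a2 h0
    exact ⟨add_nonneg (mul_nonneg t1 (m1 ω).1) (mul_nonneg h0 a1), by linarith⟩
  · have e0 : stp δ I 0 = 0 := by
      rw [stp, Finset.filter_false_of_mem fun r _ => not_lt.2 (by positivity)]
      simp
    beta_reduce
    rw [z, e0, mul_zero, mul_zero, add_zero]
  · rcases lt_or_ge ((2 * r + 1) * δ) (μ ω) with e | e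
    exacts [le_abs.2 (Or.inl ((k r hr ω).1 e)), le_abs.2 (Or.inr ((k r hr ω).2 e))]
  · obtain ⟨ω, e⟩ := (m3 r hr).2
    exact ⟨ω, sub_pos.1 ((lt_min hc hδ).trans_le ((k r hr ω).1 e))⟩

/-- The base case: with `p₁ i b = stp δ I ∘ p i b` the family `u` has eventually control `0` over
`p₁` (`stp_eq`, `rr_top`), so `van_disc` and `uc` with `𝒞 = PP 𝒦 ∩ MI Ω δ I (min c δ)` give
`u ∈ SS p₁`; then `tel`. -/
theorem van_base {δ : ℝ} (hδ : 0 < δ) {I : Finset ℕ} (hne : I.Nonempty)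
    (hI : ∀ r ∈ I, (2 * r + 2) * δ ≤ 1) {𝒦 : Set (Set Ω)} (h𝒦 : ∀ s ∈ 𝒦, ∀ t, t ⊆ s → t ∈ 𝒦)
    (h : ∀ ν : Ω → ℝ, (Function.support ν).Nonempty → Function.support ν ∈ 𝒦 →
      WhGen (∅ : Set (Subgroup (St K ν)))) :
    Van K (atTop : Filter ℕ) fun c => PP 𝒦 ∩ MI Ω δ I c := by
  rintro B p ⟨c, hc, hL⟩ u hu hf
  replace hL : ∀ᶠ i in atTop, ∀ b, p i b ∈ PP 𝒦 ∩ MI Ω δ I c := hL.mono fun i e b => by
    obtain ⟨c', e1, e2, e3⟩ := e b
    exact ⟨e2, fun r hr => ⟨fun ω => e1.trans ((e3 r hr).1 ω), (e3 r hr).2⟩⟩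
  have m := lt_min hc hδ
  have h1 : ∀ᶠ i in atTop, ∀ b, stp δ I ∘ p i b ∈ PP 𝒦 ∩ MI Ω δ I (min c δ) :=
    hL.mono fun i e b => by
      have := stp_seg hδ hc hI h𝒦 (e b) zero_le_one le_rfl
      simp only [sub_self, zero_mul, one_mul, zero_add] at this
      exact this
  have V := van_disc (K := K) (𝒞 := PP 𝒦 ∩ MI Ω δ I (min c δ)) fun ν hν => by
    obtain ⟨r, hr⟩ := hne
    obtain ⟨ω, e⟩ := (hν.2 r hr).2
    exact h ν ⟨ω, (lt_trans (by positivity) e).ne'⟩ hν.1.2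
  have k : ∀ a ∈ RR K atTop p, ∀ᶠ i in atTop,
      (fun _ : Unit => a i) ∈ RR K ⊤ fun _ : Unit => fun b => stp δ I ∘ p i b := fun a ha =>
    ((ha.1.and (ha.2 _ (half_pos hc))).and hL).mono fun i e => rr_top.2 ⟨e.1.1.1, e.1.1.2,
      fun t' t z => stp_eq (e.2 t.2).2 (e.1.2 t' t z) (half_lt_self hc)⟩
  refine tel (p₁ := fun i b => stp δ I ∘ p i b) (hL.mono fun i e b ω => ?_)
    ⟨_, m, hL.mono fun i e x => ⟨_, le_rfl, stp_seg hδ hc hI h𝒦 (e x.1) x.2.2.1 x.2.2.2⟩⟩ hu hf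
    (uc m subset_rfl (((h1.and hf).and ((k _ hu.1).and (k _ hu.2))).mono fun i e => ⟨e.1.1,
      V _ _ ⟨1, one_pos, .of_forall fun _ b => ⟨1, le_rfl, e.1.1 b⟩⟩ _ e.2
        (.of_forall fun _ => e.1.2)⟩))
  obtain ⟨a1, a2⟩ := Ds_bd hδ hI (p i b ω)
  obtain ⟨a3, a4⟩ := (e b).1.1 ω
  rw [Function.comp_apply]
  exact abs_le.2 ⟨by linarith, by linarith⟩

end

end Pool.Agent.Work.MP_9d1ffa_al.WL.A1
end

-- merged part: Pool.Agent.Work.MP_9d1ffa_al.WL.Van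
section
/-! The squeezing theorem. -/

namespace Pool.Agent.Work.MP_9d1ffa_al.WL.A1

open Filter

noncomputable section

variable {K Ω : Type} [Group K] [MulAction K Ω]

def UJ (Ω : Type) (δ : ℝ) (J : List ℕ) (c : ℝ) : Set (Ω → ℝ) := {μ | ∃ r ∈ J, μ ∈ Th Ω δ r c}

theorem opn_Th (δ : ℝ) (r : ℕ) : Opn K (Th Ω δ r) := by
  rintro c c' η g μ ν h0 - k ⟨h1, ω₀, h2⟩ h
  refine ⟨fun ω => ?_, g • ω₀, ?_⟩
  · have e := h (g⁻¹ • ω)
    rw [smul_inv_smul, abs_sub_comm] at e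
    have := abs_sub_le (μ (g⁻¹ • ω)) (ν ω) ((2 * r + 1) * δ)
    linarith [h1 (g⁻¹ • ω)]
  · have e := h1 ω₀
    rw [abs_of_pos (sub_pos.2 h2)] at e
    linarith [(abs_le.1 (h ω₀)).1]

theorem opn_MI (δ : ℝ) (I : Finset ℕ) : Opn K (MI Ω δ I) :=
  fun c c' η g μ ν h0 h1 k hμ h r hr => opn_Th δ r c c' η g μ ν h0 h1 k (hμ r hr) h

theorem opn_MU (δ : ℝ) (I : Finset ℕ) (J : List ℕ) :
    Opn K fun c => MI Ω δ I c ∩ UJ Ω δ J c :=
  fun c c' η g μ ν h0 h1 k hμ h => ⟨opn_MI δ I c c' η g μ ν h0 h1 k hμ.1 h,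
    hμ.2.imp fun r hr => ⟨hr.1, opn_Th δ r c c' η g μ ν h0 h1 k hr.2 h⟩⟩

/-- Induction on `J` for all `K`, `I`. `J = []`: `van_empty`. `J = r :: J'`: `mv` with
`𝒜₁ = MI (insert r I)` (`van_base`), `𝒜₂ = MI I ∩ UJ J'`, `𝒜₁ ∩ 𝒜₂ = MI (insert r I) ∩ UJ J'`
for `KZ K` (`st_kz`, `hW.int`, `hW.iso`); `van_congr`. -/
theorem van_ind {W : (G : Type) → [Group G] → Prop} (hW : WCl W) {δ : ℝ} (hδ : 0 < δ)
    {𝒦 : Set (Set Ω)} (h𝒦 : ∀ s ∈ 𝒦, ∀ t, t ⊆ s → t ∈ 𝒦) (J : List ℕ)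
    (hJ : ∀ r ∈ J, (2 * r + 2) * δ ≤ 1) :
    ∀ (K : Type) [Group K] [MulAction K Ω] (I : Finset ℕ), (∀ r ∈ I, (2 * r + 2) * δ ≤ 1) →
      (∀ ν : Ω → ℝ, (Function.support ν).Nonempty → Function.support ν ∈ 𝒦 → W (St K ν)) →
      Van K (atTop : Filter ℕ) fun c => PP 𝒦 ∩ (MI Ω δ I c ∩ UJ Ω δ J c) := by
  induction J with
  | nil =>
    intro K _ _ I _ _
    exact van_empty fun c => Set.eq_empty_of_forall_notMem fun μ ⟨_, _, r, hr, _⟩ =>
      List.not_mem_nil hr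
  | cons r J ih =>
    intro K _ _ I hI hK
    have hJ' := ih fun s hs => hJ s (List.mem_cons_of_mem _ hs)
    have hI' : ∀ s ∈ insert r I, (2 * s + 2) * δ ≤ 1 := fun s hs =>
      (Finset.mem_insert.1 hs).elim (fun e => hJ s (e ▸ List.mem_cons_self)) (hI s)
    have sub : ∀ c, MI Ω δ (insert r I) c ⊆ MI Ω δ I c := fun c μ h s hs =>
      h s (Finset.mem_insert_of_mem hs)
    have H := hJ' (KZ K) (insert r I) hI' fun ν h1 h2 =>
      (st_kz ν).elim fun e => hW.iso _ _ e (hW.int _ (hK ν h1 h2))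
    refine van_congr (fun c => ?_) (mv (opn_MI δ (insert r I)) (opn_MU δ I J)
      (van_base hδ (Finset.insert_nonempty r I) hI' h𝒦 fun ν h1 h2 => hW.wh _ (hK ν h1 h2))
      (hJ' K I hI hK) (van_congr (fun c => ?_) H))
    · refine congrArg _ (Set.ext fun μ => ⟨fun h => h.elim (fun h => ⟨sub c h, r,
        List.mem_cons_self, h r (Finset.mem_insert_self r I)⟩) fun h =>
          ⟨h.1, h.2.imp fun s hs => ⟨List.mem_cons_of_mem _ hs.1, hs.2⟩⟩, ?_⟩)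
      rintro ⟨h1, s, hs, h2⟩
      rcases List.mem_cons.1 hs with rfl | hs
      · exact Or.inl fun t ht => (Finset.mem_insert.1 ht).elim (fun e => e ▸ h2) (h1 t)
      · exact Or.inr ⟨h1, s, hs, h2⟩
    · exact congrArg _ (Set.ext fun μ => ⟨fun h => ⟨h.1, sub c h.1, h.2⟩, fun h => ⟨h.1, h.2.2⟩⟩)

/-- Pigeonhole: a value is `δ`-close to at most one of the `N + 2` thresholds, `0` to none, and
there are at most `N + 1` nonzero values; `1 / (N + 1) = (2 N + 4) δ`. -/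
theorem pos_UJ {Good : Subgroup K → Prop} {N : ℕ} {μ : Ω → ℝ} (h : Pos Good N μ) :
    μ ∈ UJ Ω (1 / ((2 * N + 4) * (N + 1))) (List.range (N + 2)) (1 / ((2 * N + 4) * (N + 1))) := by
  obtain ⟨-, ⟨ω₀, h0⟩, hc, -⟩ := h
  have hN : (0 : ℝ) < N + 1 := by positivity
  obtain ⟨δ, hδ⟩ : ∃ δ : ℝ, δ = 1 / ((2 * N + 4) * (N + 1)) := ⟨_, rfl⟩
  rw [← hδ]
  have d0 : 0 < δ := by rw [hδ]; positivity
  have d1 : (2 * N + 4) * δ ≤ μ ω₀ := by
    refine le_of_mul_le_mul_left (le_of_eq_of_le ?_ h0) hN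
    rw [hδ]
    field_simp
  by_contra H
  have k : ∀ r : ℕ, ∃ ω, r < N + 2 → |μ ω - (2 * r + 1) * δ| < δ := fun r => by
    by_contra c
    push Not at c
    have hr := (c ω₀).1
    refine H ⟨r, List.mem_range.2 hr, fun ω => (c ω).2, ω₀, lt_of_lt_of_le ?_ d1⟩
    have : (r : ℝ) < N + 2 := by exact_mod_cast hr
    have : (r : ℝ) + 1 ≤ N + 2 := by exact_mod_cast hr
    exact mul_lt_mul_of_pos_right (by linarith) d0
  choose f hf using k
  have lt : ∀ r s : ℕ, r < N + 2 → s < N + 2 → f r = f s → ¬r < s := fun r s hr hs e c => by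
    have a := (abs_lt.1 (hf r hr)).2
    have b := (abs_lt.1 (hf s hs)).1
    have : (r : ℝ) + 1 ≤ s := by exact_mod_cast c
    rw [e] at a
    linarith [mul_le_mul_of_nonneg_right this d0.le]
  have := (Set.encard_le_encard_of_injOn (s := (Finset.range (N + 2) : Set ℕ)) (f := f)
    (t := Function.support μ) (fun r hr => ?_) fun r hr s hs e => ?_).trans hc
  · rw [Set.encard_coe_eq_coe_finsetCard, Finset.card_range, Nat.cast_le] at this
    omega
  · have b := (abs_lt.1 (hf r (Finset.mem_range.1 hr))).1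
    have : 0 ≤ (r : ℝ) * δ := by positivity
    exact ne_of_gt (by linarith)
  · have hr := Finset.mem_range.1 hr
    have hs := Finset.mem_range.1 hs
    exact le_antisymm (not_lt.1 (lt s r hs hr e.symm)) (not_lt.1 (lt r s hr hs e))

/-- `𝒦 = {s | ∃ m b, s ⊆ support (p m b)}`, `I = ∅`, `u = mkU (op (A m)) (op (A' m))`; `van_ind`,
`ee_pt`, `triv_of_ee` -/
theorem vanM : VanM := by
  intro W hW K _ Ω _ N B _ _ p A A' hp hK hA hc
  have d0 : (0 : ℝ) < 1 / ((2 * N + 4) * (N + 1)) := by positivity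
  have H := van_ind hW d0 (𝒦 := {s | ∃ m b, s ⊆ Function.support (p m b)})
    (fun s ⟨m, b, h⟩ t k => ⟨m, b, k.trans h⟩) (List.range (N + 2)) (fun r hr => by
      have : (r : ℝ) + 1 ≤ N + 2 := by exact_mod_cast List.mem_range.1 hr
      have : (0 : ℝ) ≤ (2 * N + 4) * N := by positivity
      rw [mul_one_div, div_le_one (by positivity)]
      linarith) K ∅ (fun r hr => absurd hr (Finset.notMem_empty r))
    fun ν h1 ⟨m, b, h2⟩ => hK m b ν h1 h2
  have hL : Lev atTop (fun c => PP {s | ∃ m b, s ⊆ Function.support (p m b)} ∩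
      (MI Ω (1 / ((2 * N + 4) * (N + 1))) ∅ c ∩
        UJ Ω (1 / ((2 * N + 4) * (N + 1))) (List.range (N + 2)) c)) p :=
    ⟨_, d0, .of_forall fun m b => ⟨_, le_rfl, ⟨(hp m b).1, m, b, subset_rfl⟩,
      fun r hr => absurd hr (Finset.notMem_empty r), pos_UJ (hp m b)⟩⟩
  let u : SU K B := mkU (fun m => op K (B m) (A m)) (fun m => op K (B m) (A' m))
    (funext fun m => by rw [Pi.mul_apply, ← map_mul, (hA m).1, map_one]; rfl)
    (funext fun m => by rw [Pi.mul_apply, ← map_mul, (hA m).2, map_one]; rfl)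
  have hu : u ∈ GG K atTop p :=
    ⟨⟨.of_forall fun m => ⟨eqv_op _, rf_of_finite _⟩,
      fun η hη => (hc η hη).mono fun m h => ct_op.2 h.1⟩,
    ⟨.of_forall fun m => ⟨eqv_op _, rf_of_finite _⟩,
      fun η hη => (hc η hη).mono fun m h => ct_op.2 h.2⟩⟩
  obtain ⟨B', p', j, -, -, hE⟩ := (H B p hL u hu (.of_forall fun m => fi_of_finite _)).2 hL
  obtain ⟨m, hm⟩ := (ee_pt hE).exists
  exact ⟨m, triv_of_ee (j m) (u := pt m u) rfl hm⟩

end

end Pool.Agent.Work.MP_9d1ffa_al.WL.A1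
end
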