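import Pool.Agent.Work.MP_9d1ffa_al.WL.BA
import Pool.Agent.Work.MP_9d1ffa_al.WL.Cm
import Pool.Agent.Work.MP_9d1ffa_al.WL.Et
import Pool.Agent.Work.MP_9d1ffa_al.WL.Top
import Pool.Agent.Work.MP_9d1ffa_al.WL.Van
import Pool.Agent.Work.MP_9d1ffa_al.GN.AlE

-- merged part: Pool.Agent.Work.MP_9d1ffa_al.WL.BF
section
/-! The assembly of the parts. -/

namespace Pool.Agent.Work.MP_9d1ffa_al.WL

open Function

/-- Part E for all commutative rings. -/
def ThmER (W : (G : Type) → [Group G] → Prop) : Prop :=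
  ∀ (R : Type) [CommRing R] (n : ℕ) (L : Type) [Group L] (ρ : L →* GL (Fin n) R),
    Injective ρ → (∀ g : L, IsOfFinOrder g → g = 1) → Sc 0 L → W L

theorem wb_whK (hA : ThmA WhK) : WB WhK where
  iso := wcl_whK.iso
  loc G _ h := closed_whK.lcl G fun T => ⟨_, _, (Subgroup.closure (T : Set G)).subtype,
    Subgroup.subtype_injective _, fun g hg => ⟨⟨g, Subgroup.subset_closure hg⟩, rfl⟩, h T⟩
  thmA := hA

theorem whK_int (G : Type) [Group G] (h : ∃ χ : G →* Multiplicative ℤ, Injective χ) : WhK G := by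
  obtain ⟨χ, hχ⟩ := h
  have := isCyclic_of_injective χ hχ
  rcases subsingleton_or_nontrivial G with _ | _
  · exact closed_whK.triv G
  · obtain ⟨g, hg⟩ := exists_ne (1 : G)
    have : Infinite G := by
      refine Infinite.of_injective (fun n : ℕ => g ^ n) (injective_pow_iff_not_isOfFinOrder.2 ?_)
      rw [← hχ.isOfFinOrder_iff, isOfFinOrder_iff_eq_one]
      exact fun e => hg (hχ (e.trans (map_one χ).symm))
    exact wcl_whK.iso _ _ (MulEquiv.uniqueProd.trans (intCyclicMulEquiv (G := G)))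
      (wcl_whK.int _ (closed_whK.triv Unit))

theorem thmD_whK (hA : ThmA WhK) : ThmD WhK := thmD hA wcl_whK.iso whK_int

variable {G : Type} [Group G] {n : ℕ}

theorem whK_pos (hA : ThmA WhK) {c : ℕ} (h0 : c ≠ 0) (R : Type) [CommRing R] (hc : (c : R) = 0)
    (ρ : G →* GL (Fin n) R) (hρ : Injective ρ) (tf : ∀ g : G, IsOfFinOrder g → g = 1) : WhK G := by
  refine ((closed2_pw (wb_whK hA) c).gl_pos h0 R hc n).w ρ hρ fun L hL =>
    (wb_whK hA).loc L fun T => ?_
  have tf' : ∀ g : Subgroup.closure (T : Set L), IsOfFinOrder g → g = 1 := fun g hg =>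
    Subtype.ext (Subtype.ext (tf _ ((L.subtype.comp (Subgroup.subtype _)).isOfFinOrder hg)))
  obtain ⟨H, h1, h2⟩ := (hL.sub _).tf h0 tf'
  exact thmD_whK hA _ ((Group.fg_iff_subgroup_fg _).2 ⟨T, rfl⟩) tf' H h1 h2

theorem whK_p (hA : ThmA WhK) (p : ℕ) [Fact p.Prime] (K : Type) [Field K] [CharP K p]
    (ρ : G →* GL (Fin n) K) (hρ : Injective ρ) (tf : ∀ g : G, IsOfFinOrder g → g = 1) : WhK G :=
  whK_pos hA (Fact.out : p.Prime).ne_zero K (CharP.cast_eq_zero K p) ρ hρ tf

theorem whK_zero (hA : ThmA WhK) (hC : ThmC) (hE : ThmE WhK) (K : Type) [Field K] [CharZero K]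
    (ρ : G →* GL (Fin n) K) (hρ : Injective ρ) (tf : ∀ g : G, IsOfFinOrder g → g = 1) : WhK G :=
  ((closed2_pw (wb_whK hA) 0).gl_zero hC K n).w ρ hρ fun L hL => hE K n L (ρ.comp L.subtype)
    (hρ.comp L.subtype_injective) (fun _ hg => Subtype.ext (tf _ (L.subtype.isOfFinOrder hg))) hL

theorem whK_field (hA : ThmA WhK) (hC : ThmC) (hE : ThmE WhK) (K : Type) [Field K]
    (ρ : G →* GL (Fin n) K) (hρ : Injective ρ) (tf : ∀ g : G, IsOfFinOrder g → g = 1) : WhK G := by
  obtain ⟨p, hp⟩ := CharP.exists K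
  rcases CharP.char_is_prime_or_zero K p with h | rfl
  · have := Fact.mk h
    exact whK_p hA p K ρ hρ tf
  · have := CharP.charP_to_charZero K
    exact whK_zero hA hC hE K ρ hρ tf

theorem whK_ring (hA : ThmA WhK) (hC : ThmC) (hE : ThmER WhK) (R : Type) [CommRing R]
    (ρ : G →* GL (Fin n) R) (hρ : Injective ρ) (tf : ∀ g : G, IsOfFinOrder g → g = 1) : WhK G :=
  ((closed2_pw (wb_whK hA) 0).gl_ring hC R n).w ρ hρ fun L hL => hE R n L (ρ.comp L.subtype)
    (hρ.comp L.subtype_injective) (fun _ hg => Subtype.ext (tf _ (L.subtype.isOfFinOrder hg))) hL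

theorem whk_char_p (p : ℕ) [Fact p.Prime] (K : Type) [Field K] [CharP K p]
    (ρ : G →* GL (Fin n) K) (hρ : Injective ρ) (tf : ∀ g : G, IsOfFinOrder g → g = 1) : WhK G :=
  whK_p (thmA_of A1.vanM) p K ρ hρ tf

theorem whk_char_pos {c : ℕ} (h0 : c ≠ 0) (R : Type) [CommRing R] (hc : (c : R) = 0)
    (ρ : G →* GL (Fin n) R) (hρ : Injective ρ) (tf : ∀ g : G, IsOfFinOrder g → g = 1) : WhK G :=
  whK_pos (thmA_of A1.vanM) h0 R hc ρ hρ tf

theorem whGen_of (h : WhK G) (j : ℕ) :
    WhGen (∅ : Set (Subgroup (G × Multiplicative (Fin j → ℤ)))) := h _ ⟨j, ⟨MulEquiv.refl _⟩⟩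

end Pool.Agent.Work.MP_9d1ffa_al.WL
end

-- merged part: Pool.Agent.Work.MP_9d1ffa_al.WL.Er
section
/-! Virtually solvable linear groups over commutative rings. -/

namespace Pool.Agent.Work.MP_9d1ffa_al.WL

variable {R G : Type} [CommRing R] [Group G] {n : ℕ}

theorem Er_field {K : Type} [Field K] [IsAlgClosed K] (f : R →+* K) (ρ : G →* GL (Fin n) R)
    (H : Subgroup G) [H.FiniteIndex] (h : Group.IsSolvable H) :
    ∃ H₀ : Subgroup G, H₀.FiniteIndex ∧ ∀ l : List G, (∀ u ∈ l, u ∈ ⁅H₀, H₀⁆) → n ≤ l.length →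
      ∀ i j, f ((l.map fun u => (ρ u).1 - 1).prod i j) = 0 := by
  let e : Matrix (Fin n) (Fin n) R →+* Module.End K (Fin n → K) :=
    (Matrix.toLinAlgEquiv' (R := K) (n := Fin n)).toRingEquiv.toRingHom.comp f.mapMatrix
  let τ : G →* Matrix (Fin n) (Fin n) R := (Units.coeHom _).comp ρ
  obtain ⟨H₁, h1, h2⟩ := Em_uni (e.toMonoidHom.comp (τ.comp H.subtype)) h
  refine ⟨H₁.map H.subtype, ⟨?_⟩, fun l hl k i j => ?_⟩
  · rw [Subgroup.index_map_subtype]
    exact mul_ne_zero h1.index_ne_zero Subgroup.FiniteIndex.index_ne_zero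
  rw [← Subgroup.map_commutator] at hl
  choose g hg using hl
  have e1 : l = (l.attach.map fun u => g u.1 u.2).map H.subtype := by
    rw [List.map_map]
    conv_lhs => rw [← List.attach_map_subtype_val l]
    exact List.map_congr_left fun u _ => (hg u.1 u.2).2.symm
  have h3 := h2 (l.attach.map fun u => g u.1 u.2) (by
    intro u hu
    obtain ⟨v, -, rfl⟩ := List.mem_map.1 hu
    exact (hg v.1 v.2).1) (by simpa using k)
  have h4 : e (l.map fun u => (ρ u).1 - 1).prod = 0 := by
    rw [← h3, map_list_prod]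
    conv_lhs => rw [e1]
    simp only [List.map_map]
    congr 1
    exact List.map_congr_left fun u _ => by simp [τ]
  have h5 : f.mapMatrix (l.map fun u => (ρ u).1 - 1).prod = 0 :=
    (map_eq_zero_iff _ (Matrix.toLinAlgEquiv' (R := K) (n := Fin n)).injective).1 h4
  exact congrFun (congrFun h5 i) j

theorem Er_pow {M : Type} (N : Ideal R) (x : M → Matrix (Fin n) (Fin n) R)
    (h : ∀ l : List M, n ≤ l.length → ∀ i j, (l.map x).prod i j ∈ N) (m : ℕ) :
    ∀ l : List M, n * m ≤ l.length → ∀ i j, (l.map x).prod i j ∈ N ^ m := by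
  induction m with
  | zero => simp
  | succ m ih =>
    intro l k
    rw [mul_add, mul_one] at k
    rw [← List.take_append_drop n l, List.map_append, List.prod_append, pow_succ']
    exact GN.AlA_mul (h _ (by rw [List.length_take]; omega)) (ih _ (by rw [List.length_drop]; omega))

theorem malcev_noeth [IsNoetherianRing R] (ρ : G →* GL (Fin n) R) (hρ : Function.Injective ρ)
    (H : Subgroup G) [H.FiniteIndex] (h : Group.IsSolvable H) :
    ∃ H₀ : Subgroup G, H₀.Normal ∧ H₀.FiniteIndex ∧ Group.IsNilpotent (⁅H₀, H₀⁆ : Subgroup G) := by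
  have : Finite (minimalPrimes R) := (minimalPrimes.finite_of_isNoetherianRing R).to_subtype
  have : ∀ p : minimalPrimes R, p.1.IsPrime := fun p => Ideal.IsMinimalPrime.isPrime p.2
  choose U h1 h2 using fun p : minimalPrimes R => Er_field
    ((algebraMap _ (AlgebraicClosure (FractionRing (R ⧸ p.1)))).comp
      ((algebraMap _ (FractionRing (R ⧸ p.1))).comp (Ideal.Quotient.mk p.1))) ρ H h
  have := Subgroup.finiteIndex_iInf h1
  refine ⟨(⨅ p, U p).normalCore, inferInstance, inferInstance, ?_⟩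
  obtain ⟨m, hm⟩ := IsNoetherianRing.isNilpotent_nilradical R
  refine Em_nil ((Units.coeHom _).comp (ρ.comp (Subgroup.subtype _)))
    (Units.val_injective.comp (hρ.comp Subtype.val_injective)) (n * m) fun l k => ?_
  refine Matrix.ext fun i j => ?_
  have := Er_pow (nilradical R) (fun u : (⁅(⨅ p, U p).normalCore, (⨅ p, U p).normalCore⁆ :
    Subgroup G) => (ρ u).1 - 1) (fun l k i j => ?_) m l k i j
  · rw [hm] at this
    exact this
  change _ ∈ (⊥ : Ideal R).radical
  rw [← Ideal.sInf_minimalPrimes, Submodule.mem_sInf]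
  intro p hp
  have e := (Subgroup.normalCore_le _).trans (iInf_le U ⟨p, hp⟩)
  have h3 := h2 ⟨p, hp⟩ (l.map Subtype.val) (by
    intro u hu
    obtain ⟨v, -, rfl⟩ := List.mem_map.1 hu
    exact Subgroup.commutator_mono e e v.2) (by simpa using k) i j
  rw [List.map_map, RingHom.comp_apply, map_eq_zero_iff _ (RingHom.injective _), RingHom.comp_apply,
    map_eq_zero_iff _ (IsFractionRing.injective _ _)] at h3
  exact Ideal.Quotient.eq_zero_iff_mem.1 h3

theorem exists_noeth [hG : Group.FG G] (ρ : G →* GL (Fin n) R) (hρ : Function.Injective ρ) :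
    ∃ (A : Type) (_ : CommRing A) (_ : IsNoetherianRing A) (τ : G →* GL (Fin n) A),
      Function.Injective τ := by
  classical
  obtain ⟨S, hS⟩ := hG.out
  let T : Finset R := S.biUnion fun s => Finset.univ.image (fun q : Fin n × Fin n => ρ s q.1 q.2) ∪
    Finset.univ.image fun q : Fin n × Fin n => (ρ s)⁻¹ q.1 q.2
  let A : Subalgebra ℤ R := Algebra.adjoin ℤ (T : Set R)
  let f : GL (Fin n) A →* GL (Fin n) R := Matrix.GeneralLinearGroup.map A.val.toRingHom
  have hf : Function.Injective f := GN.AlA_inj _ Subtype.val_injective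
  have hle : Subgroup.closure (S : Set G) ≤ f.range.comap ρ := by
    refine (Subgroup.closure_le _).2 fun s hs => ?_
    have h1 : ∀ i j, ρ s i j ∈ A := fun i j => Algebra.subset_adjoin (Finset.mem_coe.2
      (Finset.mem_biUnion.2 ⟨s, hs, Finset.mem_union_left _
        (Finset.mem_image.2 ⟨(i, j), Finset.mem_univ _, rfl⟩)⟩))
    have h2 : ∀ i j, (ρ s)⁻¹ i j ∈ A := fun i j => Algebra.subset_adjoin (Finset.mem_coe.2
      (Finset.mem_biUnion.2 ⟨s, hs, Finset.mem_union_right _
        (Finset.mem_image.2 ⟨(i, j), Finset.mem_univ _, rfl⟩)⟩))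
    have hm : Function.Injective (A.val.toRingHom.mapMatrix (m := Fin n)) := fun x y hxy =>
      Matrix.ext fun i j => Subtype.ext (congrFun (congrFun hxy i) j)
    refine ⟨⟨Matrix.of fun i j => ⟨ρ s i j, h1 i j⟩, Matrix.of fun i j => ⟨(ρ s)⁻¹ i j, h2 i j⟩,
      hm ?_, hm ?_⟩, Units.ext rfl⟩
    · rw [map_mul, map_one]
      exact (ρ s).mul_inv
    · rw [map_mul, map_one]
      exact (ρ s).inv_mul
  rw [hS] at hle
  exact ⟨A, inferInstance, isNoetherianRing_of_fg (Subalgebra.fg_adjoin_finset T),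
    (MonoidHom.ofInjective hf).symm.toMonoidHom.comp (ρ.codRestrict _ fun g => hle trivial),
    (MonoidHom.ofInjective hf).symm.injective.comp fun x y e => hρ (congrArg Subtype.val e)⟩

theorem malcev_ring [Group.FG G] (ρ : G →* GL (Fin n) R) (hρ : Function.Injective ρ)
    (H : Subgroup G) [H.FiniteIndex] (h : Group.IsSolvable H) :
    ∃ H₀ : Subgroup G, H₀.Normal ∧ H₀.FiniteIndex ∧ Group.IsNilpotent (⁅H₀, H₀⁆ : Subgroup G) :=
  let ⟨_, _, _, τ, k⟩ := exists_noeth ρ hρ
  malcev_noeth τ k H h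

end Pool.Agent.Work.MP_9d1ffa_al.WL
end

-- merged part: Pool.Agent.Work.MP_9d1ffa_al.WL.BG
section
/-! The assembly for all commutative rings. -/

namespace Pool.Agent.Work.MP_9d1ffa_al.WL

open Function

theorem thmER (hA : ThmA WhK) : ThmER WhK := fun _ _ _ L _ ρ hρ tf hL =>
  (wb_whK hA).loc L fun T => by
    have := (Group.fg_iff_subgroup_fg (Subgroup.closure (T : Set L))).2 ⟨T, rfl⟩
    obtain ⟨H, _, hs, -⟩ := hL.sub (Subgroup.closure (T : Set L))
    obtain ⟨H₀, _, _, h⟩ := malcev_ring (ρ.comp (Subgroup.subtype _))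
      (hρ.comp (Subgroup.subtype_injective _)) H hs
    exact whk_of_na hA _ (fun g hg => Subtype.ext (tf _ ((Subgroup.subtype _).isOfFinOrder hg))) H₀ h

theorem whk_ring_of (hC : ThmC) {G : Type} [Group G] {n : ℕ} (R : Type) [CommRing R]
    (ρ : G →* GL (Fin n) R) (hρ : Injective ρ) (tf : ∀ g : G, IsOfFinOrder g → g = 1) : WhK G :=
  whK_ring (thmA_of A1.vanM) hC (thmER (thmA_of A1.vanM)) R ρ hρ tf

end Pool.Agent.Work.MP_9d1ffa_al.WL
end

-- merged part: Pool.Agent.Work.MP_9d1ffa_al.WL.BI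
section
/-! Central kernels and subgroups of finite index. -/

namespace Pool.Agent.Work.MP_9d1ffa_al.WL

open Function Subgroup

variable {G R : Type} [Group G] [CommRing R] {n : ℕ}

theorem BI_comap {H : Type} [Group H] (f : G →* H) (U : Subgroup H) [U.FiniteIndex] :
    (U.comap f).FiniteIndex := ⟨by
  rw [index_comap]
  exact FiniteIndex.index_ne_zero (H := U.subgroupOf f.range)⟩

theorem na_central [Group.FG G] (ρ : G →* GL (Fin n) R) (hρ : ρ.ker ≤ center G) (h : Sc 0 G) :
    ∃ H₀ : Subgroup G, H₀.FiniteIndex ∧ Group.IsNilpotent (⁅H₀, H₀⁆ : Subgroup G) := by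
  obtain ⟨H, _, hs, -⟩ := h
  have : (H.map ρ.rangeRestrict).FiniteIndex := ⟨ne_zero_of_dvd_ne_zero FiniteIndex.index_ne_zero
    (H.index_map_dvd ρ.rangeRestrict_surjective)⟩
  obtain ⟨U, -, _, _⟩ := malcev_ring ρ.range.subtype Subtype.val_injective (H.map ρ.rangeRestrict)
    (Group.isSolvable_of_surjective (ρ.rangeRestrict.subgroupMap_surjective H))
  refine ⟨U.comap ρ.rangeRestrict, BI_comap _ U, Subgroup.isNilpotent_of_ker_le_center
    ((ρ.rangeRestrict.comp (Subgroup.subtype _)).codRestrict ⁅U, U⁆ fun x => ?_) fun x hx => ?_⟩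
  · have e := mem_map_of_mem ρ.rangeRestrict x.2
    rw [map_commutator] at e
    exact commutator_mono (map_comap_le ρ.rangeRestrict U) (map_comap_le ρ.rangeRestrict U) e
  · exact mem_center_iff.2 fun y => Subtype.ext (mem_center_iff.1
      (hρ (congrArg (fun z => z.1.1) (MonoidHom.mem_ker.1 hx))) y.1)

theorem whk_central (hC : ThmC) (H : Subgroup G) (hH : H.FiniteIndex) (ρ : H →* GL (Fin n) R)
    (hρ : ρ.ker ≤ center H) (tf : ∀ g : G, IsOfFinOrder g → g = 1) : WhK G := by
  have hA := thmA_of A1.vanM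
  have hP := closed2_pw (wb_whK hA) 0
  refine (hP.fin G H hH (hP.ker H _ ρ (hP.gl_ring hC R n)
    (fun a _ b hb => mem_center_iff.1 (hρ hb) a) fun a _ => pow_zero a)).w (MonoidHom.id G)
    injective_id fun L hL => (wb_whK hA).loc L fun T => ?_
  have := (Group.fg_iff_subgroup_fg (closure (T : Set L))).2 ⟨T, rfl⟩
  let f : closure (T : Set L) →* G := L.subtype.comp (Subgroup.subtype _)
  have hf : Injective f := Subtype.val_injective.comp Subtype.val_injective
  have := BI_comap f H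
  obtain ⟨U, _, _⟩ := na_central (ρ.comp (f.subgroupComap H)) (fun x hx =>
    mem_center_iff.2 fun y => Subtype.ext (hf (by
      simpa using congrArg Subtype.val (mem_center_iff.1 (hρ hx) (f.subgroupComap H y)))))
    ((hL.sub _).sub _)
  have : (U.map (H.comap f).subtype).FiniteIndex := ⟨by
    rw [index_map_subtype]
    exact mul_ne_zero FiniteIndex.index_ne_zero FiniteIndex.index_ne_zero⟩
  refine whk_of_na hA _ (fun g hg => hf ((tf _ (f.isOfFinOrder hg)).trans (map_one f).symm))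
    (U.map (H.comap f).subtype).normalCore ?_
  have e := commutator_mono (U.map (H.comap f).subtype).normalCore_le
    (U.map (H.comap f).subtype).normalCore_le
  rw [← map_commutator] at e
  have := Group.nilpotent_of_mulEquiv (equivMapOfInjective ⁅U, U⁆ _ (H.comap f).subtype_injective)
  exact Group.nilpotent_of_mulEquiv (subgroupOfEquivOfLe e)

end Pool.Agent.Work.MP_9d1ffa_al.WL
end
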