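import Pool.Agent.Work.MP_9d1ffa_al.GN.DomW
import Pool.Agent.Work.MP_9d1ffa_al.WL.En

-- merged part: Pool.Agent.Work.MP_9d1ffa_al.Sq.NmA
section
/-! The enlarged piece of the building, meets of norms, and the relation `Rel`. -/

namespace Pool.Agent.Work.MP_9d1ffa_al.GN

open Real Matrix
open G2 (Pl)

variable {K : Type} [Field K] {n : ℕ} {a : AbsoluteValue K ℝ} {S : Finset (GL (Fin n) K)} {T : ℕ}
  {κ : ℝ}

/-- The enlarged piece; it contains the translates of `InX`. -/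
structure InP (a : AbsoluteValue K ℝ) (S : Finset (GL (Fin n) K)) (T : ℕ) (κ : ℝ)
    (y : V n K → ℝ) : Prop where
  sn : IsSn a y
  lo : Le (T + κ) (g0 a) y
  hi : Le (T + κ) y (g0 a)
  cx : ∀ j < 2 * T ^ 3, Le (2 * T * (1 - κ / T) ^ j) (hull a (Ph S (j * (n + 1) + 1)) y) y
  top : hull a (Ph S (2 * T ^ 3 * (n + 1) + 1)) y = y

/-- The largest seminorm below `y` and `exp c * y'`. -/
noncomputable def mt (a : AbsoluteValue K ℝ) (c : ℝ) (y y' : V n K → ℝ) : V n K → ℝ :=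
  hull a Set.univ fun x => min (y x) (exp c * y' x)

variable {y y' z z' u : V n K → ℝ} {c : ℝ}

private theorem NmA_ee (S : Finset (GL (Fin n) K)) (m : ℕ) (l : Fin n) :
    ee l ∈ ((Ph S m : Finset (V n K)) : Set (V n K)) :=
  Finset.mem_coe.2 (ee_mem_Ph S m l)

private theorem NmA_g0nn (x : V n K) : 0 ≤ g0 a x := dg_nonneg 1 0 x

private theorem NmA_hull_g0 (ha : Pl a) (m : ℕ) :
    hull a (Ph S m) (g0 a : V n K → ℝ) = g0 a :=
  hull_eq_dg ha (f := 1) (β := 0) (NmA_ee S m) (fun j => by rw [cl_one]; exact NmA_ee S m j)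
    (fun _ _ => le_rfl) fun j => (dg_cl 1 0 j).le

private theorem NmA_le_hull (hy : IsSn a y) (m : ℕ) : Le 0 y (hull a (Ph S m) y) :=
  le_hull' (NmA_ee S m) hy fun x _ => by rw [exp_zero, one_mul]

private theorem NmA_hull_sn (hy : ∀ x, 0 ≤ y x) (m : ℕ) : IsSn a (hull a (Ph S m) y) :=
  hull_isSn (NmA_ee S m) fun x _ => hy x

private theorem NmA_hull_le {r : ℝ} (hy : ∀ x, 0 ≤ y x) (h : Le r y y') (m : ℕ) :
    Le r (hull a (Ph S m) y) (hull a (Ph S m) y') :=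
  hull_mono (NmA_ee S m) subset_rfl (fun x _ => hy x) fun x _ => h x

private theorem NmA_geo_g0 (ha : Pl a) {s : ℝ} (h0 : 0 ≤ s) (h1 : s ≤ 1) :
    geo a (g0 a) (g0 a : V n K → ℝ) s = g0 a := by
  unfold g0
  rw [geo_dg ha 1 0 0 h0 h1]
  refine congrArg _ (funext fun j => ?_)
  simp

private theorem NmA_s0 (hT : κ ≤ T) : 0 ≤ 1 - κ / T :=
  sub_nonneg.2 (div_le_one_of_le₀ hT (Nat.cast_nonneg _))

private theorem NmA_s1 (h1 : 1 ≤ κ) : 1 - κ / T ≤ 1 :=
  sub_le_self _ (div_nonneg (by linarith) (Nat.cast_nonneg _))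

omit [Field K] in
private theorem NmA_min (hy : ∀ x, 0 ≤ y x) (hy' : ∀ x, 0 ≤ y' x) (c : ℝ) (x : V n K) :
    0 ≤ min (y x) (exp c * y' x) :=
  le_min (hy x) (mul_nonneg (exp_pos _).le (hy' x))

theorem mt_isSn (hy : ∀ x, 0 ≤ y x) (hy' : ∀ x, 0 ≤ y' x) (c : ℝ) : IsSn a (mt a c y y') := by
  exact hull_isSn (fun _ => Set.mem_univ _) fun x _ => NmA_min hy hy' c x

theorem mt_le_left (hy : ∀ x, 0 ≤ y x) (hy' : ∀ x, 0 ≤ y' x) (c : ℝ) : Le 0 (mt a c y y') y := by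
  intro x
  rw [exp_zero, one_mul]
  exact (hull_le (fun x _ => NmA_min hy hy' c x) (Set.mem_univ x)).trans (min_le_left _ _)

theorem mt_le_right (hy : ∀ x, 0 ≤ y x) (hy' : ∀ x, 0 ≤ y' x) (c : ℝ) : Le c (mt a c y y') y' := by
  intro x
  exact (hull_le (fun x _ => NmA_min hy hy' c x) (Set.mem_univ x)).trans (min_le_right _ _)

/-- `le_hull'`. -/
theorem le_mt (hu : IsSn a u) {r : ℝ} (h : Le r u y) (h' : Le (r + c) u y') :
    Le r u (mt a c y y') := by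
  refine le_hull' (fun _ => Set.mem_univ _) hu fun x _ => ?_
  rw [mul_min_of_nonneg _ _ (exp_pos r).le, ← mul_assoc, ← exp_add]
  exact le_min (h x) (h' x)

/-- `hull_act`, `Le.act`; for `top` one inequality is `hull_act` with `hy.top`, the other `le_hull`. -/
theorem InX.inP {g : GL (Fin n) K} (hg : g ∈ S) (hκ : Nr κ (act g (g0 a)) (g0 a))
    (hy : InX a S T κ y) : InP a S T κ (act g y) := by
  have hs := act_isSn hy.sn g
  refine ⟨hs, ?_, (hy.hi.act g).trans hκ.1, fun j hj => ?_, Nr.eq ⟨?_, NmA_le_hull hs _⟩⟩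
  · rw [add_comm]
    exact hκ.2.trans (hy.lo.act g)
  · have h := (hull_act (a := a) hg (j * (n + 1)) hy.sn.nn).trans ((hy.cx j hj).act g)
    rwa [zero_add] at h
  · have h := hull_act (a := a) hg (2 * T ^ 3 * (n + 1)) hy.sn.nn
    rwa [hy.top] at h

theorem InP.pos (hy : InP a S T κ y) {x : V n K} (hx : x ≠ 0) : 0 < y x := by
  have h : 0 < g0 a x := dg_pos 1 0 hx
  exact (mul_pos_iff_of_pos_left (exp_pos _)).1 (h.trans_le (hy.lo x))

theorem InP.nr (hy : InP a S T κ y) (hy' : InP a S T κ y') : Le (2 * (T + κ)) y y' := by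
  rw [two_mul]
  exact hy.hi.trans hy'.lo

/-- `greedy` for `top`. -/
theorem InP.diag (ha : Pl a) (hy : InP a S T κ y) : ∃ f β, y = dg a f β := by
  obtain ⟨f, β, -, hd⟩ := greedy ha (Ph S (2 * T ^ 3 * (n + 1) + 1)) (ee_mem_Ph S _) (w := y)
    (fun x _ => hy.sn.nn x) fun x _ hx => hy.pos hx
  exact ⟨f, β, hy.top.symm.trans hd⟩

/-- `cx`: the hull of `y` over any `Ph S j` is below `exp (T + k) g0`; `top`: `hull_mono`, `Ph_mono`
with `2 T ^ 3 (n + 1) + 1 ≤ 2 (T + k) ^ 3 (n + 1)`. -/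
theorem InP.inX (ha : Pl a) {k : ℕ} (hk : 1 ≤ k) (hy : InP a S T k y) : InX a S (T + k) 0 y := by
  refine ⟨hy.sn, ?_, ?_, fun j _ => ?_, Nr.eq ⟨?_, NmA_le_hull hy.sn _⟩⟩
  · rw [Nat.cast_add]
    exact hy.lo
  · rw [Nat.cast_add]
    exact hy.hi
  · have h := NmA_hull_le (a := a) (S := S) hy.sn.nn hy.hi (j * (n + 1))
    rw [NmA_hull_g0 ha] at h
    rw [zero_div, sub_zero, one_pow, mul_one, two_mul, Nat.cast_add]
    exact h.trans hy.lo
  · have h1 : T ^ 3 + 1 ≤ (T + k) ^ 3 := Nat.pow_lt_pow_left (by omega) three_ne_zero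
    have h2 : 2 * T ^ 3 * (n + 1) + 1 ≤ 2 * (T + k) ^ 3 * (n + 1) := by
      nlinarith [Nat.mul_le_mul_right (n + 1) h1]
    have h : Le 0 (hull a (Ph S (2 * (T + k) ^ 3 * (n + 1))) y)
        (hull a (Ph S (2 * T ^ 3 * (n + 1) + 1)) y) :=
      hull_mono (NmA_ee S _) (Finset.coe_subset.2 (Ph_mono S h2)) (fun x _ => hy.sn.nn x)
        fun x _ => by rw [exp_zero, one_mul]
    rwa [hy.top] at h

private theorem NmA_key (hy : ∀ x, 0 ≤ y x) (hy' : ∀ x, 0 ≤ y' x) {m : ℕ} {ψ : ℝ}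
    (h : Le ψ (hull a (Ph S m) y) y) (h' : Le ψ (hull a (Ph S m) y') y') :
    Le ψ (hull a (Ph S m) (mt a c y y')) (mt a c y y') := by
  have hn := (mt_isSn (a := a) hy hy' c).nn
  refine le_mt (NmA_hull_sn hn m) ?_ ?_
  · rw [← zero_add ψ]
    exact (NmA_hull_le hn (mt_le_left hy hy' c) m).trans h
  · rw [add_comm]
    exact (NmA_hull_le hn (mt_le_right hy hy' c) m).trans h'

/-- Every clause is `le_mt` (for `cx`, `top` apply it to the hull of `mt`, using `hull_mono`). -/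
theorem InX.mt (ha : Pl a) (hy : InX a S T κ y) (hy' : InX a S T κ y') (hc : 0 ≤ c) :
    InX a S T κ (mt a c y y') := by
  have hs := mt_isSn (a := a) hy.sn.nn hy'.sn.nn c
  refine ⟨hs, le_mt (dg_isSn ha 1 0) hy.lo (hy'.lo.mono hy'.sn.nn (by linarith)), ?_,
    fun j hj => NmA_key hy.sn.nn hy'.sn.nn (hy.cx j hj) (hy'.cx j hj),
    Nr.eq ⟨NmA_key hy.sn.nn hy'.sn.nn ?_ ?_, NmA_le_hull hs _⟩⟩
  · have h := (mt_le_left (a := a) hy.sn.nn hy'.sn.nn c).trans hy.hi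
    rwa [zero_add] at h
  · rw [hy.top]
    exact Le.rfl
  · rw [hy'.top]
    exact Le.rfl

theorem InP.mt (ha : Pl a) (hy : InP a S T κ y) (hy' : InP a S T κ y') (hc : 0 ≤ c) :
    InP a S T κ (mt a c y y') := by
  have hs := mt_isSn (a := a) hy.sn.nn hy'.sn.nn c
  refine ⟨hs, le_mt (dg_isSn ha 1 0) hy.lo (hy'.lo.mono hy'.sn.nn (by linarith)), ?_,
    fun j hj => NmA_key hy.sn.nn hy'.sn.nn (hy.cx j hj) (hy'.cx j hj),
    Nr.eq ⟨NmA_key hy.sn.nn hy'.sn.nn ?_ ?_, NmA_le_hull hs _⟩⟩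
  · have h := (mt_le_left (a := a) hy.sn.nn hy'.sn.nn c).trans hy.hi
    rwa [zero_add] at h
  · rw [hy.top]
    exact Le.rfl
  · rw [hy'.top]
    exact Le.rfl

private theorem NmA_ball (ha : Pl a) (h1 : 1 ≤ κ) (hT : κ ≤ T) (hy : InP a S T κ y) :
    Nr T (geo a (g0 a) y (1 - κ / T)) (g0 a) := by
  have h0 := NmA_s0 hT
  have h1' := NmA_s1 (T := T) h1
  have hT0 : (0 : ℝ) < T := by linarith
  have b1 := geo_le (a := a) (α := g0 a) NmA_g0nn hy.sn.nn h0 h1' Le.rfl hy.hi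
  have b2 := geo_le (a := a) (α := g0 a) NmA_g0nn NmA_g0nn h0 h1' Le.rfl hy.lo
  rw [NmA_geo_g0 ha h0 h1'] at b1 b2
  have e : (1 - κ / T) * (T + κ) = T - κ * κ / T := by
    field_simp
    ring
  have e' : 0 ≤ κ * κ / T := div_nonneg (mul_self_nonneg _) hT0.le
  exact ⟨b1.mono NmA_g0nn (by linarith), b2.mono (geo_isSn NmA_g0nn hy.sn.nn _).nn (by linarith)⟩

private theorem NmA_cx (ha : Pl a) (h1 : 1 ≤ κ) (hT : κ ≤ T) (hy : InP a S T κ y) {j : ℕ}
    (hj : j ≤ 2 * T ^ 3) :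
    Le (2 * T * (1 - κ / T) ^ j) (hull a (Ph S (j * (n + 1))) (geo a (g0 a) y (1 - κ / T)))
      (geo a (g0 a) y (1 - κ / T)) := by
  cases j with
  | zero =>
    have hb := NmA_ball ha h1 hT hy
    have b1 := NmA_hull_le (a := a) (S := S) (geo_isSn NmA_g0nn hy.sn.nn _).nn hb.1 (0 * (n + 1))
    rw [NmA_hull_g0 ha] at b1
    rw [pow_zero, mul_one, two_mul]
    exact b1.trans hb.2
  | succ j =>
    have c2 := hull_geo ha hy.sn (fun _ hx => hy.pos hx) (NmA_s0 hT) (NmA_s1 h1) (hy.cx j hj)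
    have e1 : j * (n + 1) + 1 + n = (j + 1) * (n + 1) := by ring
    have e2 : (1 - κ / T) * (2 * T * (1 - κ / T) ^ j) = 2 * T * (1 - κ / T) ^ (j + 1) := by
      ring
    rwa [e1, e2] at c2

private theorem NmA_num (h1 : 1 ≤ κ) (hT : κ ≤ T) :
    2 * T * (1 - κ / T) ^ (2 * T ^ 3) ≤ 1 / T := by
  have hT0 : (0 : ℝ) < T := by linarith
  have h0 := NmA_s0 hT
  have hp : 0 ≤ κ / T := div_nonneg (by linarith) hT0.le
  have b1 := one_add_mul_le_pow (a := κ / T) (by linarith) (2 * T ^ 3)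
  have b2 : (1 - κ / T) ^ (2 * T ^ 3) * (1 + κ / T) ^ (2 * T ^ 3) ≤ 1 := by
    rw [← mul_pow]
    exact pow_le_one₀ (mul_nonneg h0 (by linarith)) (by nlinarith [mul_self_nonneg (κ / T)])
  have b3 : 2 * (T : ℝ) ^ 2 ≤ 1 + ((2 * T ^ 3 : ℕ) : ℝ) * (κ / T) := by
    have e : ((2 * T ^ 3 : ℕ) : ℝ) * (κ / T) = 2 * (T : ℝ) ^ 2 * κ := by
      push_cast
      field_simp
    rw [e]
    nlinarith [sq_nonneg (T : ℝ)]
  have b4 := mul_le_mul_of_nonneg_left (b3.trans b1) (pow_nonneg h0 (2 * T ^ 3))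
  rw [le_div_iff₀ hT0]
  nlinarith

/-- `z` is the hull of the point on the segment from `g0` to `y`. -/
theorem InP.pull (ha : Pl a) (h1 : 1 ≤ κ) (hT : κ ≤ T) (hy : InP a S T κ y) :
    ∃ z, InX a S T κ z ∧ Nr (1 / T) z (geo a (g0 a) y (1 - κ / T)) := by
  have hu : IsSn a (geo a (g0 a) y (1 - κ / T)) := geo_isSn NmA_g0nn hy.sn.nn _
  have hb := NmA_ball ha h1 hT hy
  have hs := NmA_hull_sn (a := a) (S := S) hu.nn (2 * T ^ 3 * (n + 1))
  have hup := NmA_le_hull (S := S) hu (2 * T ^ 3 * (n + 1))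
  have key : ∀ m ≤ 2 * T ^ 3 * (n + 1), Le 0
      (hull a (Ph S m) (hull a (Ph S (2 * T ^ 3 * (n + 1))) (geo a (g0 a) y (1 - κ / T))))
      (hull a (Ph S m) (geo a (g0 a) y (1 - κ / T))) := by
    intro m hm
    refine hull_mono (NmA_ee S m) subset_rfl (fun x _ => hs.nn x) fun x hx => ?_
    rw [exp_zero, one_mul]
    exact hull_le (fun x _ => hu.nn x) (Finset.mem_coe.2 (Ph_mono S hm (Finset.mem_coe.1 hx)))
  refine ⟨_, ⟨hs, ?_, ?_, fun j hj => ?_, Nr.eq ⟨key _ le_rfl, NmA_le_hull hs _⟩⟩,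
    (NmA_cx ha h1 hT hy le_rfl).mono hu.nn (NmA_num h1 hT), hup.mono hs.nn (by positivity)⟩
  · have h := hb.2.trans hup
    rwa [add_zero] at h
  · have h := NmA_hull_le (a := a) (S := S) hu.nn hb.1 (2 * T ^ 3 * (n + 1))
    rwa [NmA_hull_g0 ha] at h
  · have h := ((key _ (Nat.mul_le_mul_right _ hj.le)).trans (NmA_cx ha h1 hT hy hj.le)).trans hup
    rwa [add_zero, zero_add] at h

/-- As `phi_rel` with `g = 1`, `χ s = - κ / T * clamp s` to `[-(T + κ), T + κ]`; `geo_le` compares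
`geo a g0 y'` with `geo a g0 y`. -/
theorem InP.rel (ha : Pl a) (h1 : 1 ≤ κ) (hT : κ ≤ T) (hy : InP a S T κ y) (hy' : ∀ x, 0 ≤ y' x)
    {δ δ' : ℝ} (hδ : 0 ≤ δ) (h : Nr δ y' y) (h' : Nr δ' z (geo a (g0 a) y' (1 - κ / T))) :
    Rel a (2 * κ) (κ / T) (δ' + δ) 1 y z := by
  have h0 := NmA_s0 hT
  have h1' := NmA_s1 (T := T) h1
  have hT0 : (0 : ℝ) < T := by linarith
  have hp : 0 ≤ κ / T := div_nonneg (by linarith) hT0.le
  refine ⟨fun t => -(κ / T * max (min t (T + κ)) (-(T + κ))), fun s t hst => ?_, fun s t => ?_,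
    fun s => ?_, fun f β α hf => ?_⟩
  · exact neg_le_neg (mul_le_mul_of_nonneg_left (max_le_max (min_le_min hst le_rfl) le_rfl) hp)
  · rw [neg_sub_neg, ← mul_sub, abs_mul, abs_of_nonneg hp, abs_sub_comm]
    exact mul_le_mul_of_nonneg_left
      ((abs_sup_sub_sup_le_abs _ _ _).trans (abs_inf_sub_inf_le_abs _ _ _)) hp
  · rw [abs_neg, abs_mul, abs_of_nonneg hp]
    have b : |max (min s ((T : ℝ) + κ)) (-(T + κ))| ≤ 2 * T :=
      abs_le.2 ⟨le_max_of_le_right (by linarith),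
        max_le (min_le_of_right_le (by linarith)) (by linarith)⟩
    calc κ / T * |max (min s ((T : ℝ) + κ)) (-(T + κ))| ≤ κ / T * (2 * T) :=
          mul_le_mul_of_nonneg_left b hp
      _ = 2 * κ := by field_simp
  · have b1 := geo_le (a := a) (α := g0 a) NmA_g0nn hy' h0 h1' Le.rfl h.1
    have b2 := geo_le (a := a) (α := g0 a) NmA_g0nn hy.sn.nn h0 h1' Le.rfl h.2
    have e : (1 - (1 - κ / T)) * 0 + (1 - κ / T) * δ ≤ δ := by
      have := mul_nonneg hp hδ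
      linarith
    have e2 : geo a (g0 a) y (1 - κ / T) =
        dg a (1 * f) fun j => β j + -(κ / T * max (min (α j) (T + κ)) (-(T + κ))) := by
      have c1 := hy.lo
      have c2 := hy.hi
      rw [hf.hg, hf.hy] at c1 c2
      rw [hf.hg, hf.hy, one_mul, geo_dg ha _ _ _ h0 h1']
      refine congrArg _ (funext fun j => ?_)
      have c3 := dg_le_iff.1 c1 j
      have c4 := dg_le_iff.1 c2 j
      rw [Pi.sub_apply] at c3 c4
      rw [min_eq_left (by linarith), max_eq_left (by linarith), Pi.sub_apply]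
      ring
    rw [← e2]
    exact h'.trans ⟨b1.mono (geo_isSn NmA_g0nn hy.sn.nn _).nn e,
      b2.mono (geo_isSn NmA_g0nn hy' _).nn e⟩

theorem rel_act {g : GL (Fin n) K} {δ : ℝ} (h : Nr δ z (act g y)) : Rel a 0 0 δ g y z := by
  refine ⟨fun _ => 0, antitone_const, fun s t => by simp, fun s => by simp, fun f β α hf => ?_⟩
  rw [hf.hy, act_dg] at h
  simpa only [add_zero] using h

/-- As `Rel.bar`, with `χ t = min (χ₁ t) (c + χ₂ t)`. -/
theorem Rel.mt (ha : Pl a) {b Λ δ : ℝ} {g : GL (Fin n) K} (hz : ∀ x, 0 ≤ z x) (hz' : ∀ x, 0 ≤ z' x)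
    (h : Rel a b Λ δ g y z) (h' : Rel a b Λ δ g y z') (hc : 0 ≤ c) :
    Rel a b Λ δ g y (mt a c z z') := by
  obtain ⟨χ, a1, a2, a3, a4⟩ := h
  obtain ⟨ψ, b1, b2, b3, b4⟩ := h'
  refine ⟨fun t => min (χ t) (c + ψ t), fun s t hst => min_le_min (a1 hst) (by linarith [b1 hst]),
    fun s t => ?_, fun s => ?_, fun f β α hf => ⟨?_, le_mt (dg_isSn ha _ _) ?_ ?_⟩⟩
  · refine (abs_min_sub_min_le_max _ _ _ _).trans (max_le (a2 s t) ?_)
    rw [add_sub_add_left_eq_sub]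
    exact b2 s t
  · have c1 := abs_le.1 (a3 s)
    have c2 := abs_le.1 (b3 s)
    exact abs_le.2 ⟨le_min c1.1 (by linarith), (min_le_left _ _).trans c1.2⟩
  · refine (mt_isSn hz hz' c).le_dg fun j => ?_
    have c1 := ((mt_le_left (a := a) hz hz' c).trans (a4 f β α hf).1) (cl (g * f) j)
    have c2 := ((mt_le_right (a := a) hz hz' c).trans (b4 f β α hf).1) (cl (g * f) j)
    rw [dg_cl, ← exp_add] at c1 c2
    rcases min_choice (χ (α j)) (c + ψ (α j)) with e | e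
    · exact c1.trans (le_of_eq (congrArg exp (by simp only [e]; ring)))
    · exact c2.trans (le_of_eq (congrArg exp (by simp only [e]; ring)))
  · rw [← zero_add δ]
    exact (dg_le_iff.2 fun j => by linarith [min_le_left (χ (α j)) (c + ψ (α j))]).trans
      (a4 f β α hf).2
  · rw [add_comm δ]
    exact (dg_le_iff.2 fun j => by linarith [min_le_right (χ (α j)) (c + ψ (α j))]).trans
      (b4 f β α hf).2

end Pool.Agent.Work.MP_9d1ffa_al.GN
end

-- merged part: Pool.Agent.Work.MP_9d1ffa_al.Sq.NmB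
section
/-! Norms with values in `exp (ℤ / Q)`. -/

namespace Pool.Agent.Work.MP_9d1ffa_al.GN

open Real Matrix
open G2 (Pl)

variable {K : Type} [Field K] {n : ℕ} {a : AbsoluteValue K ℝ} {S : Finset (GL (Fin n) K)} {T Q : ℕ}
  {κ : ℝ} {y y' z : V n K → ℝ}

/-- Values in `exp (ℤ / Q)`. -/
def Lv (Q : ℕ) (y : V n K → ℝ) : Prop := ∀ x, x ≠ 0 → ∃ m : ℤ, y x = exp (m / Q)

theorem Lv.act (h : Lv Q y) (g : GL (Fin n) K) : Lv Q (act g y) := by
  intro x hx
  refine h _ fun h0 => hx ?_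
  have e : g.1 *ᵥ ((g⁻¹ : GL (Fin n) K).1 *ᵥ x) = x := by
    rw [Matrix.mulVec_mulVec, ← Units.val_mul, mul_inv_cancel, Units.val_one, Matrix.one_mulVec]
  rw [← e, h0, Matrix.mulVec_zero]

theorem lv_dg (ha : Pl a) (hQ : 0 < Q) (f : GL (Fin n) K) (m : Fin n → ℤ) :
    Lv Q (dg a f fun j => (m j : ℝ) / Q) := by
  intro x hx
  obtain ⟨j, t, e⟩ := dg_val ha f (fun j => (m j : ℝ) / Q) hx
  have hQ' : (Q : ℝ) ≠ 0 := Nat.cast_ne_zero.2 hQ.ne'
  refine ⟨m j + t * Q, ?_⟩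
  rw [e]
  congr 1
  push_cast
  field_simp

theorem lv_g0 (ha : Pl a) (hQ : 0 < Q) : Lv Q (g0 a : V n K → ℝ) := by
  have h := lv_dg ha hQ (1 : GL (Fin n) K) fun _ => 0
  have e : (fun _ : Fin n => ((0 : ℤ) : ℝ) / Q) = 0 := by
    funext j
    simp
  rwa [e] at h

/-- two numbers `exp (m / Q)`, `exp (m' / Q)` with `m / Q ≤ θ + m' / Q`, `θ < 1 / Q` -/
theorem lv_le (hQ : 0 < Q) {m m' : ℤ} {θ : ℝ} (hθ : θ < 1 / Q)
    (h : exp ((m : ℝ) / Q) ≤ exp θ * exp ((m' : ℝ) / Q)) : exp ((m : ℝ) / Q) ≤ exp ((m' : ℝ) / Q) := by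
  have hQ' : (0 : ℝ) < Q := Nat.cast_pos.2 hQ
  rw [← exp_add, exp_le_exp] at h
  have h1 : (m : ℝ) / Q < (m' + 1) / Q := by
    rw [add_div]
    linarith
  rw [div_lt_div_iff_of_pos_right hQ'] at h1
  have h2 : m < m' + 1 := by exact_mod_cast h1
  have h3 : (m : ℝ) ≤ m' := by exact_mod_cast Int.lt_add_one_iff.1 h2
  exact exp_le_exp.2 (div_le_div_of_nonneg_right h3 hQ'.le)

theorem exists_theta (hQ : 0 < Q) (β : Fin n → ℝ) :
    ∃ θ : ℝ, 0 ≤ θ ∧ θ < 1 / Q ∧ ∀ j, (⌈Q * β j⌉ : ℝ) / Q ≤ θ + β j := by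
  have hQ' : (0 : ℝ) < Q := Nat.cast_pos.2 hQ
  obtain ⟨o, ho⟩ := Finite.exists_max
    (fun o : Option (Fin n) => o.elim (0 : ℝ) fun j => (⌈Q * β j⌉ : ℝ) / Q - β j)
  refine ⟨_, ho none, ?_, fun j => sub_le_iff_le_add.1 (ho (some j))⟩
  cases o with
  | none => exact one_div_pos.2 hQ'
  | some j =>
    have h1 := Int.ceil_lt_add_one (Q * β j)
    change (⌈Q * β j⌉ : ℝ) / Q - β j < 1 / Q
    rw [sub_lt_iff_lt_add, div_lt_iff₀ hQ', add_mul, one_div_mul_cancel hQ'.ne']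
    linarith

private theorem NmB_ceil (hQ : 0 < Q) (s : ℝ) : s ≤ (⌈Q * s⌉ : ℝ) / Q := by
  have hQ' : (0 : ℝ) < Q := Nat.cast_pos.2 hQ
  rw [le_div_iff₀ hQ', mul_comm]
  exact Int.le_ceil _

theorem lv_hull (ha : Pl a) (hQ : 0 < Q) (Φ : Finset (V n K)) (hΦ : ∀ j, ee j ∈ Φ)
    {w : V n K → ℝ} (hw : ∀ x ∈ Φ, 0 ≤ w x) (h : ∀ x ∈ Φ, x ≠ 0 → ∃ m : ℤ, w x = exp (m / Q)) :
    Lv Q (hull a Φ w) := by
  obtain ⟨f, β, -, hd⟩ := greedy ha Φ hΦ hw fun x hx h0 => by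
    obtain ⟨m, e⟩ := h x hx h0
    rw [e]
    exact exp_pos _
  obtain ⟨θ, -, hθ, hβ⟩ := exists_theta hQ β
  have hl := lv_dg ha hQ f fun j => ⌈Q * β j⌉
  have h1 : Le θ (dg a f fun j => ((⌈Q * β j⌉ : ℤ) : ℝ) / Q) (dg a f β) := dg_le_iff.2 hβ
  have h2 : ∀ x ∈ (Φ : Set (V n K)), dg a f (fun j => ((⌈Q * β j⌉ : ℤ) : ℝ) / Q) x ≤ w x := by
    intro x hx
    by_cases h0 : x = 0
    · rw [h0, (dg_isSn ha _ _).zero]
      exact hw _ (h0 ▸ hx)
    obtain ⟨m, e⟩ := hl x h0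
    obtain ⟨m', e'⟩ := h x hx h0
    have h3 := (h1 x).trans (mul_le_mul_of_nonneg_left
      (hd ▸ hull_le (a := a) (Φ := (Φ : Set (V n K))) hw hx) (exp_pos θ).le)
    rw [e, e'] at h3 ⊢
    exact lv_le hQ hθ h3
  have h4 : hull a Φ w = dg a f fun j => ((⌈Q * β j⌉ : ℤ) : ℝ) / Q := by
    refine Nr.eq ⟨?_, le_hull' hΦ (dg_isSn ha _ _) fun x hx => ?_⟩
    · rw [hd]
      exact dg_le_iff.2 fun j => by rw [zero_add]; exact NmB_ceil hQ _
    · rw [exp_zero, one_mul]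
      exact h2 x hx
  rwa [h4]

/-- If `y`, `y'` are their own hulls over `Φ` then `mt a c y y'` is the hull over `Φ` of the
minimum. -/
theorem lv_mt (ha : Pl a) (hQ : 0 < Q) (Φ : Finset (V n K)) (hΦ : ∀ j, ee j ∈ Φ) (hy : IsSn a y)
    (hy' : IsSn a y') (e : hull a Φ y = y) (e' : hull a Φ y' = y') (h : Lv Q y) (h' : Lv Q y')
    (m : ℤ) : Lv Q (mt a (m / Q) y y') := by
  have hw : ∀ x, 0 ≤ min (y x) (exp ((m : ℝ) / Q) * y' x) := fun x =>
    le_min (hy.nn x) (mul_nonneg (exp_pos _).le (hy'.nn x))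
  have h1 : mt a (m / Q) y y' = hull a Φ fun x => min (y x) (exp ((m : ℝ) / Q) * y' x) := by
    refine Nr.eq ⟨hull_mono hΦ (Set.subset_univ _) (fun x _ => hw x) fun x _ => ?_, ?_⟩
    · rw [exp_zero, one_mul]
    · have h2 : Le 0 (hull a Φ fun x => min (y x) (exp ((m : ℝ) / Q) * y' x)) (hull a Φ y) :=
        hull_mono hΦ subset_rfl (fun x _ => hw x) fun x _ => by
          rw [exp_zero, one_mul]
          exact min_le_left _ _
      have h3 : Le (m / Q) (hull a Φ fun x => min (y x) (exp ((m : ℝ) / Q) * y' x))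
          (hull a Φ y') :=
        hull_mono hΦ subset_rfl (fun x _ => hw x) fun x _ => min_le_right _ _
      rw [e] at h2
      rw [e'] at h3
      refine le_hull' (fun _ => Set.mem_univ _) (hull_isSn hΦ fun x _ => hw x) fun x _ => ?_
      have h4 := h2 x
      rw [exp_zero, one_mul] at h4 ⊢
      exact le_min h4 (h3 x)
  rw [h1]
  refine lv_hull ha hQ Φ hΦ (fun x _ => hw x) fun x _ h0 => ?_
  obtain ⟨l, el⟩ := h x h0
  obtain ⟨l', el'⟩ := h' x h0
  rcases min_choice (y x) (exp ((m : ℝ) / Q) * y' x) with c | c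
  · exact ⟨l, c.trans el⟩
  · refine ⟨m + l', c.trans ?_⟩
    rw [el', ← exp_add, Int.cast_add, add_div]

private theorem NmB_psi {k j : ℕ} (h1 : 1 ≤ k) (hT : k ≤ T) (hj : j < 2 * T ^ 3) :
    ∃ M : ℤ, 2 * (T : ℝ) * (1 - (k : ℝ) / T) ^ j = M / ((T ^ (2 * T ^ 3) : ℕ) : ℝ) := by
  obtain ⟨i, hi⟩ := Nat.exists_eq_add_of_le hj.le
  have hT' : (T : ℝ) ≠ 0 := Nat.cast_ne_zero.2 (by omega)
  refine ⟨2 * T * (T - k) ^ j * T ^ i, ?_⟩
  rw [hi]
  have e : (1 - (k : ℝ) / T) = (T - k) / T := by field_simp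
  rw [e, div_pow]
  push_cast
  rw [pow_add]
  field_simp

/-- Rounding. -/
theorem InX.round (ha : Pl a) {k : ℕ} (h1 : 1 ≤ k) (hT : k ≤ T) (hy : InX a S T k y) :
    ∃ z, InX a S T k z ∧ Lv (T ^ (2 * T ^ 3)) z ∧ Nr (1 / (T ^ (2 * T ^ 3) : ℕ)) z y := by
  have hψ := fun j => NmB_psi (j := j) h1 hT
  have hQ : 0 < T ^ (2 * T ^ 3) := Nat.pow_pos (by omega)
  generalize T ^ (2 * T ^ 3) = Q at hψ hQ ⊢
  have hQ' : (0 : ℝ) < Q := Nat.cast_pos.2 hQ
  obtain ⟨f, β, hf, hd⟩ := greedy ha (Ph S (2 * T ^ 3 * (n + 1))) (ee_mem_Ph S _) (w := y)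
    (fun x _ => hy.sn.nn x) fun x _ hx => hy.pos hx
  rw [hy.top] at hd
  obtain ⟨θ, h0, hθ, hβ⟩ := exists_theta hQ β
  have hl := lv_dg ha hQ f fun j => ⌈Q * β j⌉
  have hs := dg_isSn ha f fun j => ((⌈Q * β j⌉ : ℤ) : ℝ) / Q
  have hzy : Le θ (dg a f fun j => ((⌈Q * β j⌉ : ℤ) : ℝ) / Q) y := hd ▸ dg_le_iff.2 hβ
  have hyz : Le 0 y (dg a f fun j => ((⌈Q * β j⌉ : ℤ) : ℝ) / Q) :=
    hd ▸ dg_le_iff.2 fun j => by rw [zero_add]; exact NmB_ceil hQ _
  refine ⟨_, ⟨hs, ?_, fun x => ?_, fun j hj => ?_, ?_⟩, hl, hzy.mono hy.sn.nn hθ.le,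
    hyz.mono hs.nn (one_div_pos.2 hQ').le⟩
  · have h2 := hy.lo.trans hyz
    rwa [add_zero] at h2
  · by_cases hx : x = 0
    · rw [hx, hs.zero]
      exact mul_nonneg (exp_pos _).le (dg_nonneg 1 0 _)
    obtain ⟨m, e⟩ := hl x hx
    obtain ⟨m', e'⟩ := lv_g0 (n := n) ha hQ x hx
    have h2 := hzy.trans hy.hi x
    have e2 : exp (T : ℝ) * exp ((m' : ℝ) / Q) = exp (((T * Q + m' : ℤ) : ℝ) / Q) := by
      rw [← exp_add]
      congr 1
      push_cast
      field_simp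
    rw [e, e', exp_add, mul_assoc, e2] at h2
    rw [e, e', e2]
    exact lv_le hQ hθ h2
  · obtain ⟨M, hM⟩ := hψ j hj
    have h2 := hy.cx j hj
    rw [hM] at h2 ⊢
    have hu := lv_hull ha hQ (Ph S (j * (n + 1))) (ee_mem_Ph S _) (fun x _ => hs.nn x)
      fun x _ hx => hl x hx
    have h3 := (hull_mono (a := a) (Φ := Ph S (j * (n + 1))) (Φ' := Ph S (j * (n + 1)))
      (ee_mem_Ph S _) subset_rfl (fun x _ => hs.nn x) fun x _ => hzy x).trans (h2.trans hyz)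
    refine (hull_isSn (ee_mem_Ph S _) fun x _ => hs.nn x).le_dg fun l => ?_
    obtain ⟨m, e⟩ := hu _ (cl_ne f l)
    have h4 := h3 (cl f l)
    have e2 : (M : ℝ) / Q + ((⌈Q * β l⌉ : ℤ) : ℝ) / Q = ((M + ⌈Q * β l⌉ : ℤ) : ℝ) / Q := by
      rw [Int.cast_add, add_div]
    rw [e, dg_cl, add_zero, exp_add, mul_assoc, ← exp_add, e2] at h4
    rw [e, e2]
    exact lv_le hQ hθ h4
  · exact hull_eq_dg ha (ee_mem_Ph S _) hf (fun _ _ => le_rfl) fun j => (dg_cl _ _ _).le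

/-- A point is determined by its values on the top set, and these lie in finite sets. -/
theorem finite_lv (hQ : 0 < Q) : {y : V n K → ℝ | InP a S T κ y ∧ Lv Q y}.Finite := by
  have hQ' : (0 : ℝ) < Q := Nat.cast_pos.2 hQ
  have ht : ∀ x : Ph S (2 * T ^ 3 * (n + 1) + 1), (insert 0 ((fun m : ℤ => exp ((m : ℝ) / Q)) ''
      Set.Icc ⌊Q * (log (g0 a x.1) - (T + κ))⌋ ⌈Q * (log (g0 a x.1) + (T + κ))⌉)).Finite :=
    fun x => ((Set.finite_Icc _ _).image _).insert _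
  refine Set.Finite.of_finite_image
    (f := fun (y : V n K → ℝ) (x : Ph S (2 * T ^ 3 * (n + 1) + 1)) => y x.1)
    ((Set.Finite.pi' ht).subset ?_) ?_
  · rintro _ ⟨y, ⟨hy, hl⟩, rfl⟩ x
    by_cases hx : x.1 = 0
    · refine Or.inl ?_
      change y x.1 = 0
      rw [hx, hy.sn.zero]
    obtain ⟨m, e⟩ := hl _ hx
    have hg : 0 < g0 a x.1 := dg_pos 1 0 hx
    have h1 := hy.lo x.1
    have h2 := hy.hi x.1
    rw [e, ← exp_log hg, ← exp_add, exp_le_exp] at h1 h2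
    refine Or.inr ⟨m, ⟨Int.floor_le_iff.2 ?_, Int.le_ceil_iff.2 ?_⟩, e.symm⟩
    · have h3 : log (g0 a x.1) - (T + κ) ≤ m / Q := by linarith
      rw [le_div_iff₀ hQ'] at h3
      linarith
    · have h3 : (m : ℝ) / Q ≤ log (g0 a x.1) + (T + κ) := by linarith
      rw [div_le_iff₀ hQ'] at h3
      linarith
  · rintro y ⟨hy, -⟩ y' ⟨hy', -⟩ e
    rw [← hy.top, ← hy'.top]
    exact hull_congr fun x hx => congrFun e ⟨x, hx⟩

private theorem NmB_det (ha : Pl a) (M : Matrix (Fin n) (Fin n) K) {u v : Fin n → ℝ}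
    (h : ∀ p j, a (M p j) ≤ exp (u j - v p)) : a M.det ≤ exp (∑ j, u j - ∑ j, v j) := by
  rw [det_apply]
  refine Finset.sum_induction _ (fun t => a t ≤ exp (∑ j, u j - ∑ j, v j))
    (fun s t hs ht => (ha.na s t).trans (max_le hs ht)) ?_ fun σ _ => ?_
  · rw [map_zero]
    exact (exp_pos _).le
  · rw [a.map_units_int_smul, a.map_prod]
    refine (Finset.prod_le_prod (fun j _ => a.nonneg _) fun j _ => h (σ j) j).trans_eq ?_
    rw [← exp_sum, Finset.sum_sub_distrib, Equiv.sum_comp σ v]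

private theorem NmB_ent {f f' : GL (Fin n) K} {β β' : Fin n → ℝ} {r : ℝ}
    (h : Le r (dg a f β) (dg a f' β')) (p j : Fin n) :
    a ((f⁻¹ * f' : GL (Fin n) K).1 p j) ≤ exp (r + β' j - β p) := by
  have h1 := (le_dg (a := a) f β (cl f' j) p).trans (h (cl f' j))
  rw [dg_cl, ← exp_add, ← cl_mul] at h1
  rw [exp_sub, le_div_iff₀ (exp_pos _)]
  exact h1

private theorem NmB_log (f f' : GL (Fin n) K) :
    a (f⁻¹ * f' : GL (Fin n) K).1.det = exp (log (a f'.1.det) - log (a f.1.det)) := by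
  have h1 : 0 < a f.1.det := a.pos f.det_ne_zero
  have h2 : 0 < a f'.1.det := a.pos f'.det_ne_zero
  rw [exp_sub, exp_log h1, exp_log h2, eq_div_iff h1.ne', mul_comm, ← map_mul, ← det_mul,
    ← Units.val_mul, mul_inv_cancel_left]

theorem vol_le (ha : Pl a) {f f' : GL (Fin n) K} {β β' : Fin n → ℝ} {r : ℝ}
    (h : Le r (dg a f β) (dg a f' β')) :
    ∑ j, β j - log (a f.1.det) ≤ n * r + (∑ j, β' j - log (a f'.1.det)) := by
  have h1 := NmB_det ha _ (u := fun j => r + β' j) (NmB_ent h)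
  rw [NmB_log, exp_le_exp, Finset.sum_add_distrib, Finset.sum_const, Finset.card_univ,
    Fintype.card_fin, nsmul_eq_mul] at h1
  linarith

/-- Equality case: by the adjugate formula the inverse matrix satisfies the opposite bounds. -/
theorem vol_eq (ha : Pl a) {f f' : GL (Fin n) K} {β β' : Fin n → ℝ}
    (h : Le 0 (dg a f β) (dg a f' β'))
    (e : ∑ j, β' j - log (a f'.1.det) ≤ ∑ j, β j - log (a f.1.det)) : dg a f β = dg a f' β' := by
  refine Nr.eq ⟨h, (dg_isSn ha _ _).le_dg fun p => dg_le (exp_pos _).le fun j => ?_⟩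
  have h1 : adjugate (f⁻¹ * f' : GL (Fin n) K).1 =
      (f⁻¹ * f' : GL (Fin n) K).1.det • (f'⁻¹ * f : GL (Fin n) K).1 := by
    have h2 : (f⁻¹ * f' : GL (Fin n) K).1 * (f'⁻¹ * f : GL (Fin n) K).1 = 1 := by
      rw [← Units.val_mul]
      simp
    rw [← Matrix.mul_one (adjugate _), ← h2, ← Matrix.mul_assoc, adjugate_mul, Matrix.smul_mul,
      Matrix.one_mul]
  have h3 : a (adjugate (f⁻¹ * f' : GL (Fin n) K).1 j p) ≤
      exp (∑ l, β' l - ∑ q, (β q + (Pi.single p (β' j - β p) : Fin n → ℝ) q)) := by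
    rw [adjugate_apply]
    refine NmB_det ha _ fun q l => ?_
    rcases eq_or_ne q p with rfl | hq
    · rw [updateRow_self, Pi.single_eq_same, add_sub_cancel]
      rcases eq_or_ne l j with rfl | hl
      · rw [Pi.single_eq_same, map_one, sub_self, exp_zero]
      · rw [Pi.single_eq_of_ne hl, map_zero]
        exact (exp_pos _).le
    · rw [updateRow_ne hq, Pi.single_eq_of_ne hq, add_zero]
      have h4 := NmB_ent h q l
      rwa [zero_add] at h4
  rw [h1, Matrix.smul_apply, smul_eq_mul, map_mul, NmB_log, Finset.sum_add_distrib,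
    Finset.sum_pi_single', if_pos (Finset.mem_univ _), ← le_div_iff₀' (exp_pos _), ← exp_sub] at h3
  rw [← cl_mul, ← le_div_iff₀ (exp_pos _), ← exp_sub]
  exact h3.trans (exp_le_exp.2 (by linarith))

private theorem NmB_int (ha : Pl a) (hQ : 0 < Q) {f : GL (Fin n) K} {β : Fin n → ℝ}
    (h : Lv Q (dg a f β)) : ∃ t : ℤ, (t : ℝ) = Q * (∑ j, β j - log (a f.1.det)) := by
  have hQ' : (Q : ℝ) ≠ 0 := Nat.cast_ne_zero.2 hQ.ne'
  choose m hm using fun j => h _ (cl_ne f j)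
  obtain ⟨d, hd⟩ := ha.val _ f.det_ne_zero
  have h1 : ∀ j, Q * β j = m j := fun j => by
    have h2 := hm j
    rw [dg_cl, exp_eq_exp] at h2
    rw [h2, mul_div_cancel₀ _ hQ']
  refine ⟨∑ j, m j - Q * d, ?_⟩
  rw [hd, log_exp, mul_sub, Finset.mul_sum, Finset.sum_congr rfl fun j _ => h1 j]
  push_cast
  rfl

/-- `v y` is the integer `Q (∑ β - log (a (det f)))` for a chosen presentation `y = dg f β`. -/
theorem exists_vol (ha : Pl a) (hQ : 0 < Q) : ∃ v : (V n K → ℝ) → ℤ, ∀ y y' : V n K → ℝ,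
    (∃ f β, y = dg a f β) → (∃ f β, y' = dg a f β) → Lv Q y → Lv Q y' →
      (Le 0 y y' → v y ≤ v y' ∧ (y ≠ y' → v y < v y')) ∧ (Le (1 / Q) y' y → v y' ≤ v y + n) := by
  have hQ' : (0 : ℝ) < Q := Nat.cast_pos.2 hQ
  have key : ∀ y : V n K → ℝ, ∃ t : ℤ, (∃ f β, y = dg a f β) → Lv Q y →
      ∃ (f : GL (Fin n) K) (β : Fin n → ℝ), y = dg a f β ∧
        (t : ℝ) = Q * (∑ j, β j - log (a f.1.det)) := by
    intro y
    by_cases h : (∃ f β, y = dg a f β) ∧ Lv Q y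
    · obtain ⟨⟨f, β, rfl⟩, hl⟩ := h
      obtain ⟨t, ht⟩ := NmB_int ha hQ hl
      exact ⟨t, fun _ _ => ⟨f, β, rfl, ht⟩⟩
    · exact ⟨0, fun h1 h2 => absurd ⟨h1, h2⟩ h⟩
  choose v hv using key
  refine ⟨v, fun y y' h h' hl hl' => ?_⟩
  obtain ⟨f, β, e, ht⟩ := hv y h hl
  obtain ⟨f', β', e', ht'⟩ := hv y' h' hl'
  refine ⟨fun hle => ⟨?_, fun hne => ?_⟩, fun hle => ?_⟩
  · rw [e, e'] at hle
    have h1 := vol_le ha hle
    rw [mul_zero, zero_add] at h1
    have h2 : (v y : ℝ) ≤ v y' := by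
      rw [ht, ht']
      exact mul_le_mul_of_nonneg_left h1 hQ'.le
    exact_mod_cast h2
  · have h1 : ¬∑ j, β' j - log (a f'.1.det) ≤ ∑ j, β j - log (a f.1.det) := fun h1 =>
      hne (e.trans ((vol_eq ha (e ▸ e' ▸ hle) h1).trans e'.symm))
    have h2 : (v y : ℝ) < v y' := by
      rw [ht, ht']
      exact mul_lt_mul_of_pos_left (not_le.1 h1) hQ'
    exact_mod_cast h2
  · rw [e, e'] at hle
    have h1 := mul_le_mul_of_nonneg_left (vol_le ha hle) hQ'.le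
    rw [mul_add, ← ht, ← ht', mul_one_div, mul_div_cancel₀ _ hQ'.ne'] at h1
    have h2 : (v y' : ℝ) ≤ v y + n := by linarith
    exact_mod_cast h2

end Pool.Agent.Work.MP_9d1ffa_al.GN
end

-- merged part: Pool.Agent.Work.MP_9d1ffa_al.Sq.NmC
section
/-! Order theoretic transfer data from tuples of norms. -/

namespace Pool.Agent.Work.MP_9d1ffa_al.GN

open Real Matrix
open G2 (Pl)
open Sq

variable {K : Type} [Field K] {n : ℕ} {ι : Type} [Fintype ι] {av : ι → AbsoluteValue K ℝ}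
  {G : Type} [Group G]

/-- Tuples of seminorms. -/
def NmC_L (av : ι → AbsoluteValue K ℝ) (_ρ : G →* GL (Fin n) K) : Type :=
  {y : ι → V n K → ℝ // ∀ i, IsSn (av i) (y i)}

variable {ρ : G →* GL (Fin n) K}

omit [Field K] in
theorem NmC_le0 {y z : V n K → ℝ} : Le 0 y z ↔ y ≤ z := by
  simp only [Le, exp_zero, one_mul]
  rfl

noncomputable instance NmC_inf : SemilatticeInf (NmC_L av ρ) :=
  { (inferInstance : PartialOrder {y : ι → V n K → ℝ // ∀ i, IsSn (av i) (y i)}) with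
    inf := fun a b => ⟨fun i => mt (av i) 0 (a.1 i) (b.1 i),
      fun i => mt_isSn (a.2 i).nn (b.2 i).nn 0⟩
    inf_le_left := fun a b i => NmC_le0.1 (mt_le_left (a.2 i).nn (b.2 i).nn 0)
    inf_le_right := fun a b i => NmC_le0.1 (mt_le_right (a.2 i).nn (b.2 i).nn 0)
    le_inf := fun a _ _ h h' i => NmC_le0.1
      (le_mt (a.2 i) (NmC_le0.2 (h i)) (by rw [add_zero]; exact NmC_le0.2 (h' i))) }

instance NmC_act : MulAction G (NmC_L av ρ) where
  smul g a := ⟨fun i => act (ρ g) (a.1 i), fun i => act_isSn (a.2 i) _⟩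
  one_smul a := Subtype.ext (funext fun i => by
    change act (ρ 1) (a.1 i) = a.1 i
    rw [map_one, act_one])
  mul_smul g h a := Subtype.ext (funext fun i => by
    change act (ρ (g * h)) (a.1 i) = act (ρ g) (act (ρ h) (a.1 i))
    rw [map_mul, act_mul])

/-- The shift. -/
noncomputable def NmC_s (av : ι → AbsoluteValue K ℝ) (ρ : G →* GL (Fin n) K) (c : ℝ) :
    NmC_L av ρ ≃o NmC_L av ρ where
  toFun a := ⟨fun i x => exp c * a.1 i x, fun i => (a.2 i).const_mul (exp_pos c).le⟩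
  invFun a := ⟨fun i x => exp (-c) * a.1 i x, fun i => (a.2 i).const_mul (exp_pos _).le⟩
  left_inv a := Subtype.ext (funext fun i => funext fun x => by
    change exp (-c) * (exp c * a.1 i x) = a.1 i x
    rw [← mul_assoc, ← exp_add, neg_add_cancel, exp_zero, one_mul])
  right_inv a := Subtype.ext (funext fun i => funext fun x => by
    change exp c * (exp (-c) * a.1 i x) = a.1 i x
    rw [← mul_assoc, ← exp_add, add_neg_cancel, exp_zero, one_mul])
  map_rel_iff' := ⟨fun h i x => le_of_mul_le_mul_left (h i x) (exp_pos c),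
    fun h i x => mul_le_mul_of_nonneg_left (h i x) (exp_pos c).le⟩

omit [Fintype ι] in
theorem NmC_inf_s (c : ℝ) (a b : NmC_L av ρ) (i : ι) :
    (a ⊓ NmC_s av ρ c b).1 i = mt (av i) c (a.1 i) (b.1 i) := by
  change mt (av i) 0 (a.1 i) (fun x => exp c * b.1 i x) = _
  simp only [mt, exp_zero, one_mul]

omit [Fintype ι] in
theorem NmC_iter (c : ℝ) (m : ℕ) (b : NmC_L av ρ) (i : ι) (x : V n K) :
    ((NmC_s av ρ c)^[m] b).1 i x = exp (m * c) * b.1 i x := by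
  induction m with
  | zero => simp
  | succ m ih =>
    rw [Function.iterate_succ_apply']
    change exp c * ((NmC_s av ρ c)^[m] b).1 i x = _
    rw [ih, ← mul_assoc, ← exp_add]
    push_cast
    rw [add_mul, one_mul, add_comm]

omit [Fintype ι] in
theorem NmC_smul_le (g : G) (a b : NmC_L av ρ) (h : a ≤ b) : g • a ≤ g • b :=
  fun i _ => h i _

omit [Fintype ι] in
theorem NmC_smul_inf (g : G) (a b : NmC_L av ρ) : g • (a ⊓ b) = g • a ⊓ g • b := by
  refine le_antisymm (le_inf (NmC_smul_le g _ _ inf_le_left) (NmC_smul_le g _ _ inf_le_right)) ?_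
  rw [← smul_inv_smul g (g • a ⊓ g • b)]
  refine NmC_smul_le g _ _ (le_inf ?_ ?_)
  · exact (NmC_smul_le g⁻¹ _ _ inf_le_left).trans (inv_smul_smul g a).le
  · exact (NmC_smul_le g⁻¹ _ _ inf_le_right).trans (inv_smul_smul g b).le

theorem NmC_kappa (ha : ∀ i, Pl (av i)) (S : Finset (GL (Fin n) K)) :
    ∃ κ : ℕ, 1 ≤ κ ∧ ∀ i, ∀ g ∈ S, Nr κ (act g (g0 (av i))) (g0 (av i)) := by
  choose κ hκ using fun (i : ι) (g : GL (Fin n) K) => exists_kappa (ha i) g
  refine ⟨(∑ i, ∑ g ∈ S, κ i g) + 1, by omega, fun i g hg => ?_⟩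
  refine (hκ i g).mono (fun _ => dg_nonneg _ _ _) (fun _ => dg_nonneg _ _ _) ?_
  have h1 : κ i g ≤ ∑ g ∈ S, κ i g :=
    Finset.single_le_sum (f := fun g => κ i g) (fun _ _ => Nat.zero_le _) hg
  have h2 : ∑ g ∈ S, κ i g ≤ ∑ i, ∑ g ∈ S, κ i g :=
    Finset.single_le_sum (f := fun i => ∑ g ∈ S, κ i g) (fun _ _ => Nat.zero_le _)
      (Finset.mem_univ i)
  exact_mod_cast (by omega : κ i g ≤ (∑ i, ∑ g ∈ S, κ i g) + 1)

theorem NmC_num {κ T Q : ℕ} (h1 : 1 ≤ κ) (hT : κ ≤ T) (hQ : T ≤ Q) :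
    (κ : ℝ) / T ≤ ((2 * κ + 6 : ℕ) : ℝ) / (T + κ : ℕ) ∧
      (1 : ℝ) / Q + 1 / T + 1 / Q ≤ ((2 * κ + 6 : ℕ) : ℝ) / (T + κ : ℕ) := by
  have a1 : (1 : ℝ) ≤ κ := by exact_mod_cast h1
  have a2 : (κ : ℝ) ≤ T := by exact_mod_cast hT
  have a3 : (T : ℝ) ≤ Q := by exact_mod_cast hQ
  have a4 : (0 : ℝ) < T := by linarith
  have a5 : (1 : ℝ) / Q ≤ 1 / T := one_div_le_one_div_of_le a4 a3
  push_cast
  refine ⟨?_, le_trans (b := (3 : ℝ) / T) ?_ ?_⟩
  · rw [div_le_div_iff₀ a4 (by linarith)]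
    nlinarith
  · have : (3 : ℝ) / T = 1 / T + 1 / T + 1 / T := by ring
    linarith
  · rw [div_le_div_iff₀ a4 (by linarith)]
    nlinarith

open Pointwise in
/-- `L` is the type of tuples of seminorms, `D m` the tropical hull of the translates of the
lattice points of the transfer space by words of length at most `m`. -/
theorem exists_td (ha : ∀ i, Pl (av i)) (ρ : G →* GL (Fin n) K) (S0 : Finset G) (k : ℕ) :
    ∃ (S : Finset (GL (Fin n) K)) (C : ℕ), ∀ T : ℕ, C ≤ T →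
      ∀ (Y : Type) [MulAction G Y] (N1 : Y → Y → Prop) (w : XX av S T 0 → Y),
        (∀ (g : G) (y z : XX av S T 0), (∀ i, Nr C (act (ρ g) (g0 (av i))) (g0 (av i)) ∧
          Rel (av i) C (C / T) (C / T) (ρ g) (y.1 i) (z.1 i)) → N1 (w y) (g⁻¹ • w z)) →
        ∃ (L : Type) (_ : SemilatticeInf L) (_ : MulAction G L),
          Nonempty (TD G L Y N1 S0 k (Fintype.card ι * n)) := by
  classical
  obtain ⟨B, hB⟩ : ∃ B : Finset G, B = insert 1 S0 := ⟨_, rfl⟩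
  have hB1 : (1 : G) ∈ B := hB ▸ Finset.mem_insert_self _ _
  have hB0 : S0 ⊆ B := hB ▸ Finset.subset_insert _ _
  obtain ⟨S, hS⟩ : ∃ S : Finset (GL (Fin n) K), ∀ m ≤ k + 1, ∀ g ∈ B ^ m, ρ g ∈ S :=
    ⟨(B ^ (k + 1)).image ρ, fun m hm g hg =>
      Finset.mem_image_of_mem _ (Finset.pow_subset_pow_right hB1 hm hg)⟩
  obtain ⟨κ, h1, hκ⟩ := NmC_kappa ha S
  refine ⟨S, 2 * κ + 6, fun T' hT' => ?_⟩
  obtain ⟨T, rfl⟩ : ∃ T, T' = T + κ := ⟨T' - κ, by omega⟩
  intro Y _ N1 w hw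
  have hT : κ ≤ T := by omega
  have h1' : (1 : ℝ) ≤ κ := by exact_mod_cast h1
  have hT'' : (κ : ℝ) ≤ T := by exact_mod_cast hT
  obtain ⟨Q, hQd⟩ : ∃ Q, Q = T ^ (2 * T ^ 3) := ⟨_, rfl⟩
  have hTQ : T ≤ Q := hQd ▸ Nat.le_self_pow (by have : 0 < T := by omega
                                                positivity) _
  have hQ : 0 < Q := by omega
  have hQ' : (0 : ℝ) < Q := by exact_mod_cast hQ
  have hc : (0 : ℝ) ≤ 1 / Q := by positivity
  obtain ⟨n1, n2⟩ := NmC_num h1 hT hTQ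
  have n0 : (0 : ℝ) ≤ 1 / T := by positivity
  have n3 : (0 : ℝ) ≤ ((2 * κ + 6 : ℕ) : ℝ) := Nat.cast_nonneg _
  have n4 : (0 : ℝ) ≤ ((2 * κ + 6 : ℕ) : ℝ) / (T + κ : ℕ) := by positivity
  have n5 : 2 * (κ : ℝ) ≤ ((2 * κ + 6 : ℕ) : ℝ) := by
    push_cast
    linarith
  obtain ⟨D0, hD0⟩ : ∃ D0 : Set (NmC_L av ρ), ∀ a, a ∈ D0 ↔
      ∀ i, InX (av i) S T κ (a.1 i) ∧ Lv Q (a.1 i) := ⟨{a | _}, fun _ => Iff.rfl⟩
  obtain ⟨E, hE⟩ : ∃ E : Set (NmC_L av ρ), ∀ a, a ∈ E ↔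
      ∀ i, InP (av i) S T κ (a.1 i) ∧ Lv Q (a.1 i) := ⟨{a | _}, fun _ => Iff.rfl⟩
  obtain ⟨D, hD⟩ : ∃ D : ℕ → Set (NmC_L av ρ), ∀ m, D m =
      thl (NmC_s av ρ (1 / Q)) {a | ∃ g ∈ B ^ m, ∃ y ∈ D0, a = g • y} := ⟨_, fun _ => rfl⟩
  have lm : ∀ a ∈ E, ∀ b ∈ E, ∀ (i : ι) (m : ℤ), Lv Q (mt (av i) (m / Q) (a.1 i) (b.1 i)) :=
    fun a h b h' i m => lv_mt (ha i) hQ _ (ee_mem_Ph S _) (a.2 i) (b.2 i) ((hE a).1 h i).1.top
      ((hE b).1 h' i).1.top ((hE a).1 h i).2 ((hE b).1 h' i).2 m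
  have tE : TC (NmC_s av ρ (1 / Q)) E := fun a h b h' => by
    refine ⟨(hE _).2 fun i => ⟨((hE a).1 h i).1.mt (ha i) ((hE b).1 h' i).1 le_rfl, ?_⟩,
      (hE _).2 fun i => ?_⟩
    · have := lm a h b h' i 0
      rwa [Int.cast_zero, zero_div] at this
    · rw [NmC_inf_s]
      refine ⟨((hE a).1 h i).1.mt (ha i) ((hE b).1 h' i).1 hc, ?_⟩
      have := lm a h b h' i 1
      rwa [Int.cast_one] at this
  have DE : D k ⊆ E := by
    rw [hD]
    refine thl_min tE ?_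
    rintro _ ⟨g, hg, y, hy, rfl⟩
    have := hS k (by omega) g hg
    exact (hE _).2 fun i =>
      ⟨((hD0 y).1 hy i).1.inP this (hκ i _ this), ((hD0 y).1 hy i).2.act _⟩
  have D0D : D0 ⊆ D 0 := fun y hy => by
    rw [hD]
    exact subset_thl _ ⟨1, by simp, y, hy, (one_smul G y).symm⟩
  have fE : E.Finite := by
    refine ((Set.Finite.pi' fun i => finite_lv (a := av i) (S := S) (T := T) (κ := κ) hQ).preimage
      (f := fun a : NmC_L av ρ => a.1) Subtype.val_injective.injOn).subset fun a h => ?_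
    exact (hE a).1 h
  choose v hv using fun i => exists_vol (n := n) (ha i) hQ
  have hv' : ∀ a ∈ D k, ∀ b ∈ D k, ∀ i,
      (Le 0 (a.1 i) (b.1 i) → v i (a.1 i) ≤ v i (b.1 i) ∧
        (a.1 i ≠ b.1 i → v i (a.1 i) < v i (b.1 i))) ∧
      (Le (1 / Q) (b.1 i) (a.1 i) → v i (b.1 i) ≤ v i (a.1 i) + n) := fun a h b h' i =>
    hv i _ _ (((hE a).1 (DE h) i).1.diag (ha i)) (((hE b).1 (DE h') i).1.diag (ha i))
      ((hE a).1 (DE h) i).2 ((hE b).1 (DE h') i).2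
  have hp : ∀ a : NmC_L av ρ, ∃ z : NmC_L av ρ, a ∈ E → z ∈ D0 ∧
      ∀ i, Nr (1 / Q + 1 / T) (z.1 i) (geo (av i) (g0 (av i)) (a.1 i) (1 - κ / T)) := fun a => by
    by_cases h : a ∈ E
    · choose z hz hz' using fun i => ((hE a).1 h i).1.pull (ha i) h1' hT''
      choose u hu hu' hu'' using fun i => (hz i).round (ha i) h1 hT
      rw [← hQd] at hu' hu''
      exact ⟨⟨u, fun i => (hu i).sn⟩, fun _ =>
        ⟨(hD0 _).2 fun i => ⟨hu i, hu' i⟩, fun i => (hu'' i).trans (hz' i)⟩⟩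
    · exact ⟨a, fun h' => absurd h' h⟩
  choose p hp using hp
  have hu : ∀ a : NmC_L av ρ, ∃ u : XX av S (T + κ) 0, a ∈ E → u.1 = a.1 := fun a => by
    by_cases h : a ∈ E
    · exact ⟨⟨a.1, fun i => ((hE a).1 h i).1.inX (ha i) h1⟩, fun _ => rfl⟩
    · exact ⟨⟨fun i => g0 (av i), fun i => g0_mem (ha i) (Nat.cast_nonneg _)⟩,
        fun h' => absurd h' h⟩
  choose u hu using hu
  refine ⟨NmC_L av ρ, inferInstance, inferInstance, ⟨{
    s := NmC_s av ρ (1 / Q)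
    D := D
    p := p
    v := fun a => ∑ i, v i (a.1 i)
    R := fun a z => ∀ i, Rel (av i) (2 * κ + 6 : ℕ) ((2 * κ + 6 : ℕ) / (T + κ : ℕ))
      ((2 * κ + 6 : ℕ) / (T + κ : ℕ)) 1 (a.1 i) (z.1 i)
    y := fun a => w (u a)
    le_s := fun a i x => le_mul_of_one_le_left ((a.2 i).nn x) (one_le_exp hc)
    smul_le := NmC_smul_le
    fin := fE.subset DE
    mono := fun m m' h => ?_
    ne := ⟨⟨fun i => g0 (av i), fun i => dg_isSn (ha i) _ _⟩,
      D0D ((hD0 _).2 fun i => ⟨g0_mem (ha i) hT'', lv_g0 (ha i) hQ⟩)⟩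
    tc := fun m => by rw [hD]; exact thl_tc _
    smul_s := fun g a => rfl
    act := fun m _ g hg a h => ?_
    arch := fun a h b h' => ⟨2 * (T + κ) * Q, fun i x => ?_⟩
    v_lt := fun a h b h' hl => ?_
    v_le := fun a h b h' hl => ?_
    p_mem := fun a h => D0D (hp a (DE h)).1
    R_tc := fun a _ z h z' h' => ⟨fun i => (h i).mt (ha i) (z.2 i).nn (z'.2 i).nn (h' i) le_rfl,
      fun i => ?_⟩
    R_adj := fun a h z h' l1 l2 => ⟨fun i => ?_, fun i => ?_⟩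
    y_R := fun a h z h' hr => ?_
    y_act := fun g hg a h z h' l1 l2 => hw g _ _ fun i => ⟨?_, ?_⟩ }⟩⟩
  · rw [hD, hD]
    refine thl_mono ?_
    rintro _ ⟨g, hg, y, hy, rfl⟩
    exact ⟨g, Finset.pow_subset_pow_right hB1 h hg, y, hy, rfl⟩
  · rw [hD] at h ⊢
    refine thl_min (Z := {a | g • a ∈ thl (NmC_s av ρ (1 / Q))
      {a | ∃ g ∈ B ^ (m + 1), ∃ y ∈ D0, a = g • y}}) (fun a h b h' => ⟨?_, ?_⟩) ?_ h
    · rw [Set.mem_setOf_eq, NmC_smul_inf]
      exact (thl_tc _ _ h _ h').1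
    · rw [Set.mem_setOf_eq, NmC_smul_inf]
      exact (thl_tc _ _ h _ h').2
    · rintro _ ⟨g', hg', y, hy, rfl⟩
      refine subset_thl _ ⟨g * g', ?_, y, hy, (mul_smul g g' y).symm⟩
      rw [pow_succ']
      exact Finset.mul_mem_mul (hB0 hg) hg'
  · rw [NmC_iter]
    have e : ((2 * (T + κ) * Q : ℕ) : ℝ) * (1 / Q) = 2 * (T + κ) := by
      push_cast
      field_simp
    rw [e]
    exact ((hE a).1 (DE h) i).1.nr ((hE b).1 (DE h') i).1 x
  · obtain ⟨i, hi⟩ : ∃ i, a.1 i ≠ b.1 i := by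
      by_contra h0
      exact hl.ne (Subtype.ext (funext fun i => not_not.1 fun h2 => h0 ⟨i, h2⟩))
    exact Finset.sum_lt_sum (fun j _ => ((hv' a h b h' j).1 (NmC_le0.2 (hl.le j))).1)
      ⟨i, Finset.mem_univ i, ((hv' a h b h' i).1 (NmC_le0.2 (hl.le i))).2 hi⟩
  · refine (Finset.sum_le_sum fun j _ => (hv' a h b h' j).2 (hl j)).trans (le_of_eq ?_)
    rw [Finset.sum_add_distrib, Finset.sum_const, Finset.card_univ, nsmul_eq_mul]
    push_cast
    rfl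
  · rw [NmC_inf_s]
    exact (h i).mt (ha i) (z.2 i).nn (z'.2 i).nn (h' i) hc
  · exact (rel_of_nr (a := av i) (δ := 1 / Q) ⟨l1 i, l2 i⟩).mono (z.2 i).nn n3 n4 (by linarith)
  · exact (((hE a).1 (DE h) i).1.rel (ha i) h1' hT'' (z.2 i).nn hc ⟨l1 i, l2 i⟩
      ((hp z (DE h')).2 i)).mono ((p z).2 i).nn n5 n1 n2
  · have := hw 1 (u a) (u z) fun i => ⟨?_, ?_⟩
    · rwa [inv_one, one_smul] at this
    · rw [map_one, act_one]
      exact Nr.rfl.mono (fun _ => dg_nonneg _ _ _) (fun _ => dg_nonneg _ _ _) n3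
    · rw [map_one, hu a (DE h), hu z (DE h')]
      exact hr i
  · exact (hκ i _ (hS 1 (by omega) g (by rw [pow_one]; exact hB0 hg))).mono
      (fun _ => dg_nonneg _ _ _) (fun _ => dg_nonneg _ _ _) (by linarith)
  · rw [hu a (DE h), hu z (DE h')]
    exact (rel_act (a := av i) (δ := 1 / Q) ⟨l1 i, l2 i⟩).mono (z.2 i).nn n3 n4 (by linarith)

end Pool.Agent.Work.MP_9d1ffa_al.GN
end

-- merged part: Pool.Agent.Work.MP_9d1ffa_al.Sq.Wr
section
/-! Transfer data with weights: linear groups, wreath products, change of groups. -/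

namespace Pool.Agent.Work.MP_9d1ffa_al.Sq

open GN
open G2 (Pl)

/-- weight functions -/
def Wf (Ω : Type) : Type := Ω → ℝ

instance {G Ω : Type} [Group G] [MulAction G Ω] : MulAction G (Wf Ω) where
  smul g w := fun ω => w (g⁻¹ • ω)
  one_smul w := funext fun ω => congrArg w (by rw [inv_one, one_smul])
  mul_smul g h w := funext fun ω => congrArg w (by rw [mul_inv_rev, mul_smul])

/-- uniformly close weights -/
def Nw {Ω : Type} (η : ℝ) (w w' : Wf Ω) : Prop := ∀ ω, |w' ω - w ω| ≤ η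

/-- at most `N` atoms, all of them good, one of them large -/
structure GW {Ω : Type} (Good : Ω → Prop) (N : ℕ) (w : Wf Ω) : Prop where
  fin : (Function.support w).Finite
  card : (Function.support w).ncard ≤ N
  big : ∃ ω, 1 / 4 ≤ w ω
  nn : ∀ ω, 0 ≤ w ω
  good : ∀ ω, w ω ≠ 0 → Good ω

/-- transfer data of dimension `d` with weights that have at most `N` atoms, with stabilisers
inside members of `F` -/
def TW (G : Type) [Group G] (F : Set (Subgroup G)) (d N : ℕ) : Prop :=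
  ∀ (S : Finset G) (k : ℕ) (η : ℝ), 0 < η → ∃ (Ω L : Type) (_ : MulAction G Ω)
    (_ : SemilatticeInf L) (_ : MulAction G L) (Good : Ω → Prop)
    (t : TD G L (Wf Ω) (Nw η) S k d), (∀ (g : G) ω, Good ω → Good (g • ω)) ∧
      (∀ ω, Good ω → ∃ H ∈ F, MulAction.stabilizer G ω ≤ H) ∧ ∀ a, GW Good N (t.y a)

theorem tw_linear {F G : Type} [Field F] [Group G] {n : ℕ} {ι : Type} [Fintype ι]
    {av : ι → AbsoluteValue F ℝ} (ha : ∀ i, Pl (av i)) {A : Subring F} (hL : GN.Low av A)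
    (ψ : G →* GL (Fin n) F) (hd : ∀ g, (ψ g).1.det = 1) (hA : ∀ g p q, (ψ g).1 p q ∈ A) :
    TW G (Fam av ψ) (Fintype.card ι * n) ((8 * n) ^ (Fintype.card ι * n)) := by
  intro S₀ k η hη
  obtain ⟨S, C, h⟩ := exists_td ha ψ S₀ k
  obtain ⟨T, hT, Ω, _, B, W, w1, w2, -, w4, w5, w6, w7, w8⟩ := exists_wts ha hL ψ hd hA S 0 C hη
  let Y : SubMulAction G (Wf Ω) := ⟨{w | GW (fun ω => MulAction.stabilizer G ω ∈ Fam av ψ)
    ((8 * n) ^ (Fintype.card ι * n)) w}, fun g w hw => by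
      have e : Function.support (g • w : Wf Ω) = (g • ·) '' Function.support w :=
        Set.ext fun ω => ⟨fun k => ⟨_, k, smul_inv_smul g ω⟩, by
          rintro ⟨ω, k, rfl⟩
          change w (g⁻¹ • g • ω) ≠ 0
          rwa [inv_smul_smul]⟩
      refine ⟨e ▸ hw.fin.image _, e ▸ (Set.ncard_image_le hw.fin).trans hw.card,
        hw.big.elim fun ω k => ⟨g • ω, ?_⟩, fun ω => hw.nn _, fun ω k => ?_⟩
      · change _ ≤ w (g⁻¹ • g • ω)
        rwa [inv_smul_smul]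
      · rw [← smul_inv_smul g ω, MulAction.stabilizer_smul_eq_stabilizer_map_conj]
        exact Fam_conj (hw.good _ k) g⟩
  obtain ⟨L, _, _, ⟨t⟩⟩ := h T hT Y (fun w w' => Nw η w.1 w'.1)
    (fun x => ⟨W x, w1.subset fun ω => w5 x ω, w6 x, w7 x, w4 x, fun ω k => w2 ω (w5 x ω k)⟩)
    fun g y z k ω => by
      have := w8 g y z k ω
      rwa [← inv_inv g] at this
  refine ⟨Ω, L, inferInstance, inferInstance, inferInstance, _,
    { t with y := fun a => (t.y a).1, y_R := t.y_R, y_act := t.y_act }, fun g ω k => ?_,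
    fun ω k => ⟨_, k, le_rfl⟩, fun a => (t.y a).2⟩
  rw [MulAction.stabilizer_smul_eq_stabilizer_map_conj]
  exact Fam_conj k g

theorem TW.comap {G K : Type} [Group G] [Group K] {F : Set (Subgroup G)} {d N : ℕ}
    (h : TW G F d N) (θ : K →* G) : TW K ((fun H => H.comap θ) '' F) d N := by
  classical
  intro S k η hη
  obtain ⟨Ω, L, _, _, _, Good, t, h1, h2, h3⟩ := h (S.image θ) k η hη
  let _ : MulAction K Ω := MulAction.compHom Ω θ
  let _ : MulAction K L := MulAction.compHom L θ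
  refine ⟨Ω, L, inferInstance, inferInstance, inferInstance, Good,
    { t with
      smul_le := fun g => t.smul_le (θ g)
      smul_s := fun g => t.smul_s (θ g)
      act := fun m hm g hg => t.act m hm _ (Finset.mem_image_of_mem θ hg)
      y_act := fun g hg a ha z hz l1 l2 ω => ?_ }, fun g => h1 (θ g),
    fun ω k => (h2 ω k).elim fun H e => ⟨_, ⟨H, e.1, rfl⟩, fun g hg => e.2 hg⟩, h3⟩
  have := t.y_act _ (Finset.mem_image_of_mem θ hg) a ha z hz l1 l2 ω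
  change |t.y z (θ g⁻¹⁻¹ • ω) - _| ≤ η
  rw [inv_inv]
  change |t.y z ((θ g)⁻¹⁻¹ • ω) - _| ≤ η at this
  rwa [inv_inv] at this

/-- tuples -/
def Tu (Q L : Type) : Type := Q → L

variable {D Q : Type} [Group D] [Group Q]

instance {L : Type} [MulAction D L] : MulAction (D ≀ᵣ Q) (Tu Q L) where
  smul g a := fun q => g.left q • a (g.right⁻¹ * q)
  one_smul a := funext fun q => by
    change (1 : D) • a (1⁻¹ * q) = a q
    rw [one_smul, inv_one, one_mul]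
  mul_smul g h a := funext fun q => by
    change (g.left q * h.left (g.right⁻¹ * q)) • a ((g.right * h.right)⁻¹ * q) =
      g.left q • h.left (g.right⁻¹ * q) • a (h.right⁻¹ * (g.right⁻¹ * q))
    rw [mul_smul, mul_inv_rev, mul_assoc]

instance {L : Type} [SemilatticeInf L] : SemilatticeInf (Tu Q L) :=
  inferInstanceAs (SemilatticeInf (Q → L))

theorem abs_inf_le {ι : Type} [Finite ι] [Nonempty ι] {u v : ι → ℝ} {η : ℝ}
    (h : ∀ i, |u i - v i| ≤ η) : |(⨅ i, u i) - ⨅ i, v i| ≤ η := by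
  obtain ⟨i, hi⟩ := exists_eq_ciInf_of_finite (f := u)
  obtain ⟨j, hj⟩ := exists_eq_ciInf_of_finite (f := v)
  have h1 := ciInf_le (Set.finite_range u).bddBelow j
  have h2 := ciInf_le (Set.finite_range v).bddBelow i
  have h3 := abs_le.1 (h i)
  have h4 := abs_le.1 (h j)
  rw [abs_le]
  constructor <;> linarith [h3.1, h4.2]

theorem iter_mono {L : Type} [SemilatticeInf L] {s : L ≃o L} (hs : ∀ a, a ≤ s a) (b : L) :
    Monotone fun c => s^[c] b :=
  monotone_nat_of_le_succ fun c => by rw [Function.iterate_succ_apply']; exact hs _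

theorem TW.wreath [Fintype Q] {F : Set (Subgroup D)} {d N : ℕ} (h : TW D F d N) :
    TW (D ≀ᵣ Q) {H | ∀ q, ∃ H' ∈ F, ∀ g ∈ H, g.right = 1 → g.left q ∈ H'} (Fintype.card Q * d)
      (N ^ Fintype.card Q) := by
  classical
  intro S k η hη
  obtain ⟨Ω, L, _, _, _, Good, t, h1, h2, h3⟩ :=
    h ((S ×ˢ Finset.univ).image fun p : (D ≀ᵣ Q) × Q => p.1.left p.2) k η hη
  have hS : ∀ g ∈ S, ∀ q, g.left q ∈ (S ×ˢ Finset.univ).image fun p : (D ≀ᵣ Q) × Q => p.1.left p.2 :=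
    fun g hg q => Finset.mem_image.2 ⟨(g, q), Finset.mem_product.2 ⟨hg, Finset.mem_univ _⟩, rfl⟩
  let s : Tu Q L ≃o Tu Q L := ⟨Equiv.piCongrRight fun _ => t.s.toEquiv,
    forall_congr' fun _ => t.s.map_rel_iff⟩
  have it : ∀ c (b : Tu Q L) q, s^[c] b q = t.s^[c] (b q) := fun c b q => by
    induction c with
    | zero => rfl
    | succ c ih =>
      rw [Function.iterate_succ_apply', Function.iterate_succ_apply', ← ih]
      rfl
  refine ⟨Tu Q Ω, Tu Q L, inferInstance, inferInstance, inferInstance, fun ω => ∀ q, Good (ω q),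
    { s := s
      D := fun m => {a | ∀ q, a q ∈ t.D m}
      p := fun a q => t.p (a q)
      v := fun a => ∑ q, t.v (a q)
      R := fun a z => ∀ q, t.R (a q) (z q)
      y := fun a ω => ⨅ q, t.y (a q) (ω q)
      le_s := fun a q => t.le_s _
      smul_le := fun g a b e q => t.smul_le _ _ _ (e _)
      fin := Set.Finite.pi' fun _ => t.fin
      mono := fun m m' e a ha q => t.mono e (ha q)
      ne := t.ne.elim fun a ha => ⟨fun _ => a, fun _ => ha⟩
      tc := fun m a ha b hb => ⟨fun q => (t.tc m _ (ha q) _ (hb q)).1,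
        fun q => (t.tc m _ (ha q) _ (hb q)).2⟩
      smul_s := fun g a => funext fun q => t.smul_s _ _
      act := fun m hm g hg a ha q => t.act m hm _ (hS g hg q) _ (ha _)
      arch := fun a ha b hb => ?_
      v_lt := fun a ha b hb e => ?_
      v_le := fun a ha b hb e => ?_
      p_mem := fun a ha q => t.p_mem _ (ha q)
      R_tc := fun a ha z hz z' hz' => ⟨fun q => (t.R_tc _ (ha q) _ (hz q) _ (hz' q)).1,
        fun q => (t.R_tc _ (ha q) _ (hz q) _ (hz' q)).2⟩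
      R_adj := fun a ha z hz l1 l2 => ⟨fun q => (t.R_adj _ (ha q) _ (hz q) (l1 q) (l2 q)).1,
        fun q => (t.R_adj _ (ha q) _ (hz q) (l1 q) (l2 q)).2⟩
      y_R := fun a ha z hz e ω => abs_inf_le fun q => t.y_R _ (ha q) _ (hz q) (e q) _
      y_act := fun g hg a ha z hz l1 l2 ω => ?_ },
    fun g ω e q => h1 _ _ (e _), fun ω e => ⟨_, fun q => (h2 _ (e q)).imp fun H k =>
      ⟨k.1, fun g hg r => k.2 (by
        have : g.left q • ω (g.right⁻¹ * q) = ω q := congrFun hg q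
        rwa [r, inv_one, one_mul] at this)⟩, le_rfl⟩, fun a => ?_⟩
  · choose c hc using fun q => t.arch _ (ha q) _ (hb q)
    refine ⟨∑ q, c q, fun q => (hc q).trans ?_⟩
    rw [it]
    exact iter_mono t.le_s _ (Finset.single_le_sum (fun _ _ => Nat.zero_le _) (Finset.mem_univ q))
  · obtain ⟨l, q, hq⟩ := Pi.lt_def.1 e
    exact Finset.sum_lt_sum (fun j _ => (l j).eq_or_lt.elim (fun c => by rw [c])
      fun c => (t.v_lt _ (ha j) _ (hb j) c).le) ⟨q, Finset.mem_univ q, t.v_lt _ (ha q) _ (hb q) hq⟩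
  · refine (Finset.sum_le_sum fun j _ => t.v_le _ (ha j) _ (hb j) (e j)).trans (le_of_eq ?_)
    rw [Finset.sum_add_distrib, Finset.sum_const, Finset.card_univ, nsmul_eq_mul]
    push_cast
    rfl
  · change |(⨅ q, t.y (z q) ((g⁻¹⁻¹ • ω) q)) - ⨅ q, t.y (a q) (ω q)| ≤ η
    rw [inv_inv, ← (Equiv.mulLeft g.right⁻¹).iInf_comp (g := fun q => t.y (a q) (ω q))]
    refine abs_inf_le fun q => ?_
    have := t.y_act _ (hS g hg q) _ (ha _) _ (hz q) (l1 q) (l2 q) (ω (g.right⁻¹ * q))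
    change |t.y (z q) ((g.left q)⁻¹⁻¹ • _) - _| ≤ η at this
    rwa [inv_inv] at this
  · have ne : ∀ ω : Tu Q Ω, (⨅ q, t.y (a q) (ω q)) ≠ 0 → ∀ q, t.y (a q) (ω q) ≠ 0 :=
      fun ω e q c => e (le_antisymm (c ▸ ciInf_le (Set.finite_range _).bddBelow q)
        (le_ciInf fun q => (h3 _).nn _))
    have sub : (Function.support fun ω : Q → Ω => ⨅ q, t.y (a q) (ω q)) ⊆
        ((Fintype.piFinset fun q => (h3 (a q)).fin.toFinset : Finset (Q → Ω)) : Set (Q → Ω)) :=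
      fun ω e =>
      Finset.mem_coe.2 (Fintype.mem_piFinset.2 fun q => (Set.Finite.mem_toFinset _).2 (ne ω e q))
    refine ⟨(Finset.finite_toSet _).subset sub, (Set.ncard_le_ncard sub).trans ?_, ?_,
      fun ω => le_ciInf fun q => (h3 _).nn _, fun ω e q => (h3 _).good _ (ne ω e q)⟩
    · rw [Set.ncard_coe_finset, Fintype.card_piFinset]
      refine Finset.prod_le_pow_card _ _ _ fun q _ => ?_
      rw [← Set.ncard_eq_toFinset_card _ (h3 (a q)).fin]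
      exact (h3 _).card
    · choose ω hω using fun q => (h3 (a q)).big
      exact ⟨ω, le_ciInf hω⟩

end Pool.Agent.Work.MP_9d1ffa_al.Sq
end

-- merged part: Pool.Agent.Work.MP_9d1ffa_al.WL.BT
section
/-! Chain level transfer data from order theoretic data with weights. -/

namespace Pool.Agent.Work.MP_9d1ffa_al.WL

open Finsupp Sq

section

variable {L : Type} [SemilatticeInf L]

open Classical Pointwise in
/-- The cells are the short chains, with the pointwise action on finite sets. -/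
theorem td_ct {K Y : Type} [Group K] [MulAction K L] [MulAction K Y] {N1 : Y → Y → Prop}
    {S : Finset K} {k N : ℕ} (t : TD K L Y N1 S k N) :
    ∃ (W : Type) (_ : MulAction K W) (c : CT K W Y N1 S k (N + 1)),
      (∀ x ∈ c.D k, 1 ≤ c.dm x) ∧ ∀ x, ∃ a, c.y x = t.y a := by
  obtain ⟨b, hb⟩ := t.ne
  have m0 : ∀ m, t.D 0 ⊆ t.D m := fun m => t.mono (Nat.zero_le m)
  obtain ⟨P, H, -, H0, hH⟩ := carrier t.le_s (t.tc k) t.fin t.arch
    (fun a ha => m0 k (t.p_mem a ha))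
  obtain ⟨c, hc⟩ := contraction t.le_s (t.tc k) t.fin t.arch (m0 k hb)
  obtain ⟨a, ha⟩ : ∃ a : Finset L → L, ∀ σ : Finset L, σ.Nonempty → a σ ∈ σ :=
    ⟨fun σ => if h : σ.Nonempty then h.choose else b, fun σ h => by
      simp only [dif_pos h]
      exact h.choose_spec⟩
  have p0 : ∀ σ : Finset L, (σ : Set L) ⊆ t.D k → t.p '' σ ⊆ t.D 0 := by
    rintro σ d _ ⟨x, hx, rfl⟩
    exact t.p_mem x (d hx)
  have adj : ∀ σ : Finset L, Cell t.s σ → σ.Nonempty → (σ : Set L) ⊆ t.D k → ∀ z ∈ σ,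
      t.R (a σ) z ∧ t.R (a σ) (t.p z) := fun σ h n d z hz =>
    t.R_adj _ (d (ha σ n)) z (d hz) (h _ (ha σ n) z hz).2 (h z hz _ (ha σ n)).2
  refine ⟨Finset L, Finset.mulActionFinset, {
    o := ∅
    dm := Finset.card
    D := fun m => {σ | Cell t.s σ ∧ σ.Nonempty ∧ (σ : Set L) ⊆ t.D m}
    bd := bdy
    H := H
    s := c
    y := fun σ => t.y (a σ)
    o_inv := fun g => Finset.smul_finset_empty g
    dm_o := Finset.card_empty
    o_nm := fun h => Finset.not_nonempty_empty h.2.1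
    dm_inv := fun g σ => Finset.card_smul_finset g σ
    dm_le := fun σ h => ChB_dm t.v_lt t.v_le h.1 h.2.1 h.2.2
    fin := (t.fin.toFinset.powerset.finite_toSet).subset fun σ h =>
      Finset.mem_coe.2 (Finset.mem_powerset.2 fun _ hx => t.fin.mem_toFinset.2 (h.2.2 hx))
    mono := fun _ _ l _ h => ⟨h.1, h.2.1, h.2.2.trans (t.mono l)⟩
    act := ?_
    bd_inv := ?_
    bd_dm := fun _ _ h => (ChB_face h).2
    bd_mem := ?_
    bd_bd := fun σ h => bdy_bdy fun x hx y hy => (h.1 x hx y hy).1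
    H_o := H0
    H_mem := ?_
    H_eq := ?_
    s_mem := ?_
    s_eq := ?_
    y_bd := ?_
    y_act := ?_ }, fun σ h => h.2.1.card_pos, fun σ => ⟨_, rfl⟩⟩
  · intro m hm g hg σ h
    refine ⟨fun x' hx' y' hy' => ?_, h.2.1.smul_finset, fun x' hx' => ?_⟩
    · obtain ⟨x, hx, rfl⟩ := Finset.mem_smul_finset.1 hx'
      obtain ⟨y, hy, rfl⟩ := Finset.mem_smul_finset.1 hy'
      refine ⟨(h.1 x hx y hy).1.imp (t.smul_le g _ _) (t.smul_le g _ _), ?_⟩
      rw [← t.smul_s]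
      exact t.smul_le g _ _ (h.1 x hx y hy).2
    · obtain ⟨x, hx, rfl⟩ := Finset.mem_smul_finset.1 (Finset.mem_coe.1 hx')
      exact t.act m hm g hg x (h.2.2 hx)
  · intro g σ τ
    exact bdy_map ⟨MulAction.toPerm g, fun {x y} => ⟨fun l => by
      have e := t.smul_le g⁻¹ _ _ l
      simpa using e, t.smul_le g x y⟩⟩ σ τ
  · intro m σ h τ hτ
    have f := (ChB_face hτ).1
    rcases τ.eq_empty_or_nonempty with e | n
    · exact Or.inr e
    · exact Or.inl ⟨h.1.subset f, n, (Finset.coe_subset.2 f).trans h.2.2⟩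
  · intro m hm σ h τ hτ
    have d : (σ : Set L) ⊆ t.D k := h.2.2.trans (t.mono hm)
    obtain ⟨u, w, e⟩ := mem_Cq.1 (hH σ h.1 d).2.1 τ hτ
    have n : τ.Nonempty := Finset.card_pos.1 (by omega)
    have w1 : (τ : Set L) ⊆ t.D m :=
      w.trans (thl_min (t.tc m) (Set.union_subset h.2.2 ((p0 σ d).trans (m0 m))))
    refine ⟨⟨u, n, w1⟩, e, t.y_R _ (d (ha σ h.2.1)) _ (t.mono hm (w1 (ha τ n))) ?_⟩
    refine thl_min (t.R_tc _ (d (ha σ h.2.1))) (Set.union_subset ?_ ?_) (w (ha τ n))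
    · exact fun z hz => (adj σ h.1 h.2.1 d z hz).1
    · rintro _ ⟨z, hz, rfl⟩
      exact (adj σ h.1 h.2.1 d z hz).2
  · intro σ h τ hτ
    obtain ⟨h1, -, -, h4⟩ := hH σ h.1 h.2.2
    rw [sub_sub, h4, sub_sub_cancel] at hτ
    obtain ⟨u, w, e⟩ := mem_Cq.1 h1 τ hτ
    exact ⟨u, Finset.card_pos.1 (e ▸ h.2.1.card_pos), w.trans (thl_min (t.tc 0) (p0 σ h.2.2))⟩
  · intro m hm σ h τ hτ
    have g : Cell t.s σ ∧ (σ : Set L) ⊆ t.D m := by
      rcases h with h | rfl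
      · exact ⟨h.1, h.2.2⟩
      · exact ⟨fun x hx => absurd hx (Finset.notMem_empty x), by simp⟩
    obtain ⟨u, w, e⟩ := mem_Cq.1 (hc σ g.1 (g.2.trans (t.mono hm))).1 τ hτ
    exact ⟨⟨u, Finset.card_pos.1 (by omega),
      w.trans (thl_min (t.tc m) (Set.insert_subset (m0 m hb) g.2))⟩, e⟩
  · intro σ h
    rcases h with h | rfl
    · exact (hc σ h.1 h.2.2).2
    · exact (hc ∅ (fun x hx => absurd hx (Finset.notMem_empty x)) (by simp)).2
  · intro σ h τ h' hτ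
    exact t.y_R _ (h.2.2 (ha σ h.2.1)) _ (h'.2.2 (ha τ h'.2.1))
      (adj σ h.1 h.2.1 h.2.2 _ ((ChB_face hτ).1 (ha τ h'.2.1))).1
  · intro g hg σ h h'
    have m1 : g • a σ ∈ g • σ := Finset.smul_mem_smul_finset (ha σ h.2.1)
    have m2 := ha _ h'.2.1
    exact t.y_act g hg _ (h.2.2 (ha σ h.2.1)) _ (h'.2.2 m2) (h'.1 _ m1 _ m2).2 (h'.1 _ m2 _ m1).2

end

variable {Q Ω W : Type} [Group Q] [MulAction Q Ω] [MulAction Q W]

theorem Cl.btr {a b : ℝ} {g h : Q} {μ ν ξ : Ω → ℝ} (h1 : Cl a h μ ν) (h2 : Cl b g ν ξ) :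
    Cl (a + b) (g * h) μ ξ := fun ω => by
  have k1 := h1 ω
  have k2 := h2 (h • ω)
  rw [mul_smul]
  rw [abs_le] at k1 k2 ⊢
  constructor <;> linarith [k1.1, k1.2, k2.1, k2.2]

theorem Cl.le {a b : ℝ} {g : Q} {μ ν : Ω → ℝ} (h : Cl a g μ ν) (e : a ≤ b) : Cl b g μ ν :=
  fun ω => (h ω).trans e

theorem cl_refl {a : ℝ} (ha : 0 ≤ a) (μ : Ω → ℝ) : Cl a (1 : Q) μ μ := fun ω => by
  rwa [one_smul, sub_self, abs_zero]

theorem Cl.min {a : ℝ} {g : Q} {μ ν : Ω → ℝ} (h : Cl a g μ ν) :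
    Cl a g (fun ω => min (μ ω) 1) fun ω => min (ν ω) 1 := fun ω =>
  (abs_min_sub_min_le_max _ _ _ _).trans (by
    rw [sub_self, abs_zero]
    exact max_le (h ω) ((abs_nonneg _).trans (h ω)))

/-- the image of a basis element under `T` lies on cells related by `R` -/
def BSp (T : (W →₀ ℤ) →ₗ[ℤ] (W →₀ ℤ)) (A : W → Prop) (R : W → W → Prop) : Prop :=
  ∀ c, A c → ∀ c', T (single c 1) c' ≠ 0 → R c c'

theorem blin_ne (T : (W →₀ ℤ) →ₗ[ℤ] (W →₀ ℤ)) {z : W →₀ ℤ} {c' : W} (h : T z c' ≠ 0) :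
    ∃ c, z c ≠ 0 ∧ T (single c 1) c' ≠ 0 := by
  by_contra n
  refine h ?_
  rw [← z.sum_single, Finsupp.sum, map_sum, finsetSum_apply]
  refine Finset.sum_eq_zero fun c hc => ?_
  have : T (single c 1) c' = 0 := by_contra fun k => n ⟨c, mem_support_iff.1 hc, k⟩
  rw [← mul_one (z c), ← smul_eq_mul, ← smul_single, map_smul, Finsupp.smul_apply, this, smul_zero]

theorem BSp.comp {T T' : (W →₀ ℤ) →ₗ[ℤ] (W →₀ ℤ)} {A A' : W → Prop} {R R' U : W → W → Prop}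
    (h : BSp T A R) (h' : BSp T' A' R') (k : ∀ c c', A c → R c c' → A' c')
    (k' : ∀ c c' c'', A c → R c c' → R' c' c'' → U c c'') : BSp (T' ∘ₗ T) A U := fun c hc c'' e => by
  obtain ⟨c', e1, e2⟩ := blin_ne T' e
  exact k' _ _ _ hc (h c hc c' e1) (h' c' (k _ _ hc (h c hc c' e1)) c'' e2)

theorem lin_congr {T T' : (W →₀ ℤ) →ₗ[ℤ] (W →₀ ℤ)} {A : W → Prop}
    (h : ∀ c, A c → T (single c 1) = T' (single c 1)) {z : W →₀ ℤ} (hz : ∀ c, z c ≠ 0 → A c) :
    T z = T' z := by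
  refine sub_eq_zero.1 (Finsupp.ext fun c' => by_contra fun n => ?_)
  obtain ⟨c, e1, e2⟩ := blin_ne (T - T') n
  exact e2 (by rw [LinearMap.sub_apply, h c (hz c e1), sub_self, Finsupp.zero_apply])

theorem lx_single (φ : W → W →₀ ℤ) (c : W) : lx φ (single c 1) = φ c := by
  rw [linearCombination_single, one_smul]

theorem ct_ad {S : Finset Q} {d N : ℕ} {η : ℝ} (hη : 0 ≤ η) (c : CT Q W (Wf Ω) (Nw η) S 2 d)
    (hd : d ≤ N + 1) (h1 : ∀ x ∈ c.D 2, 1 ≤ c.dm x) :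
    Nonempty (AD S N (5 * η) (c.D 0) c.o fun x => c.y x) := by
  let d := lx c.bd
  let H := lx c.H
  let s := lx c.s
  let r := LinearMap.id - d ∘ₗ H - H ∘ₗ d
  let m : Q → (W →₀ ℤ) →ₗ[ℤ] (W →₀ ℤ) := fun g => lmapDomain ℤ ℤ (g • ·)
  have m02 : c.D 0 ⊆ c.D 2 := c.mono (by omega)
  have m12 : c.D 1 ⊆ c.D 2 := c.mono (by omega)
  have ms : ∀ g x, m g (single x 1) = single (g • x) 1 := fun g x => mapDomain_single
  have d0 : d (single c.o 1) = 0 := by
    rw [lx_single]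
    exact Finsupp.ext fun x => by_contra fun n => by
      have := c.bd_dm _ _ n
      rw [c.dm_o] at this
      omega
  have H0 : H (single c.o 1) = 0 := by rw [lx_single, c.H_o]
  have r0 : r (single c.o 1) = single c.o 1 := by
    simp only [r, LinearMap.sub_apply, LinearMap.comp_apply, d0, H0, map_zero, sub_zero,
      LinearMap.id_apply]
  have n1 : ∀ {x x'}, Nw η (c.y x) (c.y x') → Cl η (1 : Q) (c.y x) (c.y x') := fun h ω => by
    rw [one_smul]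
    exact h ω
  have sd : ∀ j ≤ 2, BSp d (· ∈ c.D j) fun x x' => c.dm x' + 1 = c.dm x ∧
      (x' = c.o ∨ x' ∈ c.D j ∧ Cl η (1 : Q) (c.y x) (c.y x')) := fun j hj x hx x' e => by
    rw [lx_single] at e
    exact ⟨c.bd_dm _ _ e, (c.bd_mem j x hx x' e).symm.imp_right fun k =>
      ⟨k, n1 (c.y_bd x (c.mono hj hx) x' (c.mono hj k) e)⟩⟩
  have sH : ∀ j ≤ 2, BSp H (fun x => x = c.o ∨ x ∈ c.D j) fun x x' => x ≠ c.o ∧ x' ∈ c.D j ∧
      c.dm x' = c.dm x + 1 ∧ Cl η (1 : Q) (c.y x) (c.y x') := fun j hj x hx x' e => by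
    have n : x ≠ c.o := fun k => e (by rw [k, H0, Finsupp.zero_apply])
    rw [lx_single] at e
    have := c.H_mem j hj x (hx.resolve_left n) x' e
    exact ⟨n, this.1, this.2.1, n1 this.2.2⟩
  have sm : ∀ j < 2, ∀ g ∈ S, BSp (m g) (· ∈ c.D j) fun x x' => x' ∈ c.D (j + 1) ∧
      c.dm x' = c.dm x ∧ Cl η g (c.y x) (c.y x') := fun j hj g hg x hx x' e => by
    rw [ms] at e
    obtain rfl : x' = g • x := (single_apply_ne_zero.1 e).1
    have k := c.act j hj g hg x hx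
    refine ⟨k, c.dm_inv g x, fun ω => ?_⟩
    have := c.y_act g hg x (c.mono hj.le hx) (c.mono hj k) ω
    change |c.y (g • x) (g⁻¹⁻¹ • ω) - _| ≤ η at this
    rwa [inv_inv] at this
  have sr : BSp r (· ∈ c.D 2) fun x x' => x' ∈ c.D 0 ∧ c.dm x' = c.dm x ∧
      Cl (η + η) (1 : Q) (c.y x) (c.y x') := fun x hx x' e => by
    have k : x' ∈ c.D 0 := c.H_eq x hx x' (by
      simpa only [r, LinearMap.sub_apply, LinearMap.comp_apply, LinearMap.id_apply, d, H,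
        lx_single] using e)
    have n : x' ≠ c.o := fun z => c.o_nm (z ▸ m02 k)
    refine ⟨k, ?_⟩
    by_cases e1 : (d ∘ₗ H) (single x 1) x' = 0
    · by_cases e2 : (H ∘ₗ d) (single x 1) x' = 0
      · simp only [r, LinearMap.sub_apply, Finsupp.sub_apply, e1, e2, sub_zero,
          LinearMap.id_apply] at e
        obtain rfl : x' = x := (single_apply_ne_zero.1 e).1
        exact ⟨rfl, cl_refl (add_nonneg hη hη) _⟩
      · exact (sd 2 le_rfl).comp (sH 2 le_rfl) (fun _ _ _ k => k.2.imp_right And.left)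
          (U := fun x x' => c.dm x' = c.dm x ∧ Cl (η + η) (1 : Q) (c.y x) (c.y x'))
          (fun _ _ _ _ a b => ⟨by omega, by
            simpa using (a.2.resolve_left b.1).2.btr b.2.2.2⟩) x hx x' e2
    · exact ((sH 2 le_rfl).comp (sd 2 le_rfl) (fun _ _ _ k => k.2.1)
        (U := fun x x' => x' ≠ c.o → c.dm x' = c.dm x ∧ Cl (η + η) (1 : Q) (c.y x) (c.y x'))
        (fun _ _ _ _ a b n => ⟨by omega, by
          simpa using a.2.2.2.btr (b.2.resolve_left n).2⟩) x (Or.inr hx) x' e1) n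
  have md : ∀ g z, d (m g z) = m g (d z) := fun g z =>
    lin_congr (T := d ∘ₗ m g) (T' := m g ∘ₗ d) (A := fun _ => True) (fun x _ => by
      rw [LinearMap.comp_apply, LinearMap.comp_apply, ms, lx_single, lx_single]
      refine Finsupp.ext fun x' => ?_
      rw [← smul_inv_smul g x', c.bd_inv]
      exact (mapDomain_apply (MulAction.injective g) _ _).symm) fun _ _ => trivial
  have mm : ∀ g h z, m (g * h) z = m g (m h z) := fun g h z => by
    change mapDomain _ z = mapDomain _ (mapDomain _ z)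
    rw [← mapDomain_comp]
    exact congrArg (mapDomain · z) (funext fun x => mul_smul g h x)
  have dd : ∀ z : W →₀ ℤ, (∀ x, z x ≠ 0 → x = c.o ∨ x ∈ c.D 2) → d (d z) = 0 := fun z hz =>
    lin_congr (T := d ∘ₗ d) (T' := 0) (by
      rintro x (rfl | hx)
      · rw [LinearMap.comp_apply, d0, map_zero, LinearMap.zero_apply]
      · rw [LinearMap.comp_apply, lx_single, LinearMap.zero_apply]
        exact c.bd_bd x hx) hz
  have mH : ∀ z : W →₀ ℤ, (∀ x, z x ≠ 0 → x = c.o ∨ x ∈ c.D 2) → ∀ x, H z x ≠ 0 →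
      x = c.o ∨ x ∈ c.D 2 := fun z hz x e => by
    obtain ⟨x', e1, e2⟩ := blin_ne H e
    exact Or.inr (sH 2 le_rfl x' (hz x' e1) x e2).2.1
  have rd : ∀ z : W →₀ ℤ, (∀ x, z x ≠ 0 → x = c.o ∨ x ∈ c.D 2) → d (r z) = r (d z) := fun z hz => by
    simp only [r, LinearMap.sub_apply, LinearMap.comp_apply, LinearMap.id_apply, map_sub,
      dd z hz, dd _ (mH z hz), map_zero, sub_zero]
  have sΦ : ∀ g ∈ S, ∀ j < 2, BSp (r ∘ₗ m g) (· ∈ c.D j) fun x x' => x' ∈ c.D 0 ∧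
      c.dm x' = c.dm x ∧ Cl (η + (η + η)) g (c.y x) (c.y x') := fun g hg j hj =>
    (sm j hj g hg).comp sr (fun _ _ _ k => c.mono hj k.1) fun _ _ _ _ a b =>
      ⟨b.1, b.2.1.trans a.2.1, by simpa using a.2.2.btr b.2.2⟩
  have sK : ∀ h ∈ S, BSp (H ∘ₗ m h) (· ∈ c.D 0) fun x x' => x' ∈ c.D 1 ∧
      c.dm x' = c.dm x + 1 ∧ Cl (η + η) h (c.y x) (c.y x') := fun h hh =>
    (sm 0 two_pos h hh).comp (sH 1 one_le_two) (fun _ _ _ k => Or.inr k.1) fun _ _ _ _ a b =>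
      ⟨b.2.1, by omega, by simpa using a.2.2.btr b.2.2.2⟩
  have dΦ : ∀ g ∈ S, ∀ z : W →₀ ℤ, (∀ x, z x ≠ 0 → x ∈ c.D 1) →
      d (r (m g z)) = r (m g (d z)) := fun g hg z hz => by
    rw [rd, md]
    intro x e
    obtain ⟨x', e1, e2⟩ := blin_ne (m g) e
    exact Or.inr (sm 1 one_lt_two g hg x' (hz x' e1) x e2).1
  have one : ∀ j, ∀ x ∈ c.D j, ∀ x', single x (1 : ℤ) x' ≠ 0 → x' ∈ c.D j := fun j x hx x' e =>
    (single_apply_ne_zero.1 e).1 ▸ hx
  refine ⟨{ dm := c.dm, d := d, Φ := fun g => r ∘ₗ m g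
            H := fun g h => -((r ∘ₗ m g) ∘ₗ (H ∘ₗ m h)), J := fun g => s ∘ₗ (r ∘ₗ m g)
            u := c.s c.o, o_nm := fun k => c.o_nm (m02 k), dm_o := c.dm_o
            dm_mem := fun x hx => ⟨h1 x (m02 hx), (c.dm_le x (m02 hx)).trans hd⟩
            d_o := d0, Φ_o := fun g _ => ?_, H_o := fun g _ h _ => ?_, J_o := fun g _ => ?_
            du := ?_, u_mem := fun x e => ?_, d_mem := fun x hx x' e => ?_
            Φ_mem := fun g hg x hx x' e => ?_, H_mem := fun g hg h hh x hx x' e => ?_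
            J_mem := fun g hg x hx x' e => ?_, dd := fun x hx => ?_
            dΦ := fun g hg x hx => dΦ g hg _ (one 1 x (c.mono zero_le_one hx))
            dH := fun g hg h hh x hx => ?_, dJ := fun g hg x hx => ?_ }⟩
  · rw [LinearMap.comp_apply, ms, c.o_inv, r0]
  · simp only [LinearMap.neg_apply, LinearMap.comp_apply, ms, c.o_inv, H0, map_zero, neg_zero]
  · rw [LinearMap.comp_apply, LinearMap.comp_apply, ms, c.o_inv, r0, lx_single]
  · have := c.s_eq c.o (Or.inr rfl)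
    rwa [← lx_single c.bd c.o, d0, map_zero, add_zero] at this
  · simpa only [c.dm_o] using c.s_mem 0 (Nat.zero_le _) c.o (Or.inr rfl) x e
  · have := sd 0 (Nat.zero_le _) x hx x' e
    exact ⟨this.1, this.2.imp_right fun k => ⟨k.1, k.2.le (by linarith)⟩⟩
  · have := sΦ g hg 0 two_pos x hx x' e
    exact ⟨this.1, this.2.1, this.2.2.le (by linarith)⟩
  · exact (sK h hh).comp (sΦ g hg 1 one_lt_two) (fun _ _ _ k => k.1)
      (U := fun x x' => x' ∈ c.D 0 ∧ c.dm x' = c.dm x + 1 ∧ Cl (5 * η) (g * h) (c.y x) (c.y x'))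
      (fun _ _ _ _ a b => ⟨b.1, by omega, (a.2.2.btr b.2.2).le (by linarith)⟩) x hx x'
      (neg_ne_zero.1 e)
  · exact (sΦ g hg 0 two_pos).comp (T' := s) (A' := (· ∈ c.D 0))
      (R' := fun x x' => x' ∈ c.D 0 ∧ c.dm x' = c.dm x + 1)
      (U := fun x x' => x' ∈ c.D 0 ∧ c.dm x' = c.dm x + 1)
      (fun x hx x' e => c.s_mem 0 (Nat.zero_le _) x (Or.inl hx) x' (by rwa [lx_single] at e))
      (fun _ _ _ k => k.1) (fun _ _ _ _ a b => ⟨b.1, by omega⟩) x hx x' e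
  · exact dd _ fun x' e => Or.inr (m02 (one 0 x hx x' e))
  · have k := dΦ g hg (H (m h (single x 1))) fun x' e => (sK h hh x hx x' e).1
    have e : ∀ z, r z = z - d (H z) - H (d z) := fun _ => rfl
    simp only [LinearMap.neg_apply, LinearMap.comp_apply, map_neg, k, mm, ← md]
    rw [e (m h (single x 1)), map_sub, map_sub, map_sub, map_sub, md g]
    abel
  · have k := dΦ g hg _ (one 1 x (c.mono zero_le_one hx))
    simp only [LinearMap.comp_apply, ← k]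
    refine lin_congr (T := d ∘ₗ s + s ∘ₗ d) (T' := LinearMap.id) (A := (· ∈ c.D 0))
      (fun x hx => ?_) fun x' e => (sΦ g hg 0 two_pos x hx x' e).1
    rw [LinearMap.add_apply, LinearMap.comp_apply, LinearMap.comp_apply, lx_single, lx_single]
    exact c.s_eq x (Or.inl (m02 hx))

omit [MulAction Q W] in
theorem AD.min {S : Finset Q} {N : ℕ} {ε : ℝ} {D : Set W} {o : W} {p : W → Ω → ℝ}
    (A : AD S N ε D o p) : Nonempty (AD S N ε D o fun x ω => min (p x ω) 1) :=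
  ⟨{ A with
      d_mem := fun c hc c' e => ⟨(A.d_mem c hc c' e).1,
        (A.d_mem c hc c' e).2.imp_right fun k => ⟨k.1, k.2.min⟩⟩
      Φ_mem := fun g hg c hc c' e =>
        let k := A.Φ_mem g hg c hc c' e
        ⟨k.1, k.2.1, k.2.2.min⟩
      H_mem := fun g hg h hh c hc c' e =>
        let k := A.H_mem g hg h hh c hc c' e
        ⟨k.1, k.2.1, k.2.2.min⟩ }⟩

theorem cdat_of_tw {F : Set (Subgroup Q)} {d N : ℕ} (h : TW Q F d N) {Good : Subgroup Q → Prop}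
    (hG : ∀ (H : Subgroup Q) (H₀ : Subgroup H), H₀.FiniteIndex → ∀ H' ∈ F,
      (∀ g ∈ H₀, (g : Q) ∈ H') → Good H) : CDat Q Good := by
  classical
  refine ⟨d + N + 3, fun S ε hε => ?_⟩
  obtain ⟨Ω, L, _, _, _, Gd, t, -, h2, h3⟩ := h S 2 (ε / 5) (by positivity)
  obtain ⟨W, _, c, c1, c2⟩ := td_ct t
  obtain ⟨A⟩ := ct_ad (N := d + N + 3) (by positivity) c (by omega) c1
  obtain ⟨A⟩ := A.min
  have := (c.fin.subset (c.mono (Nat.zero_le 2))).fintype
  rw [show 5 * (ε / 5) = ε by ring] at A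
  refine ⟨Ω, inferInstance, c.D 0, inferInstance, inferInstance, _, A.cd, fun b => ?_⟩
  obtain ⟨a, ha⟩ := c2 b
  have k := h3 a
  rw [← ha] at k
  have hs : (Function.support fun ω => min (c.y b ω) 1) ⊆ Function.support (c.y b) :=
    fun ω e z => e (by
      change min (c.y b ω) 1 = 0
      rw [z, min_eq_left zero_le_one])
  refine ⟨fun ω => ⟨le_min (k.nn ω) zero_le_one, min_le_right _ _⟩, k.big.imp fun ω e => ?_,
    (Set.encard_le_encard hs).trans ?_, fun σ H ⟨ω, hω⟩ h4 h5 => ?_⟩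
  · have h6 : (1 / 4 : ℝ) ≤ min (c.y b ω) 1 := le_min e (by norm_num)
    have h7 : (4 : ℝ) ≤ ((d + N + 3 : ℕ) : ℝ) + 1 := by
      push_cast
      linarith [Nat.cast_nonneg (α := ℝ) d, Nat.cast_nonneg (α := ℝ) N]
    nlinarith
  · rw [← k.fin.cast_ncard_eq]
    exact_mod_cast k.card.trans (by omega)
  · obtain ⟨H', e1, e2⟩ := h2 ω (k.good ω (hs (h4 hω)))
    refine hG H (MulAction.stabilizer H ω) ⟨?_⟩ H' e1 fun g hg => e2 hg
    rw [MulAction.index_stabilizer]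
    refine ((Set.ncard_pos (k.fin.subset ?_)).2 (MulAction.nonempty_orbit ω)).ne'
    rintro _ ⟨g, rfl⟩
    exact hs (h4 (h5 g g.2 ω hω))

theorem cdw_of_tw {F : Set (Subgroup Q)} {d N : ℕ} (h : TW Q F d N) : CDW Q (· ∈ F) := by
  intro E _ _
  have := Fintype.ofFinite E
  exact cdat_of_tw h.wreath fun H H₀ h0 H' e1 e2 => ⟨H₀, h0, fun q => (e1 q).imp fun _ k =>
    ⟨k.1, fun g hg => k.2 g (e2 g hg)⟩⟩

end Pool.Agent.Work.MP_9d1ffa_al.WL
end
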