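import Pool.Agent.Work.MP_9d1ffa_al.GN.AlE
import Pool.Agent.Work.MP_9d1ffa_al.Sq.Fl
import Pool.Agent.Work.MP_9d1ffa_al.WL.Cm
import Pool.Agent.Work.MP_9d1ffa_al.WL.BT

/-! A class closed under the rules contains the linear groups. -/

namespace Pool.Agent.Work.MP_9d1ffa_al.WL

open GN Matrix IntermediateField

variable {P : (G : Type) → [Group G] → Prop} {c n : ℕ}

theorem Closed2.inj (hP : Closed2 c P) (G H : Type) [Group G] [Group H] (φ : G →* H)
    (hφ : Function.Injective φ) (h : P H) : P G := by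
  have : ∀ a ∈ φ.ker, a = 1 := fun a ha => hφ (by rw [map_one]; exact ha)
  exact hP.ker G H φ h (fun a ha b hb => by rw [this a ha, this b hb]) fun a ha => by
    rw [this a ha, one_pow]

theorem Closed2.finite (hP : Closed2 c P) (G : Type) [Group G] [Finite G] : P G :=
  hP.base G sc_finite

theorem Closed2.of_rep (hP : Closed2 c P) {k W G : Type} [Field k] [AddCommGroup W] [Module k W]
    [FiniteDimensional k W] [Group G] (h : P (GL (Fin (Module.finrank k W)) k))
    (ρ : G →* Module.End k W) (hρ : Function.Injective ρ) : P G := by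
  let φ : G →* Matrix _ _ k :=
    (LinearMap.toMatrixAlgEquiv (Module.finBasis k W)).toMonoidHom.comp ρ
  refine hP.inj _ _ φ.toHomUnits (fun x y e => hρ ?_) h
  exact (LinearMap.toMatrixAlgEquiv (Module.finBasis k W)).injective (congrArg Units.val e)

theorem Closed2.gl_of_sl (hP : Closed2 c P) {K : Type} [Field K] (h : P (SN n K)) :
    P (GL (Fin n) K) := by
  rcases eq_or_ne n 0 with rfl | hn
  · exact hP.finite _
  refine hP.loc _ fun Γ hΓ => ?_
  have : Group.FG Γ := (Group.fg_iff_subgroup_fg Γ).mpr hΓ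
  let δ : Γ →* Kˣ := (Matrix.GeneralLinearGroup.det (n := Fin n) (R := K)).comp Γ.subtype
  obtain ⟨D0, σ, hD0, hσ⟩ := exists_root δ.range hn
  have hfi : (D0.comap δ.rangeRestrict).FiniteIndex := by
    refine ⟨?_⟩
    rw [Subgroup.index_comap_of_surjective _ δ.rangeRestrict_surjective]
    exact hD0.index_ne_zero
  refine hP.fin _ (D0.comap δ.rangeRestrict) hfi ?_
  let τ : D0.comap δ.rangeRestrict →* D0 :=
    (δ.rangeRestrict.comp (D0.comap δ.rangeRestrict).subtype).codRestrict D0 fun g => g.2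
  obtain ⟨φ, hφ⟩ := AlA_embed (Γ.subtype.comp (D0.comap δ.rangeRestrict).subtype)
    (Γ.subtype_injective.comp (D0.comap δ.rangeRestrict).subtype_injective)
    (δ.range.subtype.comp (σ.comp τ)) (by
      intro g
      have h1 := congrArg δ.range.subtype (hσ (τ g))
      rw [map_pow] at h1
      exact h1)
  exact hP.inj _ _ φ hφ (hP.prod _ _ h (hP.base _ (sc_comm mul_comm)))

theorem Closed2.of_invariant (hP : Closed2 c P) {E G : Type} [Field E] (hc : (c : E) = 0) [Group G]
    (ih : ∀ m < n, P (GL (Fin m) E)) (ρ : G →* GL (Fin n) E) (hρ : Function.Injective ρ)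
    (W : Submodule E (Fin n → E)) (h0 : W ≠ ⊥) (h1 : W ≠ ⊤)
    (hW : ∀ g, ∀ w ∈ W, (ρ g).1 *ᵥ w ∈ W) : P G := by
  let τ : G →* Module.End E (Fin n → E) :=
    (Matrix.toLinAlgEquiv' (R := E) (n := Fin n)).toMonoidHom.comp ((Units.coeHom _).comp ρ)
  have hτ : Function.Injective τ := fun x y e =>
    hρ (Units.ext ((Matrix.toLinAlgEquiv' (R := E) (n := Fin n)).injective e))
  have hτW : ∀ g, ∀ w ∈ W, τ g w ∈ W := hW
  let α : G →* Module.End E W :=
    { toFun := fun g => (τ g).restrict (hτW g)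
      map_one' := LinearMap.ext fun w => Subtype.ext (by
        change τ 1 w = w
        rw [map_one]
        rfl)
      map_mul' := fun a b => LinearMap.ext fun w => Subtype.ext (by
        change τ (a * b) w = τ a (τ b w)
        rw [map_mul]
        rfl) }
  let β : G →* Module.End E ((Fin n → E) ⧸ W) :=
    { toFun := fun g => W.mapQ W (τ g) (hτW g)
      map_one' := LinearMap.ext fun w => by
        obtain ⟨v, rfl⟩ := W.mkQ_surjective w
        change W.mkQ (τ 1 v) = W.mkQ v
        rw [map_one]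
        rfl
      map_mul' := fun a b => LinearMap.ext fun w => by
        obtain ⟨v, rfl⟩ := W.mkQ_surjective w
        change W.mkQ (τ (a * b) v) = W.mkQ (τ a (τ b v))
        rw [map_mul]
        rfl }
  have hd := W.finrank_quotient_add_finrank
  rw [Module.finrank_fin_fun] at hd
  have hW0 : Module.finrank E W ≠ 0 := fun e => h0 (Submodule.finrank_eq_zero.1 e)
  have hW1 : Module.finrank E W < n := by
    have := Submodule.finrank_lt h1
    rwa [Module.finrank_fin_fun] at this
  have p1 : P (Module.End E W)ˣ :=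
    hP.of_rep (ih _ hW1) (Units.coeHom _) Units.val_injective
  have p2 : P (Module.End E ((Fin n → E) ⧸ W))ˣ :=
    hP.of_rep (ih _ (by omega)) (Units.coeHom _) Units.val_injective
  have hk : ∀ x : (α.toHomUnits.prod β.toHomUnits).ker,
      (∀ w ∈ W, τ x w = w) ∧ ∀ v, τ x v - v ∈ W := by
    intro x
    have hx := MonoidHom.mem_ker.1 x.2
    have ha : α x = 1 := congrArg (fun z => (z.1 : Module.End E W)) hx
    have hb : β x = 1 := congrArg (fun z => (z.2 : Module.End E ((Fin n → E) ⧸ W))) hx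
    refine ⟨fun w hw => congrArg (fun z : Module.End E W => (z ⟨w, hw⟩ : Fin n → E)) ha,
      fun v => (Submodule.Quotient.eq W).1 ?_⟩
    exact congrArg (fun z : Module.End E ((Fin n → E) ⧸ W) => z (W.mkQ v)) hb
  refine hP.ker _ _ (α.toHomUnits.prod β.toHomUnits) (hP.prod _ _ p1 p2)
    (fun x hx y hy => hτ (LinearMap.ext fun v => ?_)) fun x hx => hτ (LinearMap.ext fun v => ?_)
  · rw [map_mul, map_mul, Module.End.mul_apply, Module.End.mul_apply]
    have e1 := (hk ⟨x, hx⟩).1 _ ((hk ⟨y, hy⟩).2 v)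
    have e2 := (hk ⟨y, hy⟩).1 _ ((hk ⟨x, hx⟩).2 v)
    rw [map_sub, sub_eq_iff_eq_add] at e1 e2
    rw [e1, e2]
    abel
  · have key : ∀ m : ℕ, τ (x ^ m) v = v + (m : E) • (τ x v - v) := fun m => by
      induction m with
      | zero => simp
      | succ m ih =>
        have e1 := (hk ⟨x, hx⟩).1 _ ((hk ⟨x, hx⟩).2 v)
        rw [pow_succ', map_mul, Module.End.mul_apply, ih, map_add, map_smul, e1, Nat.cast_succ,
          add_smul, one_smul]
        abel
    rw [key, hc, zero_smul, add_zero, map_one, Module.End.one_apply]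

theorem Closed2.of_span_ne (hP : Closed2 c P) {E G : Type} [Field E] [IsAlgClosed E]
    (hc : (c : E) = 0) [Group G] (ih : ∀ m < n, P (GL (Fin m) E)) (ρ : G →* GL (Fin n) E) (hρ : Function.Injective ρ)
    (h : Submodule.span E (Set.range fun g => (ρ g).1) ≠ ⊤) : P G := by
  obtain ⟨W, h0, h1, hW⟩ := burnside ρ h
  exact hP.of_invariant hc ih ρ hρ W h0 h1 hW

theorem Closed2.of_trace (hP : Closed2 c P) {k E G : Type} [Field k] [Field E] [Algebra k E] [Group G]
    (hk : ∀ m, P (GL (Fin m) k)) (ρ : G →* GL (Fin n) E) (hρ : Function.Injective ρ)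
    (h : Submodule.span E (Set.range fun g => (ρ g).1) = ⊤)
    (htr : ∀ g, (ρ g).1.trace ∈ (algebraMap k E).range) : P G := by
  have := finite_span ρ h htr
  let R := Submodule.span k (Set.range fun g => (ρ g).1)
  have hm : ∀ g, ∀ x ∈ R, LinearMap.mulLeft k (ρ g).1 x ∈ R := by
    intro g
    change R ≤ R.comap _
    refine Submodule.span_le.2 ?_
    rintro _ ⟨g', rfl⟩
    exact Submodule.subset_span ⟨g * g', by simp⟩
  let φ : G →* Module.End k R :=
    { toFun := fun g => (LinearMap.mulLeft k (ρ g).1).restrict (hm g)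
      map_one' := LinearMap.ext fun x => Subtype.ext (by simp)
      map_mul' := fun a b => LinearMap.ext fun x => Subtype.ext (by simp) }
  refine hP.of_rep (hk _) φ fun a b hab => hρ (Units.ext ?_)
  have h1 : (1 : Matrix (Fin n) (Fin n) E) ∈ R := Submodule.subset_span ⟨1, by simp⟩
  have h2 : (ρ a).1 * 1 = (ρ b).1 * 1 := congrArg (fun f : Module.End k R => (f ⟨1, h1⟩).1) hab
  rwa [mul_one, mul_one] at h2

theorem BA_prime (hP : Closed2 c P) {k : Type} [Field k]
    (hE : ∀ (E : Type) [Field E] [Algebra k E], FiniteDimensional k E → ∀ n, P (SN n E)) :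
    AlgP P k := by
  intro Ω _ _ halg n
  refine hP.gl_of_sl (hP.loc _ ?_)
  rintro _ ⟨S, rfl⟩
  have hT : ∀ x ∈ (ent S : Set Ω), IsIntegral k x := fun x _ => (halg.isAlgebraic x).isIntegral
  obtain ⟨φ, hφ, -⟩ := exists_lift (algebraMap (IntermediateField.adjoin k (ent S : Set Ω)) Ω)
    (Subgroup.closure (S : Set (SN n Ω))) (closure_entries _ fun s hs i j =>
      ⟨⟨_, IntermediateField.subset_adjoin k _ (mem_ent hs i j)⟩, rfl⟩)
  exact hP.inj _ _ φ hφ (hE _ (IntermediateField.finiteDimensional_adjoin hT) n)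

theorem BA_zmod (hP : Closed2 c P) (p : ℕ) [Fact p.Prime] : AlgP P (ZMod p) := by
  refine BA_prime hP fun E _ _ _ n => ?_
  have : Finite E := Module.finite_of_finite (ZMod p)
  exact hP.finite _

theorem BA_red (hP : Closed2 c P) {K E G : Type} [Field K] [Field E] [IsAlgClosed E]
    (hc : (c : E) = 0) [Group G] (f : K →+* E) (ih : ∀ m < n, P (GL (Fin m) E)) (ρ : G →* GL (Fin n) K)
    (hρ : Function.Injective ρ) (H : Subgroup G) (h : Red ρ H) : P H := by
  refine hP.of_span_ne hc ih ((Matrix.GeneralLinearGroup.map f).comp (ρ.comp H.subtype))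
    ((AlA_inj _ f.injective).comp (hρ.comp H.subtype_injective)) fun hs => span_ne_map f _ h ?_
  rw [eq_top_iff, ← hs]
  refine Submodule.span_mono ?_
  rintro _ ⟨g, rfl⟩
  exact ⟨_, ⟨g.1, g.2, rfl⟩, rfl⟩

theorem BA_alg (hP : Closed2 c P) {k K E G : Type} [Field k] [Field K] [Field E] [Algebra k E]
    [IsAlgClosed E] (hc : (c : E) = 0) [Group G] (f : K →+* E) (hk : AlgP P k)
    (ih : ∀ m < n, P (GL (Fin m) E)) (ρ : G →* GL (Fin n) K) (hρ : Function.Injective ρ)
    (H : Subgroup G) (h : ∀ g ∈ H, IsAlgebraic k (f (ρ g).1.trace)) : P H := by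
  let ψ : H →* GL (Fin n) E := (Matrix.GeneralLinearGroup.map f).comp (ρ.comp H.subtype)
  have hψ : Function.Injective ψ := (AlA_inj _ f.injective).comp (hρ.comp H.subtype_injective)
  by_cases hs : Submodule.span E (Set.range fun g => (ψ g).1) = ⊤
  · refine hP.of_trace (k := algebraicClosure k E) (hk _ inferInstance) ψ hψ hs fun g => ?_
    have h1 : (ψ g).1.trace = f (ρ g.1).1.trace := by
      simp only [Matrix.trace, map_sum]
      rfl
    refine ⟨⟨(ψ g).1.trace, mem_algebraicClosure_iff.2 ?_⟩, rfl⟩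
    rw [h1]
    exact h g.1 g.2
  · exact hP.of_span_ne hc ih ψ hψ hs

theorem BA_core (hP : Closed2 c P) {k Ω : Type} [Field k] [Field Ω] [Algebra k Ω]
    [IsAlgClosed Ω] (hc : (c : Ω) = 0) (hk : AlgP P k) (n : ℕ) : P (GL (Fin n) Ω) := by
  induction n using Nat.strong_induction_on with
  | _ n ih =>
  refine hP.gl_of_sl (hP.loc _ ?_)
  rintro _ ⟨S, rfl⟩
  obtain ⟨K, _, f, I, _, av, A, ha, hL, hT, hZ⟩ := exists_places k Ω (ent S)
  have hent : ∀ g ∈ Subgroup.closure (S : Set (SN n Ω)), ∀ i j, g.1 i j ∈ A.map f :=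
    closure_entries _ fun s hs i j => hT _ (mem_ent hs i j)
  obtain ⟨φ, hφ, hφe⟩ := exists_lift f (Subgroup.closure (S : Set (SN n Ω))) fun g hg i j => by
    obtain ⟨a, -, h⟩ := hent g hg i j
    exact ⟨a, h⟩
  let ρ := (Matrix.SpecialLinearGroup.toGL : SN n K →* GL (Fin n) K).comp φ
  have hρ : Function.Injective ρ := AlE_toGL.comp hφ
  have hA : ∀ g p q, (ρ g).1 p q ∈ A := fun g i j => by
    obtain ⟨a, ha', h⟩ := hent g.1 g.2 i j
    have : a = (φ g).1 i j := f.injective (h.trans (hφe g i j).symm)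
    change (φ g).1 i j ∈ A
    exact this ▸ ha'
  refine hP.geo _ (· ∈ Fam av ρ) (fun H hH => hH.elim (BA_red hP hc f ih ρ hρ H) fun h => ?_)
    (cdw_of_tw (Sq.tw_linear ha hL ρ (fun g => (φ g).2) hA))
  exact BA_alg hP hc f hk ih ρ hρ H fun g hg => hZ _ (A.sum_mem fun i _ => hA g i i) fun i => h i g hg

theorem BA_field (hP : Closed2 c P) {k : Type} (K : Type) [Field k] [Field K] [Algebra k K]
    (hc : (c : K) = 0) (hk : AlgP P k) (n : ℕ) : P (GL (Fin n) K) :=
  hP.inj _ _ (Matrix.GeneralLinearGroup.map (algebraMap K (AlgebraicClosure K)))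
    (AlA_inj _ (algebraMap K _).injective)
    (BA_core hP (by rw [← map_natCast (algebraMap K _), hc, map_zero]) hk n)

theorem BA_rat (hP : Closed2 0 P) (hC : ThmC) : AlgP P ℚ := by
  classical
  intro E _ _ halg n
  have : CharZero E := algebraRat.charZero E
  refine hP.inj _ _ (Matrix.GeneralLinearGroup.map (algebraMap E (AlgebraicClosure E)))
    (AlA_inj _ (algebraMap E _).injective) ?_
  have hΩ : ∀ x : AlgebraicClosure E, IsIntegral ℚ x := fun x => by
    obtain rfl : ‹Algebra ℚ E› = DivisionRing.toRatAlgebra := Subsingleton.elim _ _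
    exact ((Algebra.IsAlgebraic.trans ℚ E (AlgebraicClosure E)).isAlgebraic x).isIntegral
  induction n using Nat.strong_induction_on with
  | _ n ih =>
  refine hP.gl_of_sl (hP.loc _ ?_)
  rintro _ ⟨S, rfl⟩
  obtain ⟨i, hi⟩ := IsAlgClosed.exists_pow_nat_eq (-1 : AlgebraicClosure E) two_pos
  let K := IntermediateField.adjoin ℚ ((insert i (ent S) : Finset (AlgebraicClosure E)) :
    Set (AlgebraicClosure E))
  have : FiniteDimensional ℚ K := IntermediateField.finiteDimensional_adjoin fun x _ => hΩ x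
  have : NumberField K := ⟨⟩
  obtain ⟨φ, hφ, -⟩ := exists_lift (algebraMap K (AlgebraicClosure E))
    (Subgroup.closure (S : Set (SN n _))) (closure_entries _ fun s hs p q =>
      ⟨⟨_, subset_adjoin ℚ _ (Finset.mem_insert_of_mem (mem_ent hs p q))⟩, rfl⟩)
  let ρ := (Matrix.SpecialLinearGroup.toGL : SN n K →* GL (Fin n) K).comp φ
  have hρ : Function.Injective ρ := AlE_toGL.comp hφ
  exact hP.geo _ _ (fun H hH => hH.elim (BA_red hP Nat.cast_zero (algebraMap K _) ih ρ hρ H) (hP.base _))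
    (hC K ⟨⟨i, subset_adjoin ℚ _ (Finset.mem_insert_self _ _)⟩, Subtype.ext hi⟩ n _
      ((Group.fg_iff_subgroup_fg _).2 ⟨S, rfl⟩) ρ hρ fun g => (φ g).2)

theorem Closed2.gl_p (p : ℕ) [Fact p.Prime] (hP : Closed2 c P) (K : Type) [Field K] [CharP K p]
    (hc : (c : K) = 0) (n : ℕ) : P (GL (Fin n) K) :=
  let _ := ZMod.algebra K p
  BA_field hP K hc (BA_zmod hP p) n

theorem Closed2.gl_zero (hP : Closed2 0 P) (hC : ThmC) (K : Type) [Field K] [CharZero K] (n : ℕ) :
    P (GL (Fin n) K) := BA_field hP K Nat.cast_zero (BA_rat hP hC) n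

theorem Closed2.gl_field (hP : Closed2 0 P) (hC : ThmC) (K : Type) [Field K] (n : ℕ) :
    P (GL (Fin n) K) := by
  obtain ⟨p, hp⟩ := CharP.exists K
  rcases CharP.char_is_prime_or_zero K p with h | rfl
  · have := Fact.mk h
    exact hP.gl_p p K Nat.cast_zero n
  · have := CharP.charP_to_charZero K
    exact hP.gl_zero hC K n

theorem Closed2.of_chain (hP : Closed2 c P) {G Q : Type} [Group G] [Group Q] (φ : G →* Q)
    (hQ : P Q) (D : ℕ → Subgroup G) [∀ m, (D m).Normal] (h0 : D 0 = φ.ker)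
    (le : ∀ m, D (m + 1) ≤ D m) (h1 : ∀ m, ∀ a ∈ D m, ∀ b ∈ D m, a * b * a⁻¹ * b⁻¹ ∈ D (m + 1))
    (h2 : ∀ m, ∀ a ∈ D m, a ^ c ∈ D (m + 1)) {m : ℕ} (hm : D m = ⊥) : P G := by
  have key : ∀ m, P (G ⧸ D m) := fun m => by
    induction m with
    | zero =>
      exact hP.inj _ _ (QuotientGroup.lift (D 0) φ h0.le)
        ((QuotientGroup.injective_lift_iff _ _ _).2 h0) hQ
    | succ m ih =>
      refine hP.ker _ _ (QuotientGroup.map _ _ (MonoidHom.id G) (le m)) ih (fun a ha b hb => ?_)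
        fun a ha => ?_
      · obtain ⟨a, rfl⟩ := QuotientGroup.mk_surjective a
        obtain ⟨b, rfl⟩ := QuotientGroup.mk_surjective b
        exact commutatorElement_eq_one_iff_mul_comm.1
          ((QuotientGroup.eq_one_iff (a * b * a⁻¹ * b⁻¹)).2
            (h1 m a ((QuotientGroup.eq_one_iff a).1 ha) b ((QuotientGroup.eq_one_iff b).1 hb)))
      · obtain ⟨a, rfl⟩ := QuotientGroup.mk_surjective a
        exact (QuotientGroup.eq_one_iff (a ^ c)).2 (h2 m a ((QuotientGroup.eq_one_iff a).1 ha))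
  refine hP.inj _ _ (QuotientGroup.mk' (D m)) ?_ (key m)
  rw [← MonoidHom.ker_eq_bot_iff, QuotientGroup.ker_mk', hm]

theorem BA_pow {R : Type} [CommRing R] {I : Ideal R} {a : Matrix (Fin n) (Fin n) R}
    (ha : ∀ i j, (a - 1) i j ∈ I) (k : ℕ) (i j : Fin n) :
    (a ^ k - 1 - (k : R) • (a - 1)) i j ∈ I * I := by
  induction k generalizing i j with
  | zero => simp
  | succ k ih =>
    have e : a ^ (k + 1) - 1 - ((k + 1 : ℕ) : R) • (a - 1) =
        (a ^ k - 1 - (k : R) • (a - 1)) * a + (k : R) • ((a - 1) * (a - 1)) := by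
      simp only [pow_succ, Nat.cast_succ, add_smul, one_smul, sub_mul, mul_sub, smul_sub, one_mul,
        mul_one, smul_mul_assoc]
      abel
    rw [e, Matrix.add_apply, Matrix.mul_apply, Matrix.smul_apply]
    exact add_mem (Ideal.sum_mem _ fun l _ => Ideal.mul_mem_right _ _ (ih i l))
      (Ideal.mul_mem_left _ _ (AlA_mul ha ha i j))

theorem Closed2.gl_noeth (hP : Closed2 c P)
    (h : ∀ (K : Type) [Field K], (c : K) = 0 → P (GL (Fin n) K))
    (R : Type) [CommRing R] [IsNoetherianRing R] (hc : (c : R) = 0) : P (GL (Fin n) R) := by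
  have : Finite (minimalPrimes R) := (minimalPrimes.finite_of_isNoetherianRing R).to_subtype
  have : ∀ p : minimalPrimes R, p.1.IsPrime := fun p => Ideal.IsMinimalPrime.isPrime p.2
  let φ : GL (Fin n) R →* ∀ p : minimalPrimes R, GL (Fin n) (FractionRing (R ⧸ p.1)) :=
    MonoidHom.pi fun p => (Matrix.GeneralLinearGroup.map
      (algebraMap (R ⧸ p.1) (FractionRing (R ⧸ p.1)))).comp
        (Matrix.GeneralLinearGroup.map (Ideal.Quotient.mk p.1))
  obtain ⟨m, hm⟩ := IsNoetherianRing.isNilpotent_nilradical R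
  have le : ∀ k, nilradical R ^ (k + 1) * nilradical R ^ (k + 1) ≤ nilradical R ^ (k + 1 + 1) :=
    fun k => (pow_add _ _ _).ge.trans (Ideal.pow_le_pow_right (by omega))
  refine hP.of_chain φ (pi_ind (fun G _ _ => hP.finite G) hP.inj hP.prod _ fun p => h _ (by
      rw [← map_natCast ((algebraMap (R ⧸ p.1) _).comp (Ideal.Quotient.mk p.1)), hc, map_zero]))
    (fun k => φ.ker ⊓ (Matrix.GeneralLinearGroup.map (n := Fin n)
      (Ideal.Quotient.mk (nilradical R ^ (k + 1)))).ker) (inf_eq_left.2 fun g hg => ?_)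
    (fun k g hg => ⟨hg.1, (AlA_ker _ g).2 fun i j =>
      Ideal.pow_le_pow_right (Nat.le_succ _) ((AlA_ker _ g).1 hg.2 i j)⟩)
    (fun k a ha b hb => ⟨φ.ker.mul_mem (φ.ker.mul_mem (φ.ker.mul_mem ha.1 hb.1) (φ.ker.inv_mem ha.1))
      (φ.ker.inv_mem hb.1),
      (AlA_ker _ _).2 fun i j => le k (AlA_comm ((AlA_ker _ a).1 ha.2) ((AlA_ker _ b).1 hb.2) i j)⟩)
    (fun k a ha => ⟨pow_mem ha.1 c, (AlA_ker _ _).2 fun i j => le k ?_⟩) (m := m)
    (eq_bot_iff.2 fun g hg => Units.ext (sub_eq_zero.1 (Matrix.ext fun i j => ?_)))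
  · refine (AlA_ker _ g).2 fun i j => ?_
    rw [zero_add, pow_one]
    change _ ∈ (⊥ : Ideal R).radical
    rw [← Ideal.sInf_minimalPrimes, Submodule.mem_sInf]
    intro p hp
    refine (AlA_ker p g).1 ?_ i j
    have h1 := congrFun (MonoidHom.mem_ker.1 hg) ⟨p, hp⟩
    exact AlA_inj _ (IsFractionRing.injective (R ⧸ p) (FractionRing (R ⧸ p)))
      (h1.trans (map_one _).symm)
  · have := BA_pow ((AlA_ker _ a).1 ha.2) c i j
    rwa [hc, zero_smul, sub_zero, ← Units.val_pow_eq_pow_val] at this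
  · have := (AlA_ker _ g).1 hg.2 i j
    rwa [pow_succ, hm, zero_mul] at this

theorem Closed2.gl_ring' (hP : Closed2 c P)
    (h : ∀ (K : Type) [Field K], (c : K) = 0 → P (GL (Fin n) K)) (R : Type) [CommRing R]
    (hc : (c : R) = 0) : P (GL (Fin n) R) := by
  classical
  refine hP.loc _ fun H hH => ?_
  obtain ⟨S, rfl⟩ := hH
  let T : Finset R := S.biUnion fun s => Finset.univ.image (fun q : Fin n × Fin n => s q.1 q.2) ∪
    Finset.univ.image fun q : Fin n × Fin n => s⁻¹ q.1 q.2
  let A : Subalgebra ℤ R := Algebra.adjoin ℤ (T : Set R)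
  have : IsNoetherianRing A := isNoetherianRing_of_fg (Subalgebra.fg_adjoin_finset T)
  let f : GL (Fin n) A →* GL (Fin n) R := Matrix.GeneralLinearGroup.map A.val.toRingHom
  have hf : Function.Injective f := AlA_inj _ Subtype.val_injective
  have hle : Subgroup.closure (S : Set (GL (Fin n) R)) ≤ f.range := by
    refine (Subgroup.closure_le _).2 fun s hs => ?_
    have h1 : ∀ i j, s i j ∈ A := fun i j => Algebra.subset_adjoin (Finset.mem_coe.2
      (Finset.mem_biUnion.2 ⟨s, hs, Finset.mem_union_left _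
        (Finset.mem_image.2 ⟨(i, j), Finset.mem_univ _, rfl⟩)⟩))
    have h2 : ∀ i j, s⁻¹ i j ∈ A := fun i j => Algebra.subset_adjoin (Finset.mem_coe.2
      (Finset.mem_biUnion.2 ⟨s, hs, Finset.mem_union_right _
        (Finset.mem_image.2 ⟨(i, j), Finset.mem_univ _, rfl⟩)⟩))
    have hm : Function.Injective (A.val.toRingHom.mapMatrix (m := Fin n)) := fun x y hxy =>
      Matrix.ext fun i j => Subtype.ext (congrFun (congrFun hxy i) j)
    refine ⟨⟨Matrix.of fun i j => ⟨s i j, h1 i j⟩, Matrix.of fun i j => ⟨s⁻¹ i j, h2 i j⟩,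
      hm ?_, hm ?_⟩, Units.ext rfl⟩
    · rw [map_mul, map_one]
      exact s.mul_inv
    · rw [map_mul, map_one]
      exact s.inv_mul
  exact hP.inj _ _ ((MonoidHom.ofInjective hf).symm.toMonoidHom.comp (Subgroup.inclusion hle))
    ((MonoidHom.ofInjective hf).symm.injective.comp (Subgroup.inclusion_injective hle))
    (hP.gl_noeth h A (Subtype.ext hc))

theorem Closed2.gl_ring (hP : Closed2 0 P) (hC : ThmC) (R : Type) [CommRing R] (n : ℕ) :
    P (GL (Fin n) R) := hP.gl_ring' (fun K _ _ => hP.gl_field hC K n) R Nat.cast_zero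

theorem Closed2.gl_pos (hP : Closed2 c P) (h0 : c ≠ 0) (R : Type) [CommRing R] (hc : (c : R) = 0)
    (n : ℕ) : P (GL (Fin n) R) := by
  refine hP.gl_ring' (fun K _ h => ?_) R hc
  obtain ⟨p, hp⟩ := CharP.exists K
  rcases CharP.char_is_prime_or_zero K p with h' | rfl
  · have := Fact.mk h'
    exact hP.gl_p p K h n
  · have := CharP.charP_to_charZero K
    exact absurd (Nat.cast_eq_zero.1 h) h0

end Pool.Agent.Work.MP_9d1ffa_al.WL
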