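import Pool.Agent.Work.MP_9d1ffa_al.WL.BG
import Pool.Agent.Work.MP_9d1ffa_al.WL.Cm

/-! The theorem for all commutative rings. -/

namespace Pool.Agent.Work.MP_9d1ffa_al.WL

theorem whk_ring {G : Type} [Group G] {n : ℕ} (R : Type) [CommRing R] (ρ : G →* GL (Fin n) R)
    (hρ : Function.Injective ρ) (tf : ∀ g : G, IsOfFinOrder g → g = 1) : WhK G :=
  whk_ring_of thmC R ρ hρ tf

end Pool.Agent.Work.MP_9d1ffa_al.WL
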