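import Pool.Agent.Work.MP_9d1ffa_al.WL.LtD

/-! Long thin covers: centres, radii and generic thresholds. -/

namespace Pool.Agent.Work.MP_9d1ffa_al.WL

open Set Metric MeasureTheory Filter Topology
open scoped Pointwise NNReal

theorem CovD.thin {F : Type*} [MetricSpace F] {D : ℕ} {C : Set F} (h : CovD D C) : Thin D C := by
  intro k f hf
  obtain ⟨c, hc⟩ := h
  have key : ∀ η : ℝ, 0 < η → η ≤ 1 →
      volume (f '' C) ≤ ENNReal.ofReal (c * (4 * k) ^ (D + 1) * η) := by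
    intro η h0 h1
    obtain ⟨s, hs, hC⟩ := hc η h0 h1
    have k1 : ∀ y, volume (f '' (C ∩ closedBall y η)) ≤
        ENNReal.ofReal ((2 * (k * (2 * η))) ^ (D + 1)) := fun y => by
      rcases (C ∩ closedBall y η).eq_empty_or_nonempty with e | ⟨z, hz⟩
      · simp [e]
      · have k2 : f '' (C ∩ closedBall y η) ⊆ closedBall (f z) (k * (2 * η)) := by
          rintro _ ⟨x, hx, rfl⟩
          refine (hf.dist_le_mul x hx.1 z hz.1).trans ?_
          gcongr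
          linarith [dist_triangle_right x z y, mem_closedBall.1 hx.2, mem_closedBall.1 hz.2]
        refine (measure_mono k2).trans ?_
        rw [Real.volume_pi_closedBall _ (by positivity), Fintype.card_fin]
    have k3 : f '' C ⊆ ⋃ y ∈ s, f '' (C ∩ closedBall y η) := by
      rintro _ ⟨x, hx, rfl⟩
      obtain ⟨y, hy, e⟩ := mem_iUnion₂.1 (hC hx)
      exact mem_iUnion₂.2 ⟨y, hy, x, ⟨hx, e⟩, rfl⟩
    refine (measure_mono k3).trans ((measure_biUnion_finset_le _ _).trans ?_)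
    refine (Finset.sum_le_card_nsmul _ _ _ fun y _ => k1 y).trans ?_
    rw [← ENNReal.ofReal_nsmul]
    refine ENNReal.ofReal_le_ofReal ?_
    have e : s.card • (2 * (k * (2 * η))) ^ (D + 1) =
        (s.card * η ^ D) * (4 * (k : ℝ)) ^ (D + 1) * η := by
      rw [nsmul_eq_mul, show 2 * (k * (2 * η)) = (4 * (k : ℝ)) * η by ring, mul_pow, pow_succ η]
      ring
    rw [e]
    gcongr
  have ht : Tendsto (fun η : ℝ => ENNReal.ofReal (c * (4 * k) ^ (D + 1) * η)) (𝓝[>] 0) (𝓝 0) := by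
    have : Continuous fun η : ℝ => ENNReal.ofReal (c * (4 * k) ^ (D + 1) * η) :=
      ENNReal.continuous_ofReal.comp (by fun_prop)
    simpa using (this.tendsto 0).mono_left nhdsWithin_le_nhds
  refine le_antisymm (ge_of_tendsto ht ?_) zero_le
  filter_upwards [Ioc_mem_nhdsGT zero_lt_one] with η hη using key η hη.1 hη.2

theorem thin_of_dimH {F : Type*} [MetricSpace F] {D : ℕ} {C : Set F} (h : dimH C ≤ D) :
    Thin D C := by
  intro k f hf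
  have k1 : dimH (f '' C) < ((D + 1 : ℕ) : ℝ≥0) :=
    (hf.dimH_image_le.trans h).trans_lt (by norm_cast; omega)
  have k2 := hausdorffMeasure_of_dimH_lt k1
  rw [← hausdorffMeasure_pi_real, Fintype.card_fin]
  exact_mod_cast k2

theorem exists_theta {F C : Type*} [MetricSpace F] {K : Set F} (hK : IsCompact K) {D : ℕ}
    (hD : Thin D K) {S : Set C} (hS : S.Finite) (τ : C → F → ℝ)
    (hτ : ∀ c, ∃ k : ℝ≥0, LipschitzOnWith k (τ c) K) :
    ∃ (θ : Fin (D + 1) → ℝ) (δ : ℝ), 0 < δ ∧ 2 * δ ≤ 1 ∧ (∀ s, 1 < θ s ∧ θ s + 2 * δ ≤ 2) ∧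
      ∀ x ∈ K, ∃ s, ∀ c ∈ S, 2 * δ ≤ |τ c x - θ s| := by
  have := hS.to_subtype
  choose k hk using hτ
  have hl : ∀ f : Fin (D + 1) → S, LipschitzOnWith (Finset.univ.sup fun s => k (f s))
      (fun x s => τ (f s) x) K := fun f =>
    LipschitzOnWith.of_dist_le_mul fun x hx y hy => (dist_pi_le_iff (by positivity)).2 fun s =>
      ((hk (f s)).dist_le_mul x hx y hy).trans (by
        gcongr
        exact Finset.le_sup (f := fun s => k (f s)) (Finset.mem_univ s))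
  obtain ⟨θ, h1, h2⟩ : ∃ θ ∈ ball (fun _ : Fin (D + 1) => (5 / 4 : ℝ)) (1 / 4),
      θ ∉ ⋃ f : Fin (D + 1) → S, (fun x s => τ (f s) x) '' K := by
    refine not_subset.1 fun e => ?_
    exact (measure_ball_pos volume _ (by norm_num)).ne'
      (measure_mono_null e (measure_iUnion_null fun f => hD _ _ (hl f)))
  have hc : IsClosed (⋃ f : Fin (D + 1) → S, (fun x s => τ (f s) x) '' K) :=
    isClosed_iUnion_of_finite fun f => (hK.image_of_continuousOn (hl f).continuousOn).isClosed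
  obtain ⟨ε, h3, h4⟩ := Metric.isOpen_iff.1 hc.isOpen_compl θ h2
  have m1 := min_le_left (ε / 2) (1 / 4)
  have m2 := min_le_right (ε / 2) (1 / 4)
  refine ⟨θ, min (ε / 2) (1 / 4), by positivity, by linarith, fun s => ?_, fun x hx => ?_⟩
  · have := abs_lt.1 ((dist_le_pi_dist θ _ s).trans_lt h1)
    constructor <;> linarith [this.1, this.2]
  · by_contra e
    push Not at e
    choose f hf hf' using e
    refine h4 (a := fun s => τ (f s) x) ((dist_pi_lt_iff h3).2 fun s => ?_)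
      (mem_iUnion.2 ⟨fun s => ⟨f s, hf s⟩, x, hx, rfl⟩)
    exact (hf' s).trans_le (by linarith)

theorem Lt_unif {F Ω : Type*} [MetricSpace F] {W : F → Ω → ℝ}
    (h : ∀ x ε, 0 < ε → ∀ᶠ y in 𝓝 x, ∀ a, |W x a - W y a| ≤ ε) {C : Set F} (hC : IsCompact C)
    {ε : ℝ} (hε : 0 < ε) :
    ∃ δ : ℝ, 0 < δ ∧ ∀ x ∈ C, ∀ x', dist x' x ≤ δ → ∀ a, |W x' a - W x a| ≤ ε := by
  obtain ⟨V, hV, k⟩ := lebesgue_number_lemma_nhds hC fun x _ => h x (ε / 2) (by positivity)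
  obtain ⟨δ, h1, h2⟩ := mem_uniformity_dist.1 hV
  refine ⟨δ / 2, by positivity, fun x hx x' e a => ?_⟩
  obtain ⟨y, hy⟩ := k x hx
  have k1 := abs_le.1 (hy (a := x) (h2 (by simpa using h1)) a)
  have k2 := abs_le.1 (hy (a := x') (h2 (by rw [dist_comm]; linarith)) a)
  exact abs_le.2 ⟨by linarith [k1.1, k2.2], by linarith [k1.2, k2.1]⟩

section

variable {G F ι : Type*} [Group G] [MetricSpace F] [MulAction G F] [Fintype ι]
  {Φ : (ι → ℝ) → F → F}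

theorem FlowSp.free (h : FlowSp G Φ) {v : ι → ℝ} {w : F} (e : Φ v w = w) : v = 0 := by
  obtain ⟨L, hL⟩ := h.fprop {w} isCompact_singleton
  have k : ∀ n : ℕ, Φ (n • v) w = w := fun n => by
    induction n with
    | zero => rw [zero_smul, h.zero]
    | succ n ih => rw [succ_nsmul, h.add, e, ih]
  by_contra hv
  obtain ⟨n, hn⟩ := exists_nat_gt (L / ‖v‖)
  have k' := hL w rfl _ (k n)
  rw [div_lt_iff₀ (norm_pos_iff.2 hv)] at hn
  rw [← Nat.cast_smul_eq_nsmul ℝ, norm_smul, Real.norm_natCast] at k'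
  linarith

theorem FlowSp.short (h : FlowSp G Φ) {C : Set F} (hC : IsCompact C) :
    ∃ m : ℝ, 0 < m ∧ ∀ w ∈ C, ∀ v, Φ v w ∈ C → dist (Φ v w) w < m → ‖v‖ ≤ 1 := by
  obtain ⟨L, hL⟩ := h.fprop C hC
  have k : IsCompact ((closedBall (0 : ι → ℝ) L \ ball 0 1) ×ˢ C) :=
    ((isCompact_closedBall _ _).diff isOpen_ball).prod hC
  obtain ⟨m, h1, h2⟩ := k.exists_forall_le' (f := fun p => dist (Φ p.1 p.2) p.2) (a := 0)
    (h.cont.dist continuous_snd).continuousOn fun p hp =>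
      dist_pos.2 fun e => hp.1.2 (by simp [h.free e])
  refine ⟨m, h1, fun w hw v hv e => le_of_not_gt fun e' => ?_⟩
  exact (h2 (v, w) ⟨⟨by simpa using hL w hw v hv, by simpa using e'.le⟩, hw⟩).not_gt e

theorem FlowSp.fin (h : FlowSp G Φ) {C C' : Set F} (hC : IsCompact C) (hC' : IsCompact C')
    (L : ℝ) : {g : G | ∃ x ∈ C, ∃ t, ‖t‖ ≤ L ∧ g • Φ t x ∈ C'}.Finite := by
  refine (h.gprop _ ((((isCompact_closedBall (0 : ι → ℝ) L).prod hC).image h.cont).union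
    hC')).subset ?_
  rintro g ⟨x, hx, t, ht, e⟩
  exact ⟨_, Or.inl ⟨(t, x), ⟨by simpa using ht, hx⟩, rfl⟩, Or.inr e⟩

theorem FlowSp.bdd (h : FlowSp G Φ) {C C' : Set F} (hC : IsCompact C) (hC' : IsCompact C')
    (g : G) : ∃ L : ℝ, ∀ x ∈ C, ∀ t, g • Φ t x ∈ C' → ‖t‖ ≤ L := by
  obtain ⟨L, hL⟩ := h.fprop _ (hC.union (hC'.image (h.gcont g⁻¹)))
  exact ⟨L, fun x hx t e => hL x (Or.inl hx) t (Or.inr ⟨_, e, inv_smul_smul _ _⟩)⟩

theorem FlowSp.centres [LocallyCompactSpace F] (h : FlowSp G Φ) {K : Set F} (hK : IsCompact K)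
    (q : ℝ) {η : ℝ} (hη : 0 < η) :
    ∃ (K1 : Set F) (T : Finset F) (ρ : F → ℝ), IsCompact K1 ∧
      (∀ ξ ∈ T, ξ ∈ K ∧ 0 < ρ ξ ∧ 3 * ρ ξ ≤ η ∧ ∀ y, dist y ξ < 3 * ρ ξ → y ∈ K1) ∧
      (∀ x ∈ K, ∃ ξ ∈ T, dist x ξ < ρ ξ) ∧
      (∀ ξ ∈ T, ∀ (g : G) y u, ‖u‖ ≤ q → dist y ξ < 3 * ρ ξ → dist (g • Φ u y) ξ < 3 * ρ ξ →
        ∃ v, g • Φ v ξ = ξ) ∧
      ∀ ξ ∈ T, ∀ ζ ∈ T, ∀ (g : G) y u z v, ‖u‖ ≤ q → dist y ξ < 3 * ρ ξ →
        dist (g • Φ u y) ζ < 3 * ρ ζ → dist z ξ < 3 * ρ ξ → dist (g • Φ v z) ζ < 3 * ρ ζ →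
        ‖v - u‖ ≤ 1 := by
  obtain ⟨r, r0, hK1⟩ := hK.exists_isCompact_cthickening
  have hin : ∀ ξ ∈ K, ∀ y, dist y ξ ≤ r → y ∈ cthickening r K := fun ξ hξ y e =>
    mem_cthickening_of_dist_le y ξ r K hξ e
  obtain ⟨m, m0, hm⟩ := h.short hK1
  have hH := h.fin hK1 hK1 q
  have hc : ∀ g : G, Continuous fun p : (ι → ℝ) × F => g • Φ p.1 p.2 := fun g =>
    (h.gcont g).comp h.cont
  obtain ⟨μ, μ0, μ1, μ2⟩ : ∃ μ : ℝ, 0 < μ ∧ 2 * μ ≤ r ∧ 2 * μ ≤ m :=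
    ⟨min r m / 2, by positivity, by linarith [min_le_left r m], by linarith [min_le_right r m]⟩
  obtain ⟨e, e0, he⟩ : ∃ e : ℝ, 0 < e ∧ ∀ g ∈ {g : G | ∃ x ∈ cthickening r K, ∃ t, ‖t‖ ≤ q ∧
      g • Φ t x ∈ cthickening r K}, ∀ u, ‖u‖ ≤ q → ∀ y ∈ cthickening r K,
      ∀ z ∈ cthickening r K, dist z y < e → dist (g • Φ u z) (g • Φ u y) < μ := by
    refine ((eventually_mem_nhdsWithin (a := (0 : ℝ)) (s := Ioi 0)).and
      ((eventually_all_finite hH).2 fun g _ => ?_)).exists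
    obtain ⟨d, d0, hd⟩ := Metric.uniformContinuousOn_iff.1
      (((isCompact_closedBall (0 : ι → ℝ) q).prod hK1).uniformContinuousOn_of_continuous
        (hc g).continuousOn) μ μ0
    filter_upwards [Ioo_mem_nhdsGT d0] with e he u hu y hy z hz k
    exact hd (u, z) ⟨by simpa using hu, hz⟩ (u, y) ⟨by simpa using hu, hy⟩
      (by simpa using k.trans he.2)
  obtain ⟨b, b0, b1, b2, b3⟩ : ∃ b : ℝ, 0 < b ∧ 6 * b ≤ μ ∧ 6 * b ≤ e ∧ 3 * b ≤ η :=
    ⟨min (min μ e) η / 6, by positivity,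
      by linarith [min_le_left (min μ e) η, min_le_left μ e],
      by linarith [min_le_left (min μ e) η, min_le_right μ e],
      by linarith [min_le_right (min μ e) η]⟩
  have hρ : ∀ ξ : F, ∃ ρ : ℝ, 0 < ρ ∧ ρ ≤ b ∧ (ξ ∈ K → ∀ (g : G) y u, ‖u‖ ≤ q →
      dist y ξ < 3 * ρ → dist (g • Φ u y) ξ < 3 * ρ → ∃ v, g • Φ v ξ = ξ) := by
    intro ξ
    have k : ∀ᶠ p : F × F in 𝓝 (ξ, ξ), ∀ g ∈ {g : G | ∃ x ∈ cthickening r K, ∃ t, ‖t‖ ≤ q ∧
        g • Φ t x ∈ cthickening r K}, (∃ v, g • Φ v ξ = ξ) ∨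
        ∀ u ∈ closedBall (0 : ι → ℝ) q, g • Φ u p.1 ≠ p.2 := by
      refine (eventually_all_finite hH).2 fun g _ => ?_
      by_cases k : ∃ v, g • Φ v ξ = ξ
      · exact Eventually.of_forall fun _ => Or.inl k
      refine ((isCompact_closedBall _ _).eventually_forall_of_forall_eventually
        (P := fun (p : F × F) u => g • Φ u p.1 ≠ p.2) fun u _ => ?_).mono fun _ => Or.inr
      exact (isOpen_ne_fun ((hc g).comp (continuous_snd.prodMk continuous_fst.fst))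
        continuous_fst.snd).mem_nhds fun e => k ⟨u, e⟩
    obtain ⟨d, d0, hd⟩ := Metric.eventually_nhds_iff.1 k
    have m1 := min_le_left b (d / 3)
    have m2 := min_le_right b (d / 3)
    refine ⟨min b (d / 3), by positivity, m1, fun hξ g y u hu h1 h2 => ?_⟩
    refine (hd (y := (y, g • Φ u y)) (max_lt (by linarith) (by linarith)) g
      ⟨y, hin ξ hξ _ (by linarith), u, hu, hin ξ hξ _ (by linarith)⟩).resolve_right fun e => ?_
    exact e u (by simpa using hu) rfl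
  choose ρ ρ0 ρ1 ρ2 using hρ
  obtain ⟨T, hT, hT'⟩ := hK.elim_nhds_subcover (fun ξ => ball ξ (ρ ξ))
    fun ξ _ => ball_mem_nhds ξ (ρ0 ξ)
  have h3 : ∀ ξ ∈ T, ∀ y, dist y ξ < 3 * ρ ξ → y ∈ cthickening r K := fun ξ hξ y e =>
    hin ξ (hT ξ hξ) y (by linarith [ρ1 ξ])
  refine ⟨_, T, ρ, hK1, fun ξ hξ => ⟨hT ξ hξ, ρ0 ξ, by linarith [ρ1 ξ], h3 ξ hξ⟩,
    fun x hx => by simpa using hT' hx, fun ξ hξ => ρ2 ξ (hT ξ hξ),
    fun ξ hξ ζ hζ g y u z v hu h1 h2 h4 h5 => ?_⟩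
  have k1 := he g ⟨y, h3 ξ hξ y h1, u, hu, h3 ζ hζ _ h2⟩ u hu y (h3 ξ hξ y h1) z (h3 ξ hξ z h4)
    (by linarith [dist_triangle_right z y ξ, ρ1 ξ])
  have k2 : dist (g • Φ u z) ζ < μ + 3 * ρ ζ := by
    linarith [dist_triangle (g • Φ u z) (g • Φ u y) ζ]
  have k3 : Φ (v - u) (g • Φ u z) = g • Φ v z := by rw [h.smul, ← h.add, sub_add_cancel]
  refine hm (g • Φ u z) (hin ζ (hT ζ hζ) _ (by linarith [ρ1 ζ])) _ (k3 ▸ h3 ζ hζ _ h5) ?_
  rw [k3]
  linarith [dist_triangle_right (g • Φ v z) (g • Φ u z) ζ, ρ1 ζ]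

end

end Pool.Agent.Work.MP_9d1ffa_al.WL
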