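import Pool.Agent.Work.MP_9d1ffa_al.WL.LtB
import Pool.Agent.Work.MP_9d1ffa_al.WL.LtG

/-! Long thin covers, cocompact form. -/

namespace Pool.Agent.Work.MP_9d1ffa_al.WL

open Set Metric MeasureTheory Filter Topology
open scoped Pointwise NNReal

theorem Lt_cut {a a' ρ : ℝ} (h : 0 < ρ) : |min 3 (a / ρ) - min 3 (a' / ρ)| ≤ |a - a'| / ρ := by
  refine (abs_min_sub_min_le_max _ _ _ _).trans (max_le ?_ ?_)
  · simpa using (by positivity : 0 ≤ |a - a'| / ρ)
  · rw [← sub_div, abs_div, abs_of_pos h]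

theorem exists_ltw {G F ι : Type*} [Group G] [MetricSpace F] [LocallyCompactSpace F]
    [MulAction G F] [Fintype ι] {Φ : (ι → ℝ) → F → F} (h : FlowSp G Φ) {K : Set F}
    (hK : IsCompact K) {D : ℕ} (hD : Thin D K)
    (hL : ∀ (g : G) (L : ℝ), ∃ k : ℝ≥0, ∀ t, ‖t‖ ≤ L → LipschitzOnWith k (fun x => g • Φ t x) K)
    {ε κ η : ℝ} (hε : 0 < ε) (hη : 0 < η) :
    ∃ W, LTW G Φ K ((D + 1) * 5 ^ Fintype.card ι) ε κ η W := by
  obtain ⟨q, q2, qκ⟩ : ∃ q : ℝ, 2 ≤ q ∧ κ / ε ≤ q := ⟨_, le_max_left _ _, le_max_right _ _⟩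
  obtain ⟨K1, T, ρ, hK1, hT, hcov, hsame, htco⟩ := h.centres hK q hη
  have ρ0 : ∀ ξ : T, 0 < ρ ξ := fun ξ => (hT ξ ξ.2).2.1
  obtain ⟨p, hp⟩ : ∃ p : F → G × T → (ι → ℝ) → ℝ,
      ∀ x c t, p x c t = min 3 (dist (c.1⁻¹ • Φ t x) c.2 / ρ c.2) := ⟨_, fun _ _ _ => rfl⟩
  have p0 : ∀ x c t, 0 ≤ p x c t := fun x c t => by
    have := ρ0 c.2
    rw [hp]
    positivity
  have p3 : ∀ x c t, p x c t ≤ 3 := fun x c t => hp x c t ▸ min_le_left _ _
  have plt : ∀ {x c t}, p x c t < 3 → dist (c.1⁻¹ • Φ t x) c.2 < 3 * ρ c.2 := fun {x c t} e => by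
    rwa [hp, min_lt_iff, or_iff_right (lt_irrefl _), div_lt_iff₀ (ρ0 c.2)] at e
  have pK : ∀ {x c t}, p x c t < 3 → c.1⁻¹ • Φ t x ∈ K1 := fun {x c t} e =>
    (hT c.2 c.2.2).2.2.2 _ (plt e)
  have pG : ∀ (g : G) x c, p (g • x) ((Equiv.mulLeft g).prodCongr (Equiv.refl T) c) = p x c :=
    fun g x c => funext fun t => by simp [hp, h.smul, mul_smul]
  have pΦ : ∀ s x, p (Φ s x) = fun c t => p x c (t + s) := fun s x => by
    ext c t
    rw [hp, hp, h.add]
  have tr : ∀ (g g' : G) y t t', (g'⁻¹ * g) • Φ (t' - t) (g⁻¹ • Φ t y) = g'⁻¹ • Φ t' y :=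
    fun g g' y t t' => by rw [h.smul, ← h.add, sub_add_cancel, mul_smul, smul_inv_smul]
  have pfin : ∀ {C : Set F}, IsCompact C → ∀ L : ℝ,
      {c : G × T | ∃ x ∈ C, ∃ t, ‖t‖ ≤ L ∧ p x c t < 3}.Finite := fun {C} hC L =>
    ((h.fin hC hK1 L).inv.prod (finite_univ (α := T))).subset
      fun c ⟨x, hx, t, ht, e⟩ => ⟨⟨x, hx, t, ht, pK e⟩, trivial⟩
  have pbdd : ∀ {C : Set F}, IsCompact C → ∀ c, ∃ L : ℝ, ∀ x ∈ C, ∀ t, L < ‖t‖ → p x c t = 3 :=
    fun {C} hC c => (h.bdd hC hK1 c.1⁻¹).imp fun L hL x hx t e =>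
      le_antisymm (p3 x c t) (le_of_not_gt fun e' => (hL x hx t (pK e')).not_gt e)
  have plip : ∀ c, ∃ k : ℝ≥0, LipschitzOnWith k (fun x => tau (p x c)) K := fun c => by
    obtain ⟨L, h1⟩ := pbdd hK c
    obtain ⟨k, h2⟩ := hL c.1⁻¹ L
    have r0 := ρ0 c.2
    refine ⟨k / ⟨ρ c.2, r0.le⟩, LipschitzOnWith.of_dist_le_mul fun x hx y hy => ?_⟩
    refine tau_close (p0 x c) (p0 y c) fun t => ?_
    rcases le_or_gt ‖t‖ L with e | e
    · rw [hp, hp]
      refine (Lt_cut r0).trans ?_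
      rw [NNReal.coe_div, div_mul_eq_mul_div]
      exact div_le_div_of_nonneg_right
        ((abs_dist_sub_le _ _ _).trans ((h2 t e).dist_le_mul x hx y hy)) r0.le
    · rw [h1 x hx t e, h1 y hy t e, sub_self, abs_zero]
      positivity
  have puc : ∀ x L e, 0 < e → ∀ᶠ y in 𝓝 x, ∀ c t, ‖t‖ ≤ L → p x c t < 3 ∨ p y c t < 3 →
      ∀ u, |p x c u - p y c u| ≤ e := fun x L e e0 => by
    obtain ⟨N, hN, hx⟩ := exists_compact_mem_nhds x
    have k : ∀ c, ∀ᶠ y in 𝓝 x, ∀ u, |p x c u - p y c u| ≤ e := fun c => by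
      obtain ⟨L', h1⟩ := pbdd hN c
      have hc : Continuous fun z : F × (ι → ℝ) => |p x c z.2 - p z.1 c z.2| := by
        simp only [hp]
        have k1 := (h.gcont c.1⁻¹).comp (h.cont.comp
          (continuous_snd.prodMk (continuous_const (X := F × (ι → ℝ)) (y := x))))
        have k2 := (h.gcont c.1⁻¹).comp (h.cont.comp
          (continuous_snd.prodMk (continuous_fst (X := F) (Y := ι → ℝ))))
        exact ((continuous_const.min ((k1.dist continuous_const).div_const _)).sub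
          (continuous_const.min ((k2.dist continuous_const).div_const _))).abs
      filter_upwards [hx, (isCompact_closedBall (0 : ι → ℝ) L').eventually_forall_of_forall_eventually
        (x₀ := x) (P := fun y u => |p x c u - p y c u| < e) fun u _ =>
          (isOpen_lt hc continuous_const).mem_nhds (by simpa using e0)] with y hy h2 u
      rcases le_or_gt ‖u‖ L' with k | k
      · exact (h2 u (by simpa using k)).le
      · rw [h1 x (mem_of_mem_nhds hx) u k, h1 y hy u k, sub_self, abs_zero]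
        exact e0.le
    filter_upwards [hx, (eventually_all_finite (pfin hN L)).2 fun c _ => k c] with y hy h1 c t ht hc
    exact h1 c (hc.elim (fun a => ⟨x, mem_of_mem_nhds hx, t, ht, a⟩) fun a => ⟨y, hy, t, ht, a⟩)
  obtain ⟨θ, δ, δ0, δ1, hθ, hgen⟩ :=
    exists_theta hK hD (pfin hK (LtR q T.card)) (fun c x => tau (p x c)) plip
  let X : Lay (G × T) (Set F) (Fin (D + 1)) :=
    { rel := fun c c' => ∃ y t t', ‖t - t'‖ ≤ q ∧ p y c t < 3 ∧ p y c' t' < 3
      rk := fun c => T.equivFin c.2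
      atm := fun c => orb Φ (c.1 • (c.2 : F))
      q := q
      M := T.card
      θ := fun s _ => θ s
      δ := δ
      symm := fun c c' ⟨y, t, t', a, b, d⟩ => ⟨y, t', t, by rwa [norm_sub_rev], d, b⟩
      rkM := fun c => (T.equivFin c.2).2.le
      same := by
        rintro ⟨g, ξ⟩ ⟨g', ξ'⟩ ⟨y, t, t', a, b, d⟩ e
        obtain rfl : ξ = ξ' := T.equivFin.injective (Fin.ext e)
        obtain ⟨v, hv⟩ := hsame ξ ξ.2 (g'⁻¹ * g) _ (t' - t) (by rwa [norm_sub_rev]) (plt b)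
          (by rw [tr]; exact plt d)
        exact h.orb_eq.2 ⟨v, by rw [h.smul, ← inv_smul_eq_iff.1 ((mul_smul _ _ _).symm.trans hv)]⟩
      q2 := q2
      δ0 := δ0
      δ1 := δ1
      θ1 := fun s _ => (hθ s).1
      θ2 := fun s _ => (hθ s).2 }
  have hP : ∀ x, X.Prof (p x) := fun x =>
    { p0 := p0 x
      p3 := p3 x
      rl := fun c c' t t' a b d => ⟨x, t, t', d, a, b⟩
      tco := by
        rintro c c' t t' ⟨y, u, u', a, b, d⟩ a' b'
        have k := htco c.2 c.2.2 c'.2 c'.2.2 (c'.1⁻¹ * c.1) _ (u' - u) _ (t' - t)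
          (by rwa [norm_sub_rev]) (plt b) (by rw [tr]; exact plt d) (plt a')
          (by rw [tr]; exact plt b')
        rw [norm_sub_rev] at a ⊢
        linarith [norm_sub_norm_le (t' - t) (u' - u)] }
  refine ⟨fun x => X.W (p x), fun g x a => ?_, fun x => Lay.W_mem (p3 x), fun x => ?_,
    fun x hx => ?_, fun x a e => ?_, fun x s a hs => ?_, fun C hC ε' e0 => Lt_unif ?_ hC e0⟩
  · refine Lay.W_equiv ((Equiv.mulLeft g).prodCongr (Equiv.refl T)) (g • ·)
      (MulAction.injective g) (fun c c' => ⟨?_, ?_⟩) (fun c => rfl) (fun c => ?_) (pG g x)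
      (fun _ _ => rfl) a
    · rintro ⟨y, t, t', a, b, d⟩
      rw [← smul_inv_smul g y, pG] at b d
      exact ⟨_, t, t', a, b, d⟩
    · rintro ⟨y, t, t', a, b, d⟩
      exact ⟨g • y, t, t', a, by rwa [pG], by rwa [pG]⟩
    · exact (congrArg (orb Φ) (mul_smul g c.1 (c.2 : F))).trans (h.smul_orb g _).symm
  · simpa using Lay.W_card (hP x)
  · obtain ⟨ξ, hξ, e⟩ := hcov x hx
    obtain ⟨s, hs⟩ := hgen x hx
    refine Lay.W_big (hP x) (c := (1, ⟨ξ, hξ⟩)) (s := s) ?_ fun c => ?_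
    · rw [hp, h.zero, inv_one, one_smul]
      exact min_le_of_right_le ((div_le_one (ρ0 _)).2 e.le)
    · refine or_iff_not_imp_left.2 fun k => hs c ?_
      obtain ⟨t, h1, h2⟩ := kk_ne X.R0 (p3 x c) k
      exact ⟨x, hx, t, h1.le, h2⟩
  · obtain ⟨s, c, -, h1, t, -, h2⟩ := Lay.W_ne (p3 x) e
    exact ⟨c.1, c.2, t, (hT _ c.2.2).1, h1.symm, (plt h2).trans_le (hT _ c.2.2).2.2.1⟩
  · rw [pΦ]
    refine (Lay.W_shift (p3 x) s a).trans ((div_le_iff₀ (by linarith : 0 < q)).2 ?_)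
    rw [div_le_iff₀ hε] at qκ
    linarith
  · intro x e e0
    have m1 := min_le_left (e / 2) 1
    have m0 : 0 < min (e / 2) 1 := by positivity
    filter_upwards [puc x (LtR q T.card) (min (e / 2) 1 * δ) (by positivity)] with y hy a
    linarith [Lay.W_close (hP x) (hP y) m0.le (min_le_right _ _) hy a]

end Pool.Agent.Work.MP_9d1ffa_al.WL
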