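import Mathlib

/-! Long thin covers: the hypotheses. -/

namespace Pool.Agent.Work.MP_9d1ffa_al.WL

open Set Metric MeasureTheory
open scoped Pointwise NNReal

/-- A group `G` and a flow `Φ` of `ι → ℝ` act on `F`; the two actions commute and each of them
is proper. -/
structure FlowSp (G : Type*) {F ι : Type*} [Group G] [MetricSpace F] [MulAction G F] [Fintype ι]
    (Φ : (ι → ℝ) → F → F) : Prop where
  zero : ∀ x, Φ 0 x = x
  add : ∀ s t x, Φ (s + t) x = Φ s (Φ t x)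
  smul : ∀ s (g : G) x, Φ s (g • x) = g • Φ s x
  cont : Continuous fun p : (ι → ℝ) × F => Φ p.1 p.2
  gcont : ∀ g : G, Continuous fun x : F => g • x
  gprop : ∀ C : Set F, IsCompact C → {g : G | ∃ x ∈ C, g • x ∈ C}.Finite
  fprop : ∀ C : Set F, IsCompact C → ∃ L : ℝ, ∀ x ∈ C, ∀ t, Φ t x ∈ C → ‖t‖ ≤ L

/-- the flow orbit of `y` -/
def orb {F ι : Type*} (Φ : (ι → ℝ) → F → F) (y : F) : Set F := range fun t => Φ t y

/-- every Lipschitz image of `C` in `ℝ ^ (D + 1)` is a null set -/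
def Thin {F : Type*} [MetricSpace F] (D : ℕ) (C : Set F) : Prop :=
  ∀ (k : ℝ≥0) (f : F → Fin (D + 1) → ℝ), LipschitzOnWith k f C → volume (f '' C) = 0

/-- `C` is covered by at most `c / η ^ D` closed balls of radius `η` -/
def CovD {F : Type*} [MetricSpace F] (D : ℕ) (C : Set F) : Prop :=
  ∃ c : ℝ, ∀ η : ℝ, 0 < η → η ≤ 1 →
    ∃ s : Finset F, (s.card : ℝ) * η ^ D ≤ c ∧ C ⊆ ⋃ y ∈ s, closedBall y η

/-- Long thin weights: `W x` is a weight on the flow orbits. -/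
structure LTW (G : Type*) {F ι : Type*} [Group G] [MetricSpace F] [MulAction G F] [Fintype ι]
    (Φ : (ι → ℝ) → F → F) (K : Set F) (N : ℕ) (ε κ η : ℝ) (W : F → Set F → ℝ) : Prop where
  eqv : ∀ (g : G) x a, W (g • x) (g • a) = W x a
  mem : ∀ x a, 0 ≤ W x a ∧ W x a ≤ 1
  card : ∀ x, (Function.support (W x)).encard ≤ N
  big : ∀ x ∈ K, ∃ a, 1 / 4 ≤ W x a
  near : ∀ x a, W x a ≠ 0 → ∃ (g : G) (ξ : F) (t : ι → ℝ), ξ ∈ K ∧ a = orb Φ (g • ξ) ∧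
    dist (g⁻¹ • Φ t x) ξ < η
  flow : ∀ x s a, ‖s‖ ≤ κ → |W (Φ s x) a - W x a| ≤ ε
  unif : ∀ C : Set F, IsCompact C → ∀ ε' : ℝ, 0 < ε' → ∃ δ : ℝ, 0 < δ ∧
    ∀ x ∈ C, ∀ x', dist x' x ≤ δ → ∀ a, |W x' a - W x a| ≤ ε'

section

variable {G F ι : Type*} [Group G] [MetricSpace F] [MulAction G F] [Fintype ι]
  {Φ : (ι → ℝ) → F → F}

theorem FlowSp.smul_orb (h : FlowSp G Φ) (g : G) (y : F) : g • orb Φ y = orb Φ (g • y) := by
  ext z
  simp only [orb, mem_smul_set, mem_range, h.smul, exists_exists_eq_and]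

theorem FlowSp.orb_flow (h : FlowSp G Φ) (u : ι → ℝ) (y : F) : orb Φ (Φ u y) = orb Φ y := by
  ext z
  simp only [orb, mem_range, ← h.add]
  exact ⟨fun ⟨t, e⟩ => ⟨_, e⟩, fun ⟨t, e⟩ => ⟨t - u, by rwa [sub_add_cancel]⟩⟩

theorem FlowSp.orb_eq (h : FlowSp G Φ) {y y' : F} : orb Φ y = orb Φ y' ↔ ∃ u, Φ u y = y' := by
  refine ⟨fun e => ?_, fun ⟨u, e⟩ => by rw [← e, h.orb_flow]⟩
  have k : y' ∈ orb Φ y' := ⟨0, h.zero _⟩
  rwa [← e] at k

end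

end Pool.Agent.Work.MP_9d1ffa_al.WL
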